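import Mathlib

set_option autoImplicit false

namespace Pool.Agent.H35.Dijoin

open Finset Matrix

abbrev F := ZMod 2

theorem F01 (x : F) : x = 0 ∨ x = 1 := by revert x; decide
theorem F_ne : (0 : F) ≠ 1 := by decide

def Spans {n : ℕ} (R : Finset (Fin n)) (M : Matrix (Fin n) (Fin n) F) : Prop :=
  ∀ i, ∃ c : Fin n → F, ∀ j, M i j = ∑ k ∈ R, c k * M k j

theorem exists_spans {n r : ℕ} (hr : r ≤ n) (M : Matrix (Fin n) (Fin n) F) (h : M.rank ≤ r) :
    ∃ R : Finset (Fin n), R.card = r ∧ Spans R M := by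
  classical
  obtain ⟨κ, a, ha, hsp, hli⟩ := exists_linearIndependent' F M.row
  have : Finite κ := Finite.of_injective a ha
  have := Fintype.ofFinite κ
  have h1 : Fintype.card κ ≤ r := by
    rw [linearIndependent_iff_card_eq_finrank_span.1 hli, Set.finrank, hsp,
      ← rank_eq_finrank_span_row]
    exact h
  obtain ⟨R, hR, hc⟩ := Finset.exists_superset_card_eq (s := univ.image a) (n := r)
    (card_image_le.trans (by simpa using h1)) (by simpa using hr)
  refine ⟨R, hc, fun i => ?_⟩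
  have hm : M.row i ∈ Submodule.span F (M.row '' (R : Set (Fin n))) := by
    have : M.row i ∈ Submodule.span F (Set.range (M.row ∘ a)) := by
      rw [hsp]; exact Submodule.subset_span ⟨i, rfl⟩
    refine Submodule.span_mono ?_ this
    rintro _ ⟨k, rfl⟩
    exact ⟨a k, hR (by simp), rfl⟩
  rw [Submodule.mem_span_image_finset_iff_exists_fun'] at hm
  obtain ⟨c, hc⟩ := hm
  refine ⟨c, fun j => ?_⟩
  have := congrFun hc j
  simp only [Finset.sum_apply, Pi.smul_apply, smul_eq_mul] at this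
  exact this.symm

theorem spans_unique {n : ℕ} {R : Finset (Fin n)} {M N : Matrix (Fin n) (Fin n) F}
    (hM : M.IsSymm) (hN : N.IsSymm) (sM : Spans R M) (sN : Spans R N)
    (h : ∀ k ∈ R, ∀ j, M k j = N k j) : M = N := by
  ext i j
  obtain ⟨c, hc⟩ := sM i
  obtain ⟨d, hd⟩ := sN j
  calc M i j = ∑ k ∈ R, c k * ∑ l ∈ R, d l * N l k := by
        rw [hc j]
        refine sum_congr rfl fun k hk => ?_
        rw [h k hk, ← hd k, hN.apply]
    _ = ∑ l ∈ R, d l * ∑ k ∈ R, c k * M k l := by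
        simp only [mul_sum]
        rw [sum_comm]
        refine sum_congr rfl fun l hl => sum_congr rfl fun k hk => ?_
        rw [h k hk, hN.apply l k]; ring
    _ = N i j := by
        rw [hN.apply j i, hd i]
        refine sum_congr rfl fun l hl => ?_
        rw [← hc l, ← h l hl, hM.apply]

open Classical in
theorem card_spans {n : ℕ} (R : Finset (Fin n)) :
    #{M : Matrix (Fin n) (Fin n) F | M.IsSymm ∧ Spans R M} ≤ 2 ^ (#R * n - (#R).choose 2) := by
  let E : Finset (Fin n × Fin n) := (R ×ˢ univ) \ {x ∈ R ×ˢ R | x.1 < x.2}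
  have hE : #E = #R * n - (#R).choose 2 := by
    rw [card_sdiff_of_subset, card_product_filter_lt]
    · simp
    · intro x hx
      simp only [mem_filter, mem_product] at hx
      simp [hx.1.1]
  rw [← hE, ← card_powerset]
  refine card_le_card_of_injOn (fun M => {x ∈ E | M x.1 x.2 = 1}) (fun M _ => mem_coe.2 (mem_powerset.2 (filter_subset _ _))) ?_
  intro M hM N hN e
  simp only [coe_filter, mem_univ, true_and, Set.mem_ofPred_eq] at hM hN
  have k1 : ∀ x ∈ E, M x.1 x.2 = N x.1 x.2 := by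
    intro x hx
    have : x ∈ {x ∈ E | M x.1 x.2 = 1} ↔ x ∈ {x ∈ E | N x.1 x.2 = 1} := by
      simp only at e; rw [e]
    simp only [mem_filter, hx, true_and] at this
    rcases F01 (M x.1 x.2) with a | a <;> rcases F01 (N x.1 x.2) with b | b <;> simp_all
  refine spans_unique hM.1 hN.1 hM.2 hN.2 fun k hk j => ?_
  by_cases hj : j ∈ R ∧ k < j
  · rw [hM.1.apply j k, hN.1.apply j k]
    exact k1 (j, k) (by simp [E, hj.1, hk, hj.2.le])
  · refine k1 (k, j) ?_
    simp only [E, mem_sdiff, mem_product, hk, mem_univ, mem_filter, true_and]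
    tauto

open Classical in
theorem card_lowrank {n r : ℕ} (hr : r ≤ n) :
    #{M : Matrix (Fin n) (Fin n) F | M.IsSymm ∧ M.rank ≤ r} ≤ 2 ^ n * 2 ^ (r * n - r.choose 2) := by
  have : ({M : Matrix (Fin n) (Fin n) F | M.IsSymm ∧ M.rank ≤ r} : Finset _) ⊆
      (powersetCard r univ).biUnion fun R =>
        ({M : Matrix (Fin n) (Fin n) F | M.IsSymm ∧ Spans R M} : Finset _) := by
    intro M hM
    simp only [mem_filter, mem_univ, true_and] at hM
    obtain ⟨R, h1, h2⟩ := exists_spans hr M hM.2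
    simp only [mem_biUnion, mem_powersetCard, subset_univ, true_and, mem_filter, mem_univ]
    exact ⟨R, h1, hM.1, h2⟩
  refine (card_le_card this).trans ((card_biUnion_le_card_mul _ _ (2 ^ (r * n - r.choose 2))
    ?_).trans ?_)
  · intro R hR
    have := card_spans R
    rwa [(mem_powersetCard.1 hR).2] at this
  · refine Nat.mul_le_mul_right _ ?_
    rw [card_powersetCard, card_univ, Fintype.card_fin]
    exact Nat.choose_le_two_pow _ _

def Tn {n : ℕ} (A : Matrix (Fin n) (Fin n) F) (u v : Fin n) : Prop := u ≠ v ∧ (u < v ↔ A u v = 0)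

theorem Tn_tour {n : ℕ} {A : Matrix (Fin n) (Fin n) F} (hA : A.IsSymm) (u v : Fin n) (h : u ≠ v) :
    Tn A u v ↔ ¬ Tn A v u := by
  simp only [Tn, hA.apply u v]
  rcases lt_or_gt_of_ne h with e | e
  · have := e.asymm; have := h.symm; tauto
  · have := e.asymm; have := h.symm; tauto

def Bad {n : ℕ} (r : ℕ) (A : Matrix (Fin n) (Fin n) F) : Prop :=
  ∃ M : Matrix (Fin n) (Fin n) F, M.IsSymm ∧ M.rank ≤ r ∧
    ∃ f : Fin n → ℕ, ∀ u v, u ≠ v → (Tn A u v ↔ M u v = 0) → f u < f v

open Classical in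
theorem card_bad {n r : ℕ} (hr : r ≤ n) {α : Type} (s : Finset α)
    (A : α → Matrix (Fin n) (Fin n) F) (hs : ∀ a, (A a).IsSymm)
    (hi : ∀ a ∈ s, ∀ b ∈ s, (∀ i j, i ≠ j → A a i j = A b i j) → a = b) :
    #{a ∈ s | Bad r (A a)} ≤ n ^ n * (2 ^ n * 2 ^ (r * n - r.choose 2)) := by
  have hex : ∀ a, ∃ p : (Fin n → Fin n) × Matrix (Fin n) (Fin n) F, Bad r (A a) →
      p.2.IsSymm ∧ p.2.rank ≤ r ∧ ∀ u v, u ≠ v → ((Tn (A a) u v ↔ p.2 u v = 0) ↔ p.1 u < p.1 v) := by
    intro a
    by_cases h : Bad r (A a)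
    · obtain ⟨M, h1, h2, f, hf⟩ := h
      have hlt : ∀ u, #{w | f w < f u} < n := by
        intro u
        have : ({w | f w < f u} : Finset (Fin n)) ⊂ univ :=
          (ssubset_univ_iff).2 fun e => by
            have : u ∈ ({w | f w < f u} : Finset (Fin n)) := by rw [e]; simp
            simp at this
        simpa using card_lt_card this
      have hg : ∀ u v, f u < f v → #{w | f w < f u} < #{w | f w < f v} := by
        intro u v huv
        refine card_lt_card ((ssubset_iff_of_subset ?_).2 ⟨u, by simpa using huv, by simp⟩)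
        intro w hw
        simp only [mem_filter, mem_univ, true_and] at hw ⊢
        omega
      refine ⟨(fun u => ⟨_, hlt u⟩, M), fun _ => ⟨h1, h2, fun u v huv => ⟨fun e => ?_, fun e => ?_⟩⟩⟩
      · exact hg u v (hf u v huv e)
      · by_contra hc
        have := hg v u (hf v u huv.symm (by
          rw [h1.apply u v, Tn_tour (hs a) v u huv.symm]; tauto))
        simp only [Fin.lt_def] at e
        omega
    · exact ⟨(id, 0), fun h' => absurd h' h⟩
  choose p hp using hex
  refine le_trans (card_le_card_of_injOn p (t := univ ×ˢ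
    ({M : Matrix (Fin n) (Fin n) F | M.IsSymm ∧ M.rank ≤ r} : Finset _)) ?_ ?_) ?_
  · intro a ha
    simp only [coe_filter, Set.mem_ofPred_eq] at ha
    have := hp a ha.2
    simp [this.1, this.2.1]
  · intro a ha b hb e
    simp only [coe_filter, Set.mem_ofPred_eq] at ha hb
    refine hi a ha.1 b hb.1 fun i j hij => ?_
    have h1 := (hp a ha.2).2.2 i j hij
    have h2 := (hp b hb.2).2.2 i j hij
    rw [e, ← h2] at h1
    simp only [Tn] at h1
    have h3 : A a i j = 0 ↔ A b i j = 0 := by tauto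
    rcases F01 (A a i j) with x | x <;> rcases F01 (A b i j) with y | y <;> simp_all
  · rw [card_product]
    exact Nat.mul_le_mul (by simp) (card_lowrank hr)

theorem gram_inj {ι : Type} [Fintype ι] [LinearOrder ι] {Y Z : Matrix ι ι F}
    (hY : ∀ i j, j < i → Y i j = 0) (hZ : ∀ i j, j < i → Z i j = 0)
    (dY : ∀ i, Y i i = 1) (dZ : ∀ i, Z i i = 1)
    (h : ∀ i j, i ≠ j → (Yᵀ * Y) i j = (Zᵀ * Z) i j) : Y = Z := by
  classical
  have : ∀ i, ∀ j, Y i j = Z i j := by
    intro i
    induction i using WellFoundedLT.induction with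
    | ind i ih =>
      intro j
      rcases lt_trichotomy i j with e | e | e
      · have := h i j e.ne
        simp only [mul_apply, transpose_apply] at this
        rw [← add_sum_erase _ _ (mem_univ i), ← add_sum_erase _ _ (mem_univ i), dY, dZ,
          one_mul, one_mul] at this
        have e2 : ∑ k ∈ univ.erase i, Y k i * Y k j = ∑ k ∈ univ.erase i, Z k i * Z k j := by
          refine sum_congr rfl fun k hk => ?_
          rcases lt_or_gt_of_ne (ne_of_mem_erase hk) with l | l
          · rw [ih k l, ih k l]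
          · rw [hY k i l, hZ k i l, zero_mul, zero_mul]
        rw [e2] at this
        exact add_right_cancel this
      · rw [← e, dY, dZ]
      · rw [hY i j e, hZ i j e]
  exact Matrix.ext this

def YY {n : ℕ} (s : Finset (Fin n × Fin n)) : Matrix (Fin n) (Fin n) F :=
  fun i j => if i = j then 1 else if i < j ∧ (i, j) ∈ s then 1 else 0

def SS (n : ℕ) : Matrix (Fin n) (Fin n) F := fun i j => if j ≤ i then 1 else 0

theorem YY_ut {n : ℕ} (s : Finset (Fin n × Fin n)) (i j : Fin n) (h : j < i) : YY s i j = 0 := by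
  simp [YY, h.ne', h.asymm]

theorem YY_diag {n : ℕ} (s : Finset (Fin n × Fin n)) (i : Fin n) : YY s i i = 1 := by simp [YY]

theorem YY_det {n : ℕ} (s : Finset (Fin n × Fin n)) : IsUnit (YY s)ᵀ.det := by
  rw [det_transpose, det_of_isUpperTriangular (fun i j h => YY_ut s i j h)]
  simp [YY_diag]

noncomputable def ZZ {n : ℕ} (s : Finset (Fin n × Fin n)) : Matrix (Fin n) (Fin n) F :=
  (YY s)ᵀ⁻¹ * SS n

theorem YZ {n : ℕ} (s : Finset (Fin n × Fin n)) : (YY s)ᵀ * ZZ s = SS n := by
  rw [ZZ, ← Matrix.mul_assoc, mul_nonsing_inv _ (YY_det s), Matrix.one_mul]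

theorem SS_lt (n : ℕ) : (SS n).IsLowerTriangular := by
  intro i j h
  have : i < j := h
  simp [SS, this]

theorem ZZ_lt {n : ℕ} (s : Finset (Fin n × Fin n)) (i j : Fin n) (h : i < j) : ZZ s i j = 0 := by
  have := invertibleOfIsUnitDet _ (YY_det s)
  have h1 : (YY s)ᵀ.IsLowerTriangular := fun i j h => YY_ut s j i h
  exact ((blockTriangular_inv_of_blockTriangular h1).mul (SS_lt n)) h

theorem ZZ_diag {n : ℕ} (s : Finset (Fin n × Fin n)) (i : Fin n) : ZZ s i i = 1 := by
  have := congrFun (congrFun (YZ s) i) i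
  simp only [mul_apply, transpose_apply] at this
  rw [sum_eq_single i] at this
  · simpa [YY_diag, SS] using this
  · intro k _ hk
    rcases lt_or_gt_of_ne hk with l | l
    · rw [ZZ_lt s k i l, mul_zero]
    · rw [YY_ut s k i l, zero_mul]
  · simp

theorem YY_inj {n : ℕ} {s t : Finset (Fin n × Fin n)}
    (hs : s ∈ powerset ({x : Fin n × Fin n | x.1 < x.2} : Finset _))
    (ht : t ∈ powerset ({x : Fin n × Fin n | x.1 < x.2} : Finset _)) (h : YY s = YY t) : s = t := by
  ext ⟨i, j⟩
  have := congrFun (congrFun h i) j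
  rw [mem_powerset] at hs ht
  by_cases e : i < j
  · simp only [YY, e.ne, if_false, e, true_and] at this
    by_cases a : (i, j) ∈ s <;> by_cases b : (i, j) ∈ t <;> simp_all
  · constructor
    · intro a; exact absurd (by simpa using hs a) e
    · intro a; exact absurd (by simpa using ht a) e

theorem ZZ_inj {n : ℕ} {s t : Finset (Fin n × Fin n)} (h : ZZ s = ZZ t) : YY s = YY t := by
  have e : (YY s)ᵀ * ZZ s = (YY t)ᵀ * ZZ s := by rw [YZ, h, YZ]
  have hu : IsUnit (ZZ s).det := by
    rw [det_of_isLowerTriangular _ (fun i j h => ZZ_lt s i j h)]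
    simp [ZZ_diag]
  have := congrArg (· * (ZZ s)⁻¹) e
  simp only [Matrix.mul_assoc, mul_nonsing_inv _ hu, Matrix.mul_one] at this
  exact transpose_injective this

theorem gram_symm {m n : Type} [Fintype m] (Y : Matrix m n F) : (Yᵀ * Y).IsSymm := by
  rw [IsSymm, transpose_mul, transpose_transpose]

theorem exists_good' {n r : ℕ} (hr : r ≤ n)
    (hnum : 2 * (n ^ n * (2 ^ n * 2 ^ (r * n - r.choose 2))) < 2 ^ (n.choose 2)) :
    ∃ Y Z : Matrix (Fin n) (Fin n) F, Yᵀ * Z = SS n ∧ ¬ Bad r (Yᵀ * Y) ∧ ¬ Bad r (Zᵀ * Z) := by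
  classical
  by_contra hc
  push Not at hc
  let U := powerset ({x : Fin n × Fin n | x.1 < x.2} : Finset _)
  have b1 := card_bad hr U (fun s => (YY s)ᵀ * YY s) (fun s => gram_symm _)
    (fun s hs t ht h => YY_inj hs ht
      (gram_inj (YY_ut s) (YY_ut t) (YY_diag s) (YY_diag t) h))
  have b2 := card_bad hr U (fun s => (ZZ s)ᵀ * ZZ s) (fun s => gram_symm _)
    (fun s hs t ht h => YY_inj hs ht (ZZ_inj
      (gram_inj (ι := (Fin n)ᵒᵈ) (fun i j h => ZZ_lt s i j h) (fun i j h => ZZ_lt t i j h)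
        (ZZ_diag s) (ZZ_diag t) h)))
  have hU : #U = 2 ^ (n.choose 2) := by
    rw [card_powerset, Fintype.card_product_filter_lt, Fintype.card_fin]
  have hsub : U ⊆ {a ∈ U | Bad r ((YY a)ᵀ * YY a)} ∪ {a ∈ U | Bad r ((ZZ a)ᵀ * ZZ a)} := by
    intro a ha
    have := hc _ _ (YZ a)
    simp only [mem_union, mem_filter, ha, true_and]
    tauto
  have := (card_le_card hsub).trans ((card_union_le _ _).trans (Nat.add_le_add b1 b2))
  rw [hU] at this
  omega

theorem exists_good : ∃ (n r : ℕ) (Y Z : Matrix (Fin n) (Fin n) F), n = 2 * r ∧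
    Yᵀ * Z = SS n ∧ ¬ Bad r (Yᵀ * Y) ∧ ¬ Bad r (Zᵀ * Z) := by
  obtain ⟨Y, Z, h⟩ := exists_good' (n := 80) (r := 40) (by norm_num) (by
    rw [Nat.choose_two_right, Nat.choose_two_right]
    decide +kernel)
  exact ⟨80, 40, Y, Z, rfl, h⟩

theorem join {n : ℕ} {Y Z : Matrix (Fin n) (Fin n) F} (h : Yᵀ * Z = SS n) :
    ∃ (X : Matrix (Fin n) (Fin n ⊕ Fin n) F) (f : Fin n ⊕ Fin n → ℕ), ∀ u v, u ≠ v →
      (Sum.Lex (Tn (Yᵀ * Y)) (Tn (Zᵀ * Z)) u v ↔ (Xᵀ * X) u v = 0) → f u < f v := by
  refine ⟨fromCols Y Z, Sum.elim (fun i => 2 * i.1 + 1) (fun j => 2 * j.1), ?_⟩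
  rw [transpose_fromCols, fromRows_mul_fromCols]
  have h' : Zᵀ * Y = (SS n)ᵀ := by rw [← h, transpose_mul, transpose_transpose]
  rw [h, h']
  rintro (u | u) (v | v) huv e
  · have : u ≠ v := fun e => huv (congrArg _ e)
    simp only [Sum.lex_inl_inl, fromBlocks_apply₁₁, Tn] at e
    have : u < v := by tauto
    simp only [Sum.elim_inl]; omega
  · simp only [Sum.Lex.sep, fromBlocks_apply₁₂, SS, true_iff] at e
    have : ¬ v ≤ u := fun h => by simp [h] at e
    simp only [Sum.elim_inl, Sum.elim_inr]; omega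
  · simp only [Sum.lex_inr_inl, fromBlocks_apply₂₁, SS, false_iff, transpose_apply] at e
    have : u ≤ v := by by_contra h; simp [h] at e
    simp only [Sum.elim_inl, Sum.elim_inr]; omega
  · have : u ≠ v := fun e => huv (congrArg _ e)
    simp only [Sum.lex_inr_inr, fromBlocks_apply₂₂, Tn] at e
    have : u < v := by tauto
    simp only [Sum.elim_inr]; omega

theorem self_dec {n : ℕ} (A : Matrix (Fin n) (Fin n) F) (u v : Fin n) (h : u ≠ v)
    (e : Tn A u v ↔ A u v = 0) : u.1 < v.1 := by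
  simp only [Tn] at e
  have : u < v := by tauto
  exact this

theorem acyc_of_pot {V : Type} {T : V → V → Prop} (h0 : ∀ u, ¬ T u u)
    (h1 : ∀ u v, u ≠ v → (T u v ↔ ¬ T v u)) (M : V → V → F) {f : V → ℕ}
    (hf : ∀ u v, u ≠ v → (T u v ↔ M u v = 0) → f u < f v) (x : V) :
    ¬ Relation.TransGen (fun u v => (T u v ∧ M u v = 0) ∨ (T v u ∧ M u v = 1)) x x := by
  have k : ∀ u v, ((T u v ∧ M u v = 0) ∨ (T v u ∧ M u v = 1)) → f u < f v := by
    intro u v h
    have huv : u ≠ v := by
      rintro rfl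
      have := h0 u
      tauto
    refine hf u v huv ?_
    have := h1 u v huv
    have := F_ne
    rcases h with h | h
    · tauto
    · rw [h.2]; tauto
  have : ∀ u v, Relation.TransGen (fun u v => (T u v ∧ M u v = 0) ∨ (T v u ∧ M u v = 1)) u v →
      f u < f v := by
    intro u v h
    induction h with
    | single h => exact k _ _ h
    | tail _ h ih => exact ih.trans (k _ _ h)
  exact fun h => lt_irrefl _ (this x x h)

theorem pot_of_acyc {V : Type} [Fintype V] {T : V → V → Prop}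
    (h1 : ∀ u v, u ≠ v → (T u v ↔ ¬ T v u)) (M : V → V → F)
    (h : ∀ x, ¬ Relation.TransGen (fun u v => (T u v ∧ M u v = 0) ∨ (T v u ∧ M u v = 1)) x x) :
    ∃ f : V → ℕ, ∀ u v, u ≠ v → (T u v ↔ M u v = 0) → f u < f v := by
  classical
  refine ⟨fun u => #{w | Relation.TransGen
    (fun u v => (T u v ∧ M u v = 0) ∨ (T v u ∧ M u v = 1)) w u}, fun u v huv e => ?_⟩
  have k : (T u v ∧ M u v = 0) ∨ (T v u ∧ M u v = 1) := by
    have := h1 u v huv
    have := F01 (M u v)
    tauto
  refine card_lt_card ((ssubset_iff_of_subset ?_).2 ⟨u, ?_, ?_⟩)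
  · intro w hw
    simp only [mem_filter, mem_univ, true_and] at hw ⊢
    exact hw.tail k
  · simp only [mem_filter, mem_univ, true_and]
    exact .single k
  · simp only [mem_filter, mem_univ, true_and]
    exact h u

end Pool.Agent.H35.Dijoin
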