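import Mathlib

set_option autoImplicit false

namespace Pool.Agent.H35.APN

open Finset

/-- The space `𝔽₂ⁿ`. -/
abbrev V (n : ℕ) : Type := Fin n → ZMod 2

/-- `F` is almost perfect nonlinear. -/
def IsAPN {n : ℕ} (F : V n → V n) : Prop :=
  ∀ a b : V n, a ≠ 0 → (univ.filter fun x => F x + F (x + a) = b).card = 0 ∨
    (univ.filter fun x => F x + F (x + a) = b).card = 2

/-- The Walsh transform. -/
def walsh {n : ℕ} (F : V n → V n) (u v : V n) : ℤ :=
  ∑ x : V n, (-1) ^ (v ⬝ᵥ F x + u ⬝ᵥ x).val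

/-- `F` is plateaued. -/
def Plateaued {n : ℕ} (F : V n → V n) : Prop :=
  ∀ v : V n, v ≠ 0 → ∃ l : ℝ, 0 ≤ l ∧ ∀ u : V n,
    (walsh F u v : ℝ) = 0 ∨ (walsh F u v : ℝ) = l ∨ (walsh F u v : ℝ) = -l

/-- The graph of `F`. -/
def graph {n : ℕ} (F : V n → V n) : Finset (V n × V n) := univ.image fun x => (x, F x)

/-- The exclude multiplicity of `p`. -/
def mult {n : ℕ} (F : V n → V n) (p : V n × V n) : ℕ :=
  (((graph F).powersetCard 3).filter fun T => ∑ q ∈ T, q = p).card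

end Pool.Agent.H35.APN
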