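import Pool.Agent.H35.APNDefs

set_option autoImplicit false
set_option linter.unusedSimpArgs false

namespace Pool.Agent.H35.APN

open Finset

def chi (t : ZMod 2) : ℤ := (-1) ^ t.val

theorem chi_add (s t : ZMod 2) : chi (s + t) = chi s * chi t := by revert s t; decide

theorem chi_sq (s : ZMod 2) : chi s * chi s = 1 := by revert s; decide

variable {n : ℕ}

theorem add_self' (x : V n) : x + x = 0 := funext fun _ => CharTwo.add_self_eq_zero _

theorem add_eq (x y : V n) : x + y = 0 ↔ x = y := by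
  rw [add_eq_zero_iff_eq_neg, neg_eq_of_add_eq_zero_right (add_self' y)]

theorem cardV : Fintype.card (V n) = 2 ^ n := by simp

theorem orth (x : V n) : ∑ v : V n, chi (v ⬝ᵥ x) = if x = 0 then 2 ^ n else 0 := by
  split_ifs with h
  · simp [h, chi]
  · obtain ⟨i, hi⟩ := Function.ne_iff.1 h
    have h1 : x i = 1 := (by decide : ∀ t : ZMod 2, t ≠ 0 → t = 1) _ hi
    have := Equiv.sum_comp (Equiv.addRight (Pi.single i 1 : V n)) fun v => chi (v ⬝ᵥ x)
    simp only [Equiv.coe_addRight, add_dotProduct, single_dotProduct, h1, chi_add, mul_one (1 : ZMod 2),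
      ← sum_mul, show chi 1 = -1 by decide] at this
    linarith

theorem walsh_eq (F : V n → V n) (u v : V n) :
    walsh F u v = ∑ x, chi (v ⬝ᵥ F x) * chi (u ⬝ᵥ x) := sum_congr rfl fun _ _ => chi_add _ _

theorem inv1 (f : V n → ℤ) (a : V n) :
    ∑ u : V n, (∑ x, f x * chi (u ⬝ᵥ x)) * chi (u ⬝ᵥ a) = 2 ^ n * f a := by
  simp only [sum_mul, mul_assoc, ← chi_add, ← dotProduct_add]
  rw [sum_comm]
  simp only [← mul_sum, orth, add_eq]
  simp [mul_comm]

theorem conv (f g : V n → ℤ) (u : V n) : (∑ x, f x * chi (u ⬝ᵥ x)) * ∑ x, g x * chi (u ⬝ᵥ x) =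
    ∑ z, (∑ x, f x * g (x + z)) * chi (u ⬝ᵥ z) := by
  simp only [sum_mul]
  rw [sum_comm]
  refine sum_congr rfl fun x _ => ?_
  rw [mul_sum, ← Equiv.sum_comp (Equiv.addLeft x)]
  refine sum_congr rfl fun z _ => ?_
  simp only [Equiv.coe_addLeft, dotProduct_add, chi_add]
  linear_combination f x * g (x + z) * chi (u ⬝ᵥ z) * chi_sq (u ⬝ᵥ x)

theorem parseval (F : V n → V n) (v : V n) : ∑ u, walsh F u v ^ 2 = 2 ^ n * 2 ^ n := by
  have := inv1 (fun z => ∑ x, chi (v ⬝ᵥ F x) * chi (v ⬝ᵥ F (x + z))) 0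
  simp only [← conv (fun x => chi (v ⬝ᵥ F x)) (fun x => chi (v ⬝ᵥ F x)), ← walsh_eq] at this
  simpa [chi_sq, show chi 0 = 1 by decide, sq] using this

theorem cube (F : V n → V n) (v a : V n) (L : ℤ) (h : ∀ u, walsh F u v ^ 3 = L * walsh F u v) :
    ∑ x, ∑ y, chi (v ⬝ᵥ (F x + F y + F (x + y + a))) = L * chi (v ⬝ᵥ F a) := by
  have h1 := inv1 (fun z => ∑ x, chi (v ⬝ᵥ F x) *
    ∑ y, chi (v ⬝ᵥ F y) * chi (v ⬝ᵥ F (y + (x + z)))) a
  have h2 := inv1 (fun x => chi (v ⬝ᵥ F x)) a
  simp only [← conv (fun x => chi (v ⬝ᵥ F x))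
    (fun z => ∑ y, chi (v ⬝ᵥ F y) * chi (v ⬝ᵥ F (y + z))),
    ← conv (fun x => chi (v ⬝ᵥ F x)) (fun x => chi (v ⬝ᵥ F x)), ← walsh_eq] at h1 h2
  rw [sum_congr rfl (g := fun u => L * (walsh F u v * chi (u ⬝ᵥ a))) fun u _ => by
    linear_combination chi (u ⬝ᵥ a) * h u, ← mul_sum, h2, mul_left_comm] at h1
  rw [mul_left_cancel₀ (by positivity) h1]
  simp only [mul_sum, dotProduct_add, chi_add, mul_assoc]
  exact sum_congr rfl fun x _ => sum_congr rfl fun y _ => by rw [add_left_comm y, add_assoc]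

theorem count (F : V n → V n) (a b : V n) (L : V n → ℤ)
    (h : ∀ v u, walsh F u v ^ 3 = L v * walsh F u v) :
    (2 : ℤ) ^ n * (univ.filter fun p : V n × V n => F p.1 + F p.2 + F (p.1 + p.2 + a) = b).card =
      ∑ v, L v * chi (v ⬝ᵥ (F a + b)) := by
  simp only [dotProduct_add _ (F a), chi_add, ← mul_assoc, ← fun v => cube F v a (L v) (h v)]
  simp only [sum_mul, ← chi_add, ← dotProduct_add]
  rw [sum_comm, card_filter, Fintype.sum_prod_type]
  push_cast
  rw [mul_sum]
  refine sum_congr rfl fun x _ => ?_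
  rw [sum_comm, mul_sum]
  refine sum_congr rfl fun y _ => ?_
  simp only [orth, add_eq]
  simp

theorem cnt_diag {F : V n → V n} (hF : IsAPN F) (a : V n) :
    ((univ.filter fun p : V n × V n => F p.1 + F p.2 + F (p.1 + p.2 + a) = F a).card : ℤ) =
      3 * 2 ^ n - 2 := by
  rw [card_filter, Fintype.sum_prod_type]
  push_cast
  have : ∀ x, ∑ y, (if F x + F y + F (x + y + a) = F a then (1 : ℤ) else 0) =
      2 + if x = a then 2 ^ n - 2 else 0 := by
    intro x
    by_cases hx : x = a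
    · subst hx
      simp [add_right_comm x _ x, add_self', add_assoc]
    · have e : ∀ y, F x + F y + F (x + y + a) = F a ↔ F y + F (y + (x + a)) = F x + F a := by
        intro y
        rw [← add_eq, ← add_eq (F y + _), show x + y + a = y + (x + a) by abel]
        exact Eq.congr_left (by abel)
      simp only [e, sum_boole, if_neg hx]
      rcases hF (x + a) (F x + F a) (mt (add_eq _ _).1 hx) with h | h
      · refine absurd (card_eq_zero.1 h) (ne_empty_of_mem (a := x) ?_)
        simp [← add_assoc, add_self']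
      · simp [h]
  simp only [this, sum_add_distrib]
  simp
  ring

theorem six (F : V n → V n) (a b : V n) (hb : b ≠ F a) :
    (univ.filter fun p : V n × V n => F p.1 + F p.2 + F (p.1 + p.2 + a) = b).card =
      6 * mult F (a, b) := by
  have inj : Function.Injective fun x => (x, F x) := fun _ _ h => congrArg Prod.fst h
  have nd : ∀ x y z : V n, x + y + z = a → F x + F y + F z = b → x ≠ y := by
    rintro x y z h1 h2 rfl
    rw [add_self', zero_add] at h1 h2
    exact hb (h1 ▸ h2.symm)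
  have s3 : ∀ x y : V n, x + y + (x + y + a) = a := fun x y => by
    rw [← add_assoc, add_self', zero_add]
  have sm : ∀ x y z : V n, x ≠ y → x ≠ z → y ≠ z →
      ∑ q ∈ ({(x, F x), (y, F y), (z, F z)} : Finset _), q = (x + y + z, F x + F y + F z) := by
    intro x y z h1 h2 h3
    rw [sum_insert (by simp [h1, h2]), sum_pair (inj.ne h3)]
    simp [add_assoc]
  rw [mult, card_eq_sum_card_fiberwise
    (f := fun p => {(p.1, F p.1), (p.2, F p.2), (p.1 + p.2 + a, F (p.1 + p.2 + a))})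
    (t := ((graph F).powersetCard 3).filter fun T => ∑ q ∈ T, q = (a, b)), mul_comm,
    ← smul_eq_mul, ← sum_const]
  · refine sum_congr rfl fun T hT => ?_
    obtain ⟨hT, hs⟩ := mem_filter.1 hT
    obtain ⟨hT, hc⟩ := mem_powersetCard.1 hT
    obtain ⟨P, Q, R, h1, h2, h3, rfl⟩ := card_eq_three.1 hc
    obtain ⟨p, -, rfl⟩ := mem_image.1 (hT (x := P) (by simp))
    obtain ⟨q, -, rfl⟩ := mem_image.1 (hT (x := Q) (by simp))
    obtain ⟨r, -, rfl⟩ := mem_image.1 (hT (x := R) (by simp))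
    replace h1 : p ≠ q := fun h => h1 (h ▸ rfl)
    replace h2 : p ≠ r := fun h => h2 (h ▸ rfl)
    replace h3 : q ≠ r := fun h => h3 (h ▸ rfl)
    rw [sm p q r h1 h2 h3] at hs
    obtain ⟨rfl, rfl⟩ := Prod.mk.inj hs
    have c3 : ({p, q, r} : Finset (V n)).card = 3 := card_eq_three.2 ⟨p, q, r, h1, h2, h3, rfl⟩
    have : ({p, q, r} : Finset (V n)).offDiag.card = 6 := by rw [offDiag_card, c3]
    rw [← this]
    congr 1
    ext ⟨x, y⟩
    simp only [mem_filter, mem_univ, true_and, mem_offDiag]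
    constructor
    · rintro ⟨e1, e2⟩
      have im : ∀ t, (t, F t) ∈ ({(p, F p), (q, F q), (r, F r)} : Finset _) →
          t ∈ ({p, q, r} : Finset (V n)) := by
        intro t ht
        simp only [mem_insert, mem_singleton, Prod.mk.injEq] at ht ⊢
        tauto
      exact ⟨im x (e2 ▸ by simp), im y (e2 ▸ by simp), nd _ _ _ (s3 x y) e1⟩
    · have k : ∀ x y z : V n, x + y + z = p + q + r → x + y + (p + q + r) = z := by
        intro x y z h
        rw [← h, ← add_assoc, add_self', zero_add]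
      simp only [mem_insert, mem_singleton]
      rintro ⟨hx | hx | hx, hy | hy | hy, h⟩ <;> rw [hx, hy] at h ⊢ <;> try exact absurd rfl h
      · rw [k p q r rfl]; exact ⟨rfl, rfl⟩
      · rw [k p r q (by abel)]; exact ⟨by abel, by ext; simp only [mem_insert, mem_singleton, or_comm, or_left_comm, or_assoc]⟩
      · rw [k q p r (by abel)]; exact ⟨by abel, by ext; simp only [mem_insert, mem_singleton, or_comm, or_left_comm, or_assoc]⟩
      · rw [k q r p (by abel)]; exact ⟨by abel, by ext; simp only [mem_insert, mem_singleton, or_comm, or_left_comm, or_assoc]⟩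
      · rw [k r p q (by abel)]; exact ⟨by abel, by ext; simp only [mem_insert, mem_singleton, or_comm, or_left_comm, or_assoc]⟩
      · rw [k r q p (by abel)]; exact ⟨by abel, by ext; simp only [mem_insert, mem_singleton, or_comm, or_left_comm, or_assoc]⟩
  · rintro ⟨x, y⟩ h
    have e : F x + F y + F (x + y + a) = b := (mem_filter.1 h).2
    have h1 := nd _ _ _ (s3 x y) e
    have h2 := nd x (x + y + a) y (by rw [add_right_comm, s3]) (by rw [add_right_comm, e])
    have h3 := nd y (x + y + a) x (by rw [add_right_comm, add_comm y, s3])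
      (by rw [add_right_comm, add_comm (F y), e])
    refine mem_filter.2 ⟨mem_powersetCard.2 ⟨?_, card_eq_three.2
      ⟨_, _, _, inj.ne h1, inj.ne h2, inj.ne h3, rfl⟩⟩, by rw [sm _ _ _ h1 h2 h3, s3, e]⟩
    intro t ht
    simp only [mem_insert, mem_singleton] at ht
    rcases ht with rfl | rfl | rfl <;> exact mem_image_of_mem _ (mem_univ _)

theorem amp (F : V n → V n) (v : V n) (l : ℝ) (h : ∀ u : V n,
    (walsh F u v : ℝ) = 0 ∨ (walsh F u v : ℝ) = l ∨ (walsh F u v : ℝ) = -l) :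
    ∃ L : ℤ, (∀ u, walsh F u v ^ 3 = L * walsh F u v) ∧
      (2 : ℤ) ^ (n + 1) ∣ L - (if Even n then 2 ^ (n / 2) else 0) * walsh F 0 v := by
  have ps := parseval F v
  obtain ⟨u, -, hu⟩ := exists_ne_zero_of_sum_ne_zero (ps ▸ by positivity :
    ∑ u, walsh F u v ^ 2 ≠ 0)
  have h1 : ∀ w, walsh F w v = 0 ∨ walsh F w v ^ 2 = walsh F u v ^ 2 := by
    intro w
    have hu' : (walsh F u v : ℝ) ≠ 0 := by simpa using hu
    have : (walsh F w v : ℝ) = 0 ∨ (walsh F w v : ℝ) ^ 2 = (walsh F u v : ℝ) ^ 2 := by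
      rcases h u with e | e | e <;> rcases h w with e' | e' | e' <;> simp_all
    exact_mod_cast this
  refine ⟨walsh F u v ^ 2, fun w => by rcases h1 w with e | e; simp [e]; rw [← e]; ring, ?_⟩
  let s := univ.filter fun w => walsh F w v ≠ 0
  have e : (s.card : ℤ) * walsh F u v ^ 2 = 2 ^ n * 2 ^ n := by
    rw [← ps, ← sum_filter_ne_zero univ, ← nsmul_eq_mul, ← sum_const]
    refine sum_congr (by simp [s]) fun w hw => ((h1 w).resolve_left (by simpa using hw)).symm
  have e' : s.card * (walsh F u v).natAbs ^ 2 = 2 ^ (n + n) := by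
    zify; rw [sq_abs, e, pow_add]
  obtain ⟨t, -, ht⟩ := (Nat.dvd_prime_pow Nat.prime_two).1
    (show (walsh F u v).natAbs ∣ 2 ^ (n + n) from ⟨s.card * (walsh F u v).natAbs, by
      rw [← e']; ring⟩)
  have hs : s.card ≤ 2 ^ n := cardV (n := n) ▸ card_le_univ s
  have sq2 : walsh F u v ^ 2 = (2 ^ t) ^ 2 := by
    rw [← sq_abs, Int.abs_eq_natAbs, ht]; push_cast; rfl
  rw [ht, ← pow_mul] at e'
  have hle : n + n ≤ n + t * 2 := (Nat.pow_le_pow_iff_right (by norm_num : 1 < 2)).1
    (by rw [← e', pow_add]; gcongr)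
  rw [sq2]
  rcases (show n ≤ t * 2 by omega).eq_or_lt with h2 | h2
  · have hc : s.card = Fintype.card (V n) := by
      rw [← h2, pow_add] at e'
      rw [cardV, Nat.eq_of_mul_eq_mul_right (by positivity) e']
    have h0 : (0 : V n) ∈ s := eq_univ_of_card s hc ▸ mem_univ _
    have h3 := (h1 0).resolve_left (mem_filter.1 h0).2
    rw [sq2, sq_eq_sq_iff_eq_or_eq_neg] at h3
    rw [if_pos ⟨t, by omega⟩, show n / 2 = t by omega]
    rcases h3 with h3 | h3 <;> rw [h3]
    · exact ⟨0, by ring⟩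
    · exact ⟨1, by rw [h2]; ring⟩
  · refine dvd_sub (by rw [← pow_mul]; exact pow_dvd_pow _ h2) ?_
    split_ifs with hn
    · have : (2 : ℤ) ^ t ∣ walsh F 0 v := by
        rcases h1 0 with h3 | h3
        · simp [h3]
        · rw [sq2, sq_eq_sq_iff_eq_or_eq_neg] at h3
          rcases h3 with h3 | h3 <;> simp [h3]
      obtain ⟨m, rfl⟩ := hn
      refine dvd_trans ?_ (mul_dvd_mul_left _ this)
      rw [← pow_add]
      exact pow_dvd_pow _ (by omega)
    · simp

theorem main (hn : 3 ≤ n) {F : V n → V n} (h1 : Plateaued F) (h2 : IsAPN F) (a b : V n)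
    (hb : b ≠ F a) : Odd (mult F (a, b)) := by
  have ex : ∀ v, ∃ L : ℤ, (∀ u, walsh F u v ^ 3 = L * walsh F u v) ∧
      (2 : ℤ) ^ (n + 1) ∣ L - (if Even n then 2 ^ (n / 2) else 0) * walsh F 0 v := by
    intro v
    by_cases hv : v = 0
    · refine amp F v (2 ^ n) fun u => ?_
      have : walsh F u v = if u = 0 then 2 ^ n else 0 := by
        rw [← orth, walsh_eq, hv]
        simp [dotProduct_comm u, show chi 0 = 1 by decide]
      rw [this]
      split_ifs <;> simp
    · obtain ⟨l, -, h⟩ := h1 v hv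
      exact amp F v l h
  choose L hL hd using ex
  have c1 := count F a b L hL
  have c2 := count F a (F a) L hL
  rw [six F a b hb] at c1
  rw [cnt_diag h2] at c2
  simp only [add_self', dotProduct_zero, show chi 0 = 1 by decide, mul_one] at c2
  set E : ℤ := if Even n then 2 ^ (n / 2) else 0 with hE
  have d1 : (2 : ℤ) ^ (n + 1) * 2 ∣
      ∑ v, (L v - E * walsh F 0 v) * (1 - chi (v ⬝ᵥ (F a + b))) :=
    dvd_sum fun v _ => mul_dvd_mul (hd v) ((by decide : ∀ t, 2 ∣ 1 - chi t) _)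
  have d2 : (2 : ℤ) ^ n ∣ ∑ v, walsh F 0 v * (1 - chi (v ⬝ᵥ (F a + b))) := by
    simp only [walsh_eq, zero_dotProduct, show chi 0 = 1 by decide, mul_one, mul_sub, sum_mul,
      ← chi_add, ← dotProduct_add, sum_sub_distrib]
    rw [sum_comm, sum_comm (f := fun v x => chi (v ⬝ᵥ (F x + (F a + b))))]
    simp only [orth]
    refine dvd_sub (dvd_sum fun x _ => ?_) (dvd_sum fun x _ => ?_) <;> split_ifs <;> simp
  have d3 : (4 : ℤ) ∣ E := by
    rw [hE]
    split_ifs with h
    · obtain ⟨m, rfl⟩ := h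
      exact pow_dvd_pow (2 : ℤ) (show 2 ≤ (m + m) / 2 by omega)
    · simp
  have d4 : (2 : ℤ) ^ n * 4 ∣ 2 ^ n * (3 * 2 ^ n - 2 - (6 * mult F (a, b) : ℕ)) := by
    have := dvd_add (show (2 : ℤ) ^ n * 4 ∣ _ from (by rw [pow_succ, mul_assoc]; rfl :
      (2 : ℤ) ^ (n + 1) * 2 = 2 ^ n * 4) ▸ d1) (mul_comm (4 : ℤ) _ ▸ mul_dvd_mul d3 d2)
    rw [mul_sum, ← sum_add_distrib] at this
    rw [mul_sub, c1, c2, ← sum_sub_distrib]
    rwa [sum_congr rfl (g := fun v => (L v - E * walsh F 0 v) * (1 - chi (v ⬝ᵥ (F a + b))) +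
      E * (walsh F 0 v * (1 - chi (v ⬝ᵥ (F a + b))))) fun v _ => by ring]
  have d5 := Int.dvd_of_mul_dvd_mul_left (by positivity) d4
  obtain ⟨m, rfl⟩ : ∃ m, n = m + 2 := ⟨n - 2, by omega⟩
  rw [pow_add] at d5
  rw [Nat.odd_iff]
  omega

end Pool.Agent.H35.APN
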