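import Mathlib

set_option autoImplicit false

namespace Pool.Agent.H35.AlonLoc

open Finset

lemma numeric {ι : Type} (F : Finset ι) (s : ι → ℕ) (x j : ℕ) (hx : x ≤ 3 * j)
    (hj : 2 ^ j ≤ F.card) (hs : ∑ W ∈ F, (1 / 9 : ℝ) ^ s W ≤ (10 / 9 : ℝ) ^ x) :
    (F.card : ℝ) * Real.log F.card / 5 ≤ ∑ W ∈ F, (s W : ℝ) := by
  have hi : (0 : ℝ) < F.card := by
    have : 0 < F.card := lt_of_lt_of_le (by positivity) hj
    exact_mod_cast this
  set i : ℝ := (F.card : ℝ) with hidef
  set T : ℝ := ∑ W ∈ F, (s W : ℝ) with hT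
  set L : ℝ := Real.log 9 with hL
  have hL0 : 0 < L := Real.log_pos (by norm_num)
  have hL1 : L ≤ 5 / 2 := by
    rw [hL, Real.log_le_iff_le_exp (by norm_num)]
    have h1 : Real.exp (5 / 2) = Real.exp 1 * Real.exp 1 * Real.exp (1 / 2) := by
      rw [← Real.exp_add, ← Real.exp_add]; norm_num
    have h2 := Real.exp_one_gt_d9
    have h3 : (1 / 2 : ℝ) + 1 ≤ Real.exp (1 / 2) := Real.add_one_le_exp _
    rw [h1]
    have h4 : (7 : ℝ) ≤ Real.exp 1 * Real.exp 1 := by nlinarith
    nlinarith
  set a : ℝ := T / i with ha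
  have h1 : ∀ W ∈ F, Real.exp (-(L * a)) * (1 + L * (a - s W)) ≤ (1 / 9 : ℝ) ^ s W := by
    intro W _
    have e1 : (1 / 9 : ℝ) ^ s W = Real.exp (-(L * a)) * Real.exp (L * (a - s W)) := by
      rw [← Real.exp_add]
      have : (1 / 9 : ℝ) = Real.exp (-L) := by
        rw [Real.exp_neg, hL, Real.exp_log (by norm_num)]; norm_num
      rw [this, ← Real.exp_nat_mul]
      congr 1; ring
    rw [e1]
    have := Real.add_one_le_exp (L * (a - s W))
    exact mul_le_mul_of_nonneg_left (by linarith) (Real.exp_pos _).le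
  have h2 := sum_le_sum h1
  rw [← mul_sum, sum_add_distrib, ← mul_sum, sum_sub_distrib, sum_const, sum_const, ← hT] at h2
  simp only [nsmul_eq_mul, mul_one] at h2
  have h3 : i * a - T = 0 := by rw [ha]; field_simp; ring
  rw [← hidef, h3, mul_zero, add_zero] at h2
  have h4 := Real.log_le_log (by positivity) (h2.trans hs)
  rw [Real.log_mul (Real.exp_pos _).ne' hi.ne', Real.log_exp, Real.log_pow] at h4
  have h5 : 6 * Real.log (10 / 9) ≤ Real.log 2 := by
    have : Real.log ((10 / 9 : ℝ) ^ 6) ≤ Real.log 2 := Real.log_le_log (by positivity) (by norm_num)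
    rw [Real.log_pow] at this
    exact_mod_cast this
  have h6 : (j : ℝ) * Real.log 2 ≤ Real.log i := by
    rw [← Real.log_pow]
    refine Real.log_le_log (by positivity) ?_
    rw [hidef]; exact_mod_cast hj
  have h7 : 0 ≤ Real.log (10 / 9 : ℝ) := Real.log_nonneg (by norm_num)
  have h8 : (x : ℝ) ≤ 3 * j := by exact_mod_cast hx
  have h9 : (x : ℝ) * Real.log (10 / 9) ≤ Real.log i / 2 := by
    have j0 : (0 : ℝ) ≤ j := by positivity
    nlinarith
  have ha0 : 0 ≤ a := by
    rw [ha]; apply div_nonneg _ hi.le; rw [hT]; positivity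
  have h10 : Real.log i / 5 ≤ a := by nlinarith
  have h11 : T = i * a := by linarith
  rw [h11]
  nlinarith

lemma fiber_num (d i : ℝ) (hd : 1 ≤ d) (hi : 1 ≤ i) :
    Real.log d / 20 * (1 + i) ≤ d + i * Real.log i / 5 := by
  have hs : 1 ≤ Real.sqrt d := Real.one_le_sqrt.2 hd
  have hss : Real.sqrt d * Real.sqrt d = d := Real.mul_self_sqrt (by linarith)
  have hl : Real.log d = 2 * Real.log (Real.sqrt d) := by
    rw [Real.log_sqrt (by linarith)]; ring
  have hl2 : Real.log (Real.sqrt d) ≤ Real.sqrt d - 1 := Real.log_le_sub_one_of_pos (by linarith)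
  have hl3 : 0 ≤ Real.log (Real.sqrt d) := Real.log_nonneg hs
  have hl4 : 0 ≤ Real.log i := Real.log_nonneg hi
  rw [hl]
  rcases le_total i (Real.sqrt d) with h | h
  · have : 0 ≤ i * Real.log i := by positivity
    nlinarith
  · have := Real.log_le_log (by linarith) h
    nlinarith

variable {V : Type} [Fintype V] [DecidableEq V]

def Ind (H : SimpleGraph V) (W : Finset V) : Prop := ∀ a ∈ W, ∀ b ∈ W, ¬ H.Adj a b

omit [Fintype V] [DecidableEq V] in
lemma big_class (H : SimpleGraph V) (X : Finset V) (c : V → Fin 3)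
    (hc : ∀ y ∈ X, ∀ z ∈ X, H.Adj y z → c y ≠ c z) :
    ∃ J ⊆ X, Ind H J ∧ X.card ≤ 3 * J.card := by
  obtain ⟨t, -, ht⟩ := exists_max_image (univ : Finset (Fin 3))
    (fun t => (X.filter (fun y => c y = t)).card) univ_nonempty
  refine ⟨X.filter (fun y => c y = t), filter_subset _ _, ?_, ?_⟩
  · intro a ha b hb hab
    have ha' := mem_filter.1 ha
    have hb' := mem_filter.1 hb
    exact hc a ha'.1 b hb'.1 hab (ha'.2.trans hb'.2.symm)
  · rw [card_eq_sum_card_fiberwise (f := c) (t := univ) (fun _ _ => mem_univ _)]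
    have := sum_le_card_nsmul (univ : Finset (Fin 3)) _ _ ht
    simpa using this

open Classical in
lemma per_vertex (H : SimpleGraph V) (v : V) (c : V → Fin 3)
    (hc : ∀ y z, H.Adj v y → H.Adj v z → H.Adj y z → c y ≠ c z) (d : ℝ) (hd : 1 ≤ d) :
    Real.log d / 20 * ((univ.filter (Ind H)).card : ℝ) ≤
      ∑ W ∈ univ.filter (Ind H),
        ((if v ∈ W then d else 0) + ((W.filter (H.Adj v)).card : ℝ)) := by
  set I := univ.filter (Ind H) with hI
  let g : Finset V → Finset V := fun W => W.filter (fun y => y ≠ v ∧ ¬ H.Adj v y)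
  rw [card_eq_sum_card_fiberwise (f := g) (t := I.image g) (fun W hW => mem_image_of_mem g hW),
    ← sum_fiberwise_of_maps_to (g := g) (t := I.image g) (fun W hW => mem_image_of_mem g hW)]
  push_cast
  rw [mul_sum]
  refine sum_le_sum ?_
  intro S hS
  obtain ⟨W0, hW0, rfl⟩ := mem_image.1 hS
  set S := g W0 with hSdef
  have hSI : Ind H S := fun a ha b hb =>
    (mem_filter.1 hW0).2 a (mem_filter.1 ha).1 b (mem_filter.1 hb).1
  have hSv : ∀ y ∈ S, y ≠ v ∧ ¬ H.Adj v y := fun y hy => (mem_filter.1 hy).2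
  set F := I.filter (fun W => g W = S) with hF
  set X := univ.filter (fun y => H.Adj v y ∧ ∀ s ∈ S, ¬ H.Adj y s) with hX
  obtain ⟨J, hJX, hJI, hJc⟩ := big_class H X c
    (fun y hy z hz => hc y z (mem_filter.1 hy).2.1 (mem_filter.1 hz).2.1)
  have hsub : ∀ W ∈ F, S ⊆ W := by
    intro W hW
    rw [← (mem_filter.1 hW).2]
    exact filter_subset _ _
  have hmem : ∀ W ∈ F, ∀ y ∈ W, y ∈ S ∨ y = v ∨ H.Adj v y := by
    intro W hW y hy
    by_cases h1 : y = v
    · exact Or.inr (Or.inl h1)
    · by_cases h2 : H.Adj v y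
      · exact Or.inr (Or.inr h2)
      · left
        rw [← (mem_filter.1 hW).2]
        exact mem_filter.2 ⟨hy, h1, h2⟩
  have hFI : ∀ W ∈ F, Ind H W := fun W hW => (mem_filter.1 (mem_filter.1 hW).1).2
  set F1 := F.filter (fun W => v ∈ W) with hF1
  set F0 := F.filter (fun W => v ∉ W) with hF0
  have c1 : F1.card ≤ 1 := by
    have : ∀ W ∈ F1, W = insert v S := by
      intro W hW
      have h := mem_filter.1 hW
      ext y
      constructor
      · intro hy
        rcases hmem W h.1 y hy with h' | h' | h'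
        · exact mem_insert_of_mem h'
        · rw [h']; exact mem_insert_self _ _
        · exact absurd h' (hFI W h.1 v h.2 y hy)
      · intro hy
        rcases mem_insert.1 hy with h' | h'
        · rw [h']; exact h.2
        · exact hsub W h.1 h'
    exact card_le_one.2 (fun a ha b hb => (this a ha).trans (this b hb).symm)
  have m1 : insert v S ∈ F1 := by
    refine mem_filter.2 ⟨mem_filter.2 ⟨mem_filter.2 ⟨mem_univ _, ?_⟩, ?_⟩, mem_insert_self _ _⟩
    · intro a ha b hb hab
      rcases mem_insert.1 ha with rfl | ha <;> rcases mem_insert.1 hb with rfl | hb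
      · exact H.irrefl hab
      · exact (hSv b hb).2 hab
      · exact (hSv a ha).2 hab.symm
      · exact hSI a ha b hb hab
    · ext y
      simp only [g, mem_filter, mem_insert]
      constructor
      · rintro ⟨h | h, h2⟩
        · exact absurd h h2.1
        · exact h
      · intro h
        exact ⟨Or.inr h, hSv y h⟩
  have c0 : 2 ^ J.card ≤ F0.card := by
    rw [← card_powerset]
    refine card_le_card_of_injOn (fun Y => S ∪ Y) ?_ ?_
    · intro Y hY
      have hYJ : Y ⊆ J := mem_powerset.1 (mem_coe.1 hY)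
      have hYX : ∀ y ∈ Y, H.Adj v y ∧ ∀ s ∈ S, ¬ H.Adj y s :=
        fun y hy => (mem_filter.1 (hJX (hYJ hy))).2
      refine mem_coe.2 (mem_filter.2 ⟨mem_filter.2 ⟨mem_filter.2 ⟨mem_univ _, ?_⟩, ?_⟩, ?_⟩)
      · intro a ha b hb hab
        rcases mem_union.1 ha with ha | ha <;> rcases mem_union.1 hb with hb | hb
        · exact hSI a ha b hb hab
        · exact (hYX b hb).2 a ha hab.symm
        · exact (hYX a ha).2 b hb hab
        · exact hJI a (hYJ ha) b (hYJ hb) hab
      · ext y
        simp only [g, mem_filter, mem_union]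
        constructor
        · rintro ⟨h | h, h2⟩
          · exact h
          · exact absurd (hYX y h).1 h2.2
        · intro h
          exact ⟨Or.inl h, hSv y h⟩
      · intro h
        rcases mem_union.1 h with h | h
        · exact (hSv v h).1 rfl
        · exact H.irrefl (hYX v h).1
    · intro Y hY Z hZ hYZ
      have key : ∀ Y ∈ J.powerset, (S ∪ Y).filter (H.Adj v) = Y := by
        intro Y hY
        ext y
        simp only [mem_filter, mem_union]
        constructor
        · rintro ⟨h | h, h2⟩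
          · exact absurd h2 (hSv y h).2
          · exact h
        · intro h
          exact ⟨Or.inr h, (mem_filter.1 (hJX (mem_powerset.1 hY h))).2.1⟩
      rw [← key Y (mem_coe.1 hY), ← key Z (mem_coe.1 hZ)]
      simp only at hYZ
      rw [hYZ]
  have gen : ∑ W ∈ F0, (1 / 9 : ℝ) ^ (W.filter (H.Adj v)).card ≤ (10 / 9 : ℝ) ^ X.card := by
    have hinj : Set.InjOn (fun W : Finset V => W.filter (H.Adj v)) F0 := by
      have key : ∀ W ∈ F0, W = S ∪ W.filter (H.Adj v) := by
        intro W hW
        have h := mem_filter.1 hW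
        ext y
        simp only [mem_filter, mem_union]
        constructor
        · intro hy
          rcases hmem W h.1 y hy with h' | h' | h'
          · exact Or.inl h'
          · exact absurd (h' ▸ hy) h.2
          · exact Or.inr ⟨hy, h'⟩
        · rintro (h' | h')
          · exact hsub W h.1 h'
          · exact h'.1
      intro W hW W' hW' hWW
      rw [key W (mem_coe.1 hW), key W' (mem_coe.1 hW')]
      simp only at hWW
      rw [hWW]
    rw [← sum_image (f := fun Y : Finset V => (1 / 9 : ℝ) ^ Y.card) hinj]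
    have e : (10 / 9 : ℝ) ^ X.card = ∑ Y ∈ X.powerset, (1 / 9 : ℝ) ^ Y.card := by
      have := Finset.prod_add (fun _ : V => (1 / 9 : ℝ)) (fun _ => (1 : ℝ)) X
      simp only [prod_const, one_pow, mul_one] at this
      rw [← this]; norm_num
    rw [e]
    refine sum_le_sum_of_subset_of_nonneg ?_ (fun _ _ _ => by positivity)
    intro Y hY
    obtain ⟨W, hW, rfl⟩ := mem_image.1 hY
    have h := mem_filter.1 hW
    refine mem_powerset.2 (fun y hy => ?_)
    have hy' := mem_filter.1 hy
    exact mem_filter.2 ⟨mem_univ _, hy'.2, fun s hs => hFI W h.1 y hy'.1 s (hsub W h.1 hs)⟩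
  have num := numeric F0 (fun W => (W.filter (H.Adj v)).card) X.card J.card hJc c0 gen
  have i1 : (1 : ℝ) ≤ F0.card := by
    have : 1 ≤ F0.card := le_trans Nat.one_le_two_pow c0
    exact_mod_cast this
  have fn := fiber_num d F0.card hd i1
  have hcard : (F.card : ℝ) ≤ 1 + F0.card := by
    have := card_filter_add_card_filter_not (s := F) (fun W => v ∈ W)
    have h2 : F.card ≤ 1 + F0.card := by
      rw [← this]; exact Nat.add_le_add_right c1 _
    exact_mod_cast h2
  rw [← sum_filter_add_sum_filter_not F (fun W => v ∈ W)]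
  have s1 : d ≤ ∑ W ∈ F1, ((if v ∈ W then d else 0) + ((W.filter (H.Adj v)).card : ℝ)) := by
    have := single_le_sum (f := fun W : Finset V =>
      ((if v ∈ W then d else 0) + ((W.filter (H.Adj v)).card : ℝ)))
      (fun W _ => by
        have : (0 : ℝ) ≤ if v ∈ W then d else 0 := by split_ifs <;> linarith
        positivity) m1
    refine le_trans ?_ this
    simp only [mem_insert_self, if_true]
    exact le_add_of_nonneg_right (by positivity)
  have s0 : ∑ W ∈ F0, ((W.filter (H.Adj v)).card : ℝ) ≤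
      ∑ W ∈ F0, ((if v ∈ W then d else 0) + ((W.filter (H.Adj v)).card : ℝ)) := by
    refine sum_le_sum (fun W _ => ?_)
    have : (0 : ℝ) ≤ if v ∈ W then d else 0 := by split_ifs <;> linarith
    linarith
  have hl : 0 ≤ Real.log d / 20 := by have := Real.log_nonneg hd; positivity
  calc Real.log d / 20 * (F.card : ℝ) ≤ Real.log d / 20 * (1 + F0.card) :=
        mul_le_mul_of_nonneg_left hcard hl
    _ ≤ d + F0.card * Real.log F0.card / 5 := fn
    _ ≤ _ := add_le_add s1 (num.trans s0)

theorem alon (H : SimpleGraph V) (k : ℕ) (hk : 1 ≤ k) (hα : ∀ W, Ind H W → W.card ≤ k)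
    (hc : ∀ v, ∃ c : V → Fin 3, ∀ y z, H.Adj v y → H.Adj v z → H.Adj y z → c y ≠ c z) :
    (Fintype.card V : ℝ) * Real.log (3 * k) ≤ 120 * k ^ 2 := by
  classical
  set I := univ.filter (Ind H) with hI
  have hk' : (1 : ℝ) ≤ k := by exact_mod_cast hk
  have hdeg : ∀ v, (univ.filter (H.Adj v)).card ≤ 3 * k := by
    intro v
    obtain ⟨c, hc⟩ := hc v
    obtain ⟨J, -, h2, h3⟩ := big_class H (univ.filter (H.Adj v)) c
      (fun y hy z hz => hc y z (mem_filter.1 hy).2 (mem_filter.1 hz).2)
    have := hα J h2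
    omega
  have h1 : ∀ v ∈ (univ : Finset V), Real.log (3 * k) / 20 * (I.card : ℝ) ≤
      ∑ W ∈ I, ((if v ∈ W then (3 * k : ℝ) else 0) + ((W.filter (H.Adj v)).card : ℝ)) := by
    intro v _
    obtain ⟨c, hc⟩ := hc v
    have := per_vertex H v c hc (3 * k) (by linarith)
    convert this
  have h2 := sum_le_sum h1
  rw [sum_const, card_univ, nsmul_eq_mul, sum_comm] at h2
  have h3 : ∀ W ∈ I, ∑ v, ((if v ∈ W then (3 * k : ℝ) else 0) + ((W.filter (H.Adj v)).card : ℝ))
      ≤ 6 * k ^ 2 := by
    intro W hW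
    have hW' : (W.card : ℝ) ≤ k := by exact_mod_cast hα W (mem_filter.1 hW).2
    rw [sum_add_distrib, ← sum_filter, filter_mem_eq_inter, univ_inter, sum_const, nsmul_eq_mul]
    have a : ∑ v, (W.filter (H.Adj v)).card ≤ W.card * (3 * k) := by
      have e : ∑ v, (W.filter (H.Adj v)).card = ∑ u ∈ W, (univ.filter (H.Adj u)).card := by
        simp only [card_filter]
        rw [sum_comm]
        refine sum_congr rfl (fun u _ => sum_congr rfl (fun v _ => ?_))
        simp only [H.adj_comm]
      rw [e]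
      exact sum_le_card_nsmul W _ _ (fun u _ => hdeg u)
    have a' : ∑ v, ((W.filter (H.Adj v)).card : ℝ) ≤ W.card * (3 * k) := by exact_mod_cast a
    nlinarith
  have h4 := h2.trans (sum_le_card_nsmul I _ _ h3)
  rw [nsmul_eq_mul] at h4
  have hI0 : (0 : ℝ) < I.card := by
    have : 0 < I.card := card_pos.2 ⟨∅, mem_filter.2 ⟨mem_univ _, fun a ha => absurd ha (by simp)⟩⟩
    exact_mod_cast this
  have h5 : (I.card : ℝ) * ((Fintype.card V : ℝ) * Real.log (3 * k)) ≤ I.card * (120 * k ^ 2) := by
    nlinarith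
  exact le_of_mul_le_mul_left h5 hI0

end Pool.Agent.H35.AlonLoc
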