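import Mathlib

set_option autoImplicit false

namespace Pool.Agent.H35.Arc

open Set unitInterval

/-- `A` is a Jordan arc from `a` to `b`. -/
def IsArc {X : Type*} [TopologicalSpace X] (A : Set X) (a b : X) : Prop :=
  ∃ γ : unitInterval → X, Continuous γ ∧ Function.Injective γ ∧ γ 0 = a ∧ γ 1 = b ∧ range γ = A

variable {X : Type*} [TopologicalSpace X]

theorem IsArc.symm {A : Set X} {a b : X} (h : IsArc A a b) : IsArc A b a := by
  obtain ⟨γ, hc, hi, h0, h1, hr⟩ := h
  refine ⟨fun t => γ (unitInterval.symm t), hc.comp continuous_symm,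
    hi.comp unitInterval.symm_bijective.1, by simpa using h1, by simpa using h0, ?_⟩
  rw [← hr]
  exact unitInterval.symm_bijective.2.range_comp γ

theorem IsArc.left_mem {A : Set X} {a b : X} (h : IsArc A a b) : a ∈ A := by
  obtain ⟨γ, -, -, h0, -, hr⟩ := h
  exact hr ▸ ⟨0, h0⟩

theorem IsArc.right_mem {A : Set X} {a b : X} (h : IsArc A a b) : b ∈ A := h.symm.left_mem

theorem IsArc.trans {A B : Set X} {a b c : X} (h : IsArc A a b) (k : IsArc B b c)
    (hAB : ∀ x, x ∈ A → x ∈ B → x = b) : IsArc (A ∪ B) a c := by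
  obtain ⟨γ, hc, hi, h0, h1, hr⟩ := h
  obtain ⟨δ, kc, ki, k0, k1, kr⟩ := k
  let p : Path a b := ⟨⟨γ, hc⟩, h0, h1⟩
  let q : Path b c := ⟨⟨δ, kc⟩, k0, k1⟩
  refine ⟨p.trans q, (p.trans q).continuous, ?_, by simp, by simp, ?_⟩
  · intro s t hst
    have key : ∀ (s t : unitInterval) (hs : (s : ℝ) ≤ 1 / 2) (ht : ¬ (t : ℝ) ≤ 1 / 2),
        p.trans q s ≠ p.trans q t := by
      intro s t hs ht hst
      rw [Path.trans_apply, Path.trans_apply, dif_pos hs, dif_neg ht] at hst
      have e0 : ∀ u v, γ u = δ v → v = 0 := by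
        intro u v huv
        have e1 := hAB (γ u) (by rw [← hr]; exact ⟨u, rfl⟩) (by rw [← kr]; exact ⟨v, huv.symm⟩)
        exact ki ((huv.symm.trans e1).trans k0.symm)
      have e3 := congrArg Subtype.val (e0 _ _ hst)
      simp at e3
      apply ht
      linarith
    by_cases hs : (s : ℝ) ≤ 1 / 2 <;> by_cases ht : (t : ℝ) ≤ 1 / 2
    · rw [Path.trans_apply, Path.trans_apply, dif_pos hs, dif_pos ht] at hst
      have e3 := congrArg Subtype.val (hi hst)
      simp at e3
      exact Subtype.ext e3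
    · exact absurd hst (key s t hs ht)
    · exact absurd hst.symm (key t s ht hs)
    · rw [Path.trans_apply, Path.trans_apply, dif_neg hs, dif_neg ht] at hst
      have e3 := congrArg Subtype.val (ki hst)
      simp at e3
      exact Subtype.ext e3
  · rw [Path.trans_range, ← hr, ← kr]
    rfl

/-- graph of a continuous function over a nondegenerate interval -/
theorem graph_arc (g : ℝ → ℝ) (hg : Continuous g) (x₀ x₁ : ℝ) (h : x₀ < x₁) :
    IsArc {q : ℝ × ℝ | x₀ ≤ q.1 ∧ q.1 ≤ x₁ ∧ q.2 = g q.1} (x₀, g x₀) (x₁, g x₁) := by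
  refine ⟨fun t => (x₀ + t * (x₁ - x₀), g (x₀ + t * (x₁ - x₀))), by fun_prop, ?_, by simp, by simp,
    ?_⟩
  · intro s t hst
    have := congrArg Prod.fst hst
    simp only [add_right_inj] at this
    exact Subtype.ext (mul_right_cancel₀ (by linarith) this)
  · ext ⟨x, y⟩
    simp only [mem_range, Prod.mk.injEq, mem_ofPred_eq]
    constructor
    · rintro ⟨t, rfl, rfl⟩
      have := t.2.1
      have := t.2.2
      refine ⟨by nlinarith, by nlinarith, rfl⟩
    · rintro ⟨h1, h2, rfl⟩
      have hd : 0 < x₁ - x₀ := by linarith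
      refine ⟨⟨(x - x₀) / (x₁ - x₀), div_nonneg (by linarith) hd.le,
        (div_le_one hd).2 (by linarith)⟩, ?_, ?_⟩
      · simp only; field_simp; ring
      · congr 1; simp only; field_simp; ring

end Pool.Agent.H35.Arc
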