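import Mathlib

namespace Pool.Agent.H35.BentMinus
open Finset

/-- `F` is bent: every nonzero derivative takes each value `2 ^ (n - m)` times. -/
def IsBent {n m : ℕ} (F : (Fin n → ZMod 2) → (Fin m → ZMod 2)) : Prop :=
  ∀ a, a ≠ 0 → ∀ b, (univ.filter (fun x => F (x + a) + F x = b)).card = 2 ^ (n - m)

/-- `F` is almost balanced of type `(-)`. -/
def TypeMinus {n m : ℕ} (F : (Fin n → ZMod 2) → (Fin m → ZMod 2)) : Prop :=
  ∃ α, ((univ.filter (fun x => F x = α)).card : ℤ) = 2 ^ (n - m) - 2 ^ (n / 2) + 2 ^ (n / 2 - m) ∧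
    ∀ β, β ≠ α → ((univ.filter (fun x => F x = β)).card : ℤ) = 2 ^ (n - m) + 2 ^ (n / 2 - m)

section
variable {K : Type} [Field K] [Fintype K] [DecidableEq K] [Algebra (ZMod 2) K]

open Classical in
theorem bad_card (hK : Fintype.card K = 128) (L1 L2 : K →ₗ[ZMod 2] K) (α y0 : K) :
    (univ.filter (fun ρ : K → K => ∀ y, y ≠ y0 → ∀ x, x * y + ρ y + (L1 x + L2 y) ≠ α)).card ≤
      128 * 64 ^ 127 := by
  rcases (univ.filter (fun ρ : K → K => ∀ y, y ≠ y0 → ∀ x,
    x * y + ρ y + (L1 x + L2 y) ≠ α)).eq_empty_or_nonempty with e | ⟨ρ0, h0⟩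
  · rw [e]; simp
  simp only [mem_filter, mem_univ, true_and] at h0
  let A : K → K →+ K := fun y => AddMonoidHom.mk' (fun x => x * y + L1 x)
    (fun a b => by rw [map_add]; ring)
  have hA : ∀ y x, A y x = x * y + L1 x := fun _ _ => rfl
  have ex : ∀ y, y ≠ y0 → ∃ x, x ≠ 0 ∧ A y x = 0 := by
    intro y hy
    by_contra h
    push Not at h
    have inj : Function.Injective (A y) := by
      rw [injective_iff_map_eq_zero]
      intro a ha; by_contra a0; exact h a a0 ha
    obtain ⟨x, hx⟩ := (Finite.injective_iff_surjective.1 inj) (α - ρ0 y - L2 y)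
    apply h0 y hy x
    rw [hA] at hx
    linear_combination hx
  choose! k k0 k1 using ex
  have uniq : ∀ x y y', x ≠ 0 → A y x = 0 → A y' x = 0 → y = y' := by
    intro x y y' x0 a b
    rw [hA] at a b
    apply mul_left_cancel₀ x0
    linear_combination a - b
  have surj : ∀ x ∈ univ.erase (0 : K), ∃ y, ∃ (_ : y ∈ univ.erase y0), x = k y := by
    apply surj_on_of_inj_on_of_card_le (fun y _ => k y)
    · intro y hy; simp at hy ⊢; exact k0 y hy
    · intro y y' hy hy' e
      simp at hy hy'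
      exact uniq (k y) y y' (k0 y hy) (k1 y hy) (e ▸ k1 y' hy')
    · simp
  have img : ∀ y, y ≠ y0 → 64 ≤ (univ.image (A y)).card := by
    intro y hy
    have : (univ : Finset K).card ≤ 2 * (univ.image (A y)).card := by
      apply card_le_mul_card_image
      intro b hb
      obtain ⟨x, _, rfl⟩ := mem_image.1 hb
      refine le_trans (card_le_card (t := {x, x + k y}) ?_) card_le_two
      intro z hz
      have e : A y (z - x) = 0 := by rw [map_sub, (mem_filter.1 hz).2, sub_self]
      by_cases z0 : z - x = 0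
      · simp [sub_eq_zero.1 z0]
      · obtain ⟨y', hy', e'⟩ := surj (z - x) (by simp [z0])
        simp at hy'
        have := uniq _ y y' z0 e (e' ▸ k1 y' hy')
        subst this
        simp [← e']
    rw [card_univ, hK] at this
    omega
  let T : K → Finset K := fun y => if y = y0 then univ else
    univ \ (univ.image (A y)).image (fun t => α - L2 y - t)
  have sub : univ.filter (fun ρ : K → K => ∀ y, y ≠ y0 → ∀ x, x * y + ρ y + (L1 x + L2 y) ≠ α) ⊆
      Fintype.piFinset T := by
    intro ρ hρ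
    simp only [mem_filter, mem_univ, true_and] at hρ
    rw [Fintype.mem_piFinset]
    intro y
    by_cases e : y = y0
    · simp [T, e]
    · simp only [T, if_neg e, mem_sdiff, mem_univ, true_and, mem_image, not_exists, not_and]
      rintro t ⟨x, rfl⟩ h
      apply hρ y e x
      rw [← h, hA]; ring
  refine le_trans (card_le_card sub) ?_
  rw [Fintype.card_piFinset, ← mul_prod_erase _ _ (mem_univ y0)]
  apply Nat.mul_le_mul
  · simp [T, hK]
  · have : (univ.erase y0).card = 127 := by simp [hK]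
    rw [← this]
    apply prod_le_pow_card
    intro y hy
    have e : y ≠ y0 := by simpa using hy
    simp only [T, if_neg e]
    rw [card_sdiff_of_subset (subset_univ _), card_image_of_injective _ (fun a b h => by simpa using h),
      card_univ, hK]
    have := img y e
    omega

theorem exists_rho (hK : Fintype.card K = 128) (hd : Module.finrank (ZMod 2) K = 7) :
    ∃ ρ : K → K, ∀ (L1 L2 : K →ₗ[ZMod 2] K) (α y0 : K),
      ∃ y, y ≠ y0 ∧ ∃ x, x * y + ρ y + (L1 x + L2 y) = α := by
  classical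
  by_contra h
  push Not at h
  haveI : Finite (K →ₗ[ZMod 2] K) := Finite.of_injective _ DFunLike.coe_injective
  haveI := Fintype.ofFinite (K →ₗ[ZMod 2] K)
  have cL : Fintype.card (K →ₗ[ZMod 2] K) = 2 ^ 49 := by
    rw [Module.card_eq_pow_finrank (K := ZMod 2), Module.finrank_linearMap, hd]; simp
  have sub : (univ : Finset (K → K)) ⊆
      (univ : Finset ((K →ₗ[ZMod 2] K) × (K →ₗ[ZMod 2] K) × K × K)).biUnion (fun p =>
        univ.filter (fun ρ : K → K => ∀ y, y ≠ p.2.2.2 → ∀ x,
          x * y + ρ y + (p.1 x + p.2.1 y) ≠ p.2.2.1)) := by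
    intro ρ _
    obtain ⟨L1, L2, α, y0, hh⟩ := h ρ
    exact mem_biUnion.2 ⟨(L1, L2, α, y0), mem_univ _, mem_filter.2 ⟨mem_univ _, hh⟩⟩
  have c1 := (card_le_card sub).trans (card_biUnion_le_card_mul _ _ (128 * 64 ^ 127)
    (fun p _ => by convert bad_card hK p.1 p.2.1 p.2.2.1 p.2.2.2))
  simp only [card_univ, Fintype.card_prod, cL, hK, Fintype.card_fun] at c1
  norm_num at c1

theorem bentK (hK : Fintype.card K = 128) (h2 : (2 : K) = 0) (ρ : K → K) (a : K × K) (ha : a ≠ 0)
    (b : K) : (univ.filter (fun p : K × K =>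
      ((p + a).1 * (p + a).2 + ρ (p + a).2) + (p.1 * p.2 + ρ p.2) = b)).card = 128 := by
  rw [← hK, ← card_univ]
  by_cases e : a.2 = 0
  · have a1 : a.1 ≠ 0 := fun x => ha (Prod.ext x e)
    symm
    apply card_bij (fun x _ => (x, b / a.1))
    · intro x _
      simp only [mem_filter, mem_univ, true_and, Prod.fst_add, Prod.snd_add, e, add_zero]
      field_simp
      linear_combination (x * b + ρ (b / a.1) * a.1) * h2
    · intro x _ y _ h; exact (Prod.ext_iff.1 h).1
    · intro p hp
      simp only [mem_filter, mem_univ, true_and, Prod.fst_add, Prod.snd_add, e, add_zero] at hp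
      refine ⟨p.1, mem_univ _, Prod.ext rfl ?_⟩
      simp only
      field_simp
      linear_combination (-1 : K) * hp + (p.1 * p.2 + ρ p.2) * h2
  · symm
    apply card_bij (fun y _ => ((b + a.1 * (y + a.2) + ρ (y + a.2) + ρ y) / a.2, y))
    · intro y _
      simp only [mem_filter, mem_univ, true_and, Prod.fst_add, Prod.snd_add]
      field_simp
      linear_combination ((b + a.1 * (y + a.2) + ρ (y + a.2) + ρ y) * y +
        a.2 * (a.1 * (y + a.2) + ρ (y + a.2) + ρ y)) * h2
    · intro x _ y _ h; exact (Prod.ext_iff.1 h).2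
    · intro p hp
      simp only [mem_filter, mem_univ, true_and, Prod.fst_add, Prod.snd_add] at hp
      refine ⟨p.2, mem_univ _, Prod.ext ?_ rfl⟩
      simp only
      field_simp
      linear_combination (-1 : K) * hp +
        (p.1 * p.2 + a.1 * (p.2 + a.2) + ρ (p.2 + a.2) + ρ p.2) * h2
end

theorem main : ∃ F : (Fin 14 → ZMod 2) → (Fin 7 → ZMod 2), IsBent F ∧
    ∀ L : (Fin 14 → ZMod 2) →ₗ[ZMod 2] (Fin 7 → ZMod 2), ¬ TypeMinus (fun x => F x + L x) := by
  classical
  let K := GaloisField 2 7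
  haveI : Fintype K := Fintype.ofFinite K
  have hd : Module.finrank (ZMod 2) K = 7 := GaloisField.finrank 2 (by norm_num)
  have hK : Fintype.card K = 128 := by
    rw [Module.card_eq_pow_finrank (K := ZMod 2), hd]; simp
  have h2 : (2 : K) = 0 := by
    have := CharP.cast_eq_zero K 2
    exact_mod_cast this
  obtain ⟨ρ, hρ⟩ := exists_rho hK hd
  let φ : K ≃ₗ[ZMod 2] (Fin 7 → ZMod 2) := LinearEquiv.ofFinrankEq _ _ (by simp [hd])
  let ψ : (Fin 14 → ZMod 2) ≃ₗ[ZMod 2] K × K := LinearEquiv.ofFinrankEq _ _ (by simp [hd])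
  refine ⟨fun v => φ ((ψ v).1 * (ψ v).2 + ρ (ψ v).2), ?_, ?_⟩
  · intro a ha b
    have := bentK hK h2 ρ (ψ a) (by simpa using ha) (φ.symm b)
    rw [show 2 ^ (14 - 7) = 128 by norm_num, ← this]
    apply card_bij (fun v _ => ψ v)
    · intro v hv
      simp only [mem_filter, mem_univ, true_and] at hv ⊢
      rw [← map_add, map_add ψ] at hv
      rw [← hv]; simp
    · intro x _ y _ h; exact ψ.injective h
    · intro p hp
      refine ⟨ψ.symm p, ?_, by simp⟩
      simp only [mem_filter, mem_univ, true_and] at hp ⊢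
      rw [← map_add, map_add ψ, ψ.apply_symm_apply, hp]; simp
  · rintro L ⟨α, h1, -⟩
    have h3 : (univ.filter (fun v : Fin 14 → ZMod 2 =>
        φ ((ψ v).1 * (ψ v).2 + ρ (ψ v).2) + L v = α)).card = 1 := by
      have e : (2 : ℤ) ^ (14 - 7) - 2 ^ (14 / 2) + 2 ^ (14 / 2 - 7) = 1 := by norm_num
      rw [e] at h1
      exact_mod_cast h1
    obtain ⟨v0, hv0⟩ := card_eq_one.1 h3
    let M : K × K →ₗ[ZMod 2] K := φ.symm.toLinearMap ∘ₗ L ∘ₗ ψ.symm.toLinearMap
    obtain ⟨y, hy, x, hx⟩ := hρ (M ∘ₗ LinearMap.inl _ _ _) (M ∘ₗ LinearMap.inr _ _ _) (φ.symm α)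
      (ψ v0).2
    have : ψ.symm (x, y) ∈ ({v0} : Finset _) := by
      rw [← hv0]
      simp only [mem_filter, mem_univ, true_and, ψ.apply_symm_apply]
      have e : M (x, y) = M (x, 0) + M (0, y) := by rw [← map_add]; simp
      have e2 : φ (M (x, y)) = L (ψ.symm (x, y)) := by simp [M]
      rw [← e2, ← map_add, e]
      simp only [LinearMap.comp_apply, LinearMap.inl_apply, LinearMap.inr_apply] at hx
      rw [hx]; simp
    rw [mem_singleton] at this
    apply hy
    rw [← this]; simp

end Pool.Agent.H35.BentMinus
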