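import Mathlib

namespace Pool.Agent.H35.DD
open Finset

variable {V : Type} [DecidableEq V] (G : SimpleGraph V)

def IsM (S : Finset V) (m : V → V) : Prop :=
  ∀ v ∈ S, m v ∈ S ∧ m (m v) = v ∧ G.Adj v (m v)

def PM (S : Finset V) : Prop := ∃ m, IsM G S m

variable {G}

theorem IsM.congr {S T : Finset V} {m : V → V} (h : IsM G S m) (e : ∀ v, v ∈ T ↔ v ∈ S) :
    IsM G T m := by
  have : T = S := Finset.ext e
  rw [this]; exact h

theorem PM.congr {S T : Finset V} (h : PM G S) (e : ∀ v, v ∈ T ↔ v ∈ S) : PM G T := by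
  obtain ⟨m, hm⟩ := h
  exact ⟨m, hm.congr e⟩

theorem IsM.sub {S T : Finset V} {m : V → V} (h : IsM G S m) (hs : ∀ v ∈ T, v ∈ S)
    (hc : ∀ v ∈ T, m v ∈ T) : IsM G T m :=
  fun v hv => ⟨hc v hv, (h v (hs v hv)).2.1, (h v (hs v hv)).2.2⟩

theorem IsM.ne {S : Finset V} {m : V → V} (h : IsM G S m) {v : V} (hv : v ∈ S) : m v ≠ v :=
  fun e => (h v hv).2.2.ne e.symm

theorem IsM.inj {S : Finset V} {m : V → V} (h : IsM G S m) {v w : V} (hv : v ∈ S) (hw : w ∈ S)
    (e : m v = m w) : v = w := by
  rw [← (h v hv).2.1, e, (h w hw).2.1]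

theorem IsM.union {S T : Finset V} {m n : V → V} (h : IsM G S m) (k : IsM G T n)
    (d : ∀ v ∈ S, v ∉ T) : IsM G (S ∪ T) (fun v => if v ∈ S then m v else n v) := by
  intro v hv
  by_cases h1 : v ∈ S
  · have := h v h1
    simp [h1, this.1, this.2.1, this.2.2]
  · have h2 : v ∈ T := by simpa [h1] using hv
    have := k v h2
    have h3 : n v ∉ S := fun x => d _ x this.1
    simp [h1, h3, this.1, this.2.1, this.2.2]

theorem PM.union {S T : Finset V} (h : PM G S) (k : PM G T) (d : ∀ v ∈ S, v ∉ T) :
    PM G (S ∪ T) := by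
  obtain ⟨m, hm⟩ := h
  obtain ⟨n, hn⟩ := k
  exact ⟨_, hm.union hn d⟩

def addP (m : V → V) (a b : V) : V → V := fun v => if v = a then b else if v = b then a else m v

theorem IsM.add {S : Finset V} {m : V → V} (h : IsM G S m) {a b : V} (ha : a ∉ S) (hb : b ∉ S)
    (ab : G.Adj a b) : IsM G (insert a (insert b S)) (addP m a b) := by
  intro v hv
  have hne : a ≠ b := ab.ne
  by_cases h1 : v = a
  · subst h1
    simp [addP, hne.symm, ab]
  by_cases h2 : v = b
  · subst h2
    simp [addP, h1, ab.symm]
  have h3 : v ∈ S := by simpa [h1, h2] using hv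
  have := h v h3
  have h4 : m v ≠ a := fun e => ha (e ▸ this.1)
  have h5 : m v ≠ b := fun e => hb (e ▸ this.1)
  simp [addP, h1, h2, h4, h5, this.1, this.2.1, this.2.2]

theorem IsM.del {S : Finset V} {m : V → V} (h : IsM G S m) {a : V} (ha : a ∈ S) :
    IsM G ((S.erase a).erase (m a)) m := by
  refine h.sub (fun v hv => by simp at hv; exact hv.2.2) ?_
  intro v hv
  simp only [mem_erase] at hv ⊢
  refine ⟨fun e => hv.2.1 (h.inj hv.2.2 ha e), fun e => hv.1 ?_, (h v hv.2.2).1⟩
  rw [← e, (h v hv.2.2).2.1]

theorem card_del {S : Finset V} {m : V → V} (h : IsM G S m) {a : V} (ha : a ∈ S) :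
    ((S.erase a).erase (m a)).card + 2 = S.card := by
  have h1 : m a ∈ S.erase a := by simp [h.ne ha, (h a ha).1]
  rw [card_erase_of_mem h1, card_erase_of_mem ha]
  have : 2 ≤ S.card := by
    have : ({a, m a} : Finset V) ⊆ S := by
      intro x hx; simp at hx; rcases hx with rfl | rfl
      · exact ha
      · exact (h a ha).1
    have h2 := card_le_card this
    rwa [card_pair (h.ne ha).symm] at h2
  omega

theorem PM.even {S : Finset V} (h : PM G S) : S.card % 2 = 0 := by
  obtain ⟨m, hm⟩ := h
  induction' hn : S.card using Nat.strong_induction_on with n ih generalizing S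
  rcases S.eq_empty_or_nonempty with rfl | ⟨a, ha⟩
  · simp at hn; omega
  · have h1 := card_del hm ha
    have := ih _ (by omega) (hm.del ha) rfl
    omega

theorem PM.dom {S : Finset V} (h : PM G S) (A : V → V → Prop)
    (hA : ∀ u v, G.Adj u v → A u v ∨ A v u) :
    ∃ D : Finset V, D ⊆ S ∧ 2 * D.card ≤ S.card ∧ ∀ v ∈ S, v ∉ D → ∃ u ∈ D, A u v := by
  obtain ⟨m, hm⟩ := h
  induction' hn : S.card using Nat.strong_induction_on with n ih generalizing S
  rcases S.eq_empty_or_nonempty with rfl | ⟨a, ha⟩
  · exact ⟨∅, by simp, by simp, by simp⟩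
  · have h1 := card_del hm ha
    obtain ⟨D, hD, hc, hd⟩ := ih _ (by omega) (hm.del ha) rfl
    have hsub : D ⊆ S := fun x hx => by have := hD hx; simp at this; exact this.2.2
    rcases hA _ _ (hm a ha).2.2 with h2 | h2
    · refine ⟨insert a D, ?_, ?_, ?_⟩
      · exact insert_subset ha hsub
      · have := card_insert_le a D; omega
      · intro v hv hv2
        simp only [mem_insert, not_or] at hv2
        by_cases e : v = m a
        · exact ⟨a, by simp, e ▸ h2⟩
        · obtain ⟨u, hu, hu2⟩ := hd v (by simp [e, hv2.1, hv]) hv2.2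
          exact ⟨u, by simp [hu], hu2⟩
    · refine ⟨insert (m a) D, ?_, ?_, ?_⟩
      · exact insert_subset (hm a ha).1 hsub
      · have := card_insert_le (m a) D; omega
      · intro v hv hv2
        simp only [mem_insert, not_or] at hv2
        by_cases e : v = a
        · exact ⟨m a, by simp, e ▸ h2⟩
        · obtain ⟨u, hu, hu2⟩ := hd v (by simp [e, hv2.1, hv]) hv2.2
          exact ⟨u, by simp [hu], hu2⟩

/-- one step of the alternating walk -/
theorem step_isM {S : Finset V} {N : V → V} (h : IsM G S N) {c x : V} (hc : c ∉ S) (hx : x ∈ S)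
    (cx : G.Adj c x) : IsM G (insert c (S.erase (N x))) (addP N c x) := by
  have h1 := (h.del hx).add (a := c) (b := x) (by simp [hc]) (by simp) cx
  refine h1.congr ?_
  intro v
  have := h.ne hx
  simp only [mem_insert, mem_erase]
  constructor
  · rintro (e | ⟨e1, e2⟩)
    · exact Or.inl e
    · by_cases e : v = x
      · exact Or.inr (Or.inl e)
      · exact Or.inr (Or.inr ⟨e1, e, e2⟩)
  · rintro (e | e | ⟨e1, e2, e3⟩)
    · exact Or.inl e
    · subst e; exact Or.inr ⟨this.symm, hx⟩
    · exact Or.inr ⟨e1, e3⟩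

theorem step_meas {S S' : Finset V} {N N' : V → V} (h : IsM G S N) (h' : IsM G S' N') {c : V}
    (hc' : c ∈ S') (hc : c ∉ S) (hx : N' c ∈ S) :
    (S'.filter (fun v => ¬ (v ∈ insert c (S.erase (N (N' c))) ∧ addP N c (N' c) v = N' v))).card <
      (S'.filter (fun v => ¬ (v ∈ S ∧ N v = N' v))).card := by
  apply card_lt_card
  have hcx : N' c ≠ c := h'.ne hc'
  rw [Finset.ssubset_iff_of_subset]
  · refine ⟨c, by simp [hc', hc], ?_⟩
    simp [addP]
  · intro v hv
    simp only [mem_filter] at hv ⊢
    refine ⟨hv.1, fun hh => hv.2 ?_⟩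
    have e1 : v ≠ c := fun e => hc (e ▸ hh.1)
    have e2 : v ≠ N' c := by
      intro e
      have : N v = c := by rw [hh.2, e, (h' c hc').2.1]
      exact hc (this ▸ (h v hh.1).1)
    have e3 : v ≠ N (N' c) := by
      intro e
      have : N' v = N' c := by rw [← hh.2, e, (h _ hx).2.1]
      exact e1 (h'.inj hv.1 hc' this)
    simp [addP, e1, e2, e3, hh.1, hh.2]

def From (S S' : Finset V) (N N' : V → V) (T : Finset V) (m : V → V) : Prop :=
  ∀ v ∈ T, (v ∈ S ∧ m v = N v) ∨ (v ∈ S' ∧ m v = N' v)

theorem altP {S' : Finset V} {N' : V → V} (h' : IsM G S' N') :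
    ∀ (k : ℕ) (S : Finset V) (N : V → V) (c : V), IsM G S N → c ∈ S' → c ∉ S →
      (S'.filter (fun v => ¬ (v ∈ S ∧ N v = N' v))).card ≤ k →
      ∃ d m1 m2,
        (d ∈ S' ∧ d ∉ S ∧ d ≠ c ∧ IsM G (insert c (insert d S)) m1 ∧
          From S S' N N' (insert c (insert d S)) m1 ∧ IsM G ((S'.erase c).erase d) m2 ∧
          From S S' N N' ((S'.erase c).erase d) m2) ∨
        (d ∈ S ∧ d ∉ S' ∧ IsM G (insert c (S.erase d)) m1 ∧
          From S S' N N' (insert c (S.erase d)) m1 ∧ IsM G (insert d (S'.erase c)) m2 ∧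
          From S S' N N' (insert d (S'.erase c)) m2) := by
  intro k
  induction k with
  | zero =>
    intro S N c h hc' hc hk
    have : c ∈ S'.filter (fun v => ¬ (v ∈ S ∧ N v = N' v)) := by simp [hc', hc]
    have := card_pos.mpr ⟨c, this⟩
    omega
  | succ k ih =>
    intro S N c h hc' hc hk
    have hcc := h' c hc'
    have hxc : N' c ≠ c := h'.ne hc'
    by_cases hx : N' c ∈ S
    swap
    · refine ⟨N' c, addP N c (N' c), N', Or.inl ⟨hcc.1, hx, hxc, h.add hc hx hcc.2.2, ?_,
        h'.del hc', ?_⟩⟩
      · intro v hv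
        by_cases e1 : v = c
        · right; subst e1; simp [addP, hc']
        by_cases e2 : v = N' c
        · right; subst e2; simp [addP, hxc, hcc.1, hcc.2.1]
        left
        simp [addP, e1, e2] at hv ⊢
        exact hv
      · intro v hv
        right
        simp at hv
        exact ⟨hv.2.2, rfl⟩
    have hxx := h _ hx
    have hyx : N (N' c) ≠ N' c := h.ne hx
    have hyc : N (N' c) ≠ c := fun e => hc (e ▸ hxx.1)
    have s1 := step_isM h hc hx hcc.2.2
    have F1 : ∀ v ∈ insert c (S.erase (N (N' c))),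
        (v ∈ S ∧ addP N c (N' c) v = N v) ∨ (v ∈ S' ∧ addP N c (N' c) v = N' v) := by
      intro v hv
      by_cases e1 : v = c
      · right; subst e1; simp [addP, hc']
      by_cases e2 : v = N' c
      · right; subst e2; simp [addP, hxc, hcc.1, hcc.2.1]
      left
      simp [addP, e1, e2] at hv ⊢
      exact hv.2
    by_cases hy : N (N' c) ∈ S'
    swap
    · refine ⟨N (N' c), addP N c (N' c), addP N' (N (N' c)) (N' c), Or.inr ⟨hxx.1, hy, s1, F1, ?_, ?_⟩⟩
      · have := step_isM h' hy hcc.1 hxx.2.2.symm
        rwa [hcc.2.1] at this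
      · intro v hv
        by_cases e1 : v = N (N' c)
        · left; subst e1; simp [addP, hxx.1, hxx.2.1]
        by_cases e2 : v = N' c
        · left; subst e2; simp [addP, hyx.symm, hx]
        right
        simp [addP, e1, e2] at hv ⊢
        exact hv.2
    have hm := step_meas h h' hc' hc hx
    obtain ⟨d, m1, m2, hd⟩ := ih _ _ (N (N' c)) s1 hy (by simp [hyc]) (by omega)
    have key : ∀ (T : Finset V) (m : V → V), From (insert c (S.erase (N (N' c)))) S'
        (addP N c (N' c)) N' T m → From S S' N N' T m := by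
      intro T m hT v hv
      rcases hT v hv with ⟨a1, a2⟩ | a
      · rw [a2]; exact F1 v a1
      · exact Or.inr a
    have key2 : ∀ (T : Finset V) (m : V → V), IsM G T m → From (insert c (S.erase (N (N' c)))) S'
        (addP N c (N' c)) N' T m → N' c ∈ T → N (N' c) ∉ T →
        IsM G (insert (N (N' c)) (T.erase c)) (addP m (N (N' c)) (N' c)) ∧
        From S S' N N' (insert (N (N' c)) (T.erase c)) (addP m (N (N' c)) (N' c)) := by
      intro T m hm hT h1 h2
      have e : m (N' c) = c := by
        rcases hT _ h1 with ⟨_, a2⟩ | ⟨_, a2⟩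
        · rw [a2]; simp [addP, hxc]
        · rw [a2, hcc.2.1]
      have := step_isM hm h2 h1 hxx.2.2.symm
      rw [e] at this
      refine ⟨this, ?_⟩
      intro v hv
      by_cases e1 : v = N (N' c)
      · left; subst e1; simp [addP, hxx.1, hxx.2.1]
      by_cases e2 : v = N' c
      · left; subst e2; simp [addP, hyx.symm, hx]
      have hv2 : v ∈ T := by simp [e1] at hv; exact hv.2
      have := key T m hT v hv2
      simpa [addP, e1, e2] using this
    rcases hd with ⟨d1, d2, d3, d4, d5, d6, d7⟩ | ⟨d1, d2, d4, d5, d6, d7⟩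
    · simp only [mem_insert, mem_erase, not_or, not_and] at d2
      have dS : d ∉ S := d2.2 d3
      have dx : N' c ≠ d := fun e => dS (e ▸ hx)
      have E1 : ∀ v, v ∈ insert c (insert d S) ↔
          v ∈ insert (N (N' c)) (insert d (insert c (S.erase (N (N' c))))) := by
        intro v
        simp only [mem_insert, mem_erase]
        by_cases e : v = N (N' c)
        · simp [e, hxx.1]
        · tauto
      obtain ⟨k1, k2⟩ := key2 _ m2 d6 d7 (by simp [dx, hyx.symm, hcc.1]) (by simp)
      have E2 : ∀ v, v ∈ (S'.erase c).erase d ↔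
          v ∈ insert (N (N' c)) (((S'.erase (N (N' c))).erase d).erase c) := by
        intro v
        simp only [mem_insert, mem_erase]
        by_cases e : v = N (N' c)
        · simp [e, hy, hyc, d3.symm]
        · tauto
      refine ⟨d, m1, addP m2 (N (N' c)) (N' c), Or.inl ⟨d1, dS, d2.1, d4.congr E1, ?_, k1.congr E2, ?_⟩⟩
      · intro v hv; exact key _ _ d5 v ((E1 v).1 hv)
      · intro v hv; exact k2 v ((E2 v).1 hv)
    · have dc : d ≠ c := fun e => d2 (e ▸ hc')
      have dy : d ≠ N (N' c) := fun e => d2 (e ▸ hy)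
      have dS : d ∈ S := by simp [dc] at d1; exact d1.2
      have E1 : ∀ v, v ∈ insert c (S.erase d) ↔
          v ∈ insert (N (N' c)) ((insert c (S.erase (N (N' c)))).erase d) := by
        intro v
        simp only [mem_insert, mem_erase]
        by_cases e : v = N (N' c)
        · simp [e, hxx.1, dy.symm]
        · by_cases e' : v = c
          · simp [e', dc.symm]
          · tauto
      obtain ⟨k1, k2⟩ := key2 _ m2 d6 d7 (by simp [hyx.symm, hcc.1]) (by simp [dy.symm])
      have E2 : ∀ v, v ∈ insert d (S'.erase c) ↔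
          v ∈ insert (N (N' c)) ((insert d (S'.erase (N (N' c)))).erase c) := by
        intro v
        simp only [mem_insert, mem_erase]
        by_cases e : v = N (N' c)
        · simp [e, hy, hyc]
        · by_cases e' : v = d
          · simp [e', dc]
          · tauto
      refine ⟨d, m1, addP m2 (N (N' c)) (N' c), Or.inr ⟨dS, d2, d4.congr E1, ?_, k1.congr E2, ?_⟩⟩
      · intro v hv; exact key _ _ d5 v ((E1 v).1 hv)
      · intro v hv; exact k2 v ((E2 v).1 hv)

theorem altPath {S' : Finset V} {N' : V → V} (h' : IsM G S' N') :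
    ∀ (k : ℕ) (S : Finset V) (N : V → V) (c : V), IsM G S N → c ∈ S' → c ∉ S →
      (S'.filter (fun v => ¬ (v ∈ S ∧ N v = N' v))).card ≤ k →
      ∃ (n : ℕ) (g : ℕ → V), 1 ≤ n ∧ g 0 = c ∧ g 1 = N' c ∧ (∀ i < n, G.Adj (g i) (g (i + 1))) ∧
        (∀ i ≤ n, ∀ j ≤ n, g i = g j → i = j) ∧ (∀ i, 0 < i → i < n → g i ∈ S) ∧
        (∀ i ≤ n, g i ∈ S → ∃ j ≤ n, g j = N (g i)) ∧
        (∀ i ≤ n, ¬ (g i ∈ S ∧ g i ∈ S' ∧ N (g i) = N' (g i))) ∧
        ((g n ∈ S' ∧ g n ∉ S ∧ n % 2 = 1) ∨ (g n ∈ S ∧ g n ∉ S' ∧ n % 2 = 0)) := by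
  intro k
  induction k with
  | zero =>
    intro S N c h hc' hc hk
    have : c ∈ S'.filter (fun v => ¬ (v ∈ S ∧ N v = N' v)) := by simp [hc', hc]
    have := card_pos.mpr ⟨c, this⟩
    omega
  | succ k ih =>
    intro S N c h hc' hc hk
    have hcc := h' c hc'
    have hxc : N' c ≠ c := h'.ne hc'
    by_cases hx : N' c ∈ S
    swap
    · refine ⟨1, fun i => if i = 0 then c else N' c, le_rfl, by simp, by simp, ?_, ?_, ?_, ?_, ?_, ?_⟩
      · intro i hi
        have : i = 0 := by omega
        subst this; simpa using hcc.2.2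
      · intro i hi j hj
        interval_cases i <;> interval_cases j <;> simp [hxc, hxc.symm]
      · intro i h1 h2; omega
      · intro i hi
        interval_cases i <;> simp [hc, hx]
      · intro i hi
        interval_cases i <;> simp [hc, hx]
      · left; simp [hcc.1, hx]
    have hxx := h _ hx
    have hyx : N (N' c) ≠ N' c := h.ne hx
    have hyc : N (N' c) ≠ c := fun e => hc (e ▸ hxx.1)
    have s1 := step_isM h hc hx hcc.2.2
    by_cases hy : N (N' c) ∈ S'
    swap
    · refine ⟨2, fun i => if i = 0 then c else if i = 1 then N' c else N (N' c), by omega, by simp,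
        by simp, ?_, ?_, ?_, ?_, ?_, ?_⟩
      · intro i hi
        interval_cases i
        · simpa using hcc.2.2
        · simpa using hxx.2.2
      · intro i hi j hj
        interval_cases i <;> interval_cases j <;>
          simp [hxc, hxc.symm, hyx, hyx.symm, hyc, hyc.symm]
      · intro i h1 h2
        have : i = 1 := by omega
        subst this; simpa using hx
      · intro i hi
        interval_cases i
        · simp [hc]
        · intro _; exact ⟨2, le_rfl, by simp⟩
        · intro _; exact ⟨1, by omega, by simp [hxx.2.1]⟩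
      · intro i hi
        interval_cases i
        · simp [hc]
        · simp [hcc.2.1, hyc]
        · simp [hy]
      · right; simp [hxx.1, hy]
    have hm := step_meas h h' hc' hc hx
    obtain ⟨n, g, n1, g0, g1, ga, gi, gs, gc, gd, ge⟩ :=
      ih _ _ (N (N' c)) s1 hy (by simp [hyc]) (by omega)
    have nc : ∀ i ≤ n, g i ≠ c := by
      intro i hi e
      apply gd i hi
      rw [e]; simp [addP, hc']
    have nx : ∀ i ≤ n, g i ≠ N' c := by
      intro i hi e
      apply gd i hi
      rw [e]; simp [addP, hxc, hcc.1, hcc.2.1, hyx.symm, hx]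
    have ny : ∀ i ≤ n, i ≠ 0 → g i ≠ N (N' c) := by
      intro i hi i0 e
      exact i0 (gi i hi 0 (by omega) (e.trans g0.symm))
    have hadd : ∀ i ≤ n, addP N c (N' c) (g i) = N (g i) := by
      intro i hi; simp [addP, nc i hi, nx i hi]
    refine ⟨n + 2, fun i => if i = 0 then c else if i = 1 then N' c else g (i - 2), by omega,
      by simp, by simp, ?_, ?_, ?_, ?_, ?_, ?_⟩
    · intro i hi
      rcases i with _ | _ | i
      · simpa using hcc.2.2
      · simpa [g0] using hxx.2.2
      · have := ga i (by omega)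
        simpa using this
    · intro i hi j hj
      rcases i with _ | _ | i <;> rcases j with _ | _ | j <;> simp [hxc, hxc.symm]
      · exact (nc j (by omega)).symm
      · exact (nx j (by omega)).symm
      · exact nc i (by omega)
      · exact nx i (by omega)
      · exact gi i (by omega) j (by omega)
    · intro i h1 h2
      rcases i with _ | _ | i
      · omega
      · simpa using hx
      · simp only [Nat.add_eq_zero_iff, one_ne_zero, and_false, if_false, Nat.add_eq_right,
          Nat.reduceSubDiff, Nat.add_sub_cancel]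
        by_cases i0 : i = 0
        · subst i0; rw [g0]; exact hxx.1
        · have := gs i (by omega) (by omega)
          simp [nc i (by omega)] at this
          exact this.2
    · intro i hi
      rcases i with _ | _ | i
      · simp [hc]
      · intro _; exact ⟨2, by omega, by simp [g0]⟩
      · simp only [Nat.add_eq_zero_iff, one_ne_zero, and_false, if_false, Nat.add_eq_right,
          Nat.reduceSubDiff, Nat.add_sub_cancel]
        intro hS
        by_cases i0 : i = 0
        · subst i0; exact ⟨1, by omega, by simp [g0, hxx.2.1]⟩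
        · obtain ⟨j, hj, e⟩ := gc i (by omega) (by simp [ny i (by omega) i0, hS])
          refine ⟨j + 2, by omega, ?_⟩
          rw [hadd i (by omega)] at e
          simpa using e
    · intro i hi
      rcases i with _ | _ | i
      · simp [hc]
      · simp [hcc.2.1, hyc]
      · simp only [Nat.add_eq_zero_iff, one_ne_zero, and_false, if_false, Nat.add_eq_right,
          Nat.reduceSubDiff, Nat.add_sub_cancel]
        rintro ⟨a1, a2, a3⟩
        by_cases i0 : i = 0
        · subst i0
          rw [g0] at a3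
          rw [hxx.2.1] at a3
          exact hyc (h'.inj hy hc' a3.symm)
        · apply gd i (by omega)
          exact ⟨by simp [ny i (by omega) i0, a1], a2, by rw [hadd i (by omega)]; exact a3⟩
    · simp only [Nat.add_eq_zero_iff, OfNat.ofNat_ne_zero, and_false, if_false, Nat.add_sub_cancel]
      have e : ¬ (n + 2 = 1) := by omega
      simp only [e, if_false]
      rcases ge with ⟨a1, a2, a3⟩ | ⟨a1, a2, a3⟩
      · left
        refine ⟨a1, fun hS => a2 ?_, by omega⟩
        simp [ny n le_rfl (by omega), hS]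
      · right
        refine ⟨?_, a2, by omega⟩
        simp [nc n le_rfl] at a1
        exact a1.2

end Pool.Agent.H35.DD
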