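import Pool.Agent.H35.DD1

namespace Pool.Agent.H35.DD
open Finset

variable {V : Type} [DecidableEq V] (G : SimpleGraph V)

def FC (K : Finset V) : Prop := ∀ v ∈ K, PM G (K.erase v)

def Nice (K : Finset V) (u p q : V) : Prop := PM G (((K.erase u).erase p).erase q)

open Classical in
noncomputable def Ext (K : Finset V) (l : ℕ) (v : ℕ → V) (T : ℕ → Prop) : Finset V :=
  K.filter (fun w => ∀ j ≤ l, v j = w → T j)

structure NC (K : Finset V) (l : ℕ) (v : ℕ → V) : Prop where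
  ev : l % 2 = 0
  two : 2 ≤ l
  inj : ∀ i ≤ l, ∀ j ≤ l, v i = v j → i = j
  mem : ∀ i ≤ l, v i ∈ K
  adj : ∀ i < l, G.Adj (v i) (v (i + 1))
  close : G.Adj (v l) (v 0)
  rest : PM G (Ext K l v (fun _ => False))

def Pairing (l : ℕ) (J up : ℕ → Prop) : Prop :=
  ∀ j ≤ l, J j →
    (up j → ((j < l → J (j + 1) ∧ ¬ up (j + 1)) ∧ (j = l → J 0 ∧ ¬ up 0))) ∧
    (¬ up j → ((0 < j → J (j - 1) ∧ up (j - 1)) ∧ (j = 0 → J l ∧ up l)))

variable {G}

theorem mem_Ext {K : Finset V} {l : ℕ} {v : ℕ → V} {T : ℕ → Prop} {w : V} :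
    w ∈ Ext K l v T ↔ w ∈ K ∧ ∀ j ≤ l, v j = w → T j := by
  unfold Ext; simp

theorem NC.mem_Ext_v {K : Finset V} {l : ℕ} {v : ℕ → V} (h : NC G K l v) {T : ℕ → Prop} {i : ℕ}
    (hi : i ≤ l) : v i ∈ Ext K l v T ↔ T i := by
  rw [mem_Ext]
  constructor
  · intro x; exact x.2 i hi rfl
  · intro x
    refine ⟨h.mem i hi, fun j hj e => ?_⟩
    rw [h.inj j hj i hi e]; exact x

theorem Nice.symm {K : Finset V} {u p q : V} (h : Nice G K u p q) : Nice G K u q p :=
  PM.congr h (by intro v; simp only [mem_erase]; tauto)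

theorem NC.pmJ {K : Finset V} {l : ℕ} {v : ℕ → V} (h : NC G K l v) {T R up : ℕ → Prop}
    {N : V → V} (hN : IsM G (Ext K l v T) N) (hTR : ∀ j ≤ l, T j → ¬ R j)
    (hp : Pairing l (fun j => ¬ T j ∧ ¬ R j) up) :
    ∃ m, IsM G (Ext K l v (fun j => ¬ R j)) m ∧ ∀ w ∈ Ext K l v T, m w = N w := by
  classical
  let idx : V → ℕ := fun w => if x : ∃ j ≤ l, v j = w then x.choose else 0
  have hidx : ∀ i ≤ l, idx (v i) = i := by
    intro i hi
    have x : ∃ j ≤ l, v j = v i := ⟨i, hi, rfl⟩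
    simp only [idx, dif_pos x]
    exact h.inj _ x.choose_spec.1 _ hi x.choose_spec.2
  let s : ℕ → ℕ := fun j => if up j then (if j = l then 0 else j + 1) else (if j = 0 then l else j - 1)
  let Y : Finset V := ((range (l + 1)).filter (fun j => ¬ T j ∧ ¬ R j)).image v
  have hY : ∀ w, w ∈ Y ↔ ∃ j ≤ l, (¬ T j ∧ ¬ R j) ∧ v j = w := by
    intro w; simp [Y, Nat.lt_succ_iff, and_assoc]
  have two := h.two
  have hs : ∀ j ≤ l, (¬ T j ∧ ¬ R j) → s j ≤ l ∧ (¬ T (s j) ∧ ¬ R (s j)) ∧ s (s j) = j ∧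
      G.Adj (v j) (v (s j)) := by
    intro j hj hJ
    have := hp j hj hJ
    by_cases u : up j
    · have a := this.1 u
      by_cases e : j = l
      · have b := a.2 e
        have e1 : s j = 0 := by simp only [s, if_pos u, if_pos e]
        rw [e1]
        refine ⟨by omega, b.1, by simp [s, b.2, e], ?_⟩
        rw [e]; exact h.close
      · have b := a.1 (by omega)
        have e1 : s j = j + 1 := by simp [s, u, e]
        rw [e1]
        exact ⟨by omega, b.1, by simp [s, b.2], h.adj j (by omega)⟩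
    · have a := this.2 u
      by_cases e : j = 0
      · have b := a.2 e
        have e1 : s j = l := by simp only [s, if_neg u, if_pos e]
        rw [e1]
        refine ⟨by omega, b.1, by simp [s, b.2, e], ?_⟩
        rw [e]; exact h.close.symm
      · have b := a.1 (by omega)
        have e1 : s j = j - 1 := by simp [s, u, e]
        rw [e1]
        refine ⟨by omega, b.1, ?_, ?_⟩
        · have : j - 1 ≠ l := by omega
          simp [s, b.2, this]; omega
        · have := (h.adj (j - 1) (by omega)).symm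
          rwa [Nat.sub_add_cancel (by omega)] at this
  have mY : IsM G Y (fun w => v (s (idx w))) := by
    intro w hw
    obtain ⟨j, hj, hJ, rfl⟩ := (hY w).1 hw
    obtain ⟨a1, a2, a3, a4⟩ := hs j hj hJ
    simp only [hidx j hj, hidx _ a1, a3]
    exact ⟨(hY _).2 ⟨_, a1, a2, rfl⟩, trivial, a4⟩
  have dis : ∀ w ∈ Ext K l v T, w ∉ Y := by
    intro w hw hy
    obtain ⟨j, hj, hJ, rfl⟩ := (hY w).1 hy
    exact hJ.1 ((h.mem_Ext_v hj).1 hw)
  refine ⟨_, (hN.union mY dis).congr ?_, ?_⟩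
  · intro w
    rw [mem_union, hY, mem_Ext, mem_Ext]
    constructor
    · rintro ⟨a1, a2⟩
      by_cases x : ∀ j ≤ l, v j = w → T j
      · exact Or.inl ⟨a1, x⟩
      · push Not at x
        obtain ⟨j, hj, e, t⟩ := x
        exact Or.inr ⟨j, hj, ⟨t, a2 j hj e⟩, e⟩
    · rintro (⟨a1, a2⟩ | ⟨j, hj, hJ, rfl⟩)
      · exact ⟨a1, fun j hj e => hTR j hj (a2 j hj e)⟩
      · refine ⟨h.mem j hj, fun i hi e => ?_⟩
        rw [h.inj i hi j hj e]; exact hJ.2
  · intro w hw
    simp [hw]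

/-- a cherry made of an ear edge and a cycle edge -/
theorem NC.nice_ear {K : Finset V} {l : ℕ} {v : ℕ → V} (h : NC G K l v) {T up : ℕ → Prop}
    {N : V → V} (hN : IsM G (Ext K l v T) N) {c s : ℕ} (hc : c ≤ l) (hs : s ≤ l) (Tc : T c)
    (Ts : ¬ T s) (hp : Pairing l (fun j => ¬ T j ∧ ¬ j = s) up) :
    Nice G K (v c) (N (v c)) (v s) := by
  obtain ⟨m, hm, e⟩ := h.pmJ (R := fun j => j = s) hN (fun j _ t x => Ts (x ▸ t)) hp
  have cs : c ≠ s := fun x => Ts (x ▸ Tc)
  have h1 := hm.del (a := v c) ((h.mem_Ext_v hc).2 cs)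
  rw [e _ ((h.mem_Ext_v hc).2 Tc)] at h1
  refine ⟨m, h1.congr ?_⟩
  intro w
  simp only [mem_erase, mem_Ext]
  constructor
  · rintro ⟨a1, a2, a3, a4⟩
    exact ⟨a2, a3, a4, fun j hj x y => a1 (by rw [← x, y])⟩
  · rintro ⟨a2, a3, a4, a5⟩
    exact ⟨fun x => a5 s hs x.symm rfl, a2, a3, a4⟩

theorem NC.nice_cyc {K : Finset V} {l : ℕ} {v : ℕ → V} (h : NC G K l v) {c p s : ℕ} (hc : c ≤ l)
    (hp : (0 < c ∧ p + 1 = c) ∨ (c = 0 ∧ p = l)) (hs : (c < l ∧ s = c + 1) ∨ (c = l ∧ s = 0)) :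
    Nice G K (v c) (v p) (v s) := by
  obtain ⟨N, hN⟩ := h.rest
  have ev := h.ev
  have two := h.two
  obtain ⟨m, hm, _⟩ := h.pmJ (R := fun j => j = c ∨ j = p ∨ j = s)
    (up := fun j => (j < c ∧ j % 2 ≠ c % 2) ∨ (c < j ∧ j % 2 = c % 2)) hN (fun j _ t => t.elim)
    (by intro j hj hJ; simp only [not_false_eq_true, true_and] at hJ ⊢; omega)
  refine ⟨m, hm.congr ?_⟩
  intro w
  simp only [mem_erase, mem_Ext]
  constructor
  · rintro ⟨a1, a2, a3, a4⟩
    refine ⟨a4, fun j hj x y => ?_⟩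
    rcases y with y | y | y
    · exact a3 (by rw [← x, y])
    · exact a2 (by rw [← x, y])
    · exact a1 (by rw [← x, y])
  · rintro ⟨a4, a5⟩
    exact ⟨fun x => a5 s (by omega) x.symm (by simp), fun x => a5 p (by omega) x.symm (by simp),
      fun x => a5 c hc x.symm (by simp), a4⟩

theorem NC.minus_one {K : Finset V} {l : ℕ} {v : ℕ → V} (h : NC G K l v) {c : ℕ} (hc : c ≤ l) :
    PM G (((range (l + 1)).image v).erase (v c)) := by
  obtain ⟨N, hN⟩ := h.rest
  have ev := h.ev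
  have two := h.two
  obtain ⟨m, hm, e⟩ := h.pmJ (R := fun j => j = c)
    (up := fun j => (j < c ∧ j % 2 = c % 2) ∨ (c < j ∧ j % 2 ≠ c % 2)) hN (fun j _ t => t.elim)
    (by intro j hj hJ; simp only [not_false_eq_true, true_and] at hJ ⊢; omega)
  refine ⟨m, hm.sub ?_ ?_⟩
  · intro w hw
    simp only [mem_erase, mem_image, mem_range] at hw
    obtain ⟨a, j, hj, rfl⟩ := hw
    exact (h.mem_Ext_v (by omega)).2 (fun x => a (by rw [x]))
  · intro w hw
    simp only [mem_erase, mem_image, mem_range] at hw ⊢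
    obtain ⟨a, j, hj, rfl⟩ := hw
    have h1 : v j ∈ Ext K l v (fun j => ¬ j = c) :=
      (h.mem_Ext_v (by omega)).2 (fun x => a (by rw [x]))
    have h2 := hm _ h1
    refine ⟨fun x => ?_, ?_⟩
    · have := h2.1; rw [x, h.mem_Ext_v hc] at this; exact this rfl
    · by_contra x
      push Not at x
      have h3 : m (v j) ∈ Ext K l v (fun _ => False) :=
        mem_Ext.2 ⟨(mem_Ext.1 h2.1).1, fun i hi y => x i (by omega) y⟩
      have h4 := (hN _ h3).1
      rw [← e _ h3, h2.2.1, h.mem_Ext_v (by omega)] at h4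
      exact h4

/-- a nice cycle through a prescribed edge pair -/
theorem exists_NC {K : Finset V} (hK : FC G K) {u p : V} (hu : u ∈ K) (hp : p ∈ K)
    (up : G.Adj u p) {N' : V → V} (hN' : IsM G (K.erase p) N') :
    ∃ l v, NC G K l v ∧ v 0 = u ∧ v 1 = N' u ∧ v l = p := by
  obtain ⟨N, hN⟩ := hK u hu
  obtain ⟨n, g, n1, g0, g1, ga, gi, gs, gc, -, ge⟩ :=
    altPath hN' _ _ N u hN (by simp [hu, up.ne]) (by simp) le_rfl
  have ge' : g n = p ∧ n % 2 = 0 := by
    rcases ge with ⟨a1, a2, a3⟩ | ⟨a1, a2, a3⟩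
    · exfalso
      simp only [mem_erase, not_and] at a1 a2
      by_cases e : g n = u
      · have := gi n le_rfl 0 (by omega) (e.trans g0.symm); omega
      · exact a2 e a1.2
    · simp only [mem_erase, not_and] at a1 a2
      refine ⟨?_, a3⟩
      by_contra e; exact a2 e a1.2
  refine ⟨n, g, ⟨ge'.2, by omega, gi, ?_, ga, ?_, ?_⟩, g0, g1, ge'.1⟩
  · intro i hi
    by_cases e : i = 0
    · rw [e, g0]; exact hu
    by_cases e' : i = n
    · rw [e', ge'.1]; exact hp
    exact (mem_erase.1 (gs i (by omega) (by omega))).2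
  · rw [ge'.1, g0]; exact up.symm
  · have sub : ∀ w ∈ Ext K n g (fun _ => False), w ∈ K.erase u := by
      intro w hw
      rw [mem_Ext] at hw
      exact mem_erase.2 ⟨fun e => hw.2 0 (by omega) (g0.trans e.symm), hw.1⟩
    refine ⟨N, hN.sub sub ?_⟩
    intro w hw
    have h1 := hN w (sub w hw)
    rw [mem_Ext] at hw ⊢
    refine ⟨(mem_erase.1 h1.1).2, fun j hj e => ?_⟩
    obtain ⟨i, hi, e2⟩ := gc j hj (e ▸ h1.1)
    rw [e, h1.2.1] at e2
    exact hw.2 i hi e2

def NoTriple (G : SimpleGraph V) (K : Finset V) : Prop :=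
  ∀ u ∈ K, ∀ x ∈ K, ∀ y ∈ K, ∀ z ∈ K, G.Adj u x → G.Adj u y → G.Adj u z → x ≠ y → x ≠ z → y ≠ z →
    Nice G K u x y → Nice G K u x z → Nice G K u y z → False

def NoOut (G : SimpleGraph V) (A : V → V → Prop) (K : Finset V) : Prop :=
  ∀ u ∈ K, ∀ x ∈ K, ∀ y ∈ K, G.Adj u x → G.Adj u y → x ≠ y → Nice G K u x y → A u x → A u y → False

theorem noIn {K : Finset V} (hK : FC G K) {A : V → V → Prop}
    (hA : ∀ u v, G.Adj u v → A u v ∨ A v u) (ho : NoOut G A K) {u p q : V} (hu : u ∈ K)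
    (hp : p ∈ K) (hq : q ∈ K) (up : G.Adj u p) (uq : G.Adj u q) (pq : p ≠ q)
    (hn : Nice G K u p q) (a1 : A p u) (a2 : A q u) : False := by
  obtain ⟨m, hm⟩ := hn
  have h1 := hm.add (a := u) (b := q) (by simp) (by simp) uq
  have h2 : IsM G (K.erase p) (addP m u q) := by
    refine h1.congr ?_
    intro w
    simp only [mem_erase, mem_insert]
    by_cases e1 : w = u
    · simp [e1, up.ne, hu]
    by_cases e2 : w = q
    · simp [e2, pq.symm, hq]
    tauto
  obtain ⟨l, v, h, v0, v1, vl⟩ := exists_NC hK hu hp up h2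
  have v1' : v 1 = q := by rw [v1]; simp [addP]
  have two := h.two
  have all : ∀ i < l, A (v (i + 1)) (v i) := by
    intro i
    induction i with
    | zero => intro _; rw [v0]; simpa [v1'] using a2
    | succ i ih =>
      intro hi
      have b := ih (by omega)
      rcases hA _ _ (h.adj (i + 1) hi) with c | c
      · exfalso
        refine ho _ (h.mem _ (by omega)) _ (h.mem _ (by omega)) _ (h.mem _ (by omega))
          (h.adj i (by omega)).symm (h.adj (i + 1) hi) ?_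
          (h.nice_cyc (by omega) (Or.inl ⟨by omega, rfl⟩) (Or.inl ⟨hi, rfl⟩)) b c
        intro e
        have := h.inj _ (by omega) _ (by omega) e
        omega
      · exact c
  have b := all (l - 1) (by omega)
  have adj := (h.adj (l - 1) (by omega)).symm
  rw [Nat.sub_add_cancel (by omega)] at b adj
  refine ho _ (h.mem l le_rfl) _ (h.mem _ (by omega)) _ (h.mem 0 (by omega)) adj h.close ?_
    (h.nice_cyc le_rfl (Or.inl ⟨by omega, by omega⟩) (Or.inr ⟨rfl, rfl⟩)) b (by rw [vl, v0]; exact a1)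
  intro e
  have := h.inj _ (by omega) _ (by omega) e
  omega

theorem noTriple_of {K : Finset V} (hK : FC G K) {A : V → V → Prop}
    (hA : ∀ u v, G.Adj u v → A u v ∨ A v u) (ho : NoOut G A K) : NoTriple G K := by
  intro u hu x hx y hy z hz ux uy uz xy xz yz n1 n2 n3
  rcases hA _ _ ux with a | a <;> rcases hA _ _ uy with b | b <;> rcases hA _ _ uz with c | c
  · exact ho u hu x hx y hy ux uy xy n1 a b
  · exact ho u hu x hx y hy ux uy xy n1 a b
  · exact ho u hu x hx z hz ux uz xz n2 a c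
  · exact noIn hK hA ho hu hy hz uy uz yz n3 b c
  · exact ho u hu y hy z hz uy uz yz n3 b c
  · exact noIn hK hA ho hu hx hz ux uz xz n2 a c
  · exact noIn hK hA ho hu hx hy ux uy xy n1 a b
  · exact noIn hK hA ho hu hx hy ux uy xy n1 a b

end Pool.Agent.H35.DD
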