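import Pool.Agent.H35.DD2

namespace Pool.Agent.H35.DD
open Finset

variable {V : Type} [DecidableEq V] {G : SimpleGraph V}

def Ear (G : SimpleGraph V) (K : Finset V) (l : ℕ) (v : ℕ → V) (c d : ℕ) (N : V → V) : Prop :=
  c ≠ d ∧ d ≤ l ∧ IsM G (Ext K l v (fun j => j = c ∨ j = d)) N ∧
    N (v c) ≠ v (c - 1) ∧ N (v c) ≠ v (c + 1)

theorem NC.longer {K : Finset V} {l : ℕ} {v : ℕ → V} (h : NC G K l v) {i : ℕ} (hi : i < l)
    {N : V → V} (hN : IsM G (Ext K l v (fun j => j = i ∨ j = i + 1)) N)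
    (hne : N (v i) ≠ v (i + 1)) : ∃ l' w, l < l' ∧ NC G K l' w ∧ w 0 = v 0 := by
  obtain ⟨N0, hN0⟩ := h.rest
  obtain ⟨n, g, n1, g0, g1, ga, gi, gs, gc, -, ge⟩ :=
    altPath hN _ _ N0 (v i) hN0 ((h.mem_Ext_v hi.le).2 (Or.inl rfl))
      (by rw [h.mem_Ext_v hi.le]; simp) le_rfl
  have ge' : g n = v (i + 1) ∧ n % 2 = 1 := by
    rcases ge with ⟨a1, a2, a3⟩ | ⟨a1, a2, a3⟩
    · refine ⟨?_, a3⟩
      rw [mem_Ext] at a1 a2
      push Not at a2
      obtain ⟨j, hj, e, -⟩ := a2 a1.1
      rcases a1.2 j hj e with x | x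
      · exfalso
        have := gi n le_rfl 0 (by omega) (by rw [g0, ← e, x]); omega
      · rw [← e, x]
    · exfalso
      rw [mem_Ext] at a1 a2
      exact a2 ⟨a1.1, fun j hj e => (a1.2 j hj e).elim⟩
  have n3 : 3 ≤ n := by
    by_contra x
    have : n = 1 := by omega
    subst this
    exact hne (g1.symm.trans ge'.1)
  have gv : ∀ k, 0 < k → k < n → ∀ j ≤ l, v j ≠ g k := fun k k0 kn j hj e =>
    (mem_Ext.1 (gs k k0 kn)).2 j hj e
  let w : ℕ → V := fun j => if j ≤ i then v j else if j < i + n then g (j - i) else v (j + 1 - n)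
  have w1 : ∀ j, j ≤ i → w j = v j := fun j hj => by simp only [w, if_pos hj]
  have w2 : ∀ j, i ≤ j → j ≤ i + n → w j = g (j - i) := by
    intro j h1 h2
    by_cases e : j = i
    · rw [w1 j e.le, e, Nat.sub_self, g0]
    by_cases e' : j = i + n
    · have a : ¬ j ≤ i := by omega
      have b : ¬ j < i + n := by omega
      simp only [w, if_neg a, if_neg b]
      rw [show j - i = n by omega, ge'.1]; congr 1; omega
    · have a : ¬ j ≤ i := by omega
      have b : j < i + n := by omega
      simp only [w, if_neg a, if_pos b]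
  have w3 : ∀ j, i + n ≤ j → w j = v (j + 1 - n) := by
    intro j h1
    have a : ¬ j ≤ i := by omega
    have b : ¬ j < i + n := by omega
    simp only [w, if_neg a, if_neg b]
  have ev := h.ev
  have two := h.two
  refine ⟨l + n - 1, w, by omega, ⟨by omega, by omega, ?_, ?_, ?_, ?_, ?_⟩, w1 0 (by omega)⟩
  · intro a ha b hb e
    rcases le_or_gt a i with a1 | a1
    · rw [w1 a a1] at e
      rcases le_or_gt b i with b1 | b1
      · rw [w1 b b1] at e; exact h.inj a (by omega) b (by omega) e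
      rcases lt_or_ge b (i + n) with b2 | b2
      · rw [w2 b b1.le b2.le] at e; exact (gv _ (by omega) (by omega) a (by omega) e).elim
      · rw [w3 b b2] at e
        have := h.inj a (by omega) _ (by omega) e; omega
    rcases lt_or_ge a (i + n) with a2 | a2
    · rw [w2 a a1.le a2.le] at e
      rcases le_or_gt b i with b1 | b1
      · rw [w1 b b1] at e; exact (gv _ (by omega) (by omega) b (by omega) e.symm).elim
      rcases lt_or_ge b (i + n) with b2 | b2
      · rw [w2 b b1.le b2.le] at e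
        have := gi _ (by omega) _ (by omega) e; omega
      · rw [w3 b b2] at e
        exact (gv _ (by omega) (by omega) _ (by omega) e.symm).elim
    · rw [w3 a a2] at e
      rcases le_or_gt b i with b1 | b1
      · rw [w1 b b1] at e
        have := h.inj _ (by omega) _ (by omega) e; omega
      rcases lt_or_ge b (i + n) with b2 | b2
      · rw [w2 b b1.le b2.le] at e
        exact (gv _ (by omega) (by omega) _ (by omega) e).elim
      · rw [w3 b b2] at e
        have := h.inj _ (by omega) _ (by omega) e; omega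
  · intro a ha
    rcases le_or_gt a i with a1 | a1
    · rw [w1 a a1]; exact h.mem a (by omega)
    rcases lt_or_ge a (i + n) with a2 | a2
    · rw [w2 a a1.le a2.le]; exact (mem_Ext.1 (gs _ (by omega) (by omega))).1
    · rw [w3 a a2]; exact h.mem _ (by omega)
  · intro a ha
    rcases lt_or_ge a i with a1 | a1
    · rw [w1 a a1.le, w1 (a + 1) a1]; exact h.adj a (by omega)
    rcases lt_or_ge a (i + n) with a2 | a2
    · rw [w2 a a1 a2.le, w2 (a + 1) (by omega) a2, show a + 1 - i = a - i + 1 by omega]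
      exact ga _ (by omega)
    · rw [w3 a a2, w3 (a + 1) (by omega), show a + 1 + 1 - n = a + 1 - n + 1 by omega]
      exact h.adj _ (by omega)
  · rw [w3 _ (by omega), w1 0 (by omega), show l + n - 1 + 1 - n = l by omega]
    exact h.close
  · have sub : ∀ x ∈ Ext K (l + n - 1) w (fun _ => False), x ∈ Ext K l v (fun _ => False) := by
      intro x hx
      rw [mem_Ext] at hx ⊢
      refine ⟨hx.1, fun j hj e => ?_⟩
      rcases le_or_gt j i with b | b
      · exact hx.2 j (by omega) (by rw [w1 j b, e])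
      · exact hx.2 (j + n - 1) (by omega) (by rw [w3 _ (by omega), ← e]; congr 1; omega)
    refine ⟨N0, hN0.sub sub ?_⟩
    intro x hx
    have h1 := hN0 x (sub x hx)
    rw [mem_Ext] at hx ⊢
    refine ⟨(mem_Ext.1 h1.1).1, fun a ha e => ?_⟩
    rcases le_or_gt a i with a1 | a1
    · rw [w1 a a1] at e; exact (mem_Ext.1 h1.1).2 a (by omega) e
    rcases lt_or_ge a (i + n) with a2 | a2
    · rw [w2 a a1.le a2.le] at e
      obtain ⟨j, hj, e2⟩ := gc (a - i) (by omega) (e ▸ h1.1)
      rw [e, h1.2.1] at e2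
      exact hx.2 (i + j) (by omega) (by rw [w2 _ (by omega) (by omega), ← e2]; congr 1; omega)
    · rw [w3 a a2] at e; exact (mem_Ext.1 h1.1).2 _ (by omega) e

theorem NC.cross {K : Finset V} {l : ℕ} {v : ℕ → V} (h : NC G K l v) {c d c' d' : ℕ}
    {N N' : V → V} (hc : c ≤ l) (hd : d ≤ l) (cd : c ≠ d) (hc' : c' ≤ l) (e1 : c' ≠ c) (e2 : c' ≠ d)
    (hN : IsM G (Ext K l v (fun j => j = c ∨ j = d)) N) (hE : Ear G K l v c' d' N') :
    (∃ M, Ear G K l v c' c M) ∨ (∃ M, Ear G K l v c' d M) ∨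
      (d' ≠ c ∧ d' ≠ d ∧ ∃ M, IsM G (Ext K l v (fun j => j = c ∨ j = d ∨ j = c' ∨ j = d')) M ∧
        M (v c') = N' (v c') ∧ M (v d') = N' (v d')) := by
  by_cases x1 : d' = c
  · exact Or.inl ⟨N', x1 ▸ hE⟩
  by_cases x2 : d' = d
  · exact Or.inr (Or.inl ⟨N', x2 ▸ hE⟩)
  obtain ⟨f1, f2, f3, f4, f5⟩ := hE
  have nc : v c' ∉ Ext K l v (fun j => j = c ∨ j = d) := by rw [h.mem_Ext_v hc']; simp [e1, e2]
  obtain ⟨z, m1, m2, hz⟩ := altP f3 _ _ N (v c') hN ((h.mem_Ext_v hc').2 (Or.inl rfl)) nc le_rfl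
  rcases hz with ⟨z1, z2, z3, z4, z5, -, -⟩ | ⟨z1, z2, z4, z5, -, -⟩
  · have ez : z = v d' := by
      rw [mem_Ext] at z1 z2
      push Not at z2
      obtain ⟨j, hj, e, -⟩ := z2 z1.1
      rcases z1.2 j hj e with x | x
      · exact (z3 (by rw [← e, x])).elim
      · rw [← e, x]
    subst ez
    refine Or.inr (Or.inr ⟨x1, x2, m1, z4.congr ?_, ?_, ?_⟩)
    · intro w
      simp only [mem_insert, mem_Ext]
      constructor
      · rintro ⟨a1, a2⟩
        by_cases y1 : w = v c'
        · exact Or.inl y1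
        by_cases y2 : w = v d'
        · exact Or.inr (Or.inl y2)
        refine Or.inr (Or.inr ⟨a1, fun j hj e => ?_⟩)
        rcases a2 j hj e with y | y | y | y
        · exact Or.inl y
        · exact Or.inr y
        · exact (y1 (by rw [← e, y])).elim
        · exact (y2 (by rw [← e, y])).elim
      · rintro (rfl | rfl | ⟨a1, a2⟩)
        · exact ⟨h.mem _ hc', fun j hj e => by simp [h.inj j hj _ hc' e]⟩
        · exact ⟨h.mem _ f2, fun j hj e => by simp [h.inj j hj _ f2 e]⟩
        · exact ⟨a1, fun j hj e => by rcases a2 j hj e with y | y <;> simp [y]⟩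
    · rcases z5 (v c') (by simp) with ⟨a, _⟩ | ⟨_, a⟩
      · exact (nc a).elim
      · exact a
    · rcases z5 (v d') (by simp) with ⟨a, _⟩ | ⟨_, a⟩
      · exact (z2 a).elim
      · exact a
  · have m1c : m1 (v c') = N' (v c') := by
      rcases z5 (v c') (by simp) with ⟨a, _⟩ | ⟨_, a⟩
      · exact (nc a).elim
      · exact a
    have gen : ∀ p q : ℕ, p ≤ l → q ≤ l → p ≠ q → c' ≠ q → (∀ j, (j = c ∨ j = d) ↔ (j = p ∨ j = q)) →
        z = v p → Ear G K l v c' q m1 := by
      intro p q hp hq pq cq eq ez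
      refine ⟨cq, hq, z4.congr ?_, m1c ▸ f4, m1c ▸ f5⟩
      intro w
      simp only [mem_insert, mem_erase, mem_Ext, eq, ez]
      constructor
      · rintro ⟨a1, a2⟩
        by_cases y1 : w = v c'
        · exact Or.inl y1
        refine Or.inr ⟨fun y => ?_, a1, fun j hj e => ?_⟩
        · rcases a2 p hp y.symm with u | u
          · exact y1 (by rw [y, u])
          · exact pq u
        · rcases a2 j hj e with y | y
          · exact (y1 (by rw [← e, y])).elim
          · exact Or.inr y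
      · rintro (rfl | ⟨a0, a1, a2⟩)
        · exact ⟨h.mem _ hc', fun j hj e => by simp [h.inj j hj _ hc' e]⟩
        · refine ⟨a1, fun j hj e => ?_⟩
          rcases a2 j hj e with y | y
          · exact (a0 (by rw [← e, y])).elim
          · exact Or.inr y
    rw [mem_Ext] at z1 z2
    push Not at z2
    obtain ⟨j, hj, e, -⟩ := z2 z1.1
    rcases z1.2 j hj e with x | x
    · exact Or.inr (Or.inl ⟨m1, gen c d hc hd cd e2 (fun _ => Iff.rfl) (by rw [← e, x])⟩)
    · exact Or.inl ⟨m1, gen d c hd hc cd.symm e1 (fun _ => or_comm) (by rw [← e, x])⟩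

theorem NC.ear_or [DecidableRel G.Adj] {K : Finset V} {l : ℕ} {v : ℕ → V} (h : NC G K l v)
    (hK : FC G K) (hT : NoTriple G K)
    (IH : ∀ R : Finset V, R.card < K.card → FC G R → NoTriple G R → ∀ b ∈ R, 2 ≤ R.card →
      ∃ w ∈ R, w ≠ b ∧ (R.filter (G.Adj w)).card ≤ 2)
    {c : ℕ} (c0 : 0 < c) (cl : c < l) (hno : ∀ w ∈ K, w ≠ v 0 → 2 < (K.filter (G.Adj w)).card) :
    ∃ d N, Ear G K l v c d N := by
  classical
  by_contra hne
  push Not at hne
  obtain ⟨N0, hN0⟩ := h.rest
  have hc : c ≤ l := cl.le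
  have vc0 : v c ≠ v 0 := fun e => by have := h.inj _ hc _ (by omega) e; omega
  obtain ⟨x, hx, x1, x2⟩ : ∃ x ∈ K.filter (G.Adj (v c)), x ≠ v (c - 1) ∧ x ≠ v (c + 1) := by
    by_contra y
    push Not at y
    have : K.filter (G.Adj (v c)) ⊆ {v (c - 1), v (c + 1)} := by
      intro x hx
      by_cases e : x = v (c - 1)
      · simp [e]
      · simp [y x hx e]
    have h1 := card_le_card this
    have h2 := hno _ (h.mem c hc) vc0
    have h3 := card_le_two (a := v (c - 1)) (b := v (c + 1))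
    omega
  rw [mem_filter] at hx
  set S0 := Ext K l v (fun _ => False) with hS0
  set W := insert (v c) S0 with hW
  have nS0 : ∀ j ≤ l, v j ∉ S0 := fun j hj => by rw [hS0, h.mem_Ext_v hj]; simp
  have nW : ∀ j ≤ l, j ≠ c → v j ∉ W := by
    intro j hj jc y
    rcases mem_insert.1 y with y | y
    · exact jc (h.inj _ hj _ hc y)
    · exact nS0 j hj y
  have S0K : ∀ w ∈ S0, w ∈ K := fun w hw => (mem_Ext.1 hw).1
  have WK : ∀ w ∈ W, w ∈ K := by
    intro w hw
    rcases mem_insert.1 hw with y | y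
    · exact y ▸ h.mem c hc
    · exact S0K w y
  have cyc : ∀ w ∈ K, w ∉ S0 → ∃ j ≤ l, v j = w := by
    intro w hw y
    rw [hS0, mem_Ext] at y
    push Not at y
    obtain ⟨j, hj, e, -⟩ := y hw
    exact ⟨j, hj, e⟩
  have extW : ∀ d ≤ l, ∀ w, w ∈ Ext K l v (fun j => j = c ∨ j = d) ↔ w = v d ∨ w ∈ W := by
    intro d hd w
    constructor
    · intro y
      by_cases z : w ∈ S0
      · exact Or.inr (mem_insert_of_mem z)
      · obtain ⟨j, hj, e⟩ := cyc w (mem_Ext.1 y).1 z
        rcases (mem_Ext.1 y).2 j hj e with u | u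
        · right; rw [← e, u]; exact mem_insert_self _ _
        · left; rw [← e, u]
    · rintro (rfl | y)
      · exact (h.mem_Ext_v hd).2 (Or.inr rfl)
      · rcases mem_insert.1 y with y | y
        · rw [y]; exact (h.mem_Ext_v hc).2 (Or.inl rfl)
        · exact mem_Ext.2 ⟨S0K w y, fun j hj e => ((mem_Ext.1 y).2 j hj e).elim⟩
  have noear : ∀ d ≤ l, d ≠ c → ∀ (T : Finset V) (N : V → V), IsM G T N →
      (∀ w, w ∈ T ↔ w = v d ∨ w ∈ W) → N (v c) ∈ W → False := by
    intro d hd dc T N hN hT hW'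
    refine hne d N ⟨dc.symm, hd, hN.congr (fun w => by rw [extW d hd, hT]), ?_, ?_⟩
    · intro e; exact nW _ (by omega) (by omega) (e ▸ hW')
    · intro e; exact nW _ (by omega) (by omega) (e ▸ hW')
  have xS : x ∈ S0 := by
    by_contra y
    obtain ⟨d, hd, e⟩ := cyc x hx.1 y
    subst e
    have dc : c ≠ d := fun e => hx.2.ne (by rw [e])
    refine hne d (addP N0 (v c) (v d)) ⟨dc, hd, (hN0.add (nS0 c hc) (nS0 d hd) hx.2).congr ?_, ?_, ?_⟩
    · intro w; rw [extW d hd]; simp only [hW, mem_insert]; tauto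
    · simpa [addP] using x1
    · simpa [addP] using x2
  let R := W.filter (fun w => PM G (W.erase w))
  have hR : ∀ w, w ∈ R ↔ w ∈ W ∧ PM G (W.erase w) := fun w => mem_filter
  have cR : v c ∈ R := by
    rw [hR]
    refine ⟨mem_insert_self _ _, N0, ?_⟩
    rw [hW, erase_insert (nS0 c hc)]; exact hN0
  have A1 : ∀ w ∈ R, w ≠ v c → ∀ z ∈ K, G.Adj w z → z ∈ W := by
    intro w hw wc z hz wz
    by_contra y
    obtain ⟨d, hd, e⟩ := cyc z hz (fun u => y (mem_insert_of_mem u))
    subst e
    have dc : d ≠ c := fun e => y (by rw [e]; exact mem_insert_self _ _)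
    obtain ⟨w1, m, hm⟩ := (hR w).1 hw
    have vcd : v c ≠ v d := fun e => dc (h.inj _ hd _ hc e.symm)
    refine noear d hd dc _ _ (hm.add (a := w) (b := v d) (by simp) (by simp [y]) wz) ?_ ?_
    · intro u
      simp only [mem_insert, mem_erase]
      by_cases e : u = w
      · simp [e, w1]
      · tauto
    · have := (hm (v c) (by simp [wc.symm, hW])).1
      simp only [addP, if_neg wc.symm, if_neg vcd]
      exact (mem_erase.1 this).2
  have A2 : ∀ w ∈ R, ∀ x ∈ W, G.Adj w x → x ∈ R := by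
    intro w hw x xW wx
    by_cases xc : x = v c
    · exact xc ▸ cR
    have xS : x ∈ S0 := by simpa [hW, xc] using xW
    obtain ⟨Mx, hMx⟩ := hK x (S0K x xS)
    obtain ⟨z, m0, m2, hz⟩ := altP hN0 _ _ Mx x hMx xS (by simp) le_rfl
    rcases hz with ⟨z1, z2, z3, -⟩ | ⟨z1, z2, -, -, z6, -⟩
    · exact (z2 (mem_erase.2 ⟨z3, S0K z z1⟩)).elim
    obtain ⟨e, he, ez⟩ := cyc z (mem_erase.1 z1).2 z2
    subst ez
    by_cases ec : e = c
    · subst ec
      rw [hR]
      refine ⟨xW, m2, z6.congr ?_⟩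
      intro u
      simp only [hW, mem_insert, mem_erase]
      by_cases y : u = v e
      · simp [y, Ne.symm xc]
      · tauto
    obtain ⟨w1, N, hN⟩ := (hR w).1 hw
    have veW := nW e he ec
    have xe : x ≠ v e := fun y => veW (y ▸ xW)
    have vce : v c ≠ v e := fun y => ec (h.inj _ he _ hc y.symm)
    have cS : v c ∉ insert (v e) (S0.erase x) := by simp [vce, nS0 c hc]
    obtain ⟨d, m1, m3, hd⟩ := altP hN _ _ m2 x z6 (mem_erase.2 ⟨wx.ne.symm, xW⟩) (by simp [xe]) le_rfl
    rcases hd with ⟨d1, d2, d3, d4, d5, -⟩ | ⟨d1, d2, -, -, d6, d7⟩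
    · exfalso
      have dc : d = v c := by
        rcases mem_insert.1 (mem_erase.1 d1).2 with y | y
        · exact y
        · exact (d2 (by simp [d3, y])).elim
      subst dc
      refine noear e he ec _ _ d4 ?_ ?_
      · intro u
        simp only [hW, mem_insert, mem_erase]
        by_cases y : u = x
        · simp [y, xS]
        · tauto
      · rcases d5 (v c) (by simp) with ⟨a, _⟩ | ⟨a, b⟩
        · exact (cS a).elim
        · rw [b]; exact (mem_erase.1 (hN _ a).1).2
    · rcases mem_insert.1 d1 with y | y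
      · exfalso
        subst y
        have we : w ≠ v e := fun y => veW (y ▸ w1)
        refine noear e he ec _ _ (d6.add (a := w) (b := x) (by simp [we]) (by simp [xe]) wx) ?_ ?_
        · intro u
          simp only [mem_insert, mem_erase]
          by_cases y : u = x
          · simp [y, xW]
          by_cases y' : u = w
          · simp [y', w1]
          tauto
        · by_cases y : v c = w
          · simp [addP, y, xW]
          · simp only [addP, if_neg y, if_neg (Ne.symm xc)]
            rcases d7 (v c) (by simp [y, Ne.symm xc, hW]) with ⟨a, _⟩ | ⟨a, b⟩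
            · exact (cS a).elim
            · rw [b]; exact (mem_erase.1 (hN _ a).1).2
      · have dw : d = w := by
          by_contra u
          exact d2 (mem_erase.2 ⟨u, mem_insert_of_mem (mem_erase.1 y).2⟩)
        subst dw
        rw [hR]
        refine ⟨xW, m3, d6.congr ?_⟩
        intro u
        simp only [mem_insert, mem_erase]
        by_cases y : u = d
        · simp [y, w1, wx.ne]
        · tauto
  have RW : ∀ w ∈ R, w ∈ W := fun w hw => ((hR w).1 hw).1
  have fcR : FC G R := by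
    intro w hw
    obtain ⟨w1, N, hN⟩ := (hR w).1 hw
    have sub : ∀ u ∈ R.erase w, u ∈ W.erase w := fun u hu =>
      mem_erase.2 ⟨(mem_erase.1 hu).1, RW u (mem_erase.1 hu).2⟩
    refine ⟨N, hN.sub sub ?_⟩
    intro u hu
    have := hN u (sub u hu)
    exact mem_erase.2 ⟨(mem_erase.1 this.1).1, A2 u (mem_erase.1 hu).2 _ (mem_erase.1 this.1).2 this.2.2⟩
  have pmC : PM G (K \ R) := by
    have p1 : PM G (S0 \ R) := by
      refine ⟨N0, hN0.sub (fun u hu => (mem_sdiff.1 hu).1) ?_⟩
      intro u hu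
      rw [mem_sdiff] at hu ⊢
      have := hN0 u hu.1
      exact ⟨this.1, fun y => hu.2 (A2 _ y u (mem_insert_of_mem hu.1) this.2.2.symm)⟩
    refine (p1.union (h.minus_one hc) ?_).congr ?_
    · intro u hu y
      simp only [mem_erase, mem_image, mem_range] at y
      obtain ⟨_, j, hj, rfl⟩ := y
      exact nS0 j (by omega) (mem_sdiff.1 hu).1
    · intro u
      simp only [mem_union, mem_sdiff, mem_erase, mem_image, mem_range]
      constructor
      · rintro ⟨a1, a2⟩
        by_cases y : u ∈ S0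
        · exact Or.inl ⟨y, a2⟩
        · obtain ⟨j, hj, e⟩ := cyc u a1 y
          exact Or.inr ⟨fun z => a2 (z ▸ cR), j, by omega, e⟩
      · rintro (⟨a1, a2⟩ | ⟨a1, j, hj, rfl⟩)
        · exact ⟨S0K u a1, a2⟩
        · exact ⟨h.mem j (by omega), fun y => nW j (by omega) (fun e => a1 (by rw [e])) (RW _ y)⟩
  have niceK : ∀ u ∈ R, ∀ p ∈ R, ∀ q ∈ R, Nice G R u p q → Nice G K u p q := by
    intro u hu p hp q hq hn
    refine (PM.union hn pmC ?_).congr ?_
    · intro y hy z
      simp only [mem_erase] at hy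
      exact (mem_sdiff.1 z).2 hy.2.2.2
    · intro y
      simp only [mem_union, mem_erase, mem_sdiff]
      constructor
      · rintro ⟨a1, a2, a3, a4⟩
        by_cases z : y ∈ R
        · exact Or.inl ⟨a1, a2, a3, z⟩
        · exact Or.inr ⟨a4, z⟩
      · rintro (⟨a1, a2, a3, a4⟩ | ⟨a1, a2⟩)
        · exact ⟨a1, a2, a3, WK _ (RW _ a4)⟩
        · exact ⟨fun e => a2 (e ▸ hq), fun e => a2 (e ▸ hp), fun e => a2 (e ▸ hu), a1⟩
  have RK : ∀ w ∈ R, w ∈ K := fun w hw => WK w (RW w hw)
  have tR : NoTriple G R := fun u hu x hx y hy z hz a1 a2 a3 b1 b2 b3 n1 n2 n3 =>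
    hT u (RK u hu) x (RK x hx) y (RK y hy) z (RK z hz) a1 a2 a3 b1 b2 b3
      (niceK u hu x hx y hy n1) (niceK u hu x hx z hz n2) (niceK u hu y hy z hz n3)
  have v0W : v 0 ∉ W := nW 0 (by omega) (by omega)
  have lt : R.card < K.card := by
    apply card_lt_card
    rw [Finset.ssubset_iff_of_subset (fun w hw => RK w hw)]
    exact ⟨v 0, h.mem 0 (by omega), fun y => v0W (RW _ y)⟩
  have xR : x ∈ R := A2 _ cR x (mem_insert_of_mem xS) hx.2
  have two : 2 ≤ R.card := by
    have : ({v c, x} : Finset V) ⊆ R := by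
      intro y hy; simp at hy; rcases hy with rfl | rfl
      · exact cR
      · exact xR
    have h2 := card_le_card this
    rwa [card_pair hx.2.ne] at h2
  obtain ⟨w, hw, wc, hd⟩ := IH R lt fcR tR (v c) cR two
  have h1 := hno w (RK w hw) (fun e => v0W (e ▸ RW w hw))
  have : K.filter (G.Adj w) ⊆ R.filter (G.Adj w) := by
    intro y hy
    rw [mem_filter] at hy ⊢
    exact ⟨A2 w hw y (A1 w hw wc y hy.1 hy.2) hy.2, hy.2⟩
  have := card_le_card this
  omega

end Pool.Agent.H35.DD
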