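import Pool.Agent.H35.DD3

namespace Pool.Agent.H35.DD
open Finset

variable {V : Type} [DecidableEq V] {G : SimpleGraph V}

theorem NC.nice3 {K : Finset V} {l : ℕ} {v : ℕ → V} (h : NC G K l v) {T : ℕ → Prop}
    {N : V → V} (hN : IsM G (Ext K l v T) N) {c : ℕ} (s z1 z2 z3 : ℕ) (hc : c ≤ l) (Tc : T c)
    (hJ : ∀ j, (¬ T j ∧ ¬ j = s) ↔ (j ≠ z1 ∧ j ≠ z2 ∧ j ≠ z3)) (Ts : ¬ T s)
    (o : s ≤ l ∧ z1 < z2 ∧ z2 < z3 ∧ z3 ≤ l ∧ z1 % 2 ≠ z2 % 2 ∧ z2 % 2 ≠ z3 % 2) :
    Nice G K (v c) (N (v c)) (v s) := by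
  have ev := h.ev
  refine h.nice_ear (up := fun j => (j < z1 ∧ j % 2 = z1 % 2) ∨ (z1 < j ∧ j < z2 ∧ j % 2 ≠ z1 % 2) ∨
    (z2 < j ∧ j < z3 ∧ j % 2 = z1 % 2) ∨ (z3 < j ∧ j % 2 ≠ z1 % 2)) hN hc o.1 Tc Ts ?_
  intro j hj
  simp only [hJ]
  omega

theorem NC.nice5 {K : Finset V} {l : ℕ} {v : ℕ → V} (h : NC G K l v) {T : ℕ → Prop}
    {N : V → V} (hN : IsM G (Ext K l v T) N) {c : ℕ} (s z1 z2 z3 z4 z5 : ℕ) (hc : c ≤ l) (Tc : T c)
    (hJ : ∀ j, (¬ T j ∧ ¬ j = s) ↔ (j ≠ z1 ∧ j ≠ z2 ∧ j ≠ z3 ∧ j ≠ z4 ∧ j ≠ z5)) (Ts : ¬ T s)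
    (o : s ≤ l ∧ z1 < z2 ∧ z2 < z3 ∧ z3 < z4 ∧ z4 < z5 ∧ z5 ≤ l ∧ z1 % 2 ≠ z2 % 2 ∧
      z2 % 2 ≠ z3 % 2 ∧ z3 % 2 ≠ z4 % 2 ∧ z4 % 2 ≠ z5 % 2) :
    Nice G K (v c) (N (v c)) (v s) := by
  have ev := h.ev
  refine h.nice_ear (up := fun j => (j < z1 ∧ j % 2 = z1 % 2) ∨ (z1 < j ∧ j < z2 ∧ j % 2 ≠ z1 % 2) ∨
    (z2 < j ∧ j < z3 ∧ j % 2 = z1 % 2) ∨ (z3 < j ∧ j < z4 ∧ j % 2 ≠ z1 % 2) ∨
    (z4 < j ∧ j < z5 ∧ j % 2 = z1 % 2) ∨ (z5 < j ∧ j % 2 ≠ z1 % 2)) hN hc o.1 Tc Ts ?_
  intro j hj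
  simp only [hJ]
  intro hh
  refine ⟨fun u => ⟨fun a => ?_, fun a => ?_⟩, fun u => ⟨fun a => ?_, fun a => ?_⟩⟩ <;> omega

theorem NC.tri {K : Finset V} {l : ℕ} {v : ℕ → V} (h : NC G K l v) (hT : NoTriple G K)
    {T : ℕ → Prop} {N : V → V} (hN : IsM G (Ext K l v T) N) {c : ℕ} (p s : ℕ) (hc : c ≤ l) (Tc : T c)
    (hp : (0 < c ∧ p + 1 = c) ∨ (c = 0 ∧ p = l)) (hs : (c < l ∧ s = c + 1) ∨ (c = l ∧ s = 0))
    (np : N (v c) ≠ v p) (ns : N (v c) ≠ v s)
    (n1 : Nice G K (v c) (N (v c)) (v p)) (n2 : Nice G K (v c) (N (v c)) (v s)) : False := by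
  have two := h.two
  have a := hN _ ((h.mem_Ext_v hc).2 Tc)
  refine hT _ (h.mem c hc) _ (mem_Ext.1 a.1).1 _ (h.mem p (by omega)) _ (h.mem s (by omega))
    a.2.2 ?_ ?_ np ns ?_ n1 n2 (h.nice_cyc hc hp hs)
  · rcases hp with ⟨_, e⟩ | ⟨e1, e2⟩
    · rw [← e]; exact (h.adj p (by omega)).symm
    · rw [e1, e2]; exact h.close.symm
  · rcases hs with ⟨e0, e⟩ | ⟨e1, e2⟩
    · rw [e]; exact h.adj c e0
    · rw [e1, e2]; exact h.close
  · intro e
    have := h.inj _ (by omega) _ (by omega) e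
    omega

theorem NC.notT {K : Finset V} {l : ℕ} {v : ℕ → V} (h : NC G K l v)
    {T : ℕ → Prop} {N : V → V} (hN : IsM G (Ext K l v T) N) {c p : ℕ} (hc : c ≤ l) (Tc : T c)
    (hp : p ≤ l) (Tp : ¬ T p) : N (v c) ≠ v p := by
  intro e
  have a := (hN _ ((h.mem_Ext_v hc).2 Tc)).1
  rw [e, h.mem_Ext_v hp] at a
  exact Tp a

theorem NC.outside {K : Finset V} {l : ℕ} {v : ℕ → V} (h : NC G K l v) (hT : NoTriple G K)
    {a e c d : ℕ} {N M : V → V} (el : e ≤ l) (ac : a < c) (ce : c < e) (p1 : a % 2 = e % 2)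
    (p2 : a % 2 ≠ c % 2) (dl : d ≤ l) (out : d < a ∨ e < d)
    (hN : IsM G (Ext K l v (fun j => j = c ∨ j = d)) N)
    (hM : IsM G (Ext K l v (fun j => j = a ∨ j = e ∨ j = c ∨ j = d)) M)
    (eq : M (v d) = N (v d)) : False := by
  have ev := h.ev
  have two := h.two
  have fin : ∀ p s : ℕ, ((0 < d ∧ p + 1 = d) ∨ (d = 0 ∧ p = l)) →
      ((d < l ∧ s = d + 1) ∨ (d = l ∧ s = 0)) → Nice G K (v d) (N (v d)) (v p) →
      Nice G K (v d) (N (v d)) (v s) → False := by
    intro p s hp hs n1 n2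
    exact h.tri hT hN p s dl (Or.inr rfl) hp hs
      (h.notT hN dl (Or.inr rfl) (by omega) (by omega))
      (h.notT hN dl (Or.inr rfl) (by omega) (by omega)) n1 n2
  have tM : d = a ∨ d = e ∨ d = c ∨ d = d := by simp
  have tN : d = c ∨ d = d := by simp
  rcases out with o | o
  · by_cases q : d % 2 = a % 2
    · by_cases z : d = 0
      · refine fin l (d + 1) (by omega) (by omega) ?_ ?_
        · exact h.nice3 hN l d c l dl tN (by intro j; omega) (by omega) (by omega)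
        · rw [← eq]
          exact h.nice5 hM (d + 1) d (d + 1) a c e dl tM (by intro j; omega) (by omega) (by omega)
      · refine fin (d - 1) (d + 1) (by omega) (by omega) ?_ ?_
        · exact h.nice3 hN (d - 1) (d - 1) d c dl tN (by intro j; omega) (by omega) (by omega)
        · rw [← eq]
          exact h.nice5 hM (d + 1) d (d + 1) a c e dl tM (by intro j; omega) (by omega) (by omega)
    · by_cases z : d = 0
      · refine fin l (d + 1) (by omega) (by omega) ?_ ?_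
        · rw [← eq]
          exact h.nice5 hM l d a c e l dl tM (by intro j; omega) (by omega) (by omega)
        · exact h.nice3 hN (d + 1) d (d + 1) c dl tN (by intro j; omega) (by omega) (by omega)
      · refine fin (d - 1) (d + 1) (by omega) (by omega) ?_ ?_
        · rw [← eq]
          exact h.nice5 hM (d - 1) (d - 1) d a c e dl tM (by intro j; omega) (by omega) (by omega)
        · exact h.nice3 hN (d + 1) d (d + 1) c dl tN (by intro j; omega) (by omega) (by omega)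
  · by_cases q : d % 2 = a % 2
    · by_cases z : d = l
      · refine fin (d - 1) 0 (by omega) (by omega) ?_ ?_
        · rw [← eq]
          exact h.nice5 hM (d - 1) a c e (d - 1) d dl tM (by intro j; omega) (by omega) (by omega)
        · exact h.nice3 hN 0 0 c d dl tN (by intro j; omega) (by omega) (by omega)
      · refine fin (d - 1) (d + 1) (by omega) (by omega) ?_ ?_
        · rw [← eq]
          exact h.nice5 hM (d - 1) a c e (d - 1) d dl tM (by intro j; omega) (by omega) (by omega)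
        · exact h.nice3 hN (d + 1) c d (d + 1) dl tN (by intro j; omega) (by omega) (by omega)
    · by_cases z : d = l
      · refine fin (d - 1) 0 (by omega) (by omega) ?_ ?_
        · exact h.nice3 hN (d - 1) c (d - 1) d dl tN (by intro j; omega) (by omega) (by omega)
        · rw [← eq]
          exact h.nice5 hM 0 0 a c e d dl tM (by intro j; omega) (by omega) (by omega)
      · refine fin (d - 1) (d + 1) (by omega) (by omega) ?_ ?_
        · exact h.nice3 hN (d - 1) c (d - 1) d dl tN (by intro j; omega) (by omega) (by omega)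
        · rw [← eq]
          exact h.nice5 hM (d + 1) a c e d (d + 1) dl tM (by intro j; omega) (by omega) (by omega)

theorem two_low [DecidableRel G.Adj] : ∀ (n : ℕ) (K : Finset V), K.card = n → FC G K →
    NoTriple G K → ∀ b ∈ K, 2 ≤ K.card → ∃ w ∈ K, w ≠ b ∧ (K.filter (G.Adj w)).card ≤ 2 := by
  classical
  intro n
  induction n using Nat.strong_induction_on with
  | _ n ih =>
  intro K hn hK hT b hb h2
  by_contra hno'
  push Not at hno'
  obtain ⟨t, ht, tb⟩ : ∃ t ∈ K, t ≠ b := exists_mem_ne h2 b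
  obtain ⟨m, hm⟩ := hK t ht
  have hb' := hm b (mem_erase.2 ⟨tb.symm, hb⟩)
  obtain ⟨m', hm'⟩ := hK (m b) (mem_erase.1 hb'.1).2
  obtain ⟨l0, v0, h0, e0, -, -⟩ := exists_NC hK hb (mem_erase.1 hb'.1).2 hb'.2.2 hm'
  have bd : ∀ l v, NC G K l v → l ≤ K.card := by
    intro l v h
    have := card_le_card_of_injOn (s := range (l + 1)) (t := K) v
      (fun i hi => h.mem i (by simpa [Nat.lt_succ_iff] using hi))
      (fun i hi j hj e => h.inj i (by simpa [Nat.lt_succ_iff] using hi) j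
        (by simpa [Nat.lt_succ_iff] using hj) e)
    simp at this; omega
  let P : ℕ → Prop := fun l => ∃ v, NC G K l v ∧ v 0 = b
  have hP : P (Nat.findGreatest P K.card) := Nat.findGreatest_spec (bd l0 v0 h0) ⟨v0, h0, e0⟩
  have hmax : ∀ l, P l → l ≤ Nat.findGreatest P K.card := fun l x =>
    Nat.le_findGreatest (by obtain ⟨v, h, _⟩ := x; exact bd l v h) x
  generalize Nat.findGreatest P K.card = l at hP hmax
  obtain ⟨v, h, vb⟩ := hP
  have ev := h.ev
  have two := h.two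
  have L : ∀ c d N, 0 < c → c < l → Ear G K l v c d N → d ≠ c + 1 ∧ d + 1 ≠ c := by
    intro c d N c0 cl hE
    obtain ⟨f1, f2, f3, f4, f5⟩ := hE
    constructor
    · intro e
      subst e
      obtain ⟨l', w, a1, a2, a3⟩ := h.longer cl f3 f5
      have := hmax l' ⟨w, a2, a3.trans vb⟩
      omega
    · intro e
      subst e
      have f3' : IsM G (Ext K l v (fun j => j = d ∨ j = d + 1)) N :=
        f3.congr (fun w => by simp only [mem_Ext, or_comm])
      obtain ⟨l', w, a1, a2, a3⟩ := h.longer (i := d) (by omega) f3' (by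
        intro x
        apply f4
        rw [← x, (f3' _ ((h.mem_Ext_v f2).2 (Or.inl rfl))).2.1]
        simp)
      have := hmax l' ⟨w, a2, a3.trans vb⟩
      omega
  have E : ∀ c, 0 < c → c < l → ∃ d N, Ear G K l v c d N := fun c c0 cl =>
    h.ear_or hK hT (fun R hR => ih R.card (by omega) R rfl) c0 cl (by rw [vb]; exact hno')
  let Q : ℕ → Prop := fun t => ∃ a, a + t ≤ l ∧ 2 ≤ t ∧ t % 2 = 0 ∧
    PM G (Ext K l v (fun j => j = a ∨ j = a + t))
  have hQ : ∃ t, Q t := by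
    obtain ⟨N0, hN0⟩ := h.rest
    refine ⟨l, 0, by omega, two, ev, _, (hN0.add (a := v l) (b := v 0)
      (by rw [h.mem_Ext_v le_rfl]; simp) (by rw [h.mem_Ext_v (by omega)]; simp) h.close).congr ?_⟩
    intro w
    simp only [mem_insert, mem_Ext, zero_add]
    constructor
    · rintro ⟨a1, a2⟩
      by_cases y1 : w = v l
      · exact Or.inl y1
      by_cases y2 : w = v 0
      · exact Or.inr (Or.inl y2)
      refine Or.inr (Or.inr ⟨a1, fun j hj e => ?_⟩)
      rcases a2 j hj e with y | y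
      · exact y2 (by rw [← e, y])
      · exact y1 (by rw [← e, y])
    · rintro (rfl | rfl | ⟨a1, a2⟩)
      · exact ⟨h.mem _ le_rfl, fun j hj e => Or.inr (h.inj j hj _ le_rfl e)⟩
      · exact ⟨h.mem _ (by omega), fun j hj e => Or.inl (h.inj j hj _ (by omega) e)⟩
      · exact ⟨a1, fun j hj e => (a2 j hj e).elim⟩
  have hq := Nat.find_spec hQ
  have hmin : ∀ t, t < Nat.find hQ → ¬ Q t := fun t x => Nat.find_min hQ x
  generalize Nat.find hQ = t at hq hmin
  obtain ⟨a, al, t2, te, N, hN⟩ := hq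
  have same : ∀ c d M, a < c → c < a + t → a ≤ d → d ≤ a + t → Ear G K l v c d M →
      c % 2 ≠ d % 2 := by
    intro c d M x1 x2 x3 x4 hE x5
    obtain ⟨f1, f2, f3, -, -⟩ := hE
    rcases lt_or_gt_of_ne f1 with y | y
    · refine hmin (d - c) (by omega) ⟨c, by omega, by omega, by omega, M, ?_⟩
      rwa [show c + (d - c) = d by omega]
    · refine hmin (c - d) (by omega) ⟨d, by omega, by omega, by omega, M, ?_⟩
      rw [show d + (c - d) = c by omega]
      exact f3.congr (fun w => by simp only [mem_Ext, or_comm])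
  have inside : ∀ c, a < c → c < a + t → a % 2 ≠ c % 2 →
      ∃ d M, a ≤ d ∧ d ≤ a + t ∧ Ear G K l v c d M := by
    intro c x1 x2 x3
    obtain ⟨d, M, hE⟩ := E c (by omega) (by omega)
    by_cases y : a ≤ d ∧ d ≤ a + t
    · exact ⟨d, M, y.1, y.2, hE⟩
    rcases h.cross (by omega) al (by omega) (by omega) (by omega) (by omega) hN hE with
      ⟨M', z⟩ | ⟨M', z⟩ | ⟨_, _, M', z1, _, z3⟩
    · exact ⟨a, M', le_rfl, by omega, z⟩
    · exact ⟨a + t, M', by omega, le_rfl, z⟩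
    · exact (h.outside hT al x1 x2 (by omega) x3 hE.2.1 (by omega) hE.2.2.1 z1 z3).elim
  let P2 : ℕ → Prop := fun c => a < c ∧ a % 2 ≠ c % 2 ∧ ∃ d M, c < d ∧ d ≤ a + t ∧ Ear G K l v c d M
  have p0 : P2 (a + 1) := by
    obtain ⟨d, M, x1, x2, hE⟩ := inside (a + 1) (by omega) (by omega) (by omega)
    have := L _ _ _ (by omega) (by omega) hE
    have := hE.1
    exact ⟨by omega, by omega, d, M, by omega, x2, hE⟩
  have hP2 : P2 (Nat.findGreatest P2 l) := Nat.findGreatest_spec (m := a + 1) (by omega) p0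
  have hmax2 : ∀ c, c ≤ l → P2 c → c ≤ Nat.findGreatest P2 l := fun c y x =>
    Nat.le_findGreatest y x
  generalize Nat.findGreatest P2 l = c at hP2 hmax2
  obtain ⟨c1, c2, d, M, c3, c4, hE⟩ := hP2
  have l1 := L _ _ _ (by omega) (by omega) hE
  have s1 := same c d M c1 (by omega) (by omega) c4 hE
  obtain ⟨d', M', x1, x2, hE'⟩ := inside (c + 2) (by omega) (by omega) (by omega)
  have l2 := L _ _ _ (by omega) (by omega) hE'
  have s2 := same (c + 2) d' M' (by omega) (by omega) x1 x2 hE'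
  have right : ∀ z Z, c + 2 < z → z ≤ a + t → ¬ Ear G K l v (c + 2) z Z := by
    intro z Z y1 y2 y3
    have := hmax2 (c + 2) (by omega) ⟨by omega, by omega, z, Z, y1, y2, y3⟩
    omega
  have dlt : d' < c := by
    by_contra y
    exact right d' M' (by omega) x2 hE'
  rcases h.cross (by omega) hE.2.1 hE.1 (by omega) (by omega) (by omega) hE.2.2.1 hE' with
    ⟨Z, z⟩ | ⟨Z, z⟩ | ⟨_, _, Z, z1, z2, _⟩
  · exact same (c + 2) c Z (by omega) (by omega) (by omega) (by omega) z (by omega)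
  · exact right d Z (by omega) c4 z
  · have dl := hE.2.1
    refine h.tri hT hE'.2.2.1 (c := c + 2) (c + 1) (c + 3) (by omega) (Or.inl rfl) (by omega) (by omega)
      hE'.2.2.2.1 hE'.2.2.2.2 ?_ ?_
    · rw [← z2]
      exact h.nice5 z1 (c + 1) d' c (c + 1) (c + 2) d (by omega) (by simp) (by intro j; omega)
        (by omega) (by omega)
    · exact h.nice3 hE'.2.2.1 (c + 3) d' (c + 2) (c + 3) (by omega) (by simp) (by intro j; omega)
        (by omega) (by omega)

end Pool.Agent.H35.DD
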