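import Pool.Agent.H35.DD4

namespace Pool.Agent.H35.DD
open Finset

variable {V : Type} [DecidableEq V] {G : SimpleGraph V}

theorem gallai {S : Finset V} {μ : ℕ} (hmax : ∀ U ⊆ S, PM G U → U.card ≤ μ)
    (hall : ∀ v ∈ S, ∃ U ⊆ S, PM G U ∧ U.card = μ ∧ v ∉ U) {u v : V}
    (h : Relation.ReflTransGen (fun a b => G.Adj a b ∧ a ∈ S ∧ b ∈ S) u v) :
    u ≠ v → ∀ U ⊆ S, PM G U → U.card = μ → u ∉ U → v ∉ U → False := by
  have aug : ∀ U ⊆ S, PM G U → U.card = μ → ∀ a ∈ S, ∀ b ∈ S, G.Adj a b → a ∉ U → b ∉ U → False := by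
    intro U hU ⟨m, hm⟩ hc a ha b hb ab aU bU
    have := hmax _ (insert_subset ha (insert_subset hb hU)) ⟨_, hm.add aU bU ab⟩
    rw [card_insert_of_notMem (by simp [aU, ab.ne]), card_insert_of_notMem bU] at this
    omega
  induction h using Relation.ReflTransGen.head_induction_on with
  | refl => intro x; exact (x rfl).elim
  | @head a t h1 h2 ih =>
    intro av U hU hp hc aU vU
    by_cases tU : t ∈ U
    swap
    · exact aug U hU hp hc a h1.2.1 t h1.2.2 h1.1 aU tU
    obtain ⟨U', hU', ⟨N', hN'⟩, hc', tU'⟩ := hall t h1.2.2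
    obtain ⟨N, hN⟩ := hp
    obtain ⟨d, m1, m2, hd⟩ := altP hN _ _ N' t hN' tU tU' le_rfl
    rcases hd with ⟨d1, d2, d3, d4, -⟩ | ⟨d1, d2, -, -, d6, -⟩
    · have := hmax _ (insert_subset h1.2.2 (insert_subset (hU d1) hU')) ⟨_, d4⟩
      rw [card_insert_of_notMem (by simp [tU', d3.symm]), card_insert_of_notMem d2] at this
      omega
    · have sub : insert d (U.erase t) ⊆ S :=
        insert_subset (hU' d1) ((erase_subset _ _).trans hU)
      have cc : (insert d (U.erase t)).card = μ := by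
        rw [card_insert_of_notMem (by simp [d2]), card_erase_of_mem tU]
        have := card_pos.2 ⟨t, tU⟩
        omega
      have td : t ≠ d := fun e => d2 (e ▸ tU)
      by_cases e : d = a
      · subst e
        exact ih (fun e => vU (e ▸ tU)) _ sub ⟨_, d6⟩ cc (by simp [td]) (by simp [vU, av.symm])
      · exact aug _ sub ⟨_, d6⟩ cc a h1.2.1 t h1.2.2 h1.1 (by simp [aU, Ne.symm e]) (by simp [td])

structure Dec (G : SimpleGraph V) (S A : Finset V) (F : Finset (Finset V)) : Prop where
  subA : A ⊆ S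
  part : ∀ K ∈ F, K ⊆ S ∧ K.Nonempty ∧ (∀ v ∈ K, v ∉ A) ∧ FC G K
  disj : ∀ K ∈ F, ∀ K' ∈ F, ∀ v ∈ K, v ∈ K' → K = K'
  cover : ∀ v ∈ S, v ∈ A ∨ ∃ K ∈ F, v ∈ K
  closed : ∀ K ∈ F, ∀ v ∈ K, ∀ w ∈ S, G.Adj v w → w ∈ K ∨ w ∈ A

theorem exists_dec : ∀ (n : ℕ) (S : Finset V), S.card = n → ∃ A F U, Dec G S A F ∧ U ⊆ S ∧
    PM G U ∧ S.card + A.card ≤ U.card + F.card := by
  classical
  intro n
  induction n using Nat.strong_induction_on with
  | _ n ih =>
  intro S hn
  have pm0 : PM G (∅ : Finset V) := ⟨id, fun v hv => by simp at hv⟩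
  rcases S.eq_empty_or_nonempty with rfl | ⟨w, hw⟩
  · exact ⟨∅, ∅, ∅, ⟨by simp, by simp, by simp, by simp, by simp⟩, by simp, pm0, by simp⟩
  obtain ⟨U0, hU0, hmax'⟩ := exists_max_image (S.powerset.filter (PM G)) card ⟨∅, by simp [pm0]⟩
  simp only [mem_filter, mem_powerset] at hU0 hmax'
  have hmax : ∀ U ⊆ S, PM G U → U.card ≤ U0.card := fun U a b => hmax' U ⟨a, b⟩
  by_cases hall : ∀ v ∈ S, ∃ U ⊆ S, PM G U ∧ U.card = U0.card ∧ v ∉ U
  · let r : V → V → Prop := fun a b => G.Adj a b ∧ a ∈ S ∧ b ∈ S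
    let K := S.filter (Relation.ReflTransGen r w)
    have hK : ∀ x, x ∈ K ↔ x ∈ S ∧ Relation.ReflTransGen r w x := fun x => mem_filter
    have wK : w ∈ K := (hK w).2 ⟨hw, Relation.ReflTransGen.refl⟩
    have KS : K ⊆ S := filter_subset _ _
    have cl : ∀ x ∈ K, ∀ y ∈ S, G.Adj x y → y ∈ K := fun x hx y hy xy =>
      (hK y).2 ⟨hy, ((hK x).1 hx).2.tail ⟨xy, KS hx, hy⟩⟩
    have sym : ∀ x y, Relation.ReflTransGen r x y → Relation.ReflTransGen r y x := by
      intro x y h
      induction h with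
      | refl => exact Relation.ReflTransGen.refl
      | tail _ h2 ih => exact Relation.ReflTransGen.head ⟨h2.1.symm, h2.2.2, h2.2.1⟩ ih
    have fc : FC G K := by
      intro v hv
      obtain ⟨U, hU, ⟨N, hN⟩, hc, vU⟩ := hall v (KS hv)
      have sub : ∀ x ∈ K.erase v, x ∈ U := by
        intro x hx
        rw [mem_erase] at hx
        by_contra xU
        exact gallai hmax hall ((sym _ _ ((hK x).1 hx.2).2).trans ((hK v).1 hv).2) hx.1 U hU
          ⟨N, hN⟩ hc xU vU
      refine ⟨N, hN.sub sub ?_⟩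
      intro x hx
      have := hN x (sub x hx)
      exact mem_erase.2 ⟨fun e => vU (e ▸ this.1), cl x (mem_erase.1 hx).2 _ (hU this.1) this.2.2⟩
    have cK := card_pos.2 ⟨w, wK⟩
    have cS : (S \ K).card + K.card = S.card := card_sdiff_add_card_eq_card KS
    obtain ⟨A, F, U, hD, hU, hp, hc⟩ := ih (S \ K).card (by omega) (S \ K) rfl
    have KF : K ∉ F := fun x => (mem_sdiff.1 ((hD.part K x).1 wK)).2 wK
    have dis : ∀ x ∈ U, x ∉ K.erase w := fun x hx y => (mem_sdiff.1 (hU hx)).2 (mem_erase.1 y).2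
    refine ⟨A, insert K F, U ∪ K.erase w, ⟨hD.subA.trans sdiff_subset, ?_, ?_, ?_, ?_⟩, ?_,
      hp.union (fc w wK) dis, ?_⟩
    · intro K' hK'
      rcases mem_insert.1 hK' with rfl | x
      · exact ⟨KS, ⟨w, wK⟩, fun v hv y => (mem_sdiff.1 (hD.subA y)).2 hv, fc⟩
      · have := hD.part K' x
        exact ⟨this.1.trans sdiff_subset, this.2⟩
    · intro K1 h1 K2 h2 v v1 v2
      rcases mem_insert.1 h1 with rfl | x <;> rcases mem_insert.1 h2 with rfl | y
      · rfl
      · exact ((mem_sdiff.1 ((hD.part _ y).1 v2)).2 v1).elim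
      · exact ((mem_sdiff.1 ((hD.part _ x).1 v1)).2 v2).elim
      · exact hD.disj _ x _ y v v1 v2
    · intro v hv
      by_cases x : v ∈ K
      · exact Or.inr ⟨K, mem_insert_self _ _, x⟩
      · rcases hD.cover v (mem_sdiff.2 ⟨hv, x⟩) with y | ⟨K', y1, y2⟩
        · exact Or.inl y
        · exact Or.inr ⟨K', mem_insert_of_mem y1, y2⟩
    · intro K' hK' v hv x hx vx
      rcases mem_insert.1 hK' with rfl | y
      · exact Or.inl (cl v hv x hx vx)
      · have v1 := mem_sdiff.1 ((hD.part _ y).1 hv)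
        exact hD.closed K' y v hv x (mem_sdiff.2 ⟨hx, fun z => v1.2 (cl x z v v1.1 vx.symm)⟩) vx
    · exact union_subset (hU.trans sdiff_subset) ((erase_subset _ _).trans KS)
    · rw [card_union_of_disjoint (disjoint_left.2 dis), card_erase_of_mem wK,
        card_insert_of_notMem KF]
      omega
  · push Not at hall
    obtain ⟨v, hv, hall⟩ := hall
    have cS := card_erase_of_mem hv
    have cp := card_pos.2 ⟨v, hv⟩
    obtain ⟨A, F, U, hD, hU, hp, hc⟩ := ih (S.erase v).card (by omega) (S.erase v) rfl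
    have vA : v ∉ A := fun x => by simpa using hD.subA x
    have h1 := hmax U (hU.trans (erase_subset _ _)) hp
    have h2 : U.card ≠ U0.card := fun e => by
      simpa using hU (hall U (hU.trans (erase_subset _ _)) hp e)
    have h3 := hp.even
    have h4 := hU0.2.even
    refine ⟨insert v A, F, U0, ⟨insert_subset hv (hD.subA.trans (erase_subset _ _)), ?_, hD.disj,
      ?_, ?_⟩, hU0.1, hU0.2, ?_⟩
    · intro K hK
      have := hD.part K hK
      refine ⟨this.1.trans (erase_subset _ _), this.2.1, fun x hx y => ?_, this.2.2.2⟩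
      rcases mem_insert.1 y with y | y
      · exact (mem_erase.1 (this.1 hx)).1 y
      · exact this.2.2.1 x hx y
    · intro x hx
      by_cases e : x = v
      · exact Or.inl (by simp [e])
      · rcases hD.cover x (mem_erase.2 ⟨e, hx⟩) with y | y
        · exact Or.inl (mem_insert_of_mem y)
        · exact Or.inr y
    · intro K hK x hx y hy xy
      by_cases e : y = v
      · exact Or.inr (by simp [e])
      · rcases hD.closed K hK x hx y (mem_erase.2 ⟨e, hy⟩) xy with z | z
        · exact Or.inl z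
        · exact Or.inr (mem_insert_of_mem z)
    · rw [card_insert_of_notMem vA]; omega

theorem handshake [DecidableRel G.Adj] (K : Finset V) :
    (∑ v ∈ K, (K.filter (G.Adj v)).card) % 2 = 0 := by
  induction K using Finset.induction_on with
  | empty => simp
  | insert a s ha ih =>
    rw [sum_insert ha]
    have e1 : (insert a s).filter (G.Adj a) = s.filter (G.Adj a) := by
      rw [filter_insert]; simp
    have e2 : ∀ v ∈ s, ((insert a s).filter (G.Adj v)).card =
        (s.filter (G.Adj v)).card + if G.Adj a v then 1 else 0 := by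
      intro v _
      rw [filter_insert]
      by_cases x : G.Adj v a
      · rw [if_pos x, if_pos x.symm, card_insert_of_notMem (by simp [ha])]
      · rw [if_neg x, if_neg (fun y => x y.symm)]; simp
    rw [e1, sum_congr rfl e2, sum_add_distrib, card_filter (G.Adj a) s]
    omega

theorem FC.odd {K : Finset V} (h : FC G K) (hn : K.Nonempty) : K.card % 2 = 1 := by
  obtain ⟨v, hv⟩ := hn
  have := (h v hv).even
  rw [card_erase_of_mem hv] at this
  have := card_pos.2 ⟨v, hv⟩
  omega

theorem bad_out [Fintype V] [DecidableRel G.Adj] {r : ℕ} (hr : 3 ≤ r) (reg : G.IsRegularOfDegree r)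
    {K : Finset V} (hK : FC G K) (hn : K.Nonempty) (hT : NoTriple G K) :
    r + ∑ v ∈ K, (K.filter (G.Adj v)).card ≤ r * K.card := by
  have le : ∀ v, (K.filter (G.Adj v)).card ≤ r := by
    intro v
    rw [← reg.degree_eq v, ← SimpleGraph.card_neighborFinset_eq_degree]
    exact card_le_card (fun x hx => by simpa using (mem_filter.1 hx).2)
  have odd := hK.odd hn
  by_cases h1 : K.card = 1
  · obtain ⟨a, rfl⟩ := card_eq_one.1 h1
    simp [filter_singleton]
  obtain ⟨b, hb⟩ := hn
  obtain ⟨x, hx, -, dx⟩ := two_low _ K rfl hK hT b hb (by omega)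
  obtain ⟨y, hy, yx, dy⟩ := two_low _ K rfl hK hT x hx (by omega)
  have hs := handshake (G := G) K
  have e1 := add_sum_erase K (fun v => (K.filter (G.Adj v)).card) hx
  have hy' : y ∈ K.erase x := mem_erase.2 ⟨yx, hy⟩
  have e2 := add_sum_erase (K.erase x) (fun v => (K.filter (G.Adj v)).card) hy'
  have e3 : ∑ v ∈ (K.erase x).erase y, (K.filter (G.Adj v)).card ≤ ((K.erase x).erase y).card * r := by
    have := sum_le_card_nsmul ((K.erase x).erase y) (fun v => (K.filter (G.Adj v)).card) r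
      (fun v _ => le v)
    simpa using this
  rw [card_erase_of_mem hy', card_erase_of_mem hx] at e3
  obtain ⟨k, hk⟩ : ∃ k, K.card = k + 2 := ⟨K.card - 2, by omega⟩
  rw [hk] at e3 odd ⊢
  have e4 : k + 2 - 1 - 1 = k := by omega
  rw [e4] at e3
  beta_reduce at e1 e2
  rcases hr.eq_or_lt with rfl | h4
  · omega
  · nlinarith

theorem main [Fintype V] [DecidableRel G.Adj] {r : ℕ} (hr : 3 ≤ r) (reg : G.IsRegularOfDegree r)
    (A : V → V → Prop) (hA : ∀ u v, G.Adj u v → A u v ∨ A v u) :
    ∃ D : Finset V, (∀ v, v ∉ D → ∃ u ∈ D, A u v) ∧ 2 * D.card ≤ Fintype.card V := by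
  classical
  obtain ⟨X, F, U, hD, hU, -, hc⟩ := exists_dec (G := G) _ (univ : Finset V) rfl
  have hXF : X.card ≤ F.card := by
    have := card_le_card hU
    omega
  let B := F.filter (fun K => NoOut G A K)
  let t : {K // K ∈ B} → Finset V := fun K => X.filter (fun a => ∃ v ∈ K.1, G.Adj v a)
  have deg : ∀ v, (univ.filter (G.Adj v)).card = r := by
    intro v
    rw [← reg.degree_eq v, ← SimpleGraph.card_neighborFinset_eq_degree]
    congr 1; ext x; simp
  have hall : ∀ s : Finset {K // K ∈ B}, s.card ≤ (s.biUnion t).card := by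
    intro s
    have h1 : ∀ K ∈ s, r ≤ ∑ v ∈ K.1, ((s.biUnion t).filter (G.Adj v)).card := by
      intro K hK
      have KB := mem_filter.1 K.2
      have p := hD.part _ KB.1
      have b := bad_out hr reg p.2.2.2 p.2.1 (noTriple_of p.2.2.2 hA KB.2)
      have : ∑ v ∈ K.1, r ≤ ∑ v ∈ K.1, ((K.1.filter (G.Adj v)).card +
          ((s.biUnion t).filter (G.Adj v)).card) := by
        apply sum_le_sum
        intro v hv
        rw [← deg v]
        refine le_trans (card_le_card ?_) (card_union_le _ _)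
        intro w hw
        have vw := (mem_filter.1 hw).2
        rcases hD.closed _ KB.1 v hv w (mem_univ _) vw with y | y
        · exact mem_union_left _ (mem_filter.2 ⟨y, vw⟩)
        · exact mem_union_right _ (mem_filter.2 ⟨mem_biUnion.2 ⟨K, hK, mem_filter.2 ⟨y, v, hv, vw⟩⟩, vw⟩)
      rw [sum_add_distrib, sum_const, smul_eq_mul, mul_comm] at this
      omega
    have h2 : ∑ K ∈ s, ∑ v ∈ K.1, ((s.biUnion t).filter (G.Adj v)).card ≤
        ∑ v, ((s.biUnion t).filter (G.Adj v)).card := by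
      rw [← sum_biUnion (t := fun K : {K // K ∈ B} => K.1)]
      · exact sum_le_sum_of_subset (subset_univ _)
      · intro K1 _ K2 _ ne
        exact disjoint_left.2 (fun v v1 v2 => ne (Subtype.ext
          (hD.disj _ (mem_filter.1 K1.2).1 _ (mem_filter.1 K2.2).1 v v1 v2)))
    have h3 : ∑ v, ((s.biUnion t).filter (G.Adj v)).card = (s.biUnion t).card * r := by
      simp only [card_filter]
      rw [sum_comm]
      rw [sum_congr rfl (g := fun _ => r)]
      · simp
      · intro a _
        rw [← deg a, card_filter]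
        exact sum_congr rfl (fun x _ => by simp only [G.adj_comm])
    have h4 : s.card * r ≤ ∑ K ∈ s, ∑ v ∈ K.1, ((s.biUnion t).filter (G.Adj v)).card := by
      have := card_nsmul_le_sum s _ r h1
      simpa using this
    exact Nat.le_of_mul_le_mul_right (h4.trans (h2.trans h3.le)) (by omega)
  obtain ⟨f, fi, ft⟩ := (all_card_le_biUnion_card_iff_exists_injective t).1 hall
  have ex : ∀ K ∈ F, ∃ D : Finset V, (∀ v ∈ K, v ∉ D → ∃ u ∈ D, A u v) ∧
      (∀ x : K ∈ B, (f ⟨K, x⟩ ∉ D → ∃ u ∈ D, A u (f ⟨K, x⟩))) ∧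
      2 * D.card + 1 ≤ K.card + if K ∈ B then 2 else 0 := by
    intro K hK
    have p := hD.part _ hK
    by_cases x : K ∈ B
    · obtain ⟨aX, v, hv, va⟩ := mem_filter.1 (ft ⟨K, x⟩)
      change v ∈ K at hv
      obtain ⟨m, hm⟩ := p.2.2.2 v hv
      have aK : f ⟨K, x⟩ ∉ K := fun y => p.2.2.1 _ y aX
      have pm : PM G (insert v (insert (f ⟨K, x⟩) (K.erase v))) :=
        ⟨_, hm.add (by simp) (by simp [aK]) va⟩
      obtain ⟨D, -, d2, d3⟩ := pm.dom A hA
      refine ⟨D, fun w hw => d3 w ?_, fun _ => d3 _ (by simp), ?_⟩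
      · by_cases e : w = v <;> simp [e, hw]
      · rw [card_insert_of_notMem (by simp [va.ne]), card_insert_of_notMem (by simp [aK]),
          card_erase_of_mem hv] at d2
        have := card_pos.2 ⟨v, hv⟩
        rw [if_pos x]; omega
    · have : ¬ NoOut G A K := fun y => x (mem_filter.2 ⟨hK, y⟩)
      unfold NoOut at this
      push Not at this
      obtain ⟨u, hu, p, hp, q, hq, up, uq, pq, hn, a1, a2, -⟩ := this
      obtain ⟨D, -, d2, d3⟩ := PM.dom hn A hA
      refine ⟨insert u D, ?_, fun y => (x y).elim, ?_⟩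
      · intro w hw wD
        simp only [mem_insert, not_or] at wD
        by_cases e1 : w = p
        · exact ⟨u, by simp, e1 ▸ a1⟩
        by_cases e2 : w = q
        · exact ⟨u, by simp, e2 ▸ a2⟩
        obtain ⟨z, z1, z2⟩ := d3 w (by simp [e1, e2, wD.1, hw]) wD.2
        exact ⟨z, mem_insert_of_mem z1, z2⟩
      · have b1 : p ∈ K.erase u := by simp [hp, up.ne.symm]
        have b2 : q ∈ (K.erase u).erase p := by simp [hq, uq.ne.symm, pq.symm]
        have c1 := card_pos.2 ⟨q, b2⟩
        rw [card_erase_of_mem b2] at d2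
        rw [card_erase_of_mem b1, card_erase_of_mem hu] at d2 c1
        have := card_insert_le u D
        rw [if_neg x]; omega
  choose! Dk hDk using ex
  let Y := univ.image f
  have YX : Y ⊆ X := by
    intro a ha
    obtain ⟨K, _, rfl⟩ := mem_image.1 ha
    exact (mem_filter.1 (ft K)).1
  have cY : Y.card = B.card := by
    rw [card_image_of_injective _ fi]; simp
  refine ⟨F.biUnion Dk ∪ (X \ Y), ?_, ?_⟩
  · intro v hv
    simp only [mem_union, mem_biUnion, mem_sdiff, not_or, not_exists, not_and, not_not] at hv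
    rcases hD.cover v (mem_univ _) with y | ⟨K, hK, y⟩
    · obtain ⟨K, _, rfl⟩ := mem_image.1 (hv.2 y)
      have hK := (mem_filter.1 K.2).1
      obtain ⟨u, u1, u2⟩ := (hDk K.1 hK).2.1 K.2 (hv.1 _ hK)
      exact ⟨u, mem_union_left _ (mem_biUnion.2 ⟨_, hK, u1⟩), u2⟩
    · obtain ⟨u, u1, u2⟩ := (hDk K hK).1 v y (hv.1 _ hK)
      exact ⟨u, mem_union_left _ (mem_biUnion.2 ⟨_, hK, u1⟩), u2⟩
  · have c1 := card_union_le (F.biUnion Dk) (X \ Y)
    have c2 : (F.biUnion Dk).card ≤ ∑ K ∈ F, (Dk K).card := card_biUnion_le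
    have c3 := card_sdiff_add_card_eq_card YX
    have c4 : ∑ K ∈ F, (2 * (Dk K).card + 1) ≤ ∑ K ∈ F, (K.card + if K ∈ B then 2 else 0) :=
      sum_le_sum (fun K hK => (hDk K hK).2.2)
    have c5 : ∑ K ∈ F, (if K ∈ B then 2 else 0) = 2 * B.card := by
      rw [← sum_filter]
      have : F.filter (fun K => K ∈ B) = B := by
        ext K; simp only [mem_filter, B]; tauto
      rw [this]; simp [mul_comm]
    rw [sum_add_distrib, sum_add_distrib, c5, ← mul_sum] at c4
    simp only [sum_const, smul_eq_mul, mul_one] at c4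
    have c6 : (F.biUnion id).card = ∑ K ∈ F, K.card := by
      rw [card_biUnion]
      · rfl
      · intro K1 h1 K2 h2 ne
        exact disjoint_left.2 (fun v v1 v2 => ne (hD.disj _ h1 _ h2 v v1 v2))
    have c7 : (F.biUnion id ∪ X).card = (F.biUnion id).card + X.card := by
      apply card_union_of_disjoint
      refine disjoint_left.2 (fun v v1 v2 => ?_)
      obtain ⟨K, hK, y⟩ := mem_biUnion.1 v1
      exact (hD.part K hK).2.2.1 v y v2
    have c8 := card_le_univ (F.biUnion id ∪ X)
    omega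

end Pool.Agent.H35.DD
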