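import Pool.Agent.H35.FiveXChk
set_option autoImplicit false
open Finset
open scoped Classical
namespace H35.FiveX

noncomputable def DD (T : ℤ → ℤ) (x a : ℕ) : Finset ℤ :=
  (Icc (1 : ℤ) x).filter (fun n => ∃ k, T^[k] n = a)

def NP (T : ℤ → ℤ) (a : ℤ) : Prop := ∀ k, 0 < k → T^[k] a ≠ a

lemma ww_le (r : ℕ) : ww r ≤ 65535 := Nat.and_le_right

lemma step (a : ℕ) : (ww (a % 78125) : ℝ) * 100000 ≤ 74299 * ww (2 * a % 78125) +
    (if a % 5 = 3 then 148095 * (ww ((2 * a - 1) / 5 % 78125) : ℝ) else 0) := by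
  have h := chk_all (a % 78125) (Nat.mod_lt _ (by norm_num))
  simp only [chk, Bool.and_eq_true, Nat.ble_eq] at h
  have h1 := h.1
  rw [show 2 * (a % 78125) % 78125 = 2 * a % 78125 by omega,
    show a % 78125 % 5 = a % 5 by omega] at h1
  by_cases h3 : a % 5 = 3
  · rw [if_pos h3]
    rw [h3] at h1
    have h4 : mn (a % 78125) ≤ ww ((2 * a - 1) / 5 % 78125) := by
      have : ∃ j < 5, (2 * a - 1) / 5 % 78125 = lift (a % 78125) j :=
        ⟨(2 * a - 1) / 5 % 78125 / 15625, by omega, by unfold lift; omega⟩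
      obtain ⟨j, hj, e⟩ := this
      rw [e]
      unfold mn
      interval_cases j <;> simp
    have h5 : ww (a % 78125) * 100000 ≤ 74299 * ww (2 * a % 78125) + 148095 * mn (a % 78125) := h1
    have h6 : ww (a % 78125) * 100000
        ≤ 74299 * ww (2 * a % 78125) + 148095 * ww ((2 * a - 1) / 5 % 78125) := by omega
    exact_mod_cast h6
  · rw [if_neg h3]
    have : Nat.beq (a % 5) 3 = false := by
      rw [← Bool.not_eq_true, Nat.beq_eq]; exact h3
    rw [this] at h1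
    have h6 : ww (a % 78125) * 100000 ≤ 74299 * ww (2 * a % 78125) + 0 := h1
    exact_mod_cast h6

lemma ww_pos (a : ℕ) (h : a % 5 ≠ 0) : 1 ≤ ww (a % 78125) := by
  have h1 := chk_all (a % 78125) (Nat.mod_lt _ (by norm_num))
  simp only [chk, Bool.and_eq_true, Bool.or_eq_true, Nat.ble_eq, Nat.beq_eq] at h1
  rcases h1.2 with h2 | h2
  · omega
  · exact h2

lemma child (T : ℤ → ℤ) (x a b : ℕ) (hb : T b = a) (ha : NP T a) :
    NP T b ∧ DD T x b ⊆ (DD T x a).erase a := by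
  refine ⟨fun k hk e => ha k hk ?_, fun n hn => ?_⟩
  · rw [← hb, ← Function.iterate_succ_apply, Function.iterate_succ_apply', e]
  · obtain ⟨h1, k, h2⟩ := mem_filter.mp hn
    have h3 : T^[k + 1] n = a := by rw [Function.iterate_succ_apply', h2, hb]
    refine mem_erase.mpr ⟨fun e => ?_, mem_filter.mpr ⟨h1, k + 1, h3⟩⟩
    rw [e] at h3
    exact ha _ (by omega) h3

lemma disj (T : ℤ → ℤ) (x a b c : ℕ) (hb : T b = a) (hc : T c = a) (hbc : b ≠ c) (ha : NP T a) :
    Disjoint (DD T x b) (DD T x c) := by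
  have key : ∀ (u v : ℕ) (n : ℤ) (i j : ℕ), T u = a → T v = a → i < j → T^[i] n = u →
      T^[j] n = v → False := by
    intro u v n i j hu hv hij e1 e2
    obtain ⟨d, rfl⟩ := Nat.exists_eq_add_of_lt hij
    rw [show i + d + 1 = d + 1 + i by ring, Function.iterate_add_apply, e1,
      Function.iterate_succ_apply, hu] at e2
    exact ha (d + 1) (by omega) (by rw [Function.iterate_succ_apply', e2, hv])
  refine Finset.disjoint_left.mpr (fun n h1 h2 => ?_)
  obtain ⟨-, i, e1⟩ := mem_filter.mp h1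
  obtain ⟨-, j, e2⟩ := mem_filter.mp h2
  rcases lt_trichotomy i j with h | h | h
  · exact key b c n i j hb hc h e1 e2
  · subst h
    exact hbc (by exact_mod_cast e1.symm.trans e2)
  · exact key c b n j i hc hb h e2 e1

lemma c1 : (0.74299 : ℝ) ≤ (1 / 2 : ℝ) ^ ((3 : ℝ) / 7) := by
  rw [show ((3 : ℝ) / 7) = (3 : ℕ) * ((7 : ℕ) : ℝ)⁻¹ by norm_num, Real.rpow_natCast_mul (by norm_num),
    Real.le_rpow_inv_iff_of_pos (by norm_num) (by norm_num) (by norm_num), Real.rpow_natCast]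
  norm_num

lemma c2 : (1.48095 : ℝ) ≤ (5 / 2 : ℝ) ^ ((3 : ℝ) / 7) := by
  rw [show ((3 : ℝ) / 7) = (3 : ℕ) * ((7 : ℕ) : ℝ)⁻¹ by norm_num, Real.rpow_natCast_mul (by norm_num),
    Real.le_rpow_inv_iff_of_pos (by norm_num) (by norm_num) (by norm_num), Real.rpow_natCast]
  norm_num

lemma tree (T : ℤ → ℤ) (hT : ∀ n, T n = if n % 2 = 0 then n / 2 else (5 * n + 1) / 2) (x : ℕ)
    (N : ℕ) : ∀ a : ℕ, (DD T x a).card ≤ N → 1 ≤ a → a ≤ x → NP T a →
      (ww (a % 78125) : ℝ) * ((x : ℝ) / a) ^ ((3 : ℝ) / 7) ≤ 131070 * (DD T x a).card := by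
  induction N with
  | zero =>
    intro a h h1 h2 _
    have : (a : ℤ) ∈ DD T x a := mem_filter.mpr ⟨mem_Icc.mpr ⟨by omega, by omega⟩, 0, rfl⟩
    have := Finset.card_pos.mpr ⟨_, this⟩
    omega
  | succ N ih =>
    intro a h h1 h2 hp
    have hm : (a : ℤ) ∈ DD T x a := mem_filter.mpr ⟨mem_Icc.mpr ⟨by omega, by omega⟩, 0, rfl⟩
    have hc := Finset.card_pos.mpr ⟨_, hm⟩
    have aR : (1 : ℝ) ≤ a := by exact_mod_cast h1
    have y0 : (0 : ℝ) ≤ (x : ℝ) / a := by positivity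
    have z0 : (0 : ℝ) ≤ ((x : ℝ) / a) ^ ((3 : ℝ) / 7) := by positivity
    by_cases hx : x < 2 * a
    · have e1 : (x : ℝ) / a ≤ 2 := by
        rw [div_le_iff₀ (by linarith)]
        exact_mod_cast hx.le
      have e2 : ((x : ℝ) / a) ^ ((3 : ℝ) / 7) ≤ 2 := by
        calc _ ≤ (2 : ℝ) ^ ((3 : ℝ) / 7) := Real.rpow_le_rpow y0 e1 (by norm_num)
          _ ≤ (2 : ℝ) ^ (1 : ℝ) := Real.rpow_le_rpow_of_exponent_le (by norm_num) (by norm_num)
          _ = 2 := Real.rpow_one 2
      have e3 : (ww (a % 78125) : ℝ) ≤ 65535 := by exact_mod_cast ww_le _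
      have e4 : (1 : ℝ) ≤ (DD T x a).card := by exact_mod_cast hc
      nlinarith
    · have t2 : T ((2 * a : ℕ) : ℤ) = a := by rw [hT, if_pos (by omega)]; omega
      obtain ⟨p2, s2⟩ := child T x a (2 * a) t2 hp
      have ce := Finset.card_erase_of_mem hm
      have k2 := Finset.card_le_card s2
      have i2 := ih (2 * a) (by omega) (by omega) (by omega) p2
      have r2 : 0.74299 * ((x : ℝ) / a) ^ ((3 : ℝ) / 7) ≤ ((x : ℝ) / (2 * a : ℕ)) ^ ((3 : ℝ) / 7) := by
        rw [show ((x : ℝ) / (2 * a : ℕ)) = 1 / 2 * ((x : ℝ) / a) by push_cast; field_simp,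
          Real.mul_rpow (by norm_num) y0]
        exact mul_le_mul_of_nonneg_right c1 z0
      have w2 : (0 : ℝ) ≤ ww (2 * a % 78125) := by positivity
      have j2 := mul_le_mul_of_nonneg_left r2 w2
      have st := mul_le_mul_of_nonneg_right (step a) z0
      by_cases h3 : a % 5 = 3
      · rw [if_pos h3] at st
        set b := (2 * a - 1) / 5 with hb
        have tb : T (b : ℤ) = a := by rw [hT, if_neg (by omega)]; omega
        obtain ⟨pb, sb⟩ := child T x a b tb hp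
        have kb := Finset.card_le_card (Finset.union_subset s2 sb)
        rw [Finset.card_union_of_disjoint (disj T x a _ _ t2 tb (by omega) hp)] at kb
        have ib := ih b (by omega) (by omega) (by omega) pb
        have bR : (1 : ℝ) ≤ b := by exact_mod_cast (by omega : 1 ≤ b)
        have rb : 1.48095 * ((x : ℝ) / a) ^ ((3 : ℝ) / 7) ≤ ((x : ℝ) / b) ^ ((3 : ℝ) / 7) := by
          refine (mul_le_mul_of_nonneg_right c2 z0).trans ?_
          rw [← Real.mul_rpow (by norm_num) y0]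
          refine Real.rpow_le_rpow (by positivity) ?_ (by norm_num)
          have : (5 * b : ℝ) ≤ 2 * a := by exact_mod_cast (by omega : 5 * b ≤ 2 * a)
          rw [show 5 / 2 * ((x : ℝ) / a) = x / (2 * a / 5) by field_simp]
          exact div_le_div_of_nonneg_left (by positivity) (by linarith) (by linarith)
        have wb : (0 : ℝ) ≤ ww (b % 78125) := by positivity
        have jb := mul_le_mul_of_nonneg_left rb wb
        have kk : ((DD T x (2 * a)).card : ℝ) + (DD T x b).card ≤ (DD T x a).card := by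
          exact_mod_cast (by omega : (DD T x (2 * a)).card + (DD T x b).card ≤ (DD T x a).card)
        nlinarith
      · rw [if_neg h3] at st
        have kk : ((DD T x (2 * a)).card : ℝ) ≤ (DD T x a).card := by
          exact_mod_cast (by omega : (DD T x (2 * a)).card ≤ (DD T x a).card)
        nlinarith

lemma halve (T : ℤ → ℤ) (hT : ∀ n, T n = if n % 2 = 0 then n / 2 else (5 * n + 1) / 2) (a : ℤ)
    (j : ℕ) : T^[j] (2 ^ j * a) = a := by
  induction j with
  | zero => simp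
  | succ j ih =>
    rw [Function.iterate_succ_apply, hT, pow_succ', mul_assoc, if_pos (by omega)]
    rwa [Int.mul_ediv_cancel_left _ (by norm_num)]

lemma exists_np (T : ℤ → ℤ) (hT : ∀ n, T n = if n % 2 = 0 then n / 2 else (5 * n + 1) / 2) (a : ℕ)
    (ha : 1 ≤ a) : ∃ j, NP T ((2 ^ j * a : ℕ) : ℤ) := by
  by_contra hn
  simp only [NP, not_exists, not_forall, not_not, exists_prop] at hn
  obtain ⟨p, hp, e⟩ := hn 0
  have per0 : T^[p] (a : ℤ) = a := by simpa using e
  have per : Function.IsPeriodicPt T p (a : ℤ) := per0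
  obtain ⟨B, hB⟩ := ((range p).image (fun i => T^[i] (a : ℤ))).finite_toSet.bddAbove
  obtain ⟨k, hk, e2⟩ := hn B.toNat
  have per2 : Function.IsPeriodicPt T k ((2 ^ B.toNat * a : ℕ) : ℤ) := e2
  have e3 := (per2.mul_const B.toNat).eq
  have e4 : k * B.toNat = (k * B.toNat - B.toNat) + B.toNat := by
    have := Nat.le_mul_of_pos_left B.toNat hk
    omega
  rw [e4, Function.iterate_add_apply] at e3
  push_cast at e3
  rw [halve T hT, ← per.iterate_mod_apply] at e3
  have e5 := hB (mem_coe.mpr (mem_image.mpr ⟨_, mem_range.mpr (Nat.mod_lt _ hp), e3⟩))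
  have e6 : B.toNat < 2 ^ B.toNat := Nat.lt_two_pow_self
  have e7 : 2 ^ B.toNat ≤ 2 ^ B.toNat * a := Nat.le_mul_of_pos_right _ ha
  have e8 : ((2 ^ B.toNat * a : ℕ) : ℤ) ≤ B := by exact_mod_cast e5
  omega

theorem main (T : ℤ → ℤ) (hT : ∀ n, T n = if n % 2 = 0 then n / 2 else (5 * n + 1) / 2) (a : ℕ)
    (ha : a % 5 ≠ 0) : ∃ c : ℝ, 0 < c ∧ ∃ x₀ : ℕ, ∀ x : ℕ, x₀ ≤ x →
      c * (x : ℝ) ^ ((3 : ℝ) / 7) ≤ (DD T x a).card := by
  obtain ⟨j, hj⟩ := exists_np T hT a (by omega)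
  set b := 2 ^ j * a with hb
  have b5 : b % 5 ≠ 0 := by
    intro h
    have h1 : 5 ∣ 2 ^ j * a := Nat.dvd_of_mod_eq_zero h
    have h2 := (Nat.Coprime.pow_right j (by norm_num : Nat.Coprime 5 2)).dvd_of_dvd_mul_left h1
    omega
  have bR : (1 : ℝ) ≤ b := by exact_mod_cast (by omega : 1 ≤ b)
  refine ⟨(131070 * (b : ℝ) ^ ((3 : ℝ) / 7))⁻¹, by positivity, b, fun x hx => ?_⟩
  have h1 := tree T hT x _ b le_rfl (by omega) hx hj
  have h2 : (1 : ℝ) ≤ ww (b % 78125) := by exact_mod_cast ww_pos b b5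
  have h3 : DD T x b ⊆ DD T x a := by
    intro n hn
    obtain ⟨u, k, e⟩ := mem_filter.mp hn
    refine mem_filter.mpr ⟨u, j + k, ?_⟩
    rw [Function.iterate_add_apply, e, hb]
    push_cast
    exact halve T hT _ _
  have h4 : ((DD T x b).card : ℝ) ≤ (DD T x a).card := by exact_mod_cast Finset.card_le_card h3
  rw [Real.div_rpow (by positivity) (by positivity)] at h1
  have h5 : (0 : ℝ) ≤ (x : ℝ) ^ ((3 : ℝ) / 7) / (b : ℝ) ^ ((3 : ℝ) / 7) := by positivity
  have h6 : (x : ℝ) ^ ((3 : ℝ) / 7) / (b : ℝ) ^ ((3 : ℝ) / 7) ≤ 131070 * (DD T x a).card := by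
    nlinarith
  rw [div_le_iff₀ (by positivity)] at h6
  rw [inv_mul_le_iff₀ (by positivity)]
  linarith

end H35.FiveX
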