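import Pool.Agent.H35.FiveXTab
set_option autoImplicit false
namespace H35.FiveX

noncomputable def get (t : Tr) : ℕ → ℕ :=
  Tr.rec (fun n r => Nat.shiftRight n (16 * r))
    (fun _ _ f g r => bif Nat.beq (r % 2) 0 then f (r / 2) else g (r / 2)) t

noncomputable def ww (r : ℕ) : ℕ := Nat.land (get TT r) 65535

def lift (r j : ℕ) : ℕ := ((2 * r - 1) / 5) % 15625 + j * 15625

noncomputable def mn (r : ℕ) : ℕ :=
  min (min (min (min (ww (lift r 0)) (ww (lift r 1))) (ww (lift r 2))) (ww (lift r 3))) (ww (lift r 4))

noncomputable def chk (r : ℕ) : Bool :=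
  Nat.ble (ww r * 100000)
    (74299 * ww (2 * r % 78125) + (bif Nat.beq (r % 5) 3 then 148095 * mn r else 0)) &&
  (Nat.beq (r % 5) 0 || Nat.ble 1 (ww r))

def allB (f : ℕ → Bool) (n : ℕ) : Bool := Nat.rec true (fun i acc => f i && acc) n

lemma allB_spec (f : ℕ → Bool) (n : ℕ) (h : allB f n = true) : ∀ i < n, f i = true := by
  induction n with
  | zero => intro i hi; omega
  | succ n ih =>
    have h' : (f n && allB f n) = true := h
    rw [Bool.and_eq_true] at h'
    intro i hi
    rcases Nat.lt_succ_iff_lt_or_eq.mp hi with h1 | h1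
    · exact ih h'.2 i h1
    · rw [h1]; exact h'.1

lemma run0 : allB (fun i => allB (fun j => chk (0 + (625 * i + j))) 625) 25 = true := by
  decide +kernel

lemma run1 : allB (fun i => allB (fun j => chk (15625 + (625 * i + j))) 625) 25 = true := by
  decide +kernel

lemma run2 : allB (fun i => allB (fun j => chk (31250 + (625 * i + j))) 625) 25 = true := by
  decide +kernel

lemma run3 : allB (fun i => allB (fun j => chk (46875 + (625 * i + j))) 625) 25 = true := by
  decide +kernel

lemma run4 : allB (fun i => allB (fun j => chk (62500 + (625 * i + j))) 625) 25 = true := by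
  decide +kernel

lemma seg (c : ℕ) (h : allB (fun i => allB (fun j => chk (c + (625 * i + j))) 625) 25 = true)
    (r : ℕ) (h1 : c ≤ r) (h2 : r < c + 15625) : chk r = true := by
  have := allB_spec _ _ (allB_spec _ _ h ((r - c) / 625) (by omega)) ((r - c) % 625) (by omega)
  rwa [Nat.div_add_mod, Nat.add_sub_cancel' h1] at this

lemma chk_all (r : ℕ) (hr : r < 78125) : chk r = true := by
  by_cases h1 : r < 15625
  · exact seg _ run0 r (by omega) (by omega)
  by_cases h2 : r < 31250
  · exact seg _ run1 r (by omega) (by omega)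
  by_cases h3 : r < 46875
  · exact seg _ run2 r (by omega) (by omega)
  by_cases h4 : r < 62500
  · exact seg _ run3 r (by omega) (by omega)
  · exact seg _ run4 r (by omega) (by omega)

end H35.FiveX
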