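import Mathlib

set_option autoImplicit false

namespace Pool.Agent.H35.Ham

/-- `T` is a tournament on `Fin n`; `T u v` means that there is an arc from `u` to `v`. -/
def IsTour {n : ℕ} (T : Fin n → Fin n → Prop) : Prop :=
  (∀ u, ¬ T u u) ∧ ∀ u v, u ≠ v → (T u v ↔ ¬ T v u)

/-- Number of Hamiltonian circuits of `T`. A circuit is recorded by its successor map, a cyclic
permutation moving every vertex, which is the same data as its set of arcs. -/
noncomputable def hc {n : ℕ} (T : Fin n → Fin n → Prop) : ℕ :=
  Set.ncard {σ : Equiv.Perm (Fin n) | σ.IsCycle ∧ (∀ v, σ v ≠ v) ∧ ∀ v, T v (σ v)}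

/-- The largest number of Hamiltonian circuits of an `n`-tournament. -/
noncomputable def ho (n : ℕ) : ℕ := sSup {h | ∃ T : Fin n → Fin n → Prop, IsTour T ∧ hc T = h}

end Pool.Agent.H35.Ham
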