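import Mathlib
import Pool.Agent.H35.HamDefs

set_option autoImplicit false

namespace Pool.Agent.H35.Ham

open Equiv Finset

def LL : List (List (Fin 7)) := ([1, 2, 3, 4, 5, 6] : List (Fin 7)).permutations'.map (0 :: ·)

def tab (l : List (Fin 7)) (v : Fin 7) : Fin 7 := l.getD ((l.idxOf v + 1) % 7) 0

def code (l : List (Fin 7)) : ℕ := l.foldr (fun a s => a.1 + 7 * s) 0

theorem LL_ok : ∀ l ∈ LL, l.Nodup ∧ l.length = 7 ∧ ∀ v, l.formPerm v = tab l v ∧ tab l v ≠ v := by
  decide +kernel

theorem LL_len : LL.length = 720 := by decide +kernel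

theorem LL_nodup0 : (LL.map fun l => code ((List.finRange 7).map (tab l))).Nodup := by
  decide +kernel

theorem LL_nodup : (LL.map List.formPerm).Nodup := by
  have h := LL_nodup0
  have e : (LL.map fun l => code ((List.finRange 7).map (tab l))) =
      (LL.map List.formPerm).map fun σ : Perm (Fin 7) => code ((List.finRange 7).map σ) := by
    rw [List.map_map]
    refine List.map_congr_left fun l hl => ?_
    have : tab l = ⇑l.formPerm := funext fun v => ((LL_ok l hl).2.2 v).1.symm
    simp [this]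
  rw [e] at h
  exact h.of_map _

theorem cyc_iff (σ : Perm (Fin 7)) :
    (σ.IsCycle ∧ ∀ v, σ v ≠ v) ↔ σ ∈ LL.map List.formPerm := by
  have hs : ∀ σ : Perm (Fin 7), (σ.IsCycle ∧ ∀ v, σ v ≠ v) → σ.cycleType = {7} := by
    rintro σ ⟨h1, h2⟩
    have : σ.support = univ := eq_univ_of_forall fun v => Perm.mem_support.2 (h2 v)
    rw [h1.cycleType, this]
    rfl
  have hb : ∀ σ ∈ LL.map List.formPerm, σ.IsCycle ∧ ∀ v, σ v ≠ v := by
    intro σ h
    obtain ⟨l, hl, rfl⟩ := List.mem_map.1 h
    obtain ⟨a, b, c⟩ := LL_ok l hl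
    exact ⟨List.isCycle_formPerm a (by omega), fun v => (c v).1 ▸ (c v).2⟩
  refine ⟨fun h => ?_, hb σ⟩
  have : (LL.map List.formPerm).toFinset = ({g | g.cycleType = {7}} : Finset (Perm (Fin 7))) := by
    apply eq_of_subset_of_card_le
    · intro g hg
      simpa using hs g (hb g (List.mem_toFinset.1 hg))
    · rw [Perm.card_of_cycleType_singleton (by norm_num) (by simp),
        List.toFinset_card_of_nodup LL_nodup, List.length_map, LL_len]
      simp [Nat.factorial]
  rw [← List.mem_toFinset, this]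
  simpa using hs σ h

theorem hc_eq (T : Fin 7 → Fin 7 → Prop) (p : List (Fin 7) → Bool)
    (hp : ∀ l ∈ LL, p l = true ↔ ∀ v, T v (tab l v)) : hc T = LL.countP p := by
  classical
  have e : {σ : Perm (Fin 7) | σ.IsCycle ∧ (∀ v, σ v ≠ v) ∧ ∀ v, T v (σ v)} =
      ↑((LL.filter p).map List.formPerm).toFinset := by
    ext σ
    simp only [Set.mem_ofPred_eq, List.coe_toFinset, List.mem_map, List.mem_filter]
    rw [← and_assoc, cyc_iff, List.mem_map]
    constructor
    · rintro ⟨⟨l, hl, rfl⟩, h⟩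
      exact ⟨l, ⟨hl, (hp l hl).2 fun v => ((LL_ok l hl).2.2 v).1 ▸ h v⟩, rfl⟩
    · rintro ⟨l, ⟨hl, h⟩, rfl⟩
      exact ⟨⟨l, hl, rfl⟩, fun v => ((LL_ok l hl).2.2 v).1 ▸ (hp l hl).1 h v⟩
  rw [hc, e, Set.ncard_coe_finset, List.toFinset_card_of_nodup
    (LL_nodup.sublist (List.filter_sublist.map _)), List.length_map, List.countP_eq_length_filter]

def enc {α : Type} (p : α → Bool) : List α → ℕ
  | [] => 0
  | a :: l => 2 ^ 10 * enc p l + (p a).toNat

theorem enc_and {α : Type} (p q : α → Bool) (l : List α) :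
    enc p l &&& enc q l = enc (fun a => p a && q a) l := by
  induction l with
  | nil => simp [enc]
  | cons a l ih =>
    have hb : ∀ b : Bool, b.toNat < 2 ^ 10 := by decide
    apply Nat.eq_of_testBit_eq
    intro j
    simp only [enc, Nat.testBit_and, Nat.testBit_two_pow_mul_add _ (hb _), ← ih]
    split_ifs
    · cases p a <;> cases q a <;> simp
    · rfl

theorem enc_mod {α : Type} (p : α → Bool) (l : List α) : enc p l % 1023 = l.countP p % 1023 := by
  induction l with
  | nil => simp [enc]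
  | cons a l ih =>
    rw [List.countP_cons, enc]
    cases p a <;> simp <;> omega

def U (a : Fin 7 × Fin 7) : ℕ := enc (fun l => tab l a.1 != a.2) LL

def ok (h : ℕ) : Bool := h ≤ 15 || h == 17 || h == 24

def chk : List (ℕ × ℕ) → ℕ → Bool
  | [], m => ok (m % 1023)
  | a :: ps, m => chk ps (m &&& a.1) && chk ps (m &&& a.2)

def forb (A : List (Fin 7 × Fin 7)) (l : List (Fin 7)) : Bool := A.all fun a => tab l a.1 != a.2

theorem enc_forb (A : List (Fin 7 × Fin 7)) (a : Fin 7 × Fin 7) :
    enc (forb A) LL &&& U a = enc (forb (a :: A)) LL := by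
  rw [U, enc_and]
  congr 1
  funext l
  simp [forb, Bool.and_comm]

theorem chk_sound {T : Fin 7 → Fin 7 → Prop} (hT : IsTour T) (ps : List (Fin 7 × Fin 7))
    (hps : ∀ a ∈ ps, a.1 ≠ a.2) (A : List (Fin 7 × Fin 7)) (hA : ∀ a ∈ A, ¬ T a.1 a.2)
    (hc' : ∀ i j, i ≠ j → (i, j) ∈ A ∨ (j, i) ∈ A ∨ (i, j) ∈ ps ∨ (j, i) ∈ ps)
    (h : chk (ps.map fun a => (U a, U a.swap)) (enc (forb A) LL) = true) : ok (hc T) = true := by
  induction ps generalizing A with
  | nil =>
    simp only [List.map_nil, chk] at h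
    rw [enc_mod, Nat.mod_eq_of_lt (lt_of_le_of_lt List.countP_le_length (by rw [LL_len]; norm_num)),
      ← hc_eq T (forb A)] at h
    · exact h
    · intro l hl
      simp only [forb, List.all_eq_true, bne_iff_ne]
      constructor
      · intro h v
        have hv := ((LL_ok l hl).2.2 v).2
        rcases hc' v (tab l v) hv.symm with e | e | e | e
        · exact absurd rfl (h _ e)
        · exact (hT.2 _ _ hv.symm).2 (hA _ e)
        · simp at e
        · simp at e
      · intro h a ha e
        exact hA a ha (e ▸ h a.1)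
  | cons a ps ih =>
    simp only [List.map_cons, chk, Bool.and_eq_true, enc_forb] at h
    have hps' : ∀ b ∈ ps, b.1 ≠ b.2 := fun b hb => hps b (List.mem_cons_of_mem _ hb)
    by_cases e : T a.1 a.2
    · refine ih hps' (a.swap :: A) ?_ ?_ h.2
      · intro b hb
        rcases List.mem_cons.1 hb with rfl | hb
        · exact (hT.2 _ _ (hps a List.mem_cons_self)).1 e
        · exact hA b hb
      · intro i j hij
        have := hc' i j hij
        obtain ⟨a1, a2⟩ := a
        simp only [List.mem_cons, Prod.mk.injEq, Prod.swap_prod_mk] at this ⊢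
        tauto
    · refine ih hps' (a :: A) ?_ ?_ h.1
      · intro b hb
        rcases List.mem_cons.1 hb with rfl | hb
        · exact e
        · exact hA b hb
      · intro i j hij
        have := hc' i j hij
        simp only [List.mem_cons] at this ⊢
        tauto

def A0 : List (Fin 7 × Fin 7) := [(1, 0), (2, 1), (3, 2), (4, 3), (5, 4), (6, 5), (0, 6)]
def P0 : List (Fin 7 × Fin 7) := [(0, 2), (1, 3), (2, 4), (3, 5), (4, 6), (5, 0), (6, 1),
  (0, 3), (1, 4), (2, 5), (3, 6), (4, 0), (5, 1), (6, 2)]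

theorem big : chk (P0.map fun a => (U a, U a.swap)) (enc (forb A0) LL) = true := by
  decide +kernel

theorem hc_conj {n : ℕ} (T : Fin n → Fin n → Prop) (π : Perm (Fin n)) :
    hc (fun u v => T (π u) (π v)) = hc T := by
  unfold hc
  refine Set.ncard_congr (fun σ _ => π * σ * π⁻¹) ?_ ?_ ?_
  · rintro σ ⟨h1, h2, h3⟩
    refine ⟨h1.conj, fun v e => h2 (π⁻¹ v) ?_, fun v => ?_⟩
    · apply π.injective
      simpa using e
    · simpa using h3 (π⁻¹ v)
  · intro σ τ _ _ e
    simpa using e
  · rintro σ ⟨h1, h2, h3⟩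
    refine ⟨π⁻¹ * σ * π, ⟨by simpa using h1.conj (g := π⁻¹), fun v e => h2 (π v) ?_, fun v => ?_⟩,
      by group⟩
    · have := congrArg π e
      simpa using this
    · simpa using h3 (π v)

theorem upper {T : Fin 7 → Fin 7 → Prop} (hT : IsTour T) : ok (hc T) = true := by
  by_cases h0 : hc T = 0
  · rw [h0]; rfl
  obtain ⟨σ, h1, h2, h3⟩ := Set.nonempty_of_ncard_ne_zero h0
  have hs : σ.support = univ := eq_univ_of_forall fun v => Perm.mem_support.2 (h2 v)
  obtain ⟨π, hπ⟩ := isConj_iff.1 ((isCycle_finRotate (n := 5)).isConj h1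
    (by rw [hs, support_finRotate]))
  rw [← hc_conj T π]
  have hT' : IsTour fun u v => T (π u) (π v) :=
    ⟨fun u => hT.1 _, fun u v h => hT.2 _ _ (π.injective.ne h)⟩
  refine chk_sound hT' P0 (by decide) A0 ?_ (by decide) big
  have k : ∀ v : Fin 7, ¬ T (π (finRotate 7 v)) (π v) := by
    intro v
    have a := h3 (π v)
    have b := h2 (π v)
    rw [← hπ] at a b
    simp only [Perm.coe_mul, Function.comp_apply, Perm.coe_inv, symm_apply_apply] at a b
    exact (hT.2 _ _ b.symm).1 a
  intro a ha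
  simp only [A0, List.mem_cons, List.not_mem_nil, or_false] at ha
  rcases ha with rfl | rfl | rfl | rfl | rfl | rfl | rfl
  exacts [k 0, k 1, k 2, k 3, k 4, k 5, k 6]

def ex : List (ℕ × ℕ) := [(0, 2225029922430), (1, 6623076433470), (2, 6623080626876),
  (3, 6623080626750), (4, 6623613302460), (5, 6623613302334), (6, 6691798003380),
  (7, 6691798003254), (8, 6691795906236), (9, 6691795906110), (10, 6692332775100),
  (11, 6692332774974), (12, 6692869385916), (13, 15522248658462), (14, 15522517093902),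
  (15, 6692869385790), (17, 15591506581014), (24, 33321070122522)]

def Tx (x : ℕ) (u v : Fin 7) : Bool := x.testBit (7 * u.1 + v.1)

theorem ex_ok : ∀ a ∈ ex, ((∀ u, ¬ Tx a.2 u u = true) ∧
    ∀ u v, u ≠ v → (Tx a.2 u v = true ↔ ¬ Tx a.2 v u = true)) ∧
    LL.countP (fun l => (List.finRange 7).all fun v => Tx a.2 v (tab l v)) = a.1 := by
  decide +kernel

theorem spec (h : ℕ) :
    (∃ T : Fin 7 → Fin 7 → Prop, IsTour T ∧ hc T = h) ↔ (h ≤ 15 ∨ h = 17 ∨ h = 24) := by
  constructor
  · rintro ⟨T, hT, rfl⟩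
    simpa [ok, or_assoc] using upper hT
  · intro hh
    have : ∃ a ∈ ex, a.1 = h := by
      have : h ≤ 24 := by omega
      revert hh
      interval_cases h <;> decide
    obtain ⟨a, ha, rfl⟩ := this
    refine ⟨fun u v => Tx a.2 u v = true, (ex_ok a ha).1, ?_⟩
    rw [← (ex_ok a ha).2]
    exact hc_eq _ _ fun l _ => by simp

end Pool.Agent.H35.Ham
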