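import Mathlib

set_option autoImplicit false

open Finset

namespace Pool.Agent.H35.Ls

section Ach

variable {β κ : Type} [DecidableEq β] (φ : β → κ → ℤ)

/-- total weight of a family on a test. -/
def w (A : Finset β) (t : κ) : ℤ := ∑ b ∈ A, φ b t

/-- the profile `d` is achieved by a three colouring of `A`. -/
def Ach (A : Finset β) (d : Fin 3 → κ → ℤ) : Prop :=
  ∃ f : β → Fin 3, ∀ c t, ∑ b ∈ A, (if f b = c then φ b t else 0) = d c t

variable {φ}

theorem Ach.union {A A' : Finset β} {d d' : Fin 3 → κ → ℤ} (hd : Disjoint A A')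
    (h : Ach φ A d) (h' : Ach φ A' d') : Ach φ (A ∪ A') (fun c t => d c t + d' c t) := by
  obtain ⟨f, hf⟩ := h
  obtain ⟨f', hf'⟩ := h'
  refine ⟨fun b => if b ∈ A then f b else f' b, fun c t => ?_⟩
  beta_reduce
  rw [sum_union hd, ← hf c t, ← hf' c t]
  congr 1
  · refine sum_congr rfl fun b hb => ?_
    simp [hb]
  · refine sum_congr rfl fun b hb => ?_
    have : b ∉ A := fun h => disjoint_left.1 hd h hb
    simp [this]

omit [DecidableEq β] in
theorem Ach.empty : Ach φ (∅ : Finset β) (fun _ _ => 0) := ⟨fun _ => 0, fun _ _ => by simp⟩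

theorem Ach.biUnion {ι : Type} [DecidableEq ι] (s : Finset ι) (M : ι → Finset β)
    (d : ι → Fin 3 → κ → ℤ) (hd : ∀ i ∈ s, ∀ j ∈ s, i ≠ j → Disjoint (M i) (M j))
    (h : ∀ i ∈ s, Ach φ (M i) (d i)) :
    Ach φ (s.biUnion M) (fun c t => ∑ i ∈ s, d i c t) := by
  induction s using Finset.induction_on with
  | empty => simpa using Ach.empty
  | insert a s ha ih =>
    rw [biUnion_insert]
    have h1 := ih (fun i hi j hj => hd i (mem_insert_of_mem hi) j (mem_insert_of_mem hj))
      (fun i hi => h i (mem_insert_of_mem hi))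
    have h2 : Disjoint (M a) (s.biUnion M) := by
      rw [disjoint_biUnion_right]
      intro i hi
      exact hd a (mem_insert_self _ _) i (mem_insert_of_mem hi) (fun e => ha (e ▸ hi))
    have := Ach.union h2 (h a (mem_insert_self _ _)) h1
    simpa [sum_insert ha] using this

omit [DecidableEq β] in
theorem Ach.mono (A : Finset β) (c0 : Fin 3) :
    Ach φ A (fun c t => if c0 = c then w φ A t else 0) := by
  refine ⟨fun _ => c0, fun c t => ?_⟩
  by_cases h : c0 = c <;> simp [h, w]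

omit [DecidableEq β] in
theorem Ach.total {A : Finset β} {d : Fin 3 → κ → ℤ} (h : Ach φ A d) (t : κ) :
    d 0 t + d 1 t + d 2 t = w φ A t := by
  obtain ⟨f, hf⟩ := h
  rw [← hf, ← hf, ← hf, ← sum_add_distrib, ← sum_add_distrib, w]
  refine sum_congr rfl fun b _ => ?_
  have : ∀ x : Fin 3, x = 0 ∨ x = 1 ∨ x = 2 := by decide
  rcases this (f b) with h | h | h <;> simp [h]

omit [DecidableEq β] in
theorem Ach.bound {A : Finset β} {d : Fin 3 → κ → ℤ} (h : Ach φ A d)
    (h0 : ∀ b t, 0 ≤ φ b t) (h1 : ∀ b t, φ b t ≤ 1) (c : Fin 3) (t : κ) :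
    0 ≤ d c t ∧ d c t ≤ A.card := by
  obtain ⟨f, hf⟩ := h
  rw [← hf]
  constructor
  · refine sum_nonneg fun b _ => ?_
    split_ifs
    · exact h0 b t
    · exact le_rfl
  · have : (A.card : ℤ) = ∑ b ∈ A, (1 : ℤ) := by simp
    rw [this]
    refine sum_le_sum fun b _ => ?_
    split_ifs
    · exact h1 b t
    · exact zero_le_one

omit [DecidableEq β] in
theorem Ach.rel {A : Finset β} {d : Fin 3 → κ → ℤ} (h : Ach φ A d) {ι : Type} (s : Finset ι)
    (g : ι → κ) (a : ℤ) (t0 : κ) (hr : ∀ b ∈ A, ∑ i ∈ s, φ b (g i) = a * φ b t0) (c : Fin 3) :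
    ∑ i ∈ s, d c (g i) = a * d c t0 := by
  obtain ⟨f, hf⟩ := h
  simp only [← hf]
  rw [sum_comm, mul_sum]
  refine sum_congr rfl fun b hb => ?_
  by_cases hc : f b = c
  · simp [hc, hr b hb]
  · simp [hc]

theorem Ach.three (M : Fin 3 → Finset β) (hd : ∀ i j, i ≠ j → Disjoint (M i) (M j))
    (σ : Equiv.Perm (Fin 3)) :
    Ach φ (univ.biUnion M) (fun c t => w φ (M (σ c)) t) := by
  have := Ach.biUnion (φ := φ) univ M (fun i c t => if σ.symm i = c then w φ (M i) t else 0)
    (fun i _ j _ => hd i j) (fun i _ => Ach.mono (M i) (σ.symm i))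
  convert this using 3 with c t
  simp only [Equiv.symm_apply_eq]
  simp

theorem w_union {A A' : Finset β} (hd : Disjoint A A') (t : κ) :
    w φ (A ∪ A') t = w φ A t + w φ A' t := by
  simp only [w]; rw [sum_union hd]

theorem sum_fin_lt (m s : ℕ) (hs : s ≤ m) (A B : ℤ) :
    ∑ j : Fin m, (if (j : ℕ) < s then A else B) = s * A + (m - s) * B := by
  rw [Fin.sum_univ_eq_sum_range (fun j => if j < s then A else B) m]
  obtain ⟨r, rfl⟩ := Nat.exists_eq_add_of_le hs
  rw [sum_range_add]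
  rw [sum_congr rfl (g := fun _ => A) (fun j hj => by simp [mem_range.1 hj]),
    sum_congr rfl (s₁ := range r) (g := fun _ => B) (fun j _ => by simp)]
  simp

/-- the switching lemma. -/
theorem fix {ι : Type} [Fintype ι] [DecidableEq ι] (m : ℕ)
    (M : ι × Fin 3 × Fin m → Fin 3 → Finset β)
    (hd : ∀ p i p' i', (p, i) ≠ (p', i') → Disjoint (M p i) (M p' i'))
    (good : κ → Prop) (μ : ι → Fin 3 → κ → ℤ)
    (hμ : ∀ p i t, good t → w φ (M p i) t - μ p.1 i t = w φ (M p 0) t - μ p.1 0 t)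
    (x : ι → Fin 3 → ℤ) (hx : ∀ τ, x τ 0 + x τ 1 + x τ 2 = 0)
    (hb : ∀ τ c, 2 * |x τ c| ≤ m) :
    ∃ (d : Fin 3 → κ → ℤ) (base : κ → ℤ), Ach φ (univ.biUnion fun p => univ.biUnion (M p)) d ∧
      ∀ c t, good t → d c t = base t + ∑ τ, x τ c * (μ τ 0 t - μ τ 1 t) := by
  have hs : ∀ τ, ∃ s : Fin 3 → ℕ, (∀ l, s l ≤ m) ∧ x τ 0 = s 2 - s 0 ∧ x τ 1 = s 0 - s 1 ∧
      x τ 2 = s 1 - s 2 := by
    intro τ
    have h0 := hb τ 0
    have h1 := hb τ 1
    have h2 := hx τ
    have a0 := abs_le.1 (le_refl |x τ 0|)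
    have a1 := abs_le.1 (le_refl |x τ 1|)
    refine ⟨![m / 2, ((m / 2 : ℕ) - x τ 1).toNat, ((m / 2 : ℕ) + x τ 0).toNat], ?_, ?_, ?_, ?_⟩
    · intro l
      fin_cases l <;> simp <;> omega
    · simp; omega
    · simp; omega
    · simp; omega
  choose s hsm hs0 hs1 hs2 using hs
  let σ : ι × Fin 3 × Fin m → Equiv.Perm (Fin 3) := fun p =>
    if (p.2.2 : ℕ) < s p.1 p.2.1 then (Equiv.subRight p.2.1).trans (Equiv.swap 0 1)
    else Equiv.subRight p.2.1
  have hA := Ach.biUnion (φ := φ) univ (fun p => univ.biUnion (M p))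
    (fun p c t => w φ (M p (σ p c)) t) (by
      intro p _ p' _ hne
      rw [disjoint_biUnion_left]
      intro i _
      rw [disjoint_biUnion_right]
      intro i' _
      exact hd p i p' i' (fun e => hne (Prod.mk.inj e).1))
    (fun p _ => Ach.three (M p) (fun i j hij => hd p i p j (fun e => hij (Prod.mk.inj e).2)) (σ p))
  refine ⟨_, fun t => ∑ p, (w φ (M p 0) t - μ p.1 0 t) +
    ∑ τ, (m : ℤ) * (μ τ 0 t + μ τ 1 t + μ τ 2 t), hA, fun c t ht => ?_⟩
  have e1 : ∀ p, w φ (M p (σ p c)) t = (w φ (M p 0) t - μ p.1 0 t) + μ p.1 (σ p c) t := by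
    intro p
    have := hμ p (σ p c) t ht
    linarith
  simp only [e1]
  rw [sum_add_distrib, add_assoc]
  congr 1
  rw [← sum_add_distrib, Fintype.sum_prod_type]
  refine sum_congr rfl fun τ _ => ?_
  rw [Fintype.sum_prod_type]
  have e2 : ∀ l : Fin 3, ∑ j : Fin m, μ τ (σ (τ, l, j) c) t =
      s τ l * μ τ (Equiv.swap 0 1 (c - l)) t + (m - s τ l) * μ τ (c - l) t := by
    intro l
    rw [← sum_fin_lt m (s τ l) (hsm τ l)]
    refine sum_congr rfl fun j _ => ?_
    by_cases h : (j : ℕ) < s τ l <;> simp [σ, h]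
  simp only [e2]
  rw [Fin.sum_univ_three]
  have q0 := hs0 τ
  have q1 := hs1 τ
  have q2 := hs2 τ
  have w0 : Equiv.swap (0 : Fin 3) 1 0 = 1 := by decide
  have w1 : Equiv.swap (0 : Fin 3) 1 1 = 0 := by decide
  have w2 : Equiv.swap (0 : Fin 3) 1 2 = 2 := by decide
  have : ∀ x : Fin 3, x = 0 ∨ x = 1 ∨ x = 2 := by decide
  rcases this c with rfl | rfl | rfl
  · rw [show (0 : Fin 3) - 0 = 0 by decide, show (0 : Fin 3) - 1 = 2 by decide,
      show (0 : Fin 3) - 2 = 1 by decide, w0, w1, w2, q0]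
    ring
  · rw [show (1 : Fin 3) - 0 = 1 by decide, show (1 : Fin 3) - 1 = 0 by decide,
      show (1 : Fin 3) - 2 = 2 by decide, w0, w1, w2, q1]
    ring
  · rw [show (2 : Fin 3) - 0 = 2 by decide, show (2 : Fin 3) - 1 = 1 by decide,
      show (2 : Fin 3) - 2 = 0 by decide, w0, w1, w2, q2]
    ring

/-- a family whose size is divisible by three has an equitable colouring. -/
theorem equit (t0 : κ) (h1 : ∀ b, φ b t0 = 1) (n : ℕ) (A : Finset β) (hA : A.card = 3 * n) :
    ∃ d, Ach φ A d ∧ ∀ c, d c t0 = n := by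
  induction n generalizing A with
  | zero =>
    have : A = ∅ := card_eq_zero.1 (by simpa using hA)
    subst this
    exact ⟨_, Ach.empty, fun _ => rfl⟩
  | succ n ih =>
    obtain ⟨B, hBA, hB⟩ := exists_subset_card_eq (s := A) (n := 3) (by omega)
    obtain ⟨a, b, c, hab, hac, hbc, rfl⟩ := card_eq_three.1 hB
    obtain ⟨d, hd, hd0⟩ := ih (A \ {a, b, c}) (by rw [card_sdiff_of_subset hBA, hB]; omega)
    have h3 := Ach.three (φ := φ) ![{a}, {b}, {c}] (by
      intro i j hij
      fin_cases i <;> fin_cases j <;> simp_all [eq_comm]) 1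
    have e : (univ : Finset (Fin 3)).biUnion ![({a} : Finset β), {b}, {c}] = {a, b, c} := by
      ext y
      simp [Fin.exists_fin_succ]
    rw [e] at h3
    have h4 := Ach.union (sdiff_disjoint) hd h3
    rw [sdiff_union_of_subset hBA] at h4
    refine ⟨_, h4, fun c' => ?_⟩
    simp only [hd0]
    fin_cases c' <;> simp [w, h1]

end Ach

/-- greedy choice of pairwise disjoint options. -/
theorem greedy {I Z β : Type} [Fintype I] [DecidableEq I] [DecidableEq Z] [DecidableEq β]
    (Ω : I → Finset Z) (opt : I → Z → Finset β) (r : ℕ) (U0 : Finset β)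
    (hr : ∀ i z, (opt i z).card ≤ r)
    (hu : ∀ i, ∀ z ∈ Ω i, ∀ z' ∈ Ω i, ∀ b, b ∈ opt i z → b ∈ opt i z' → z = z')
    (hbig : ∀ i, U0.card + r * Fintype.card I < (Ω i).card) :
    ∃ ch : I → Z, (∀ i, ch i ∈ Ω i) ∧ (∀ i, Disjoint (opt i (ch i)) U0) ∧
      ∀ i j, i ≠ j → Disjoint (opt i (ch i)) (opt j (ch j)) := by
  have key : ∀ (i : I) (U : Finset β), U.card < (Ω i).card →
      ∃ z ∈ Ω i, Disjoint (opt i z) U := by
    intro i U hU
    by_contra hcon
    push Not at hcon
    have : ∀ z ∈ Ω i, ∃ b, b ∈ opt i z ∧ b ∈ U := fun z hz => not_disjoint_iff.1 (hcon z hz)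
    have hz : (Ω i).Nonempty := card_pos.1 (by omega)
    have hβ : Nonempty β := ⟨(this _ hz.choose_spec).choose⟩
    choose! g hg1 hg2 using this
    have := card_le_card_of_injOn (s := Ω i) (t := U) g (fun z hz => hg2 z hz)
      (fun z hz z' hz' e => hu i z hz z' hz' (g z) (hg1 z hz) (e ▸ hg1 z' hz'))
    omega
  have hne : ∀ i, (Ω i).Nonempty := fun i => card_pos.1 (by have := hbig i; omega)
  choose z0 hz0 using hne
  have main : ∀ s : Finset I, ∃ ch : I → Z, (∀ i, ch i ∈ Ω i) ∧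
      (∀ i ∈ s, Disjoint (opt i (ch i)) U0) ∧
      ∀ i ∈ s, ∀ j ∈ s, i ≠ j → Disjoint (opt i (ch i)) (opt j (ch j)) := by
    intro s
    induction s using Finset.induction_on with
    | empty => exact ⟨z0, hz0, by simp, by simp⟩
    | insert a s ha ih =>
      obtain ⟨ch, h1, h2, h3⟩ := ih
      have hc : (U0 ∪ s.biUnion fun i => opt i (ch i)).card < (Ω a).card := by
        have b1 := card_union_le U0 (s.biUnion fun i => opt i (ch i))
        have b2 : (s.biUnion fun i => opt i (ch i)).card ≤ s.card * r :=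
          card_biUnion_le_card_mul s _ r (fun i _ => hr i (ch i))
        have b3 : s.card * r ≤ r * Fintype.card I := by
          rw [mul_comm]
          exact Nat.mul_le_mul_left r (card_le_univ s)
        have := hbig a
        omega
      obtain ⟨z, hz, hzd⟩ := key a _ hc
      rw [disjoint_union_right, disjoint_biUnion_right] at hzd
      have hup : ∀ i ∈ s, Function.update ch a z i = ch i :=
        fun i hi => Function.update_of_ne (fun e : i = a => ha (e ▸ hi)) _ _
      refine ⟨Function.update ch a z, fun i => ?_, fun i hi => ?_, fun i hi j hj hij => ?_⟩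
      · by_cases e : i = a
        · subst e; simpa using hz
        · rw [Function.update_of_ne e]; exact h1 i
      · rcases mem_insert.1 hi with rfl | hi
        · simpa using hzd.1
        · rw [hup i hi]; exact h2 i hi
      · rcases mem_insert.1 hi with rfl | hi' <;> rcases mem_insert.1 hj with rfl | hj'
        · exact absurd rfl hij
        · rw [hup j hj']; simpa using hzd.2 j hj'
        · rw [hup i hi']; simpa using (hzd.2 i hi').symm
        · rw [hup i hi', hup j hj']; exact h3 i hi' j hj' hij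
  obtain ⟨ch, h1, h2, h3⟩ := main univ
  exact ⟨ch, h1, fun i => h2 i (mem_univ _), fun i j => h3 i (mem_univ _) j (mem_univ _)⟩

/-- pigeonhole: two disjoint different subfamilies with the same sum vector. -/
theorem siegel {κ : Type} [Fintype κ] [DecidableEq κ] (s h : ℕ) (v : Fin s → κ → ℤ)
    (h0 : ∀ i t, 0 ≤ v i t) (h1 : ∀ i t, v i t ≤ h)
    (hbig : (s * h + 1) ^ Fintype.card κ < 2 ^ s) :
    ∃ J1 J2 : Finset (Fin s), Disjoint J1 J2 ∧ J1 ≠ J2 ∧
      ∀ t, ∑ i ∈ J1, v i t = ∑ i ∈ J2, v i t := by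
  have hc : (Fintype.piFinset fun _ : κ => Finset.Icc (0 : ℤ) ((s * h : ℕ) : ℤ)).card <
      (univ : Finset (Finset (Fin s))).card := by
    rw [Fintype.card_piFinset, card_univ, Fintype.card_finset, Fintype.card_fin]
    simp only [Int.card_Icc, prod_const, card_univ]
    have : (((s * h : ℕ) : ℤ) + 1 - 0).toNat = s * h + 1 := by omega
    rw [this]
    exact hbig
  obtain ⟨J, -, J', -, hne, he⟩ := exists_ne_map_eq_of_card_lt_of_maps_to hc
    (f := fun J t => ∑ i ∈ J, v i t) (by
      intro J _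
      simp only [mem_coe, Fintype.mem_piFinset, mem_Icc]
      intro t
      refine ⟨sum_nonneg fun i _ => h0 i t, ?_⟩
      have b1 : ∑ i ∈ J, v i t ≤ ∑ i ∈ J, (h : ℤ) := sum_le_sum fun i _ => h1 i t
      have b2 : J.card ≤ s := by simpa using card_le_univ J
      rw [sum_const, nsmul_eq_mul] at b1
      have b3 : (J.card : ℤ) * h ≤ s * h :=
        mul_le_mul_of_nonneg_right (by exact_mod_cast b2) (by positivity)
      push_cast
      linarith)
  refine ⟨J \ J', J' \ J, disjoint_sdiff_sdiff, fun e => hne ?_, fun t => ?_⟩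
  · ext y
    have := Finset.ext_iff.1 e y
    simp only [mem_sdiff] at this
    tauto
  · have a := congrFun he t
    have b1 := sum_sdiff (f := fun i => v i t) (inter_subset_left (s₁ := J) (s₂ := J'))
    have b2 := sum_sdiff (f := fun i => v i t) (inter_subset_right (s₁ := J) (s₂ := J'))
    rw [sdiff_inter_self_left] at b1
    rw [sdiff_inter_self_right] at b2
    linarith

end Pool.Agent.H35.Ls
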