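import Mathlib
import Pool.Agent.H35.LsA

set_option autoImplicit false

open Finset

namespace Pool.Agent.H35.Ls

section Pack

variable {β κ κ' : Type} [DecidableEq β] [Fintype κ'] [DecidableEq κ'] {φ : β → κ → ℤ}

theorem exists_bal (h0 : ∀ b t, 0 ≤ φ b t) (h1 : ∀ b t, φ b t ≤ 1) (tst : κ' → κ) (t0 : κ')
    (ht0 : ∀ b, φ b (tst t0) = 1) (s : ℕ) (hs : (s * s + 1) ^ Fintype.card κ' < 2 ^ s)
    (A : Finset β) (hA : s * s ≤ A.card) :
    ∃ A' ⊆ A, A'.Nonempty ∧ ∃ d, Ach φ A' d ∧ ∀ c t, d c (tst t) = d 0 (tst t) := by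
  have hs1 : (s * 1 + 1) ^ Fintype.card κ' < 2 ^ s := by
    refine lt_of_le_of_lt (Nat.pow_le_pow_left ?_ _) hs
    rcases Nat.eq_zero_or_pos s with rfl | h
    · simp
    · have := Nat.mul_le_mul_left s h
      omega
  obtain ⟨g⟩ : Nonempty (Fin s × Fin s ↪ A) :=
    Function.Embedding.nonempty_of_card_le (by simpa using hA)
  let G : Fin s × Fin s ↪ β := g.trans (Function.Embedding.subtype _)
  have hG : ∀ q, G q ∈ A := fun q => (g q).2
  have l1 : ∀ j : Fin s, ∃ E O : Finset (Fin s), Disjoint E O ∧ E ≠ O ∧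
      ∀ t, ∑ i ∈ E, φ (G (j, i)) (tst t) = ∑ i ∈ O, φ (G (j, i)) (tst t) := fun j =>
    siegel s 1 (fun i t => φ (G (j, i)) (tst t)) (fun i t => h0 _ _)
      (fun i t => by simpa using h1 _ _) hs1
  choose E O hEO hne heq using l1
  have hE : ∀ j, (E j).Nonempty := by
    intro j
    by_contra hcon
    have e1 : E j = ∅ := not_nonempty_iff_eq_empty.1 hcon
    have := heq j t0
    simp only [ht0, e1, sum_const, nsmul_eq_mul, mul_one] at this
    have e2 : O j = ∅ := card_eq_zero.1 (by exact_mod_cast this.symm)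
    exact hne j (e1.trans e2.symm)
  obtain ⟨J1, J2, hJ, hJne, hJe⟩ := siegel s s
    (fun j t => ∑ i ∈ E j, φ (G (j, i)) (tst t)) (fun j t => sum_nonneg fun i _ => h0 _ _)
    (fun j t => by
      have b1 : ∑ i ∈ E j, φ (G (j, i)) (tst t) ≤ ∑ i ∈ E j, (1 : ℤ) :=
        sum_le_sum fun i _ => h1 _ _
      have b2 : (E j).card ≤ s := by simpa using card_le_univ (E j)
      simp only [sum_const, nsmul_eq_mul, mul_one] at b1
      have : ((E j).card : ℤ) ≤ s := by exact_mod_cast b2
      linarith) hs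
  let C : Finset (Fin s) → (Fin s → Finset (Fin s)) → Finset β := fun J F =>
    (univ.filter fun q : Fin s × Fin s => q.1 ∈ J ∧ q.2 ∈ F q.1).map G
  have hC : ∀ J F t, w φ (C J F) t = ∑ j ∈ J, ∑ i ∈ F j, φ (G (j, i)) t := by
    intro J F t
    simp only [w, C, sum_map, sum_filter, Fintype.sum_prod_type]
    rw [← sum_subset (subset_univ J) (fun j _ hj => by simp [hj])]
    refine sum_congr rfl fun j hj => ?_
    simp only [hj, true_and]
    rw [← sum_filter]
    simp
  have hdis : ∀ J F J' F', (∀ j i, j ∈ J → i ∈ F j → j ∈ J' → i ∈ F' j → False) →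
      Disjoint (C J F) (C J' F') := by
    intro J F J' F' h
    simp only [C]
    rw [disjoint_map, disjoint_filter]
    rintro ⟨j, i⟩ _ ⟨a, b⟩ ⟨c, d⟩
    exact h j i a b c d
  have d01 := hdis J1 E J1 O (fun j i _ b _ d => disjoint_left.1 (hEO j) b d)
  have d02 := hdis J1 E J2 E (fun j i a _ c _ => disjoint_left.1 hJ a c)
  have d12 := hdis J1 O J2 E (fun j i a _ c _ => disjoint_left.1 hJ a c)
  have h3 := Ach.three (φ := φ) ![C J1 E, C J1 O, C J2 E] (by
    intro i j hij
    fin_cases i <;> fin_cases j <;> simp_all [Disjoint.symm]) 1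
  refine ⟨_, ?_, ?_, _, h3, fun c t => ?_⟩
  · intro b hb
    simp only [mem_biUnion, mem_univ, true_and] at hb
    obtain ⟨i, hi⟩ := hb
    have : ∀ J F, b ∈ C J F → b ∈ A := by
      intro J F hb
      obtain ⟨q, -, rfl⟩ := mem_map.1 hb
      exact hG q
    fin_cases i <;> exact this _ _ hi
  · have : J1.Nonempty ∨ J2.Nonempty := by
      by_contra hcon
      push Not at hcon
      exact hJne (hcon.1.trans hcon.2.symm)
    rcases this with ⟨j, hj⟩ | ⟨j, hj⟩
    · obtain ⟨i, hi⟩ := hE j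
      refine ⟨G (j, i), mem_biUnion.2 ⟨0, mem_univ _, ?_⟩⟩
      simp [C, hj, hi]
    · obtain ⟨i, hi⟩ := hE j
      refine ⟨G (j, i), mem_biUnion.2 ⟨2, mem_univ _, ?_⟩⟩
      simp [C, hj, hi]
  · fin_cases c
    · rfl
    · simp [hC, heq]
    · simp [hC, hJe t]

theorem pack (h0 : ∀ b t, 0 ≤ φ b t) (h1 : ∀ b t, φ b t ≤ 1) (tst : κ' → κ) (t0 : κ')
    (ht0 : ∀ b, φ b (tst t0) = 1) (s : ℕ) (hs : (s * s + 1) ^ Fintype.card κ' < 2 ^ s)
    (A : Finset β) :
    ∃ A' ⊆ A, (A \ A').card ≤ s * s ∧ ∃ d, Ach φ A' d ∧ ∀ c t, d c (tst t) = d 0 (tst t) := by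
  induction A using Finset.strongInduction with
  | H A ih =>
    by_cases hA : s * s ≤ A.card
    · obtain ⟨B, hBA, hB, d, hd, hd0⟩ := exists_bal h0 h1 tst t0 ht0 s hs A hA
      obtain ⟨B', hB'A, hB', d', hd', hd0'⟩ := ih (A \ B) (sdiff_ssubset hBA hB)
      have hdis : Disjoint B B' := disjoint_of_subset_right hB'A disjoint_sdiff
      refine ⟨B ∪ B', union_subset hBA (hB'A.trans sdiff_subset), ?_, _, Ach.union hdis hd hd',
        fun c t => ?_⟩
      · have e : A \ (B ∪ B') = (A \ B) \ B' := by ext y; simp; tauto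
        rwa [e]
      · rw [hd0 c t, hd0' c t]
    · exact ⟨∅, empty_subset _, by simp; omega, _, Ach.empty, fun _ _ => rfl⟩

end Pack

section Gen

variable {X : Type} [Fintype X] [DecidableEq X]

/-- number of members of the pattern `S`, transported along `τ`, equal to `T`. -/
def mu {r : ℕ} (S : Finset (Finset (Fin r))) (τ : Fin r ↪ X) (T : Finset X) : ℤ :=
  ∑ e ∈ S, if e.map τ = T then 1 else 0

theorem gen_step {ι κ : Type} [Fintype ι] [DecidableEq ι] (F : Finset κ) (Q : ι → κ → ℤ)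
    (P : (κ → ℤ) → Prop) (hP : ∀ d τ, P d → P (fun t => d t - Q τ t))
    (hstep : ∀ d, P d → (∃ t ∈ F, d t ≠ 0) → ∃ τ, ∑ t ∈ F, |d t - Q τ t| < ∑ t ∈ F, |d t|)
    (n : ℕ) (d : κ → ℤ) (hd : P d) (hn : ∑ t ∈ F, |d t| ≤ n) :
    ∃ x : ι → ℤ, (∀ τ, |x τ| ≤ n) ∧ ∀ t ∈ F, ∑ τ, x τ * Q τ t = d t := by
  induction n generalizing d with
  | zero =>
    refine ⟨fun _ => 0, by simp, fun t ht => ?_⟩
    have := single_le_sum (f := fun t => |d t|) (fun t _ => abs_nonneg _) ht
    have h2 : |d t| ≤ 0 := by push_cast at hn; linarith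
    simp [abs_nonpos_iff.1 h2]
  | succ n ih =>
    by_cases h : ∃ t ∈ F, d t ≠ 0
    · obtain ⟨τ, hτ⟩ := hstep d hd h
      obtain ⟨x, hx, hx2⟩ := ih _ (hP d τ hd) (by push_cast at hn ⊢; linarith)
      refine ⟨fun σ => x σ + if σ = τ then 1 else 0, fun σ => ?_, fun t ht => ?_⟩
      · have := abs_le.1 (hx σ)
        rw [abs_le]
        beta_reduce
        split_ifs <;> push_cast <;> constructor <;> linarith
      · simp only [add_mul, sum_add_distrib, hx2 t ht]
        simp
    · push Not at h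
      exact ⟨fun _ => 0, fun _ => by simp only [abs_zero]; positivity, fun t ht => by simp [h t ht]⟩

/-- level one pattern. -/
def mat1 : Fin 3 → Finset (Finset (Fin 3)) := fun i => {{i}}

/-- level two pattern: the perfect matchings of a four point set. -/
def mat2 : Fin 3 → Finset (Finset (Fin 4)) :=
  ![{{0, 2}, {1, 3}}, {{0, 3}, {1, 2}}, {{0, 1}, {2, 3}}]

omit [Fintype X] [DecidableEq X] in
theorem emb3 (a b c : X) (h1 : a ≠ b) (h2 : a ≠ c) (h3 : b ≠ c) :
    ∃ τ : Fin 3 ↪ X, τ 0 = a ∧ τ 1 = b ∧ τ 2 = c := by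
  refine ⟨⟨![a, b, c], ?_⟩, rfl, rfl, rfl⟩
  intro i j hij
  fin_cases i <;> fin_cases j <;> simp_all [eq_comm]

omit [Fintype X] [DecidableEq X] in
theorem emb4 (a b c d : X) (h1 : a ≠ b) (h2 : a ≠ c) (h3 : a ≠ d) (h4 : b ≠ c) (h5 : b ≠ d)
    (h6 : c ≠ d) : ∃ τ : Fin 4 ↪ X, τ 0 = a ∧ τ 1 = b ∧ τ 2 = c ∧ τ 3 = d := by
  refine ⟨⟨![a, b, c, d], ?_⟩, rfl, rfl, rfl, rfl⟩
  intro i j hij
  fin_cases i <;> fin_cases j <;> simp_all [eq_comm]

theorem gen1 (h3 : 3 ≤ Fintype.card X) (n : ℕ) (e : X → ℤ) (he : ∑ p, e p = 0)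
    (hn : ∑ p, |e p| ≤ n) :
    ∃ x : (Fin 3 ↪ X) → ℤ, (∀ τ, |x τ| ≤ n) ∧
      ∀ p, ∑ τ, x τ * (mu (mat1 0) τ {p} - mu (mat1 1) τ {p}) = e p := by
  have hQ : ∀ (τ : Fin 3 ↪ X) p, mu (mat1 0) τ {p} - mu (mat1 1) τ {p} =
      (if τ 0 = p then 1 else 0) - (if τ 1 = p then 1 else 0) := by
    intro τ p
    simp only [mu, mat1, sum_singleton, map_singleton, singleton_inj]
  obtain ⟨x, hx, hx2⟩ := gen_step (univ : Finset X)
    (fun (τ : Fin 3 ↪ X) p => mu (mat1 0) τ {p} - mu (mat1 1) τ {p}) (fun e => ∑ p, e p = 0)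
    (by
      intro d τ hd
      simp only [hQ, sum_sub_distrib, hd]
      simp)
    (by
      rintro d hd ⟨t, -, ht⟩
      have hp : ∃ a, 0 < d a := by
        by_contra hc
        push Not at hc
        exact ht ((sum_eq_zero_iff_of_nonpos (fun a _ => hc a)).1 hd t (mem_univ _))
      have hm : ∃ a, d a < 0 := by
        by_contra hc
        push Not at hc
        exact ht ((sum_eq_zero_iff_of_nonneg (fun a _ => hc a)).1 hd t (mem_univ _))
      obtain ⟨a, ha⟩ := hp
      obtain ⟨b, hb⟩ := hm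
      have hab : a ≠ b := by rintro rfl; omega
      have : ∃ c, c ∉ ({a, b} : Finset X) := by
        by_contra hc
        push Not at hc
        have := card_le_card (show (univ : Finset X) ⊆ {a, b} from fun y _ => hc y)
        have := card_le_two (a := a) (b := b)
        rw [card_univ] at *
        omega
      obtain ⟨c, hc⟩ := this
      simp only [mem_insert, mem_singleton, not_or] at hc
      obtain ⟨τ, e0, e1, -⟩ := emb3 a b c hab (Ne.symm hc.1) (Ne.symm hc.2)
      refine ⟨τ, ?_⟩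
      simp only [hQ, e0, e1]
      refine sum_lt_sum (fun p _ => ?_) ⟨a, mem_univ _, ?_⟩
      · by_cases h1 : a = p <;> by_cases h2 : b = p
        · exact absurd (h1.trans h2.symm) hab
        · subst h1
          simp only [if_true, h2, if_false]
          rw [abs_of_pos ha, abs_of_nonneg (by omega)]; omega
        · subst h2
          simp only [if_true, h1, if_false]
          rw [abs_of_neg hb, abs_of_nonpos (by omega)]; omega
        · simp [h1, h2]
      · simp only [if_true, hab.symm, if_false]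
        rw [abs_of_pos ha, abs_of_nonneg (by omega)]; omega)
    n e he hn
  exact ⟨x, hx, fun p => hx2 p (mem_univ _)⟩

theorem deg_pair (T : Finset X) (hT : T.card = 2) (p : X) :
    ∑ q ∈ univ.erase p, (if T = {p, q} then (1 : ℤ) else 0) = if p ∈ T then 1 else 0 := by
  by_cases hp : p ∈ T
  · obtain ⟨a, b, hab, rfl⟩ := card_eq_two.1 hT
    have : ∃ y, y ≠ p ∧ ({a, b} : Finset X) = {p, y} := by
      simp only [mem_insert, mem_singleton] at hp
      rcases hp with rfl | rfl
      · exact ⟨b, hab.symm, rfl⟩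
      · exact ⟨a, hab, pair_comm _ _⟩
    obtain ⟨y, hy, e⟩ := this
    rw [if_pos hp, e, sum_eq_single y]
    · simp
    · intro q hq hqy
      rw [if_neg]
      intro h
      have : q ∈ ({p, y} : Finset X) := by rw [h]; simp
      simp only [mem_insert, mem_singleton, mem_erase] at this hq
      tauto
    · intro h
      exact absurd (by simp [hy]) h
  · rw [if_neg hp]
    refine sum_eq_zero fun q _ => if_neg ?_
    rintro rfl
    simp at hp

omit [Fintype X] in
theorem four_dec (F : Finset (Finset X)) (d : Finset X → ℤ) (T1 T2 T3 T4 : Finset X)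
    (m1 : T1 ∈ F) (m2 : T2 ∈ F) (m3 : T3 ∈ F) (m4 : T4 ∈ F)
    (h12 : T1 ≠ T2) (h13 : T1 ≠ T3) (h14 : T1 ≠ T4) (h23 : T2 ≠ T3) (h24 : T2 ≠ T4)
    (h34 : T3 ≠ T4)
    (hs : 0 < d T1 ∧ d T3 < 0 ∧ (0 < d T2 ∨ d T4 < 0)) :
    ∑ t ∈ F, |d t - (((if T1 = t then 1 else 0) + (if T2 = t then 1 else 0)) -
      ((if T3 = t then 1 else 0) + (if T4 = t then 1 else 0)))| < ∑ t ∈ F, |d t| := by
  obtain ⟨s1, s3, s24⟩ := hs
  have key : ∀ e2 e4 : ℤ, e2 + e4 = 0 → |d T2 - 1| ≤ |d T2| + e2 → |d T4 + 1| ≤ |d T4| + e4 →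
      ∑ t ∈ F, |d t - (((if T1 = t then 1 else 0) + (if T2 = t then 1 else 0)) -
      ((if T3 = t then 1 else 0) + (if T4 = t then 1 else 0)))| < ∑ t ∈ F, |d t| := by
    intro e2 e4 he a2 a4
    have b : ∀ t ∈ F, |d t - (((if T1 = t then 1 else 0) + (if T2 = t then 1 else 0)) -
      ((if T3 = t then 1 else 0) + (if T4 = t then 1 else 0)))| ≤ |d t| +
        ((if T1 = t then -1 else 0) + (if T2 = t then e2 else 0) + (if T3 = t then -1 else 0) +
          (if T4 = t then e4 else 0)) := by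
      intro t _
      by_cases c1 : T1 = t
      · subst c1
        simp only [if_true, h12.symm, h13.symm, h14.symm, if_false]
        rw [abs_of_pos s1, abs_of_nonneg (by omega)]; omega
      by_cases c2 : T2 = t
      · subst c2
        simpa [h12, h23.symm, h24.symm] using a2
      by_cases c3 : T3 = t
      · subst c3
        simp only [if_true, h13, h23, h34.symm, if_false]
        rw [abs_of_neg s3, abs_of_nonpos (by omega)]; omega
      by_cases c4 : T4 = t
      · subst c4
        simpa [h14, h24, h34] using a4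
      simp [c1, c2, c3, c4]
    have := sum_le_sum b
    simp only [sum_add_distrib, sum_ite_eq, m1, m2, m3, m4, if_true] at this
    linarith
  rcases s24 with h | h
  · refine key (-1) 1 (by ring) ?_ ?_
    · rw [abs_of_pos h, abs_of_nonneg (by omega)]; omega
    · simpa using abs_add_le (d T4) 1
  · refine key 1 (-1) (by ring) ?_ ?_
    · simpa using abs_sub (d T2) 1
    · rw [abs_of_neg h, abs_of_nonpos (by omega)]; omega

theorem gen2 (n : ℕ) (d : Finset X → ℤ) (hd : ∀ p, ∑ q ∈ univ.erase p, d {p, q} = 0)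
    (hn : ∑ T ∈ powersetCard 2 univ, |d T| ≤ n) :
    ∃ x : (Fin 4 ↪ X) → ℤ, (∀ τ, |x τ| ≤ n) ∧
      ∀ T, T.card = 2 → ∑ τ, x τ * (mu (mat2 0) τ T - mu (mat2 1) τ T) = d T := by
  have hQ : ∀ (τ : Fin 4 ↪ X) T, mu (mat2 0) τ T - mu (mat2 1) τ T =
      ((if ({0, 2} : Finset (Fin 4)).map τ = T then 1 else 0) +
        (if ({1, 3} : Finset (Fin 4)).map τ = T then 1 else 0)) -
      ((if ({0, 3} : Finset (Fin 4)).map τ = T then 1 else 0) +
        (if ({1, 2} : Finset (Fin 4)).map τ = T then 1 else 0)) := by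
    intro τ T
    simp only [mu, mat2, Matrix.cons_val_zero, Matrix.cons_val_one]
    rw [sum_pair (by decide), sum_pair (by decide)]
  have sg : ∀ (d : Finset X → ℤ), (∀ p, ∑ q ∈ univ.erase p, d {p, q} = 0) → ∀ a c, a ≠ c →
      (0 < d {a, c} → ∃ e, e ≠ a ∧ d {a, e} < 0) ∧ (d {a, c} < 0 → ∃ e, e ≠ a ∧ 0 < d {a, e}) := by
    intro d hd a c hac
    have hc : c ∈ univ.erase a := by simp [hac.symm]
    constructor
    · intro h
      by_contra hcon
      push Not at hcon
      have := (sum_eq_zero_iff_of_nonneg (fun q hq => hcon q (mem_erase.1 hq).1)).1 (hd a) c hc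
      omega
    · intro h
      by_contra hcon
      push Not at hcon
      have := (sum_eq_zero_iff_of_nonpos (fun q hq => hcon q (mem_erase.1 hq).1)).1 (hd a) c hc
      omega
  obtain ⟨x, hx, hx2⟩ := gen_step (powersetCard 2 (univ : Finset X))
    (fun (τ : Fin 4 ↪ X) T => mu (mat2 0) τ T - mu (mat2 1) τ T)
    (fun d => ∀ p, ∑ q ∈ univ.erase p, d {p, q} = 0)
    (by
      intro d τ hd p
      simp only [hQ, sum_sub_distrib, sum_add_distrib, hd p]
      rw [deg_pair _ (by rw [card_map]; rfl), deg_pair _ (by rw [card_map]; rfl),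
        deg_pair _ (by rw [card_map]; rfl), deg_pair _ (by rw [card_map]; rfl)]
      by_cases hp : ∃ i, τ i = p
      · obtain ⟨i, rfl⟩ := hp
        simp only [mem_map']
        fin_cases i <;> simp
      · push Not at hp
        have hp' : ∀ i, p ≠ τ i := fun i => (hp i).symm
        simp [hp'])
    (by
      rintro d hd ⟨t, ht, ht0⟩
      obtain ⟨a0, c0, hac0, rfl⟩ := card_eq_two.1 (mem_powersetCard.1 ht).2
      have hp : ∃ a c, a ≠ c ∧ 0 < d {a, c} := by
        rcases lt_or_gt_of_ne ht0 with h | h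
        · obtain ⟨e, he, he'⟩ := (sg d hd a0 c0 hac0).2 h
          exact ⟨a0, e, he.symm, he'⟩
        · exact ⟨a0, c0, hac0, h⟩
      obtain ⟨a, c, hac, hpos⟩ := hp
      obtain ⟨e, hea, he⟩ := (sg d hd a c hac).1 hpos
      obtain ⟨b, hbc, hb⟩ := (sg d hd c a hac.symm).1 (by rwa [pair_comm])
      have hec : e ≠ c := by rintro rfl; omega
      have hba : b ≠ a := by rintro rfl; rw [pair_comm] at hb; omega
      have fin : ∀ y, y ≠ a → y ≠ c → y ≠ e → (0 < d {y, e} ∨ d {y, c} < 0) →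
          ∃ τ : Fin 4 ↪ X, ∑ t ∈ powersetCard 2 univ, |d t - (mu (mat2 0) τ t - mu (mat2 1) τ t)| <
            ∑ t ∈ powersetCard 2 univ, |d t| := by
        intro y hya hyc hye hy
        obtain ⟨τ, e0, e1, e2, e3⟩ := emb4 a y c e hya.symm hac hea.symm hyc hye hec.symm
        refine ⟨τ, ?_⟩
        simp only [hQ]
        have hm : ∀ S : Finset (Fin 4), S.card = 2 → S.map τ ∈ powersetCard 2 (univ : Finset X) :=
          fun S hS => mem_powersetCard.2 ⟨subset_univ _, by rw [card_map, hS]⟩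
        refine four_dec _ d _ _ _ _ (hm _ (by decide)) (hm _ (by decide)) (hm _ (by decide))
          (hm _ (by decide))
          (fun h => absurd (map_injective _ h) (by decide))
          (fun h => absurd (map_injective _ h) (by decide))
          (fun h => absurd (map_injective _ h) (by decide))
          (fun h => absurd (map_injective _ h) (by decide))
          (fun h => absurd (map_injective _ h) (by decide))
          (fun h => absurd (map_injective _ h) (by decide)) ?_
        simp only [map_insert, map_singleton, e0, e1, e2, e3]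
        exact ⟨hpos, he, hy⟩
      by_cases hbe : b = e
      · subst hbe
        obtain ⟨y, hyb, hy⟩ := (sg d hd b a hba).2 (by rwa [pair_comm])
        refine fin y ?_ ?_ hyb (Or.inl (by rwa [pair_comm]))
        · rintro rfl; rw [pair_comm] at hy; omega
        · rintro rfl; rw [pair_comm] at hy; omega
      · exact fin b hba hbc hbe (Or.inr (by rwa [pair_comm])))
    n d hd hn
  exact ⟨x, hx, fun T hT => hx2 T (by simp [hT])⟩

end Gen

end Pool.Agent.H35.Ls
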