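import Mathlib
import Pool.Agent.H35.LsB

set_option autoImplicit false

open Finset

namespace Pool.Agent.H35.Ls

variable {X : Type} [Fintype X] [DecidableEq X]

/-- incidence of a test set in a block. -/
def ph (B T : Finset X) : ℤ := if T ⊆ B then 1 else 0

omit [Fintype X] in
theorem ph0 (B T : Finset X) : 0 ≤ ph B T := by unfold ph; split_ifs <;> simp

omit [Fintype X] in
theorem ph1 (B T : Finset X) : ph B T ≤ 1 := by unfold ph; split_ifs <;> simp

theorem pieces {r l k m : ℕ} (mat : Fin 3 → Finset (Finset (Fin r)))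
    (hcard : ∀ i, ∀ e ∈ mat i, e.card = l) (hdisj : ∀ i j, i ≠ j → Disjoint (mat i) (mat j))
    (hbal : ∀ J : Finset (Fin r), J.card < l → ∀ i,
      ((mat i).filter (J ⊆ ·)).card = ((mat 0).filter (J ⊆ ·)).card)
    (hl : l ≤ k) (U0 : Finset (Finset X))
    (hbig : U0.card + 2 ^ r * (Fintype.card X ^ r * (3 * m)) < (Fintype.card X - r).choose (k - l)) :
    ∃ R : Finset (Finset X), R ⊆ powersetCard k univ ∧ Disjoint R U0 ∧
      R.card ≤ 3 * (2 ^ r * (Fintype.card X ^ r * (3 * m))) ∧
      ∀ x : (Fin r ↪ X) → Fin 3 → ℤ, (∀ τ, x τ 0 + x τ 1 + x τ 2 = 0) → (∀ τ c, 2 * |x τ c| ≤ m) →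
        ∃ (d : Fin 3 → Finset X → ℤ) (base : Finset X → ℤ), Ach ph R d ∧ ∀ c T, T.card ≤ l →
          d c T = base T + ∑ τ, x τ c * (mu (mat 0) τ T - mu (mat 1) τ T) := by
  have hI : Fintype.card ((Fin r ↪ X) × Fin 3 × Fin m) ≤ Fintype.card X ^ r * (3 * m) := by
    simp only [Fintype.card_prod, Fintype.card_embedding_eq, Fintype.card_fin]
    exact Nat.mul_le_mul_right _ (Nat.descFactorial_le_pow _ _)
  have hrec : ∀ (τ : Fin r ↪ X) (Z : Finset X), Z ⊆ univ \ univ.map τ → ∀ e : Finset (Fin r),
      (e.map τ ∪ Z) \ univ.map τ = Z ∧ (e.map τ ∪ Z) ∩ univ.map τ = e.map τ ∧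
        Disjoint (e.map τ) Z := by
    intro τ Z hZ e
    have h1 : ∀ y ∈ Z, y ∉ univ.map τ := fun y hy => (mem_sdiff.1 (hZ hy)).2
    have h2 : ∀ y ∈ e.map τ, y ∈ univ.map τ := fun y hy => map_subset_map.2 (subset_univ e) hy
    refine ⟨?_, ?_, disjoint_left.2 fun y a b => h1 y b (h2 y a)⟩
    · ext y
      have := h1 y
      have := h2 y
      simp only [mem_sdiff, mem_union]
      tauto
    · ext y
      have := h1 y
      have := h2 y
      simp only [mem_inter, mem_union]
      tauto
  obtain ⟨Z, hZ, hZU, hZd⟩ := greedy (I := (Fin r ↪ X) × Fin 3 × Fin m)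
    (fun p => powersetCard (k - l) (univ \ univ.map p.1))
    (fun p Z => univ.image fun e : Finset (Fin r) => e.map p.1 ∪ Z) (2 ^ r) U0
    (fun p Z => card_image_le.trans (by simp))
    (by
      intro p z hz z' hz' b hb hb'
      obtain ⟨e, -, rfl⟩ := mem_image.1 hb
      obtain ⟨e', -, he'⟩ := mem_image.1 hb'
      rw [← (hrec p.1 z (mem_powersetCard.1 hz).1 e).1, ← he',
        (hrec p.1 z' (mem_powersetCard.1 hz').1 e').1])
    (by
      intro p
      rw [card_powersetCard, card_univ_sdiff, card_map, card_univ, Fintype.card_fin]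
      have := Nat.mul_le_mul_left (2 ^ r) hI
      omega)
  have hZs : ∀ p, Z p ⊆ univ \ univ.map p.1 := fun p => (mem_powersetCard.1 (hZ p)).1
  have hinj : ∀ p, Function.Injective fun e : Finset (Fin r) => e.map p.1 ∪ Z p := by
    intro p e e' h
    have h' : e.map p.1 ∪ Z p = e'.map p.1 ∪ Z p := h
    apply map_injective p.1
    rw [← (hrec p.1 _ (hZs p) e).2.1, h', (hrec p.1 _ (hZs p) e').2.1]
  let M : (Fin r ↪ X) × Fin 3 × Fin m → Fin 3 → Finset (Finset X) :=
    fun p i => (mat i).image fun e => e.map p.1 ∪ Z p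
  have hM : ∀ p i, M p i ⊆ univ.image fun e : Finset (Fin r) => e.map p.1 ∪ Z p :=
    fun p i => image_subset_image (subset_univ _)
  have hMd : ∀ p i p' i', (p, i) ≠ (p', i') → Disjoint (M p i) (M p' i') := by
    intro p i p' i' hne
    by_cases hp : p = p'
    · subst hp
      have hi : i ≠ i' := fun e => hne (by rw [e])
      exact (disjoint_image (hinj p)).2 (hdisj i i' hi)
    · exact disjoint_of_subset_left (hM p i) (disjoint_of_subset_right (hM p' i') (hZd p p' hp))
  refine ⟨univ.biUnion fun p => univ.biUnion (M p), ?_, ?_, ?_, fun x hx hb => ?_⟩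
  · intro b hb
    simp only [mem_biUnion, mem_univ, true_and, M, mem_image] at hb
    obtain ⟨p, i, e, he, rfl⟩ := hb
    refine mem_powersetCard.2 ⟨subset_univ _, ?_⟩
    rw [card_union_of_disjoint (hrec p.1 _ (hZs p) e).2.2, card_map, hcard i e he,
      (mem_powersetCard.1 (hZ p)).2]
    omega
  · rw [disjoint_biUnion_left]
    intro p _
    rw [disjoint_biUnion_left]
    intro i _
    exact disjoint_of_subset_left (hM p i) (hZU p)
  · have b1 : ∀ p, (univ.biUnion (M p)).card ≤ 3 * 2 ^ r := by
      intro p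
      have := card_biUnion_le_card_mul univ (M p) (2 ^ r)
        (fun i _ => (card_le_card (hM p i)).trans (card_image_le.trans (by simp)))
      simpa using this
    have b2 := card_biUnion_le_card_mul univ (fun p => univ.biUnion (M p)) _ (fun p _ => b1 p)
    rw [card_univ] at b2
    have b3 := Nat.mul_le_mul_right (3 * 2 ^ r) hI
    calc _ ≤ _ := b2
      _ ≤ _ := b3
      _ = _ := by ring
  · refine fix m M hMd (fun T => T.card ≤ l) (fun τ i T => mu (mat i) τ T) ?_ x hx hb
    intro p i T hT
    have hw : ∀ i, w ph (M p i) T = ∑ e ∈ mat i, ph (e.map p.1 ∪ Z p) T := by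
      intro i
      simp only [w, M]
      rw [sum_image fun a _ b _ h => hinj p h]
    let J : Finset (Fin r) := univ.filter fun a => p.1 a ∈ T
    have hJ : J.map p.1 ⊆ T := by
      intro y hy
      obtain ⟨a, ha, rfl⟩ := mem_map.1 hy
      exact (mem_filter.1 ha).2
    have hsub : ∀ e : Finset (Fin r), T ⊆ e.map p.1 ∪ Z p ↔
        J ⊆ e ∧ T \ univ.map p.1 ⊆ Z p := by
      intro e
      constructor
      · intro h
        constructor
        · intro a ha
          rcases mem_union.1 (h (mem_filter.1 ha).2) with h' | h'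
          · simpa using h'
          · exact absurd (mem_map_of_mem _ (mem_univ a)) (mem_sdiff.1 (hZs p h')).2
        · intro y hy
          rcases mem_union.1 (h (mem_sdiff.1 hy).1) with h' | h'
          · exact absurd (map_subset_map.2 (subset_univ e) h') (mem_sdiff.1 hy).2
          · exact h'
      · rintro ⟨h1, h2⟩ y hy
        by_cases hy' : y ∈ univ.map p.1
        · obtain ⟨a, -, rfl⟩ := mem_map.1 hy'
          exact mem_union_left _ (mem_map_of_mem _ (h1 (mem_filter.2 ⟨mem_univ _, hy⟩)))
        · exact mem_union_right _ (h2 (mem_sdiff.2 ⟨hy, hy'⟩))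
    have hTe : ∀ e : Finset (Fin r), e.map p.1 = T → J = e := by
      intro e he
      ext a
      simp [J, ← he]
    by_cases hc : J.card < l
    · have z : ∀ i, mu (mat i) p.1 T = 0 := by
        intro i
        refine sum_eq_zero fun e he => if_neg fun h => ?_
        have := hcard i e he
        rw [← hTe e h] at this
        omega
      have y : ∀ i, w ph (M p i) T = if T \ univ.map p.1 ⊆ Z p then
          (((mat i).filter (J ⊆ ·)).card : ℤ) else 0 := by
        intro i
        rw [hw]
        simp only [ph, hsub]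
        split_ifs with h
        · simp [h]
        · simp [h]
      simp only [z, y, hbal J hc i]
    · have hTJ : J.map p.1 = T := eq_of_subset_of_card_le hJ (by rw [card_map]; omega)
      have hJl : J.card = l := by
        have := card_le_card hJ
        rw [card_map] at this
        omega
      have y : ∀ i, w ph (M p i) T = mu (mat i) p.1 T := by
        intro i
        rw [hw, mu]
        refine sum_congr rfl fun e he => ?_
        simp only [ph, hsub]
        refine if_congr ⟨fun h => ?_, fun h => ?_⟩ rfl rfl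
        · rw [← hTJ, eq_of_subset_of_card_le h.1 (by rw [hcard i e he, hJl])]
        · refine ⟨(hTe e h).subset, ?_⟩
          rw [← h, sdiff_eq_empty_iff_subset.2 (map_subset_map.2 (subset_univ e))]
          exact empty_subset _
      simp only [y, sub_self]

theorem rel1 (k : ℕ) (B : Finset X) (hB : B.card = k) :
    ∑ p ∈ (univ : Finset X), ph B {p} = (k : ℤ) * ph B ∅ := by
  simp [ph, hB]

theorem rel2 (k : ℕ) (p : X) (B : Finset X) (hB : B.card = k) :
    ∑ q ∈ univ.erase p, ph B {p, q} = ((k : ℤ) - 1) * ph B {p} := by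
  by_cases hp : p ∈ B
  · have e : ∀ q, ({p, q} : Finset X) ⊆ B ↔ q ∈ B := by
      intro q
      simp [insert_subset_iff, hp]
    simp only [ph, e, singleton_subset_iff, hp, if_true, mul_one]
    have := add_sum_erase univ (fun q => if q ∈ B then (1 : ℤ) else 0) (mem_univ p)
    simp only [hp, if_true] at this
    have h2 : ∑ q : X, (if q ∈ B then (1 : ℤ) else 0) = k := by simp [hB]
    linarith
  · simp [ph, insert_subset_iff, hp]

omit [Fintype X] in
theorem tests (T : Finset X) (hT : T.card ≤ 2) :
    ∃ t : Option X × Option X, t.1.toFinset ∪ t.2.toFinset = T := by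
  have : T.card = 0 ∨ T.card = 1 ∨ T.card = 2 := by omega
  rcases this with h | h | h
  · exact ⟨(none, none), by simp [card_eq_zero.1 h]⟩
  · obtain ⟨a, rfl⟩ := card_eq_one.1 h
    exact ⟨(some a, none), by simp⟩
  · obtain ⟨a, b, -, rfl⟩ := card_eq_two.1 h
    exact ⟨(some a, some b), by ext y; simp⟩

theorem w_all (k : ℕ) (T : Finset X) (hT : T.card ≤ k) :
    w ph (powersetCard k (univ : Finset X)) T =
      ((Fintype.card X - T.card).choose (k - T.card) : ℕ) := by
  have : w ph (powersetCard k (univ : Finset X)) T =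
      (((powersetCard k (univ : Finset X)).filter (T ⊆ ·)).card : ℕ) := by
    simp [w, ph]
  rw [this, ← card_univ_sdiff, ← card_powersetCard]
  congr 1
  refine card_nbij' (fun B => B \ T) (fun B => B ∪ T) ?_ ?_ ?_ ?_
  · intro B hB
    simp only [coe_filter, mem_powersetCard, Set.mem_ofPred_eq, mem_coe] at hB ⊢
    exact ⟨sdiff_subset_sdiff (subset_univ _) (subset_refl _), by
      rw [card_sdiff_of_subset hB.2, hB.1.2]⟩
  · intro B hB
    simp only [coe_filter, mem_powersetCard, Set.mem_ofPred_eq, mem_coe] at hB ⊢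
    have hd : Disjoint B T := disjoint_left.2 fun y hy => (mem_sdiff.1 (hB.1 hy)).2
    refine ⟨⟨subset_univ _, ?_⟩, subset_union_right⟩
    rw [card_union_of_disjoint hd, hB.2]
    omega
  · intro B hB
    simp only [coe_filter, mem_powersetCard, Set.mem_ofPred_eq] at hB
    exact sdiff_union_of_subset hB.2
  · intro B hB
    simp only [mem_powersetCard, mem_coe] at hB
    have hd : Disjoint B T := disjoint_left.2 fun y hy => (mem_sdiff.1 (hB.1 hy)).2
    exact union_sdiff_cancel_right hd

end Pool.Agent.H35.Ls
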