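import Mathlib
import Pool.Agent.H35.LsC

set_option autoImplicit false

open Finset

namespace Pool.Agent.H35.Ls

variable {X : Type} [Fintype X] [DecidableEq X]

theorem three_x {ι : Type} (x1 x2 : ι → ℤ) (n : ℕ) (h1 : ∀ τ, |x1 τ| ≤ n) (h2 : ∀ τ, |x2 τ| ≤ n) :
    ∃ x : ι → Fin 3 → ℤ, (∀ τ, x τ 0 + x τ 1 + x τ 2 = 0) ∧ (∀ τ c, 2 * |x τ c| ≤ (4 * n : ℕ)) ∧
      (∀ τ, x τ 1 = x1 τ) ∧ (∀ τ, x τ 2 = x2 τ) ∧ ∀ τ, x τ 0 = -x1 τ - x2 τ := by
  refine ⟨fun τ => ![-x1 τ - x2 τ, x1 τ, x2 τ], fun τ => by simp; ring, fun τ c => ?_, fun τ => rfl,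
    fun τ => rfl, fun τ => rfl⟩
  have a := abs_le.1 (h1 τ)
  have b := abs_le.1 (h2 τ)
  have : ∀ y : ℤ, -(2 * n) ≤ y → y ≤ 2 * n → 2 * |y| ≤ (4 * n : ℕ) := by
    intro y p q
    have := abs_le.2 ⟨p, q⟩
    push_cast
    linarith
  fin_cases c <;> refine this _ ?_ ?_ <;> simp <;> omega

theorem large (k s : ℕ) (hk : 2 ≤ k) (hv : 3 ≤ Fintype.card X)
    (hs : (s * s + 1) ^ ((Fintype.card X + 1) * (Fintype.card X + 1)) < 2 ^ s)
    (m1 r1 m2 : ℕ) (hm1 : m1 = 4 * (Fintype.card X * (s * s)))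
    (hr1 : r1 = 3 * (2 ^ 3 * (Fintype.card X ^ 3 * (3 * m1))))
    (hm2 : m2 = 4 * (Fintype.card X ^ 2 * (s * s + r1)))
    (hb1 : r1 < (Fintype.card X - 3).choose (k - 1))
    (hb2 : r1 + 2 ^ 4 * (Fintype.card X ^ 4 * (3 * m2)) < (Fintype.card X - 4).choose (k - 2))
    (hdiv : ∀ i ≤ 2, 3 ∣ (Fintype.card X - i).choose (k - i)) :
    ∃ d, Ach ph (powersetCard k (univ : Finset X)) d ∧ ∀ c T, T.card = 2 →
      3 * d c T = ((Fintype.card X - 2).choose (k - 2) : ℕ) := by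
  obtain ⟨R1, hR1, -, hR1c, hR1x⟩ := pieces (X := X) (l := 1) (k := k) (m := m1) mat1
    (by decide) (by decide) (by decide) (by omega) ∅ (by simp only [card_empty]; omega)
  rw [← hr1] at hR1c
  obtain ⟨R2, hR2, hR12, -, hR2x⟩ := pieces (X := X) (l := 2) (k := k) (m := m2) mat2
    (by decide) (by decide) (by decide) hk R1 (by omega)
  obtain ⟨A, hA, hL, dA, hdA, hdA0⟩ := pack (φ := ph (X := X)) ph0 ph1
    (fun t : Option X × Option X => t.1.toFinset ∪ t.2.toFinset) (none, none)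
    (fun b => by simp [ph]) s (by simpa using hs) (powersetCard k univ \ (R1 ∪ R2))
  have hdA1 : ∀ c T, T.card ≤ 2 → dA c T = dA 0 T := by
    intro c T hT
    obtain ⟨t, rfl⟩ := tests T hT
    exact hdA0 c t
  set L := (powersetCard k univ \ (R1 ∪ R2)) \ A with hLdef
  have hLk : ∀ b ∈ L, b.card = k := fun b hb =>
    (mem_powersetCard.1 (mem_sdiff.1 (mem_sdiff.1 hb).1).1).2
  have hR1k : ∀ b ∈ R1, b.card = k := fun b hb => (mem_powersetCard.1 (hR1 hb)).2
  have dL1 : Disjoint L R1 := disjoint_left.2 fun b hb h =>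
    (mem_sdiff.1 (mem_sdiff.1 hb).1).2 (mem_union_left _ h)
  have dL2 : Disjoint (L ∪ R1) R2 := by
    rw [disjoint_union_left]
    exact ⟨disjoint_left.2 fun b hb h => (mem_sdiff.1 (mem_sdiff.1 hb).1).2 (mem_union_right _ h),
      hR12.symm⟩
  have dL3 : Disjoint (L ∪ R1 ∪ R2) A := by
    rw [union_assoc, disjoint_union_left]
    exact ⟨sdiff_disjoint, disjoint_of_subset_right hA disjoint_sdiff⟩
  have hall : L ∪ R1 ∪ R2 ∪ A = powersetCard k univ := by
    ext b
    have a1 := @hA b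
    have a2 := @hR1 b
    have a3 := @hR2 b
    simp only [hLdef, mem_union, mem_sdiff] at a1 ⊢
    tauto
  have hw : ∀ T, w ph L T + w ph R1 T + w ph R2 T + w ph A T =
      w ph (powersetCard k (univ : Finset X)) T := by
    intro T
    rw [← hall, w_union dL3, w_union dL2, w_union dL1]
  have v0 : ∀ T : Finset X, T.card ≤ 2 → (3 : ℤ) ∣ w ph (powersetCard k (univ : Finset X)) T := by
    intro T hT
    rw [w_all k T (by omega)]
    exact_mod_cast hdiv _ hT
  have vA : ∀ T : Finset X, T.card ≤ 2 → (3 : ℤ) ∣ w ph A T := by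
    intro T hT
    rw [← hdA.total, hdA1 1 T hT, hdA1 2 T hT]
    omega
  have v1 : ∀ T : Finset X, T.card ≤ 1 → (3 : ℤ) ∣ w ph R1 T := by
    intro T hT
    obtain ⟨d, base, hd, hb⟩ := hR1x (fun _ _ => 0) (by simp) (by simp)
    rw [← hd.total, hb 0 T hT, hb 1 T hT, hb 2 T hT]
    simp only [zero_mul, sum_const_zero]
    omega
  have v2 : ∀ T : Finset X, T.card ≤ 2 → (3 : ℤ) ∣ w ph R2 T := by
    intro T hT
    obtain ⟨d, base, hd, hb⟩ := hR2x (fun _ _ => 0) (by simp) (by simp)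
    rw [← hd.total, hb 0 T hT, hb 1 T hT, hb 2 T hT]
    simp only [zero_mul, sum_const_zero]
    omega
  have vL : ∀ T : Finset X, T.card ≤ 1 → (3 : ℤ) ∣ w ph L T := by
    intro T hT
    have := hw T
    have := v0 T (by omega)
    have := vA T (by omega)
    have := v1 T hT
    have := v2 T (by omega)
    omega
  -- level zero
  have hLc : w ph L ∅ = L.card := by simp [w, ph]
  obtain ⟨n0, hn0⟩ : 3 ∣ L.card := by
    have := vL ∅ (by simp)
    rw [hLc] at this
    exact_mod_cast this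
  obtain ⟨dL, hdL, hdL0⟩ := equit (φ := ph (X := X)) ∅ (fun b => by simp [ph]) n0 L hn0
  -- level one
  have g1 : ∀ c, ∃ x : (Fin 3 ↪ X) → ℤ, (∀ τ, |x τ| ≤ (Fintype.card X * (s * s) : ℕ)) ∧
      ∀ p, ∑ τ, x τ * (mu (mat1 0) τ {p} - mu (mat1 1) τ {p}) = w ph L {p} / 3 - dL c {p} := by
    intro c
    refine gen1 hv _ _ ?_ ?_
    · have a := fun c => hdL.rel univ (fun p => ({p} : Finset X)) k ∅
        (fun b hb => rel1 k b (hLk b hb)) c
      have b : 3 * ∑ p : X, w ph L {p} / 3 = ∑ p : X, (dL 0 {p} + dL 1 {p} + dL 2 {p}) := by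
        rw [mul_sum]
        refine sum_congr rfl fun p _ => ?_
        rw [hdL.total]
        have := vL {p} (by simp)
        omega
      rw [sum_add_distrib, sum_add_distrib, a, a, a, hdL0, hdL0, hdL0] at b
      rw [sum_sub_distrib, a, hdL0]
      linarith
    · have : ∀ p ∈ (univ : Finset X), |w ph L {p} / 3 - dL c {p}| ≤ ((s * s : ℕ) : ℤ) := by
        intro p _
        have b := fun c => hdL.bound ph0 ph1 c {p}
        have b0 := b 0
        have b1 := b 1
        have b2 := b 2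
        have bc := b c
        have t := hdL.total {p}
        have : (L.card : ℤ) ≤ ((s * s : ℕ) : ℤ) := by exact_mod_cast hL
        rw [abs_le]
        omega
      have := sum_le_card_nsmul _ _ _ this
      simpa using this
  obtain ⟨x1, hx1, ex1⟩ := g1 1
  obtain ⟨x2, hx2, ex2⟩ := g1 2
  obtain ⟨x, hx0, hxb, e1, e2, e0⟩ := three_x x1 x2 _ hx1 hx2
  obtain ⟨d1, base1, hd1, hb1'⟩ := hR1x x hx0 (by rw [hm1]; exact hxb)
  have hD := Ach.union dL1 hdL hd1
  have bal1 : ∀ c p, dL c {p} + d1 c {p} = w ph L {p} / 3 + base1 {p} := by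
    intro c p
    have q1 : dL 1 {p} + d1 1 {p} = w ph L {p} / 3 + base1 {p} := by
      rw [hb1' 1 {p} (by simp)]
      simp only [e1, ex1]
      ring
    have q2 : dL 2 {p} + d1 2 {p} = w ph L {p} / 3 + base1 {p} := by
      rw [hb1' 2 {p} (by simp)]
      simp only [e2, ex2]
      ring
    have q0 : dL 0 {p} + d1 0 {p} = w ph L {p} / 3 + base1 {p} := by
      rw [hb1' 0 {p} (by simp)]
      simp only [e0, sub_mul, neg_mul, sum_sub_distrib, sum_neg_distrib, ex1, ex2]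
      have t := hdL.total {p}
      have := vL {p} (by simp)
      omega
    fin_cases c
    · exact q0
    · exact q1
    · exact q2
  -- level two
  set D : Fin 3 → Finset X → ℤ := fun c t => dL c t + d1 c t with hDdef
  have vD : ∀ T : Finset X, T.card ≤ 2 → (3 : ℤ) ∣ w ph (L ∪ R1) T := by
    intro T hT
    have := hw T
    have := v0 T hT
    have := vA T hT
    have := v2 T hT
    rw [w_union dL1]
    omega
  have hDk : ∀ b ∈ L ∪ R1, b.card = k := fun b hb => (mem_union.1 hb).elim (hLk b) (hR1k b)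
  have g2 : ∀ c, ∃ x : (Fin 4 ↪ X) → ℤ, (∀ τ, |x τ| ≤ (Fintype.card X ^ 2 * (s * s + r1) : ℕ)) ∧
      ∀ T, T.card = 2 →
        ∑ τ, x τ * (mu (mat2 0) τ T - mu (mat2 1) τ T) = w ph (L ∪ R1) T / 3 - D c T := by
    intro c
    refine gen2 _ _ (fun p => ?_) ?_
    · have a := fun c => hD.rel (univ.erase p) (fun q => ({p, q} : Finset X)) (k - 1) {p}
        (fun b hb => rel2 k p b (hDk b hb)) c
      have b : 3 * ∑ q ∈ univ.erase p, w ph (L ∪ R1) {p, q} / 3 =
          ∑ q ∈ univ.erase p, (D 0 {p, q} + D 1 {p, q} + D 2 {p, q}) := by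
        rw [mul_sum]
        refine sum_congr rfl fun q _ => ?_
        rw [hD.total]
        have := vD {p, q} card_le_two
        omega
      have z : ∀ c, D c {p} = w ph L {p} / 3 + base1 {p} := fun c => bal1 c p
      rw [sum_add_distrib, sum_add_distrib, a, a, a, z, z, z] at b
      rw [sum_sub_distrib, a, z]
      linarith
    · have : ∀ T ∈ powersetCard 2 (univ : Finset X),
          |w ph (L ∪ R1) T / 3 - D c T| ≤ ((s * s + r1 : ℕ) : ℤ) := by
        intro T _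
        have b := fun c => hD.bound ph0 ph1 c T
        have b0 := b 0
        have b1 := b 1
        have b2 := b 2
        have bc := b c
        have t := hD.total T
        have : ((L ∪ R1).card : ℤ) ≤ ((s * s + r1 : ℕ) : ℤ) := by
          have := card_union_le L R1
          exact_mod_cast (by omega : (L ∪ R1).card ≤ s * s + r1)
        rw [abs_le]
        omega
      have := sum_le_card_nsmul _ _ _ this
      rw [card_powersetCard, card_univ, nsmul_eq_mul] at this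
      refine this.trans ?_
      have h2 := Nat.mul_le_mul_right (s * s + r1) (Nat.choose_le_pow (Fintype.card X) 2)
      exact_mod_cast h2
  obtain ⟨y1, hy1, ey1⟩ := g2 1
  obtain ⟨y2, hy2, ey2⟩ := g2 2
  obtain ⟨y, hy0, hyb, f1, f2, f0⟩ := three_x y1 y2 _ hy1 hy2
  obtain ⟨d2, base2, hd2, hb2'⟩ := hR2x y hy0 (by rw [hm2]; exact hyb)
  have hF := Ach.union dL3 (Ach.union dL2 hD hd2) hdA
  rw [hall] at hF
  refine ⟨_, hF, fun c T hT => ?_⟩
  have t := hF.total T
  rw [w_all k T (by omega), hT] at t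
  have q1 : D 1 T + d2 1 T = w ph (L ∪ R1) T / 3 + base2 T := by
    rw [hb2' 1 T hT.le]
    simp only [f1, ey1 T hT]
    ring
  have q2 : D 2 T + d2 2 T = w ph (L ∪ R1) T / 3 + base2 T := by
    rw [hb2' 2 T hT.le]
    simp only [f2, ey2 T hT]
    ring
  have q0 : D 0 T + d2 0 T = w ph (L ∪ R1) T / 3 + base2 T := by
    rw [hb2' 0 T hT.le]
    simp only [f0, sub_mul, neg_mul, sum_sub_distrib, sum_neg_distrib, ey1 T hT, ey2 T hT]
    have t := hD.total T
    have := vD T hT.le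
    omega
  have a1 := hdA1 1 T hT.le
  have a2 := hdA1 2 T hT.le
  have : ∀ x : Fin 3, x = 0 ∨ x = 1 ∨ x = 2 := by decide
  rcases this c with rfl | rfl | rfl <;> linarith

theorem num1 (a : ℕ) (ha : 79 ≤ a) : 55800 * 3 ^ 16 * (a + 3) ^ 17 ≤ 4 ^ a := by
  induction a, ha using Nat.le_induction with
  | base => norm_num
  | succ a ha ih =>
    have h1 : (20 * (a + 1 + 3)) ^ 17 ≤ (21 * (a + 3)) ^ 17 := Nat.pow_le_pow_left (by omega) _
    rw [mul_pow, mul_pow] at h1
    have h2 : (a + 1 + 3) ^ 17 ≤ 4 * (a + 3) ^ 17 := by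
      have : 20 ^ 17 * (a + 1 + 3) ^ 17 ≤ 20 ^ 17 * (4 * (a + 3) ^ 17) := by
        refine h1.trans ?_
        rw [← mul_assoc]
        exact Nat.mul_le_mul_right _ (by norm_num)
      exact Nat.le_of_mul_le_mul_left this (by positivity)
    rw [pow_succ 4]
    calc _ ≤ 55800 * 3 ^ 16 * (4 * (a + 3) ^ 17) := Nat.mul_le_mul_left _ h2
      _ = 55800 * 3 ^ 16 * (a + 3) ^ 17 * 4 := by ring
      _ ≤ _ := Nat.mul_le_mul_right _ ih

theorem num2 (u : ℕ) (hu : 40 ≤ u) : u ^ 6 + 1 < 2 ^ u := by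
  induction u, hu using Nat.le_induction with
  | base => norm_num
  | succ a ha ih =>
    have h1 : (20 * (a + 1)) ^ 6 ≤ (21 * a) ^ 6 := Nat.pow_le_pow_left (by omega) _
    rw [mul_pow, mul_pow] at h1
    rw [pow_succ 2]
    omega

theorem large' (k : ℕ) (hk : 81 ≤ k) (hv1 : 2 * k ≤ Fintype.card X)
    (hv2 : Fintype.card X + 1 ≤ 3 * (k + 1))
    (hdiv : ∀ i ≤ 2, 3 ∣ (Fintype.card X - i).choose (k - i)) :
    ∃ d, Ach ph (powersetCard k (univ : Finset X)) d ∧ ∀ c T, T.card = 2 →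
      3 * d c T = ((Fintype.card X - 2).choose (k - 2) : ℕ) := by
  obtain ⟨u, hu⟩ : ∃ u, u = Fintype.card X + 1 := ⟨_, rfl⟩
  have hvu : Fintype.card X ≤ u := by omega
  have hc : 55800 * u ^ 16 < (Fintype.card X - 4).choose (k - 2) := by
    obtain ⟨a, rfl⟩ : ∃ a, k = a + 2 := ⟨k - 2, by omega⟩
    have h1 := num1 a (by omega)
    have h2 := Nat.four_pow_lt_mul_centralBinom a (by omega)
    have h3 : Nat.centralBinom a ≤ (Fintype.card X - 4).choose (a + 2 - 2) := by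
      rw [Nat.centralBinom_eq_two_mul_choose]
      exact Nat.choose_le_choose _ (by omega)
    have h4 : u ^ 16 ≤ (3 * (a + 3)) ^ 16 := Nat.pow_le_pow_left (by omega) _
    have h5 : a * (55800 * u ^ 16) < a * Nat.centralBinom a := by
      calc a * (55800 * u ^ 16) ≤ (a + 3) * (55800 * (3 * (a + 3)) ^ 16) :=
            Nat.mul_le_mul (by omega) (Nat.mul_le_mul_left _ h4)
        _ = 55800 * 3 ^ 16 * (a + 3) ^ 17 := by ring
        _ < _ := lt_of_le_of_lt h1 h2
    exact lt_of_lt_of_le (Nat.lt_of_mul_lt_mul_left h5) h3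
  have hc' : (Fintype.card X - 4).choose (k - 2) ≤ (Fintype.card X - 3).choose (k - 1) := by
    rw [show Fintype.card X - 3 = Fintype.card X - 4 + 1 by omega, show k - 1 = k - 2 + 1 by omega,
      Nat.choose_succ_succ']
    omega
  have p1 : 1 ≤ u := by omega
  have hr : 3 * (2 ^ 3 * (Fintype.card X ^ 3 * (3 * (4 * (Fintype.card X * (u ^ 3 * u ^ 3)))))) ≤
      288 * u ^ 10 := by
    calc _ ≤ 3 * (2 ^ 3 * (u ^ 3 * (3 * (4 * (u * (u ^ 3 * u ^ 3)))))) := by gcongr
      _ = _ := by ring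
  have q6 : u ^ 3 * u ^ 3 ≤ u ^ 10 := by
    rw [← pow_add]; exact Nat.pow_le_pow_right p1 (by norm_num)
  have q10 : u ^ 10 ≤ u ^ 16 := Nat.pow_le_pow_right p1 (by norm_num)
  refine large k (u ^ 3) (by omega) (by omega) ?_ _ _ _ rfl rfl rfl (by omega) ?_ hdiv
  · rw [← hu, ← pow_add, show 2 ^ u ^ 3 = (2 ^ u) ^ (u * u) by rw [← pow_mul]; congr 1; ring]
    exact Nat.pow_lt_pow_left (n := u * u) (num2 u (by omega)) (by positivity)
  · have : 2 ^ 4 * (Fintype.card X ^ 4 * (3 * (4 * (Fintype.card X ^ 2 * (u ^ 3 * u ^ 3 +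
        3 * (2 ^ 3 * (Fintype.card X ^ 3 * (3 * (4 * (Fintype.card X * (u ^ 3 * u ^ 3))))))))))) ≤
        55488 * u ^ 16 := by
      calc _ ≤ 2 ^ 4 * (u ^ 4 * (3 * (4 * (u ^ 2 * (u ^ 10 + 288 * u ^ 10))))) := by gcongr
        _ = _ := by ring
    omega

end Pool.Agent.H35.Ls
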