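import Mathlib
import Pool.Agent.H35.LsD

set_option autoImplicit false

open Finset

namespace Pool.Agent.H35.Ls

variable {X : Type} [Fintype X] [DecidableEq X]

theorem num3 (N : ℕ) (hN : 158 ≤ N) : 55800 * (N + 5) ^ 16 < N.choose 79 := by
  induction N, hN using Nat.le_induction with
  | base => decide +kernel
  | succ N hN ih =>
    obtain ⟨x, rfl⟩ := Nat.exists_eq_add_of_le hN
    have h1 := Nat.choose_mul_succ_eq (158 + x) 79
    have h2 : (158 + x + 1 + 5) ^ 16 * (158 + x + 1 - 79) ≤ (158 + x + 5) ^ 16 * (158 + x + 1) := by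
      rw [show 158 + x + 1 - 79 = 80 + x by omega]
      ring_nf
      omega
    have h3 : 55800 * (158 + x + 1 + 5) ^ 16 * (158 + x + 1 - 79) <
        (158 + x + 1).choose 79 * (158 + x + 1 - 79) := by
      rw [← h1, mul_assoc]
      calc _ ≤ 55800 * ((158 + x + 5) ^ 16 * (158 + x + 1)) := Nat.mul_le_mul_left _ h2
        _ = 55800 * (158 + x + 5) ^ 16 * (158 + x + 1) := by ring
        _ < _ := Nat.mul_lt_mul_of_pos_right ih (by omega)
    exact Nat.lt_of_mul_lt_mul_right h3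

theorem num4 (N a : ℕ) (ha : 79 ≤ a) (hb : a + 79 ≤ N) : N.choose 79 ≤ N.choose a := by
  have key : ∀ a, 79 ≤ a → a ≤ N / 2 → N.choose 79 ≤ N.choose a := by
    intro a ha
    induction a, ha using Nat.le_induction with
    | base => intro _; exact le_rfl
    | succ a ha ih =>
      intro h
      exact (ih (by omega)).trans (Nat.choose_le_succ_of_lt_half_left (by omega))
  by_cases h : a ≤ N / 2
  · exact key a ha h
  · rw [← Nat.choose_symm (show a ≤ N by omega)]
    exact key _ (by omega) (by omega)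

theorem large'' (k : ℕ) (hk : 81 ≤ k) (hv1 : k + 81 ≤ Fintype.card X)
    (hdiv : ∀ i ≤ 2, 3 ∣ (Fintype.card X - i).choose (k - i)) :
    ∃ d, Ach ph (powersetCard k (univ : Finset X)) d ∧ ∀ c T, T.card = 2 →
      3 * d c T = ((Fintype.card X - 2).choose (k - 2) : ℕ) := by
  obtain ⟨u, hu⟩ : ∃ u, u = Fintype.card X + 1 := ⟨_, rfl⟩
  have hvu : Fintype.card X ≤ u := by omega
  have hc : 55800 * u ^ 16 < (Fintype.card X - 4).choose (k - 2) := by
    have h1 := num3 (Fintype.card X - 4) (by omega)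
    rw [show Fintype.card X - 4 + 5 = u by omega] at h1
    exact lt_of_lt_of_le h1 (num4 _ _ (by omega) (by omega))
  have hc' : (Fintype.card X - 4).choose (k - 2) ≤ (Fintype.card X - 3).choose (k - 1) := by
    rw [show Fintype.card X - 3 = Fintype.card X - 4 + 1 by omega, show k - 1 = k - 2 + 1 by omega,
      Nat.choose_succ_succ']
    omega
  have p1 : 1 ≤ u := by omega
  have hr : 3 * (2 ^ 3 * (Fintype.card X ^ 3 * (3 * (4 * (Fintype.card X * (u ^ 3 * u ^ 3)))))) ≤
      288 * u ^ 10 := by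
    calc _ ≤ 3 * (2 ^ 3 * (u ^ 3 * (3 * (4 * (u * (u ^ 3 * u ^ 3)))))) := by gcongr
      _ = _ := by ring
  have q6 : u ^ 3 * u ^ 3 ≤ u ^ 10 := by
    rw [← pow_add]; exact Nat.pow_le_pow_right p1 (by norm_num)
  have q10 : u ^ 10 ≤ u ^ 16 := Nat.pow_le_pow_right p1 (by norm_num)
  refine large k (u ^ 3) (by omega) (by omega) ?_ _ _ _ rfl rfl rfl (by omega) ?_ hdiv
  · rw [← hu, ← pow_add, show 2 ^ u ^ 3 = (2 ^ u) ^ (u * u) by rw [← pow_mul]; congr 1; ring]
    exact Nat.pow_lt_pow_left (n := u * u) (num2 u (by omega)) (by positivity)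
  · have : 2 ^ 4 * (Fintype.card X ^ 4 * (3 * (4 * (Fintype.card X ^ 2 * (u ^ 3 * u ^ 3 +
        3 * (2 ^ 3 * (Fintype.card X ^ 3 * (3 * (4 * (Fintype.card X * (u ^ 3 * u ^ 3))))))))))) ≤
        55488 * u ^ 16 := by
      calc _ ≤ 2 ^ 4 * (u ^ 4 * (3 * (4 * (u ^ 2 * (u ^ 10 + 288 * u ^ 10))))) := by gcongr
        _ = _ := by ring
    omega

end Pool.Agent.H35.Ls
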