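import Mathlib

set_option autoImplicit false

namespace Pool.Agent.H35.Pat

open Finset

variable {V : Type} [Fintype V]

open Classical in
noncomputable def cn (P : V → Prop) : ℕ := (univ.filter P).card

theorem cn_le {P Q R S : V → Prop} (h : ∀ x, P x → Q x ∨ R x ∨ S x) :
    cn P ≤ cn Q + cn R + cn S := by
  classical
  unfold cn
  refine (card_le_card (t := univ.filter Q ∪ univ.filter R ∪ univ.filter S) fun x hx => ?_).trans
    ((card_union_le _ _).trans (by gcongr; convert card_union_le _ _))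
  have := h x (by simpa using hx)
  simpa using this

theorem cn_add {P Q R : V → Prop} (h : ∀ x, Q x → ¬ R x) (h1 : ∀ x, Q x → P x)
    (h2 : ∀ x, R x → P x) : cn Q + cn R ≤ cn P := by
  classical
  unfold cn
  rw [← card_union_of_disjoint (disjoint_filter.2 fun x _ => h x)]
  refine card_le_card fun x hx => ?_
  simp only [mem_union, mem_filter, mem_univ, true_and] at hx ⊢
  exact hx.elim (h1 x) (h2 x)

theorem cn_eq (z : V) : cn (· = z) = 1 := by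
  classical
  unfold cn
  convert card_singleton z
  ext; simp

theorem cn_false : cn (fun _ : V => False) = 0 := by simp [cn]

theorem cn_pos {P : V → Prop} (h : 0 < cn P) : ∃ x, P x := by
  obtain ⟨x, hx⟩ := card_pos.1 h
  exact ⟨x, by simpa using hx⟩

theorem five0 (a : V → V → Prop) (sy : ∀ x y, a x y → a y x)
    (tf : ∀ x y z, a x y → a y z → ¬ a z x) (dg : ∀ x, cn (a x) = 7) (c0 c1 c2 c3 c4 z : V)
    (h12 : a c1 c2) (h23 : a c2 c3) (h34 : a c3 c4)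
    (hz : a c0 z ∧ ¬ a c1 z ∧ ¬ a c2 z ∧ ¬ a c3 z ∧ ¬ a c4 z)
    (hx : ∀ x, x ≠ z → (a c4 x ∧ a c1 x ∧ ¬ a c0 x ∧ ¬ a c2 x ∧ ¬ a c3 x) ∨
      (a c0 x ∧ a c2 x ∧ ¬ a c1 x ∧ ¬ a c3 x ∧ ¬ a c4 x) ∨
      (a c1 x ∧ a c3 x ∧ ¬ a c0 x ∧ ¬ a c2 x ∧ ¬ a c4 x) ∨
      (a c2 x ∧ a c4 x ∧ ¬ a c0 x ∧ ¬ a c1 x ∧ ¬ a c3 x) ∨
      (a c3 x ∧ a c0 x ∧ ¬ a c1 x ∧ ¬ a c2 x ∧ ¬ a c4 x)) : False := by
  have hx' : ∀ x, x = z ∨ _ := fun x => or_iff_not_imp_left.2 (hx x)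
  have e0 := @cn_le V _ (a c0) (fun x => a c0 x ∧ a c2 x) (fun x => a c3 x ∧ a c0 x) (· = z)
    fun x => by have := hx' x; tauto
  have e1 := @cn_add V _ (a c1) (fun x => a c4 x ∧ a c1 x) (fun x => a c1 x ∧ a c3 x)
    (fun x h k => tf _ _ _ h34 h.1 (sy _ _ k.2)) (by tauto) (by tauto)
  have e2 := @cn_add V _ (a c2) (fun x => a c0 x ∧ a c2 x) (fun x => a c2 x ∧ a c4 x)
    (fun x => by rcases hx' x with rfl | h <;> tauto) (by tauto) (by tauto)
  have e3 := @cn_add V _ (a c3) (fun x => a c1 x ∧ a c3 x) (fun x => a c3 x ∧ a c0 x)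
    (fun x => by rcases hx' x with rfl | h <;> tauto) (by tauto) (by tauto)
  have e4 := @cn_add V _ (a c4) (fun x => a c4 x ∧ a c1 x) (fun x => a c2 x ∧ a c4 x)
    (fun x h k => tf _ _ _ h12 k.1 (sy _ _ h.2)) (by tauto) (by tauto)
  have f0 := @cn_add V _ (fun x => a c0 x ∧ x ≠ z) (fun x => a c0 x ∧ a c2 x)
    (fun x => a c3 x ∧ a c0 x) (fun x h k => tf _ _ _ h23 k.1 (sy _ _ h.2))
    (fun x h => ⟨h.1, fun e => hz.2.2.1 (e ▸ h.2)⟩) (fun x h => ⟨h.2, fun e => hz.2.2.2.1 (e ▸ h.1)⟩)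
  have f0' := @cn_add V _ (a c0) (fun x => a c0 x ∧ x ≠ z) (· = z) (by tauto) (by tauto)
    (fun x h => h ▸ hz.1)
  have f2 := @cn_le V _ (a c2) (fun x => a c0 x ∧ a c2 x) (fun x => a c2 x ∧ a c4 x)
    (fun _ => False) fun x => by rcases hx' x with rfl | h <;> tauto
  have f3 := @cn_le V _ (a c3) (fun x => a c1 x ∧ a c3 x) (fun x => a c3 x ∧ a c0 x)
    (fun _ => False) fun x => by rcases hx' x with rfl | h <;> tauto
  have f1 := @cn_le V _ (a c1) (fun x => a c4 x ∧ a c1 x) (fun x => a c1 x ∧ a c3 x)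
    (fun _ => False) fun x => by rcases hx' x with rfl | h <;> tauto
  have f4 := @cn_le V _ (a c4) (fun x => a c4 x ∧ a c1 x) (fun x => a c2 x ∧ a c4 x)
    (fun _ => False) fun x => by rcases hx' x with rfl | h <;> tauto
  have ir : ∀ x y, a x y → ¬ a x x := fun x y _ h => tf _ _ _ h h h
  have g := @cn_le V _ (a z) (fun x => a c4 x ∧ a c1 x) (fun x => (a c1 x ∧ a c3 x) ∧ a z x)
    (fun x => (a c2 x ∧ a c4 x) ∧ a z x) fun x h => by
      have := tf _ _ _ hz.1 h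
      have := sy c0 x
      have := ir _ _ h
      rcases hx' x with rfl | h <;> tauto
  have g2 := @cn_add V _ (fun x => a c1 x ∧ a c3 x) (fun x => (a c1 x ∧ a c3 x) ∧ a z x)
    (fun x => (a c1 x ∧ a c3 x) ∧ ¬ a z x) (by tauto) (by tauto) (by tauto)
  have g3 := @cn_add V _ (fun x => a c2 x ∧ a c4 x) (fun x => (a c2 x ∧ a c4 x) ∧ a z x)
    (fun x => (a c2 x ∧ a c4 x) ∧ ¬ a z x) (by tauto) (by tauto) (by tauto)
  have k2 := @cn_le V _ (· = c2) (fun x => (a c1 x ∧ a c3 x) ∧ ¬ a z x) (fun _ => False)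
    (fun _ => False) fun x h => h ▸ Or.inl ⟨⟨h12, sy _ _ h23⟩, fun h => hz.2.2.1 (sy _ _ h)⟩
  have k3 := @cn_le V _ (· = c3) (fun x => (a c2 x ∧ a c4 x) ∧ ¬ a z x) (fun _ => False)
    (fun _ => False) fun x h => h ▸ Or.inl ⟨⟨h23, sy _ _ h34⟩, fun h => hz.2.2.2.1 (sy _ _ h)⟩
  simp only [dg, cn_eq, cn_false] at e0 e1 e2 e3 e4 f0' f1 f2 f3 f4 g k2 k3
  obtain ⟨p, hp⟩ := @cn_pos V _ (fun x => (a c1 x ∧ a c3 x) ∧ a z x) (by omega)
  obtain ⟨q, hq⟩ := @cn_pos V _ (fun x => (a c2 x ∧ a c4 x) ∧ a z x) (by omega)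
  have m2 := @cn_le V _ (a p) (fun x => a c0 x ∧ a c2 x) (fun x => (a c2 x ∧ a c4 x) ∧ ¬ a z x)
    (· = z) fun x h => by
      have := tf _ _ _ hp.1.1 h
      have := tf _ _ _ hp.1.2 h
      have := tf _ _ _ hp.2 h
      have := sy c1 x
      have := sy c3 x
      have := sy z x
      rcases hx' x with rfl | h <;> tauto
  have m3 := @cn_le V _ (a q) (fun x => a c3 x ∧ a c0 x) (fun x => (a c1 x ∧ a c3 x) ∧ ¬ a z x)
    (· = z) fun x h => by
      have := tf _ _ _ hq.1.1 h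
      have := tf _ _ _ hq.1.2 h
      have := tf _ _ _ hq.2 h
      have := sy c2 x
      have := sy c4 x
      have := sy z x
      rcases hx' x with rfl | h <;> tauto
  simp only [dg, cn_eq] at m2 m3
  omega

theorem five (hV : Fintype.card V = 18) (a : V → V → Prop) (sy : ∀ x y, a x y → a y x)
    (tf : ∀ x y z, a x y → a y z → ¬ a z x) (dg : ∀ x, cn (a x) = 7) (c0 c1 c2 c3 c4 : V)
    (h01 : a c0 c1) (h12 : a c1 c2) (h23 : a c2 c3) (h34 : a c3 c4) (h40 : a c4 c0) : False := by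
  classical
  let f : V → ℕ := fun x => (if a c0 x then 1 else 0) + (if a c1 x then 1 else 0) +
    (if a c2 x then 1 else 0) + (if a c3 x then 1 else 0) + if a c4 x then 1 else 0
  have t : ∀ x, ¬ (a c0 x ∧ a c1 x) ∧ ¬ (a c1 x ∧ a c2 x) ∧ ¬ (a c2 x ∧ a c3 x) ∧
      ¬ (a c3 x ∧ a c4 x) ∧ ¬ (a c4 x ∧ a c0 x) := fun x =>
    ⟨fun h => tf _ _ _ h01 h.2 (sy _ _ h.1), fun h => tf _ _ _ h12 h.2 (sy _ _ h.1),
      fun h => tf _ _ _ h23 h.2 (sy _ _ h.1), fun h => tf _ _ _ h34 h.2 (sy _ _ h.1),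
      fun h => tf _ _ _ h40 h.2 (sy _ _ h.1)⟩
  have f2 : ∀ x, f x ≤ 2 := fun x => by
    have := t x
    simp only [f]
    split_ifs <;> simp_all
  have s : ∑ x, f x = 35 := by
    have : ∀ c, ∑ x, (if a c x then 1 else 0) = 7 := fun c => by
      rw [← dg c, cn, card_filter]
    simp only [f, sum_add_distrib, this]
  have s2 : ∑ x, (2 - f x) = 1 := by
    have : ∑ x, (2 - f x + f x) = 36 := by
      rw [sum_congr rfl fun x _ => Nat.sub_add_cancel (f2 x)]; simp [hV]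
    rw [sum_add_distrib] at this
    omega
  obtain ⟨z, -, hz⟩ := exists_ne_zero_of_sum_ne_zero (s2 ▸ one_ne_zero : ∑ x, (2 - f x) ≠ 0)
  rw [← add_sum_erase _ _ (mem_univ z)] at s2
  have hx := sum_eq_zero_iff.1 (show ∑ x ∈ univ.erase z, (2 - f x) = 0 by omega)
  have hz : f z = 1 := by omega
  have hx : ∀ x, x ≠ z → (a c4 x ∧ a c1 x ∧ ¬ a c0 x ∧ ¬ a c2 x ∧ ¬ a c3 x) ∨
      (a c0 x ∧ a c2 x ∧ ¬ a c1 x ∧ ¬ a c3 x ∧ ¬ a c4 x) ∨
      (a c1 x ∧ a c3 x ∧ ¬ a c0 x ∧ ¬ a c2 x ∧ ¬ a c4 x) ∨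
      (a c2 x ∧ a c4 x ∧ ¬ a c0 x ∧ ¬ a c1 x ∧ ¬ a c3 x) ∨
      (a c3 x ∧ a c0 x ∧ ¬ a c1 x ∧ ¬ a c2 x ∧ ¬ a c4 x) := fun x h => by
    have h1 : f x = 2 := by have := hx x (by simpa using h); have := f2 x; omega
    have := t x
    simp only [f] at h1
    split_ifs at h1 <;> simp_all
  simp only [f] at hz
  split_ifs at hz with b0 b1 b2 b3 b4 <;> try omega
  · exact five0 a sy tf dg c0 c1 c2 c3 c4 z h12 h23 h34 (by tauto) hx
  · exact five0 a sy tf dg c1 c2 c3 c4 c0 z h23 h34 h40 (by tauto) fun x h => by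
      have := hx x h; tauto
  · exact five0 a sy tf dg c2 c3 c4 c0 c1 z h34 h40 h01 (by tauto) fun x h => by
      have := hx x h; tauto
  · exact five0 a sy tf dg c3 c4 c0 c1 c2 z h40 h01 h12 (by tauto) fun x h => by
      have := hx x h; tauto
  · exact five0 a sy tf dg c4 c0 c1 c2 c3 z h01 h12 h23 (by tauto) fun x h => by
      have := hx x h; tauto

theorem bip (hV : Fintype.card V = 18) (a : V → V → Prop) (sy : ∀ x y, a x y → a y x)
    (tf : ∀ x y z, a x y → a y z → ¬ a z x) (dg : ∀ x, cn (a x) = 7) :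
    ∃ s : V → ℤ, (∀ x, s x = 1 ∨ s x = -1) ∧ ∀ x y, a x y → s x = -s y := by
  classical
  obtain ⟨v⟩ : Nonempty V := Fintype.card_pos_iff.1 (by omega)
  refine ⟨fun x => if ∃ b, a v b ∧ a b x then 1 else -1, fun x => by
    beta_reduce; split_ifs <;> simp,
    fun x y h => ?_⟩
  beta_reduce
  split_ifs with h1 h2 h2
  · obtain ⟨b, hb, hb'⟩ := h1
    obtain ⟨c, hc, hc'⟩ := h2
    exact (five hV a sy tf dg v b x y c hb hb' h (sy _ _ hc') (sy _ _ hc)).elim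
  · rfl
  · rfl
  · have e1 := @cn_add V _ (fun t => a x t ∨ a y t) (a x) (a y)
      (fun t h1 h2 => tf _ _ _ h h2 (sy _ _ h1)) (by tauto) (by tauto)
    have e2 := @cn_add V _ (fun _ => True) (fun t => a x t ∨ a y t) (a v)
      (fun t k k' => k.elim (fun k => h1 ⟨t, k', sy _ _ k⟩) fun k => h2 ⟨t, k', sy _ _ k⟩)
      (by tauto) (by tauto)
    have : cn (fun _ : V => True) = 18 := by simp [cn, hV]
    simp only [dg] at e1 e2
    omega

end Pool.Agent.H35.Pat
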