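import Pool.Agent.H35.PatSpec
import Pool.Agent.H35.PatGraph

set_option autoImplicit false

namespace Pool.Agent.H35.Pat

open Finset Matrix

abbrev Des := Matrix (Fin 18) (Fin 63) ℕ

def inc (E : List (ℕ × ℕ)) : Des := fun i j =>
  if i.val = (E.getD j (0, 0)).1 ∨ i.val = (E.getD j (0, 0)).2 then 1 else 0

def adjm (E : List ℕ) : Matrix (Fin 18) (Fin 18) ℤ := fun i j =>
  if (E.getD i 0).testBit j then 1 else 0

def E0 : List (ℕ × ℕ) := [(0, 11), (0, 12), (0, 13), (0, 14), (0, 15), (0, 16), (0, 17), (1, 9), (1, 12), (1, 13), (1, 14), (1, 15), (1, 16), (1, 17), (2, 9), (2, 10), (2, 13), (2, 14), (2, 15), (2, 16), (2, 17), (3, 9), (3, 10), (3, 11), (3, 14), (3, 15), (3, 16), (3, 17), (4, 9), (4, 10), (4, 11), (4, 12), (4, 15), (4, 16), (4, 17), (5, 9), (5, 10), (5, 11), (5, 12), (5, 13), (5, 16), (5, 17), (6, 9), (6, 10), (6, 11), (6, 12), (6, 13), (6, 14), (6, 17), (7, 9), (7, 10), (7, 11), (7, 12), (7, 13), (7, 14), (7, 15), (8, 10), (8, 11), (8, 12), (8, 13), (8, 14), (8, 15), (8, 16)]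

def E1 : List (ℕ × ℕ) := [(0, 3), (0, 6), (0, 7), (0, 8), (0, 14), (0, 15), (0, 17), (1, 2), (1, 4), (1, 7), (1, 8), (1, 10), (1, 11), (1, 12), (2, 3), (2, 5), (2, 13), (2, 14), (2, 15), (2, 16), (3, 4), (3, 9), (3, 10), (3, 11), (3, 12), (4, 5), (4, 13), (4, 14), (4, 15), (4, 16), (5, 6), (5, 7), (5, 8), (5, 11), (5, 17), (6, 9), (6, 10), (6, 12), (6, 13), (6, 16), (7, 9), (7, 12), (7, 13), (7, 16), (8, 9), (8, 10), (8, 13), (8, 16), (9, 14), (9, 15), (9, 17), (10, 14), (10, 15), (10, 17), (11, 13), (11, 14), (11, 15), (11, 16), (12, 14), (12, 15), (12, 17), (13, 17), (16, 17)]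

def A0 : List ℕ := [260096, 258560, 255488, 249344, 237056, 212480, 163328, 65024, 130048, 254, 508, 505, 499, 487, 463, 415, 319, 127]

def A1 : List ℕ := [180680, 7572, 122922, 7701, 122922, 133588, 79393, 78371, 75299, 180680, 180554, 122922, 180426, 133588, 7701, 7701, 133588, 79393]

def Kl : List (List ℤ) := [
  [3586556, -473620, -440188, 10136, -440188, -389032, 32060, 2114, 2114, -196036, -263998, -440188, -263998, -389032, 10136, 10136, -389032, 32060],
  [-473620, 3605084, 27860, -323176, 27860, -323176, -473620, 36218, 36218, -473620, 36218, 27860, 36218, -323176, -323176, -323176, -323176, -473620],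
  [-440188, 27860, 3585980, 11144, -196612, 11144, -440188, -381682, -381682, -440188, -381682, -196612, -381682, 11144, 11144, 11144, 11144, -440188],
  [10136, -323176, 11144, 3587744, 11144, -441952, -389032, -439012, -439012, 10136, 26684, 11144, 26684, -441952, -194848, -194848, -441952, -389032],
  [-440188, 27860, -196612, 11144, 3585980, 11144, -440188, -381682, -381682, -440188, -381682, -196612, -381682, 11144, 11144, 11144, 11144, -440188],
  [-389032, -323176, 11144, -441952, 11144, 3587744, 10136, 26684, 26684, -389032, -439012, 11144, -439012, -194848, -441952, -441952, -194848, 10136],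
  [32060, -473620, -440188, -389032, -440188, 10136, 3586556, -263998, -263998, 32060, 2114, -440188, 2114, 10136, -389032, -389032, 10136, -196036],
  [2114, 36218, -381682, -439012, -381682, 26684, -263998, 3596117, -265279, 2114, -506443, -381682, 45185, 26684, -439012, -439012, 26684, -263998],
  [2114, 36218, -381682, -439012, -381682, 26684, -263998, -265279, 3596117, 2114, 45185, -381682, -506443, 26684, -439012, -439012, 26684, -263998],
  [-196036, -473620, -440188, 10136, -440188, -389032, 32060, 2114, 2114, 3586556, -263998, -440188, -263998, -389032, 10136, 10136, -389032, 32060],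
  [-263998, 36218, -381682, 26684, -381682, -439012, 2114, -506443, 45185, -263998, 3596117, -381682, -265279, -439012, 26684, 26684, -439012, 2114],
  [-440188, 27860, -196612, 11144, -196612, 11144, -440188, -381682, -381682, -440188, -381682, 3585980, -381682, 11144, 11144, 11144, 11144, -440188],
  [-263998, 36218, -381682, 26684, -381682, -439012, 2114, 45185, -506443, -263998, -265279, -381682, 3596117, -439012, 26684, 26684, -439012, 2114],
  [-389032, -323176, 11144, -441952, 11144, -194848, 10136, 26684, 26684, -389032, -439012, 11144, -439012, 3587744, -441952, -441952, -194848, 10136],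
  [10136, -323176, 11144, -194848, 11144, -441952, -389032, -439012, -439012, 10136, 26684, 11144, 26684, -441952, 3587744, -194848, -441952, -389032],
  [10136, -323176, 11144, -194848, 11144, -441952, -389032, -439012, -439012, 10136, 26684, 11144, 26684, -441952, -194848, 3587744, -441952, -389032],
  [-389032, -323176, 11144, -441952, 11144, -194848, 10136, 26684, 26684, -389032, -439012, 11144, -439012, -194848, -441952, -441952, 3587744, 10136],
  [32060, -473620, -440188, -389032, -440188, 10136, -196036, -263998, -263998, 32060, 2114, -440188, 2114, 10136, -389032, -389032, 10136, 3586556]]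

def K : Matrix (Fin 18) (Fin 18) ℤ := fun i j => (Kl.getD i []).getD j 0

def am (N : Des) : Matrix (Fin 18) (Fin 18) ℤ :=
  N.map (fun x : ℕ => (x : ℤ)) * (N.map (fun x : ℕ => (x : ℤ)))ᵀ - ((7 : ℕ) : ℤ) • 1

noncomputable def cm (N : Des) : Matrix (Fin 18) (Fin 18) ℝ :=
  ((7 : ℕ) : ℝ) • 1 - (1 / ((2 : ℕ) : ℝ)) • (N.map (fun x : ℕ => (x : ℝ)) *
    (N.map (fun x : ℕ => (x : ℝ)))ᵀ)

theorem cm_eq (N : Des) : cm N = (7 / 2 : ℝ) • 1 - (1 / 2 : ℝ) • (am N).map (Int.cast) := by
  ext i j
  simp only [cm, am, Matrix.sub_apply, Matrix.smul_apply, map_apply, mul_apply, transpose_apply,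
    Matrix.one_apply]
  split_ifs <;> simp
  ring

theorem am0 : am (inc E0) = adjm A0 := by decide +kernel
theorem am1 : am (inc E1) = adjm A1 := by decide +kernel
theorem d0 : (∀ j, ∑ i, inc E0 i j = 2) ∧ (∀ i, ∑ j, inc E0 i j = 7) := by decide +kernel
theorem d0' (i : Fin 18) (j : Fin 63) : inc E0 i j ≤ 1 := by
  unfold inc; split_ifs <;> simp
theorem d1 : (∀ j, ∑ i, inc E1 i j = 2) ∧ (∀ i, ∑ j, inc E1 i j = 7) := by decide +kernel
theorem g2 : (adjm A0 ^ 2).trace = 126 := by decide +kernel
theorem g3 : (adjm A0 ^ 3).trace = 0 := by decide +kernel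
set_option synthInstance.maxSize 2000 in
theorem c0 : ∀ u : Fin 18, ∃ w x : Fin 18, adjm A0 0 w = 1 ∧ adjm A0 w x = 1 ∧
    (x = u ∨ adjm A0 x u = 1) := by decide +kernel

def L1 : Matrix (Fin 18) (Fin 18) ℤ := 7 • 1 - adjm A1
def P1 : Matrix (Fin 18) (Fin 18) ℤ := fun i j => if i = j then 25007136 else -1471008

theorem p0 : L1ᵀ = L1 := by decide +kernel
theorem p1 : L1 * K = P1 := by decide +kernel
theorem p2 : P1 * L1 = 26478144 • L1 := by decide +kernel
theorem p3 : P1 * K = 26478144 • K := by decide +kernel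
theorem p4 : K.trace = 64620180 := by decide +kernel

theorem am_apply (N : Des) (i j : Fin 18) :
    am N i j = ((N * Nᵀ) i j : ℕ) - if i = j then 7 else 0 := by
  simp only [am, Matrix.sub_apply, Matrix.smul_apply, map_apply, mul_apply, transpose_apply,
    Matrix.one_apply, Nat.cast_sum, Nat.cast_mul, smul_eq_mul, mul_ite, mul_one, mul_zero,
    Nat.cast_ofNat]

theorem conn0 :
    (SimpleGraph.fromRel fun i j : Fin 18 => 0 < (inc E0 * (inc E0)ᵀ) i j).Connected := by
  have r : ∀ i j, adjm A0 i j = 1 →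
      (SimpleGraph.fromRel fun i j : Fin 18 => 0 < (inc E0 * (inc E0)ᵀ) i j).Reachable i j := by
    intro i j h
    by_cases e : i = j
    · exact e ▸ .refl _
    · rw [← am0, am_apply, if_neg e] at h
      exact SimpleGraph.Adj.reachable ⟨e, Or.inl (by omega)⟩
  refine (SimpleGraph.connected_iff_exists_forall_reachable _).2 ⟨0, fun u => ?_⟩
  obtain ⟨w, x, h1, h2, h3⟩ := c0 u
  exact ((r _ _ h1).trans (r _ _ h2)).trans (h3.elim (fun e => e ▸ .refl _) (r _ _))

theorem up1 : (0 : ℝ) ∉ (cm (inc E1)).charpoly.roots.erase 0 ∧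
    (((cm (inc E1)).charpoly.roots.erase 0).map fun x => x⁻¹).sum < 82053 / 16807 := by
  let φ := (Int.castRingHom ℝ).mapMatrix (m := Fin 18)
  have e : cm (inc E1) = (1 / 2 : ℝ) • φ L1 := by
    rw [cm_eq, am1, L1, map_sub, map_nsmul, map_one, smul_sub]
    congr 1
    rw [← Nat.cast_smul_eq_nsmul ℝ, smul_smul]
    norm_num
  have m : cm (inc E1) * (2 / 26478144 : ℝ) • φ K = (1 / 26478144 : ℝ) • φ P1 := by
    rw [e, Matrix.smul_mul, Matrix.mul_smul, ← map_mul, p1, smul_smul]
    norm_num
  have tr : ∀ X, (φ X).trace = (X.trace : ℤ) := fun X => by simp [φ, trace]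
  have := pinv (cm (inc E1)) ((2 / 26478144 : ℝ) • φ K)
    (by rw [e, transpose_smul]; congr 1; exact (transpose_map ..).symm.trans (by rw [p0]; rfl))
    (by rw [m, e, Matrix.smul_mul, Matrix.mul_smul, ← map_mul, p2, map_nsmul,
      ← Nat.cast_smul_eq_nsmul ℝ, smul_smul, smul_smul]; norm_num)
    (by rw [m, Matrix.smul_mul, Matrix.mul_smul, ← map_mul, p3, map_nsmul,
      ← Nat.cast_smul_eq_nsmul ℝ, smul_smul, smul_smul]; norm_num)
    (by rw [m, trace_smul, tr, show P1.trace = 17 * 26478144 by decide +kernel]; norm_num)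
  rw [this.2, trace_smul, tr, p4]
  exact ⟨this.1, by norm_num⟩

theorem low (N : Des) (h1 : ∀ j, ∑ i, N i j = 2) (h2 : ∀ i, ∑ j, N i j = 7)
    (h3 : ∀ i j, N i j ≤ 1) (t2 : (am N ^ 2).trace ≤ 126)
    (t3 : (am N ^ 2).trace = 126 → (am N ^ 3).trace ≤ 0)
    (hz : (0 : ℝ) ∉ (cm N).charpoly.roots.erase 0) :
    82053 / 16807 ≤ (((cm N).charpoly.roots.erase 0).map fun x => x⁻¹).sum := by
  have dg : ∀ i, am N i i = 0 := fun i => by
    rw [am_apply, if_pos rfl, mul_apply, sum_congr rfl (g := fun j => N i j) fun j _ => by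
      have := h3 i j
      rw [transpose_apply]
      interval_cases N i j <;> rfl, h2]
    rfl
  have nn : ∀ i j, 0 ≤ am N i j := fun i j => by
    by_cases e : i = j
    · rw [e, dg]
    · rw [am_apply, if_neg e]; omega
  have sy : ∀ i j, am N i j = am N j i := fun i j => by
    simp only [am_apply, mul_apply, transpose_apply, eq_comm (a := i), mul_comm (N i _)]
  have rs : ∀ i, ∑ j, am N i j = 7 := fun i => by
    simp only [am_apply, sum_sub_distrib, mul_apply, transpose_apply, ← Nat.cast_sum]
    rw [sum_comm]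
    simp only [← mul_sum, h1, ← sum_mul, h2]
    simp
  generalize hM : am N = M at *
  have e2 : ∀ X : Matrix (Fin 18) (Fin 18) ℤ, (∀ i j, X i j = X j i) →
      (X ^ 2).trace = ∑ i, ∑ j, X i j ^ 2 := fun X h => by
    simp only [sq, trace, Matrix.diag, mul_apply]
    exact sum_congr rfl fun i _ => sum_congr rfl fun j _ => by rw [h j i]
  have q0 : ∀ i j, 0 ≤ M i j ^ 2 - M i j := fun i j => by
    rcases (nn i j).eq_or_lt with h | h
    · rw [← h]; rfl
    · nlinarith
  have s0 : ∑ i, ∑ j, (M i j ^ 2 - M i j) = (M ^ 2).trace - 126 := by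
    simp only [sum_sub_distrib, rs, e2 M sy]; rfl
  have z : ∑ i, ∑ j, (M i j ^ 2 - M i j) = 0 :=
    le_antisymm (by omega) (sum_nonneg fun i _ => sum_nonneg fun j _ => q0 i j)
  have t2' : (M ^ 2).trace = 126 := by omega
  have b : ∀ i j, M i j = 0 ∨ M i j = 1 := fun i j => by
    have := (sum_eq_zero_iff_of_nonneg fun j _ => q0 i j).1 ((sum_eq_zero_iff_of_nonneg
      fun i _ => sum_nonneg fun j _ => q0 i j).1 z i (mem_univ _)) j (mem_univ _)
    rcases mul_eq_zero.1 (show M i j * (M i j - 1) = 0 by linarith) with h | h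
    exacts [Or.inl h, Or.inr (by linarith)]
  have e3 : (M ^ 3).trace = ∑ i, ∑ k, ∑ j, M i j * M j k * M k i := by
    simp only [pow_succ, pow_zero, one_mul, trace, Matrix.diag, mul_apply, sum_mul]
  have n3 : ∀ i k j, 0 ≤ M i j * M j k * M k i := fun i k j =>
    mul_nonneg (mul_nonneg (nn _ _) (nn _ _)) (nn _ _)
  have t3' : (M ^ 3).trace = 0 := le_antisymm (t3 t2') (e3 ▸ sum_nonneg fun i _ =>
    sum_nonneg fun k _ => sum_nonneg fun j _ => n3 i k j)
  obtain ⟨s, s1, s2⟩ := bip (V := Fin 18) rfl (fun i j => M i j = 1) (fun i j h => sy i j ▸ h)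
    (fun i j k a1 a2 a3 => by
      have := (sum_eq_zero_iff_of_nonneg fun j _ => n3 i k j).1 ((sum_eq_zero_iff_of_nonneg
        fun k _ => sum_nonneg fun j _ => n3 i k j).1 ((sum_eq_zero_iff_of_nonneg fun i _ =>
        sum_nonneg fun k _ => sum_nonneg fun j _ => n3 i k j).1 (e3 ▸ t3') i (mem_univ _)) k
        (mem_univ _)) j (mem_univ _)
      rw [a1, a2, a3] at this
      exact absurd this (by decide))
    (fun i => by
      have := rs i
      rw [sum_congr rfl (g := fun j => if M i j = 1 then 1 else 0) fun j _ => by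
        rcases b i j with h | h <;> simp [h], sum_boole] at this
      unfold cn
      convert Nat.cast_injective (R := ℤ) this)
  have ms : ∀ i j, M i j * s j = -(M i j * s i) := fun i j => by
    rcases b i j with h | h
    · simp [h]
    · rw [s2 i j h]; ring
  have ss : ∑ i, s i = 0 := by
    have a1 : ∑ i, ∑ j, M i j * s j = 7 * ∑ j, s j := by
      rw [sum_comm]; simp only [← sum_mul, sy _ (_ : Fin 18) |>.symm, rs, mul_sum]
    simp only [ms, sum_neg_distrib, ← sum_mul, rs, ← mul_sum] at a1
    omega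
  have m2 : ∀ u w, (M ^ 2) u w = ∑ k, M u k * M k w := fun u w => by rw [sq, mul_apply]
  have pt : ∀ u w, 11 * (M ^ 2) u w - 15 * (1 + s u * s w) + (if u = w then 2 else 0) ≤
      (M ^ 2) u w ^ 2 := by
    intro u w
    split_ifs with h
    · have : (M ^ 2) u u = 7 := by
        rw [m2, ← rs u]
        exact sum_congr rfl fun k _ => by rw [sy k u]; rcases b u k with h | h <;> simp [h]
      rw [← h, this]
      rcases s1 u with h | h <;> simp [h]
    · by_cases e : s u = s w
      · have : s u * s w = 1 := by rw [← e]; rcases s1 u with h | h <;> simp [h]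
        rw [this]
        rcases le_or_gt ((M ^ 2) u w) 5 with h | h <;> nlinarith
      · have : (M ^ 2) u w = 0 := by
          rw [m2]
          refine sum_eq_zero fun k _ => ?_
          rcases b u k with h | h
          · simp [h]
          rcases b k w with h' | h'
          · simp [h']
          exact absurd (by rw [s2 u k h, s2 k w h', neg_neg]) e
        rw [this]
        rcases s1 u with h | h <;> rcases s1 w with h' | h' <;> simp [h, h']
  have t4 : 4878 ≤ (M ^ 4).trace := by
    rw [show 4 = 2 * 2 from rfl, pow_mul, e2 _ fun i j => by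
      simp only [m2]; exact sum_congr rfl fun k _ => by rw [sy i k, sy k j, mul_comm]]
    refine le_trans ?_ (sum_le_sum fun u _ => sum_le_sum fun w _ => pt u w)
    have r2 : ∀ u, ∑ w, (M ^ 2) u w = 49 := fun u => by
      simp only [m2]
      rw [sum_comm]
      simp only [← mul_sum, rs, ← sum_mul]
      rfl
    simp only [sum_add_distrib, sum_sub_distrib, ← mul_sum, r2, ss]
    simp
  let φ := (Int.castRingHom ℝ).mapMatrix (m := Fin 18)
  have tr : ∀ k, (φ M ^ k).trace = ((M ^ k).trace : ℤ) := fun k => by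
    rw [← map_pow]; simp [φ, trace]
  refine lower (φ M) (by ext i j; simp [φ, sy i j]) (fun i j => by simpa [φ] using nn i j)
    (fun i => by simpa [φ] using congrArg (Int.cast : ℤ → ℝ) (rs i)) (by simp [φ, trace, dg])
    (by rw [tr, t2']; rfl) (by rw [tr, t3']; simp) (by rw [tr]; exact_mod_cast t4) _
    (by rw [cm_eq, hM]; rfl) hz

theorem exists_lex {α : Type} (B : Set α) (hB : B.Finite) (hn : B.Nonempty) (Γ : α → ℕ → ℤ) :
    ∃ D ∈ B, ∀ D' ∈ B, ∀ t : ℕ, 2 ≤ t → (∀ h : ℕ, 2 ≤ h → h < t → Γ D' h = Γ D h) →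
      Γ D t ≤ Γ D' t := by
  obtain ⟨D, hD, h⟩ := Set.exists_min_image B (fun D => toLex fun h => Γ D (h + 2)) hB hn
  refine ⟨D, hD, fun D' hD' t ht e => not_lt.1 fun l => (h D' hD').not_gt ⟨t - 2, fun j hj =>
    e _ (by omega) (by omega), ?_⟩⟩
  simpa [Nat.sub_add_cancel ht] using l

end Pool.Agent.H35.Pat
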