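import Mathlib

set_option autoImplicit false

namespace Pool.Agent.H35.Pat

open Finset Matrix

variable {n : Type} [Fintype n] [DecidableEq n]

theorem spec (M : Matrix n n ℝ) (hM : Mᵀ = M) : ∃ (U : Matrix n n ℝ) (d : n → ℝ),
    Uᵀ * U = 1 ∧ U * Uᵀ = 1 ∧ M = U * diagonal d * Uᵀ := by
  have h : M.IsHermitian := hM
  refine ⟨h.eigenvectorUnitary, h.eigenvalues, h.eigenvectorUnitary.2.1,
    h.eigenvectorUnitary.2.2, ?_⟩
  conv_lhs => rw [h.spectral_theorem]
  rfl

theorem roots_conj {U : Matrix n n ℝ} (h : Uᵀ * U = 1) (d : n → ℝ) :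
    (U * diagonal d * Uᵀ).charpoly.roots = univ.val.map d := by
  rw [charpoly_mul_comm, ← mul_assoc, h, one_mul, charpoly_diagonal]
  have := Polynomial.roots_multiset_prod_X_sub_C (univ.val.map d)
  rwa [Multiset.map_map] at this

theorem pow_conj {U : Matrix n n ℝ} (h : Uᵀ * U = 1) (h' : U * Uᵀ = 1) (d : n → ℝ) (k : ℕ) :
    (U * diagonal d * Uᵀ) ^ k = U * diagonal (d ^ k) * Uᵀ := by
  induction k with
  | zero => rw [pow_zero, pow_zero, ← h']; congr 1; exact (mul_one U).symm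
  | succ k ih =>
    rw [pow_succ, ih, pow_succ, show diagonal (d ^ k * d) = diagonal (d ^ k) * diagonal d from
      (diagonal_mul_diagonal _ _).symm]
    simp only [mul_assoc]
    rw [← mul_assoc Uᵀ U, h, one_mul]

theorem trace_conj' {U : Matrix n n ℝ} (h : U * Uᵀ = 1) (G : Matrix n n ℝ) :
    ∑ i, (Uᵀ * G * U) i i = G.trace := by
  change (Uᵀ * G * U).trace = _
  rw [trace_mul_cycle, h, one_mul]

theorem trace_pow_conj {U : Matrix n n ℝ} (h : Uᵀ * U = 1) (h' : U * Uᵀ = 1) (d : n → ℝ)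
    (k : ℕ) : ((U * diagonal d * Uᵀ) ^ k).trace = ∑ i, d i ^ k := by
  rw [pow_conj h h', trace_mul_cycle, h, one_mul, trace_diagonal]
  rfl

theorem eig_le {U M : Matrix n n ℝ} (h : Uᵀ * U = 1) {d : n → ℝ} (hM : M = U * diagonal d * Uᵀ)
    (r : ℝ) (h0 : ∀ i j, 0 ≤ M i j) (h1 : ∀ i, ∑ j, M i j = r) (h2 : ∀ j, ∑ i, M i j = r)
    (i : n) : |d i| ≤ r := by
  have e : d i = ∑ j, ∑ k, M k j * (U k i * U j i) := by
    have : Uᵀ * M * U = diagonal d := by
      rw [hM, ← mul_assoc, ← mul_assoc, h, one_mul, mul_assoc, h, mul_one]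
    rw [← diagonal_apply_eq d i, ← this]
    simp only [mul_apply, transpose_apply, sum_mul]
    exact sum_congr rfl fun _ _ => sum_congr rfl fun _ _ => by ring
  have u : ∑ k, U k i ^ 2 = 1 := by
    simpa [mul_apply, sq] using congrFun (congrFun h i) i
  have b : ∑ j, ∑ k, M k j * ((U k i ^ 2 + U j i ^ 2) / 2) = r := by
    simp only [mul_div_assoc', mul_add, ← sum_div, sum_add_distrib]
    rw [sum_comm]
    simp only [← sum_mul, h1, h2, ← mul_sum, u]
    ring
  rw [e, ← b]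
  refine (abs_sum_le_sum_abs _ _).trans (sum_le_sum fun j _ => (abs_sum_le_sum_abs _ _).trans
    (sum_le_sum fun k _ => ?_))
  rw [abs_mul, abs_of_nonneg (h0 _ _)]
  refine mul_le_mul_of_nonneg_left (abs_le.2 ⟨?_, ?_⟩) (h0 _ _)
  · nlinarith [sq_nonneg (U k i + U j i)]
  · nlinarith [sq_nonneg (U k i - U j i)]

theorem sum_erase_inv (R : Multiset ℝ) :
    ((R.erase 0).map fun x => x⁻¹).sum = (R.map fun x => x⁻¹).sum := by
  by_cases h : (0 : ℝ) ∈ R
  · conv_rhs => rw [← Multiset.cons_erase h]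
    simp
  · rw [Multiset.erase_of_notMem h]

omit [DecidableEq n] in
theorem not_mem_erase (d : n → ℝ) :
    (0 : ℝ) ∉ (univ.val.map d).erase 0 ↔ ∑ i, (if d i = 0 then 1 else 0 : ℝ) ≤ 1 := by
  rw [← Multiset.count_eq_zero, Multiset.count_erase_self, Multiset.count_map, sum_boole]
  simp only [eq_comm (a := (0 : ℝ))]
  norm_cast
  exact Nat.sub_eq_zero_iff_le

/-- Sum of reciprocal eigenvalues from a pseudo-inverse certificate. -/
theorem pinv (C G : Matrix n n ℝ) (hC : Cᵀ = C) (h1 : C * G * C = C) (h2 : C * G * G = G)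
    (h3 : (C * G).trace + 1 = Fintype.card n) :
    (0 : ℝ) ∉ C.charpoly.roots.erase 0 ∧
      ((C.charpoly.roots.erase 0).map fun x => x⁻¹).sum = G.trace := by
  obtain ⟨U, d, u1, u2, e⟩ := spec C hC
  have k : Uᵀ * C = diagonal d * Uᵀ := by rw [e, ← mul_assoc, ← mul_assoc, u1, one_mul]
  have k' : C * U = U * diagonal d := by rw [e, mul_assoc, u1, mul_one]
  have a1 : ∀ i, d i * (Uᵀ * G * U) i i * d i = d i := fun i => by
    have : diagonal d * (Uᵀ * G * U) * diagonal d = diagonal d := by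
      calc _ = (diagonal d * Uᵀ) * G * (U * diagonal d) := by simp only [mul_assoc]
        _ = Uᵀ * (C * G * C) * U := by rw [← k, ← k']; simp only [mul_assoc]
        _ = _ := by rw [h1, k, mul_assoc, u1, mul_one]
    simpa using congrFun (congrFun this i) i
  have a2 : ∀ i, d i * (Uᵀ * G * G * U) i i = (Uᵀ * G * U) i i := fun i => by
    have : diagonal d * (Uᵀ * G * G * U) = Uᵀ * G * U := by
      calc _ = (diagonal d * Uᵀ) * G * G * U := by simp only [mul_assoc]
        _ = Uᵀ * (C * G * G) * U := by rw [← k]; simp only [mul_assoc]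
        _ = _ := by rw [h2]
    simpa using congrFun (congrFun this i) i
  have a3 : ∀ i, (Uᵀ * G * U) i i = (d i)⁻¹ := fun i => by
    by_cases h : d i = 0
    · rw [← a2, h]; simp
    · exact eq_inv_of_mul_eq_one_right (mul_right_cancel₀ h ((a1 i).trans (one_mul _).symm))
  have a4 : (C * G).trace = ∑ i, d i * (d i)⁻¹ := by
    rw [← trace_conj' u2, ← mul_assoc, k, mul_assoc, mul_assoc, ← mul_assoc Uᵀ]
    simp [a3]
  have r : C.charpoly.roots = univ.val.map d := by rw [e]; exact roots_conj u1 d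
  rw [sum_erase_inv, r, not_mem_erase, ← trace_conj' u2, Multiset.map_map]
  refine ⟨le_of_eq (add_left_cancel (a := (C * G).trace) ?_), by simp [a3]⟩
  rw [h3, a4, ← sum_add_distrib, sum_congr rfl (g := fun _ => 1) fun i _ => by
    split_ifs with h <;> simp [h]]
  simp

theorem lower (M : Matrix (Fin 18) (Fin 18) ℝ) (hM : Mᵀ = M) (h0 : ∀ i j, 0 ≤ M i j)
    (h1 : ∀ i, ∑ j, M i j = 7) (t1 : M.trace = 0) (t2 : (M ^ 2).trace = 126)
    (t3 : (M ^ 3).trace = 0) (t4 : 4878 ≤ (M ^ 4).trace) (C : Matrix (Fin 18) (Fin 18) ℝ)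
    (hC : C = (7 / 2 : ℝ) • 1 - (1 / 2 : ℝ) • M) (hz : (0 : ℝ) ∉ C.charpoly.roots.erase 0) :
    82053 / 16807 ≤ ((C.charpoly.roots.erase 0).map fun x => x⁻¹).sum := by
  obtain ⟨U, d, u1, u2, e⟩ := spec M hM
  have b := eig_le u1 e 7 h0 h1 fun j => (sum_congr rfl fun i _ =>
    congrFun (congrFun hM j) i).trans (h1 j)
  have ec : C = U * diagonal (fun i => (7 - d i) / 2) * Uᵀ := by
    have : diagonal (fun i => (7 - d i) / 2) = (7 / 2 : ℝ) • 1 - (1 / 2 : ℝ) • diagonal d := by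
      ext i j
      by_cases h : i = j
      · simp [h]; ring
      · simp [h]
    rw [this, hC, mul_sub, sub_mul, Matrix.mul_smul, Matrix.mul_smul, Matrix.smul_mul,
      Matrix.smul_mul, mul_one, u2, ← e]
  rw [ec, roots_conj u1] at hz ⊢
  rw [not_mem_erase] at hz
  rw [← pow_one M] at t1
  rw [e, trace_pow_conj u1 u2] at t1 t2 t3 t4
  rw [sum_erase_inv, Multiset.map_map]
  have key : ∀ i ∈ univ, (d i ^ 4 + 14 * d i ^ 3 + 98 * d i ^ 2 + 686 * d i ^ 1 + 4802 -
      21609 * if (7 - d i) / 2 = 0 then 1 else 0) / 16807 ≤ ((7 - d i) / 2)⁻¹ := by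
    intro i _
    obtain ⟨b1, b2⟩ := abs_le.1 (b i)
    split_ifs with h
    · rw [h, show d i = 7 by linarith]; norm_num
    · have : 0 < 7 - d i := lt_of_le_of_ne (by linarith) fun h' => h (by rw [← h']; simp)
      rw [inv_div, div_le_div_iff₀ (by norm_num) this]
      nlinarith [mul_nonneg (show 0 ≤ d i + 7 by linarith) (by positivity : 0 ≤ d i ^ 4)]
  refine le_trans ?_ (sum_le_sum key)
  simp only [← sum_div, sum_sub_distrib, sum_add_distrib, ← mul_sum, t1, t2, t3]
  simp only [sum_const, card_univ, Fintype.card_fin, nsmul_eq_mul]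
  gcongr
  push_cast
  linarith

end Pool.Agent.H35.Pat
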