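import Mathlib
import Pool.Agent.H35.Arc

set_option autoImplicit false

namespace Pool.Agent.H35.Spiral

open Set Filter Topology Pool.Agent.H35.Arc

def Up (j : ℕ) : Set (ℝ × ℝ) := {q | 0 ≤ q.2 ∧ |q.1| + q.2 - 1 / 2 = j}
def Dn (j : ℕ) : Set (ℝ × ℝ) := {q | q.2 ≤ 0 ∧ |q.1 - 1 / 2| - q.2 - 1 = j}
def Sp (K : ℕ) : Set (ℝ × ℝ) := {q | ∃ j ≤ K, q ∈ Up j ∨ q ∈ Dn j}

theorem up_arc (j : ℕ) : IsArc (Up j) ((j : ℝ) + 1 / 2, 0) (-((j : ℝ) + 1 / 2), 0) := by
  have hj : (0 : ℝ) ≤ j := Nat.cast_nonneg j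
  have h := (graph_arc (fun x => (j : ℝ) + 1 / 2 - |x|) (by fun_prop) (-((j : ℝ) + 1 / 2))
    ((j : ℝ) + 1 / 2) (by linarith)).symm
  have e1 : (j : ℝ) + 1 / 2 - |(j : ℝ) + 1 / 2| = 0 := by rw [abs_of_nonneg (by linarith)]; ring
  have e2 : (j : ℝ) + 1 / 2 - |-((j : ℝ) + 1 / 2)| = 0 := by rw [abs_neg]; exact e1
  simp only [e1, e2] at h
  convert h using 1
  ext ⟨x, y⟩
  simp only [Up, mem_ofPred_eq]
  constructor
  · rintro ⟨h1, h2⟩
    cases abs_cases x <;> refine ⟨by linarith, by linarith, by linarith⟩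
  · rintro ⟨h1, h2, h3⟩
    cases abs_cases x <;> refine ⟨by linarith, by linarith⟩

theorem dn_arc (j : ℕ) : IsArc (Dn j) (-((j : ℝ) + 1 / 2), 0) ((j : ℝ) + 3 / 2, 0) := by
  have hj : (0 : ℝ) ≤ j := Nat.cast_nonneg j
  have h := (graph_arc (fun x => |x - 1 / 2| - (j : ℝ) - 1) (by fun_prop) (-((j : ℝ) + 1 / 2))
    ((j : ℝ) + 3 / 2) (by linarith))
  have e1 : |(j : ℝ) + 3 / 2 - 1 / 2| - (j : ℝ) - 1 = 0 := by
    rw [abs_of_nonneg (by linarith)]; ring
  have e2 : |-((j : ℝ) + 1 / 2) - 1 / 2| - (j : ℝ) - 1 = 0 := by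
    rw [abs_of_nonpos (by linarith)]; ring
  simp only [e1, e2] at h
  convert h using 1
  ext ⟨x, y⟩
  simp only [Dn, mem_ofPred_eq]
  constructor
  · rintro ⟨h1, h2⟩
    cases abs_cases (x - 1 / 2) <;> refine ⟨by linarith, by linarith, by linarith⟩
  · rintro ⟨h1, h2, h3⟩
    cases abs_cases (x - 1 / 2) <;> refine ⟨by linarith, by linarith⟩

theorem turn_arc (j : ℕ) : IsArc (Up j ∪ Dn j) ((j : ℝ) + 1 / 2, 0) ((j : ℝ) + 3 / 2, 0) := by
  have hj : (0 : ℝ) ≤ j := Nat.cast_nonneg j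
  refine (up_arc j).trans (dn_arc j) ?_
  rintro ⟨x, y⟩ ⟨h1, h2⟩ ⟨h3, h4⟩
  simp only [Prod.mk.injEq] at *
  cases abs_cases x <;> cases abs_cases (x - 1 / 2) <;> constructor <;> linarith

theorem sp_arc (K : ℕ) : IsArc (Sp K) (1 / 2, 0) ((K : ℝ) + 3 / 2, 0) := by
  induction K with
  | zero =>
    have h := turn_arc 0
    simp only [Nat.cast_zero, zero_add] at h ⊢
    convert h using 1
    ext q
    simp [Sp]
  | succ K ih =>
    have h := turn_arc (K + 1)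
    have e : ((K + 1 : ℕ) : ℝ) + 1 / 2 = K + 3 / 2 := by push_cast; ring
    rw [e] at h
    have h2 := ih.trans h (by
      rintro ⟨x, y⟩ ⟨j, hj, h1⟩ h3
      have hj' : (j : ℝ) ≤ K := by exact_mod_cast hj
      have hj0 : (0 : ℝ) ≤ j := Nat.cast_nonneg j
      simp only [Up, Dn, mem_union, mem_ofPred_eq, Prod.mk.injEq] at *
      push_cast at h3
      rcases h1 with ⟨h1, h2⟩ | ⟨h1, h2⟩ <;> rcases h3 with ⟨h3, h4⟩ | ⟨h3, h4⟩ <;>
      cases abs_cases x <;> cases abs_cases (x - 1 / 2) <;> constructor <;> linarith)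
    convert h2 using 1
    ext q
    simp only [Sp, mem_union, mem_ofPred_eq]
    constructor
    · rintro ⟨j, hj, h1⟩
      rcases Nat.lt_or_ge j (K + 1) with h | h
      · exact Or.inl ⟨j, by omega, h1⟩
      · obtain rfl : j = K + 1 := by omega
        exact Or.inr h1
    · rintro (⟨j, hj, h1⟩ | h1)
      · exact ⟨j, by omega, h1⟩
      · exact ⟨K + 1, le_rfl, h1⟩

theorem sp_axis {K : ℕ} {x : ℝ} (h : (x, (0 : ℝ)) ∈ Sp K) (hx : 0 ≤ x) :
    ∃ i : ℕ, x = i + 1 / 2 := by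
  obtain ⟨j, -, ⟨-, h⟩ | ⟨-, h⟩⟩ := h
  · simp only at h
    rw [abs_of_nonneg hx] at h
    exact ⟨j, by linarith⟩
  · simp only at h
    have hj0 : (0 : ℝ) ≤ j := Nat.cast_nonneg j
    refine ⟨j + 1, ?_⟩
    push_cast
    cases abs_cases (x - 1 / 2) <;> linarith

noncomputable def xs (K i : ℕ) : ℝ := max (1 / 2) (min (i : ℝ) (K + 3 / 2))

theorem xs_zero (K : ℕ) : xs K 0 = 1 / 2 := by
  have hj0 : (0 : ℝ) ≤ K := Nat.cast_nonneg K
  simp only [xs, Nat.cast_zero]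
  rw [min_eq_left (by linarith), max_eq_left (by norm_num)]

theorem xs_last (K : ℕ) : xs K (K + 2) = K + 3 / 2 := by
  have hj0 : (0 : ℝ) ≤ K := Nat.cast_nonneg K
  simp only [xs]
  push_cast
  rw [min_eq_right (by linarith), max_eq_right (by linarith)]

theorem xs_mid {K i : ℕ} (h1 : 1 ≤ i) (h2 : i ≤ K + 1) : xs K i = i := by
  have h1' : (1 : ℝ) ≤ i := by exact_mod_cast h1
  have h2' : (i : ℝ) ≤ K + 1 := by exact_mod_cast h2
  simp only [xs]
  rw [min_eq_left (by linarith), max_eq_right (by linarith)]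

theorem xs_lt {K i j : ℕ} (h : i < j) (hj : j ≤ K + 2) : xs K i < xs K j := by
  have hK : (0 : ℝ) ≤ K := Nat.cast_nonneg K
  have h' : (i : ℝ) + 1 ≤ j := by exact_mod_cast h
  have h2' : (j : ℝ) ≤ K + 2 := by exact_mod_cast hj
  rcases Nat.eq_zero_or_pos i with rfl | hi
  · rw [xs_zero]
    rcases Nat.lt_or_ge j (K + 2) with h3 | h3
    · rw [xs_mid h (by omega)]; simp only [Nat.cast_zero] at h'; linarith
    · obtain rfl : j = K + 2 := by omega
      rw [xs_last]; linarith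
  · rw [xs_mid hi (by omega)]
    rcases Nat.lt_or_ge j (K + 2) with h3 | h3
    · rw [xs_mid (by omega) (by omega)]; linarith
    · obtain rfl : j = K + 2 := by omega
      rw [xs_last]; push_cast at h'; linarith

theorem xs_le_iff {K i j : ℕ} (hi : i ≤ K + 2) (hj : j ≤ K + 2) : xs K i ≤ xs K j ↔ i ≤ j := by
  constructor
  · intro h
    by_contra hc
    exact absurd (xs_lt (not_le.1 hc) hi) (not_lt.2 h)
  · intro h
    rcases h.lt_or_eq with h | rfl
    · exact (xs_lt h hj).le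
    · exact le_rfl

theorem xs_pos (K i : ℕ) : 1 / 2 ≤ xs K i := le_max_left _ _

theorem xs_ge {K i : ℕ} (h : i ≤ K + 1) : (i : ℝ) ≤ xs K i := by
  have h2' : (i : ℝ) ≤ K + 1 := by exact_mod_cast h
  simp only [xs]
  rw [min_eq_left (by linarith)]
  exact le_max_right _ _

theorem xs_le (K i : ℕ) : xs K (i + 1) ≤ i + 1 := by
  have hK : (0 : ℝ) ≤ i := Nat.cast_nonneg i
  simp only [xs]
  push_cast
  exact max_le (by linarith) (min_le_left _ _)

def Seg (K j : ℕ) : Set (ℝ × ℝ) := {q | xs K j ≤ q.1 ∧ q.1 ≤ xs K (j + 1) ∧ q.2 = 0}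

theorem seg_arc {K j : ℕ} (h : j ≤ K + 1) : IsArc (Seg K j) (xs K j, 0) (xs K (j + 1), 0) :=
  graph_arc (fun _ => 0) continuous_const _ _ (xs_lt (by omega) (by omega))

theorem seg_cover {K : ℕ} {x : ℝ} (h1 : 1 / 2 ≤ x) (h2 : x ≤ K + 3 / 2) :
    ∃ j ≤ K + 1, (x, (0 : ℝ)) ∈ Seg K j := by
  have hx : 0 ≤ x := by linarith
  have a1 := Nat.floor_le hx
  have a2 := Nat.lt_floor_add_one x
  have a3 : ⌊x⌋₊ ≤ K + 1 := by
    have : ((⌊x⌋₊ : ℕ) : ℝ) < (K + 2 : ℕ) := by push_cast; linarith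
    have : ⌊x⌋₊ < K + 2 := by exact_mod_cast this
    omega
  refine ⟨⌊x⌋₊, a3, ?_, ?_, rfl⟩
  · exact max_le h1 ((min_le_left _ _).trans a1)
  · refine le_trans ?_ (le_max_right _ _)
    push_cast
    exact le_min a2.le h2

theorem seg_sp {K j : ℕ} (h : j ≤ K + 1) {q : ℝ × ℝ} (h1 : q ∈ Seg K j) (h2 : q ∈ Sp K) :
    q = ((j : ℝ) + 1 / 2, 0) := by
  obtain ⟨x, y⟩ := q
  obtain ⟨a, b, c⟩ := h1
  simp only at a b c
  subst c
  have := xs_pos K j
  obtain ⟨i, rfl⟩ := sp_axis h2 (by linarith)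
  have e1 := xs_ge h
  have e2 := xs_le K j
  have f1 : (j : ℝ) < i + 1 := by linarith
  have f2 : (i : ℝ) < j + 1 := by linarith
  have g1 : j < i + 1 := by exact_mod_cast f1
  have g2 : i < j + 1 := by exact_mod_cast f2
  obtain rfl : i = j := by omega
  rfl

theorem seg_seg {K i j : ℕ} (hij : i < j) (h : j ≤ K + 1) {q : ℝ × ℝ} (h1 : q ∈ Seg K i)
    (h2 : q ∈ Seg K j) : q = (xs K j, 0) := by
  obtain ⟨x, y⟩ := q
  obtain ⟨a, b, c⟩ := h1
  obtain ⟨d, e, f⟩ := h2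
  simp only at a b c d e f
  have : xs K (i + 1) ≤ xs K j := (xs_le_iff (by omega) (by omega)).2 hij
  simp only [Prod.mk.injEq]
  exact ⟨by linarith, c⟩

noncomputable def shear (a : ℝ) : (ℝ × ℝ) ≃ₜ (ℝ × ℝ) where
  toFun q := (4 * (q.1 - a + |q.2|), 4 * q.2)
  invFun q := (q.1 / 4 + a - |q.2 / 4|, q.2 / 4)
  left_inv q := by
    have : 4 * q.2 / 4 = q.2 := by ring
    ext
    · simp only [this]; ring
    · simp only [this]
  right_inv q := by
    ext
    · simp only; ring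
    · simp only; ring
  continuous_toFun := by fun_prop
  continuous_invFun := by fun_prop

theorem cross {K j : ℕ} (h1 : 1 ≤ j) (h2 : j ≤ K) (q : ℝ × ℝ)
    (hq : ‖shear ((j : ℝ) + 1 / 2) q‖ < 1) :
    (q ∈ Seg K j ↔ (shear ((j : ℝ) + 1 / 2) q).2 = 0) ∧
      (q ∈ Sp K ↔ (shear ((j : ℝ) + 1 / 2) q).1 = 0) := by
  obtain ⟨x, y⟩ := q
  have h1' : (1 : ℝ) ≤ j := by exact_mod_cast h1
  change ‖(4 * (x - ((j : ℝ) + 1 / 2) + |y|), 4 * y)‖ < 1 at hq
  change (_ ↔ 4 * y = 0) ∧ (_ ↔ 4 * (x - ((j : ℝ) + 1 / 2) + |y|) = 0)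
  rw [Prod.norm_def, max_lt_iff, Real.norm_eq_abs, Real.norm_eq_abs, abs_lt, abs_lt] at hq
  obtain ⟨⟨a, b⟩, c, d⟩ := hq
  simp only at a b c d
  constructor
  · simp only [Seg, mem_ofPred_eq]
    rw [xs_mid h1 (by omega), xs_mid (by omega) (by omega)]
    push_cast
    constructor
    · rintro ⟨-, -, h⟩; linarith
    · intro h
      cases abs_cases y <;> refine ⟨by linarith, by linarith, by linarith⟩
  · constructor
    · rintro ⟨i, hi, ⟨e, f⟩ | ⟨e, f⟩⟩
      · simp only at e f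
        rw [abs_of_nonneg e] at a b ⊢
        rw [abs_of_nonneg (by linarith)] at f
        have f1 : (j : ℝ) < i + 1 := by linarith
        have f2 : (i : ℝ) < j + 1 := by linarith
        have g1 : j < i + 1 := by exact_mod_cast f1
        have g2 : i < j + 1 := by exact_mod_cast f2
        obtain rfl : i = j := by omega
        linarith
      · simp only at e f
        rw [abs_of_nonpos e] at a b ⊢
        rw [abs_of_nonneg (by linarith)] at f
        have f1 : (j : ℝ) < i + 2 := by linarith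
        have f2 : (i : ℝ) < j := by linarith
        have g1 : j < i + 2 := by exact_mod_cast f1
        have g2 : i < j := by exact_mod_cast f2
        obtain rfl : j = i + 1 := by omega
        push_cast
        linarith
    · intro h
      rcases le_total 0 y with hy | hy
      · refine ⟨j, h2, Or.inl ⟨hy, ?_⟩⟩
        rw [abs_of_nonneg hy] at a b h
        simp only
        rw [abs_of_nonneg (by linarith)]
        linarith
      · obtain ⟨i, rfl⟩ : ∃ i, j = i + 1 := ⟨j - 1, by omega⟩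
        refine ⟨i, by omega, Or.inr ⟨hy, ?_⟩⟩
        rw [abs_of_nonpos hy] at a b h
        simp only
        rw [abs_of_nonneg (by linarith)]
        push_cast at h
        linarith

noncomputable def uu (q : ℝ × ℝ) : ℝ := |q.1| + q.2 - 1 / 2
noncomputable def ww (q : ℝ × ℝ) : ℝ := |q.1 - 1 / 2| - q.2 - 1
noncomputable def cl (K : ℕ) (t : ℝ) : ℝ := max (-1 / 2) (min t (K + 1 / 2))
noncomputable def GG (K : ℕ) (q : ℝ × ℝ) : ℤ := if 0 ≤ q.2 then ⌊cl K (uu q)⌋ else ⌊cl K (ww q)⌋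

theorem cu (K : ℕ) : Continuous fun q => cl K (uu q) := by unfold cl uu; fun_prop
theorem cw (K : ℕ) : Continuous fun q => cl K (ww q) := by unfold cl ww; fun_prop

theorem cl_int {K : ℕ} {t : ℝ} (h : ∀ j : ℕ, j ≤ K → t ≠ j) : (⌊cl K t⌋ : ℝ) < cl K t := by
  refine lt_of_le_of_ne (Int.floor_le _) ?_
  intro he
  generalize ⌊cl K t⌋ = m at he
  have hK : (0 : ℝ) ≤ K := Nat.cast_nonneg K
  have a : (-1 / 2 : ℝ) ≤ m := he ▸ le_max_left _ _
  have b : (m : ℝ) ≤ K + 1 / 2 := he ▸ max_le (by linarith) (min_le_right _ _)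
  have a' : (-1 : ℤ) < m := by
    have : ((-1 : ℤ) : ℝ) < m := by push_cast; linarith
    exact_mod_cast this
  have b' : m < K + 1 := by
    have : (m : ℝ) < ((K + 1 : ℤ) : ℝ) := by push_cast; linarith
    exact_mod_cast this
  obtain ⟨j, rfl⟩ : ∃ j : ℕ, m = j := ⟨m.toNat, by omega⟩
  have hj : j ≤ K := by omega
  have hj' : (j : ℝ) ≤ K := by exact_mod_cast hj
  have hj0 : (0 : ℝ) ≤ j := Nat.cast_nonneg j
  apply h j hj
  simp only [cl, Int.cast_natCast] at he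
  rcases max_cases (-1 / 2) (min t ((K : ℝ) + 1 / 2)) with ⟨e, -⟩ | ⟨e, -⟩ <;>
  rcases min_cases t ((K : ℝ) + 1 / 2) with ⟨f, -⟩ | ⟨f, -⟩ <;> linarith

theorem ev_floor {f : ℝ × ℝ → ℝ} (hf : Continuous f) {p : ℝ × ℝ} (h : (⌊f p⌋ : ℝ) < f p) :
    ∀ᶠ q in 𝓝 p, ⌊f q⌋ = ⌊f p⌋ := by
  have a := hf.continuousAt.eventually (lt_mem_nhds h)
  have b := hf.continuousAt.eventually (gt_mem_nhds (Int.lt_floor_add_one (f p)))
  filter_upwards [a, b] with q a b
  exact Int.floor_eq_iff.2 ⟨a.le, b⟩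

theorem ev_floor2 {f : ℝ × ℝ → ℝ} (hf : Continuous f) (p : ℝ × ℝ) :
    ∀ᶠ q in 𝓝 p, ⌊f q⌋ = ⌊f p - 1 / 2⌋ ∨ ⌊f q⌋ = ⌊f p - 1 / 2⌋ + 1 := by
  have a := hf.continuousAt.eventually (lt_mem_nhds (show f p - 1 / 2 < f p by linarith))
  have b := hf.continuousAt.eventually (gt_mem_nhds (show f p < f p + 1 / 2 by linarith))
  filter_upwards [a, b] with q a b
  have c := Int.floor_le_floor a.le
  have d : ⌊f q⌋ ≤ ⌊f p - 1 / 2 + 1⌋ := Int.floor_le_floor (by linarith)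
  rw [Int.floor_add_one] at d
  omega

theorem ev_pos (K : ℕ) {p : ℝ × ℝ} (h : 0 < p.2) : ∀ᶠ q in 𝓝 p, GG K q = ⌊cl K (uu q)⌋ := by
  filter_upwards [continuous_snd.continuousAt.eventually (lt_mem_nhds h)] with q hq
  exact if_pos hq.le

theorem ev_neg (K : ℕ) {p : ℝ × ℝ} (h : p.2 < 0) : ∀ᶠ q in 𝓝 p, GG K q = ⌊cl K (ww q)⌋ := by
  filter_upwards [continuous_snd.continuousAt.eventually (gt_mem_nhds h)] with q hq
  exact if_neg (not_le.2 hq)

theorem gg_or (K : ℕ) (q : ℝ × ℝ) : GG K q = ⌊cl K (uu q)⌋ ∨ GG K q = ⌊cl K (ww q)⌋ := by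
  unfold GG
  split_ifs <;> simp

theorem cl_neg (K : ℕ) {t : ℝ} (h : t < 0) : ⌊cl K t⌋ = -1 := by
  have hK : (0 : ℝ) ≤ K := Nat.cast_nonneg K
  rw [Int.floor_eq_iff]
  push_cast
  refine ⟨le_trans (by norm_num) (le_max_left _ _), max_lt (by norm_num) ?_⟩
  exact (min_le_left _ _).trans_lt (by linarith)

theorem cl_big (K : ℕ) {t : ℝ} (h : K < t) : ⌊cl K t⌋ = K := by
  have hK : (0 : ℝ) ≤ K := Nat.cast_nonneg K
  rw [Int.floor_eq_iff]
  push_cast
  refine ⟨le_trans (le_min h.le (by linarith)) (le_max_right _ _), max_lt (by linarith) ?_⟩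
  exact (min_le_right _ _).trans_lt (by linarith)

theorem loc_const {K : ℕ} {p : ℝ × ℝ} (h1 : p ∉ Sp K) (h2 : ∀ j ≤ K + 1, p ∉ Seg K j) :
    ∀ᶠ q in 𝓝 p, GG K q = GG K p := by
  have hK : (0 : ℝ) ≤ K := Nat.cast_nonneg K
  have hu : 0 ≤ p.2 → (⌊cl K (uu p)⌋ : ℝ) < cl K (uu p) := fun hp =>
    cl_int fun j hj he => h1 ⟨j, hj, Or.inl ⟨hp, he⟩⟩
  have hw : p.2 ≤ 0 → (⌊cl K (ww p)⌋ : ℝ) < cl K (ww p) := fun hp =>
    cl_int fun j hj he => h1 ⟨j, hj, Or.inr ⟨hp, he⟩⟩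
  rcases lt_trichotomy p.2 0 with hp | hp | hp
  · filter_upwards [ev_neg K hp, ev_floor (cw K) (hw hp.le)] with q a b
    rw [a, b, (ev_neg K hp).self_of_nhds]
  · have e : ⌊cl K (uu p)⌋ = ⌊cl K (ww p)⌋ := by
      obtain ⟨x, y⟩ := p
      simp only at hp
      subst hp
      rcases le_or_gt x 0 with hx | hx
      · congr 2
        simp only [uu, ww]
        rw [abs_of_nonpos hx, abs_of_nonpos (by linarith)]; ring
      · by_cases h3 : 1 / 2 ≤ x
        · by_cases h4 : x ≤ K + 3 / 2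
          · obtain ⟨j, hj, h⟩ := seg_cover h3 h4
            exact absurd h (h2 j hj)
          · rw [cl_big, cl_big]
            · simp only [ww]; rw [abs_of_nonneg (by linarith)]; linarith
            · simp only [uu]; rw [abs_of_nonneg (by linarith)]; linarith
        · rw [cl_neg, cl_neg]
          · simp only [ww]; rw [abs_of_nonpos (by linarith)]; linarith
          · simp only [uu]; rw [abs_of_nonneg (by linarith)]; linarith
    filter_upwards [ev_floor (cu K) (hu hp.ge), ev_floor (cw K) (hw hp.le)] with q a b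
    rcases gg_or K q with c | c <;> rcases gg_or K p with d | d <;> omega
  · filter_upwards [ev_pos K hp, ev_floor (cu K) (hu hp.le)] with q a b
    rw [a, b, (ev_pos K hp).self_of_nhds]

theorem cl_mono (K : ℕ) {s t : ℝ} (h : s ≤ t) : cl K s ≤ cl K t :=
  max_le_max le_rfl (min_le_min h le_rfl)

theorem cl_add (K : ℕ) (t : ℝ) : cl K (t + 1) ≤ cl K t + 1 := by
  unfold cl
  rcases max_cases (-1 / 2) (min t ((K : ℝ) + 1 / 2)) with ⟨e, e'⟩ | ⟨e, e'⟩ <;>
  rcases min_cases t ((K : ℝ) + 1 / 2) with ⟨f, f'⟩ | ⟨f, f'⟩ <;>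
  rcases max_cases (-1 / 2) (min (t + 1) ((K : ℝ) + 1 / 2)) with ⟨g, g'⟩ | ⟨g, g'⟩ <;>
  rcases min_cases (t + 1) ((K : ℝ) + 1 / 2) with ⟨i, i'⟩ | ⟨i, i'⟩ <;> linarith

theorem loc_jump (K : ℕ) {p : ℝ × ℝ} (h : ∀ i : ℕ, p ≠ ((i : ℝ) + 1 / 2, 0)) :
    ∃ m : ℤ, ∀ᶠ q in 𝓝 p, GG K q = m ∨ GG K q = m + 1 := by
  rcases lt_trichotomy p.2 0 with hp | hp | hp
  · refine ⟨⌊cl K (ww p) - 1 / 2⌋, ?_⟩
    filter_upwards [ev_neg K hp, ev_floor2 (cw K) p] with q a b
    rwa [a]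
  · obtain ⟨x, y⟩ := p
    simp only at hp
    subst hp
    rcases le_or_gt x 0 with hx | hx
    · have e : uu (x, 0) = ww (x, 0) := by
        simp only [uu, ww]
        rw [abs_of_nonpos hx, abs_of_nonpos (by linarith)]; ring
      refine ⟨⌊cl K (ww (x, 0)) - 1 / 2⌋, ?_⟩
      filter_upwards [ev_floor2 (cu K) (x, 0), ev_floor2 (cw K) (x, 0)] with q a b
      rw [e] at a
      rcases gg_or K q with c | c <;> rwa [c]
    · have hu : (⌊cl K (uu (x, 0))⌋ : ℝ) < cl K (uu (x, 0)) := cl_int fun j _ he => by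
        apply h j
        simp only [uu] at he
        rw [abs_of_nonneg hx.le] at he
        simp only [Prod.mk.injEq, and_true]
        linarith
      have hw : (⌊cl K (ww (x, 0))⌋ : ℝ) < cl K (ww (x, 0)) := cl_int fun j _ he => by
        apply h (j + 1)
        simp only [ww] at he
        have hj0 : (0 : ℝ) ≤ j := Nat.cast_nonneg j
        simp only [Prod.mk.injEq, and_true]
        push_cast
        cases abs_cases (x - 1 / 2) <;> linarith
      have e1 : ww (x, 0) ≤ uu (x, 0) := by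
        simp only [uu, ww]
        rw [abs_of_nonneg hx.le]
        cases abs_cases (x - 1 / 2) <;> linarith
      have e2 : uu (x, 0) ≤ ww (x, 0) + 1 := by
        simp only [uu, ww]
        rw [abs_of_nonneg hx.le]
        cases abs_cases (x - 1 / 2) <;> linarith
      have f1 := Int.floor_le_floor (cl_mono K e1)
      have f2 := Int.floor_le_floor ((cl_mono K e2).trans (cl_add K _))
      rw [Int.floor_add_one] at f2
      refine ⟨⌊cl K (ww (x, 0))⌋, ?_⟩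
      filter_upwards [ev_floor (cu K) hu, ev_floor (cw K) hw] with q a b
      rcases gg_or K q with c | c <;> omega
  · refine ⟨⌊cl K (uu p) - 1 / 2⌋, ?_⟩
    filter_upwards [ev_pos K hp, ev_floor2 (cu K) p] with q a b
    rwa [a]

end Pool.Agent.H35.Spiral
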