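import Mathlib
import Pool.Agent.H35.Spiral

set_option autoImplicit false

namespace Pool.Agent.H35.Spiral

open Set Filter Topology Pool.Agent.H35.Arc

def GR (K : ℕ) : SimpleGraph (Fin (K + 3)) where
  Adj u v := u.1 + 1 = v.1 ∨ v.1 + 1 = u.1 ∨ (u.1 = 0 ∧ v.1 = K + 2) ∨ (v.1 = 0 ∧ u.1 = K + 2)
  symm := ⟨fun u v h => by omega⟩
  loopless := ⟨fun u h => by omega⟩

def idx (K : ℕ) (u v : Fin (K + 3)) : ℕ :=
  if u.1 + 1 = v.1 then u.1 else if v.1 + 1 = u.1 then v.1 else K + 2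

def BB (K j : ℕ) : Set (ℝ × ℝ) := if j = K + 2 then Sp K else Seg K j

noncomputable def ps (K : ℕ) (u : Fin (K + 3)) : ℝ × ℝ := (xs K u.1, 0)

theorem idx_cases {K : ℕ} {u v : Fin (K + 3)} (h : (GR K).Adj u v) :
    (idx K u v = u.1 ∧ u.1 + 1 = v.1) ∨ (idx K u v = v.1 ∧ v.1 + 1 = u.1) ∨
    (idx K u v = K + 2 ∧ u.1 = 0 ∧ v.1 = K + 2) ∨ (idx K u v = K + 2 ∧ v.1 = 0 ∧ u.1 = K + 2) := by
  simp only [GR] at h
  unfold idx
  split_ifs <;> omega

theorem idx_symm {K : ℕ} {u v : Fin (K + 3)} (h : (GR K).Adj u v) : idx K u v = idx K v u := by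
  have a := idx_cases h
  have b := idx_cases h.symm
  omega

theorem idx_le {K : ℕ} {u v : Fin (K + 3)} (h : (GR K).Adj u v) : idx K u v ≤ K + 2 := by
  have a := idx_cases h
  have := u.2
  have := v.2
  omega

theorem idx_inj {K : ℕ} {u v x y : Fin (K + 3)} (h : (GR K).Adj u v) (k : (GR K).Adj x y)
    (e : idx K u v = idx K x y) : s(u, v) = s(x, y) := by
  have a := idx_cases h
  have b := idx_cases k
  have := u.2
  have := v.2
  have := x.2
  have := y.2
  rw [Sym2.eq_iff]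
  simp only [Fin.ext_iff]
  omega

theorem BB_seg {K j : ℕ} (h : j ≤ K + 1) : BB K j = Seg K j := if_neg (by omega)
theorem BB_sp (K : ℕ) : BB K (K + 2) = Sp K := if_pos rfl

theorem BB_arc {K : ℕ} {u v : Fin (K + 3)} (h : (GR K).Adj u v) :
    IsArc (BB K (idx K u v)) (ps K u) (ps K v) := by
  have := u.2
  have := v.2
  rcases idx_cases h with ⟨a, b⟩ | ⟨a, b⟩ | ⟨a, b, c⟩ | ⟨a, b, c⟩
  · rw [a, BB_seg (by omega), ps, ps, ← b]; exact seg_arc (by omega)
  · rw [a, BB_seg (by omega), ps, ps, ← b]; exact (seg_arc (by omega)).symm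
  · rw [a, BB_sp, ps, ps, b, c, xs_zero, xs_last]; exact sp_arc K
  · rw [a, BB_sp, ps, ps, b, c, xs_zero, xs_last]; exact (sp_arc K).symm

theorem BB_vert {K : ℕ} {u v w : Fin (K + 3)} (h : (GR K).Adj u v)
    (hw : ps K w ∈ BB K (idx K u v)) : w = u ∨ w = v := by
  have := u.2
  have := v.2
  have := w.2
  simp only [Fin.ext_iff]
  have k1 : ∀ j ≤ K + 1, ps K w ∈ Seg K j → w.1 = j ∨ w.1 = j + 1 := by
    rintro j hj ⟨a, b, -⟩
    have a' := (xs_le_iff (by omega) (by omega)).1 a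
    have b' := (xs_le_iff (by omega) (by omega)).1 b
    omega
  have k2 : ps K w ∈ Sp K → w.1 = 0 ∨ w.1 = K + 2 := by
    intro hs
    obtain ⟨i, hi⟩ := sp_axis hs (by linarith [xs_pos K w.1])
    by_contra hc
    rw [xs_mid (by omega) (by omega)] at hi
    have f1 : (i : ℝ) < (w.1 : ℕ) := by linarith
    have f2 : ((w.1 : ℕ) : ℝ) < i + 1 := by linarith
    have g1 : i < w.1 := by exact_mod_cast f1
    have g2 : w.1 < i + 1 := by exact_mod_cast f2
    omega
  rcases idx_cases h with ⟨a, b⟩ | ⟨a, b⟩ | ⟨a, b, c⟩ | ⟨a, b, c⟩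
  · rw [a, BB_seg (by omega)] at hw; have := k1 _ (by omega) hw; omega
  · rw [a, BB_seg (by omega)] at hw; have := k1 _ (by omega) hw; omega
  · rw [a, BB_sp] at hw; have := k2 hw; omega
  · rw [a, BB_sp] at hw; have := k2 hw; omega

theorem exists_edge {K j : ℕ} (h : j ≤ K + 2) :
    ∃ u v : Fin (K + 3), (GR K).Adj u v ∧ idx K u v = j := by
  rcases h.lt_or_eq with h | rfl
  · exact ⟨⟨j, by omega⟩, ⟨j + 1, by omega⟩, Or.inl rfl, by simp [idx]⟩
  · exact ⟨⟨0, by omega⟩, ⟨K + 2, by omega⟩, by simp [GR], by simp [idx]⟩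

theorem card_edges (K : ℕ) : (GR K).edgeSet.ncard ≤ K + 3 := by
  have : (GR K).edgeSet ⊆ (fun u : Fin (K + 3) => s(u, ⟨(u.1 + 1) % (K + 3),
      Nat.mod_lt _ (by omega)⟩)) '' univ := by
    intro e he
    induction e using Sym2.ind with
    | _ u v =>
      have := u.2
      have := v.2
      have h : (GR K).Adj u v := he
      simp only [GR] at h
      have e : ∀ a b : Fin (K + 3), (a.1 + 1 = b.1 ∨ (a.1 = K + 2 ∧ b.1 = 0)) →
          (⟨(a.1 + 1) % (K + 3), Nat.mod_lt _ (by omega)⟩ : Fin (K + 3)) = b := by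
        intro a b hab
        have := b.2
        apply Fin.ext
        rcases hab with hab | ⟨h1, h2⟩
        · simp only [hab]; exact Nat.mod_eq_of_lt this
        · simp only [h1, h2]; exact Nat.mod_self _
      rcases h with h | h | ⟨h, h'⟩ | ⟨h, h'⟩
      · exact ⟨u, trivial, by simp only [e u v (Or.inl h)]⟩
      · exact ⟨v, trivial, by simp only [e v u (Or.inl h)]; exact Sym2.eq_swap⟩
      · exact ⟨v, trivial, by simp only [e v u (Or.inr ⟨h', h⟩)]; exact Sym2.eq_swap⟩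
      · exact ⟨u, trivial, by simp only [e u v (Or.inr ⟨h', h⟩)]⟩
  refine (Set.ncard_le_ncard this (Set.toFinite _)).trans ((Set.ncard_image_le).trans ?_)
  simp [Set.ncard_univ]

theorem pair {K i j : ℕ} (hi : i ≤ K + 2) (hj : j ≤ K + 2) (hij : i < j) :
    ∃ r, (∀ p ∈ BB K i ∩ BB K j, p = r) ∧ ((∃ w, ps K w = r) ∨ (j = K + 2 ∧ (∀ w, ps K w ≠ r) ∧
      ∃ φ : (ℝ × ℝ) ≃ₜ (ℝ × ℝ), φ r = 0 ∧ ∀ q, ‖φ q‖ < 1 →
        ((q ∈ BB K i ↔ (φ q).2 = 0) ∧ (q ∈ BB K j ↔ (φ q).1 = 0)))) := by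
  rw [BB_seg (show i ≤ K + 1 by omega)]
  rcases hj.lt_or_eq with hj | rfl
  · rw [BB_seg (show j ≤ K + 1 by omega)]
    exact ⟨_, fun p hp => seg_seg hij (by omega) hp.1 hp.2, Or.inl ⟨⟨j, by omega⟩, rfl⟩⟩
  · rw [BB_sp]
    refine ⟨_, fun p hp => seg_sp (by omega) hp.1 hp.2, ?_⟩
    by_cases h0 : i = 0
    · refine Or.inl ⟨⟨0, by omega⟩, ?_⟩
      simp [ps, xs_zero, h0]
    by_cases h1 : i = K + 1
    · refine Or.inl ⟨⟨K + 2, by omega⟩, ?_⟩
      simp only [ps, xs_last, h1, Prod.mk.injEq, and_true]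
      push_cast; ring
    refine Or.inr ⟨rfl, ?_, shear ((i : ℝ) + 1 / 2), ?_, cross (by omega) (by omega)⟩
    · intro w hw
      have e : xs K w.1 = i + 1 / 2 := congrArg Prod.fst hw
      have := w.2
      have a := xs_mid (K := K) (i := i) (by omega) (by omega)
      have b := xs_mid (K := K) (i := i + 1) (by omega) (by omega)
      push_cast at b
      have a' : ¬ xs K w.1 ≤ xs K i := by linarith
      have b' : ¬ xs K (i + 1) ≤ xs K w.1 := by linarith
      rw [xs_le_iff (by omega) (by omega)] at a' b'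
      omega
    · change (4 * ((i : ℝ) + 1 / 2 - ((i : ℝ) + 1 / 2) + |(0 : ℝ)|), 4 * (0 : ℝ)) = 0
      simp

theorem main :

    ¬ (∃ c : ℝ, c < 1 ∧
      ∀ (V : Type) [Fintype V] (G : SimpleGraph V) (pos : V → ℝ × ℝ)
        (γ : V → V → unitInterval → ℝ × ℝ) (S : Set (ℝ × ℝ)),
        Function.Injective pos →
        (∀ u v, G.Adj u v →
          Continuous (γ u v) ∧ Function.Injective (γ u v) ∧
          γ u v 0 = pos u ∧ γ u v 1 = pos v ∧
          Set.range (γ u v) = Set.range (γ v u) ∧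
          ∀ w, pos w ∈ Set.range (γ u v) → w = u ∨ w = v) →
        (∀ u v x y, G.Adj u v → G.Adj x y → s(u, v) ≠ s(x, y) →
          (Set.range (γ u v) ∩ Set.range (γ x y)).Subsingleton ∧
          ∀ p ∈ Set.range (γ u v) ∩ Set.range (γ x y),
            (∃ w, pos w = p) ∨
            ((∀ w, pos w ≠ p) ∧
              ∃ φ : (ℝ × ℝ) ≃ₜ (ℝ × ℝ), φ p = 0 ∧
                ∀ q, ‖φ q‖ < 1 →
                  ((q ∈ Set.range (γ u v) ↔ (φ q).2 = 0) ∧
                   (q ∈ Set.range (γ x y) ↔ (φ q).1 = 0)))) →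
        (∀ u₁ v₁ u₂ v₂ u₃ v₃, G.Adj u₁ v₁ → G.Adj u₂ v₂ → G.Adj u₃ v₃ →
          s(u₁, v₁) ≠ s(u₂, v₂) → s(u₁, v₁) ≠ s(u₃, v₃) → s(u₂, v₂) ≠ s(u₃, v₃) →
          ∀ p, p ∈ Set.range (γ u₁ v₁) → p ∈ Set.range (γ u₂ v₂) →
            p ∈ Set.range (γ u₃ v₃) → ∃ w, pos w = p) →
        S = Set.range pos ∪ ⋃ u, ⋃ v, ⋃ (_ : G.Adj u v), Set.range (γ u v) →
        ∀ F F' : Set (ℝ × ℝ),
          (∃ z, z ∉ S ∧ F = connectedComponentIn Sᶜ z) →
          (∃ z, z ∉ S ∧ F' = connectedComponentIn Sᶜ z) →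
          ∃ (n : ℕ) (f : ℕ → Set (ℝ × ℝ)),
            (n : ℝ) ≤ c * (G.edgeSet.ncard : ℝ) ∧ f 0 = F ∧ f n = F' ∧
            (∀ i ≤ n, ∃ z, z ∉ S ∧ f i = connectedComponentIn Sᶜ z) ∧
            ∀ i < n, f i = f (i + 1) ∨
              ∃ p ∈ closure (f i) ∩ closure (f (i + 1)),
                p ∉ Set.range pos ∧
                ∃ u v, G.Adj u v ∧ p ∈ Set.range (γ u v) ∧
                  ∀ x y, G.Adj x y → p ∈ Set.range (γ x y) → s(x, y) = s(u, v)) := by
  rintro ⟨c, hc, H⟩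
  obtain ⟨K, hK⟩ := exists_nat_gt (2 / (1 - max c 0))
  have hc' : 0 < 1 - max c 0 := by
    have : max c 0 < 1 := max_lt hc one_pos
    linarith
  rw [div_lt_iff₀ hc'] at hK
  have hex : ∀ u v : Fin (K + 3), ∃ γ : unitInterval → ℝ × ℝ, (GR K).Adj u v →
      Continuous γ ∧ Function.Injective γ ∧ γ 0 = ps K u ∧ γ 1 = ps K v ∧
        range γ = BB K (idx K u v) := by
    intro u v
    by_cases h : (GR K).Adj u v
    · obtain ⟨γ, hγ⟩ := BB_arc h
      exact ⟨γ, fun _ => hγ⟩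
    · exact ⟨fun _ => 0, fun h' => absurd h' h⟩
  choose γ hγ using hex
  have hr : ∀ {u v}, (GR K).Adj u v → range (γ u v) = BB K (idx K u v) :=
    fun h => (hγ _ _ h).2.2.2.2
  set S : Set (ℝ × ℝ) := range (ps K) ∪ ⋃ u, ⋃ v, ⋃ (_ : (GR K).Adj u v), range (γ u v) with hS
  have hSB : ∀ j ≤ K + 2, BB K j ⊆ S := by
    intro j hj q hq
    obtain ⟨u, v, h, rfl⟩ := exists_edge hj
    refine Or.inr ?_
    simp only [mem_iUnion]
    exact ⟨u, v, h, hr h ▸ hq⟩
  have hnot : ∀ y : ℝ, 0 ≤ y → (∀ j : ℕ, j ≤ K → y - 1 / 2 ≠ j) → ((0 : ℝ), y) ∉ S := by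
    intro y hy hj hm
    rcases hm with ⟨w, hw⟩ | hm
    · have := xs_pos K w.1
      have e : xs K w.1 = 0 := congrArg Prod.fst hw
      linarith
    · simp only [mem_iUnion] at hm
      obtain ⟨u, v, h, hm⟩ := hm
      rw [hr h] at hm
      rcases (idx_le h).lt_or_eq with e | e
      · rw [BB_seg (by omega)] at hm
        have := xs_pos K (idx K u v)
        have := hm.1
        simp only at this
        linarith
      · rw [e, BB_sp] at hm
        obtain ⟨j, hj', ⟨a, b⟩ | ⟨a, b⟩⟩ := hm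
        · simp only [abs_zero, zero_add] at b
          exact hj j hj' b
        · simp only at a b
          have hj0 : (0 : ℝ) ≤ j := Nat.cast_nonneg j
          rw [abs_of_neg (by norm_num)] at b
          linarith
  have hK0 : (0 : ℝ) ≤ K := Nat.cast_nonneg K
  have n0 : ((0 : ℝ), (0 : ℝ)) ∉ S := hnot 0 le_rfl fun j _ e => by
    have hj0 : (0 : ℝ) ≤ j := Nat.cast_nonneg j
    linarith
  have n1 : ((0 : ℝ), (K + 2 : ℝ)) ∉ S := hnot _ (by linarith) fun j hj e => by
    have hj0 : (j : ℝ) ≤ K := by exact_mod_cast hj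
    linarith
  have hpair : ∀ u v x y, (GR K).Adj u v → (GR K).Adj x y → s(u, v) ≠ s(x, y) →
      ∃ r, (∀ p ∈ range (γ u v) ∩ range (γ x y), p = r) ∧ ((∃ w, ps K w = r) ∨
        ((idx K u v = K + 2 ∨ idx K x y = K + 2) ∧ (∀ w, ps K w ≠ r) ∧
        ∃ φ : (ℝ × ℝ) ≃ₜ (ℝ × ℝ), φ r = 0 ∧ ∀ q, ‖φ q‖ < 1 →
          ((q ∈ range (γ u v) ↔ (φ q).2 = 0) ∧ (q ∈ range (γ x y) ↔ (φ q).1 = 0)))) := by
    intro u v x y h k hne
    rw [hr h, hr k]
    have hne' : idx K u v ≠ idx K x y := fun e => hne (idx_inj h k e)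
    rcases lt_or_gt_of_ne hne' with e | e
    · obtain ⟨r, a, b | ⟨b, d⟩⟩ := pair (idx_le h) (idx_le k) e
      · exact ⟨r, a, Or.inl b⟩
      · exact ⟨r, a, Or.inr ⟨Or.inr b, d⟩⟩
    · obtain ⟨r, a, b | ⟨b, d, φ, h0, hφ⟩⟩ := pair (idx_le k) (idx_le h) e
      · exact ⟨r, fun p hp => a p ⟨hp.2, hp.1⟩, Or.inl b⟩
      · refine ⟨r, fun p hp => a p ⟨hp.2, hp.1⟩, Or.inr ⟨Or.inl b, d,
          φ.trans (Homeomorph.prodComm _ _), ?_, ?_⟩⟩
        · simp [h0]
        · intro q hq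
          have : ‖φ q‖ < 1 := by
            simp only [Homeomorph.trans_apply, Homeomorph.coe_prodComm, Prod.norm_def,
              Prod.fst_swap, Prod.snd_swap] at hq ⊢
            rwa [max_comm]
          exact ⟨(hφ q this).2, (hφ q this).1⟩
  obtain ⟨n, f, hn, f0, fn, hf, hstep⟩ := H (Fin (K + 3)) (GR K) (ps K) γ S
    (by
      intro u v h
      have e : xs K u.1 = xs K v.1 := congrArg Prod.fst h
      have := u.2
      have := v.2
      have a := (xs_le_iff (by omega) (by omega)).1 e.le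
      have b := (xs_le_iff (by omega) (by omega)).1 e.ge
      exact Fin.ext (by omega))
    (by
      intro u v h
      obtain ⟨a, b, c, d, e⟩ := hγ u v h
      refine ⟨a, b, c, d, by rw [e, hr h.symm, idx_symm h], fun w hw => BB_vert h (e ▸ hw)⟩)
    (by
      intro u v x y h k hne
      obtain ⟨r, a, b⟩ := hpair u v x y h k hne
      refine ⟨fun p hp q hq => (a p hp).trans (a q hq).symm, fun p hp => ?_⟩
      rw [a p hp]
      rcases b with b | ⟨-, b⟩
      · exact Or.inl b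
      · exact Or.inr b)
    (by
      intro u₁ v₁ u₂ v₂ u₃ v₃ h1 h2 h3 n12 n13 n23 p p1 p2 p3
      obtain ⟨r, a, b | ⟨b, -⟩⟩ := hpair _ _ _ _ h1 h2 n12
      · exact a p ⟨p1, p2⟩ ▸ b
      obtain ⟨r', a', b' | ⟨b', -⟩⟩ := hpair _ _ _ _ h1 h3 n13
      · exact a' p ⟨p1, p3⟩ ▸ b'
      obtain ⟨r'', a'', b'' | ⟨b'', -⟩⟩ := hpair _ _ _ _ h2 h3 n23
      · exact a'' p ⟨p2, p3⟩ ▸ b''
      have e12 : idx K u₁ v₁ ≠ idx K u₂ v₂ := fun e => n12 (idx_inj h1 h2 e)
      have e13 : idx K u₁ v₁ ≠ idx K u₃ v₃ := fun e => n13 (idx_inj h1 h3 e)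
      have e23 : idx K u₂ v₂ ≠ idx K u₃ v₃ := fun e => n23 (idx_inj h2 h3 e)
      omega)
    rfl _ _ ⟨_, n0, rfl⟩ ⟨_, n1, rfl⟩
  have hcont : ContinuousOn (GG K) Sᶜ := by
    intro p hp
    have := loc_const (K := K) (p := p) (fun h => hp (hSB (K + 2) le_rfl (by rwa [BB_sp])))
      (fun j hj h => hp (hSB j (by omega) (by rwa [BB_seg hj])))
    exact (Filter.EventuallyEq.continuousAt this).continuousWithinAt
  have hconst : ∀ i ≤ n, ∀ q ∈ f i, ∀ q' ∈ f i, GG K q = GG K q' := by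
    intro i hi q hq q' hq'
    obtain ⟨z, hz, e⟩ := hf i hi
    rw [e] at hq hq'
    exact isPreconnected_connectedComponentIn.constant
      (hcont.mono (connectedComponentIn_subset _ _)) hq hq'
  have hind : ∀ i ≤ n, ∀ q ∈ f i, GG K q ≤ -1 + i := by
    intro i
    induction i with
    | zero =>
      intro hi q hq
      have := hconst 0 hi q hq (0, 0) (by rw [f0]; exact mem_connectedComponentIn n0)
      rw [this]
      simp only [GG, le_refl, if_true]
      rw [cl_neg K (by simp [uu])]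
      simp
    | succ i ih =>
      intro hi q hq
      rcases hstep i (by omega) with e | ⟨p, ⟨p1, p2⟩, hp, u, v, h, hm, hu⟩
      · have := ih (by omega) q (e ▸ hq)
        push_cast; omega
      · have hne : ∀ j : ℕ, p ≠ ((j : ℝ) + 1 / 2, 0) := by
          intro j e
          have hj0 : (0 : ℝ) ≤ j := Nat.cast_nonneg j
          have hjK : j ≤ K + 1 := by
            rw [hr h] at hm
            have : p.1 ≤ K + 3 / 2 := by
              rcases (idx_le h).lt_or_eq with e' | e'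
              · rw [BB_seg (by omega)] at hm
                refine hm.2.1.trans ?_
                rw [← xs_last, xs_le_iff (by omega) (by omega)]; omega
              · rw [e', BB_sp] at hm
                obtain ⟨l, hl, ⟨a, b⟩ | ⟨a, b⟩⟩ := hm
                · have hl' : (l : ℝ) ≤ K := by exact_mod_cast hl
                  linarith [le_abs_self p.1]
                · have hl' : (l : ℝ) ≤ K := by exact_mod_cast hl
                  linarith [le_abs_self (p.1 - 1 / 2)]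
            rw [e] at this
            have : (j : ℝ) ≤ (K + 1 : ℕ) := by push_cast; simp only at this; linarith
            exact_mod_cast this
          have hjK' : (j : ℝ) ≤ K + 1 := by exact_mod_cast hjK
          obtain ⟨l, hl, hs⟩ := seg_cover (K := K) (x := (j : ℝ) + 1 / 2) (by linarith) (by linarith)
          have hsp : p ∈ Sp K := by
            rw [e]
            rcases hjK.lt_or_eq with e' | e'
            · exact ⟨j, by omega, Or.inl (up_arc j).left_mem⟩
            · have := (sp_arc K).right_mem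
              rw [e']; push_cast
              convert this using 2; ring
          obtain ⟨x, y, k, ek⟩ := exists_edge (K := K) (j := l) (by omega)
          obtain ⟨x', y', k', ek'⟩ := exists_edge (K := K) (j := K + 2) le_rfl
          have a := hu x y k (by rw [hr k, ek, BB_seg hl, e]; exact hs)
          have b := hu x' y' k' (by rw [hr k', ek', BB_sp]; exact hsp)
          have := a.trans b.symm
          rw [Sym2.eq_iff] at this
          rcases this with ⟨rfl, rfl⟩ | ⟨rfl, rfl⟩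
          · omega
          · rw [idx_symm k] at ek; omega
        obtain ⟨m, hm⟩ := loc_jump K hne
        obtain ⟨q1, a1, b1⟩ := mem_closure_iff_nhds.1 p1 _ hm
        obtain ⟨q2, a2, b2⟩ := mem_closure_iff_nhds.1 p2 _ hm
        have i1 := ih (by omega) q1 b1
        have i2 := hconst (i + 1) hi q hq q2 b2
        simp only [mem_ofPred_eq] at a1 a2
        push_cast; omega
  have hfin := hind n le_rfl (0, K + 2) (by rw [fn]; exact mem_connectedComponentIn n1)
  simp only [GG] at hfin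
  rw [if_pos (by linarith), cl_big K (by simp only [uu, abs_zero]; linarith)] at hfin
  have h1 : (K : ℝ) + 1 ≤ n := by
    have : K + 1 ≤ n := by omega
    exact_mod_cast this
  have h2 : (((GR K).edgeSet.ncard : ℕ) : ℝ) ≤ K + 3 := by exact_mod_cast card_edges K
  have h3 : (0 : ℝ) ≤ (((GR K).edgeSet.ncard : ℕ) : ℝ) := Nat.cast_nonneg _
  have h4 := mul_le_mul_of_nonneg_right (le_max_left c 0) h3
  have h5 := mul_le_mul_of_nonneg_left h2 (le_max_right c 0)
  nlinarith

end Pool.Agent.H35.Spiral
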