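import Mathlib

set_option autoImplicit false

namespace Pool.Agent.H35.TwoCyc

/-- vertex sequences `X`, `Y` on the two cycles whose labels and edge labels cover `1..2(m+n)` -/
def Cov (m n : ℕ) (X Y : ℕ → ℕ) (k : ℕ) : Prop :=
  ∀ v, 1 ≤ v → v ≤ 2 * (m + n) → ∃ j, (j < m ∧ X j = v) ∨ (j + 1 < m ∧ X j + X (j + 1) + v = k) ∨
    (j + 1 = m ∧ X j + X 0 + v = k) ∨ (j < n ∧ Y j = v) ∨ (j + 1 < n ∧ Y j + Y (j + 1) + v = k) ∨
    (j + 1 = n ∧ Y j + Y 0 + v = k)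

end Pool.Agent.H35.TwoCyc
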