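import Pool.Agent.H35.TwoCyc

set_option autoImplicit false
set_option linter.unusedVariables false

namespace Pool.Agent.H35.TwoCyc

def X00 (s u j : ℕ) : ℕ :=
  if j < 2 * s + 3 then (if (j) % 2 = 0 then (1 + 1 * ((j) / 2)) else (5 * s + 5 * u + 1 + 1 * ((j) / 2))) else
  (if (j - (2 * s + 3)) % 2 = 0 then (4 * s + 3 * u + 2 - (1 * ((j - (2 * s + 3)) / 2))) else (5 * s + 4 * u + 1 - (1 * ((j - (2 * s + 3)) / 2))))

lemma X00_0e (s u j : ℕ) (hp0 : 2 ≤ u) (h1 : 0 ≤ j) (h2 : j < 2 * s + 3) (h3 : (j) % 2 = 0) :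
    2 * X00 s u j = j + 2 := by
  unfold X00; rw [if_pos (by omega), if_pos (by omega)] <;> omega

lemma X00_0o (s u j : ℕ) (hp0 : 2 ≤ u) (h1 : 0 ≤ j) (h2 : j < 2 * s + 3) (h3 : (j) % 2 = 1) :
    2 * X00 s u j = 10 * s + 10 * u + j + 1 := by
  unfold X00; rw [if_pos (by omega), if_neg (by omega)] <;> omega

lemma X00_1e (s u j : ℕ) (hp0 : 2 ≤ u) (h1 : 2 * s + 3 ≤ j) (h2 : j < 4 * s + 4) (h3 : (j - (2 * s + 3)) % 2 = 0) :
    2 * X00 s u j + j = 10 * s + 6 * u + 7 := by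
  unfold X00; rw [if_neg (by omega), if_pos (by omega)] <;> omega

lemma X00_1o (s u j : ℕ) (hp0 : 2 ≤ u) (h1 : 2 * s + 3 ≤ j) (h2 : j < 4 * s + 4) (h3 : (j - (2 * s + 3)) % 2 = 1) :
    2 * X00 s u j + j = 12 * s + 8 * u + 6 := by
  unfold X00; rw [if_neg (by omega), if_neg (by omega)] <;> omega

def Y00 (s u j : ℕ) : ℕ :=
  if j + 3 < 2 * u then (if (j) % 2 = 0 then (6 * s + 6 * u - (1 * ((j) / 2))) else (s + u - (1 * ((j) / 2)))) else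
  if j + 5 < 4 * u then (if (j + 3 - (2 * u)) % 2 = 0 then (3 * s + 2 * u + 2 + 1 * ((j + 3 - (2 * u)) / 2)) else (2 * s + u + 3 + 1 * ((j + 3 - (2 * u)) / 2))) else
  if j + 8 < 6 * u then (if (j + 5 - (4 * u)) % 2 = 0 then (5 * s + 5 * u - (1 * ((j + 5 - (4 * u)) / 2))) else (4 * s + 4 * u - (1 * ((j + 5 - (4 * u)) / 2)))) else
  if j + 7 < 6 * u + 2 * s then (if (j + 8 - (6 * u)) % 2 = 0 then (2 * s + u + 2 - (1 * ((j + 8 - (6 * u)) / 2))) else (3 * s + 2 * u + 1 - (1 * ((j + 8 - (6 * u)) / 2)))) else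
  if j + 6 < 6 * u + 2 * s then (6 * s + 6 * u + 1) else
  if j + 5 < 6 * u + 2 * s then (8 * s + 8 * u + 1) else
  (3 * s + 3 * u + 1)

lemma Y00_0e (s u j : ℕ) (hp0 : 2 ≤ u) (h1 : 0 ≤ j) (h2 : j + 3 < 2 * u) (h3 : (j) % 2 = 0) :
    2 * Y00 s u j + j = 12 * s + 12 * u := by
  unfold Y00; rw [if_pos (by omega), if_pos (by omega)] <;> omega

lemma Y00_0o (s u j : ℕ) (hp0 : 2 ≤ u) (h1 : 0 ≤ j) (h2 : j + 3 < 2 * u) (h3 : (j) % 2 = 1) :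
    2 * Y00 s u j + j = 2 * s + 2 * u + 1 := by
  unfold Y00; rw [if_pos (by omega), if_neg (by omega)] <;> omega

lemma Y00_1e (s u j : ℕ) (hp0 : 2 ≤ u) (h1 : 2 * u ≤ j + 3) (h2 : j + 5 < 4 * u) (h3 : (j + 3 - (2 * u)) % 2 = 0) :
    2 * Y00 s u j = 6 * s + 2 * u + j + 7 := by
  unfold Y00; rw [if_neg (by omega), if_pos (by omega), if_pos (by omega)] <;> omega

lemma Y00_1o (s u j : ℕ) (hp0 : 2 ≤ u) (h1 : 2 * u ≤ j + 3) (h2 : j + 5 < 4 * u) (h3 : (j + 3 - (2 * u)) % 2 = 1) :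
    2 * Y00 s u j = 4 * s + j + 8 := by
  unfold Y00; rw [if_neg (by omega), if_pos (by omega), if_neg (by omega)] <;> omega

lemma Y00_2e (s u j : ℕ) (hp0 : 2 ≤ u) (h1 : 4 * u ≤ j + 5) (h2 : j + 8 < 6 * u) (h3 : (j + 5 - (4 * u)) % 2 = 0) :
    2 * Y00 s u j + j + 5 = 10 * s + 14 * u := by
  unfold Y00; rw [if_neg (by omega), if_neg (by omega), if_pos (by omega), if_pos (by omega)] <;> omega

lemma Y00_2o (s u j : ℕ) (hp0 : 2 ≤ u) (h1 : 4 * u ≤ j + 5) (h2 : j + 8 < 6 * u) (h3 : (j + 5 - (4 * u)) % 2 = 1) :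
    2 * Y00 s u j + j + 4 = 8 * s + 12 * u := by
  unfold Y00; rw [if_neg (by omega), if_neg (by omega), if_pos (by omega), if_neg (by omega)] <;> omega

lemma Y00_3e (s u j : ℕ) (hp0 : 2 ≤ u) (h1 : 6 * u ≤ j + 8) (h2 : j + 7 < 6 * u + 2 * s) (h3 : (j + 8 - (6 * u)) % 2 = 0) :
    2 * Y00 s u j + j + 4 = 4 * s + 8 * u := by
  unfold Y00; rw [if_neg (by omega), if_neg (by omega), if_neg (by omega), if_pos (by omega), if_pos (by omega)] <;> omega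

lemma Y00_3o (s u j : ℕ) (hp0 : 2 ≤ u) (h1 : 6 * u ≤ j + 8) (h2 : j + 7 < 6 * u + 2 * s) (h3 : (j + 8 - (6 * u)) % 2 = 1) :
    2 * Y00 s u j + j + 5 = 6 * s + 10 * u := by
  unfold Y00; rw [if_neg (by omega), if_neg (by omega), if_neg (by omega), if_pos (by omega), if_neg (by omega)] <;> omega

lemma Y00_4 (s u j : ℕ) (hp0 : 2 ≤ u) (h1 : 6 * u + 2 * s ≤ j + 7) (h2 : j + 6 < 6 * u + 2 * s) :
    Y00 s u j = 6 * s + 6 * u + 1 := by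
  unfold Y00; rw [if_neg (by omega), if_neg (by omega), if_neg (by omega), if_neg (by omega), if_pos (by omega)] <;> omega

lemma Y00_5 (s u j : ℕ) (hp0 : 2 ≤ u) (h1 : 6 * u + 2 * s ≤ j + 6) (h2 : j + 5 < 6 * u + 2 * s) :
    Y00 s u j = 8 * s + 8 * u + 1 := by
  unfold Y00; rw [if_neg (by omega), if_neg (by omega), if_neg (by omega), if_neg (by omega), if_neg (by omega), if_pos (by omega)] <;> omega

lemma Y00_6 (s u j : ℕ) (hp0 : 2 ≤ u) (h1 : 6 * u + 2 * s ≤ j + 5) (h2 : j + 4 < 6 * u + 2 * s) :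
    Y00 s u j = 3 * s + 3 * u + 1 := by
  unfold Y00; rw [if_neg (by omega), if_neg (by omega), if_neg (by omega), if_neg (by omega), if_neg (by omega), if_neg (by omega)] <;> omega

lemma cov00 (s u : ℕ) (hp0 : 2 ≤ u) :
    Cov (4 * s + 4) (6 * u + 2 * s - (4)) (X00 s u) (Y00 s u) (15 * s + 15 * u + 3) := by
  intro v h1 h2
  by_cases c0 : v ≤ s + 2
  · obtain ⟨j, hj⟩ : ∃ j, j = (2 * v - (2)) := ⟨_, rfl⟩
    have a0 := X00_0e s u (j) hp0 (by omega) (by omega) (by omega)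
    exact ⟨j, Or.inl ⟨by omega, by omega⟩⟩
  by_cases c1 : v ≤ s + u
  · obtain ⟨j, hj⟩ : ∃ j, j = (2 * s + 2 * u + 1 - (2 * v)) := ⟨_, rfl⟩
    have a0 := Y00_0o s u (j) hp0 (by omega) (by omega) (by omega)
    exact ⟨j, Or.inr (Or.inr (Or.inr (Or.inl ⟨by omega, by omega⟩)))⟩
  by_cases c2 : v ≤ s + u + 1
  · obtain ⟨j, hj⟩ : ∃ j, j = (6 * u + 2 * s - (7)) := ⟨_, rfl⟩
    have a0 := Y00_4 s u (j) hp0 (by omega) (by omega)
    have a1 := Y00_5 s u ((j + 1)) hp0 (by omega) (by omega)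
    exact ⟨j, Or.inr (Or.inr (Or.inr (Or.inr (Or.inl ⟨by omega, by omega⟩))))⟩
  by_cases c3 : v ≤ 2 * s + u + 2
  · obtain ⟨j, hj⟩ : ∃ j, j = (8 * u + 4 * s - (2 * v + 4)) := ⟨_, rfl⟩
    have a0 := Y00_3e s u (j) hp0 (by omega) (by omega) (by omega)
    exact ⟨j, Or.inr (Or.inr (Or.inr (Or.inl ⟨by omega, by omega⟩)))⟩
  by_cases c4 : v ≤ 2 * s + 2 * u + 1
  · obtain ⟨j, hj⟩ : ∃ j, j = (2 * v - (4 * s + 8)) := ⟨_, rfl⟩
    have a0 := Y00_1o s u (j) hp0 (by omega) (by omega) (by omega)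
    exact ⟨j, Or.inr (Or.inr (Or.inr (Or.inl ⟨by omega, by omega⟩)))⟩
  by_cases c5 : v ≤ 3 * s + 2 * u + 1
  · obtain ⟨j, hj⟩ : ∃ j, j = (10 * u + 6 * s - (2 * v + 5)) := ⟨_, rfl⟩
    have a0 := Y00_3o s u (j) hp0 (by omega) (by omega) (by omega)
    exact ⟨j, Or.inr (Or.inr (Or.inr (Or.inl ⟨by omega, by omega⟩)))⟩
  by_cases c6 : v ≤ 3 * s + 3 * u
  · obtain ⟨j, hj⟩ : ∃ j, j = (2 * v - (2 * u + 6 * s + 7)) := ⟨_, rfl⟩
    have a0 := Y00_1e s u (j) hp0 (by omega) (by omega) (by omega)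
    exact ⟨j, Or.inr (Or.inr (Or.inr (Or.inl ⟨by omega, by omega⟩)))⟩
  by_cases c7 : v ≤ 3 * s + 3 * u + 1
  · obtain ⟨j, hj⟩ : ∃ j, j = (6 * u + 2 * s - (5)) := ⟨_, rfl⟩
    have a0 := Y00_6 s u (j) hp0 (by omega) (by omega)
    exact ⟨j, Or.inr (Or.inr (Or.inr (Or.inl ⟨by omega, by omega⟩)))⟩
  by_cases c8 : v ≤ 4 * s + 3 * u + 2
  · obtain ⟨j, hj⟩ : ∃ j, j = (10 * s + 6 * u + 7 - (2 * v)) := ⟨_, rfl⟩
    have a0 := X00_1e s u (j) hp0 (by omega) (by omega) (by omega)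
    exact ⟨j, Or.inl ⟨by omega, by omega⟩⟩
  by_cases c9 : v ≤ 4 * s + 4 * u
  · obtain ⟨j, hj⟩ : ∃ j, j = (12 * u + 8 * s - (2 * v + 4)) := ⟨_, rfl⟩
    have a0 := Y00_2o s u (j) hp0 (by omega) (by omega) (by omega)
    exact ⟨j, Or.inr (Or.inr (Or.inr (Or.inl ⟨by omega, by omega⟩)))⟩
  by_cases c10 : v ≤ 4 * s + 4 * u + 1
  · obtain ⟨j, hj⟩ : ∃ j, j = (6 * u + 2 * s - (6)) := ⟨_, rfl⟩
    have a0 := Y00_5 s u (j) hp0 (by omega) (by omega)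
    have a1 := Y00_6 s u ((j + 1)) hp0 (by omega) (by omega)
    exact ⟨j, Or.inr (Or.inr (Or.inr (Or.inr (Or.inl ⟨by omega, by omega⟩))))⟩
  by_cases c11 : v ≤ 5 * s + 4 * u + 1
  · obtain ⟨j, hj⟩ : ∃ j, j = (12 * s + 8 * u + 6 - (2 * v)) := ⟨_, rfl⟩
    have a0 := X00_1o s u (j) hp0 (by omega) (by omega) (by omega)
    exact ⟨j, Or.inl ⟨by omega, by omega⟩⟩
  by_cases c12 : v ≤ 5 * s + 5 * u
  · obtain ⟨j, hj⟩ : ∃ j, j = (14 * u + 10 * s - (2 * v + 5)) := ⟨_, rfl⟩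
    have a0 := Y00_2e s u (j) hp0 (by omega) (by omega) (by omega)
    exact ⟨j, Or.inr (Or.inr (Or.inr (Or.inl ⟨by omega, by omega⟩)))⟩
  by_cases c13 : v ≤ 6 * s + 5 * u + 1
  · obtain ⟨j, hj⟩ : ∃ j, j = (2 * v - (10 * s + 10 * u + 1)) := ⟨_, rfl⟩
    have a0 := X00_0o s u (j) hp0 (by omega) (by omega) (by omega)
    exact ⟨j, Or.inl ⟨by omega, by omega⟩⟩
  by_cases c14 : v ≤ 6 * s + 6 * u
  · obtain ⟨j, hj⟩ : ∃ j, j = (12 * s + 12 * u - (2 * v)) := ⟨_, rfl⟩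
    have a0 := Y00_0e s u (j) hp0 (by omega) (by omega) (by omega)
    exact ⟨j, Or.inr (Or.inr (Or.inr (Or.inl ⟨by omega, by omega⟩)))⟩
  by_cases c15 : v ≤ 6 * s + 6 * u + 1
  · obtain ⟨j, hj⟩ : ∃ j, j = (6 * u + 2 * s - (7)) := ⟨_, rfl⟩
    have a0 := Y00_4 s u (j) hp0 (by omega) (by omega)
    exact ⟨j, Or.inr (Or.inr (Or.inr (Or.inl ⟨by omega, by omega⟩)))⟩
  by_cases c16 : v ≤ 6 * s + 6 * u + 2
  · obtain ⟨j, hj⟩ : ∃ j, j = (6 * u + 2 * s - (5)) := ⟨_, rfl⟩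
    have a0 := Y00_6 s u (j) hp0 (by omega) (by omega)
    have a1 := Y00_0e s u ((0)) hp0 (by omega) (by omega) (by omega)
    exact ⟨j, Or.inr (Or.inr (Or.inr (Or.inr (Or.inr (⟨by omega, by omega⟩)))))⟩
  by_cases c17 : v + 2 ≤ 6 * s + 8 * u
  · by_cases d0 : (v - (6 * s + 6 * u + 3)) % 2 = 0
    · obtain ⟨j, hj⟩ : ∃ j, j = (v - (2 * u + 6 * s + 8)) := ⟨_, rfl⟩
      have a0 := Y00_2e s u (j) hp0 (by omega) (by omega) (by omega)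
      have a1 := Y00_2o s u ((j + 1)) hp0 (by omega) (by omega) (by omega)
      exact ⟨j, Or.inr (Or.inr (Or.inr (Or.inr (Or.inl ⟨by omega, by omega⟩))))⟩
    obtain ⟨j, hj⟩ : ∃ j, j = (v - (2 * u + 6 * s + 8)) := ⟨_, rfl⟩
    have a0 := Y00_2o s u (j) hp0 (by omega) (by omega) (by omega)
    have a1 := Y00_2e s u ((j + 1)) hp0 (by omega) (by omega) (by omega)
    exact ⟨j, Or.inr (Or.inr (Or.inr (Or.inr (Or.inl ⟨by omega, by omega⟩))))⟩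
  by_cases c18 : v + 1 ≤ 6 * s + 8 * u
  · obtain ⟨j, hj⟩ : ∃ j, j = (2 * u - (4)) := ⟨_, rfl⟩
    have a0 := Y00_0e s u (j) hp0 (by omega) (by omega) (by omega)
    have a1 := Y00_1e s u ((j + 1)) hp0 (by omega) (by omega) (by omega)
    exact ⟨j, Or.inr (Or.inr (Or.inr (Or.inr (Or.inl ⟨by omega, by omega⟩))))⟩
  by_cases c19 : v + 1 ≤ 8 * s + 8 * u
  · by_cases d0 : (v - (6 * s + 8 * u)) % 2 = 0
    · obtain ⟨j, hj⟩ : ∃ j, j = (v + 3 - (4 * s + 8 * u)) := ⟨_, rfl⟩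
      have a0 := X00_1e s u (j) hp0 (by omega) (by omega) (by omega)
      have a1 := X00_1o s u ((j + 1)) hp0 (by omega) (by omega) (by omega)
      exact ⟨j, Or.inr (Or.inl ⟨by omega, by omega⟩)⟩
    obtain ⟨j, hj⟩ : ∃ j, j = (v + 3 - (4 * s + 8 * u)) := ⟨_, rfl⟩
    have a0 := X00_1o s u (j) hp0 (by omega) (by omega) (by omega)
    have a1 := X00_1e s u ((j + 1)) hp0 (by omega) (by omega) (by omega)
    exact ⟨j, Or.inr (Or.inl ⟨by omega, by omega⟩)⟩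
  by_cases c20 : v ≤ 8 * s + 8 * u
  · obtain ⟨j, hj⟩ : ∃ j, j = (6 * u + 2 * s - (8)) := ⟨_, rfl⟩
    have a0 := Y00_3e s u (j) hp0 (by omega) (by omega) (by omega)
    have a1 := Y00_4 s u ((j + 1)) hp0 (by omega) (by omega)
    exact ⟨j, Or.inr (Or.inr (Or.inr (Or.inr (Or.inl ⟨by omega, by omega⟩))))⟩
  by_cases c21 : v ≤ 8 * s + 8 * u + 1
  · obtain ⟨j, hj⟩ : ∃ j, j = (6 * u + 2 * s - (6)) := ⟨_, rfl⟩
    have a0 := Y00_5 s u (j) hp0 (by omega) (by omega)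
    exact ⟨j, Or.inr (Or.inr (Or.inr (Or.inl ⟨by omega, by omega⟩)))⟩
  by_cases c22 : v ≤ 8 * s + 8 * u + 2
  · obtain ⟨j, hj⟩ : ∃ j, j = (4 * u - (6)) := ⟨_, rfl⟩
    have a0 := Y00_1o s u (j) hp0 (by omega) (by omega) (by omega)
    have a1 := Y00_2e s u ((j + 1)) hp0 (by omega) (by omega) (by omega)
    exact ⟨j, Or.inr (Or.inr (Or.inr (Or.inr (Or.inl ⟨by omega, by omega⟩))))⟩
  by_cases c23 : v + 2 ≤ 8 * s + 10 * u
  · by_cases d0 : (v - (8 * s + 8 * u + 3)) % 2 = 0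
    · obtain ⟨j, hj⟩ : ∃ j, j = (v - (8 * s + 8 * u + 3)) := ⟨_, rfl⟩
      have a0 := Y00_0e s u (j) hp0 (by omega) (by omega) (by omega)
      have a1 := Y00_0o s u ((j + 1)) hp0 (by omega) (by omega) (by omega)
      exact ⟨j, Or.inr (Or.inr (Or.inr (Or.inr (Or.inl ⟨by omega, by omega⟩))))⟩
    obtain ⟨j, hj⟩ : ∃ j, j = (v - (8 * s + 8 * u + 3)) := ⟨_, rfl⟩
    have a0 := Y00_0o s u (j) hp0 (by omega) (by omega) (by omega)
    have a1 := Y00_0e s u ((j + 1)) hp0 (by omega) (by omega) (by omega)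
    exact ⟨j, Or.inr (Or.inr (Or.inr (Or.inr (Or.inl ⟨by omega, by omega⟩))))⟩
  by_cases c24 : v + 1 ≤ 8 * s + 10 * u
  · obtain ⟨j, hj⟩ : ∃ j, j = (6 * u - (9)) := ⟨_, rfl⟩
    have a0 := Y00_2e s u (j) hp0 (by omega) (by omega) (by omega)
    have a1 := Y00_3e s u ((j + 1)) hp0 (by omega) (by omega) (by omega)
    exact ⟨j, Or.inr (Or.inr (Or.inr (Or.inr (Or.inl ⟨by omega, by omega⟩))))⟩
  by_cases c25 : v ≤ 10 * s + 10 * u + 1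
  · by_cases d0 : (v - (8 * s + 10 * u)) % 2 = 0
    · obtain ⟨j, hj⟩ : ∃ j, j = (10 * s + 10 * u + 1 - (v)) := ⟨_, rfl⟩
      have a0 := X00_0o s u (j) hp0 (by omega) (by omega) (by omega)
      have a1 := X00_0e s u ((j + 1)) hp0 (by omega) (by omega) (by omega)
      exact ⟨j, Or.inr (Or.inl ⟨by omega, by omega⟩)⟩
    obtain ⟨j, hj⟩ : ∃ j, j = (10 * s + 10 * u + 1 - (v)) := ⟨_, rfl⟩
    have a0 := X00_0e s u (j) hp0 (by omega) (by omega) (by omega)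
    have a1 := X00_0o s u ((j + 1)) hp0 (by omega) (by omega) (by omega)
    exact ⟨j, Or.inr (Or.inl ⟨by omega, by omega⟩)⟩
  by_cases c26 : v + 2 ≤ 10 * s + 12 * u
  · by_cases d0 : (v - (10 * s + 10 * u + 2)) % 2 = 0
    · obtain ⟨j, hj⟩ : ∃ j, j = (14 * u + 10 * s - (v + 5)) := ⟨_, rfl⟩
      have a0 := Y00_1e s u (j) hp0 (by omega) (by omega) (by omega)
      have a1 := Y00_1o s u ((j + 1)) hp0 (by omega) (by omega) (by omega)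
      exact ⟨j, Or.inr (Or.inr (Or.inr (Or.inr (Or.inl ⟨by omega, by omega⟩))))⟩
    obtain ⟨j, hj⟩ : ∃ j, j = (14 * u + 10 * s - (v + 5)) := ⟨_, rfl⟩
    have a0 := Y00_1o s u (j) hp0 (by omega) (by omega) (by omega)
    have a1 := Y00_1e s u ((j + 1)) hp0 (by omega) (by omega) (by omega)
    exact ⟨j, Or.inr (Or.inr (Or.inr (Or.inr (Or.inl ⟨by omega, by omega⟩))))⟩
  by_cases c27 : v + 1 ≤ 10 * s + 12 * u
  · obtain ⟨j, hj⟩ : ∃ j, j = (2 * s + 2) := ⟨_, rfl⟩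
    have a0 := X00_0e s u (j) hp0 (by omega) (by omega) (by omega)
    have a1 := X00_1e s u ((j + 1)) hp0 (by omega) (by omega) (by omega)
    exact ⟨j, Or.inr (Or.inl ⟨by omega, by omega⟩)⟩
  by_cases c28 : v + 1 ≤ 12 * s + 12 * u
  · by_cases d0 : (v - (10 * s + 12 * u)) % 2 = 0
    · obtain ⟨j, hj⟩ : ∃ j, j = (v - (6 * u + 10 * s + 8)) := ⟨_, rfl⟩
      have a0 := Y00_3e s u (j) hp0 (by omega) (by omega) (by omega)
      have a1 := Y00_3o s u ((j + 1)) hp0 (by omega) (by omega) (by omega)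
      exact ⟨j, Or.inr (Or.inr (Or.inr (Or.inr (Or.inl ⟨by omega, by omega⟩))))⟩
    obtain ⟨j, hj⟩ : ∃ j, j = (v - (6 * u + 10 * s + 8)) := ⟨_, rfl⟩
    have a0 := Y00_3o s u (j) hp0 (by omega) (by omega) (by omega)
    have a1 := Y00_3e s u ((j + 1)) hp0 (by omega) (by omega) (by omega)
    exact ⟨j, Or.inr (Or.inr (Or.inr (Or.inr (Or.inl ⟨by omega, by omega⟩))))⟩
  obtain ⟨j, hj⟩ : ∃ j, j = (4 * s + 3) := ⟨_, rfl⟩
  have a0 := X00_1e s u (j) hp0 (by omega) (by omega) (by omega)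
  have a1 := X00_0e s u ((0)) hp0 (by omega) (by omega) (by omega)
  exact ⟨j, Or.inr (Or.inr (Or.inl ⟨by omega, by omega⟩))⟩

def X01 (s u j : ℕ) : ℕ :=
  if j < 2 * s + 2 then (if (j) % 2 = 0 then (4 * s + 4 * u + 2 + 1 * ((j) / 2)) else (s + u + 2 + 1 * ((j) / 2))) else
  if j < 4 * s + 4 then (if (j - (2 * s + 2)) % 2 = 0 then (3 * s + 2 * u + 2 - (1 * ((j - (2 * s + 2)) / 2))) else (6 * s + 5 * u + 2 - (1 * ((j - (2 * s + 2)) / 2)))) else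
  (10 * s + 10 * u + 1)

lemma X01_0e (s u j : ℕ) (hp0 : 2 ≤ u) (h1 : 0 ≤ j) (h2 : j < 2 * s + 2) (h3 : (j) % 2 = 0) :
    2 * X01 s u j = 8 * s + 8 * u + j + 4 := by
  unfold X01; rw [if_pos (by omega), if_pos (by omega)] <;> omega

lemma X01_0o (s u j : ℕ) (hp0 : 2 ≤ u) (h1 : 0 ≤ j) (h2 : j < 2 * s + 2) (h3 : (j) % 2 = 1) :
    2 * X01 s u j = 2 * s + 2 * u + j + 3 := by
  unfold X01; rw [if_pos (by omega), if_neg (by omega)] <;> omega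

lemma X01_1e (s u j : ℕ) (hp0 : 2 ≤ u) (h1 : 2 * s + 2 ≤ j) (h2 : j < 4 * s + 4) (h3 : (j - (2 * s + 2)) % 2 = 0) :
    2 * X01 s u j + j = 8 * s + 4 * u + 6 := by
  unfold X01; rw [if_neg (by omega), if_pos (by omega), if_pos (by omega)] <;> omega

lemma X01_1o (s u j : ℕ) (hp0 : 2 ≤ u) (h1 : 2 * s + 2 ≤ j) (h2 : j < 4 * s + 4) (h3 : (j - (2 * s + 2)) % 2 = 1) :
    2 * X01 s u j + j = 14 * s + 10 * u + 7 := by
  unfold X01; rw [if_neg (by omega), if_pos (by omega), if_neg (by omega)] <;> omega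

lemma X01_2 (s u j : ℕ) (hp0 : 2 ≤ u) (h1 : 4 * s + 4 ≤ j) (h2 : j < 4 * s + 5) :
    X01 s u j = 10 * s + 10 * u + 1 := by
  unfold X01; rw [if_neg (by omega), if_neg (by omega)] <;> omega

def Y01 (s u j : ℕ) : ℕ :=
  if j < 2 * s + 1 then (if (j) % 2 = 0 then (3 * s + 3 * u + 2 + 1 * ((j) / 2)) else (2 + 1 * ((j) / 2))) else
  if j + 1 < 2 * s + 2 * u then (if (j - (2 * s + 1)) % 2 = 0 then (5 * s + 4 * u + 3 + 1 * ((j - (2 * s + 1)) / 2)) else (2 * s + u + 3 + 1 * ((j - (2 * s + 1)) / 2))) else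
  if j + 3 < 2 * s + 4 * u then (if (j + 1 - (2 * s + 2 * u)) % 2 = 0 then (3 * s + 3 * u + 1 - (1 * ((j + 1 - (2 * s + 2 * u)) / 2))) else (6 * s + 6 * u + 1 - (1 * ((j + 1 - (2 * s + 2 * u)) / 2)))) else
  (if (j + 3 - (2 * s + 4 * u)) % 2 = 0 then (s + 2 + 1 * ((j + 3 - (2 * s + 4 * u)) / 2)) else (4 * s + 3 * u + 3 + 1 * ((j + 3 - (2 * s + 4 * u)) / 2)))

lemma Y01_0e (s u j : ℕ) (hp0 : 2 ≤ u) (h1 : 0 ≤ j) (h2 : j < 2 * s + 1) (h3 : (j) % 2 = 0) :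
    2 * Y01 s u j = 6 * s + 6 * u + j + 4 := by
  unfold Y01; rw [if_pos (by omega), if_pos (by omega)] <;> omega

lemma Y01_0o (s u j : ℕ) (hp0 : 2 ≤ u) (h1 : 0 ≤ j) (h2 : j < 2 * s + 1) (h3 : (j) % 2 = 1) :
    2 * Y01 s u j = j + 3 := by
  unfold Y01; rw [if_pos (by omega), if_neg (by omega)] <;> omega

lemma Y01_1e (s u j : ℕ) (hp0 : 2 ≤ u) (h1 : 2 * s + 1 ≤ j) (h2 : j + 1 < 2 * s + 2 * u) (h3 : (j - (2 * s + 1)) % 2 = 0) :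
    2 * Y01 s u j = 8 * s + 8 * u + j + 5 := by
  unfold Y01; rw [if_neg (by omega), if_pos (by omega), if_pos (by omega)] <;> omega

lemma Y01_1o (s u j : ℕ) (hp0 : 2 ≤ u) (h1 : 2 * s + 1 ≤ j) (h2 : j + 1 < 2 * s + 2 * u) (h3 : (j - (2 * s + 1)) % 2 = 1) :
    2 * Y01 s u j = 2 * s + 2 * u + j + 4 := by
  unfold Y01; rw [if_neg (by omega), if_pos (by omega), if_neg (by omega)] <;> omega

lemma Y01_2e (s u j : ℕ) (hp0 : 2 ≤ u) (h1 : 2 * s + 2 * u ≤ j + 1) (h2 : j + 3 < 2 * s + 4 * u) (h3 : (j + 1 - (2 * s + 2 * u)) % 2 = 0) :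
    2 * Y01 s u j + j = 8 * s + 8 * u + 1 := by
  unfold Y01; rw [if_neg (by omega), if_neg (by omega), if_pos (by omega), if_pos (by omega)] <;> omega

lemma Y01_2o (s u j : ℕ) (hp0 : 2 ≤ u) (h1 : 2 * s + 2 * u ≤ j + 1) (h2 : j + 3 < 2 * s + 4 * u) (h3 : (j + 1 - (2 * s + 2 * u)) % 2 = 1) :
    2 * Y01 s u j + j = 14 * s + 14 * u + 2 := by
  unfold Y01; rw [if_neg (by omega), if_neg (by omega), if_pos (by omega), if_neg (by omega)] <;> omega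

lemma Y01_3e (s u j : ℕ) (hp0 : 2 ≤ u) (h1 : 2 * s + 4 * u ≤ j + 3) (h2 : j + 5 < 2 * s + 6 * u) (h3 : (j + 3 - (2 * s + 4 * u)) % 2 = 0) :
    2 * Y01 s u j + 4 * u = j + 7 := by
  unfold Y01; rw [if_neg (by omega), if_neg (by omega), if_neg (by omega), if_pos (by omega)] <;> omega

lemma Y01_3o (s u j : ℕ) (hp0 : 2 ≤ u) (h1 : 2 * s + 4 * u ≤ j + 3) (h2 : j + 5 < 2 * s + 6 * u) (h3 : (j + 3 - (2 * s + 4 * u)) % 2 = 1) :
    2 * Y01 s u j = 6 * s + 2 * u + j + 8 := by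
  unfold Y01; rw [if_neg (by omega), if_neg (by omega), if_neg (by omega), if_neg (by omega)] <;> omega

lemma cov01 (s u : ℕ) (hp0 : 2 ≤ u) :
    Cov (4 * s + 5) (2 * s + 6 * u - (5)) (X01 s u) (Y01 s u) (15 * s + 15 * u + 4) := by
  intro v h1 h2
  by_cases c0 : v ≤ 1
  · obtain ⟨j, hj⟩ : ∃ j, j = (4 * s + 3) := ⟨_, rfl⟩
    have a0 := X01_1o s u (j) hp0 (by omega) (by omega) (by omega)
    have a1 := X01_2 s u ((j + 1)) hp0 (by omega) (by omega)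
    exact ⟨j, Or.inr (Or.inl ⟨by omega, by omega⟩)⟩
  by_cases c1 : v ≤ s + 1
  · obtain ⟨j, hj⟩ : ∃ j, j = (2 * v - (3)) := ⟨_, rfl⟩
    have a0 := Y01_0o s u (j) hp0 (by omega) (by omega) (by omega)
    exact ⟨j, Or.inr (Or.inr (Or.inr (Or.inl ⟨by omega, by omega⟩)))⟩
  by_cases c2 : v ≤ s + u
  · obtain ⟨j, hj⟩ : ∃ j, j = (4 * u + 2 * v - (7)) := ⟨_, rfl⟩
    have a0 := Y01_3e s u (j) hp0 (by omega) (by omega) (by omega)
    exact ⟨j, Or.inr (Or.inr (Or.inr (Or.inl ⟨by omega, by omega⟩)))⟩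
  by_cases c3 : v ≤ s + u + 1
  · obtain ⟨j, hj⟩ : ∃ j, j = (4 * s + 4) := ⟨_, rfl⟩
    have a0 := X01_2 s u (j) hp0 (by omega) (by omega)
    have a1 := X01_0e s u ((0)) hp0 (by omega) (by omega) (by omega)
    exact ⟨j, Or.inr (Or.inr (Or.inl ⟨by omega, by omega⟩))⟩
  by_cases c4 : v ≤ 2 * s + u + 2
  · obtain ⟨j, hj⟩ : ∃ j, j = (2 * v - (2 * s + 2 * u + 3)) := ⟨_, rfl⟩
    have a0 := X01_0o s u (j) hp0 (by omega) (by omega) (by omega)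
    exact ⟨j, Or.inl ⟨by omega, by omega⟩⟩
  by_cases c5 : v ≤ 2 * s + 2 * u + 1
  · obtain ⟨j, hj⟩ : ∃ j, j = (2 * v - (2 * s + 2 * u + 4)) := ⟨_, rfl⟩
    have a0 := Y01_1o s u (j) hp0 (by omega) (by omega) (by omega)
    exact ⟨j, Or.inr (Or.inr (Or.inr (Or.inl ⟨by omega, by omega⟩)))⟩
  by_cases c6 : v ≤ 3 * s + 2 * u + 2
  · obtain ⟨j, hj⟩ : ∃ j, j = (8 * s + 4 * u + 6 - (2 * v)) := ⟨_, rfl⟩
    have a0 := X01_1e s u (j) hp0 (by omega) (by omega) (by omega)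
    exact ⟨j, Or.inl ⟨by omega, by omega⟩⟩
  by_cases c7 : v ≤ 3 * s + 3 * u + 1
  · obtain ⟨j, hj⟩ : ∃ j, j = (8 * s + 8 * u + 1 - (2 * v)) := ⟨_, rfl⟩
    have a0 := Y01_2e s u (j) hp0 (by omega) (by omega) (by omega)
    exact ⟨j, Or.inr (Or.inr (Or.inr (Or.inl ⟨by omega, by omega⟩)))⟩
  by_cases c8 : v ≤ 4 * s + 3 * u + 2
  · obtain ⟨j, hj⟩ : ∃ j, j = (2 * v - (6 * s + 6 * u + 4)) := ⟨_, rfl⟩
    have a0 := Y01_0e s u (j) hp0 (by omega) (by omega) (by omega)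
    exact ⟨j, Or.inr (Or.inr (Or.inr (Or.inl ⟨by omega, by omega⟩)))⟩
  by_cases c9 : v ≤ 4 * s + 4 * u + 1
  · obtain ⟨j, hj⟩ : ∃ j, j = (2 * v - (6 * s + 2 * u + 8)) := ⟨_, rfl⟩
    have a0 := Y01_3o s u (j) hp0 (by omega) (by omega) (by omega)
    exact ⟨j, Or.inr (Or.inr (Or.inr (Or.inl ⟨by omega, by omega⟩)))⟩
  by_cases c10 : v ≤ 5 * s + 4 * u + 2
  · obtain ⟨j, hj⟩ : ∃ j, j = (2 * v - (8 * s + 8 * u + 4)) := ⟨_, rfl⟩
    have a0 := X01_0e s u (j) hp0 (by omega) (by omega) (by omega)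
    exact ⟨j, Or.inl ⟨by omega, by omega⟩⟩
  by_cases c11 : v ≤ 5 * s + 5 * u + 1
  · obtain ⟨j, hj⟩ : ∃ j, j = (2 * v - (8 * s + 8 * u + 5)) := ⟨_, rfl⟩
    have a0 := Y01_1e s u (j) hp0 (by omega) (by omega) (by omega)
    exact ⟨j, Or.inr (Or.inr (Or.inr (Or.inl ⟨by omega, by omega⟩)))⟩
  by_cases c12 : v ≤ 6 * s + 5 * u + 2
  · obtain ⟨j, hj⟩ : ∃ j, j = (14 * s + 10 * u + 7 - (2 * v)) := ⟨_, rfl⟩
    have a0 := X01_1o s u (j) hp0 (by omega) (by omega) (by omega)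
    exact ⟨j, Or.inl ⟨by omega, by omega⟩⟩
  by_cases c13 : v ≤ 6 * s + 6 * u + 1
  · obtain ⟨j, hj⟩ : ∃ j, j = (14 * s + 14 * u + 2 - (2 * v)) := ⟨_, rfl⟩
    have a0 := Y01_2o s u (j) hp0 (by omega) (by omega) (by omega)
    exact ⟨j, Or.inr (Or.inr (Or.inr (Or.inl ⟨by omega, by omega⟩)))⟩
  by_cases c14 : v + 2 ≤ 6 * s + 8 * u
  · by_cases d0 : (v - (6 * s + 6 * u + 2)) % 2 = 0
    · obtain ⟨j, hj⟩ : ∃ j, j = (v - (4 * s + 4 * u + 3)) := ⟨_, rfl⟩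
      have a0 := Y01_2e s u (j) hp0 (by omega) (by omega) (by omega)
      have a1 := Y01_2o s u ((j + 1)) hp0 (by omega) (by omega) (by omega)
      exact ⟨j, Or.inr (Or.inr (Or.inr (Or.inr (Or.inl ⟨by omega, by omega⟩))))⟩
    obtain ⟨j, hj⟩ : ∃ j, j = (v - (4 * s + 4 * u + 3)) := ⟨_, rfl⟩
    have a0 := Y01_2o s u (j) hp0 (by omega) (by omega) (by omega)
    have a1 := Y01_2e s u ((j + 1)) hp0 (by omega) (by omega) (by omega)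
    exact ⟨j, Or.inr (Or.inr (Or.inr (Or.inr (Or.inl ⟨by omega, by omega⟩))))⟩
  by_cases c15 : v + 1 ≤ 6 * s + 8 * u
  · obtain ⟨j, hj⟩ : ∃ j, j = (2 * s) := ⟨_, rfl⟩
    have a0 := Y01_0e s u (j) hp0 (by omega) (by omega) (by omega)
    have a1 := Y01_1e s u ((j + 1)) hp0 (by omega) (by omega) (by omega)
    exact ⟨j, Or.inr (Or.inr (Or.inr (Or.inr (Or.inl ⟨by omega, by omega⟩))))⟩
  by_cases c16 : v ≤ 8 * s + 8 * u
  · by_cases d0 : (v - (6 * s + 8 * u)) % 2 = 0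
    · obtain ⟨j, hj⟩ : ∃ j, j = (v + 2 - (4 * s + 8 * u)) := ⟨_, rfl⟩
      have a0 := X01_1e s u (j) hp0 (by omega) (by omega) (by omega)
      have a1 := X01_1o s u ((j + 1)) hp0 (by omega) (by omega) (by omega)
      exact ⟨j, Or.inr (Or.inl ⟨by omega, by omega⟩)⟩
    obtain ⟨j, hj⟩ : ∃ j, j = (v + 2 - (4 * s + 8 * u)) := ⟨_, rfl⟩
    have a0 := X01_1o s u (j) hp0 (by omega) (by omega) (by omega)
    have a1 := X01_1e s u ((j + 1)) hp0 (by omega) (by omega) (by omega)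
    exact ⟨j, Or.inr (Or.inl ⟨by omega, by omega⟩)⟩
  by_cases c17 : v ≤ 8 * s + 8 * u + 1
  · obtain ⟨j, hj⟩ : ∃ j, j = (2 * s + 6 * u - (6)) := ⟨_, rfl⟩
    have a0 := Y01_3o s u (j) hp0 (by omega) (by omega) (by omega)
    have a1 := Y01_0e s u ((0)) hp0 (by omega) (by omega) (by omega)
    exact ⟨j, Or.inr (Or.inr (Or.inr (Or.inr (Or.inr (⟨by omega, by omega⟩)))))⟩
  by_cases c18 : v + 2 ≤ 8 * s + 10 * u
  · by_cases d0 : (v - (8 * s + 8 * u + 2)) % 2 = 0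
    · obtain ⟨j, hj⟩ : ∃ j, j = (10 * s + 10 * u - (v + 1)) := ⟨_, rfl⟩
      have a0 := Y01_1e s u (j) hp0 (by omega) (by omega) (by omega)
      have a1 := Y01_1o s u ((j + 1)) hp0 (by omega) (by omega) (by omega)
      exact ⟨j, Or.inr (Or.inr (Or.inr (Or.inr (Or.inl ⟨by omega, by omega⟩))))⟩
    obtain ⟨j, hj⟩ : ∃ j, j = (10 * s + 10 * u - (v + 1)) := ⟨_, rfl⟩
    have a0 := Y01_1o s u (j) hp0 (by omega) (by omega) (by omega)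
    have a1 := Y01_1e s u ((j + 1)) hp0 (by omega) (by omega) (by omega)
    exact ⟨j, Or.inr (Or.inr (Or.inr (Or.inr (Or.inl ⟨by omega, by omega⟩))))⟩
  by_cases c19 : v + 1 ≤ 8 * s + 10 * u
  · obtain ⟨j, hj⟩ : ∃ j, j = (2 * s + 4 * u - (4)) := ⟨_, rfl⟩
    have a0 := Y01_2o s u (j) hp0 (by omega) (by omega) (by omega)
    have a1 := Y01_3e s u ((j + 1)) hp0 (by omega) (by omega) (by omega)
    exact ⟨j, Or.inr (Or.inr (Or.inr (Or.inr (Or.inl ⟨by omega, by omega⟩))))⟩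
  by_cases c20 : v ≤ 10 * s + 10 * u
  · by_cases d0 : (v - (8 * s + 10 * u)) % 2 = 0
    · obtain ⟨j, hj⟩ : ∃ j, j = (10 * s + 10 * u - (v)) := ⟨_, rfl⟩
      have a0 := X01_0e s u (j) hp0 (by omega) (by omega) (by omega)
      have a1 := X01_0o s u ((j + 1)) hp0 (by omega) (by omega) (by omega)
      exact ⟨j, Or.inr (Or.inl ⟨by omega, by omega⟩)⟩
    obtain ⟨j, hj⟩ : ∃ j, j = (10 * s + 10 * u - (v)) := ⟨_, rfl⟩
    have a0 := X01_0o s u (j) hp0 (by omega) (by omega) (by omega)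
    have a1 := X01_0e s u ((j + 1)) hp0 (by omega) (by omega) (by omega)
    exact ⟨j, Or.inr (Or.inl ⟨by omega, by omega⟩)⟩
  by_cases c21 : v ≤ 10 * s + 10 * u + 1
  · obtain ⟨j, hj⟩ : ∃ j, j = (4 * s + 4) := ⟨_, rfl⟩
    have a0 := X01_2 s u (j) hp0 (by omega) (by omega)
    exact ⟨j, Or.inl ⟨by omega, by omega⟩⟩
  by_cases c22 : v ≤ 10 * s + 10 * u + 2
  · obtain ⟨j, hj⟩ : ∃ j, j = (2 * s + 2 * u - (2)) := ⟨_, rfl⟩
    have a0 := Y01_1o s u (j) hp0 (by omega) (by omega) (by omega)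
    have a1 := Y01_2e s u ((j + 1)) hp0 (by omega) (by omega) (by omega)
    exact ⟨j, Or.inr (Or.inr (Or.inr (Or.inr (Or.inl ⟨by omega, by omega⟩))))⟩
  by_cases c23 : v + 1 ≤ 10 * s + 12 * u
  · by_cases d0 : (v - (10 * s + 10 * u + 3)) % 2 = 0
    · obtain ⟨j, hj⟩ : ∃ j, j = (12 * s + 16 * u - (v + 4)) := ⟨_, rfl⟩
      have a0 := Y01_3e s u (j) hp0 (by omega) (by omega) (by omega)
      have a1 := Y01_3o s u ((j + 1)) hp0 (by omega) (by omega) (by omega)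
      exact ⟨j, Or.inr (Or.inr (Or.inr (Or.inr (Or.inl ⟨by omega, by omega⟩))))⟩
    obtain ⟨j, hj⟩ : ∃ j, j = (12 * s + 16 * u - (v + 4)) := ⟨_, rfl⟩
    have a0 := Y01_3o s u (j) hp0 (by omega) (by omega) (by omega)
    have a1 := Y01_3e s u ((j + 1)) hp0 (by omega) (by omega) (by omega)
    exact ⟨j, Or.inr (Or.inr (Or.inr (Or.inr (Or.inl ⟨by omega, by omega⟩))))⟩
  by_cases c24 : v ≤ 10 * s + 12 * u
  · obtain ⟨j, hj⟩ : ∃ j, j = (2 * s + 1) := ⟨_, rfl⟩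
    have a0 := X01_0o s u (j) hp0 (by omega) (by omega) (by omega)
    have a1 := X01_1e s u ((j + 1)) hp0 (by omega) (by omega) (by omega)
    exact ⟨j, Or.inr (Or.inl ⟨by omega, by omega⟩)⟩
  by_cases d0 : (v - (10 * s + 12 * u + 1)) % 2 = 0
  · obtain ⟨j, hj⟩ : ∃ j, j = (12 * s + 12 * u - (v)) := ⟨_, rfl⟩
    have a0 := Y01_0o s u (j) hp0 (by omega) (by omega) (by omega)
    have a1 := Y01_0e s u ((j + 1)) hp0 (by omega) (by omega) (by omega)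
    exact ⟨j, Or.inr (Or.inr (Or.inr (Or.inr (Or.inl ⟨by omega, by omega⟩))))⟩
  obtain ⟨j, hj⟩ : ∃ j, j = (12 * s + 12 * u - (v)) := ⟨_, rfl⟩
  have a0 := Y01_0e s u (j) hp0 (by omega) (by omega) (by omega)
  have a1 := Y01_0o s u ((j + 1)) hp0 (by omega) (by omega) (by omega)
  exact ⟨j, Or.inr (Or.inr (Or.inr (Or.inr (Or.inl ⟨by omega, by omega⟩))))⟩

def X02 (s u j : ℕ) : ℕ :=
  if j < 2 * s + 3 then (if (j) % 2 = 0 then (3 * s + 3 * u + 1 + 1 * ((j) / 2)) else (1 + 1 * ((j) / 2))) else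
  (if (j - (2 * s + 3)) % 2 = 0 then (5 * s + 4 * u + 2 - (1 * ((j - (2 * s + 3)) / 2))) else (2 * s + u + 1 - (1 * ((j - (2 * s + 3)) / 2))))

lemma X02_0e (s u j : ℕ) (hp0 : 2 ≤ u) (h1 : 0 ≤ j) (h2 : j < 2 * s + 3) (h3 : (j) % 2 = 0) :
    2 * X02 s u j = 6 * s + 6 * u + j + 2 := by
  unfold X02; rw [if_pos (by omega), if_pos (by omega)] <;> omega

lemma X02_0o (s u j : ℕ) (hp0 : 2 ≤ u) (h1 : 0 ≤ j) (h2 : j < 2 * s + 3) (h3 : (j) % 2 = 1) :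
    2 * X02 s u j = j + 1 := by
  unfold X02; rw [if_pos (by omega), if_neg (by omega)] <;> omega

lemma X02_1e (s u j : ℕ) (hp0 : 2 ≤ u) (h1 : 2 * s + 3 ≤ j) (h2 : j < 4 * s + 6) (h3 : (j - (2 * s + 3)) % 2 = 0) :
    2 * X02 s u j + j = 12 * s + 8 * u + 7 := by
  unfold X02; rw [if_neg (by omega), if_pos (by omega)] <;> omega

lemma X02_1o (s u j : ℕ) (hp0 : 2 ≤ u) (h1 : 2 * s + 3 ≤ j) (h2 : j < 4 * s + 6) (h3 : (j - (2 * s + 3)) % 2 = 1) :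
    2 * X02 s u j + j = 6 * s + 2 * u + 6 := by
  unfold X02; rw [if_neg (by omega), if_neg (by omega)] <;> omega

def Y02 (s u j : ℕ) : ℕ :=
  if j + 3 < 2 * u then (if (j) % 2 = 0 then (s + u - (1 * ((j) / 2))) else (4 * s + 4 * u - (1 * ((j) / 2)))) else
  if j + 1 < 2 * u + 2 * s then (if (j + 3 - (2 * u)) % 2 = 0 then (6 * s + 5 * u + 2 - (1 * ((j + 3 - (2 * u)) / 2))) else (3 * s + 2 * u + 1 - (1 * ((j + 3 - (2 * u)) / 2)))) else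
  if j + 4 < 4 * u + 2 * s then (if (j + 1 - (2 * u + 2 * s)) % 2 = 0 then (3 * s + 3 * u - (1 * ((j + 1 - (2 * u + 2 * s)) / 2))) else (6 * s + 6 * u - (1 * ((j + 1 - (2 * u + 2 * s)) / 2)))) else
  if j + 7 < 6 * u + 2 * s then (if (j + 4 - (4 * u + 2 * s)) % 2 = 0 then (2 * s + u + 2 + 1 * ((j + 4 - (4 * u + 2 * s)) / 2)) else (5 * s + 4 * u + 3 + 1 * ((j + 4 - (4 * u + 2 * s)) / 2))) else
  (8 * s + 8 * u + 1)

lemma Y02_0e (s u j : ℕ) (hp0 : 2 ≤ u) (h1 : 0 ≤ j) (h2 : j + 3 < 2 * u) (h3 : (j) % 2 = 0) :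
    2 * Y02 s u j + j = 2 * s + 2 * u := by
  unfold Y02; rw [if_pos (by omega), if_pos (by omega)] <;> omega

lemma Y02_0o (s u j : ℕ) (hp0 : 2 ≤ u) (h1 : 0 ≤ j) (h2 : j + 3 < 2 * u) (h3 : (j) % 2 = 1) :
    2 * Y02 s u j + j = 8 * s + 8 * u + 1 := by
  unfold Y02; rw [if_pos (by omega), if_neg (by omega)] <;> omega

lemma Y02_1e (s u j : ℕ) (hp0 : 2 ≤ u) (h1 : 2 * u ≤ j + 3) (h2 : j + 1 < 2 * u + 2 * s) (h3 : (j + 3 - (2 * u)) % 2 = 0) :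
    2 * Y02 s u j + j = 12 * s + 12 * u + 1 := by
  unfold Y02; rw [if_neg (by omega), if_pos (by omega), if_pos (by omega)] <;> omega

lemma Y02_1o (s u j : ℕ) (hp0 : 2 ≤ u) (h1 : 2 * u ≤ j + 3) (h2 : j + 1 < 2 * u + 2 * s) (h3 : (j + 3 - (2 * u)) % 2 = 1) :
    2 * Y02 s u j + j = 6 * s + 6 * u := by
  unfold Y02; rw [if_neg (by omega), if_pos (by omega), if_neg (by omega)] <;> omega

lemma Y02_2e (s u j : ℕ) (hp0 : 2 ≤ u) (h1 : 2 * u + 2 * s ≤ j + 1) (h2 : j + 4 < 4 * u + 2 * s) (h3 : (j + 1 - (2 * u + 2 * s)) % 2 = 0) :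
    2 * Y02 s u j + j + 1 = 8 * s + 8 * u := by
  unfold Y02; rw [if_neg (by omega), if_neg (by omega), if_pos (by omega), if_pos (by omega)] <;> omega

lemma Y02_2o (s u j : ℕ) (hp0 : 2 ≤ u) (h1 : 2 * u + 2 * s ≤ j + 1) (h2 : j + 4 < 4 * u + 2 * s) (h3 : (j + 1 - (2 * u + 2 * s)) % 2 = 1) :
    2 * Y02 s u j + j = 14 * s + 14 * u := by
  unfold Y02; rw [if_neg (by omega), if_neg (by omega), if_pos (by omega), if_neg (by omega)] <;> omega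

lemma Y02_3e (s u j : ℕ) (hp0 : 2 ≤ u) (h1 : 4 * u + 2 * s ≤ j + 4) (h2 : j + 7 < 6 * u + 2 * s) (h3 : (j + 4 - (4 * u + 2 * s)) % 2 = 0) :
    2 * Y02 s u j + 2 * u = 2 * s + j + 8 := by
  unfold Y02; rw [if_neg (by omega), if_neg (by omega), if_neg (by omega), if_pos (by omega), if_pos (by omega)] <;> omega

lemma Y02_3o (s u j : ℕ) (hp0 : 2 ≤ u) (h1 : 4 * u + 2 * s ≤ j + 4) (h2 : j + 7 < 6 * u + 2 * s) (h3 : (j + 4 - (4 * u + 2 * s)) % 2 = 1) :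
    2 * Y02 s u j = 8 * s + 4 * u + j + 9 := by
  unfold Y02; rw [if_neg (by omega), if_neg (by omega), if_neg (by omega), if_pos (by omega), if_neg (by omega)] <;> omega

lemma Y02_4 (s u j : ℕ) (hp0 : 2 ≤ u) (h1 : 6 * u + 2 * s ≤ j + 7) (h2 : j + 6 < 6 * u + 2 * s) :
    Y02 s u j = 8 * s + 8 * u + 1 := by
  unfold Y02; rw [if_neg (by omega), if_neg (by omega), if_neg (by omega), if_neg (by omega)] <;> omega

lemma cov02 (s u : ℕ) (hp0 : 2 ≤ u) :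
    Cov (4 * s + 6) (6 * u + 2 * s - (6)) (X02 s u) (Y02 s u) (15 * s + 15 * u + 2) := by
  intro v h1 h2
  by_cases c0 : v ≤ s + 1
  · obtain ⟨j, hj⟩ : ∃ j, j = (2 * v - (1)) := ⟨_, rfl⟩
    have a0 := X02_0o s u (j) hp0 (by omega) (by omega) (by omega)
    exact ⟨j, Or.inl ⟨by omega, by omega⟩⟩
  by_cases c1 : v ≤ s + u
  · obtain ⟨j, hj⟩ : ∃ j, j = (2 * s + 2 * u - (2 * v)) := ⟨_, rfl⟩
    have a0 := Y02_0e s u (j) hp0 (by omega) (by omega) (by omega)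
    exact ⟨j, Or.inr (Or.inr (Or.inr (Or.inl ⟨by omega, by omega⟩)))⟩
  by_cases c2 : v ≤ 2 * s + u + 1
  · obtain ⟨j, hj⟩ : ∃ j, j = (6 * s + 2 * u + 6 - (2 * v)) := ⟨_, rfl⟩
    have a0 := X02_1o s u (j) hp0 (by omega) (by omega) (by omega)
    exact ⟨j, Or.inl ⟨by omega, by omega⟩⟩
  by_cases c3 : v ≤ 2 * s + 2 * u
  · obtain ⟨j, hj⟩ : ∃ j, j = (2 * u + 2 * v - (2 * s + 8)) := ⟨_, rfl⟩
    have a0 := Y02_3e s u (j) hp0 (by omega) (by omega) (by omega)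
    exact ⟨j, Or.inr (Or.inr (Or.inr (Or.inl ⟨by omega, by omega⟩)))⟩
  by_cases c4 : v ≤ 3 * s + 2 * u + 1
  · obtain ⟨j, hj⟩ : ∃ j, j = (6 * u + 6 * s - (2 * v)) := ⟨_, rfl⟩
    have a0 := Y02_1o s u (j) hp0 (by omega) (by omega) (by omega)
    exact ⟨j, Or.inr (Or.inr (Or.inr (Or.inl ⟨by omega, by omega⟩)))⟩
  by_cases c5 : v ≤ 3 * s + 3 * u
  · obtain ⟨j, hj⟩ : ∃ j, j = (8 * u + 8 * s - (2 * v + 1)) := ⟨_, rfl⟩
    have a0 := Y02_2e s u (j) hp0 (by omega) (by omega) (by omega)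
    exact ⟨j, Or.inr (Or.inr (Or.inr (Or.inl ⟨by omega, by omega⟩)))⟩
  by_cases c6 : v ≤ 4 * s + 3 * u + 2
  · obtain ⟨j, hj⟩ : ∃ j, j = (2 * v - (6 * s + 6 * u + 2)) := ⟨_, rfl⟩
    have a0 := X02_0e s u (j) hp0 (by omega) (by omega) (by omega)
    exact ⟨j, Or.inl ⟨by omega, by omega⟩⟩
  by_cases c7 : v ≤ 4 * s + 4 * u
  · obtain ⟨j, hj⟩ : ∃ j, j = (8 * s + 8 * u + 1 - (2 * v)) := ⟨_, rfl⟩
    have a0 := Y02_0o s u (j) hp0 (by omega) (by omega) (by omega)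
    exact ⟨j, Or.inr (Or.inr (Or.inr (Or.inl ⟨by omega, by omega⟩)))⟩
  by_cases c8 : v ≤ 5 * s + 4 * u + 2
  · obtain ⟨j, hj⟩ : ∃ j, j = (12 * s + 8 * u + 7 - (2 * v)) := ⟨_, rfl⟩
    have a0 := X02_1e s u (j) hp0 (by omega) (by omega) (by omega)
    exact ⟨j, Or.inl ⟨by omega, by omega⟩⟩
  by_cases c9 : v ≤ 5 * s + 5 * u
  · obtain ⟨j, hj⟩ : ∃ j, j = (2 * v - (4 * u + 8 * s + 9)) := ⟨_, rfl⟩
    have a0 := Y02_3o s u (j) hp0 (by omega) (by omega) (by omega)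
    exact ⟨j, Or.inr (Or.inr (Or.inr (Or.inl ⟨by omega, by omega⟩)))⟩
  by_cases c10 : v ≤ 5 * s + 5 * u + 1
  · obtain ⟨j, hj⟩ : ∃ j, j = (6 * u + 2 * s - (8)) := ⟨_, rfl⟩
    have a0 := Y02_3e s u (j) hp0 (by omega) (by omega) (by omega)
    have a1 := Y02_4 s u ((j + 1)) hp0 (by omega) (by omega)
    exact ⟨j, Or.inr (Or.inr (Or.inr (Or.inr (Or.inl ⟨by omega, by omega⟩))))⟩
  by_cases c11 : v ≤ 6 * s + 5 * u + 2
  · obtain ⟨j, hj⟩ : ∃ j, j = (12 * u + 12 * s + 1 - (2 * v)) := ⟨_, rfl⟩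
    have a0 := Y02_1e s u (j) hp0 (by omega) (by omega) (by omega)
    exact ⟨j, Or.inr (Or.inr (Or.inr (Or.inl ⟨by omega, by omega⟩)))⟩
  by_cases c12 : v ≤ 6 * s + 6 * u
  · obtain ⟨j, hj⟩ : ∃ j, j = (14 * u + 14 * s - (2 * v)) := ⟨_, rfl⟩
    have a0 := Y02_2o s u (j) hp0 (by omega) (by omega) (by omega)
    exact ⟨j, Or.inr (Or.inr (Or.inr (Or.inl ⟨by omega, by omega⟩)))⟩
  by_cases c13 : v ≤ 6 * s + 6 * u + 1
  · obtain ⟨j, hj⟩ : ∃ j, j = (6 * u + 2 * s - (7)) := ⟨_, rfl⟩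
    have a0 := Y02_4 s u (j) hp0 (by omega) (by omega)
    have a1 := Y02_0e s u ((0)) hp0 (by omega) (by omega) (by omega)
    exact ⟨j, Or.inr (Or.inr (Or.inr (Or.inr (Or.inr (⟨by omega, by omega⟩)))))⟩
  by_cases c14 : v + 3 ≤ 6 * s + 8 * u
  · by_cases d0 : (v - (6 * s + 6 * u + 2)) % 2 = 0
    · obtain ⟨j, hj⟩ : ∃ j, j = (v - (4 * u + 4 * s + 3)) := ⟨_, rfl⟩
      have a0 := Y02_2e s u (j) hp0 (by omega) (by omega) (by omega)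
      have a1 := Y02_2o s u ((j + 1)) hp0 (by omega) (by omega) (by omega)
      exact ⟨j, Or.inr (Or.inr (Or.inr (Or.inr (Or.inl ⟨by omega, by omega⟩))))⟩
    obtain ⟨j, hj⟩ : ∃ j, j = (v - (4 * u + 4 * s + 3)) := ⟨_, rfl⟩
    have a0 := Y02_2o s u (j) hp0 (by omega) (by omega) (by omega)
    have a1 := Y02_2e s u ((j + 1)) hp0 (by omega) (by omega) (by omega)
    exact ⟨j, Or.inr (Or.inr (Or.inr (Or.inr (Or.inl ⟨by omega, by omega⟩))))⟩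
  by_cases c15 : v + 2 ≤ 6 * s + 8 * u
  · obtain ⟨j, hj⟩ : ∃ j, j = (2 * s + 2) := ⟨_, rfl⟩
    have a0 := X02_0e s u (j) hp0 (by omega) (by omega) (by omega)
    have a1 := X02_1e s u ((j + 1)) hp0 (by omega) (by omega) (by omega)
    exact ⟨j, Or.inr (Or.inl ⟨by omega, by omega⟩)⟩
  by_cases c16 : v + 1 ≤ 8 * s + 8 * u
  · by_cases d0 : (v + 1 - (6 * s + 8 * u)) % 2 = 0
    · obtain ⟨j, hj⟩ : ∃ j, j = (v - (6 * u + 6 * s + 2)) := ⟨_, rfl⟩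
      have a0 := Y02_1e s u (j) hp0 (by omega) (by omega) (by omega)
      have a1 := Y02_1o s u ((j + 1)) hp0 (by omega) (by omega) (by omega)
      exact ⟨j, Or.inr (Or.inr (Or.inr (Or.inr (Or.inl ⟨by omega, by omega⟩))))⟩
    obtain ⟨j, hj⟩ : ∃ j, j = (v - (6 * u + 6 * s + 2)) := ⟨_, rfl⟩
    have a0 := Y02_1o s u (j) hp0 (by omega) (by omega) (by omega)
    have a1 := Y02_1e s u ((j + 1)) hp0 (by omega) (by omega) (by omega)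
    exact ⟨j, Or.inr (Or.inr (Or.inr (Or.inr (Or.inl ⟨by omega, by omega⟩))))⟩
  by_cases c17 : v ≤ 8 * s + 8 * u
  · obtain ⟨j, hj⟩ : ∃ j, j = (4 * s + 5) := ⟨_, rfl⟩
    have a0 := X02_1e s u (j) hp0 (by omega) (by omega) (by omega)
    have a1 := X02_0e s u ((0)) hp0 (by omega) (by omega) (by omega)
    exact ⟨j, Or.inr (Or.inr (Or.inl ⟨by omega, by omega⟩))⟩
  by_cases c18 : v ≤ 8 * s + 8 * u + 1
  · obtain ⟨j, hj⟩ : ∃ j, j = (6 * u + 2 * s - (7)) := ⟨_, rfl⟩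
    have a0 := Y02_4 s u (j) hp0 (by omega) (by omega)
    exact ⟨j, Or.inr (Or.inr (Or.inr (Or.inl ⟨by omega, by omega⟩)))⟩
  by_cases c19 : v + 3 ≤ 8 * s + 10 * u
  · by_cases d0 : (v - (8 * s + 8 * u + 2)) % 2 = 0
    · obtain ⟨j, hj⟩ : ∃ j, j = (14 * u + 10 * s - (v + 7)) := ⟨_, rfl⟩
      have a0 := Y02_3o s u (j) hp0 (by omega) (by omega) (by omega)
      have a1 := Y02_3e s u ((j + 1)) hp0 (by omega) (by omega) (by omega)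
      exact ⟨j, Or.inr (Or.inr (Or.inr (Or.inr (Or.inl ⟨by omega, by omega⟩))))⟩
    obtain ⟨j, hj⟩ : ∃ j, j = (14 * u + 10 * s - (v + 7)) := ⟨_, rfl⟩
    have a0 := Y02_3e s u (j) hp0 (by omega) (by omega) (by omega)
    have a1 := Y02_3o s u ((j + 1)) hp0 (by omega) (by omega) (by omega)
    exact ⟨j, Or.inr (Or.inr (Or.inr (Or.inr (Or.inl ⟨by omega, by omega⟩))))⟩
  by_cases c20 : v + 2 ≤ 8 * s + 10 * u
  · obtain ⟨j, hj⟩ : ∃ j, j = (2 * u - (4)) := ⟨_, rfl⟩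
    have a0 := Y02_0e s u (j) hp0 (by omega) (by omega) (by omega)
    have a1 := Y02_1e s u ((j + 1)) hp0 (by omega) (by omega) (by omega)
    exact ⟨j, Or.inr (Or.inr (Or.inr (Or.inr (Or.inl ⟨by omega, by omega⟩))))⟩
  by_cases c21 : v ≤ 10 * s + 10 * u
  · by_cases d0 : (v + 1 - (8 * s + 10 * u)) % 2 = 0
    · obtain ⟨j, hj⟩ : ∃ j, j = (v + 4 - (6 * s + 10 * u)) := ⟨_, rfl⟩
      have a0 := X02_1e s u (j) hp0 (by omega) (by omega) (by omega)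
      have a1 := X02_1o s u ((j + 1)) hp0 (by omega) (by omega) (by omega)
      exact ⟨j, Or.inr (Or.inl ⟨by omega, by omega⟩)⟩
    obtain ⟨j, hj⟩ : ∃ j, j = (v + 4 - (6 * s + 10 * u)) := ⟨_, rfl⟩
    have a0 := X02_1o s u (j) hp0 (by omega) (by omega) (by omega)
    have a1 := X02_1e s u ((j + 1)) hp0 (by omega) (by omega) (by omega)
    exact ⟨j, Or.inr (Or.inl ⟨by omega, by omega⟩)⟩
  by_cases c22 : v ≤ 10 * s + 10 * u + 1
  · obtain ⟨j, hj⟩ : ∃ j, j = (2 * u + 2 * s - (2)) := ⟨_, rfl⟩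
    have a0 := Y02_1o s u (j) hp0 (by omega) (by omega) (by omega)
    have a1 := Y02_2e s u ((j + 1)) hp0 (by omega) (by omega) (by omega)
    exact ⟨j, Or.inr (Or.inr (Or.inr (Or.inr (Or.inl ⟨by omega, by omega⟩))))⟩
  by_cases c23 : v + 3 ≤ 10 * s + 12 * u
  · by_cases d0 : (v - (10 * s + 10 * u + 2)) % 2 = 0
    · obtain ⟨j, hj⟩ : ∃ j, j = (v - (10 * s + 10 * u + 2)) := ⟨_, rfl⟩
      have a0 := Y02_0e s u (j) hp0 (by omega) (by omega) (by omega)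
      have a1 := Y02_0o s u ((j + 1)) hp0 (by omega) (by omega) (by omega)
      exact ⟨j, Or.inr (Or.inr (Or.inr (Or.inr (Or.inl ⟨by omega, by omega⟩))))⟩
    obtain ⟨j, hj⟩ : ∃ j, j = (v - (10 * s + 10 * u + 2)) := ⟨_, rfl⟩
    have a0 := Y02_0o s u (j) hp0 (by omega) (by omega) (by omega)
    have a1 := Y02_0e s u ((j + 1)) hp0 (by omega) (by omega) (by omega)
    exact ⟨j, Or.inr (Or.inr (Or.inr (Or.inr (Or.inl ⟨by omega, by omega⟩))))⟩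
  by_cases c24 : v + 2 ≤ 10 * s + 12 * u
  · obtain ⟨j, hj⟩ : ∃ j, j = (4 * u + 2 * s - (5)) := ⟨_, rfl⟩
    have a0 := Y02_2e s u (j) hp0 (by omega) (by omega) (by omega)
    have a1 := Y02_3e s u ((j + 1)) hp0 (by omega) (by omega) (by omega)
    exact ⟨j, Or.inr (Or.inr (Or.inr (Or.inr (Or.inl ⟨by omega, by omega⟩))))⟩
  by_cases d0 : (v + 1 - (10 * s + 12 * u)) % 2 = 0
  · obtain ⟨j, hj⟩ : ∃ j, j = (12 * s + 12 * u - (v)) := ⟨_, rfl⟩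
    have a0 := X02_0o s u (j) hp0 (by omega) (by omega) (by omega)
    have a1 := X02_0e s u ((j + 1)) hp0 (by omega) (by omega) (by omega)
    exact ⟨j, Or.inr (Or.inl ⟨by omega, by omega⟩)⟩
  obtain ⟨j, hj⟩ : ∃ j, j = (12 * s + 12 * u - (v)) := ⟨_, rfl⟩
  have a0 := X02_0e s u (j) hp0 (by omega) (by omega) (by omega)
  have a1 := X02_0o s u ((j + 1)) hp0 (by omega) (by omega) (by omega)
  exact ⟨j, Or.inr (Or.inl ⟨by omega, by omega⟩)⟩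

def X03 (s u j : ℕ) : ℕ :=
  if j < 2 * s + 1 then (if (j) % 2 = 0 then (5 * s + 5 * u + 2 + 1 * ((j) / 2)) else (1 + 1 * ((j) / 2))) else
  if j < 4 * s + 2 then (if (j - (2 * s + 1)) % 2 = 0 then (3 * s + 2 * u + 2 - (1 * ((j - (2 * s + 1)) / 2))) else (2 * s + u - (1 * ((j - (2 * s + 1)) / 2)))) else
  (8 * s + 8 * u)

lemma X03_0e (s u j : ℕ) (hp0 : 2 ≤ u) (h1 : 0 ≤ j) (h2 : j < 2 * s + 1) (h3 : (j) % 2 = 0) :
    2 * X03 s u j = 10 * s + 10 * u + j + 4 := by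
  unfold X03; rw [if_pos (by omega), if_pos (by omega)] <;> omega

lemma X03_0o (s u j : ℕ) (hp0 : 2 ≤ u) (h1 : 0 ≤ j) (h2 : j < 2 * s + 1) (h3 : (j) % 2 = 1) :
    2 * X03 s u j = j + 1 := by
  unfold X03; rw [if_pos (by omega), if_neg (by omega)] <;> omega

lemma X03_1e (s u j : ℕ) (hp0 : 2 ≤ u) (h1 : 2 * s + 1 ≤ j) (h2 : j < 4 * s + 2) (h3 : (j - (2 * s + 1)) % 2 = 0) :
    2 * X03 s u j + j = 8 * s + 4 * u + 5 := by
  unfold X03; rw [if_neg (by omega), if_pos (by omega), if_pos (by omega)] <;> omega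

lemma X03_1o (s u j : ℕ) (hp0 : 2 ≤ u) (h1 : 2 * s + 1 ≤ j) (h2 : j < 4 * s + 2) (h3 : (j - (2 * s + 1)) % 2 = 1) :
    2 * X03 s u j + j = 6 * s + 2 * u + 2 := by
  unfold X03; rw [if_neg (by omega), if_pos (by omega), if_neg (by omega)] <;> omega

lemma X03_2 (s u j : ℕ) (hp0 : 2 ≤ u) (h1 : 4 * s + 2 ≤ j) (h2 : j < 4 * s + 3) :
    X03 s u j = 8 * s + 8 * u := by
  unfold X03; rw [if_neg (by omega), if_neg (by omega)] <;> omega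

def Y03 (s u j : ℕ) : ℕ :=
  if j < 2 * u then (if (j) % 2 = 0 then (6 * s + 6 * u + 2 - (1 * ((j) / 2))) else (s + u - (1 * ((j) / 2)))) else
  if j < 2 * u + 2 * s + 1 then (if (j - (2 * u)) % 2 = 0 then (4 * s + 3 * u + 2 - (1 * ((j - (2 * u)) / 2))) else (5 * s + 4 * u + 1 - (1 * ((j - (2 * u)) / 2)))) else
  if j < 4 * u + 2 * s then (if (j - (2 * u + 2 * s + 1)) % 2 = 0 then (2 * s + 2 * u - (1 * ((j - (2 * u + 2 * s + 1)) / 2))) else (3 * s + 3 * u + 1 - (1 * ((j - (2 * u + 2 * s + 1)) / 2)))) else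
  (if (j - (4 * u + 2 * s)) % 2 = 0 then (5 * s + 4 * u + 2 + 1 * ((j - (4 * u + 2 * s)) / 2)) else (4 * s + 3 * u + 3 + 1 * ((j - (4 * u + 2 * s)) / 2)))

lemma Y03_0e (s u j : ℕ) (hp0 : 2 ≤ u) (h1 : 0 ≤ j) (h2 : j < 2 * u) (h3 : (j) % 2 = 0) :
    2 * Y03 s u j + j = 12 * s + 12 * u + 4 := by
  unfold Y03; rw [if_pos (by omega), if_pos (by omega)] <;> omega

lemma Y03_0o (s u j : ℕ) (hp0 : 2 ≤ u) (h1 : 0 ≤ j) (h2 : j < 2 * u) (h3 : (j) % 2 = 1) :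
    2 * Y03 s u j + j = 2 * s + 2 * u + 1 := by
  unfold Y03; rw [if_pos (by omega), if_neg (by omega)] <;> omega

lemma Y03_1e (s u j : ℕ) (hp0 : 2 ≤ u) (h1 : 2 * u ≤ j) (h2 : j < 2 * u + 2 * s + 1) (h3 : (j - (2 * u)) % 2 = 0) :
    2 * Y03 s u j + j = 8 * s + 8 * u + 4 := by
  unfold Y03; rw [if_neg (by omega), if_pos (by omega), if_pos (by omega)] <;> omega

lemma Y03_1o (s u j : ℕ) (hp0 : 2 ≤ u) (h1 : 2 * u ≤ j) (h2 : j < 2 * u + 2 * s + 1) (h3 : (j - (2 * u)) % 2 = 1) :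
    2 * Y03 s u j + j = 10 * s + 10 * u + 3 := by
  unfold Y03; rw [if_neg (by omega), if_pos (by omega), if_neg (by omega)] <;> omega

lemma Y03_2e (s u j : ℕ) (hp0 : 2 ≤ u) (h1 : 2 * u + 2 * s + 1 ≤ j) (h2 : j < 4 * u + 2 * s) (h3 : (j - (2 * u + 2 * s + 1)) % 2 = 0) :
    2 * Y03 s u j + j = 6 * s + 6 * u + 1 := by
  unfold Y03; rw [if_neg (by omega), if_neg (by omega), if_pos (by omega), if_pos (by omega)] <;> omega

lemma Y03_2o (s u j : ℕ) (hp0 : 2 ≤ u) (h1 : 2 * u + 2 * s + 1 ≤ j) (h2 : j < 4 * u + 2 * s) (h3 : (j - (2 * u + 2 * s + 1)) % 2 = 1) :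
    2 * Y03 s u j + j = 8 * s + 8 * u + 4 := by
  unfold Y03; rw [if_neg (by omega), if_neg (by omega), if_pos (by omega), if_neg (by omega)] <;> omega

lemma Y03_3e (s u j : ℕ) (hp0 : 2 ≤ u) (h1 : 4 * u + 2 * s ≤ j) (h2 : j + 3 < 6 * u + 2 * s) (h3 : (j - (4 * u + 2 * s)) % 2 = 0) :
    2 * Y03 s u j = 8 * s + 4 * u + j + 4 := by
  unfold Y03; rw [if_neg (by omega), if_neg (by omega), if_neg (by omega), if_pos (by omega)] <;> omega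

lemma Y03_3o (s u j : ℕ) (hp0 : 2 ≤ u) (h1 : 4 * u + 2 * s ≤ j) (h2 : j + 3 < 6 * u + 2 * s) (h3 : (j - (4 * u + 2 * s)) % 2 = 1) :
    2 * Y03 s u j = 6 * s + 2 * u + j + 5 := by
  unfold Y03; rw [if_neg (by omega), if_neg (by omega), if_neg (by omega), if_neg (by omega)] <;> omega

lemma cov03 (s u : ℕ) (hp0 : 2 ≤ u) :
    Cov (4 * s + 3) (6 * u + 2 * s - (3)) (X03 s u) (Y03 s u) (15 * s + 15 * u + 3) := by
  intro v h1 h2
  by_cases c0 : v ≤ s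
  · obtain ⟨j, hj⟩ : ∃ j, j = (2 * v - (1)) := ⟨_, rfl⟩
    have a0 := X03_0o s u (j) hp0 (by omega) (by omega) (by omega)
    exact ⟨j, Or.inl ⟨by omega, by omega⟩⟩
  by_cases c1 : v ≤ s + u
  · obtain ⟨j, hj⟩ : ∃ j, j = (2 * s + 2 * u + 1 - (2 * v)) := ⟨_, rfl⟩
    have a0 := Y03_0o s u (j) hp0 (by omega) (by omega) (by omega)
    exact ⟨j, Or.inr (Or.inr (Or.inr (Or.inl ⟨by omega, by omega⟩)))⟩
  by_cases c2 : v ≤ 2 * s + u
  · obtain ⟨j, hj⟩ : ∃ j, j = (6 * s + 2 * u + 2 - (2 * v)) := ⟨_, rfl⟩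
    have a0 := X03_1o s u (j) hp0 (by omega) (by omega) (by omega)
    exact ⟨j, Or.inl ⟨by omega, by omega⟩⟩
  by_cases c3 : v ≤ 2 * s + 2 * u
  · obtain ⟨j, hj⟩ : ∃ j, j = (6 * u + 6 * s + 1 - (2 * v)) := ⟨_, rfl⟩
    have a0 := Y03_2e s u (j) hp0 (by omega) (by omega) (by omega)
    exact ⟨j, Or.inr (Or.inr (Or.inr (Or.inl ⟨by omega, by omega⟩)))⟩
  by_cases c4 : v ≤ 2 * s + 2 * u + 1
  · obtain ⟨j, hj⟩ : ∃ j, j = (4 * s + 2) := ⟨_, rfl⟩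
    have a0 := X03_2 s u (j) hp0 (by omega) (by omega)
    have a1 := X03_0e s u ((0)) hp0 (by omega) (by omega) (by omega)
    exact ⟨j, Or.inr (Or.inr (Or.inl ⟨by omega, by omega⟩))⟩
  by_cases c5 : v ≤ 3 * s + 2 * u + 2
  · obtain ⟨j, hj⟩ : ∃ j, j = (8 * s + 4 * u + 5 - (2 * v)) := ⟨_, rfl⟩
    have a0 := X03_1e s u (j) hp0 (by omega) (by omega) (by omega)
    exact ⟨j, Or.inl ⟨by omega, by omega⟩⟩
  by_cases c6 : v ≤ 3 * s + 3 * u + 1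
  · obtain ⟨j, hj⟩ : ∃ j, j = (8 * u + 8 * s + 4 - (2 * v)) := ⟨_, rfl⟩
    have a0 := Y03_2o s u (j) hp0 (by omega) (by omega) (by omega)
    exact ⟨j, Or.inr (Or.inr (Or.inr (Or.inl ⟨by omega, by omega⟩)))⟩
  by_cases c7 : v ≤ 4 * s + 3 * u + 2
  · obtain ⟨j, hj⟩ : ∃ j, j = (8 * u + 8 * s + 4 - (2 * v)) := ⟨_, rfl⟩
    have a0 := Y03_1e s u (j) hp0 (by omega) (by omega) (by omega)
    exact ⟨j, Or.inr (Or.inr (Or.inr (Or.inl ⟨by omega, by omega⟩)))⟩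
  by_cases c8 : v ≤ 4 * s + 4 * u
  · obtain ⟨j, hj⟩ : ∃ j, j = (2 * v - (2 * u + 6 * s + 5)) := ⟨_, rfl⟩
    have a0 := Y03_3o s u (j) hp0 (by omega) (by omega) (by omega)
    exact ⟨j, Or.inr (Or.inr (Or.inr (Or.inl ⟨by omega, by omega⟩)))⟩
  by_cases c9 : v ≤ 4 * s + 4 * u + 1
  · obtain ⟨j, hj⟩ : ∃ j, j = (6 * u + 2 * s - (4)) := ⟨_, rfl⟩
    have a0 := Y03_3e s u (j) hp0 (by omega) (by omega) (by omega)
    have a1 := Y03_0e s u ((0)) hp0 (by omega) (by omega) (by omega)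
    exact ⟨j, Or.inr (Or.inr (Or.inr (Or.inr (Or.inr (⟨by omega, by omega⟩)))))⟩
  by_cases c10 : v ≤ 5 * s + 4 * u + 1
  · obtain ⟨j, hj⟩ : ∃ j, j = (10 * u + 10 * s + 3 - (2 * v)) := ⟨_, rfl⟩
    have a0 := Y03_1o s u (j) hp0 (by omega) (by omega) (by omega)
    exact ⟨j, Or.inr (Or.inr (Or.inr (Or.inl ⟨by omega, by omega⟩)))⟩
  by_cases c11 : v ≤ 5 * s + 5 * u
  · obtain ⟨j, hj⟩ : ∃ j, j = (2 * v - (4 * u + 8 * s + 4)) := ⟨_, rfl⟩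
    have a0 := Y03_3e s u (j) hp0 (by omega) (by omega) (by omega)
    exact ⟨j, Or.inr (Or.inr (Or.inr (Or.inl ⟨by omega, by omega⟩)))⟩
  by_cases c12 : v ≤ 5 * s + 5 * u + 1
  · obtain ⟨j, hj⟩ : ∃ j, j = (4 * s + 1) := ⟨_, rfl⟩
    have a0 := X03_1e s u (j) hp0 (by omega) (by omega) (by omega)
    have a1 := X03_2 s u ((j + 1)) hp0 (by omega) (by omega)
    exact ⟨j, Or.inr (Or.inl ⟨by omega, by omega⟩)⟩
  by_cases c13 : v ≤ 6 * s + 5 * u + 2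
  · obtain ⟨j, hj⟩ : ∃ j, j = (2 * v - (10 * s + 10 * u + 4)) := ⟨_, rfl⟩
    have a0 := X03_0e s u (j) hp0 (by omega) (by omega) (by omega)
    exact ⟨j, Or.inl ⟨by omega, by omega⟩⟩
  by_cases c14 : v ≤ 6 * s + 6 * u + 2
  · obtain ⟨j, hj⟩ : ∃ j, j = (12 * s + 12 * u + 4 - (2 * v)) := ⟨_, rfl⟩
    have a0 := Y03_0e s u (j) hp0 (by omega) (by omega) (by omega)
    exact ⟨j, Or.inr (Or.inr (Or.inr (Or.inl ⟨by omega, by omega⟩)))⟩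
  by_cases c15 : v + 2 ≤ 6 * s + 8 * u
  · by_cases d0 : (v - (6 * s + 6 * u + 3)) % 2 = 0
    · obtain ⟨j, hj⟩ : ∃ j, j = (12 * u + 8 * s - (v + 2)) := ⟨_, rfl⟩
      have a0 := Y03_3o s u (j) hp0 (by omega) (by omega) (by omega)
      have a1 := Y03_3e s u ((j + 1)) hp0 (by omega) (by omega) (by omega)
      exact ⟨j, Or.inr (Or.inr (Or.inr (Or.inr (Or.inl ⟨by omega, by omega⟩))))⟩
    obtain ⟨j, hj⟩ : ∃ j, j = (12 * u + 8 * s - (v + 2)) := ⟨_, rfl⟩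
    have a0 := Y03_3e s u (j) hp0 (by omega) (by omega) (by omega)
    have a1 := Y03_3o s u ((j + 1)) hp0 (by omega) (by omega) (by omega)
    exact ⟨j, Or.inr (Or.inr (Or.inr (Or.inr (Or.inl ⟨by omega, by omega⟩))))⟩
  by_cases c16 : v + 1 ≤ 6 * s + 8 * u
  · obtain ⟨j, hj⟩ : ∃ j, j = (2 * s) := ⟨_, rfl⟩
    have a0 := X03_0e s u (j) hp0 (by omega) (by omega) (by omega)
    have a1 := X03_1e s u ((j + 1)) hp0 (by omega) (by omega) (by omega)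
    exact ⟨j, Or.inr (Or.inl ⟨by omega, by omega⟩)⟩
  by_cases c17 : v + 1 ≤ 8 * s + 8 * u
  · by_cases d0 : (v - (6 * s + 8 * u)) % 2 = 0
    · obtain ⟨j, hj⟩ : ∃ j, j = (v - (6 * u + 6 * s)) := ⟨_, rfl⟩
      have a0 := Y03_1e s u (j) hp0 (by omega) (by omega) (by omega)
      have a1 := Y03_1o s u ((j + 1)) hp0 (by omega) (by omega) (by omega)
      exact ⟨j, Or.inr (Or.inr (Or.inr (Or.inr (Or.inl ⟨by omega, by omega⟩))))⟩
    obtain ⟨j, hj⟩ : ∃ j, j = (v - (6 * u + 6 * s)) := ⟨_, rfl⟩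
    have a0 := Y03_1o s u (j) hp0 (by omega) (by omega) (by omega)
    have a1 := Y03_1e s u ((j + 1)) hp0 (by omega) (by omega) (by omega)
    exact ⟨j, Or.inr (Or.inr (Or.inr (Or.inr (Or.inl ⟨by omega, by omega⟩))))⟩
  by_cases c18 : v ≤ 8 * s + 8 * u
  · obtain ⟨j, hj⟩ : ∃ j, j = (4 * s + 2) := ⟨_, rfl⟩
    have a0 := X03_2 s u (j) hp0 (by omega) (by omega)
    exact ⟨j, Or.inl ⟨by omega, by omega⟩⟩
  by_cases c19 : v + 1 ≤ 8 * s + 10 * u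
  · by_cases d0 : (v - (8 * s + 8 * u + 1)) % 2 = 0
    · obtain ⟨j, hj⟩ : ∃ j, j = (v - (8 * s + 8 * u + 1)) := ⟨_, rfl⟩
      have a0 := Y03_0e s u (j) hp0 (by omega) (by omega) (by omega)
      have a1 := Y03_0o s u ((j + 1)) hp0 (by omega) (by omega) (by omega)
      exact ⟨j, Or.inr (Or.inr (Or.inr (Or.inr (Or.inl ⟨by omega, by omega⟩))))⟩
    obtain ⟨j, hj⟩ : ∃ j, j = (v - (8 * s + 8 * u + 1)) := ⟨_, rfl⟩
    have a0 := Y03_0o s u (j) hp0 (by omega) (by omega) (by omega)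
    have a1 := Y03_0e s u ((j + 1)) hp0 (by omega) (by omega) (by omega)
    exact ⟨j, Or.inr (Or.inr (Or.inr (Or.inr (Or.inl ⟨by omega, by omega⟩))))⟩
  by_cases c20 : v ≤ 8 * s + 10 * u
  · obtain ⟨j, hj⟩ : ∃ j, j = (4 * u + 2 * s - (1)) := ⟨_, rfl⟩
    have a0 := Y03_2e s u (j) hp0 (by omega) (by omega) (by omega)
    have a1 := Y03_3e s u ((j + 1)) hp0 (by omega) (by omega) (by omega)
    exact ⟨j, Or.inr (Or.inr (Or.inr (Or.inr (Or.inl ⟨by omega, by omega⟩))))⟩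
  by_cases c21 : v ≤ 10 * s + 10 * u
  · by_cases d0 : (v - (8 * s + 10 * u + 1)) % 2 = 0
    · obtain ⟨j, hj⟩ : ∃ j, j = (10 * s + 10 * u - (v)) := ⟨_, rfl⟩
      have a0 := X03_0o s u (j) hp0 (by omega) (by omega) (by omega)
      have a1 := X03_0e s u ((j + 1)) hp0 (by omega) (by omega) (by omega)
      exact ⟨j, Or.inr (Or.inl ⟨by omega, by omega⟩)⟩
    obtain ⟨j, hj⟩ : ∃ j, j = (10 * s + 10 * u - (v)) := ⟨_, rfl⟩
    have a0 := X03_0e s u (j) hp0 (by omega) (by omega) (by omega)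
    have a1 := X03_0o s u ((j + 1)) hp0 (by omega) (by omega) (by omega)
    exact ⟨j, Or.inr (Or.inl ⟨by omega, by omega⟩)⟩
  by_cases c22 : v ≤ 10 * s + 10 * u + 1
  · obtain ⟨j, hj⟩ : ∃ j, j = (2 * u + 2 * s) := ⟨_, rfl⟩
    have a0 := Y03_1e s u (j) hp0 (by omega) (by omega) (by omega)
    have a1 := Y03_2e s u ((j + 1)) hp0 (by omega) (by omega) (by omega)
    exact ⟨j, Or.inr (Or.inr (Or.inr (Or.inr (Or.inl ⟨by omega, by omega⟩))))⟩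
  by_cases c23 : v + 1 ≤ 10 * s + 12 * u
  · by_cases d0 : (v - (10 * s + 10 * u + 2)) % 2 = 0
    · obtain ⟨j, hj⟩ : ∃ j, j = (v - (8 * u + 8 * s + 1)) := ⟨_, rfl⟩
      have a0 := Y03_2e s u (j) hp0 (by omega) (by omega) (by omega)
      have a1 := Y03_2o s u ((j + 1)) hp0 (by omega) (by omega) (by omega)
      exact ⟨j, Or.inr (Or.inr (Or.inr (Or.inr (Or.inl ⟨by omega, by omega⟩))))⟩
    obtain ⟨j, hj⟩ : ∃ j, j = (v - (8 * u + 8 * s + 1)) := ⟨_, rfl⟩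
    have a0 := Y03_2o s u (j) hp0 (by omega) (by omega) (by omega)
    have a1 := Y03_2e s u ((j + 1)) hp0 (by omega) (by omega) (by omega)
    exact ⟨j, Or.inr (Or.inr (Or.inr (Or.inr (Or.inl ⟨by omega, by omega⟩))))⟩
  by_cases c24 : v ≤ 10 * s + 12 * u
  · obtain ⟨j, hj⟩ : ∃ j, j = (2 * u - (1)) := ⟨_, rfl⟩
    have a0 := Y03_0o s u (j) hp0 (by omega) (by omega) (by omega)
    have a1 := Y03_1e s u ((j + 1)) hp0 (by omega) (by omega) (by omega)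
    exact ⟨j, Or.inr (Or.inr (Or.inr (Or.inr (Or.inl ⟨by omega, by omega⟩))))⟩
  by_cases d0 : (v - (10 * s + 12 * u + 1)) % 2 = 0
  · obtain ⟨j, hj⟩ : ∃ j, j = (v - (8 * s + 12 * u)) := ⟨_, rfl⟩
    have a0 := X03_1e s u (j) hp0 (by omega) (by omega) (by omega)
    have a1 := X03_1o s u ((j + 1)) hp0 (by omega) (by omega) (by omega)
    exact ⟨j, Or.inr (Or.inl ⟨by omega, by omega⟩)⟩
  obtain ⟨j, hj⟩ : ∃ j, j = (v - (8 * s + 12 * u)) := ⟨_, rfl⟩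
  have a0 := X03_1o s u (j) hp0 (by omega) (by omega) (by omega)
  have a1 := X03_1e s u ((j + 1)) hp0 (by omega) (by omega) (by omega)
  exact ⟨j, Or.inr (Or.inl ⟨by omega, by omega⟩)⟩

end Pool.Agent.H35.TwoCyc
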