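import Pool.Agent.H35.TwoCyc

set_option autoImplicit false
set_option linter.unusedVariables false

namespace Pool.Agent.H35.TwoCyc

def X20 (s u j : ℕ) : ℕ :=
  if j < 2 * s + 1 then (if (j) % 2 = 0 then (1 + 1 * ((j) / 2)) else (5 * s + 5 * u + 5 + 1 * ((j) / 2))) else
  (if (j - (2 * s + 1)) % 2 = 0 then (4 * s + 3 * u + 5 - (1 * ((j - (2 * s + 1)) / 2))) else (5 * s + 4 * u + 3 - (1 * ((j - (2 * s + 1)) / 2))))

lemma X20_0e (s u j : ℕ) (hp0 : 3 ≤ u) (h1 : 0 ≤ j) (h2 : j < 2 * s + 1) (h3 : (j) % 2 = 0) :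
    2 * X20 s u j = j + 2 := by
  unfold X20; rw [if_pos (by omega), if_pos (by omega)] <;> omega

lemma X20_0o (s u j : ℕ) (hp0 : 3 ≤ u) (h1 : 0 ≤ j) (h2 : j < 2 * s + 1) (h3 : (j) % 2 = 1) :
    2 * X20 s u j = 10 * s + 10 * u + j + 9 := by
  unfold X20; rw [if_pos (by omega), if_neg (by omega)] <;> omega

lemma X20_1e (s u j : ℕ) (hp0 : 3 ≤ u) (h1 : 2 * s + 1 ≤ j) (h2 : j < 4 * s + 4) (h3 : (j - (2 * s + 1)) % 2 = 0) :
    2 * X20 s u j + j = 10 * s + 6 * u + 11 := by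
  unfold X20; rw [if_neg (by omega), if_pos (by omega)] <;> omega

lemma X20_1o (s u j : ℕ) (hp0 : 3 ≤ u) (h1 : 2 * s + 1 ≤ j) (h2 : j < 4 * s + 4) (h3 : (j - (2 * s + 1)) % 2 = 1) :
    2 * X20 s u j + j = 12 * s + 8 * u + 8 := by
  unfold X20; rw [if_neg (by omega), if_neg (by omega)] <;> omega

def Y20 (s u j : ℕ) : ℕ :=
  if j + 1 < 2 * u then (if (j) % 2 = 0 then (6 * s + 6 * u + 4 - (1 * ((j) / 2))) else (s + u - (1 * ((j) / 2)))) else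
  if j + 1 < 4 * u then (if (j + 1 - (2 * u)) % 2 = 0 then (3 * s + 2 * u + 4 + 1 * ((j + 1 - (2 * u)) / 2)) else (2 * s + u + 3 + 1 * ((j + 1 - (2 * u)) / 2))) else
  if j < 4 * u + 2 * s then (if (j + 1 - (4 * u)) % 2 = 0 then (s + u + 2 + 1 * ((j + 1 - (4 * u)) / 2)) else (2 * s + 2 * u + 4 + 1 * ((j + 1 - (4 * u)) / 2))) else
  if j + 5 < 6 * u + 2 * s then (if (j - (4 * u + 2 * s)) % 2 = 0 then (5 * s + 4 * u + 4 + 1 * ((j - (4 * u + 2 * s)) / 2)) else (4 * s + 3 * u + 6 + 1 * ((j - (4 * u + 2 * s)) / 2))) else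
  if j + 4 < 6 * u + 2 * s then (5 * s + 5 * u + 3) else
  if j + 3 < 6 * u + 2 * s then (2 * s + 2 * u + 3) else
  (8 * s + 8 * u + 3)

lemma Y20_0e (s u j : ℕ) (hp0 : 3 ≤ u) (h1 : 0 ≤ j) (h2 : j + 1 < 2 * u) (h3 : (j) % 2 = 0) :
    2 * Y20 s u j + j = 12 * s + 12 * u + 8 := by
  unfold Y20; rw [if_pos (by omega), if_pos (by omega)] <;> omega

lemma Y20_0o (s u j : ℕ) (hp0 : 3 ≤ u) (h1 : 0 ≤ j) (h2 : j + 1 < 2 * u) (h3 : (j) % 2 = 1) :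
    2 * Y20 s u j + j = 2 * s + 2 * u + 1 := by
  unfold Y20; rw [if_pos (by omega), if_neg (by omega)] <;> omega

lemma Y20_1e (s u j : ℕ) (hp0 : 3 ≤ u) (h1 : 2 * u ≤ j + 1) (h2 : j + 1 < 4 * u) (h3 : (j + 1 - (2 * u)) % 2 = 0) :
    2 * Y20 s u j = 6 * s + 2 * u + j + 9 := by
  unfold Y20; rw [if_neg (by omega), if_pos (by omega), if_pos (by omega)] <;> omega

lemma Y20_1o (s u j : ℕ) (hp0 : 3 ≤ u) (h1 : 2 * u ≤ j + 1) (h2 : j + 1 < 4 * u) (h3 : (j + 1 - (2 * u)) % 2 = 1) :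
    2 * Y20 s u j = 4 * s + j + 6 := by
  unfold Y20; rw [if_neg (by omega), if_pos (by omega), if_neg (by omega)] <;> omega

lemma Y20_2e (s u j : ℕ) (hp0 : 3 ≤ u) (h1 : 4 * u ≤ j + 1) (h2 : j < 4 * u + 2 * s) (h3 : (j + 1 - (4 * u)) % 2 = 0) :
    2 * Y20 s u j + 2 * u = 2 * s + j + 5 := by
  unfold Y20; rw [if_neg (by omega), if_neg (by omega), if_pos (by omega), if_pos (by omega)] <;> omega

lemma Y20_2o (s u j : ℕ) (hp0 : 3 ≤ u) (h1 : 4 * u ≤ j + 1) (h2 : j < 4 * u + 2 * s) (h3 : (j + 1 - (4 * u)) % 2 = 1) :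
    2 * Y20 s u j = 4 * s + j + 8 := by
  unfold Y20; rw [if_neg (by omega), if_neg (by omega), if_pos (by omega), if_neg (by omega)] <;> omega

lemma Y20_3e (s u j : ℕ) (hp0 : 3 ≤ u) (h1 : 4 * u + 2 * s ≤ j) (h2 : j + 5 < 6 * u + 2 * s) (h3 : (j - (4 * u + 2 * s)) % 2 = 0) :
    2 * Y20 s u j = 8 * s + 4 * u + j + 8 := by
  unfold Y20; rw [if_neg (by omega), if_neg (by omega), if_neg (by omega), if_pos (by omega), if_pos (by omega)] <;> omega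

lemma Y20_3o (s u j : ℕ) (hp0 : 3 ≤ u) (h1 : 4 * u + 2 * s ≤ j) (h2 : j + 5 < 6 * u + 2 * s) (h3 : (j - (4 * u + 2 * s)) % 2 = 1) :
    2 * Y20 s u j = 6 * s + 2 * u + j + 11 := by
  unfold Y20; rw [if_neg (by omega), if_neg (by omega), if_neg (by omega), if_pos (by omega), if_neg (by omega)] <;> omega

lemma Y20_4 (s u j : ℕ) (hp0 : 3 ≤ u) (h1 : 6 * u + 2 * s ≤ j + 5) (h2 : j + 4 < 6 * u + 2 * s) :
    Y20 s u j = 5 * s + 5 * u + 3 := by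
  unfold Y20; rw [if_neg (by omega), if_neg (by omega), if_neg (by omega), if_neg (by omega), if_pos (by omega)] <;> omega

lemma Y20_5 (s u j : ℕ) (hp0 : 3 ≤ u) (h1 : 6 * u + 2 * s ≤ j + 4) (h2 : j + 3 < 6 * u + 2 * s) :
    Y20 s u j = 2 * s + 2 * u + 3 := by
  unfold Y20; rw [if_neg (by omega), if_neg (by omega), if_neg (by omega), if_neg (by omega), if_neg (by omega), if_pos (by omega)] <;> omega

lemma Y20_6 (s u j : ℕ) (hp0 : 3 ≤ u) (h1 : 6 * u + 2 * s ≤ j + 3) (h2 : j + 2 < 6 * u + 2 * s) :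
    Y20 s u j = 8 * s + 8 * u + 3 := by
  unfold Y20; rw [if_neg (by omega), if_neg (by omega), if_neg (by omega), if_neg (by omega), if_neg (by omega), if_neg (by omega)] <;> omega

lemma cov20 (s u : ℕ) (hp0 : 3 ≤ u) :
    Cov (4 * s + 4) (6 * u + 2 * s - (2)) (X20 s u) (Y20 s u) (15 * s + 15 * u + 8) := by
  intro v h1 h2
  by_cases c0 : v ≤ s + 1
  · obtain ⟨j, hj⟩ : ∃ j, j = (2 * v - (2)) := ⟨_, rfl⟩
    have a0 := X20_0e s u (j) hp0 (by omega) (by omega) (by omega)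
    exact ⟨j, Or.inl ⟨by omega, by omega⟩⟩
  by_cases c1 : v ≤ s + u
  · obtain ⟨j, hj⟩ : ∃ j, j = (2 * s + 2 * u + 1 - (2 * v)) := ⟨_, rfl⟩
    have a0 := Y20_0o s u (j) hp0 (by omega) (by omega) (by omega)
    exact ⟨j, Or.inr (Or.inr (Or.inr (Or.inl ⟨by omega, by omega⟩)))⟩
  by_cases c2 : v ≤ s + u + 1
  · obtain ⟨j, hj⟩ : ∃ j, j = (6 * u + 2 * s - (3)) := ⟨_, rfl⟩
    have a0 := Y20_6 s u (j) hp0 (by omega) (by omega)
    have a1 := Y20_0e s u ((0)) hp0 (by omega) (by omega) (by omega)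
    exact ⟨j, Or.inr (Or.inr (Or.inr (Or.inr (Or.inr (⟨by omega, by omega⟩)))))⟩
  by_cases c3 : v ≤ 2 * s + u + 2
  · obtain ⟨j, hj⟩ : ∃ j, j = (2 * u + 2 * v - (2 * s + 5)) := ⟨_, rfl⟩
    have a0 := Y20_2e s u (j) hp0 (by omega) (by omega) (by omega)
    exact ⟨j, Or.inr (Or.inr (Or.inr (Or.inl ⟨by omega, by omega⟩)))⟩
  by_cases c4 : v ≤ 2 * s + 2 * u + 2
  · obtain ⟨j, hj⟩ : ∃ j, j = (2 * v - (4 * s + 6)) := ⟨_, rfl⟩
    have a0 := Y20_1o s u (j) hp0 (by omega) (by omega) (by omega)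
    exact ⟨j, Or.inr (Or.inr (Or.inr (Or.inl ⟨by omega, by omega⟩)))⟩
  by_cases c5 : v ≤ 2 * s + 2 * u + 3
  · obtain ⟨j, hj⟩ : ∃ j, j = (6 * u + 2 * s - (4)) := ⟨_, rfl⟩
    have a0 := Y20_5 s u (j) hp0 (by omega) (by omega)
    exact ⟨j, Or.inr (Or.inr (Or.inr (Or.inl ⟨by omega, by omega⟩)))⟩
  by_cases c6 : v ≤ 3 * s + 2 * u + 3
  · obtain ⟨j, hj⟩ : ∃ j, j = (2 * v - (4 * s + 8)) := ⟨_, rfl⟩
    have a0 := Y20_2o s u (j) hp0 (by omega) (by omega) (by omega)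
    exact ⟨j, Or.inr (Or.inr (Or.inr (Or.inl ⟨by omega, by omega⟩)))⟩
  by_cases c7 : v ≤ 3 * s + 3 * u + 3
  · obtain ⟨j, hj⟩ : ∃ j, j = (2 * v - (2 * u + 6 * s + 9)) := ⟨_, rfl⟩
    have a0 := Y20_1e s u (j) hp0 (by omega) (by omega) (by omega)
    exact ⟨j, Or.inr (Or.inr (Or.inr (Or.inl ⟨by omega, by omega⟩)))⟩
  by_cases c8 : v ≤ 4 * s + 3 * u + 5
  · obtain ⟨j, hj⟩ : ∃ j, j = (10 * s + 6 * u + 11 - (2 * v)) := ⟨_, rfl⟩
    have a0 := X20_1e s u (j) hp0 (by omega) (by omega) (by omega)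
    exact ⟨j, Or.inl ⟨by omega, by omega⟩⟩
  by_cases c9 : v ≤ 4 * s + 4 * u + 2
  · obtain ⟨j, hj⟩ : ∃ j, j = (2 * v - (2 * u + 6 * s + 11)) := ⟨_, rfl⟩
    have a0 := Y20_3o s u (j) hp0 (by omega) (by omega) (by omega)
    exact ⟨j, Or.inr (Or.inr (Or.inr (Or.inl ⟨by omega, by omega⟩)))⟩
  by_cases c10 : v ≤ 5 * s + 4 * u + 3
  · obtain ⟨j, hj⟩ : ∃ j, j = (12 * s + 8 * u + 8 - (2 * v)) := ⟨_, rfl⟩
    have a0 := X20_1o s u (j) hp0 (by omega) (by omega) (by omega)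
    exact ⟨j, Or.inl ⟨by omega, by omega⟩⟩
  by_cases c11 : v ≤ 5 * s + 5 * u + 1
  · obtain ⟨j, hj⟩ : ∃ j, j = (2 * v - (4 * u + 8 * s + 8)) := ⟨_, rfl⟩
    have a0 := Y20_3e s u (j) hp0 (by omega) (by omega) (by omega)
    exact ⟨j, Or.inr (Or.inr (Or.inr (Or.inl ⟨by omega, by omega⟩)))⟩
  by_cases c12 : v ≤ 5 * s + 5 * u + 2
  · obtain ⟨j, hj⟩ : ∃ j, j = (6 * u + 2 * s - (4)) := ⟨_, rfl⟩
    have a0 := Y20_5 s u (j) hp0 (by omega) (by omega)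
    have a1 := Y20_6 s u ((j + 1)) hp0 (by omega) (by omega)
    exact ⟨j, Or.inr (Or.inr (Or.inr (Or.inr (Or.inl ⟨by omega, by omega⟩))))⟩
  by_cases c13 : v ≤ 5 * s + 5 * u + 3
  · obtain ⟨j, hj⟩ : ∃ j, j = (6 * u + 2 * s - (5)) := ⟨_, rfl⟩
    have a0 := Y20_4 s u (j) hp0 (by omega) (by omega)
    exact ⟨j, Or.inr (Or.inr (Or.inr (Or.inl ⟨by omega, by omega⟩)))⟩
  by_cases c14 : v ≤ 5 * s + 5 * u + 4
  · obtain ⟨j, hj⟩ : ∃ j, j = (6 * u + 2 * s - (6)) := ⟨_, rfl⟩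
    have a0 := Y20_3e s u (j) hp0 (by omega) (by omega) (by omega)
    have a1 := Y20_4 s u ((j + 1)) hp0 (by omega) (by omega)
    exact ⟨j, Or.inr (Or.inr (Or.inr (Or.inr (Or.inl ⟨by omega, by omega⟩))))⟩
  by_cases c15 : v ≤ 6 * s + 5 * u + 4
  · obtain ⟨j, hj⟩ : ∃ j, j = (2 * v - (10 * s + 10 * u + 9)) := ⟨_, rfl⟩
    have a0 := X20_0o s u (j) hp0 (by omega) (by omega) (by omega)
    exact ⟨j, Or.inl ⟨by omega, by omega⟩⟩
  by_cases c16 : v ≤ 6 * s + 6 * u + 4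
  · obtain ⟨j, hj⟩ : ∃ j, j = (12 * s + 12 * u + 8 - (2 * v)) := ⟨_, rfl⟩
    have a0 := Y20_0e s u (j) hp0 (by omega) (by omega) (by omega)
    exact ⟨j, Or.inr (Or.inr (Or.inr (Or.inl ⟨by omega, by omega⟩)))⟩
  by_cases c17 : v + 2 ≤ 6 * s + 8 * u
  · by_cases d0 : (v - (6 * s + 6 * u + 5)) % 2 = 0
    · obtain ⟨j, hj⟩ : ∃ j, j = (12 * u + 8 * s - (v + 2)) := ⟨_, rfl⟩
      have a0 := Y20_3o s u (j) hp0 (by omega) (by omega) (by omega)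
      have a1 := Y20_3e s u ((j + 1)) hp0 (by omega) (by omega) (by omega)
      exact ⟨j, Or.inr (Or.inr (Or.inr (Or.inr (Or.inl ⟨by omega, by omega⟩))))⟩
    obtain ⟨j, hj⟩ : ∃ j, j = (12 * u + 8 * s - (v + 2)) := ⟨_, rfl⟩
    have a0 := Y20_3e s u (j) hp0 (by omega) (by omega) (by omega)
    have a1 := Y20_3o s u ((j + 1)) hp0 (by omega) (by omega) (by omega)
    exact ⟨j, Or.inr (Or.inr (Or.inr (Or.inr (Or.inl ⟨by omega, by omega⟩))))⟩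
  by_cases c18 : v + 1 ≤ 6 * s + 8 * u
  · obtain ⟨j, hj⟩ : ∃ j, j = (2 * u - (2)) := ⟨_, rfl⟩
    have a0 := Y20_0e s u (j) hp0 (by omega) (by omega) (by omega)
    have a1 := Y20_1e s u ((j + 1)) hp0 (by omega) (by omega) (by omega)
    exact ⟨j, Or.inr (Or.inr (Or.inr (Or.inr (Or.inl ⟨by omega, by omega⟩))))⟩
  by_cases c19 : v ≤ 8 * s + 8 * u + 1
  · by_cases d0 : (v - (6 * s + 8 * u)) % 2 = 0
    · obtain ⟨j, hj⟩ : ∃ j, j = (v + 1 - (4 * s + 8 * u)) := ⟨_, rfl⟩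
      have a0 := X20_1e s u (j) hp0 (by omega) (by omega) (by omega)
      have a1 := X20_1o s u ((j + 1)) hp0 (by omega) (by omega) (by omega)
      exact ⟨j, Or.inr (Or.inl ⟨by omega, by omega⟩)⟩
    obtain ⟨j, hj⟩ : ∃ j, j = (v + 1 - (4 * s + 8 * u)) := ⟨_, rfl⟩
    have a0 := X20_1o s u (j) hp0 (by omega) (by omega) (by omega)
    have a1 := X20_1e s u ((j + 1)) hp0 (by omega) (by omega) (by omega)
    exact ⟨j, Or.inr (Or.inl ⟨by omega, by omega⟩)⟩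
  by_cases c20 : v ≤ 8 * s + 8 * u + 2
  · obtain ⟨j, hj⟩ : ∃ j, j = (6 * u + 2 * s - (5)) := ⟨_, rfl⟩
    have a0 := Y20_4 s u (j) hp0 (by omega) (by omega)
    have a1 := Y20_5 s u ((j + 1)) hp0 (by omega) (by omega)
    exact ⟨j, Or.inr (Or.inr (Or.inr (Or.inr (Or.inl ⟨by omega, by omega⟩))))⟩
  by_cases c21 : v ≤ 8 * s + 8 * u + 3
  · obtain ⟨j, hj⟩ : ∃ j, j = (6 * u + 2 * s - (3)) := ⟨_, rfl⟩
    have a0 := Y20_6 s u (j) hp0 (by omega) (by omega)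
    exact ⟨j, Or.inr (Or.inr (Or.inr (Or.inl ⟨by omega, by omega⟩)))⟩
  by_cases c22 : v ≤ 8 * s + 10 * u + 1
  · by_cases d0 : (v - (8 * s + 8 * u + 4)) % 2 = 0
    · obtain ⟨j, hj⟩ : ∃ j, j = (v - (8 * s + 8 * u + 4)) := ⟨_, rfl⟩
      have a0 := Y20_0e s u (j) hp0 (by omega) (by omega) (by omega)
      have a1 := Y20_0o s u ((j + 1)) hp0 (by omega) (by omega) (by omega)
      exact ⟨j, Or.inr (Or.inr (Or.inr (Or.inr (Or.inl ⟨by omega, by omega⟩))))⟩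
    obtain ⟨j, hj⟩ : ∃ j, j = (v - (8 * s + 8 * u + 4)) := ⟨_, rfl⟩
    have a0 := Y20_0o s u (j) hp0 (by omega) (by omega) (by omega)
    have a1 := Y20_0e s u ((j + 1)) hp0 (by omega) (by omega) (by omega)
    exact ⟨j, Or.inr (Or.inr (Or.inr (Or.inr (Or.inl ⟨by omega, by omega⟩))))⟩
  by_cases c23 : v ≤ 8 * s + 10 * u + 2
  · obtain ⟨j, hj⟩ : ∃ j, j = (4 * u + 2 * s - (1)) := ⟨_, rfl⟩
    have a0 := Y20_2e s u (j) hp0 (by omega) (by omega) (by omega)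
    have a1 := Y20_3e s u ((j + 1)) hp0 (by omega) (by omega) (by omega)
    exact ⟨j, Or.inr (Or.inr (Or.inr (Or.inr (Or.inl ⟨by omega, by omega⟩))))⟩
  by_cases c24 : v ≤ 10 * s + 10 * u + 2
  · by_cases d0 : (v - (8 * s + 10 * u + 3)) % 2 = 0
    · obtain ⟨j, hj⟩ : ∃ j, j = (10 * s + 10 * u + 2 - (v)) := ⟨_, rfl⟩
      have a0 := X20_0o s u (j) hp0 (by omega) (by omega) (by omega)
      have a1 := X20_0e s u ((j + 1)) hp0 (by omega) (by omega) (by omega)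
      exact ⟨j, Or.inr (Or.inl ⟨by omega, by omega⟩)⟩
    obtain ⟨j, hj⟩ : ∃ j, j = (10 * s + 10 * u + 2 - (v)) := ⟨_, rfl⟩
    have a0 := X20_0e s u (j) hp0 (by omega) (by omega) (by omega)
    have a1 := X20_0o s u ((j + 1)) hp0 (by omega) (by omega) (by omega)
    exact ⟨j, Or.inr (Or.inl ⟨by omega, by omega⟩)⟩
  by_cases c25 : v ≤ 10 * s + 12 * u + 1
  · by_cases d0 : (v - (10 * s + 10 * u + 3)) % 2 = 0
    · obtain ⟨j, hj⟩ : ∃ j, j = (14 * u + 10 * s - (v)) := ⟨_, rfl⟩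
      have a0 := Y20_1e s u (j) hp0 (by omega) (by omega) (by omega)
      have a1 := Y20_1o s u ((j + 1)) hp0 (by omega) (by omega) (by omega)
      exact ⟨j, Or.inr (Or.inr (Or.inr (Or.inr (Or.inl ⟨by omega, by omega⟩))))⟩
    obtain ⟨j, hj⟩ : ∃ j, j = (14 * u + 10 * s - (v)) := ⟨_, rfl⟩
    have a0 := Y20_1o s u (j) hp0 (by omega) (by omega) (by omega)
    have a1 := Y20_1e s u ((j + 1)) hp0 (by omega) (by omega) (by omega)
    exact ⟨j, Or.inr (Or.inr (Or.inr (Or.inr (Or.inl ⟨by omega, by omega⟩))))⟩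
  by_cases c26 : v ≤ 10 * s + 12 * u + 2
  · obtain ⟨j, hj⟩ : ∃ j, j = (2 * s) := ⟨_, rfl⟩
    have a0 := X20_0e s u (j) hp0 (by omega) (by omega) (by omega)
    have a1 := X20_1e s u ((j + 1)) hp0 (by omega) (by omega) (by omega)
    exact ⟨j, Or.inr (Or.inl ⟨by omega, by omega⟩)⟩
  by_cases c27 : v ≤ 12 * s + 12 * u + 2
  · by_cases d0 : (v - (10 * s + 12 * u + 3)) % 2 = 0
    · obtain ⟨j, hj⟩ : ∃ j, j = (16 * u + 12 * s + 1 - (v)) := ⟨_, rfl⟩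
      have a0 := Y20_2o s u (j) hp0 (by omega) (by omega) (by omega)
      have a1 := Y20_2e s u ((j + 1)) hp0 (by omega) (by omega) (by omega)
      exact ⟨j, Or.inr (Or.inr (Or.inr (Or.inr (Or.inl ⟨by omega, by omega⟩))))⟩
    obtain ⟨j, hj⟩ : ∃ j, j = (16 * u + 12 * s + 1 - (v)) := ⟨_, rfl⟩
    have a0 := Y20_2e s u (j) hp0 (by omega) (by omega) (by omega)
    have a1 := Y20_2o s u ((j + 1)) hp0 (by omega) (by omega) (by omega)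
    exact ⟨j, Or.inr (Or.inr (Or.inr (Or.inr (Or.inl ⟨by omega, by omega⟩))))⟩
  by_cases c28 : v ≤ 12 * s + 12 * u + 3
  · obtain ⟨j, hj⟩ : ∃ j, j = (4 * s + 3) := ⟨_, rfl⟩
    have a0 := X20_1e s u (j) hp0 (by omega) (by omega) (by omega)
    have a1 := X20_0e s u ((0)) hp0 (by omega) (by omega) (by omega)
    exact ⟨j, Or.inr (Or.inr (Or.inl ⟨by omega, by omega⟩))⟩
  obtain ⟨j, hj⟩ : ∃ j, j = (4 * u - (2)) := ⟨_, rfl⟩
  have a0 := Y20_1o s u (j) hp0 (by omega) (by omega) (by omega)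
  have a1 := Y20_2e s u ((j + 1)) hp0 (by omega) (by omega) (by omega)
  exact ⟨j, Or.inr (Or.inr (Or.inr (Or.inr (Or.inl ⟨by omega, by omega⟩))))⟩

def X21 (s u j : ℕ) : ℕ :=
  if j < 2 * s + 3 then (if (j) % 2 = 0 then (5 * s + 5 * u + 4 + 1 * ((j) / 2)) else (1 + 1 * ((j) / 2))) else
  if j < 4 * s + 4 then (if (j - (2 * s + 3)) % 2 = 0 then (3 * s + 2 * u + 3 - (1 * ((j - (2 * s + 3)) / 2))) else (2 * s + u + 2 - (1 * ((j - (2 * s + 3)) / 2)))) else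
  (8 * s + 8 * u + 4)

lemma X21_0e (s u j : ℕ) (hp0 : 2 ≤ u) (h1 : 0 ≤ j) (h2 : j < 2 * s + 3) (h3 : (j) % 2 = 0) :
    2 * X21 s u j = 10 * s + 10 * u + j + 8 := by
  unfold X21; rw [if_pos (by omega), if_pos (by omega)] <;> omega

lemma X21_0o (s u j : ℕ) (hp0 : 2 ≤ u) (h1 : 0 ≤ j) (h2 : j < 2 * s + 3) (h3 : (j) % 2 = 1) :
    2 * X21 s u j = j + 1 := by
  unfold X21; rw [if_pos (by omega), if_neg (by omega)] <;> omega

lemma X21_1e (s u j : ℕ) (hp0 : 2 ≤ u) (h1 : 2 * s + 3 ≤ j) (h2 : j < 4 * s + 4) (h3 : (j - (2 * s + 3)) % 2 = 0) :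
    2 * X21 s u j + j = 8 * s + 4 * u + 9 := by
  unfold X21; rw [if_neg (by omega), if_pos (by omega), if_pos (by omega)] <;> omega

lemma X21_1o (s u j : ℕ) (hp0 : 2 ≤ u) (h1 : 2 * s + 3 ≤ j) (h2 : j < 4 * s + 4) (h3 : (j - (2 * s + 3)) % 2 = 1) :
    2 * X21 s u j + j = 6 * s + 2 * u + 8 := by
  unfold X21; rw [if_neg (by omega), if_pos (by omega), if_neg (by omega)] <;> omega

lemma X21_2 (s u j : ℕ) (hp0 : 2 ≤ u) (h1 : 4 * s + 4 ≤ j) (h2 : j < 4 * s + 5) :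
    X21 s u j = 8 * s + 8 * u + 4 := by
  unfold X21; rw [if_neg (by omega), if_neg (by omega)] <;> omega

def Y21 (s u j : ℕ) : ℕ :=
  if j + 2 < 2 * u then (if (j) % 2 = 0 then (6 * s + 6 * u + 4 - (1 * ((j) / 2))) else (s + u - (1 * ((j) / 2)))) else
  if j + 5 < 4 * u then (if (j + 2 - (2 * u)) % 2 = 0 then (4 * s + 3 * u + 4 + 1 * ((j + 2 - (2 * u)) / 2)) else (5 * s + 4 * u + 5 + 1 * ((j + 2 - (2 * u)) / 2))) else
  if j + 4 < 4 * u then (s + u + 2) else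
  if j + 3 < 4 * u then (8 * s + 8 * u + 3) else
  if j + 2 < 4 * u + 2 * s then (if (j + 3 - (4 * u)) % 2 = 0 then (4 * s + 4 * u + 4 + 1 * ((j + 3 - (4 * u)) / 2)) else (3 * s + 3 * u + 4 + 1 * ((j + 3 - (4 * u)) / 2))) else
  if j + 4 < 6 * u + 2 * s then (if (j + 2 - (4 * u + 2 * s)) % 2 = 0 then (2 * s + u + 3 + 1 * ((j + 2 - (4 * u + 2 * s)) / 2)) else (3 * s + 2 * u + 4 + 1 * ((j + 2 - (4 * u + 2 * s)) / 2))) else
  (8 * s + 8 * u + 5)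

lemma Y21_0e (s u j : ℕ) (hp0 : 2 ≤ u) (h1 : 0 ≤ j) (h2 : j + 2 < 2 * u) (h3 : (j) % 2 = 0) :
    2 * Y21 s u j + j = 12 * s + 12 * u + 8 := by
  unfold Y21; rw [if_pos (by omega), if_pos (by omega)] <;> omega

lemma Y21_0o (s u j : ℕ) (hp0 : 2 ≤ u) (h1 : 0 ≤ j) (h2 : j + 2 < 2 * u) (h3 : (j) % 2 = 1) :
    2 * Y21 s u j + j = 2 * s + 2 * u + 1 := by
  unfold Y21; rw [if_pos (by omega), if_neg (by omega)] <;> omega

lemma Y21_1e (s u j : ℕ) (hp0 : 2 ≤ u) (h1 : 2 * u ≤ j + 2) (h2 : j + 5 < 4 * u) (h3 : (j + 2 - (2 * u)) % 2 = 0) :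
    2 * Y21 s u j = 8 * s + 4 * u + j + 10 := by
  unfold Y21; rw [if_neg (by omega), if_pos (by omega), if_pos (by omega)] <;> omega

lemma Y21_1o (s u j : ℕ) (hp0 : 2 ≤ u) (h1 : 2 * u ≤ j + 2) (h2 : j + 5 < 4 * u) (h3 : (j + 2 - (2 * u)) % 2 = 1) :
    2 * Y21 s u j = 10 * s + 6 * u + j + 11 := by
  unfold Y21; rw [if_neg (by omega), if_pos (by omega), if_neg (by omega)] <;> omega

lemma Y21_2 (s u j : ℕ) (hp0 : 2 ≤ u) (h1 : 4 * u ≤ j + 5) (h2 : j + 4 < 4 * u) :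
    Y21 s u j = s + u + 2 := by
  unfold Y21; rw [if_neg (by omega), if_neg (by omega), if_pos (by omega)] <;> omega

lemma Y21_3 (s u j : ℕ) (hp0 : 2 ≤ u) (h1 : 4 * u ≤ j + 4) (h2 : j + 3 < 4 * u) :
    Y21 s u j = 8 * s + 8 * u + 3 := by
  unfold Y21; rw [if_neg (by omega), if_neg (by omega), if_neg (by omega), if_pos (by omega)] <;> omega

lemma Y21_4e (s u j : ℕ) (hp0 : 2 ≤ u) (h1 : 4 * u ≤ j + 3) (h2 : j + 2 < 4 * u + 2 * s) (h3 : (j + 3 - (4 * u)) % 2 = 0) :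
    2 * Y21 s u j = 8 * s + 4 * u + j + 11 := by
  unfold Y21; rw [if_neg (by omega), if_neg (by omega), if_neg (by omega), if_neg (by omega), if_pos (by omega), if_pos (by omega)] <;> omega

lemma Y21_4o (s u j : ℕ) (hp0 : 2 ≤ u) (h1 : 4 * u ≤ j + 3) (h2 : j + 2 < 4 * u + 2 * s) (h3 : (j + 3 - (4 * u)) % 2 = 1) :
    2 * Y21 s u j = 6 * s + 2 * u + j + 10 := by
  unfold Y21; rw [if_neg (by omega), if_neg (by omega), if_neg (by omega), if_neg (by omega), if_pos (by omega), if_neg (by omega)] <;> omega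

lemma Y21_5e (s u j : ℕ) (hp0 : 2 ≤ u) (h1 : 4 * u + 2 * s ≤ j + 2) (h2 : j + 4 < 6 * u + 2 * s) (h3 : (j + 2 - (4 * u + 2 * s)) % 2 = 0) :
    2 * Y21 s u j + 2 * u = 2 * s + j + 8 := by
  unfold Y21; rw [if_neg (by omega), if_neg (by omega), if_neg (by omega), if_neg (by omega), if_neg (by omega), if_pos (by omega), if_pos (by omega)] <;> omega

lemma Y21_5o (s u j : ℕ) (hp0 : 2 ≤ u) (h1 : 4 * u + 2 * s ≤ j + 2) (h2 : j + 4 < 6 * u + 2 * s) (h3 : (j + 2 - (4 * u + 2 * s)) % 2 = 1) :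
    2 * Y21 s u j = 4 * s + j + 9 := by
  unfold Y21; rw [if_neg (by omega), if_neg (by omega), if_neg (by omega), if_neg (by omega), if_neg (by omega), if_pos (by omega), if_neg (by omega)] <;> omega

lemma Y21_6 (s u j : ℕ) (hp0 : 2 ≤ u) (h1 : 6 * u + 2 * s ≤ j + 4) (h2 : j + 3 < 6 * u + 2 * s) :
    Y21 s u j = 8 * s + 8 * u + 5 := by
  unfold Y21; rw [if_neg (by omega), if_neg (by omega), if_neg (by omega), if_neg (by omega), if_neg (by omega), if_neg (by omega)] <;> omega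

lemma cov21 (s u : ℕ) (hp0 : 2 ≤ u) :
    Cov (4 * s + 5) (6 * u + 2 * s - (3)) (X21 s u) (Y21 s u) (15 * s + 15 * u + 10) := by
  intro v h1 h2
  by_cases c0 : v ≤ s + 1
  · obtain ⟨j, hj⟩ : ∃ j, j = (2 * v - (1)) := ⟨_, rfl⟩
    have a0 := X21_0o s u (j) hp0 (by omega) (by omega) (by omega)
    exact ⟨j, Or.inl ⟨by omega, by omega⟩⟩
  by_cases c1 : v ≤ s + u
  · obtain ⟨j, hj⟩ : ∃ j, j = (2 * s + 2 * u + 1 - (2 * v)) := ⟨_, rfl⟩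
    have a0 := Y21_0o s u (j) hp0 (by omega) (by omega) (by omega)
    exact ⟨j, Or.inr (Or.inr (Or.inr (Or.inl ⟨by omega, by omega⟩)))⟩
  by_cases c2 : v ≤ s + u + 1
  · obtain ⟨j, hj⟩ : ∃ j, j = (6 * u + 2 * s - (4)) := ⟨_, rfl⟩
    have a0 := Y21_6 s u (j) hp0 (by omega) (by omega)
    have a1 := Y21_0e s u ((0)) hp0 (by omega) (by omega) (by omega)
    exact ⟨j, Or.inr (Or.inr (Or.inr (Or.inr (Or.inr (⟨by omega, by omega⟩)))))⟩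
  by_cases c3 : v ≤ s + u + 2
  · obtain ⟨j, hj⟩ : ∃ j, j = (4 * u - (5)) := ⟨_, rfl⟩
    have a0 := Y21_2 s u (j) hp0 (by omega) (by omega)
    exact ⟨j, Or.inr (Or.inr (Or.inr (Or.inl ⟨by omega, by omega⟩)))⟩
  by_cases c4 : v ≤ 2 * s + u + 2
  · obtain ⟨j, hj⟩ : ∃ j, j = (6 * s + 2 * u + 8 - (2 * v)) := ⟨_, rfl⟩
    have a0 := X21_1o s u (j) hp0 (by omega) (by omega) (by omega)
    exact ⟨j, Or.inl ⟨by omega, by omega⟩⟩
  by_cases c5 : v ≤ 2 * s + 2 * u + 1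
  · obtain ⟨j, hj⟩ : ∃ j, j = (2 * u + 2 * v - (2 * s + 8)) := ⟨_, rfl⟩
    have a0 := Y21_5e s u (j) hp0 (by omega) (by omega) (by omega)
    exact ⟨j, Or.inr (Or.inr (Or.inr (Or.inl ⟨by omega, by omega⟩)))⟩
  by_cases c6 : v ≤ 2 * s + 2 * u + 2
  · obtain ⟨j, hj⟩ : ∃ j, j = (4 * s + 4) := ⟨_, rfl⟩
    have a0 := X21_2 s u (j) hp0 (by omega) (by omega)
    have a1 := X21_0e s u ((0)) hp0 (by omega) (by omega) (by omega)
    exact ⟨j, Or.inr (Or.inr (Or.inl ⟨by omega, by omega⟩))⟩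
  by_cases c7 : v ≤ 3 * s + 2 * u + 3
  · obtain ⟨j, hj⟩ : ∃ j, j = (8 * s + 4 * u + 9 - (2 * v)) := ⟨_, rfl⟩
    have a0 := X21_1e s u (j) hp0 (by omega) (by omega) (by omega)
    exact ⟨j, Or.inl ⟨by omega, by omega⟩⟩
  by_cases c8 : v ≤ 3 * s + 3 * u + 2
  · obtain ⟨j, hj⟩ : ∃ j, j = (2 * v - (4 * s + 9)) := ⟨_, rfl⟩
    have a0 := Y21_5o s u (j) hp0 (by omega) (by omega) (by omega)
    exact ⟨j, Or.inr (Or.inr (Or.inr (Or.inl ⟨by omega, by omega⟩)))⟩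
  by_cases c9 : v ≤ 3 * s + 3 * u + 3
  · obtain ⟨j, hj⟩ : ∃ j, j = (4 * u - (4)) := ⟨_, rfl⟩
    have a0 := Y21_3 s u (j) hp0 (by omega) (by omega)
    have a1 := Y21_4e s u ((j + 1)) hp0 (by omega) (by omega) (by omega)
    exact ⟨j, Or.inr (Or.inr (Or.inr (Or.inr (Or.inl ⟨by omega, by omega⟩))))⟩
  by_cases c10 : v ≤ 4 * s + 3 * u + 3
  · obtain ⟨j, hj⟩ : ∃ j, j = (2 * v - (2 * u + 6 * s + 10)) := ⟨_, rfl⟩
    have a0 := Y21_4o s u (j) hp0 (by omega) (by omega) (by omega)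
    exact ⟨j, Or.inr (Or.inr (Or.inr (Or.inl ⟨by omega, by omega⟩)))⟩
  by_cases c11 : v ≤ 4 * s + 4 * u + 2
  · obtain ⟨j, hj⟩ : ∃ j, j = (2 * v - (4 * u + 8 * s + 10)) := ⟨_, rfl⟩
    have a0 := Y21_1e s u (j) hp0 (by omega) (by omega) (by omega)
    exact ⟨j, Or.inr (Or.inr (Or.inr (Or.inl ⟨by omega, by omega⟩)))⟩
  by_cases c12 : v ≤ 4 * s + 4 * u + 3
  · obtain ⟨j, hj⟩ : ∃ j, j = (6 * u + 2 * s - (5)) := ⟨_, rfl⟩
    have a0 := Y21_5o s u (j) hp0 (by omega) (by omega) (by omega)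
    have a1 := Y21_6 s u ((j + 1)) hp0 (by omega) (by omega)
    exact ⟨j, Or.inr (Or.inr (Or.inr (Or.inr (Or.inl ⟨by omega, by omega⟩))))⟩
  by_cases c13 : v ≤ 5 * s + 4 * u + 4
  · obtain ⟨j, hj⟩ : ∃ j, j = (2 * v - (4 * u + 8 * s + 11)) := ⟨_, rfl⟩
    have a0 := Y21_4e s u (j) hp0 (by omega) (by omega) (by omega)
    exact ⟨j, Or.inr (Or.inr (Or.inr (Or.inl ⟨by omega, by omega⟩)))⟩
  by_cases c14 : v ≤ 5 * s + 5 * u + 2
  · obtain ⟨j, hj⟩ : ∃ j, j = (2 * v - (6 * u + 10 * s + 11)) := ⟨_, rfl⟩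
    have a0 := Y21_1o s u (j) hp0 (by omega) (by omega) (by omega)
    exact ⟨j, Or.inr (Or.inr (Or.inr (Or.inl ⟨by omega, by omega⟩)))⟩
  by_cases c15 : v ≤ 5 * s + 5 * u + 3
  · obtain ⟨j, hj⟩ : ∃ j, j = (4 * s + 3) := ⟨_, rfl⟩
    have a0 := X21_1e s u (j) hp0 (by omega) (by omega) (by omega)
    have a1 := X21_2 s u ((j + 1)) hp0 (by omega) (by omega)
    exact ⟨j, Or.inr (Or.inl ⟨by omega, by omega⟩)⟩
  by_cases c16 : v ≤ 6 * s + 5 * u + 5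
  · obtain ⟨j, hj⟩ : ∃ j, j = (2 * v - (10 * s + 10 * u + 8)) := ⟨_, rfl⟩
    have a0 := X21_0e s u (j) hp0 (by omega) (by omega) (by omega)
    exact ⟨j, Or.inl ⟨by omega, by omega⟩⟩
  by_cases c17 : v ≤ 6 * s + 6 * u + 4
  · obtain ⟨j, hj⟩ : ∃ j, j = (12 * s + 12 * u + 8 - (2 * v)) := ⟨_, rfl⟩
    have a0 := Y21_0e s u (j) hp0 (by omega) (by omega) (by omega)
    exact ⟨j, Or.inr (Or.inr (Or.inr (Or.inl ⟨by omega, by omega⟩)))⟩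
  by_cases c18 : v ≤ 6 * s + 6 * u + 5
  · obtain ⟨j, hj⟩ : ∃ j, j = (4 * u - (5)) := ⟨_, rfl⟩
    have a0 := Y21_2 s u (j) hp0 (by omega) (by omega)
    have a1 := Y21_3 s u ((j + 1)) hp0 (by omega) (by omega)
    exact ⟨j, Or.inr (Or.inr (Or.inr (Or.inr (Or.inl ⟨by omega, by omega⟩))))⟩
  by_cases c19 : v ≤ 6 * s + 8 * u + 1
  · by_cases d0 : (v - (6 * s + 6 * u + 6)) % 2 = 0
    · obtain ⟨j, hj⟩ : ∃ j, j = (10 * u + 6 * s - (v + 1)) := ⟨_, rfl⟩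
      have a0 := Y21_1o s u (j) hp0 (by omega) (by omega) (by omega)
      have a1 := Y21_1e s u ((j + 1)) hp0 (by omega) (by omega) (by omega)
      exact ⟨j, Or.inr (Or.inr (Or.inr (Or.inr (Or.inl ⟨by omega, by omega⟩))))⟩
    obtain ⟨j, hj⟩ : ∃ j, j = (10 * u + 6 * s - (v + 1)) := ⟨_, rfl⟩
    have a0 := Y21_1e s u (j) hp0 (by omega) (by omega) (by omega)
    have a1 := Y21_1o s u ((j + 1)) hp0 (by omega) (by omega) (by omega)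
    exact ⟨j, Or.inr (Or.inr (Or.inr (Or.inr (Or.inl ⟨by omega, by omega⟩))))⟩
  by_cases c20 : v ≤ 6 * s + 8 * u + 2
  · obtain ⟨j, hj⟩ : ∃ j, j = (2 * s + 2) := ⟨_, rfl⟩
    have a0 := X21_0e s u (j) hp0 (by omega) (by omega) (by omega)
    have a1 := X21_1e s u ((j + 1)) hp0 (by omega) (by omega) (by omega)
    exact ⟨j, Or.inr (Or.inl ⟨by omega, by omega⟩)⟩
  by_cases c21 : v ≤ 8 * s + 8 * u + 2
  · by_cases d0 : (v - (6 * s + 8 * u + 3)) % 2 = 0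
    · obtain ⟨j, hj⟩ : ∃ j, j = (12 * u + 8 * s - (v + 1)) := ⟨_, rfl⟩
      have a0 := Y21_4o s u (j) hp0 (by omega) (by omega) (by omega)
      have a1 := Y21_4e s u ((j + 1)) hp0 (by omega) (by omega) (by omega)
      exact ⟨j, Or.inr (Or.inr (Or.inr (Or.inr (Or.inl ⟨by omega, by omega⟩))))⟩
    obtain ⟨j, hj⟩ : ∃ j, j = (12 * u + 8 * s - (v + 1)) := ⟨_, rfl⟩
    have a0 := Y21_4e s u (j) hp0 (by omega) (by omega) (by omega)
    have a1 := Y21_4o s u ((j + 1)) hp0 (by omega) (by omega) (by omega)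
    exact ⟨j, Or.inr (Or.inr (Or.inr (Or.inr (Or.inl ⟨by omega, by omega⟩))))⟩
  by_cases c22 : v ≤ 8 * s + 8 * u + 3
  · obtain ⟨j, hj⟩ : ∃ j, j = (4 * u - (4)) := ⟨_, rfl⟩
    have a0 := Y21_3 s u (j) hp0 (by omega) (by omega)
    exact ⟨j, Or.inr (Or.inr (Or.inr (Or.inl ⟨by omega, by omega⟩)))⟩
  by_cases c23 : v ≤ 8 * s + 8 * u + 4
  · obtain ⟨j, hj⟩ : ∃ j, j = (4 * s + 4) := ⟨_, rfl⟩
    have a0 := X21_2 s u (j) hp0 (by omega) (by omega)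
    exact ⟨j, Or.inl ⟨by omega, by omega⟩⟩
  by_cases c24 : v ≤ 8 * s + 8 * u + 5
  · obtain ⟨j, hj⟩ : ∃ j, j = (6 * u + 2 * s - (4)) := ⟨_, rfl⟩
    have a0 := Y21_6 s u (j) hp0 (by omega) (by omega)
    exact ⟨j, Or.inr (Or.inr (Or.inr (Or.inl ⟨by omega, by omega⟩)))⟩
  by_cases c25 : v ≤ 8 * s + 10 * u + 2
  · by_cases d0 : (v - (8 * s + 8 * u + 6)) % 2 = 0
    · obtain ⟨j, hj⟩ : ∃ j, j = (v - (8 * s + 8 * u + 6)) := ⟨_, rfl⟩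
      have a0 := Y21_0e s u (j) hp0 (by omega) (by omega) (by omega)
      have a1 := Y21_0o s u ((j + 1)) hp0 (by omega) (by omega) (by omega)
      exact ⟨j, Or.inr (Or.inr (Or.inr (Or.inr (Or.inl ⟨by omega, by omega⟩))))⟩
    obtain ⟨j, hj⟩ : ∃ j, j = (v - (8 * s + 8 * u + 6)) := ⟨_, rfl⟩
    have a0 := Y21_0o s u (j) hp0 (by omega) (by omega) (by omega)
    have a1 := Y21_0e s u ((j + 1)) hp0 (by omega) (by omega) (by omega)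
    exact ⟨j, Or.inr (Or.inr (Or.inr (Or.inr (Or.inl ⟨by omega, by omega⟩))))⟩
  by_cases c26 : v ≤ 8 * s + 10 * u + 3
  · obtain ⟨j, hj⟩ : ∃ j, j = (4 * u + 2 * s - (3)) := ⟨_, rfl⟩
    have a0 := Y21_4e s u (j) hp0 (by omega) (by omega) (by omega)
    have a1 := Y21_5e s u ((j + 1)) hp0 (by omega) (by omega) (by omega)
    exact ⟨j, Or.inr (Or.inr (Or.inr (Or.inr (Or.inl ⟨by omega, by omega⟩))))⟩
  by_cases c27 : v ≤ 10 * s + 10 * u + 5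
  · by_cases d0 : (v - (8 * s + 10 * u + 4)) % 2 = 0
    · obtain ⟨j, hj⟩ : ∃ j, j = (10 * s + 10 * u + 5 - (v)) := ⟨_, rfl⟩
      have a0 := X21_0o s u (j) hp0 (by omega) (by omega) (by omega)
      have a1 := X21_0e s u ((j + 1)) hp0 (by omega) (by omega) (by omega)
      exact ⟨j, Or.inr (Or.inl ⟨by omega, by omega⟩)⟩
    obtain ⟨j, hj⟩ : ∃ j, j = (10 * s + 10 * u + 5 - (v)) := ⟨_, rfl⟩
    have a0 := X21_0e s u (j) hp0 (by omega) (by omega) (by omega)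
    have a1 := X21_0o s u ((j + 1)) hp0 (by omega) (by omega) (by omega)
    exact ⟨j, Or.inr (Or.inl ⟨by omega, by omega⟩)⟩
  by_cases c28 : v ≤ 10 * s + 10 * u + 6
  · obtain ⟨j, hj⟩ : ∃ j, j = (4 * u - (6)) := ⟨_, rfl⟩
    have a0 := Y21_1e s u (j) hp0 (by omega) (by omega) (by omega)
    have a1 := Y21_2 s u ((j + 1)) hp0 (by omega) (by omega)
    exact ⟨j, Or.inr (Or.inr (Or.inr (Or.inr (Or.inl ⟨by omega, by omega⟩))))⟩
  by_cases c29 : v ≤ 10 * s + 12 * u + 3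
  · by_cases d0 : (v - (10 * s + 10 * u + 7)) % 2 = 0
    · obtain ⟨j, hj⟩ : ∃ j, j = (16 * u + 12 * s + 1 - (v)) := ⟨_, rfl⟩
      have a0 := Y21_5e s u (j) hp0 (by omega) (by omega) (by omega)
      have a1 := Y21_5o s u ((j + 1)) hp0 (by omega) (by omega) (by omega)
      exact ⟨j, Or.inr (Or.inr (Or.inr (Or.inr (Or.inl ⟨by omega, by omega⟩))))⟩
    obtain ⟨j, hj⟩ : ∃ j, j = (16 * u + 12 * s + 1 - (v)) := ⟨_, rfl⟩
    have a0 := Y21_5o s u (j) hp0 (by omega) (by omega) (by omega)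
    have a1 := Y21_5e s u ((j + 1)) hp0 (by omega) (by omega) (by omega)
    exact ⟨j, Or.inr (Or.inr (Or.inr (Or.inr (Or.inl ⟨by omega, by omega⟩))))⟩
  by_cases c30 : v ≤ 10 * s + 12 * u + 4
  · obtain ⟨j, hj⟩ : ∃ j, j = (2 * u - (3)) := ⟨_, rfl⟩
    have a0 := Y21_0o s u (j) hp0 (by omega) (by omega) (by omega)
    have a1 := Y21_1e s u ((j + 1)) hp0 (by omega) (by omega) (by omega)
    exact ⟨j, Or.inr (Or.inr (Or.inr (Or.inr (Or.inl ⟨by omega, by omega⟩))))⟩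
  by_cases d0 : (v - (10 * s + 12 * u + 5)) % 2 = 0
  · obtain ⟨j, hj⟩ : ∃ j, j = (v - (8 * s + 12 * u + 2)) := ⟨_, rfl⟩
    have a0 := X21_1e s u (j) hp0 (by omega) (by omega) (by omega)
    have a1 := X21_1o s u ((j + 1)) hp0 (by omega) (by omega) (by omega)
    exact ⟨j, Or.inr (Or.inl ⟨by omega, by omega⟩)⟩
  obtain ⟨j, hj⟩ : ∃ j, j = (v - (8 * s + 12 * u + 2)) := ⟨_, rfl⟩
  have a0 := X21_1o s u (j) hp0 (by omega) (by omega) (by omega)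
  have a1 := X21_1e s u ((j + 1)) hp0 (by omega) (by omega) (by omega)
  exact ⟨j, Or.inr (Or.inl ⟨by omega, by omega⟩)⟩

def X22 (s u j : ℕ) : ℕ :=
  if j < 2 * s + 2 then (if (j) % 2 = 0 then (2 + 1 * ((j) / 2)) else (5 * s + 5 * u + 5 + 1 * ((j) / 2))) else
  if j < 4 * s + 5 then (if (j - (2 * s + 2)) % 2 = 0 then (3 * s + 2 * u + 4 - (1 * ((j - (2 * s + 2)) / 2))) else (2 * s + u + 3 - (1 * ((j - (2 * s + 2)) / 2)))) else
  (3 * s + 3 * u + 3)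

lemma X22_0e (s u j : ℕ) (hp0 : 3 ≤ u) (h1 : 0 ≤ j) (h2 : j < 2 * s + 2) (h3 : (j) % 2 = 0) :
    2 * X22 s u j = j + 4 := by
  unfold X22; rw [if_pos (by omega), if_pos (by omega)] <;> omega

lemma X22_0o (s u j : ℕ) (hp0 : 3 ≤ u) (h1 : 0 ≤ j) (h2 : j < 2 * s + 2) (h3 : (j) % 2 = 1) :
    2 * X22 s u j = 10 * s + 10 * u + j + 9 := by
  unfold X22; rw [if_pos (by omega), if_neg (by omega)] <;> omega

lemma X22_1e (s u j : ℕ) (hp0 : 3 ≤ u) (h1 : 2 * s + 2 ≤ j) (h2 : j < 4 * s + 5) (h3 : (j - (2 * s + 2)) % 2 = 0) :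
    2 * X22 s u j + j = 8 * s + 4 * u + 10 := by
  unfold X22; rw [if_neg (by omega), if_pos (by omega), if_pos (by omega)] <;> omega

lemma X22_1o (s u j : ℕ) (hp0 : 3 ≤ u) (h1 : 2 * s + 2 ≤ j) (h2 : j < 4 * s + 5) (h3 : (j - (2 * s + 2)) % 2 = 1) :
    2 * X22 s u j + j = 6 * s + 2 * u + 9 := by
  unfold X22; rw [if_neg (by omega), if_pos (by omega), if_neg (by omega)] <;> omega

lemma X22_2 (s u j : ℕ) (hp0 : 3 ≤ u) (h1 : 4 * s + 5 ≤ j) (h2 : j < 4 * s + 6) :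
    X22 s u j = 3 * s + 3 * u + 3 := by
  unfold X22; rw [if_neg (by omega), if_neg (by omega)] <;> omega

def Y22 (s u j : ℕ) : ℕ :=
  if j + 1 < 2 * u then (if (j) % 2 = 0 then (s + u + 2 - (1 * ((j) / 2))) else (6 * s + 6 * u + 4 - (1 * ((j) / 2)))) else
  if j + 5 < 4 * u then (if (j + 1 - (2 * u)) % 2 = 0 then (4 * s + 3 * u + 5 + 1 * ((j + 1 - (2 * u)) / 2)) else (5 * s + 4 * u + 5 + 1 * ((j + 1 - (2 * u)) / 2))) else
  if j + 4 < 4 * u then (5 * s + 5 * u + 3) else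
  if j + 3 < 4 * u then (10 * s + 10 * u + 5) else
  if j + 7 < 6 * u then (if (j + 3 - (4 * u)) % 2 = 0 then (3 * s + 3 * u + 2 - (1 * ((j + 3 - (4 * u)) / 2))) else (2 * s + 2 * u + 1 - (1 * ((j + 3 - (4 * u)) / 2)))) else
  (if (j + 7 - (6 * u)) % 2 = 0 then (5 * s + 4 * u + 4 - (1 * ((j + 7 - (6 * u)) / 2))) else (4 * s + 3 * u + 4 - (1 * ((j + 7 - (6 * u)) / 2))))

lemma Y22_0e (s u j : ℕ) (hp0 : 3 ≤ u) (h1 : 0 ≤ j) (h2 : j + 1 < 2 * u) (h3 : (j) % 2 = 0) :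
    2 * Y22 s u j + j = 2 * s + 2 * u + 4 := by
  unfold Y22; rw [if_pos (by omega), if_pos (by omega)] <;> omega

lemma Y22_0o (s u j : ℕ) (hp0 : 3 ≤ u) (h1 : 0 ≤ j) (h2 : j + 1 < 2 * u) (h3 : (j) % 2 = 1) :
    2 * Y22 s u j + j = 12 * s + 12 * u + 9 := by
  unfold Y22; rw [if_pos (by omega), if_neg (by omega)] <;> omega

lemma Y22_1e (s u j : ℕ) (hp0 : 3 ≤ u) (h1 : 2 * u ≤ j + 1) (h2 : j + 5 < 4 * u) (h3 : (j + 1 - (2 * u)) % 2 = 0) :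
    2 * Y22 s u j = 8 * s + 4 * u + j + 11 := by
  unfold Y22; rw [if_neg (by omega), if_pos (by omega), if_pos (by omega)] <;> omega

lemma Y22_1o (s u j : ℕ) (hp0 : 3 ≤ u) (h1 : 2 * u ≤ j + 1) (h2 : j + 5 < 4 * u) (h3 : (j + 1 - (2 * u)) % 2 = 1) :
    2 * Y22 s u j = 10 * s + 6 * u + j + 10 := by
  unfold Y22; rw [if_neg (by omega), if_pos (by omega), if_neg (by omega)] <;> omega

lemma Y22_2 (s u j : ℕ) (hp0 : 3 ≤ u) (h1 : 4 * u ≤ j + 5) (h2 : j + 4 < 4 * u) :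
    Y22 s u j = 5 * s + 5 * u + 3 := by
  unfold Y22; rw [if_neg (by omega), if_neg (by omega), if_pos (by omega)] <;> omega

lemma Y22_3 (s u j : ℕ) (hp0 : 3 ≤ u) (h1 : 4 * u ≤ j + 4) (h2 : j + 3 < 4 * u) :
    Y22 s u j = 10 * s + 10 * u + 5 := by
  unfold Y22; rw [if_neg (by omega), if_neg (by omega), if_neg (by omega), if_pos (by omega)] <;> omega

lemma Y22_4e (s u j : ℕ) (hp0 : 3 ≤ u) (h1 : 4 * u ≤ j + 3) (h2 : j + 7 < 6 * u) (h3 : (j + 3 - (4 * u)) % 2 = 0) :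
    2 * Y22 s u j + j = 6 * s + 10 * u + 1 := by
  unfold Y22; rw [if_neg (by omega), if_neg (by omega), if_neg (by omega), if_neg (by omega), if_pos (by omega), if_pos (by omega)] <;> omega

lemma Y22_4o (s u j : ℕ) (hp0 : 3 ≤ u) (h1 : 4 * u ≤ j + 3) (h2 : j + 7 < 6 * u) (h3 : (j + 3 - (4 * u)) % 2 = 1) :
    2 * Y22 s u j + j = 4 * s + 8 * u := by
  unfold Y22; rw [if_neg (by omega), if_neg (by omega), if_neg (by omega), if_neg (by omega), if_pos (by omega), if_neg (by omega)] <;> omega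

lemma Y22_5e (s u j : ℕ) (hp0 : 3 ≤ u) (h1 : 6 * u ≤ j + 7) (h2 : j + 4 < 6 * u + 2 * s) (h3 : (j + 7 - (6 * u)) % 2 = 0) :
    2 * Y22 s u j + j = 10 * s + 14 * u + 1 := by
  unfold Y22; rw [if_neg (by omega), if_neg (by omega), if_neg (by omega), if_neg (by omega), if_neg (by omega), if_pos (by omega)] <;> omega

lemma Y22_5o (s u j : ℕ) (hp0 : 3 ≤ u) (h1 : 6 * u ≤ j + 7) (h2 : j + 4 < 6 * u + 2 * s) (h3 : (j + 7 - (6 * u)) % 2 = 1) :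
    2 * Y22 s u j + j = 8 * s + 12 * u + 2 := by
  unfold Y22; rw [if_neg (by omega), if_neg (by omega), if_neg (by omega), if_neg (by omega), if_neg (by omega), if_neg (by omega)] <;> omega

lemma cov22 (s u : ℕ) (hp0 : 3 ≤ u) :
    Cov (4 * s + 6) (6 * u + 2 * s - (4)) (X22 s u) (Y22 s u) (15 * s + 15 * u + 9) := by
  intro v h1 h2
  by_cases c0 : v ≤ 1
  · obtain ⟨j, hj⟩ : ∃ j, j = (4 * u - (5)) := ⟨_, rfl⟩
    have a0 := Y22_2 s u (j) hp0 (by omega) (by omega)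
    have a1 := Y22_3 s u ((j + 1)) hp0 (by omega) (by omega)
    exact ⟨j, Or.inr (Or.inr (Or.inr (Or.inr (Or.inl ⟨by omega, by omega⟩))))⟩
  by_cases c1 : v ≤ s + 2
  · obtain ⟨j, hj⟩ : ∃ j, j = (2 * v - (4)) := ⟨_, rfl⟩
    have a0 := X22_0e s u (j) hp0 (by omega) (by omega) (by omega)
    exact ⟨j, Or.inl ⟨by omega, by omega⟩⟩
  by_cases c2 : v ≤ s + u + 2
  · obtain ⟨j, hj⟩ : ∃ j, j = (2 * s + 2 * u + 4 - (2 * v)) := ⟨_, rfl⟩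
    have a0 := Y22_0e s u (j) hp0 (by omega) (by omega) (by omega)
    exact ⟨j, Or.inr (Or.inr (Or.inr (Or.inl ⟨by omega, by omega⟩)))⟩
  by_cases c3 : v ≤ 2 * s + u + 3
  · obtain ⟨j, hj⟩ : ∃ j, j = (6 * s + 2 * u + 9 - (2 * v)) := ⟨_, rfl⟩
    have a0 := X22_1o s u (j) hp0 (by omega) (by omega) (by omega)
    exact ⟨j, Or.inl ⟨by omega, by omega⟩⟩
  by_cases c4 : v ≤ 2 * s + 2 * u + 1
  · obtain ⟨j, hj⟩ : ∃ j, j = (8 * u + 4 * s - (2 * v)) := ⟨_, rfl⟩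
    have a0 := Y22_4o s u (j) hp0 (by omega) (by omega) (by omega)
    exact ⟨j, Or.inr (Or.inr (Or.inr (Or.inl ⟨by omega, by omega⟩)))⟩
  by_cases c5 : v ≤ 2 * s + 2 * u + 2
  · obtain ⟨j, hj⟩ : ∃ j, j = (4 * u - (4)) := ⟨_, rfl⟩
    have a0 := Y22_3 s u (j) hp0 (by omega) (by omega)
    have a1 := Y22_4e s u ((j + 1)) hp0 (by omega) (by omega) (by omega)
    exact ⟨j, Or.inr (Or.inr (Or.inr (Or.inr (Or.inl ⟨by omega, by omega⟩))))⟩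
  by_cases c6 : v ≤ 3 * s + 2 * u + 4
  · obtain ⟨j, hj⟩ : ∃ j, j = (8 * s + 4 * u + 10 - (2 * v)) := ⟨_, rfl⟩
    have a0 := X22_1e s u (j) hp0 (by omega) (by omega) (by omega)
    exact ⟨j, Or.inl ⟨by omega, by omega⟩⟩
  by_cases c7 : v ≤ 3 * s + 3 * u + 2
  · obtain ⟨j, hj⟩ : ∃ j, j = (10 * u + 6 * s + 1 - (2 * v)) := ⟨_, rfl⟩
    have a0 := Y22_4e s u (j) hp0 (by omega) (by omega) (by omega)
    exact ⟨j, Or.inr (Or.inr (Or.inr (Or.inl ⟨by omega, by omega⟩)))⟩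
  by_cases c8 : v ≤ 3 * s + 3 * u + 3
  · obtain ⟨j, hj⟩ : ∃ j, j = (4 * s + 5) := ⟨_, rfl⟩
    have a0 := X22_2 s u (j) hp0 (by omega) (by omega)
    exact ⟨j, Or.inl ⟨by omega, by omega⟩⟩
  by_cases c9 : v ≤ 4 * s + 3 * u + 4
  · obtain ⟨j, hj⟩ : ∃ j, j = (12 * u + 8 * s + 2 - (2 * v)) := ⟨_, rfl⟩
    have a0 := Y22_5o s u (j) hp0 (by omega) (by omega) (by omega)
    exact ⟨j, Or.inr (Or.inr (Or.inr (Or.inl ⟨by omega, by omega⟩)))⟩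
  by_cases c10 : v ≤ 4 * s + 4 * u + 2
  · obtain ⟨j, hj⟩ : ∃ j, j = (2 * v - (4 * u + 8 * s + 11)) := ⟨_, rfl⟩
    have a0 := Y22_1e s u (j) hp0 (by omega) (by omega) (by omega)
    exact ⟨j, Or.inr (Or.inr (Or.inr (Or.inl ⟨by omega, by omega⟩)))⟩
  by_cases c11 : v ≤ 5 * s + 4 * u + 4
  · obtain ⟨j, hj⟩ : ∃ j, j = (14 * u + 10 * s + 1 - (2 * v)) := ⟨_, rfl⟩
    have a0 := Y22_5e s u (j) hp0 (by omega) (by omega) (by omega)
    exact ⟨j, Or.inr (Or.inr (Or.inr (Or.inl ⟨by omega, by omega⟩)))⟩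
  by_cases c12 : v ≤ 5 * s + 5 * u + 2
  · obtain ⟨j, hj⟩ : ∃ j, j = (2 * v - (6 * u + 10 * s + 10)) := ⟨_, rfl⟩
    have a0 := Y22_1o s u (j) hp0 (by omega) (by omega) (by omega)
    exact ⟨j, Or.inr (Or.inr (Or.inr (Or.inl ⟨by omega, by omega⟩)))⟩
  by_cases c13 : v ≤ 5 * s + 5 * u + 3
  · obtain ⟨j, hj⟩ : ∃ j, j = (4 * u - (5)) := ⟨_, rfl⟩
    have a0 := Y22_2 s u (j) hp0 (by omega) (by omega)
    exact ⟨j, Or.inr (Or.inr (Or.inr (Or.inl ⟨by omega, by omega⟩)))⟩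
  by_cases c14 : v ≤ 5 * s + 5 * u + 4
  · obtain ⟨j, hj⟩ : ∃ j, j = (4 * u - (6)) := ⟨_, rfl⟩
    have a0 := Y22_1o s u (j) hp0 (by omega) (by omega) (by omega)
    have a1 := Y22_2 s u ((j + 1)) hp0 (by omega) (by omega)
    exact ⟨j, Or.inr (Or.inr (Or.inr (Or.inr (Or.inl ⟨by omega, by omega⟩))))⟩
  by_cases c15 : v ≤ 6 * s + 5 * u + 5
  · obtain ⟨j, hj⟩ : ∃ j, j = (2 * v - (10 * s + 10 * u + 9)) := ⟨_, rfl⟩
    have a0 := X22_0o s u (j) hp0 (by omega) (by omega) (by omega)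
    exact ⟨j, Or.inl ⟨by omega, by omega⟩⟩
  by_cases c16 : v ≤ 6 * s + 6 * u + 4
  · obtain ⟨j, hj⟩ : ∃ j, j = (12 * s + 12 * u + 9 - (2 * v)) := ⟨_, rfl⟩
    have a0 := Y22_0o s u (j) hp0 (by omega) (by omega) (by omega)
    exact ⟨j, Or.inr (Or.inr (Or.inr (Or.inl ⟨by omega, by omega⟩)))⟩
  by_cases c17 : v + 1 ≤ 6 * s + 8 * u
  · by_cases d0 : (v - (6 * s + 6 * u + 5)) % 2 = 0
    · obtain ⟨j, hj⟩ : ∃ j, j = (10 * u + 6 * s - (v + 2)) := ⟨_, rfl⟩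
      have a0 := Y22_1e s u (j) hp0 (by omega) (by omega) (by omega)
      have a1 := Y22_1o s u ((j + 1)) hp0 (by omega) (by omega) (by omega)
      exact ⟨j, Or.inr (Or.inr (Or.inr (Or.inr (Or.inl ⟨by omega, by omega⟩))))⟩
    obtain ⟨j, hj⟩ : ∃ j, j = (10 * u + 6 * s - (v + 2)) := ⟨_, rfl⟩
    have a0 := Y22_1o s u (j) hp0 (by omega) (by omega) (by omega)
    have a1 := Y22_1e s u ((j + 1)) hp0 (by omega) (by omega) (by omega)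
    exact ⟨j, Or.inr (Or.inr (Or.inr (Or.inr (Or.inl ⟨by omega, by omega⟩))))⟩
  by_cases c18 : v ≤ 6 * s + 8 * u
  · obtain ⟨j, hj⟩ : ∃ j, j = (2 * s + 1) := ⟨_, rfl⟩
    have a0 := X22_0o s u (j) hp0 (by omega) (by omega) (by omega)
    have a1 := X22_1e s u ((j + 1)) hp0 (by omega) (by omega) (by omega)
    exact ⟨j, Or.inr (Or.inl ⟨by omega, by omega⟩)⟩
  by_cases c19 : v ≤ 8 * s + 8 * u + 2
  · by_cases d0 : (v - (6 * s + 8 * u + 1)) % 2 = 0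
    · obtain ⟨j, hj⟩ : ∃ j, j = (v - (2 * u + 6 * s + 8)) := ⟨_, rfl⟩
      have a0 := Y22_5e s u (j) hp0 (by omega) (by omega) (by omega)
      have a1 := Y22_5o s u ((j + 1)) hp0 (by omega) (by omega) (by omega)
      exact ⟨j, Or.inr (Or.inr (Or.inr (Or.inr (Or.inl ⟨by omega, by omega⟩))))⟩
    obtain ⟨j, hj⟩ : ∃ j, j = (v - (2 * u + 6 * s + 8)) := ⟨_, rfl⟩
    have a0 := Y22_5o s u (j) hp0 (by omega) (by omega) (by omega)
    have a1 := Y22_5e s u ((j + 1)) hp0 (by omega) (by omega) (by omega)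
    exact ⟨j, Or.inr (Or.inr (Or.inr (Or.inr (Or.inl ⟨by omega, by omega⟩))))⟩
  by_cases c20 : v ≤ 8 * s + 10 * u
  · by_cases d0 : (v - (8 * s + 8 * u + 3)) % 2 = 0
    · obtain ⟨j, hj⟩ : ∃ j, j = (v - (8 * s + 8 * u + 3)) := ⟨_, rfl⟩
      have a0 := Y22_0e s u (j) hp0 (by omega) (by omega) (by omega)
      have a1 := Y22_0o s u ((j + 1)) hp0 (by omega) (by omega) (by omega)
      exact ⟨j, Or.inr (Or.inr (Or.inr (Or.inr (Or.inl ⟨by omega, by omega⟩))))⟩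
    obtain ⟨j, hj⟩ : ∃ j, j = (v - (8 * s + 8 * u + 3)) := ⟨_, rfl⟩
    have a0 := Y22_0o s u (j) hp0 (by omega) (by omega) (by omega)
    have a1 := Y22_0e s u ((j + 1)) hp0 (by omega) (by omega) (by omega)
    exact ⟨j, Or.inr (Or.inr (Or.inr (Or.inr (Or.inl ⟨by omega, by omega⟩))))⟩
  by_cases c21 : v ≤ 8 * s + 10 * u + 1
  · obtain ⟨j, hj⟩ : ∃ j, j = (6 * u - (8)) := ⟨_, rfl⟩
    have a0 := Y22_4o s u (j) hp0 (by omega) (by omega) (by omega)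
    have a1 := Y22_5e s u ((j + 1)) hp0 (by omega) (by omega) (by omega)
    exact ⟨j, Or.inr (Or.inr (Or.inr (Or.inr (Or.inl ⟨by omega, by omega⟩))))⟩
  by_cases c22 : v ≤ 10 * s + 10 * u + 2
  · by_cases d0 : (v - (8 * s + 10 * u + 2)) % 2 = 0
    · obtain ⟨j, hj⟩ : ∃ j, j = (10 * s + 10 * u + 2 - (v)) := ⟨_, rfl⟩
      have a0 := X22_0e s u (j) hp0 (by omega) (by omega) (by omega)
      have a1 := X22_0o s u ((j + 1)) hp0 (by omega) (by omega) (by omega)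
      exact ⟨j, Or.inr (Or.inl ⟨by omega, by omega⟩)⟩
    obtain ⟨j, hj⟩ : ∃ j, j = (10 * s + 10 * u + 2 - (v)) := ⟨_, rfl⟩
    have a0 := X22_0o s u (j) hp0 (by omega) (by omega) (by omega)
    have a1 := X22_0e s u ((j + 1)) hp0 (by omega) (by omega) (by omega)
    exact ⟨j, Or.inr (Or.inl ⟨by omega, by omega⟩)⟩
  by_cases c23 : v ≤ 10 * s + 10 * u + 3
  · obtain ⟨j, hj⟩ : ∃ j, j = (4 * s + 4) := ⟨_, rfl⟩
    have a0 := X22_1e s u (j) hp0 (by omega) (by omega) (by omega)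
    have a1 := X22_2 s u ((j + 1)) hp0 (by omega) (by omega)
    exact ⟨j, Or.inr (Or.inl ⟨by omega, by omega⟩)⟩
  by_cases c24 : v ≤ 10 * s + 10 * u + 4
  · obtain ⟨j, hj⟩ : ∃ j, j = (6 * u + 2 * s - (5)) := ⟨_, rfl⟩
    have a0 := Y22_5e s u (j) hp0 (by omega) (by omega) (by omega)
    have a1 := Y22_0e s u ((0)) hp0 (by omega) (by omega) (by omega)
    exact ⟨j, Or.inr (Or.inr (Or.inr (Or.inr (Or.inr (⟨by omega, by omega⟩)))))⟩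
  by_cases c25 : v ≤ 10 * s + 10 * u + 5
  · obtain ⟨j, hj⟩ : ∃ j, j = (4 * u - (4)) := ⟨_, rfl⟩
    have a0 := Y22_3 s u (j) hp0 (by omega) (by omega)
    exact ⟨j, Or.inr (Or.inr (Or.inr (Or.inl ⟨by omega, by omega⟩)))⟩
  by_cases c26 : v ≤ 10 * s + 12 * u
  · by_cases d0 : (v - (10 * s + 10 * u + 6)) % 2 = 0
    · obtain ⟨j, hj⟩ : ∃ j, j = (v - (6 * u + 10 * s + 9)) := ⟨_, rfl⟩
      have a0 := Y22_4e s u (j) hp0 (by omega) (by omega) (by omega)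
      have a1 := Y22_4o s u ((j + 1)) hp0 (by omega) (by omega) (by omega)
      exact ⟨j, Or.inr (Or.inr (Or.inr (Or.inr (Or.inl ⟨by omega, by omega⟩))))⟩
    obtain ⟨j, hj⟩ : ∃ j, j = (v - (6 * u + 10 * s + 9)) := ⟨_, rfl⟩
    have a0 := Y22_4o s u (j) hp0 (by omega) (by omega) (by omega)
    have a1 := Y22_4e s u ((j + 1)) hp0 (by omega) (by omega) (by omega)
    exact ⟨j, Or.inr (Or.inr (Or.inr (Or.inr (Or.inl ⟨by omega, by omega⟩))))⟩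
  by_cases c27 : v ≤ 10 * s + 12 * u + 1
  · obtain ⟨j, hj⟩ : ∃ j, j = (2 * u - (2)) := ⟨_, rfl⟩
    have a0 := Y22_0e s u (j) hp0 (by omega) (by omega) (by omega)
    have a1 := Y22_1e s u ((j + 1)) hp0 (by omega) (by omega) (by omega)
    exact ⟨j, Or.inr (Or.inr (Or.inr (Or.inr (Or.inl ⟨by omega, by omega⟩))))⟩
  by_cases c28 : v ≤ 12 * s + 12 * u + 3
  · by_cases d0 : (v - (10 * s + 12 * u + 2)) % 2 = 0
    · obtain ⟨j, hj⟩ : ∃ j, j = (v - (8 * s + 12 * u)) := ⟨_, rfl⟩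
      have a0 := X22_1e s u (j) hp0 (by omega) (by omega) (by omega)
      have a1 := X22_1o s u ((j + 1)) hp0 (by omega) (by omega) (by omega)
      exact ⟨j, Or.inr (Or.inl ⟨by omega, by omega⟩)⟩
    obtain ⟨j, hj⟩ : ∃ j, j = (v - (8 * s + 12 * u)) := ⟨_, rfl⟩
    have a0 := X22_1o s u (j) hp0 (by omega) (by omega) (by omega)
    have a1 := X22_1e s u ((j + 1)) hp0 (by omega) (by omega) (by omega)
    exact ⟨j, Or.inr (Or.inl ⟨by omega, by omega⟩)⟩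
  obtain ⟨j, hj⟩ : ∃ j, j = (4 * s + 5) := ⟨_, rfl⟩
  have a0 := X22_2 s u (j) hp0 (by omega) (by omega)
  have a1 := X22_0e s u ((0)) hp0 (by omega) (by omega) (by omega)
  exact ⟨j, Or.inr (Or.inr (Or.inl ⟨by omega, by omega⟩))⟩

def X23 (s u j : ℕ) : ℕ :=
  if j < 2 * s + 1 then (if (j) % 2 = 0 then (2 + 1 * ((j) / 2)) else (3 * s + 3 * u + 4 + 1 * ((j) / 2))) else
  if j < 4 * s + 2 then (if (j - (2 * s + 1)) % 2 = 0 then (6 * s + 5 * u + 4 - (1 * ((j - (2 * s + 1)) / 2))) else (3 * s + 2 * u + 2 - (1 * ((j - (2 * s + 1)) / 2)))) else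
  (10 * s + 10 * u + 5)

lemma X23_0e (s u j : ℕ) (hp0 : 2 ≤ u) (h1 : 0 ≤ j) (h2 : j < 2 * s + 1) (h3 : (j) % 2 = 0) :
    2 * X23 s u j = j + 4 := by
  unfold X23; rw [if_pos (by omega), if_pos (by omega)] <;> omega

lemma X23_0o (s u j : ℕ) (hp0 : 2 ≤ u) (h1 : 0 ≤ j) (h2 : j < 2 * s + 1) (h3 : (j) % 2 = 1) :
    2 * X23 s u j = 6 * s + 6 * u + j + 7 := by
  unfold X23; rw [if_pos (by omega), if_neg (by omega)] <;> omega

lemma X23_1e (s u j : ℕ) (hp0 : 2 ≤ u) (h1 : 2 * s + 1 ≤ j) (h2 : j < 4 * s + 2) (h3 : (j - (2 * s + 1)) % 2 = 0) :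
    2 * X23 s u j + j = 14 * s + 10 * u + 9 := by
  unfold X23; rw [if_neg (by omega), if_pos (by omega), if_pos (by omega)] <;> omega

lemma X23_1o (s u j : ℕ) (hp0 : 2 ≤ u) (h1 : 2 * s + 1 ≤ j) (h2 : j < 4 * s + 2) (h3 : (j - (2 * s + 1)) % 2 = 1) :
    2 * X23 s u j + j = 8 * s + 4 * u + 6 := by
  unfold X23; rw [if_neg (by omega), if_pos (by omega), if_neg (by omega)] <;> omega

lemma X23_2 (s u j : ℕ) (hp0 : 2 ≤ u) (h1 : 4 * s + 2 ≤ j) (h2 : j < 4 * s + 3) :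
    X23 s u j = 10 * s + 10 * u + 5 := by
  unfold X23; rw [if_neg (by omega), if_neg (by omega)] <;> omega

def Y23 (s u j : ℕ) : ℕ :=
  if j + 2 < 2 * u then (if (j) % 2 = 0 then (s + u + 1 - (1 * ((j) / 2))) else (4 * s + 4 * u + 2 - (1 * ((j) / 2)))) else
  if j + 1 < 2 * u + 2 * s then (if (j + 2 - (2 * u)) % 2 = 0 then (5 * s + 4 * u + 3 - (1 * ((j + 2 - (2 * u)) / 2))) else (2 * s + u + 2 - (1 * ((j + 2 - (2 * u)) / 2)))) else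
  if j < 2 * u + 2 * s then (3 * s + 3 * u + 2) else
  if j + 1 < 4 * u + 2 * s then (if (j - (2 * u + 2 * s)) % 2 = 0 then (2 * s + 2 * u + 2 - (1 * ((j - (2 * u + 2 * s)) / 2))) else (5 * s + 5 * u + 2 - (1 * ((j - (2 * u + 2 * s)) / 2)))) else
  if j + 3 < 6 * u + 2 * s then (if (j + 1 - (4 * u + 2 * s)) % 2 = 0 then (3 * s + 2 * u + 3 + 1 * ((j + 1 - (4 * u + 2 * s)) / 2)) else (6 * s + 5 * u + 5 + 1 * ((j + 1 - (4 * u + 2 * s)) / 2))) else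
  if j + 2 < 6 * u + 2 * s then (6 * s + 6 * u + 4) else
  (8 * s + 8 * u + 4)

lemma Y23_0e (s u j : ℕ) (hp0 : 2 ≤ u) (h1 : 0 ≤ j) (h2 : j + 2 < 2 * u) (h3 : (j) % 2 = 0) :
    2 * Y23 s u j + j = 2 * s + 2 * u + 2 := by
  unfold Y23; rw [if_pos (by omega), if_pos (by omega)] <;> omega

lemma Y23_0o (s u j : ℕ) (hp0 : 2 ≤ u) (h1 : 0 ≤ j) (h2 : j + 2 < 2 * u) (h3 : (j) % 2 = 1) :
    2 * Y23 s u j + j = 8 * s + 8 * u + 5 := by
  unfold Y23; rw [if_pos (by omega), if_neg (by omega)] <;> omega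

lemma Y23_1e (s u j : ℕ) (hp0 : 2 ≤ u) (h1 : 2 * u ≤ j + 2) (h2 : j + 1 < 2 * u + 2 * s) (h3 : (j + 2 - (2 * u)) % 2 = 0) :
    2 * Y23 s u j + j = 10 * s + 10 * u + 4 := by
  unfold Y23; rw [if_neg (by omega), if_pos (by omega), if_pos (by omega)] <;> omega

lemma Y23_1o (s u j : ℕ) (hp0 : 2 ≤ u) (h1 : 2 * u ≤ j + 2) (h2 : j + 1 < 2 * u + 2 * s) (h3 : (j + 2 - (2 * u)) % 2 = 1) :
    2 * Y23 s u j + j = 4 * s + 4 * u + 3 := by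
  unfold Y23; rw [if_neg (by omega), if_pos (by omega), if_neg (by omega)] <;> omega

lemma Y23_2 (s u j : ℕ) (hp0 : 2 ≤ u) (h1 : 2 * u + 2 * s ≤ j + 1) (h2 : j < 2 * u + 2 * s) :
    Y23 s u j = 3 * s + 3 * u + 2 := by
  unfold Y23; rw [if_neg (by omega), if_neg (by omega), if_pos (by omega)] <;> omega

lemma Y23_3e (s u j : ℕ) (hp0 : 2 ≤ u) (h1 : 2 * u + 2 * s ≤ j) (h2 : j + 1 < 4 * u + 2 * s) (h3 : (j - (2 * u + 2 * s)) % 2 = 0) :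
    2 * Y23 s u j + j = 6 * s + 6 * u + 4 := by
  unfold Y23; rw [if_neg (by omega), if_neg (by omega), if_neg (by omega), if_pos (by omega), if_pos (by omega)] <;> omega

lemma Y23_3o (s u j : ℕ) (hp0 : 2 ≤ u) (h1 : 2 * u + 2 * s ≤ j) (h2 : j + 1 < 4 * u + 2 * s) (h3 : (j - (2 * u + 2 * s)) % 2 = 1) :
    2 * Y23 s u j + j = 12 * s + 12 * u + 5 := by
  unfold Y23; rw [if_neg (by omega), if_neg (by omega), if_neg (by omega), if_pos (by omega), if_neg (by omega)] <;> omega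

lemma Y23_4e (s u j : ℕ) (hp0 : 2 ≤ u) (h1 : 4 * u + 2 * s ≤ j + 1) (h2 : j + 3 < 6 * u + 2 * s) (h3 : (j + 1 - (4 * u + 2 * s)) % 2 = 0) :
    2 * Y23 s u j = 4 * s + j + 7 := by
  unfold Y23; rw [if_neg (by omega), if_neg (by omega), if_neg (by omega), if_neg (by omega), if_pos (by omega), if_pos (by omega)] <;> omega

lemma Y23_4o (s u j : ℕ) (hp0 : 2 ≤ u) (h1 : 4 * u + 2 * s ≤ j + 1) (h2 : j + 3 < 6 * u + 2 * s) (h3 : (j + 1 - (4 * u + 2 * s)) % 2 = 1) :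
    2 * Y23 s u j = 10 * s + 6 * u + j + 10 := by
  unfold Y23; rw [if_neg (by omega), if_neg (by omega), if_neg (by omega), if_neg (by omega), if_pos (by omega), if_neg (by omega)] <;> omega

lemma Y23_5 (s u j : ℕ) (hp0 : 2 ≤ u) (h1 : 6 * u + 2 * s ≤ j + 3) (h2 : j + 2 < 6 * u + 2 * s) :
    Y23 s u j = 6 * s + 6 * u + 4 := by
  unfold Y23; rw [if_neg (by omega), if_neg (by omega), if_neg (by omega), if_neg (by omega), if_neg (by omega), if_pos (by omega)] <;> omega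

lemma Y23_6 (s u j : ℕ) (hp0 : 2 ≤ u) (h1 : 6 * u + 2 * s ≤ j + 2) (h2 : j + 1 < 6 * u + 2 * s) :
    Y23 s u j = 8 * s + 8 * u + 4 := by
  unfold Y23; rw [if_neg (by omega), if_neg (by omega), if_neg (by omega), if_neg (by omega), if_neg (by omega), if_neg (by omega)] <;> omega

lemma cov23 (s u : ℕ) (hp0 : 2 ≤ u) :
    Cov (4 * s + 3) (6 * u + 2 * s - (1)) (X23 s u) (Y23 s u) (15 * s + 15 * u + 10) := by
  intro v h1 h2
  by_cases c0 : v ≤ 1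
  · obtain ⟨j, hj⟩ : ∃ j, j = (4 * s + 1) := ⟨_, rfl⟩
    have a0 := X23_1e s u (j) hp0 (by omega) (by omega) (by omega)
    have a1 := X23_2 s u ((j + 1)) hp0 (by omega) (by omega)
    exact ⟨j, Or.inr (Or.inl ⟨by omega, by omega⟩)⟩
  by_cases c1 : v ≤ s + 2
  · obtain ⟨j, hj⟩ : ∃ j, j = (2 * v - (4)) := ⟨_, rfl⟩
    have a0 := X23_0e s u (j) hp0 (by omega) (by omega) (by omega)
    exact ⟨j, Or.inl ⟨by omega, by omega⟩⟩
  by_cases c2 : v ≤ s + u + 1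
  · obtain ⟨j, hj⟩ : ∃ j, j = (2 * s + 2 * u + 2 - (2 * v)) := ⟨_, rfl⟩
    have a0 := Y23_0e s u (j) hp0 (by omega) (by omega) (by omega)
    exact ⟨j, Or.inr (Or.inr (Or.inr (Or.inl ⟨by omega, by omega⟩)))⟩
  by_cases c3 : v ≤ s + u + 2
  · obtain ⟨j, hj⟩ : ∃ j, j = (6 * u + 2 * s - (3)) := ⟨_, rfl⟩
    have a0 := Y23_5 s u (j) hp0 (by omega) (by omega)
    have a1 := Y23_6 s u ((j + 1)) hp0 (by omega) (by omega)
    exact ⟨j, Or.inr (Or.inr (Or.inr (Or.inr (Or.inl ⟨by omega, by omega⟩))))⟩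
  by_cases c4 : v ≤ 2 * s + u + 2
  · obtain ⟨j, hj⟩ : ∃ j, j = (4 * u + 4 * s + 3 - (2 * v)) := ⟨_, rfl⟩
    have a0 := Y23_1o s u (j) hp0 (by omega) (by omega) (by omega)
    exact ⟨j, Or.inr (Or.inr (Or.inr (Or.inl ⟨by omega, by omega⟩)))⟩
  by_cases c5 : v ≤ 2 * s + 2 * u + 2
  · obtain ⟨j, hj⟩ : ∃ j, j = (6 * u + 6 * s + 4 - (2 * v)) := ⟨_, rfl⟩
    have a0 := Y23_3e s u (j) hp0 (by omega) (by omega) (by omega)
    exact ⟨j, Or.inr (Or.inr (Or.inr (Or.inl ⟨by omega, by omega⟩)))⟩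
  by_cases c6 : v ≤ 3 * s + 2 * u + 2
  · obtain ⟨j, hj⟩ : ∃ j, j = (8 * s + 4 * u + 6 - (2 * v)) := ⟨_, rfl⟩
    have a0 := X23_1o s u (j) hp0 (by omega) (by omega) (by omega)
    exact ⟨j, Or.inl ⟨by omega, by omega⟩⟩
  by_cases c7 : v ≤ 3 * s + 3 * u + 1
  · obtain ⟨j, hj⟩ : ∃ j, j = (2 * v - (4 * s + 7)) := ⟨_, rfl⟩
    have a0 := Y23_4e s u (j) hp0 (by omega) (by omega) (by omega)
    exact ⟨j, Or.inr (Or.inr (Or.inr (Or.inl ⟨by omega, by omega⟩)))⟩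
  by_cases c8 : v ≤ 3 * s + 3 * u + 2
  · obtain ⟨j, hj⟩ : ∃ j, j = (2 * u + 2 * s - (1)) := ⟨_, rfl⟩
    have a0 := Y23_2 s u (j) hp0 (by omega) (by omega)
    exact ⟨j, Or.inr (Or.inr (Or.inr (Or.inl ⟨by omega, by omega⟩)))⟩
  by_cases c9 : v ≤ 3 * s + 3 * u + 3
  · obtain ⟨j, hj⟩ : ∃ j, j = (6 * u + 2 * s - (4)) := ⟨_, rfl⟩
    have a0 := Y23_4o s u (j) hp0 (by omega) (by omega) (by omega)
    have a1 := Y23_5 s u ((j + 1)) hp0 (by omega) (by omega)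
    exact ⟨j, Or.inr (Or.inr (Or.inr (Or.inr (Or.inl ⟨by omega, by omega⟩))))⟩
  by_cases c10 : v ≤ 4 * s + 3 * u + 3
  · obtain ⟨j, hj⟩ : ∃ j, j = (2 * v - (6 * s + 6 * u + 7)) := ⟨_, rfl⟩
    have a0 := X23_0o s u (j) hp0 (by omega) (by omega) (by omega)
    exact ⟨j, Or.inl ⟨by omega, by omega⟩⟩
  by_cases c11 : v ≤ 4 * s + 4 * u + 2
  · obtain ⟨j, hj⟩ : ∃ j, j = (8 * s + 8 * u + 5 - (2 * v)) := ⟨_, rfl⟩
    have a0 := Y23_0o s u (j) hp0 (by omega) (by omega) (by omega)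
    exact ⟨j, Or.inr (Or.inr (Or.inr (Or.inl ⟨by omega, by omega⟩)))⟩
  by_cases c12 : v ≤ 5 * s + 4 * u + 3
  · obtain ⟨j, hj⟩ : ∃ j, j = (10 * u + 10 * s + 4 - (2 * v)) := ⟨_, rfl⟩
    have a0 := Y23_1e s u (j) hp0 (by omega) (by omega) (by omega)
    exact ⟨j, Or.inr (Or.inr (Or.inr (Or.inl ⟨by omega, by omega⟩)))⟩
  by_cases c13 : v ≤ 5 * s + 5 * u + 2
  · obtain ⟨j, hj⟩ : ∃ j, j = (12 * u + 12 * s + 5 - (2 * v)) := ⟨_, rfl⟩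
    have a0 := Y23_3o s u (j) hp0 (by omega) (by omega) (by omega)
    exact ⟨j, Or.inr (Or.inr (Or.inr (Or.inl ⟨by omega, by omega⟩)))⟩
  by_cases c14 : v ≤ 5 * s + 5 * u + 3
  · obtain ⟨j, hj⟩ : ∃ j, j = (4 * s + 2) := ⟨_, rfl⟩
    have a0 := X23_2 s u (j) hp0 (by omega) (by omega)
    have a1 := X23_0e s u ((0)) hp0 (by omega) (by omega) (by omega)
    exact ⟨j, Or.inr (Or.inr (Or.inl ⟨by omega, by omega⟩))⟩
  by_cases c15 : v ≤ 6 * s + 5 * u + 4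
  · obtain ⟨j, hj⟩ : ∃ j, j = (14 * s + 10 * u + 9 - (2 * v)) := ⟨_, rfl⟩
    have a0 := X23_1e s u (j) hp0 (by omega) (by omega) (by omega)
    exact ⟨j, Or.inl ⟨by omega, by omega⟩⟩
  by_cases c16 : v ≤ 6 * s + 6 * u + 3
  · obtain ⟨j, hj⟩ : ∃ j, j = (2 * v - (6 * u + 10 * s + 10)) := ⟨_, rfl⟩
    have a0 := Y23_4o s u (j) hp0 (by omega) (by omega) (by omega)
    exact ⟨j, Or.inr (Or.inr (Or.inr (Or.inl ⟨by omega, by omega⟩)))⟩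
  by_cases c17 : v ≤ 6 * s + 6 * u + 4
  · obtain ⟨j, hj⟩ : ∃ j, j = (6 * u + 2 * s - (3)) := ⟨_, rfl⟩
    have a0 := Y23_5 s u (j) hp0 (by omega) (by omega)
    exact ⟨j, Or.inr (Or.inr (Or.inr (Or.inl ⟨by omega, by omega⟩)))⟩
  by_cases c18 : v ≤ 6 * s + 6 * u + 5
  · obtain ⟨j, hj⟩ : ∃ j, j = (6 * u + 2 * s - (2)) := ⟨_, rfl⟩
    have a0 := Y23_6 s u (j) hp0 (by omega) (by omega)
    have a1 := Y23_0e s u ((0)) hp0 (by omega) (by omega) (by omega)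
    exact ⟨j, Or.inr (Or.inr (Or.inr (Or.inr (Or.inr (⟨by omega, by omega⟩)))))⟩
  by_cases c19 : v ≤ 6 * s + 8 * u + 2
  · by_cases d0 : (v - (6 * s + 6 * u + 6)) % 2 = 0
    · obtain ⟨j, hj⟩ : ∃ j, j = (12 * u + 8 * s + 1 - (v)) := ⟨_, rfl⟩
      have a0 := Y23_4e s u (j) hp0 (by omega) (by omega) (by omega)
      have a1 := Y23_4o s u ((j + 1)) hp0 (by omega) (by omega) (by omega)
      exact ⟨j, Or.inr (Or.inr (Or.inr (Or.inr (Or.inl ⟨by omega, by omega⟩))))⟩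
    obtain ⟨j, hj⟩ : ∃ j, j = (12 * u + 8 * s + 1 - (v)) := ⟨_, rfl⟩
    have a0 := Y23_4o s u (j) hp0 (by omega) (by omega) (by omega)
    have a1 := Y23_4e s u ((j + 1)) hp0 (by omega) (by omega) (by omega)
    exact ⟨j, Or.inr (Or.inr (Or.inr (Or.inr (Or.inl ⟨by omega, by omega⟩))))⟩
  by_cases c20 : v ≤ 6 * s + 8 * u + 3
  · obtain ⟨j, hj⟩ : ∃ j, j = (2 * u - (3)) := ⟨_, rfl⟩
    have a0 := Y23_0o s u (j) hp0 (by omega) (by omega) (by omega)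
    have a1 := Y23_1e s u ((j + 1)) hp0 (by omega) (by omega) (by omega)
    exact ⟨j, Or.inr (Or.inr (Or.inr (Or.inr (Or.inl ⟨by omega, by omega⟩))))⟩
  by_cases c21 : v ≤ 8 * s + 8 * u + 3
  · by_cases d0 : (v - (6 * s + 8 * u + 4)) % 2 = 0
    · obtain ⟨j, hj⟩ : ∃ j, j = (v - (4 * s + 8 * u + 3)) := ⟨_, rfl⟩
      have a0 := X23_1e s u (j) hp0 (by omega) (by omega) (by omega)
      have a1 := X23_1o s u ((j + 1)) hp0 (by omega) (by omega) (by omega)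
      exact ⟨j, Or.inr (Or.inl ⟨by omega, by omega⟩)⟩
    obtain ⟨j, hj⟩ : ∃ j, j = (v - (4 * s + 8 * u + 3)) := ⟨_, rfl⟩
    have a0 := X23_1o s u (j) hp0 (by omega) (by omega) (by omega)
    have a1 := X23_1e s u ((j + 1)) hp0 (by omega) (by omega) (by omega)
    exact ⟨j, Or.inr (Or.inl ⟨by omega, by omega⟩)⟩
  by_cases c22 : v ≤ 8 * s + 8 * u + 4
  · obtain ⟨j, hj⟩ : ∃ j, j = (6 * u + 2 * s - (2)) := ⟨_, rfl⟩
    have a0 := Y23_6 s u (j) hp0 (by omega) (by omega)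
    exact ⟨j, Or.inr (Or.inr (Or.inr (Or.inl ⟨by omega, by omega⟩)))⟩
  by_cases c23 : v ≤ 8 * s + 8 * u + 5
  · obtain ⟨j, hj⟩ : ∃ j, j = (2 * u + 2 * s - (2)) := ⟨_, rfl⟩
    have a0 := Y23_1e s u (j) hp0 (by omega) (by omega) (by omega)
    have a1 := Y23_2 s u ((j + 1)) hp0 (by omega) (by omega)
    exact ⟨j, Or.inr (Or.inr (Or.inr (Or.inr (Or.inl ⟨by omega, by omega⟩))))⟩
  by_cases c24 : v ≤ 8 * s + 10 * u + 3
  · by_cases d0 : (v - (8 * s + 8 * u + 6)) % 2 = 0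
    · obtain ⟨j, hj⟩ : ∃ j, j = (v - (6 * u + 6 * s + 6)) := ⟨_, rfl⟩
      have a0 := Y23_3e s u (j) hp0 (by omega) (by omega) (by omega)
      have a1 := Y23_3o s u ((j + 1)) hp0 (by omega) (by omega) (by omega)
      exact ⟨j, Or.inr (Or.inr (Or.inr (Or.inr (Or.inl ⟨by omega, by omega⟩))))⟩
    obtain ⟨j, hj⟩ : ∃ j, j = (v - (6 * u + 6 * s + 6)) := ⟨_, rfl⟩
    have a0 := Y23_3o s u (j) hp0 (by omega) (by omega) (by omega)
    have a1 := Y23_3e s u ((j + 1)) hp0 (by omega) (by omega) (by omega)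
    exact ⟨j, Or.inr (Or.inr (Or.inr (Or.inr (Or.inl ⟨by omega, by omega⟩))))⟩
  by_cases c25 : v ≤ 8 * s + 10 * u + 4
  · obtain ⟨j, hj⟩ : ∃ j, j = (2 * s) := ⟨_, rfl⟩
    have a0 := X23_0e s u (j) hp0 (by omega) (by omega) (by omega)
    have a1 := X23_1e s u ((j + 1)) hp0 (by omega) (by omega) (by omega)
    exact ⟨j, Or.inr (Or.inl ⟨by omega, by omega⟩)⟩
  by_cases c26 : v ≤ 10 * s + 10 * u + 4
  · by_cases d0 : (v - (8 * s + 10 * u + 5)) % 2 = 0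
    · obtain ⟨j, hj⟩ : ∃ j, j = (v - (8 * u + 8 * s + 7)) := ⟨_, rfl⟩
      have a0 := Y23_1e s u (j) hp0 (by omega) (by omega) (by omega)
      have a1 := Y23_1o s u ((j + 1)) hp0 (by omega) (by omega) (by omega)
      exact ⟨j, Or.inr (Or.inr (Or.inr (Or.inr (Or.inl ⟨by omega, by omega⟩))))⟩
    obtain ⟨j, hj⟩ : ∃ j, j = (v - (8 * u + 8 * s + 7)) := ⟨_, rfl⟩
    have a0 := Y23_1o s u (j) hp0 (by omega) (by omega) (by omega)
    have a1 := Y23_1e s u ((j + 1)) hp0 (by omega) (by omega) (by omega)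
    exact ⟨j, Or.inr (Or.inr (Or.inr (Or.inr (Or.inl ⟨by omega, by omega⟩))))⟩
  by_cases c27 : v ≤ 10 * s + 10 * u + 5
  · obtain ⟨j, hj⟩ : ∃ j, j = (4 * s + 2) := ⟨_, rfl⟩
    have a0 := X23_2 s u (j) hp0 (by omega) (by omega)
    exact ⟨j, Or.inl ⟨by omega, by omega⟩⟩
  by_cases c28 : v ≤ 10 * s + 10 * u + 6
  · obtain ⟨j, hj⟩ : ∃ j, j = (2 * u + 2 * s - (1)) := ⟨_, rfl⟩
    have a0 := Y23_2 s u (j) hp0 (by omega) (by omega)
    have a1 := Y23_3e s u ((j + 1)) hp0 (by omega) (by omega) (by omega)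
    exact ⟨j, Or.inr (Or.inr (Or.inr (Or.inr (Or.inl ⟨by omega, by omega⟩))))⟩
  by_cases c29 : v ≤ 10 * s + 12 * u + 3
  · by_cases d0 : (v - (10 * s + 10 * u + 7)) % 2 = 0
    · obtain ⟨j, hj⟩ : ∃ j, j = (v - (10 * s + 10 * u + 7)) := ⟨_, rfl⟩
      have a0 := Y23_0e s u (j) hp0 (by omega) (by omega) (by omega)
      have a1 := Y23_0o s u ((j + 1)) hp0 (by omega) (by omega) (by omega)
      exact ⟨j, Or.inr (Or.inr (Or.inr (Or.inr (Or.inl ⟨by omega, by omega⟩))))⟩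
    obtain ⟨j, hj⟩ : ∃ j, j = (v - (10 * s + 10 * u + 7)) := ⟨_, rfl⟩
    have a0 := Y23_0o s u (j) hp0 (by omega) (by omega) (by omega)
    have a1 := Y23_0e s u ((j + 1)) hp0 (by omega) (by omega) (by omega)
    exact ⟨j, Or.inr (Or.inr (Or.inr (Or.inr (Or.inl ⟨by omega, by omega⟩))))⟩
  by_cases c30 : v ≤ 10 * s + 12 * u + 4
  · obtain ⟨j, hj⟩ : ∃ j, j = (4 * u + 2 * s - (2)) := ⟨_, rfl⟩
    have a0 := Y23_3e s u (j) hp0 (by omega) (by omega) (by omega)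
    have a1 := Y23_4e s u ((j + 1)) hp0 (by omega) (by omega) (by omega)
    exact ⟨j, Or.inr (Or.inr (Or.inr (Or.inr (Or.inl ⟨by omega, by omega⟩))))⟩
  by_cases d0 : (v - (10 * s + 12 * u + 5)) % 2 = 0
  · obtain ⟨j, hj⟩ : ∃ j, j = (12 * s + 12 * u + 4 - (v)) := ⟨_, rfl⟩
    have a0 := X23_0o s u (j) hp0 (by omega) (by omega) (by omega)
    have a1 := X23_0e s u ((j + 1)) hp0 (by omega) (by omega) (by omega)
    exact ⟨j, Or.inr (Or.inl ⟨by omega, by omega⟩)⟩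
  obtain ⟨j, hj⟩ : ∃ j, j = (12 * s + 12 * u + 4 - (v)) := ⟨_, rfl⟩
  have a0 := X23_0e s u (j) hp0 (by omega) (by omega) (by omega)
  have a1 := X23_0o s u ((j + 1)) hp0 (by omega) (by omega) (by omega)
  exact ⟨j, Or.inr (Or.inl ⟨by omega, by omega⟩)⟩

end Pool.Agent.H35.TwoCyc
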