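import Pool.Agent.H35.TwoCyc

set_option autoImplicit false
set_option linter.unusedVariables false

namespace Pool.Agent.H35.TwoCyc

def X40 (s u j : ℕ) : ℕ :=
  if j < 2 * s + 2 then (if (j) % 2 = 0 then (3 * s + 3 * u + 4 + 1 * ((j) / 2)) else (2 + 1 * ((j) / 2))) else
  (if (j - (2 * s + 2)) % 2 = 0 then (6 * s + 5 * u + 6 - (1 * ((j - (2 * s + 2)) / 2))) else (3 * s + 2 * u + 3 - (1 * ((j - (2 * s + 2)) / 2))))

lemma X40_0e (s u j : ℕ) (hp0 : 1 ≤ u) (h1 : 0 ≤ j) (h2 : j < 2 * s + 2) (h3 : (j) % 2 = 0) :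
    2 * X40 s u j = 6 * s + 6 * u + j + 8 := by
  unfold X40; rw [if_pos (by omega), if_pos (by omega)] <;> omega

lemma X40_0o (s u j : ℕ) (hp0 : 1 ≤ u) (h1 : 0 ≤ j) (h2 : j < 2 * s + 2) (h3 : (j) % 2 = 1) :
    2 * X40 s u j = j + 3 := by
  unfold X40; rw [if_pos (by omega), if_neg (by omega)] <;> omega

lemma X40_1e (s u j : ℕ) (hp0 : 1 ≤ u) (h1 : 2 * s + 2 ≤ j) (h2 : j < 4 * s + 4) (h3 : (j - (2 * s + 2)) % 2 = 0) :
    2 * X40 s u j + j = 14 * s + 10 * u + 14 := by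
  unfold X40; rw [if_neg (by omega), if_pos (by omega)] <;> omega

lemma X40_1o (s u j : ℕ) (hp0 : 1 ≤ u) (h1 : 2 * s + 2 ≤ j) (h2 : j < 4 * s + 4) (h3 : (j - (2 * s + 2)) % 2 = 1) :
    2 * X40 s u j + j = 8 * s + 4 * u + 9 := by
  unfold X40; rw [if_neg (by omega), if_neg (by omega)] <;> omega

def Y40 (s u j : ℕ) : ℕ :=
  if j + 1 < 2 * u then (if (j) % 2 = 0 then (4 * s + 4 * u + 4 - (1 * ((j) / 2))) else (s + u + 1 - (1 * ((j) / 2)))) else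
  if j < 2 * u + 2 * s then (if (j + 1 - (2 * u)) % 2 = 0 then (5 * s + 4 * u + 5 - (1 * ((j + 1 - (2 * u)) / 2))) else (2 * s + u + 2 - (1 * ((j + 1 - (2 * u)) / 2)))) else
  if j + 1 < 4 * u + 2 * s then (if (j - (2 * u + 2 * s)) % 2 = 0 then (3 * s + 3 * u + 3 - (1 * ((j - (2 * u + 2 * s)) / 2))) else (6 * s + 6 * u + 5 - (1 * ((j - (2 * u + 2 * s)) / 2)))) else
  if j + 1 < 6 * u + 2 * s then (if (j + 1 - (4 * u + 2 * s)) % 2 = 0 then (2 * s + u + 3 + 1 * ((j + 1 - (4 * u + 2 * s)) / 2)) else (5 * s + 4 * u + 6 + 1 * ((j + 1 - (4 * u + 2 * s)) / 2))) else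
  (10 * s + 10 * u + 8)

lemma Y40_0e (s u j : ℕ) (hp0 : 1 ≤ u) (h1 : 0 ≤ j) (h2 : j + 1 < 2 * u) (h3 : (j) % 2 = 0) :
    2 * Y40 s u j + j = 8 * s + 8 * u + 8 := by
  unfold Y40; rw [if_pos (by omega), if_pos (by omega)] <;> omega

lemma Y40_0o (s u j : ℕ) (hp0 : 1 ≤ u) (h1 : 0 ≤ j) (h2 : j + 1 < 2 * u) (h3 : (j) % 2 = 1) :
    2 * Y40 s u j + j = 2 * s + 2 * u + 3 := by
  unfold Y40; rw [if_pos (by omega), if_neg (by omega)] <;> omega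

lemma Y40_1e (s u j : ℕ) (hp0 : 1 ≤ u) (h1 : 2 * u ≤ j + 1) (h2 : j < 2 * u + 2 * s) (h3 : (j + 1 - (2 * u)) % 2 = 0) :
    2 * Y40 s u j + j = 10 * s + 10 * u + 9 := by
  unfold Y40; rw [if_neg (by omega), if_pos (by omega), if_pos (by omega)] <;> omega

lemma Y40_1o (s u j : ℕ) (hp0 : 1 ≤ u) (h1 : 2 * u ≤ j + 1) (h2 : j < 2 * u + 2 * s) (h3 : (j + 1 - (2 * u)) % 2 = 1) :
    2 * Y40 s u j + j = 4 * s + 4 * u + 4 := by
  unfold Y40; rw [if_neg (by omega), if_pos (by omega), if_neg (by omega)] <;> omega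

lemma Y40_2e (s u j : ℕ) (hp0 : 1 ≤ u) (h1 : 2 * u + 2 * s ≤ j) (h2 : j + 1 < 4 * u + 2 * s) (h3 : (j - (2 * u + 2 * s)) % 2 = 0) :
    2 * Y40 s u j + j = 8 * s + 8 * u + 6 := by
  unfold Y40; rw [if_neg (by omega), if_neg (by omega), if_pos (by omega), if_pos (by omega)] <;> omega

lemma Y40_2o (s u j : ℕ) (hp0 : 1 ≤ u) (h1 : 2 * u + 2 * s ≤ j) (h2 : j + 1 < 4 * u + 2 * s) (h3 : (j - (2 * u + 2 * s)) % 2 = 1) :
    2 * Y40 s u j + j = 14 * s + 14 * u + 11 := by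
  unfold Y40; rw [if_neg (by omega), if_neg (by omega), if_pos (by omega), if_neg (by omega)] <;> omega

lemma Y40_3e (s u j : ℕ) (hp0 : 1 ≤ u) (h1 : 4 * u + 2 * s ≤ j + 1) (h2 : j + 1 < 6 * u + 2 * s) (h3 : (j + 1 - (4 * u + 2 * s)) % 2 = 0) :
    2 * Y40 s u j + 2 * u = 2 * s + j + 7 := by
  unfold Y40; rw [if_neg (by omega), if_neg (by omega), if_neg (by omega), if_pos (by omega), if_pos (by omega)] <;> omega

lemma Y40_3o (s u j : ℕ) (hp0 : 1 ≤ u) (h1 : 4 * u + 2 * s ≤ j + 1) (h2 : j + 1 < 6 * u + 2 * s) (h3 : (j + 1 - (4 * u + 2 * s)) % 2 = 1) :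
    2 * Y40 s u j = 8 * s + 4 * u + j + 12 := by
  unfold Y40; rw [if_neg (by omega), if_neg (by omega), if_neg (by omega), if_pos (by omega), if_neg (by omega)] <;> omega

lemma Y40_4 (s u j : ℕ) (hp0 : 1 ≤ u) (h1 : 6 * u + 2 * s ≤ j + 1) (h2 : j < 6 * u + 2 * s) :
    Y40 s u j = 10 * s + 10 * u + 8 := by
  unfold Y40; rw [if_neg (by omega), if_neg (by omega), if_neg (by omega), if_neg (by omega)] <;> omega

lemma cov40 (s u : ℕ) (hp0 : 1 ≤ u) :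
    Cov (4 * s + 4) (6 * u + 2 * s) (X40 s u) (Y40 s u) (15 * s + 15 * u + 14) := by
  intro v h1 h2
  by_cases c0 : v ≤ 1
  · obtain ⟨j, hj⟩ : ∃ j, j = (6 * u + 2 * s - (2)) := ⟨_, rfl⟩
    have a0 := Y40_3o s u (j) hp0 (by omega) (by omega) (by omega)
    have a1 := Y40_4 s u ((j + 1)) hp0 (by omega) (by omega)
    exact ⟨j, Or.inr (Or.inr (Or.inr (Or.inr (Or.inl ⟨by omega, by omega⟩))))⟩
  by_cases c1 : v ≤ s + 2
  · obtain ⟨j, hj⟩ : ∃ j, j = (2 * v - (3)) := ⟨_, rfl⟩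
    have a0 := X40_0o s u (j) hp0 (by omega) (by omega) (by omega)
    exact ⟨j, Or.inl ⟨by omega, by omega⟩⟩
  by_cases c2 : v ≤ s + u + 1
  · obtain ⟨j, hj⟩ : ∃ j, j = (2 * s + 2 * u + 3 - (2 * v)) := ⟨_, rfl⟩
    have a0 := Y40_0o s u (j) hp0 (by omega) (by omega) (by omega)
    exact ⟨j, Or.inr (Or.inr (Or.inr (Or.inl ⟨by omega, by omega⟩)))⟩
  by_cases c3 : v ≤ s + u + 2
  · obtain ⟨j, hj⟩ : ∃ j, j = (6 * u + 2 * s - (1)) := ⟨_, rfl⟩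
    have a0 := Y40_4 s u (j) hp0 (by omega) (by omega)
    have a1 := Y40_0e s u ((0)) hp0 (by omega) (by omega) (by omega)
    exact ⟨j, Or.inr (Or.inr (Or.inr (Or.inr (Or.inr (⟨by omega, by omega⟩)))))⟩
  by_cases c4 : v ≤ 2 * s + u + 2
  · obtain ⟨j, hj⟩ : ∃ j, j = (4 * u + 4 * s + 4 - (2 * v)) := ⟨_, rfl⟩
    have a0 := Y40_1o s u (j) hp0 (by omega) (by omega) (by omega)
    exact ⟨j, Or.inr (Or.inr (Or.inr (Or.inl ⟨by omega, by omega⟩)))⟩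
  by_cases c5 : v ≤ 2 * s + 2 * u + 2
  · obtain ⟨j, hj⟩ : ∃ j, j = (2 * u + 2 * v - (2 * s + 7)) := ⟨_, rfl⟩
    have a0 := Y40_3e s u (j) hp0 (by omega) (by omega) (by omega)
    exact ⟨j, Or.inr (Or.inr (Or.inr (Or.inl ⟨by omega, by omega⟩)))⟩
  by_cases c6 : v ≤ 3 * s + 2 * u + 3
  · obtain ⟨j, hj⟩ : ∃ j, j = (8 * s + 4 * u + 9 - (2 * v)) := ⟨_, rfl⟩
    have a0 := X40_1o s u (j) hp0 (by omega) (by omega) (by omega)
    exact ⟨j, Or.inl ⟨by omega, by omega⟩⟩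
  by_cases c7 : v ≤ 3 * s + 3 * u + 3
  · obtain ⟨j, hj⟩ : ∃ j, j = (8 * u + 8 * s + 6 - (2 * v)) := ⟨_, rfl⟩
    have a0 := Y40_2e s u (j) hp0 (by omega) (by omega) (by omega)
    exact ⟨j, Or.inr (Or.inr (Or.inr (Or.inl ⟨by omega, by omega⟩)))⟩
  by_cases c8 : v ≤ 4 * s + 3 * u + 4
  · obtain ⟨j, hj⟩ : ∃ j, j = (2 * v - (6 * s + 6 * u + 8)) := ⟨_, rfl⟩
    have a0 := X40_0e s u (j) hp0 (by omega) (by omega) (by omega)
    exact ⟨j, Or.inl ⟨by omega, by omega⟩⟩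
  by_cases c9 : v ≤ 4 * s + 4 * u + 4
  · obtain ⟨j, hj⟩ : ∃ j, j = (8 * s + 8 * u + 8 - (2 * v)) := ⟨_, rfl⟩
    have a0 := Y40_0e s u (j) hp0 (by omega) (by omega) (by omega)
    exact ⟨j, Or.inr (Or.inr (Or.inr (Or.inl ⟨by omega, by omega⟩)))⟩
  by_cases c10 : v ≤ 5 * s + 4 * u + 5
  · obtain ⟨j, hj⟩ : ∃ j, j = (10 * u + 10 * s + 9 - (2 * v)) := ⟨_, rfl⟩
    have a0 := Y40_1e s u (j) hp0 (by omega) (by omega) (by omega)
    exact ⟨j, Or.inr (Or.inr (Or.inr (Or.inl ⟨by omega, by omega⟩)))⟩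
  by_cases c11 : v ≤ 5 * s + 5 * u + 5
  · obtain ⟨j, hj⟩ : ∃ j, j = (2 * v - (4 * u + 8 * s + 12)) := ⟨_, rfl⟩
    have a0 := Y40_3o s u (j) hp0 (by omega) (by omega) (by omega)
    exact ⟨j, Or.inr (Or.inr (Or.inr (Or.inl ⟨by omega, by omega⟩)))⟩
  by_cases c12 : v ≤ 6 * s + 5 * u + 6
  · obtain ⟨j, hj⟩ : ∃ j, j = (14 * s + 10 * u + 14 - (2 * v)) := ⟨_, rfl⟩
    have a0 := X40_1e s u (j) hp0 (by omega) (by omega) (by omega)
    exact ⟨j, Or.inl ⟨by omega, by omega⟩⟩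
  by_cases c13 : v ≤ 6 * s + 6 * u + 5
  · obtain ⟨j, hj⟩ : ∃ j, j = (14 * u + 14 * s + 11 - (2 * v)) := ⟨_, rfl⟩
    have a0 := Y40_2o s u (j) hp0 (by omega) (by omega) (by omega)
    exact ⟨j, Or.inr (Or.inr (Or.inr (Or.inl ⟨by omega, by omega⟩)))⟩
  by_cases c14 : v ≤ 6 * s + 8 * u + 3
  · by_cases d0 : (v - (6 * s + 6 * u + 6)) % 2 = 0
    · obtain ⟨j, hj⟩ : ∃ j, j = (v - (4 * u + 4 * s + 6)) := ⟨_, rfl⟩
      have a0 := Y40_2e s u (j) hp0 (by omega) (by omega) (by omega)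
      have a1 := Y40_2o s u ((j + 1)) hp0 (by omega) (by omega) (by omega)
      exact ⟨j, Or.inr (Or.inr (Or.inr (Or.inr (Or.inl ⟨by omega, by omega⟩))))⟩
    obtain ⟨j, hj⟩ : ∃ j, j = (v - (4 * u + 4 * s + 6)) := ⟨_, rfl⟩
    have a0 := Y40_2o s u (j) hp0 (by omega) (by omega) (by omega)
    have a1 := Y40_2e s u ((j + 1)) hp0 (by omega) (by omega) (by omega)
    exact ⟨j, Or.inr (Or.inr (Or.inr (Or.inr (Or.inl ⟨by omega, by omega⟩))))⟩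
  by_cases c15 : v ≤ 6 * s + 8 * u + 4
  · obtain ⟨j, hj⟩ : ∃ j, j = (2 * u - (2)) := ⟨_, rfl⟩
    have a0 := Y40_0e s u (j) hp0 (by omega) (by omega) (by omega)
    have a1 := Y40_1e s u ((j + 1)) hp0 (by omega) (by omega) (by omega)
    exact ⟨j, Or.inr (Or.inr (Or.inr (Or.inr (Or.inl ⟨by omega, by omega⟩))))⟩
  by_cases c16 : v ≤ 8 * s + 8 * u + 5
  · by_cases d0 : (v - (6 * s + 8 * u + 5)) % 2 = 0
    · obtain ⟨j, hj⟩ : ∃ j, j = (v - (4 * s + 8 * u + 3)) := ⟨_, rfl⟩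
      have a0 := X40_1e s u (j) hp0 (by omega) (by omega) (by omega)
      have a1 := X40_1o s u ((j + 1)) hp0 (by omega) (by omega) (by omega)
      exact ⟨j, Or.inr (Or.inl ⟨by omega, by omega⟩)⟩
    obtain ⟨j, hj⟩ : ∃ j, j = (v - (4 * s + 8 * u + 3)) := ⟨_, rfl⟩
    have a0 := X40_1o s u (j) hp0 (by omega) (by omega) (by omega)
    have a1 := X40_1e s u ((j + 1)) hp0 (by omega) (by omega) (by omega)
    exact ⟨j, Or.inr (Or.inl ⟨by omega, by omega⟩)⟩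
  by_cases c17 : v ≤ 8 * s + 8 * u + 6
  · obtain ⟨j, hj⟩ : ∃ j, j = (2 * u + 2 * s - (1)) := ⟨_, rfl⟩
    have a0 := Y40_1e s u (j) hp0 (by omega) (by omega) (by omega)
    have a1 := Y40_2e s u ((j + 1)) hp0 (by omega) (by omega) (by omega)
    exact ⟨j, Or.inr (Or.inr (Or.inr (Or.inr (Or.inl ⟨by omega, by omega⟩))))⟩
  by_cases c18 : v ≤ 8 * s + 10 * u + 5
  · by_cases d0 : (v - (8 * s + 8 * u + 7)) % 2 = 0
    · obtain ⟨j, hj⟩ : ∃ j, j = (14 * u + 10 * s + 4 - (v)) := ⟨_, rfl⟩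
      have a0 := Y40_3e s u (j) hp0 (by omega) (by omega) (by omega)
      have a1 := Y40_3o s u ((j + 1)) hp0 (by omega) (by omega) (by omega)
      exact ⟨j, Or.inr (Or.inr (Or.inr (Or.inr (Or.inl ⟨by omega, by omega⟩))))⟩
    obtain ⟨j, hj⟩ : ∃ j, j = (14 * u + 10 * s + 4 - (v)) := ⟨_, rfl⟩
    have a0 := Y40_3o s u (j) hp0 (by omega) (by omega) (by omega)
    have a1 := Y40_3e s u ((j + 1)) hp0 (by omega) (by omega) (by omega)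
    exact ⟨j, Or.inr (Or.inr (Or.inr (Or.inr (Or.inl ⟨by omega, by omega⟩))))⟩
  by_cases c19 : v ≤ 8 * s + 10 * u + 6
  · obtain ⟨j, hj⟩ : ∃ j, j = (2 * s + 1) := ⟨_, rfl⟩
    have a0 := X40_0o s u (j) hp0 (by omega) (by omega) (by omega)
    have a1 := X40_1e s u ((j + 1)) hp0 (by omega) (by omega) (by omega)
    exact ⟨j, Or.inr (Or.inl ⟨by omega, by omega⟩)⟩
  by_cases c20 : v ≤ 10 * s + 10 * u + 6
  · by_cases d0 : (v - (8 * s + 10 * u + 7)) % 2 = 0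
    · obtain ⟨j, hj⟩ : ∃ j, j = (v - (8 * u + 8 * s + 8)) := ⟨_, rfl⟩
      have a0 := Y40_1e s u (j) hp0 (by omega) (by omega) (by omega)
      have a1 := Y40_1o s u ((j + 1)) hp0 (by omega) (by omega) (by omega)
      exact ⟨j, Or.inr (Or.inr (Or.inr (Or.inr (Or.inl ⟨by omega, by omega⟩))))⟩
    obtain ⟨j, hj⟩ : ∃ j, j = (v - (8 * u + 8 * s + 8)) := ⟨_, rfl⟩
    have a0 := Y40_1o s u (j) hp0 (by omega) (by omega) (by omega)
    have a1 := Y40_1e s u ((j + 1)) hp0 (by omega) (by omega) (by omega)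
    exact ⟨j, Or.inr (Or.inr (Or.inr (Or.inr (Or.inl ⟨by omega, by omega⟩))))⟩
  by_cases c21 : v ≤ 10 * s + 10 * u + 7
  · obtain ⟨j, hj⟩ : ∃ j, j = (4 * s + 3) := ⟨_, rfl⟩
    have a0 := X40_1o s u (j) hp0 (by omega) (by omega) (by omega)
    have a1 := X40_0e s u ((0)) hp0 (by omega) (by omega) (by omega)
    exact ⟨j, Or.inr (Or.inr (Or.inl ⟨by omega, by omega⟩))⟩
  by_cases c22 : v ≤ 10 * s + 10 * u + 8
  · obtain ⟨j, hj⟩ : ∃ j, j = (6 * u + 2 * s - (1)) := ⟨_, rfl⟩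
    have a0 := Y40_4 s u (j) hp0 (by omega) (by omega)
    exact ⟨j, Or.inr (Or.inr (Or.inr (Or.inl ⟨by omega, by omega⟩)))⟩
  by_cases c23 : v ≤ 10 * s + 12 * u + 6
  · by_cases d0 : (v - (10 * s + 10 * u + 9)) % 2 = 0
    · obtain ⟨j, hj⟩ : ∃ j, j = (v - (10 * s + 10 * u + 9)) := ⟨_, rfl⟩
      have a0 := Y40_0e s u (j) hp0 (by omega) (by omega) (by omega)
      have a1 := Y40_0o s u ((j + 1)) hp0 (by omega) (by omega) (by omega)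
      exact ⟨j, Or.inr (Or.inr (Or.inr (Or.inr (Or.inl ⟨by omega, by omega⟩))))⟩
    obtain ⟨j, hj⟩ : ∃ j, j = (v - (10 * s + 10 * u + 9)) := ⟨_, rfl⟩
    have a0 := Y40_0o s u (j) hp0 (by omega) (by omega) (by omega)
    have a1 := Y40_0e s u ((j + 1)) hp0 (by omega) (by omega) (by omega)
    exact ⟨j, Or.inr (Or.inr (Or.inr (Or.inr (Or.inl ⟨by omega, by omega⟩))))⟩
  by_cases c24 : v ≤ 10 * s + 12 * u + 7
  · obtain ⟨j, hj⟩ : ∃ j, j = (4 * u + 2 * s - (2)) := ⟨_, rfl⟩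
    have a0 := Y40_2e s u (j) hp0 (by omega) (by omega) (by omega)
    have a1 := Y40_3e s u ((j + 1)) hp0 (by omega) (by omega) (by omega)
    exact ⟨j, Or.inr (Or.inr (Or.inr (Or.inr (Or.inl ⟨by omega, by omega⟩))))⟩
  by_cases d0 : (v - (10 * s + 12 * u + 8)) % 2 = 0
  · obtain ⟨j, hj⟩ : ∃ j, j = (12 * s + 12 * u + 8 - (v)) := ⟨_, rfl⟩
    have a0 := X40_0e s u (j) hp0 (by omega) (by omega) (by omega)
    have a1 := X40_0o s u ((j + 1)) hp0 (by omega) (by omega) (by omega)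
    exact ⟨j, Or.inr (Or.inl ⟨by omega, by omega⟩)⟩
  obtain ⟨j, hj⟩ : ∃ j, j = (12 * s + 12 * u + 8 - (v)) := ⟨_, rfl⟩
  have a0 := X40_0o s u (j) hp0 (by omega) (by omega) (by omega)
  have a1 := X40_0e s u ((j + 1)) hp0 (by omega) (by omega) (by omega)
  exact ⟨j, Or.inr (Or.inl ⟨by omega, by omega⟩)⟩

def X41 (s u j : ℕ) : ℕ :=
  if j < 2 * s + 2 then (if (j) % 2 = 0 then (4 * s + 4 * u + 4 + 1 * ((j) / 2)) else (s + u + 2 + 1 * ((j) / 2))) else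
  if j < 4 * s + 4 then (if (j - (2 * s + 2)) % 2 = 0 then (3 * s + 2 * u + 3 - (1 * ((j - (2 * s + 2)) / 2))) else (6 * s + 5 * u + 5 - (1 * ((j - (2 * s + 2)) / 2)))) else
  (8 * s + 8 * u + 6)

lemma X41_0e (s u j : ℕ) (hp0 : 1 ≤ u) (h1 : 0 ≤ j) (h2 : j < 2 * s + 2) (h3 : (j) % 2 = 0) :
    2 * X41 s u j = 8 * s + 8 * u + j + 8 := by
  unfold X41; rw [if_pos (by omega), if_pos (by omega)] <;> omega

lemma X41_0o (s u j : ℕ) (hp0 : 1 ≤ u) (h1 : 0 ≤ j) (h2 : j < 2 * s + 2) (h3 : (j) % 2 = 1) :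
    2 * X41 s u j = 2 * s + 2 * u + j + 3 := by
  unfold X41; rw [if_pos (by omega), if_neg (by omega)] <;> omega

lemma X41_1e (s u j : ℕ) (hp0 : 1 ≤ u) (h1 : 2 * s + 2 ≤ j) (h2 : j < 4 * s + 4) (h3 : (j - (2 * s + 2)) % 2 = 0) :
    2 * X41 s u j + j = 8 * s + 4 * u + 8 := by
  unfold X41; rw [if_neg (by omega), if_pos (by omega), if_pos (by omega)] <;> omega

lemma X41_1o (s u j : ℕ) (hp0 : 1 ≤ u) (h1 : 2 * s + 2 ≤ j) (h2 : j < 4 * s + 4) (h3 : (j - (2 * s + 2)) % 2 = 1) :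
    2 * X41 s u j + j = 14 * s + 10 * u + 13 := by
  unfold X41; rw [if_neg (by omega), if_pos (by omega), if_neg (by omega)] <;> omega

lemma X41_2 (s u j : ℕ) (hp0 : 1 ≤ u) (h1 : 4 * s + 4 ≤ j) (h2 : j < 4 * s + 5) :
    X41 s u j = 8 * s + 8 * u + 6 := by
  unfold X41; rw [if_neg (by omega), if_neg (by omega)] <;> omega

def Y41 (s u j : ℕ) : ℕ :=
  if j < 2 * s + 1 then (if (j) % 2 = 0 then (1 + 1 * ((j) / 2)) else (3 * s + 3 * u + 4 + 1 * ((j) / 2))) else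
  if j < 2 * s + 2 * u then (if (j - (2 * s + 1)) % 2 = 0 then (6 * s + 5 * u + 6 + 1 * ((j - (2 * s + 1)) / 2)) else (3 * s + 2 * u + 4 + 1 * ((j - (2 * s + 1)) / 2))) else
  if j < 2 * s + 4 * u then (if (j - (2 * s + 2 * u)) % 2 = 0 then (s + u + 1 - (1 * ((j - (2 * s + 2 * u)) / 2))) else (4 * s + 4 * u + 3 - (1 * ((j - (2 * s + 2 * u)) / 2)))) else
  (if (j - (2 * s + 4 * u)) % 2 = 0 then (5 * s + 4 * u + 5 + 1 * ((j - (2 * s + 4 * u)) / 2)) else (2 * s + u + 3 + 1 * ((j - (2 * s + 4 * u)) / 2)))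

lemma Y41_0e (s u j : ℕ) (hp0 : 1 ≤ u) (h1 : 0 ≤ j) (h2 : j < 2 * s + 1) (h3 : (j) % 2 = 0) :
    2 * Y41 s u j = j + 2 := by
  unfold Y41; rw [if_pos (by omega), if_pos (by omega)] <;> omega

lemma Y41_0o (s u j : ℕ) (hp0 : 1 ≤ u) (h1 : 0 ≤ j) (h2 : j < 2 * s + 1) (h3 : (j) % 2 = 1) :
    2 * Y41 s u j = 6 * s + 6 * u + j + 7 := by
  unfold Y41; rw [if_pos (by omega), if_neg (by omega)] <;> omega

lemma Y41_1e (s u j : ℕ) (hp0 : 1 ≤ u) (h1 : 2 * s + 1 ≤ j) (h2 : j < 2 * s + 2 * u) (h3 : (j - (2 * s + 1)) % 2 = 0) :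
    2 * Y41 s u j = 10 * s + 10 * u + j + 11 := by
  unfold Y41; rw [if_neg (by omega), if_pos (by omega), if_pos (by omega)] <;> omega

lemma Y41_1o (s u j : ℕ) (hp0 : 1 ≤ u) (h1 : 2 * s + 1 ≤ j) (h2 : j < 2 * s + 2 * u) (h3 : (j - (2 * s + 1)) % 2 = 1) :
    2 * Y41 s u j = 4 * s + 4 * u + j + 6 := by
  unfold Y41; rw [if_neg (by omega), if_pos (by omega), if_neg (by omega)] <;> omega

lemma Y41_2e (s u j : ℕ) (hp0 : 1 ≤ u) (h1 : 2 * s + 2 * u ≤ j) (h2 : j < 2 * s + 4 * u) (h3 : (j - (2 * s + 2 * u)) % 2 = 0) :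
    2 * Y41 s u j + j = 4 * s + 4 * u + 2 := by
  unfold Y41; rw [if_neg (by omega), if_neg (by omega), if_pos (by omega), if_pos (by omega)] <;> omega

lemma Y41_2o (s u j : ℕ) (hp0 : 1 ≤ u) (h1 : 2 * s + 2 * u ≤ j) (h2 : j < 2 * s + 4 * u) (h3 : (j - (2 * s + 2 * u)) % 2 = 1) :
    2 * Y41 s u j + j = 10 * s + 10 * u + 7 := by
  unfold Y41; rw [if_neg (by omega), if_neg (by omega), if_pos (by omega), if_neg (by omega)] <;> omega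

lemma Y41_3e (s u j : ℕ) (hp0 : 1 ≤ u) (h1 : 2 * s + 4 * u ≤ j) (h2 : j + 1 < 2 * s + 6 * u) (h3 : (j - (2 * s + 4 * u)) % 2 = 0) :
    2 * Y41 s u j = 8 * s + 4 * u + j + 10 := by
  unfold Y41; rw [if_neg (by omega), if_neg (by omega), if_neg (by omega), if_pos (by omega)] <;> omega

lemma Y41_3o (s u j : ℕ) (hp0 : 1 ≤ u) (h1 : 2 * s + 4 * u ≤ j) (h2 : j + 1 < 2 * s + 6 * u) (h3 : (j - (2 * s + 4 * u)) % 2 = 1) :
    2 * Y41 s u j + 2 * u = 2 * s + j + 5 := by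
  unfold Y41; rw [if_neg (by omega), if_neg (by omega), if_neg (by omega), if_neg (by omega)] <;> omega

lemma cov41 (s u : ℕ) (hp0 : 1 ≤ u) :
    Cov (4 * s + 5) (2 * s + 6 * u - (1)) (X41 s u) (Y41 s u) (15 * s + 15 * u + 13) := by
  intro v h1 h2
  by_cases c0 : v ≤ s + 1
  · obtain ⟨j, hj⟩ : ∃ j, j = (2 * v - (2)) := ⟨_, rfl⟩
    have a0 := Y41_0e s u (j) hp0 (by omega) (by omega) (by omega)
    exact ⟨j, Or.inr (Or.inr (Or.inr (Or.inl ⟨by omega, by omega⟩)))⟩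
  by_cases c1 : v ≤ s + u + 1
  · obtain ⟨j, hj⟩ : ∃ j, j = (4 * s + 4 * u + 2 - (2 * v)) := ⟨_, rfl⟩
    have a0 := Y41_2e s u (j) hp0 (by omega) (by omega) (by omega)
    exact ⟨j, Or.inr (Or.inr (Or.inr (Or.inl ⟨by omega, by omega⟩)))⟩
  by_cases c2 : v ≤ 2 * s + u + 2
  · obtain ⟨j, hj⟩ : ∃ j, j = (2 * v - (2 * s + 2 * u + 3)) := ⟨_, rfl⟩
    have a0 := X41_0o s u (j) hp0 (by omega) (by omega) (by omega)
    exact ⟨j, Or.inl ⟨by omega, by omega⟩⟩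
  by_cases c3 : v ≤ 2 * s + 2 * u + 1
  · obtain ⟨j, hj⟩ : ∃ j, j = (2 * u + 2 * v - (2 * s + 5)) := ⟨_, rfl⟩
    have a0 := Y41_3o s u (j) hp0 (by omega) (by omega) (by omega)
    exact ⟨j, Or.inr (Or.inr (Or.inr (Or.inl ⟨by omega, by omega⟩)))⟩
  by_cases c4 : v ≤ 2 * s + 2 * u + 2
  · obtain ⟨j, hj⟩ : ∃ j, j = (4 * s + 3) := ⟨_, rfl⟩
    have a0 := X41_1o s u (j) hp0 (by omega) (by omega) (by omega)
    have a1 := X41_2 s u ((j + 1)) hp0 (by omega) (by omega)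
    exact ⟨j, Or.inr (Or.inl ⟨by omega, by omega⟩)⟩
  by_cases c5 : v ≤ 3 * s + 2 * u + 3
  · obtain ⟨j, hj⟩ : ∃ j, j = (8 * s + 4 * u + 8 - (2 * v)) := ⟨_, rfl⟩
    have a0 := X41_1e s u (j) hp0 (by omega) (by omega) (by omega)
    exact ⟨j, Or.inl ⟨by omega, by omega⟩⟩
  by_cases c6 : v ≤ 3 * s + 3 * u + 2
  · obtain ⟨j, hj⟩ : ∃ j, j = (2 * v - (4 * s + 4 * u + 6)) := ⟨_, rfl⟩
    have a0 := Y41_1o s u (j) hp0 (by omega) (by omega) (by omega)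
    exact ⟨j, Or.inr (Or.inr (Or.inr (Or.inl ⟨by omega, by omega⟩)))⟩
  by_cases c7 : v ≤ 3 * s + 3 * u + 3
  · obtain ⟨j, hj⟩ : ∃ j, j = (4 * s + 4) := ⟨_, rfl⟩
    have a0 := X41_2 s u (j) hp0 (by omega) (by omega)
    have a1 := X41_0e s u ((0)) hp0 (by omega) (by omega) (by omega)
    exact ⟨j, Or.inr (Or.inr (Or.inl ⟨by omega, by omega⟩))⟩
  by_cases c8 : v ≤ 4 * s + 3 * u + 3
  · obtain ⟨j, hj⟩ : ∃ j, j = (2 * v - (6 * s + 6 * u + 7)) := ⟨_, rfl⟩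
    have a0 := Y41_0o s u (j) hp0 (by omega) (by omega) (by omega)
    exact ⟨j, Or.inr (Or.inr (Or.inr (Or.inl ⟨by omega, by omega⟩)))⟩
  by_cases c9 : v ≤ 4 * s + 4 * u + 3
  · obtain ⟨j, hj⟩ : ∃ j, j = (10 * s + 10 * u + 7 - (2 * v)) := ⟨_, rfl⟩
    have a0 := Y41_2o s u (j) hp0 (by omega) (by omega) (by omega)
    exact ⟨j, Or.inr (Or.inr (Or.inr (Or.inl ⟨by omega, by omega⟩)))⟩
  by_cases c10 : v ≤ 5 * s + 4 * u + 4
  · obtain ⟨j, hj⟩ : ∃ j, j = (2 * v - (8 * s + 8 * u + 8)) := ⟨_, rfl⟩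
    have a0 := X41_0e s u (j) hp0 (by omega) (by omega) (by omega)
    exact ⟨j, Or.inl ⟨by omega, by omega⟩⟩
  by_cases c11 : v ≤ 5 * s + 5 * u + 4
  · obtain ⟨j, hj⟩ : ∃ j, j = (2 * v - (8 * s + 4 * u + 10)) := ⟨_, rfl⟩
    have a0 := Y41_3e s u (j) hp0 (by omega) (by omega) (by omega)
    exact ⟨j, Or.inr (Or.inr (Or.inr (Or.inl ⟨by omega, by omega⟩)))⟩
  by_cases c12 : v ≤ 6 * s + 5 * u + 5
  · obtain ⟨j, hj⟩ : ∃ j, j = (14 * s + 10 * u + 13 - (2 * v)) := ⟨_, rfl⟩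
    have a0 := X41_1o s u (j) hp0 (by omega) (by omega) (by omega)
    exact ⟨j, Or.inl ⟨by omega, by omega⟩⟩
  by_cases c13 : v ≤ 6 * s + 6 * u + 5
  · obtain ⟨j, hj⟩ : ∃ j, j = (2 * v - (10 * s + 10 * u + 11)) := ⟨_, rfl⟩
    have a0 := Y41_1e s u (j) hp0 (by omega) (by omega) (by omega)
    exact ⟨j, Or.inr (Or.inr (Or.inr (Or.inl ⟨by omega, by omega⟩)))⟩
  by_cases c14 : v ≤ 6 * s + 8 * u + 3
  · by_cases d0 : (v - (6 * s + 6 * u + 6)) % 2 = 0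
    · obtain ⟨j, hj⟩ : ∃ j, j = (8 * s + 8 * u + 4 - (v)) := ⟨_, rfl⟩
      have a0 := Y41_1o s u (j) hp0 (by omega) (by omega) (by omega)
      have a1 := Y41_1e s u ((j + 1)) hp0 (by omega) (by omega) (by omega)
      exact ⟨j, Or.inr (Or.inr (Or.inr (Or.inr (Or.inl ⟨by omega, by omega⟩))))⟩
    obtain ⟨j, hj⟩ : ∃ j, j = (8 * s + 8 * u + 4 - (v)) := ⟨_, rfl⟩
    have a0 := Y41_1e s u (j) hp0 (by omega) (by omega) (by omega)
    have a1 := Y41_1o s u ((j + 1)) hp0 (by omega) (by omega) (by omega)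
    exact ⟨j, Or.inr (Or.inr (Or.inr (Or.inr (Or.inl ⟨by omega, by omega⟩))))⟩
  by_cases c15 : v ≤ 6 * s + 8 * u + 4
  · obtain ⟨j, hj⟩ : ∃ j, j = (2 * s + 4 * u - (1)) := ⟨_, rfl⟩
    have a0 := Y41_2o s u (j) hp0 (by omega) (by omega) (by omega)
    have a1 := Y41_3e s u ((j + 1)) hp0 (by omega) (by omega) (by omega)
    exact ⟨j, Or.inr (Or.inr (Or.inr (Or.inr (Or.inl ⟨by omega, by omega⟩))))⟩
  by_cases c16 : v ≤ 8 * s + 8 * u + 5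
  · by_cases d0 : (v - (6 * s + 8 * u + 5)) % 2 = 0
    · obtain ⟨j, hj⟩ : ∃ j, j = (v - (4 * s + 8 * u + 3)) := ⟨_, rfl⟩
      have a0 := X41_1e s u (j) hp0 (by omega) (by omega) (by omega)
      have a1 := X41_1o s u ((j + 1)) hp0 (by omega) (by omega) (by omega)
      exact ⟨j, Or.inr (Or.inl ⟨by omega, by omega⟩)⟩
    obtain ⟨j, hj⟩ : ∃ j, j = (v - (4 * s + 8 * u + 3)) := ⟨_, rfl⟩
    have a0 := X41_1o s u (j) hp0 (by omega) (by omega) (by omega)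
    have a1 := X41_1e s u ((j + 1)) hp0 (by omega) (by omega) (by omega)
    exact ⟨j, Or.inr (Or.inl ⟨by omega, by omega⟩)⟩
  by_cases c17 : v ≤ 8 * s + 8 * u + 6
  · obtain ⟨j, hj⟩ : ∃ j, j = (4 * s + 4) := ⟨_, rfl⟩
    have a0 := X41_2 s u (j) hp0 (by omega) (by omega)
    exact ⟨j, Or.inl ⟨by omega, by omega⟩⟩
  by_cases c18 : v ≤ 8 * s + 8 * u + 7
  · obtain ⟨j, hj⟩ : ∃ j, j = (2 * s + 2 * u - (1)) := ⟨_, rfl⟩
    have a0 := Y41_1e s u (j) hp0 (by omega) (by omega) (by omega)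
    have a1 := Y41_2e s u ((j + 1)) hp0 (by omega) (by omega) (by omega)
    exact ⟨j, Or.inr (Or.inr (Or.inr (Or.inr (Or.inl ⟨by omega, by omega⟩))))⟩
  by_cases c19 : v ≤ 8 * s + 10 * u + 5
  · by_cases d0 : (v - (8 * s + 8 * u + 8)) % 2 = 0
    · obtain ⟨j, hj⟩ : ∃ j, j = (10 * s + 14 * u + 5 - (v)) := ⟨_, rfl⟩
      have a0 := Y41_3o s u (j) hp0 (by omega) (by omega) (by omega)
      have a1 := Y41_3e s u ((j + 1)) hp0 (by omega) (by omega) (by omega)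
      exact ⟨j, Or.inr (Or.inr (Or.inr (Or.inr (Or.inl ⟨by omega, by omega⟩))))⟩
    obtain ⟨j, hj⟩ : ∃ j, j = (10 * s + 14 * u + 5 - (v)) := ⟨_, rfl⟩
    have a0 := Y41_3e s u (j) hp0 (by omega) (by omega) (by omega)
    have a1 := Y41_3o s u ((j + 1)) hp0 (by omega) (by omega) (by omega)
    exact ⟨j, Or.inr (Or.inr (Or.inr (Or.inr (Or.inl ⟨by omega, by omega⟩))))⟩
  by_cases c20 : v ≤ 8 * s + 10 * u + 6
  · obtain ⟨j, hj⟩ : ∃ j, j = (2 * s) := ⟨_, rfl⟩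
    have a0 := Y41_0e s u (j) hp0 (by omega) (by omega) (by omega)
    have a1 := Y41_1e s u ((j + 1)) hp0 (by omega) (by omega) (by omega)
    exact ⟨j, Or.inr (Or.inr (Or.inr (Or.inr (Or.inl ⟨by omega, by omega⟩))))⟩
  by_cases c21 : v ≤ 10 * s + 10 * u + 7
  · by_cases d0 : (v - (8 * s + 10 * u + 7)) % 2 = 0
    · obtain ⟨j, hj⟩ : ∃ j, j = (10 * s + 10 * u + 7 - (v)) := ⟨_, rfl⟩
      have a0 := X41_0e s u (j) hp0 (by omega) (by omega) (by omega)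
      have a1 := X41_0o s u ((j + 1)) hp0 (by omega) (by omega) (by omega)
      exact ⟨j, Or.inr (Or.inl ⟨by omega, by omega⟩)⟩
    obtain ⟨j, hj⟩ : ∃ j, j = (10 * s + 10 * u + 7 - (v)) := ⟨_, rfl⟩
    have a0 := X41_0o s u (j) hp0 (by omega) (by omega) (by omega)
    have a1 := X41_0e s u ((j + 1)) hp0 (by omega) (by omega) (by omega)
    exact ⟨j, Or.inr (Or.inl ⟨by omega, by omega⟩)⟩
  by_cases c22 : v ≤ 10 * s + 10 * u + 8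
  · obtain ⟨j, hj⟩ : ∃ j, j = (2 * s + 6 * u - (2)) := ⟨_, rfl⟩
    have a0 := Y41_3e s u (j) hp0 (by omega) (by omega) (by omega)
    have a1 := Y41_0e s u ((0)) hp0 (by omega) (by omega) (by omega)
    exact ⟨j, Or.inr (Or.inr (Or.inr (Or.inr (Or.inr (⟨by omega, by omega⟩)))))⟩
  by_cases c23 : v ≤ 10 * s + 12 * u + 7
  · by_cases d0 : (v - (10 * s + 10 * u + 9)) % 2 = 0
    · obtain ⟨j, hj⟩ : ∃ j, j = (v - (8 * s + 8 * u + 9)) := ⟨_, rfl⟩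
      have a0 := Y41_2e s u (j) hp0 (by omega) (by omega) (by omega)
      have a1 := Y41_2o s u ((j + 1)) hp0 (by omega) (by omega) (by omega)
      exact ⟨j, Or.inr (Or.inr (Or.inr (Or.inr (Or.inl ⟨by omega, by omega⟩))))⟩
    obtain ⟨j, hj⟩ : ∃ j, j = (v - (8 * s + 8 * u + 9)) := ⟨_, rfl⟩
    have a0 := Y41_2o s u (j) hp0 (by omega) (by omega) (by omega)
    have a1 := Y41_2e s u ((j + 1)) hp0 (by omega) (by omega) (by omega)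
    exact ⟨j, Or.inr (Or.inr (Or.inr (Or.inr (Or.inl ⟨by omega, by omega⟩))))⟩
  by_cases c24 : v ≤ 10 * s + 12 * u + 8
  · obtain ⟨j, hj⟩ : ∃ j, j = (2 * s + 1) := ⟨_, rfl⟩
    have a0 := X41_0o s u (j) hp0 (by omega) (by omega) (by omega)
    have a1 := X41_1e s u ((j + 1)) hp0 (by omega) (by omega) (by omega)
    exact ⟨j, Or.inr (Or.inl ⟨by omega, by omega⟩)⟩
  by_cases d0 : (v - (10 * s + 12 * u + 9)) % 2 = 0
  · obtain ⟨j, hj⟩ : ∃ j, j = (12 * s + 12 * u + 8 - (v)) := ⟨_, rfl⟩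
    have a0 := Y41_0o s u (j) hp0 (by omega) (by omega) (by omega)
    have a1 := Y41_0e s u ((j + 1)) hp0 (by omega) (by omega) (by omega)
    exact ⟨j, Or.inr (Or.inr (Or.inr (Or.inr (Or.inl ⟨by omega, by omega⟩))))⟩
  obtain ⟨j, hj⟩ : ∃ j, j = (12 * s + 12 * u + 8 - (v)) := ⟨_, rfl⟩
  have a0 := Y41_0e s u (j) hp0 (by omega) (by omega) (by omega)
  have a1 := Y41_0o s u ((j + 1)) hp0 (by omega) (by omega) (by omega)
  exact ⟨j, Or.inr (Or.inr (Or.inr (Or.inr (Or.inl ⟨by omega, by omega⟩))))⟩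

def X42 (s u j : ℕ) : ℕ :=
  if j < 2 * s + 3 then (if (j) % 2 = 0 then (1 + 1 * ((j) / 2)) else (3 * s + 3 * u + 4 + 1 * ((j) / 2))) else
  (if (j - (2 * s + 3)) % 2 = 0 then (6 * s + 5 * u + 5 - (1 * ((j - (2 * s + 3)) / 2))) else (3 * s + 2 * u + 3 - (1 * ((j - (2 * s + 3)) / 2))))

lemma X42_0e (s u j : ℕ) (hp0 : 2 ≤ u) (h1 : 0 ≤ j) (h2 : j < 2 * s + 3) (h3 : (j) % 2 = 0) :
    2 * X42 s u j = j + 2 := by
  unfold X42; rw [if_pos (by omega), if_pos (by omega)] <;> omega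

lemma X42_0o (s u j : ℕ) (hp0 : 2 ≤ u) (h1 : 0 ≤ j) (h2 : j < 2 * s + 3) (h3 : (j) % 2 = 1) :
    2 * X42 s u j = 6 * s + 6 * u + j + 7 := by
  unfold X42; rw [if_pos (by omega), if_neg (by omega)] <;> omega

lemma X42_1e (s u j : ℕ) (hp0 : 2 ≤ u) (h1 : 2 * s + 3 ≤ j) (h2 : j < 4 * s + 6) (h3 : (j - (2 * s + 3)) % 2 = 0) :
    2 * X42 s u j + j = 14 * s + 10 * u + 13 := by
  unfold X42; rw [if_neg (by omega), if_pos (by omega)] <;> omega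

lemma X42_1o (s u j : ℕ) (hp0 : 2 ≤ u) (h1 : 2 * s + 3 ≤ j) (h2 : j < 4 * s + 6) (h3 : (j - (2 * s + 3)) % 2 = 1) :
    2 * X42 s u j + j = 8 * s + 4 * u + 10 := by
  unfold X42; rw [if_neg (by omega), if_neg (by omega)] <;> omega

def Y42 (s u j : ℕ) : ℕ :=
  if j + 2 < 2 * u then (if (j) % 2 = 0 then (s + u + 1 - (1 * ((j) / 2))) else (4 * s + 4 * u + 3 - (1 * ((j) / 2)))) else
  if j < 2 * u + 2 * s then (if (j + 2 - (2 * u)) % 2 = 0 then (5 * s + 4 * u + 4 - (1 * ((j + 2 - (2 * u)) / 2))) else (2 * s + u + 2 - (1 * ((j + 2 - (2 * u)) / 2)))) else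
  if j + 1 < 4 * u + 2 * s then (if (j - (2 * u + 2 * s)) % 2 = 0 then (2 * s + 2 * u + 2 - (1 * ((j - (2 * u + 2 * s)) / 2))) else (5 * s + 5 * u + 3 - (1 * ((j - (2 * u + 2 * s)) / 2)))) else
  if j + 3 < 6 * u + 2 * s then (if (j + 1 - (4 * u + 2 * s)) % 2 = 0 then (3 * s + 2 * u + 4 + 1 * ((j + 1 - (4 * u + 2 * s)) / 2)) else (6 * s + 5 * u + 6 + 1 * ((j + 1 - (4 * u + 2 * s)) / 2))) else
  (6 * s + 6 * u + 5)

lemma Y42_0e (s u j : ℕ) (hp0 : 2 ≤ u) (h1 : 0 ≤ j) (h2 : j + 2 < 2 * u) (h3 : (j) % 2 = 0) :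
    2 * Y42 s u j + j = 2 * s + 2 * u + 2 := by
  unfold Y42; rw [if_pos (by omega), if_pos (by omega)] <;> omega

lemma Y42_0o (s u j : ℕ) (hp0 : 2 ≤ u) (h1 : 0 ≤ j) (h2 : j + 2 < 2 * u) (h3 : (j) % 2 = 1) :
    2 * Y42 s u j + j = 8 * s + 8 * u + 7 := by
  unfold Y42; rw [if_pos (by omega), if_neg (by omega)] <;> omega

lemma Y42_1e (s u j : ℕ) (hp0 : 2 ≤ u) (h1 : 2 * u ≤ j + 2) (h2 : j < 2 * u + 2 * s) (h3 : (j + 2 - (2 * u)) % 2 = 0) :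
    2 * Y42 s u j + j = 10 * s + 10 * u + 6 := by
  unfold Y42; rw [if_neg (by omega), if_pos (by omega), if_pos (by omega)] <;> omega

lemma Y42_1o (s u j : ℕ) (hp0 : 2 ≤ u) (h1 : 2 * u ≤ j + 2) (h2 : j < 2 * u + 2 * s) (h3 : (j + 2 - (2 * u)) % 2 = 1) :
    2 * Y42 s u j + j = 4 * s + 4 * u + 3 := by
  unfold Y42; rw [if_neg (by omega), if_pos (by omega), if_neg (by omega)] <;> omega

lemma Y42_2e (s u j : ℕ) (hp0 : 2 ≤ u) (h1 : 2 * u + 2 * s ≤ j) (h2 : j + 1 < 4 * u + 2 * s) (h3 : (j - (2 * u + 2 * s)) % 2 = 0) :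
    2 * Y42 s u j + j = 6 * s + 6 * u + 4 := by
  unfold Y42; rw [if_neg (by omega), if_neg (by omega), if_pos (by omega), if_pos (by omega)] <;> omega

lemma Y42_2o (s u j : ℕ) (hp0 : 2 ≤ u) (h1 : 2 * u + 2 * s ≤ j) (h2 : j + 1 < 4 * u + 2 * s) (h3 : (j - (2 * u + 2 * s)) % 2 = 1) :
    2 * Y42 s u j + j = 12 * s + 12 * u + 7 := by
  unfold Y42; rw [if_neg (by omega), if_neg (by omega), if_pos (by omega), if_neg (by omega)] <;> omega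

lemma Y42_3e (s u j : ℕ) (hp0 : 2 ≤ u) (h1 : 4 * u + 2 * s ≤ j + 1) (h2 : j + 3 < 6 * u + 2 * s) (h3 : (j + 1 - (4 * u + 2 * s)) % 2 = 0) :
    2 * Y42 s u j = 4 * s + j + 9 := by
  unfold Y42; rw [if_neg (by omega), if_neg (by omega), if_neg (by omega), if_pos (by omega), if_pos (by omega)] <;> omega

lemma Y42_3o (s u j : ℕ) (hp0 : 2 ≤ u) (h1 : 4 * u + 2 * s ≤ j + 1) (h2 : j + 3 < 6 * u + 2 * s) (h3 : (j + 1 - (4 * u + 2 * s)) % 2 = 1) :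
    2 * Y42 s u j = 10 * s + 6 * u + j + 12 := by
  unfold Y42; rw [if_neg (by omega), if_neg (by omega), if_neg (by omega), if_pos (by omega), if_neg (by omega)] <;> omega

lemma Y42_4 (s u j : ℕ) (hp0 : 2 ≤ u) (h1 : 6 * u + 2 * s ≤ j + 3) (h2 : j + 2 < 6 * u + 2 * s) :
    Y42 s u j = 6 * s + 6 * u + 5 := by
  unfold Y42; rw [if_neg (by omega), if_neg (by omega), if_neg (by omega), if_neg (by omega)] <;> omega

lemma cov42 (s u : ℕ) (hp0 : 2 ≤ u) :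
    Cov (4 * s + 6) (6 * u + 2 * s - (2)) (X42 s u) (Y42 s u) (15 * s + 15 * u + 12) := by
  intro v h1 h2
  by_cases c0 : v ≤ s + 2
  · obtain ⟨j, hj⟩ : ∃ j, j = (2 * v - (2)) := ⟨_, rfl⟩
    have a0 := X42_0e s u (j) hp0 (by omega) (by omega) (by omega)
    exact ⟨j, Or.inl ⟨by omega, by omega⟩⟩
  by_cases c1 : v ≤ s + u + 1
  · obtain ⟨j, hj⟩ : ∃ j, j = (2 * s + 2 * u + 2 - (2 * v)) := ⟨_, rfl⟩
    have a0 := Y42_0e s u (j) hp0 (by omega) (by omega) (by omega)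
    exact ⟨j, Or.inr (Or.inr (Or.inr (Or.inl ⟨by omega, by omega⟩)))⟩
  by_cases c2 : v ≤ 2 * s + u + 2
  · obtain ⟨j, hj⟩ : ∃ j, j = (4 * u + 4 * s + 3 - (2 * v)) := ⟨_, rfl⟩
    have a0 := Y42_1o s u (j) hp0 (by omega) (by omega) (by omega)
    exact ⟨j, Or.inr (Or.inr (Or.inr (Or.inl ⟨by omega, by omega⟩)))⟩
  by_cases c3 : v ≤ 2 * s + 2 * u + 2
  · obtain ⟨j, hj⟩ : ∃ j, j = (6 * u + 6 * s + 4 - (2 * v)) := ⟨_, rfl⟩
    have a0 := Y42_2e s u (j) hp0 (by omega) (by omega) (by omega)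
    exact ⟨j, Or.inr (Or.inr (Or.inr (Or.inl ⟨by omega, by omega⟩)))⟩
  by_cases c4 : v ≤ 3 * s + 2 * u + 3
  · obtain ⟨j, hj⟩ : ∃ j, j = (8 * s + 4 * u + 10 - (2 * v)) := ⟨_, rfl⟩
    have a0 := X42_1o s u (j) hp0 (by omega) (by omega) (by omega)
    exact ⟨j, Or.inl ⟨by omega, by omega⟩⟩
  by_cases c5 : v ≤ 3 * s + 3 * u + 2
  · obtain ⟨j, hj⟩ : ∃ j, j = (2 * v - (4 * s + 9)) := ⟨_, rfl⟩
    have a0 := Y42_3e s u (j) hp0 (by omega) (by omega) (by omega)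
    exact ⟨j, Or.inr (Or.inr (Or.inr (Or.inl ⟨by omega, by omega⟩)))⟩
  by_cases c6 : v ≤ 3 * s + 3 * u + 3
  · obtain ⟨j, hj⟩ : ∃ j, j = (6 * u + 2 * s - (4)) := ⟨_, rfl⟩
    have a0 := Y42_3o s u (j) hp0 (by omega) (by omega) (by omega)
    have a1 := Y42_4 s u ((j + 1)) hp0 (by omega) (by omega)
    exact ⟨j, Or.inr (Or.inr (Or.inr (Or.inr (Or.inl ⟨by omega, by omega⟩))))⟩
  by_cases c7 : v ≤ 4 * s + 3 * u + 4
  · obtain ⟨j, hj⟩ : ∃ j, j = (2 * v - (6 * s + 6 * u + 7)) := ⟨_, rfl⟩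
    have a0 := X42_0o s u (j) hp0 (by omega) (by omega) (by omega)
    exact ⟨j, Or.inl ⟨by omega, by omega⟩⟩
  by_cases c8 : v ≤ 4 * s + 4 * u + 3
  · obtain ⟨j, hj⟩ : ∃ j, j = (8 * s + 8 * u + 7 - (2 * v)) := ⟨_, rfl⟩
    have a0 := Y42_0o s u (j) hp0 (by omega) (by omega) (by omega)
    exact ⟨j, Or.inr (Or.inr (Or.inr (Or.inl ⟨by omega, by omega⟩)))⟩
  by_cases c9 : v ≤ 5 * s + 4 * u + 4
  · obtain ⟨j, hj⟩ : ∃ j, j = (10 * u + 10 * s + 6 - (2 * v)) := ⟨_, rfl⟩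
    have a0 := Y42_1e s u (j) hp0 (by omega) (by omega) (by omega)
    exact ⟨j, Or.inr (Or.inr (Or.inr (Or.inl ⟨by omega, by omega⟩)))⟩
  by_cases c10 : v ≤ 5 * s + 5 * u + 3
  · obtain ⟨j, hj⟩ : ∃ j, j = (12 * u + 12 * s + 7 - (2 * v)) := ⟨_, rfl⟩
    have a0 := Y42_2o s u (j) hp0 (by omega) (by omega) (by omega)
    exact ⟨j, Or.inr (Or.inr (Or.inr (Or.inl ⟨by omega, by omega⟩)))⟩
  by_cases c11 : v ≤ 6 * s + 5 * u + 5
  · obtain ⟨j, hj⟩ : ∃ j, j = (14 * s + 10 * u + 13 - (2 * v)) := ⟨_, rfl⟩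
    have a0 := X42_1e s u (j) hp0 (by omega) (by omega) (by omega)
    exact ⟨j, Or.inl ⟨by omega, by omega⟩⟩
  by_cases c12 : v ≤ 6 * s + 6 * u + 4
  · obtain ⟨j, hj⟩ : ∃ j, j = (2 * v - (6 * u + 10 * s + 12)) := ⟨_, rfl⟩
    have a0 := Y42_3o s u (j) hp0 (by omega) (by omega) (by omega)
    exact ⟨j, Or.inr (Or.inr (Or.inr (Or.inl ⟨by omega, by omega⟩)))⟩
  by_cases c13 : v ≤ 6 * s + 6 * u + 5
  · obtain ⟨j, hj⟩ : ∃ j, j = (6 * u + 2 * s - (3)) := ⟨_, rfl⟩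
    have a0 := Y42_4 s u (j) hp0 (by omega) (by omega)
    exact ⟨j, Or.inr (Or.inr (Or.inr (Or.inl ⟨by omega, by omega⟩)))⟩
  by_cases c14 : v ≤ 6 * s + 8 * u + 2
  · by_cases d0 : (v - (6 * s + 6 * u + 6)) % 2 = 0
    · obtain ⟨j, hj⟩ : ∃ j, j = (12 * u + 8 * s + 1 - (v)) := ⟨_, rfl⟩
      have a0 := Y42_3e s u (j) hp0 (by omega) (by omega) (by omega)
      have a1 := Y42_3o s u ((j + 1)) hp0 (by omega) (by omega) (by omega)
      exact ⟨j, Or.inr (Or.inr (Or.inr (Or.inr (Or.inl ⟨by omega, by omega⟩))))⟩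
    obtain ⟨j, hj⟩ : ∃ j, j = (12 * u + 8 * s + 1 - (v)) := ⟨_, rfl⟩
    have a0 := Y42_3o s u (j) hp0 (by omega) (by omega) (by omega)
    have a1 := Y42_3e s u ((j + 1)) hp0 (by omega) (by omega) (by omega)
    exact ⟨j, Or.inr (Or.inr (Or.inr (Or.inr (Or.inl ⟨by omega, by omega⟩))))⟩
  by_cases c15 : v ≤ 6 * s + 8 * u + 3
  · obtain ⟨j, hj⟩ : ∃ j, j = (2 * u - (3)) := ⟨_, rfl⟩
    have a0 := Y42_0o s u (j) hp0 (by omega) (by omega) (by omega)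
    have a1 := Y42_1e s u ((j + 1)) hp0 (by omega) (by omega) (by omega)
    exact ⟨j, Or.inr (Or.inr (Or.inr (Or.inr (Or.inl ⟨by omega, by omega⟩))))⟩
  by_cases c16 : v ≤ 8 * s + 8 * u + 5
  · by_cases d0 : (v - (6 * s + 8 * u + 4)) % 2 = 0
    · obtain ⟨j, hj⟩ : ∃ j, j = (v - (4 * s + 8 * u + 1)) := ⟨_, rfl⟩
      have a0 := X42_1e s u (j) hp0 (by omega) (by omega) (by omega)
      have a1 := X42_1o s u ((j + 1)) hp0 (by omega) (by omega) (by omega)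
      exact ⟨j, Or.inr (Or.inl ⟨by omega, by omega⟩)⟩
    obtain ⟨j, hj⟩ : ∃ j, j = (v - (4 * s + 8 * u + 1)) := ⟨_, rfl⟩
    have a0 := X42_1o s u (j) hp0 (by omega) (by omega) (by omega)
    have a1 := X42_1e s u ((j + 1)) hp0 (by omega) (by omega) (by omega)
    exact ⟨j, Or.inr (Or.inl ⟨by omega, by omega⟩)⟩
  by_cases c17 : v ≤ 8 * s + 8 * u + 6
  · obtain ⟨j, hj⟩ : ∃ j, j = (6 * u + 2 * s - (3)) := ⟨_, rfl⟩
    have a0 := Y42_4 s u (j) hp0 (by omega) (by omega)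
    have a1 := Y42_0e s u ((0)) hp0 (by omega) (by omega) (by omega)
    exact ⟨j, Or.inr (Or.inr (Or.inr (Or.inr (Or.inr (⟨by omega, by omega⟩)))))⟩
  by_cases c18 : v ≤ 8 * s + 10 * u + 4
  · by_cases d0 : (v - (8 * s + 8 * u + 7)) % 2 = 0
    · obtain ⟨j, hj⟩ : ∃ j, j = (v - (6 * u + 6 * s + 7)) := ⟨_, rfl⟩
      have a0 := Y42_2e s u (j) hp0 (by omega) (by omega) (by omega)
      have a1 := Y42_2o s u ((j + 1)) hp0 (by omega) (by omega) (by omega)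
      exact ⟨j, Or.inr (Or.inr (Or.inr (Or.inr (Or.inl ⟨by omega, by omega⟩))))⟩
    obtain ⟨j, hj⟩ : ∃ j, j = (v - (6 * u + 6 * s + 7)) := ⟨_, rfl⟩
    have a0 := Y42_2o s u (j) hp0 (by omega) (by omega) (by omega)
    have a1 := Y42_2e s u ((j + 1)) hp0 (by omega) (by omega) (by omega)
    exact ⟨j, Or.inr (Or.inr (Or.inr (Or.inr (Or.inl ⟨by omega, by omega⟩))))⟩
  by_cases c19 : v ≤ 8 * s + 10 * u + 5
  · obtain ⟨j, hj⟩ : ∃ j, j = (2 * s + 2) := ⟨_, rfl⟩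
    have a0 := X42_0e s u (j) hp0 (by omega) (by omega) (by omega)
    have a1 := X42_1e s u ((j + 1)) hp0 (by omega) (by omega) (by omega)
    exact ⟨j, Or.inr (Or.inl ⟨by omega, by omega⟩)⟩
  by_cases c20 : v ≤ 10 * s + 10 * u + 6
  · by_cases d0 : (v - (8 * s + 10 * u + 6)) % 2 = 0
    · obtain ⟨j, hj⟩ : ∃ j, j = (v - (8 * u + 8 * s + 8)) := ⟨_, rfl⟩
      have a0 := Y42_1e s u (j) hp0 (by omega) (by omega) (by omega)
      have a1 := Y42_1o s u ((j + 1)) hp0 (by omega) (by omega) (by omega)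
      exact ⟨j, Or.inr (Or.inr (Or.inr (Or.inr (Or.inl ⟨by omega, by omega⟩))))⟩
    obtain ⟨j, hj⟩ : ∃ j, j = (v - (8 * u + 8 * s + 8)) := ⟨_, rfl⟩
    have a0 := Y42_1o s u (j) hp0 (by omega) (by omega) (by omega)
    have a1 := Y42_1e s u ((j + 1)) hp0 (by omega) (by omega) (by omega)
    exact ⟨j, Or.inr (Or.inr (Or.inr (Or.inr (Or.inl ⟨by omega, by omega⟩))))⟩
  by_cases c21 : v ≤ 10 * s + 10 * u + 7
  · obtain ⟨j, hj⟩ : ∃ j, j = (4 * s + 5) := ⟨_, rfl⟩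
    have a0 := X42_1e s u (j) hp0 (by omega) (by omega) (by omega)
    have a1 := X42_0e s u ((0)) hp0 (by omega) (by omega) (by omega)
    exact ⟨j, Or.inr (Or.inr (Or.inl ⟨by omega, by omega⟩))⟩
  by_cases c22 : v ≤ 10 * s + 12 * u + 4
  · by_cases d0 : (v - (10 * s + 10 * u + 8)) % 2 = 0
    · obtain ⟨j, hj⟩ : ∃ j, j = (v - (10 * s + 10 * u + 8)) := ⟨_, rfl⟩
      have a0 := Y42_0e s u (j) hp0 (by omega) (by omega) (by omega)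
      have a1 := Y42_0o s u ((j + 1)) hp0 (by omega) (by omega) (by omega)
      exact ⟨j, Or.inr (Or.inr (Or.inr (Or.inr (Or.inl ⟨by omega, by omega⟩))))⟩
    obtain ⟨j, hj⟩ : ∃ j, j = (v - (10 * s + 10 * u + 8)) := ⟨_, rfl⟩
    have a0 := Y42_0o s u (j) hp0 (by omega) (by omega) (by omega)
    have a1 := Y42_0e s u ((j + 1)) hp0 (by omega) (by omega) (by omega)
    exact ⟨j, Or.inr (Or.inr (Or.inr (Or.inr (Or.inl ⟨by omega, by omega⟩))))⟩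
  by_cases c23 : v ≤ 10 * s + 12 * u + 5
  · obtain ⟨j, hj⟩ : ∃ j, j = (4 * u + 2 * s - (2)) := ⟨_, rfl⟩
    have a0 := Y42_2e s u (j) hp0 (by omega) (by omega) (by omega)
    have a1 := Y42_3e s u ((j + 1)) hp0 (by omega) (by omega) (by omega)
    exact ⟨j, Or.inr (Or.inr (Or.inr (Or.inr (Or.inl ⟨by omega, by omega⟩))))⟩
  by_cases c24 : v ≤ 12 * s + 12 * u + 7
  · by_cases d0 : (v - (10 * s + 12 * u + 6)) % 2 = 0
    · obtain ⟨j, hj⟩ : ∃ j, j = (12 * s + 12 * u + 7 - (v)) := ⟨_, rfl⟩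
      have a0 := X42_0o s u (j) hp0 (by omega) (by omega) (by omega)
      have a1 := X42_0e s u ((j + 1)) hp0 (by omega) (by omega) (by omega)
      exact ⟨j, Or.inr (Or.inl ⟨by omega, by omega⟩)⟩
    obtain ⟨j, hj⟩ : ∃ j, j = (12 * s + 12 * u + 7 - (v)) := ⟨_, rfl⟩
    have a0 := X42_0e s u (j) hp0 (by omega) (by omega) (by omega)
    have a1 := X42_0o s u ((j + 1)) hp0 (by omega) (by omega) (by omega)
    exact ⟨j, Or.inr (Or.inl ⟨by omega, by omega⟩)⟩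
  obtain ⟨j, hj⟩ : ∃ j, j = (2 * u + 2 * s - (1)) := ⟨_, rfl⟩
  have a0 := Y42_1o s u (j) hp0 (by omega) (by omega) (by omega)
  have a1 := Y42_2e s u ((j + 1)) hp0 (by omega) (by omega) (by omega)
  exact ⟨j, Or.inr (Or.inr (Or.inr (Or.inr (Or.inl ⟨by omega, by omega⟩))))⟩

def X43 (s u j : ℕ) : ℕ :=
  if j < 2 * s + 1 then (if (j) % 2 = 0 then (2 + 1 * ((j) / 2)) else (3 * s + 3 * u + 5 + 1 * ((j) / 2))) else
  if j < 4 * s + 2 then (if (j - (2 * s + 1)) % 2 = 0 then (6 * s + 5 * u + 6 - (1 * ((j - (2 * s + 1)) / 2))) else (3 * s + 2 * u + 3 - (1 * ((j - (2 * s + 1)) / 2)))) else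
  (10 * s + 10 * u + 8)

lemma X43_0e (s u j : ℕ) (hp0 : 1 ≤ u) (h1 : 0 ≤ j) (h2 : j < 2 * s + 1) (h3 : (j) % 2 = 0) :
    2 * X43 s u j = j + 4 := by
  unfold X43; rw [if_pos (by omega), if_pos (by omega)] <;> omega

lemma X43_0o (s u j : ℕ) (hp0 : 1 ≤ u) (h1 : 0 ≤ j) (h2 : j < 2 * s + 1) (h3 : (j) % 2 = 1) :
    2 * X43 s u j = 6 * s + 6 * u + j + 9 := by
  unfold X43; rw [if_pos (by omega), if_neg (by omega)] <;> omega

lemma X43_1e (s u j : ℕ) (hp0 : 1 ≤ u) (h1 : 2 * s + 1 ≤ j) (h2 : j < 4 * s + 2) (h3 : (j - (2 * s + 1)) % 2 = 0) :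
    2 * X43 s u j + j = 14 * s + 10 * u + 13 := by
  unfold X43; rw [if_neg (by omega), if_pos (by omega), if_pos (by omega)] <;> omega

lemma X43_1o (s u j : ℕ) (hp0 : 1 ≤ u) (h1 : 2 * s + 1 ≤ j) (h2 : j < 4 * s + 2) (h3 : (j - (2 * s + 1)) % 2 = 1) :
    2 * X43 s u j + j = 8 * s + 4 * u + 8 := by
  unfold X43; rw [if_neg (by omega), if_pos (by omega), if_neg (by omega)] <;> omega

lemma X43_2 (s u j : ℕ) (hp0 : 1 ≤ u) (h1 : 4 * s + 2 ≤ j) (h2 : j < 4 * s + 3) :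
    X43 s u j = 10 * s + 10 * u + 8 := by
  unfold X43; rw [if_neg (by omega), if_neg (by omega)] <;> omega

def Y43 (s u j : ℕ) : ℕ :=
  if j + 1 < 2 * u then (if (j) % 2 = 0 then (4 * s + 4 * u + 4 - (1 * ((j) / 2))) else (s + u + 1 - (1 * ((j) / 2)))) else
  if j + 1 < 4 * u then (if (j + 1 - (2 * u)) % 2 = 0 then (5 * s + 4 * u + 5 + 1 * ((j + 1 - (2 * u)) / 2)) else (2 * s + u + 4 + 1 * ((j + 1 - (2 * u)) / 2))) else
  if j + 2 < 6 * u then (if (j + 1 - (4 * u)) % 2 = 0 then (3 * s + 3 * u + 3 - (1 * ((j + 1 - (4 * u)) / 2))) else (6 * s + 6 * u + 5 - (1 * ((j + 1 - (4 * u)) / 2)))) else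
  if j + 1 < 6 * u + 2 * s then (if (j + 2 - (6 * u)) % 2 = 0 then (2 * s + u + 3 - (1 * ((j + 2 - (6 * u)) / 2))) else (5 * s + 4 * u + 4 - (1 * ((j + 2 - (6 * u)) / 2)))) else
  if j < 6 * u + 2 * s then (6 * s + 6 * u + 6) else
  (8 * s + 8 * u + 7)

lemma Y43_0e (s u j : ℕ) (hp0 : 1 ≤ u) (h1 : 0 ≤ j) (h2 : j + 1 < 2 * u) (h3 : (j) % 2 = 0) :
    2 * Y43 s u j + j = 8 * s + 8 * u + 8 := by
  unfold Y43; rw [if_pos (by omega), if_pos (by omega)] <;> omega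

lemma Y43_0o (s u j : ℕ) (hp0 : 1 ≤ u) (h1 : 0 ≤ j) (h2 : j + 1 < 2 * u) (h3 : (j) % 2 = 1) :
    2 * Y43 s u j + j = 2 * s + 2 * u + 3 := by
  unfold Y43; rw [if_pos (by omega), if_neg (by omega)] <;> omega

lemma Y43_1e (s u j : ℕ) (hp0 : 1 ≤ u) (h1 : 2 * u ≤ j + 1) (h2 : j + 1 < 4 * u) (h3 : (j + 1 - (2 * u)) % 2 = 0) :
    2 * Y43 s u j = 10 * s + 6 * u + j + 11 := by
  unfold Y43; rw [if_neg (by omega), if_pos (by omega), if_pos (by omega)] <;> omega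

lemma Y43_1o (s u j : ℕ) (hp0 : 1 ≤ u) (h1 : 2 * u ≤ j + 1) (h2 : j + 1 < 4 * u) (h3 : (j + 1 - (2 * u)) % 2 = 1) :
    2 * Y43 s u j = 4 * s + j + 8 := by
  unfold Y43; rw [if_neg (by omega), if_pos (by omega), if_neg (by omega)] <;> omega

lemma Y43_2e (s u j : ℕ) (hp0 : 1 ≤ u) (h1 : 4 * u ≤ j + 1) (h2 : j + 2 < 6 * u) (h3 : (j + 1 - (4 * u)) % 2 = 0) :
    2 * Y43 s u j + j = 6 * s + 10 * u + 5 := by
  unfold Y43; rw [if_neg (by omega), if_neg (by omega), if_pos (by omega), if_pos (by omega)] <;> omega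

lemma Y43_2o (s u j : ℕ) (hp0 : 1 ≤ u) (h1 : 4 * u ≤ j + 1) (h2 : j + 2 < 6 * u) (h3 : (j + 1 - (4 * u)) % 2 = 1) :
    2 * Y43 s u j + j = 12 * s + 16 * u + 10 := by
  unfold Y43; rw [if_neg (by omega), if_neg (by omega), if_pos (by omega), if_neg (by omega)] <;> omega

lemma Y43_3e (s u j : ℕ) (hp0 : 1 ≤ u) (h1 : 6 * u ≤ j + 2) (h2 : j + 1 < 6 * u + 2 * s) (h3 : (j + 2 - (6 * u)) % 2 = 0) :
    2 * Y43 s u j + j = 4 * s + 8 * u + 4 := by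
  unfold Y43; rw [if_neg (by omega), if_neg (by omega), if_neg (by omega), if_pos (by omega), if_pos (by omega)] <;> omega

lemma Y43_3o (s u j : ℕ) (hp0 : 1 ≤ u) (h1 : 6 * u ≤ j + 2) (h2 : j + 1 < 6 * u + 2 * s) (h3 : (j + 2 - (6 * u)) % 2 = 1) :
    2 * Y43 s u j + j = 10 * s + 14 * u + 7 := by
  unfold Y43; rw [if_neg (by omega), if_neg (by omega), if_neg (by omega), if_pos (by omega), if_neg (by omega)] <;> omega

lemma Y43_4 (s u j : ℕ) (hp0 : 1 ≤ u) (h1 : 6 * u + 2 * s ≤ j + 1) (h2 : j < 6 * u + 2 * s) :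
    Y43 s u j = 6 * s + 6 * u + 6 := by
  unfold Y43; rw [if_neg (by omega), if_neg (by omega), if_neg (by omega), if_neg (by omega), if_pos (by omega)] <;> omega

lemma Y43_5 (s u j : ℕ) (hp0 : 1 ≤ u) (h1 : 6 * u + 2 * s ≤ j) (h2 : j < 6 * u + 2 * s + 1) :
    Y43 s u j = 8 * s + 8 * u + 7 := by
  unfold Y43; rw [if_neg (by omega), if_neg (by omega), if_neg (by omega), if_neg (by omega), if_neg (by omega)] <;> omega

lemma cov43 (s u : ℕ) (hp0 : 1 ≤ u) :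
    Cov (4 * s + 3) (6 * u + 2 * s + 1) (X43 s u) (Y43 s u) (15 * s + 15 * u + 15) := by
  intro v h1 h2
  by_cases c0 : v ≤ 1
  · obtain ⟨j, hj⟩ : ∃ j, j = (4 * s + 1) := ⟨_, rfl⟩
    have a0 := X43_1e s u (j) hp0 (by omega) (by omega) (by omega)
    have a1 := X43_2 s u ((j + 1)) hp0 (by omega) (by omega)
    exact ⟨j, Or.inr (Or.inl ⟨by omega, by omega⟩)⟩
  by_cases c1 : v ≤ s + 2
  · obtain ⟨j, hj⟩ : ∃ j, j = (2 * v - (4)) := ⟨_, rfl⟩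
    have a0 := X43_0e s u (j) hp0 (by omega) (by omega) (by omega)
    exact ⟨j, Or.inl ⟨by omega, by omega⟩⟩
  by_cases c2 : v ≤ s + u + 1
  · obtain ⟨j, hj⟩ : ∃ j, j = (2 * s + 2 * u + 3 - (2 * v)) := ⟨_, rfl⟩
    have a0 := Y43_0o s u (j) hp0 (by omega) (by omega) (by omega)
    exact ⟨j, Or.inr (Or.inr (Or.inr (Or.inl ⟨by omega, by omega⟩)))⟩
  by_cases c3 : v ≤ s + u + 2
  · obtain ⟨j, hj⟩ : ∃ j, j = (6 * u + 2 * s - (1)) := ⟨_, rfl⟩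
    have a0 := Y43_4 s u (j) hp0 (by omega) (by omega)
    have a1 := Y43_5 s u ((j + 1)) hp0 (by omega) (by omega)
    exact ⟨j, Or.inr (Or.inr (Or.inr (Or.inr (Or.inl ⟨by omega, by omega⟩))))⟩
  by_cases c4 : v ≤ 2 * s + u + 3
  · obtain ⟨j, hj⟩ : ∃ j, j = (8 * u + 4 * s + 4 - (2 * v)) := ⟨_, rfl⟩
    have a0 := Y43_3e s u (j) hp0 (by omega) (by omega) (by omega)
    exact ⟨j, Or.inr (Or.inr (Or.inr (Or.inl ⟨by omega, by omega⟩)))⟩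
  by_cases c5 : v ≤ 2 * s + 2 * u + 3
  · obtain ⟨j, hj⟩ : ∃ j, j = (2 * v - (4 * s + 8)) := ⟨_, rfl⟩
    have a0 := Y43_1o s u (j) hp0 (by omega) (by omega) (by omega)
    exact ⟨j, Or.inr (Or.inr (Or.inr (Or.inl ⟨by omega, by omega⟩)))⟩
  by_cases c6 : v ≤ 3 * s + 2 * u + 3
  · obtain ⟨j, hj⟩ : ∃ j, j = (8 * s + 4 * u + 8 - (2 * v)) := ⟨_, rfl⟩
    have a0 := X43_1o s u (j) hp0 (by omega) (by omega) (by omega)
    exact ⟨j, Or.inl ⟨by omega, by omega⟩⟩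
  by_cases c7 : v ≤ 3 * s + 3 * u + 3
  · obtain ⟨j, hj⟩ : ∃ j, j = (10 * u + 6 * s + 5 - (2 * v)) := ⟨_, rfl⟩
    have a0 := Y43_2e s u (j) hp0 (by omega) (by omega) (by omega)
    exact ⟨j, Or.inr (Or.inr (Or.inr (Or.inl ⟨by omega, by omega⟩)))⟩
  by_cases c8 : v ≤ 3 * s + 3 * u + 4
  · obtain ⟨j, hj⟩ : ∃ j, j = (6 * u + 2 * s) := ⟨_, rfl⟩
    have a0 := Y43_5 s u (j) hp0 (by omega) (by omega)
    have a1 := Y43_0e s u ((0)) hp0 (by omega) (by omega) (by omega)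
    exact ⟨j, Or.inr (Or.inr (Or.inr (Or.inr (Or.inr (⟨by omega, by omega⟩)))))⟩
  by_cases c9 : v ≤ 4 * s + 3 * u + 4
  · obtain ⟨j, hj⟩ : ∃ j, j = (2 * v - (6 * s + 6 * u + 9)) := ⟨_, rfl⟩
    have a0 := X43_0o s u (j) hp0 (by omega) (by omega) (by omega)
    exact ⟨j, Or.inl ⟨by omega, by omega⟩⟩
  by_cases c10 : v ≤ 4 * s + 4 * u + 4
  · obtain ⟨j, hj⟩ : ∃ j, j = (8 * s + 8 * u + 8 - (2 * v)) := ⟨_, rfl⟩
    have a0 := Y43_0e s u (j) hp0 (by omega) (by omega) (by omega)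
    exact ⟨j, Or.inr (Or.inr (Or.inr (Or.inl ⟨by omega, by omega⟩)))⟩
  by_cases c11 : v ≤ 5 * s + 4 * u + 4
  · obtain ⟨j, hj⟩ : ∃ j, j = (14 * u + 10 * s + 7 - (2 * v)) := ⟨_, rfl⟩
    have a0 := Y43_3o s u (j) hp0 (by omega) (by omega) (by omega)
    exact ⟨j, Or.inr (Or.inr (Or.inr (Or.inl ⟨by omega, by omega⟩)))⟩
  by_cases c12 : v ≤ 5 * s + 5 * u + 4
  · obtain ⟨j, hj⟩ : ∃ j, j = (2 * v - (6 * u + 10 * s + 11)) := ⟨_, rfl⟩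
    have a0 := Y43_1e s u (j) hp0 (by omega) (by omega) (by omega)
    exact ⟨j, Or.inr (Or.inr (Or.inr (Or.inl ⟨by omega, by omega⟩)))⟩
  by_cases c13 : v ≤ 5 * s + 5 * u + 5
  · obtain ⟨j, hj⟩ : ∃ j, j = (4 * s + 2) := ⟨_, rfl⟩
    have a0 := X43_2 s u (j) hp0 (by omega) (by omega)
    have a1 := X43_0e s u ((0)) hp0 (by omega) (by omega) (by omega)
    exact ⟨j, Or.inr (Or.inr (Or.inl ⟨by omega, by omega⟩))⟩
  by_cases c14 : v ≤ 6 * s + 5 * u + 6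
  · obtain ⟨j, hj⟩ : ∃ j, j = (14 * s + 10 * u + 13 - (2 * v)) := ⟨_, rfl⟩
    have a0 := X43_1e s u (j) hp0 (by omega) (by omega) (by omega)
    exact ⟨j, Or.inl ⟨by omega, by omega⟩⟩
  by_cases c15 : v ≤ 6 * s + 6 * u + 5
  · obtain ⟨j, hj⟩ : ∃ j, j = (16 * u + 12 * s + 10 - (2 * v)) := ⟨_, rfl⟩
    have a0 := Y43_2o s u (j) hp0 (by omega) (by omega) (by omega)
    exact ⟨j, Or.inr (Or.inr (Or.inr (Or.inl ⟨by omega, by omega⟩)))⟩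
  by_cases c16 : v ≤ 6 * s + 6 * u + 6
  · obtain ⟨j, hj⟩ : ∃ j, j = (6 * u + 2 * s - (1)) := ⟨_, rfl⟩
    have a0 := Y43_4 s u (j) hp0 (by omega) (by omega)
    exact ⟨j, Or.inr (Or.inr (Or.inr (Or.inl ⟨by omega, by omega⟩)))⟩
  by_cases c17 : v ≤ 6 * s + 8 * u + 4
  · by_cases d0 : (v - (6 * s + 6 * u + 7)) % 2 = 0
    · obtain ⟨j, hj⟩ : ∃ j, j = (v - (2 * u + 6 * s + 8)) := ⟨_, rfl⟩
      have a0 := Y43_2e s u (j) hp0 (by omega) (by omega) (by omega)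
      have a1 := Y43_2o s u ((j + 1)) hp0 (by omega) (by omega) (by omega)
      exact ⟨j, Or.inr (Or.inr (Or.inr (Or.inr (Or.inl ⟨by omega, by omega⟩))))⟩
    obtain ⟨j, hj⟩ : ∃ j, j = (v - (2 * u + 6 * s + 8)) := ⟨_, rfl⟩
    have a0 := Y43_2o s u (j) hp0 (by omega) (by omega) (by omega)
    have a1 := Y43_2e s u ((j + 1)) hp0 (by omega) (by omega) (by omega)
    exact ⟨j, Or.inr (Or.inr (Or.inr (Or.inr (Or.inl ⟨by omega, by omega⟩))))⟩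
  by_cases c18 : v ≤ 6 * s + 8 * u + 5
  · obtain ⟨j, hj⟩ : ∃ j, j = (2 * u - (2)) := ⟨_, rfl⟩
    have a0 := Y43_0e s u (j) hp0 (by omega) (by omega) (by omega)
    have a1 := Y43_1e s u ((j + 1)) hp0 (by omega) (by omega) (by omega)
    exact ⟨j, Or.inr (Or.inr (Or.inr (Or.inr (Or.inl ⟨by omega, by omega⟩))))⟩
  by_cases c19 : v ≤ 8 * s + 8 * u + 5
  · by_cases d0 : (v - (6 * s + 8 * u + 6)) % 2 = 0
    · obtain ⟨j, hj⟩ : ∃ j, j = (v - (4 * s + 8 * u + 5)) := ⟨_, rfl⟩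
      have a0 := X43_1e s u (j) hp0 (by omega) (by omega) (by omega)
      have a1 := X43_1o s u ((j + 1)) hp0 (by omega) (by omega) (by omega)
      exact ⟨j, Or.inr (Or.inl ⟨by omega, by omega⟩)⟩
    obtain ⟨j, hj⟩ : ∃ j, j = (v - (4 * s + 8 * u + 5)) := ⟨_, rfl⟩
    have a0 := X43_1o s u (j) hp0 (by omega) (by omega) (by omega)
    have a1 := X43_1e s u ((j + 1)) hp0 (by omega) (by omega) (by omega)
    exact ⟨j, Or.inr (Or.inl ⟨by omega, by omega⟩)⟩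
  by_cases c20 : v ≤ 8 * s + 8 * u + 6
  · obtain ⟨j, hj⟩ : ∃ j, j = (6 * u + 2 * s - (2)) := ⟨_, rfl⟩
    have a0 := Y43_3e s u (j) hp0 (by omega) (by omega) (by omega)
    have a1 := Y43_4 s u ((j + 1)) hp0 (by omega) (by omega)
    exact ⟨j, Or.inr (Or.inr (Or.inr (Or.inr (Or.inl ⟨by omega, by omega⟩))))⟩
  by_cases c21 : v ≤ 8 * s + 8 * u + 7
  · obtain ⟨j, hj⟩ : ∃ j, j = (6 * u + 2 * s) := ⟨_, rfl⟩
    have a0 := Y43_5 s u (j) hp0 (by omega) (by omega)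
    exact ⟨j, Or.inr (Or.inr (Or.inr (Or.inl ⟨by omega, by omega⟩)))⟩
  by_cases c22 : v ≤ 8 * s + 10 * u + 6
  · by_cases d0 : (v - (8 * s + 8 * u + 8)) % 2 = 0
    · obtain ⟨j, hj⟩ : ∃ j, j = (12 * u + 8 * s + 5 - (v)) := ⟨_, rfl⟩
      have a0 := Y43_1e s u (j) hp0 (by omega) (by omega) (by omega)
      have a1 := Y43_1o s u ((j + 1)) hp0 (by omega) (by omega) (by omega)
      exact ⟨j, Or.inr (Or.inr (Or.inr (Or.inr (Or.inl ⟨by omega, by omega⟩))))⟩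
    obtain ⟨j, hj⟩ : ∃ j, j = (12 * u + 8 * s + 5 - (v)) := ⟨_, rfl⟩
    have a0 := Y43_1o s u (j) hp0 (by omega) (by omega) (by omega)
    have a1 := Y43_1e s u ((j + 1)) hp0 (by omega) (by omega) (by omega)
    exact ⟨j, Or.inr (Or.inr (Or.inr (Or.inr (Or.inl ⟨by omega, by omega⟩))))⟩
  by_cases c23 : v ≤ 8 * s + 10 * u + 7
  · obtain ⟨j, hj⟩ : ∃ j, j = (2 * s) := ⟨_, rfl⟩
    have a0 := X43_0e s u (j) hp0 (by omega) (by omega) (by omega)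
    have a1 := X43_1e s u ((j + 1)) hp0 (by omega) (by omega) (by omega)
    exact ⟨j, Or.inr (Or.inl ⟨by omega, by omega⟩)⟩
  by_cases c24 : v ≤ 10 * s + 10 * u + 7
  · by_cases d0 : (v - (8 * s + 10 * u + 8)) % 2 = 0
    · obtain ⟨j, hj⟩ : ∃ j, j = (v - (4 * u + 8 * s + 10)) := ⟨_, rfl⟩
      have a0 := Y43_3e s u (j) hp0 (by omega) (by omega) (by omega)
      have a1 := Y43_3o s u ((j + 1)) hp0 (by omega) (by omega) (by omega)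
      exact ⟨j, Or.inr (Or.inr (Or.inr (Or.inr (Or.inl ⟨by omega, by omega⟩))))⟩
    obtain ⟨j, hj⟩ : ∃ j, j = (v - (4 * u + 8 * s + 10)) := ⟨_, rfl⟩
    have a0 := Y43_3o s u (j) hp0 (by omega) (by omega) (by omega)
    have a1 := Y43_3e s u ((j + 1)) hp0 (by omega) (by omega) (by omega)
    exact ⟨j, Or.inr (Or.inr (Or.inr (Or.inr (Or.inl ⟨by omega, by omega⟩))))⟩
  by_cases c25 : v ≤ 10 * s + 10 * u + 8
  · obtain ⟨j, hj⟩ : ∃ j, j = (4 * s + 2) := ⟨_, rfl⟩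
    have a0 := X43_2 s u (j) hp0 (by omega) (by omega)
    exact ⟨j, Or.inl ⟨by omega, by omega⟩⟩
  by_cases c26 : v ≤ 10 * s + 10 * u + 9
  · obtain ⟨j, hj⟩ : ∃ j, j = (4 * u - (2)) := ⟨_, rfl⟩
    have a0 := Y43_1o s u (j) hp0 (by omega) (by omega) (by omega)
    have a1 := Y43_2e s u ((j + 1)) hp0 (by omega) (by omega) (by omega)
    exact ⟨j, Or.inr (Or.inr (Or.inr (Or.inr (Or.inl ⟨by omega, by omega⟩))))⟩
  by_cases c27 : v ≤ 10 * s + 12 * u + 7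
  · by_cases d0 : (v - (10 * s + 10 * u + 10)) % 2 = 0
    · obtain ⟨j, hj⟩ : ∃ j, j = (v - (10 * s + 10 * u + 10)) := ⟨_, rfl⟩
      have a0 := Y43_0e s u (j) hp0 (by omega) (by omega) (by omega)
      have a1 := Y43_0o s u ((j + 1)) hp0 (by omega) (by omega) (by omega)
      exact ⟨j, Or.inr (Or.inr (Or.inr (Or.inr (Or.inl ⟨by omega, by omega⟩))))⟩
    obtain ⟨j, hj⟩ : ∃ j, j = (v - (10 * s + 10 * u + 10)) := ⟨_, rfl⟩
    have a0 := Y43_0o s u (j) hp0 (by omega) (by omega) (by omega)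
    have a1 := Y43_0e s u ((j + 1)) hp0 (by omega) (by omega) (by omega)
    exact ⟨j, Or.inr (Or.inr (Or.inr (Or.inr (Or.inl ⟨by omega, by omega⟩))))⟩
  by_cases c28 : v ≤ 10 * s + 12 * u + 8
  · obtain ⟨j, hj⟩ : ∃ j, j = (6 * u - (3)) := ⟨_, rfl⟩
    have a0 := Y43_2e s u (j) hp0 (by omega) (by omega) (by omega)
    have a1 := Y43_3e s u ((j + 1)) hp0 (by omega) (by omega) (by omega)
    exact ⟨j, Or.inr (Or.inr (Or.inr (Or.inr (Or.inl ⟨by omega, by omega⟩))))⟩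
  by_cases d0 : (v - (10 * s + 12 * u + 9)) % 2 = 0
  · obtain ⟨j, hj⟩ : ∃ j, j = (12 * s + 12 * u + 8 - (v)) := ⟨_, rfl⟩
    have a0 := X43_0o s u (j) hp0 (by omega) (by omega) (by omega)
    have a1 := X43_0e s u ((j + 1)) hp0 (by omega) (by omega) (by omega)
    exact ⟨j, Or.inr (Or.inl ⟨by omega, by omega⟩)⟩
  obtain ⟨j, hj⟩ : ∃ j, j = (12 * s + 12 * u + 8 - (v)) := ⟨_, rfl⟩
  have a0 := X43_0e s u (j) hp0 (by omega) (by omega) (by omega)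
  have a1 := X43_0o s u ((j + 1)) hp0 (by omega) (by omega) (by omega)
  exact ⟨j, Or.inr (Or.inl ⟨by omega, by omega⟩)⟩

end Pool.Agent.H35.TwoCyc
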