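import Mathlib

set_option autoImplicit false

namespace Pool.Agent.H35.VC

/-- The generalized progression `P(a, N)`: values of words in the letters `(i, true) = a i` and
`(i, false) = (a i)⁻¹` in which, for every `i`, these two letters occur at most `N i` times
together. -/
def Prog {G : Type} [Group G] {k : ℕ} (a : Fin k → G) (N : Fin k → ℕ) : Set G :=
  {g | ∃ w : List (Fin k × Bool), (∀ i, w.countP (fun x => x.1 = i) ≤ N i) ∧
    g = (w.map fun x => if x.2 then a x.1 else (a x.1)⁻¹).prod}

/-- The left translates `gA` of `A` shatter the finite set `Y`. -/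
def TranslatesShatter {G : Type} [Group G] (A : Set G) (Y : Finset G) : Prop :=
  ∀ B : Set G, B ⊆ ↑Y → ∃ g : G, ((fun x => g * x) '' A) ∩ ↑Y = B

end Pool.Agent.H35.VC
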