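import Mathlib
import Pool.Agent.H35.VCDefs

set_option autoImplicit false

namespace Pool.Agent.H35.VC

open Finset

theorem mem_prog {G : Type} [CommGroup G] {k : ℕ} (a : Fin k → G) (N : Fin k → ℕ) (g : G) :
    g ∈ Prog a N ↔ ∃ n : Fin k → ℤ, (∀ i, |n i| ≤ N i) ∧ g = ∏ i, a i ^ n i := by
  constructor
  · rintro ⟨w, hw, rfl⟩
    have : ∃ n : Fin k → ℤ, (∀ i, |n i| ≤ (w.countP (fun x => x.1 = i) : ℕ)) ∧
        (w.map fun x => if x.2 then a x.1 else (a x.1)⁻¹).prod = ∏ i, a i ^ n i := by
      clear hw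
      induction w with
      | nil => exact ⟨0, by simp, by simp⟩
      | cons x w ih =>
        obtain ⟨n, h1, h2⟩ := ih
        refine ⟨n + Pi.single x.1 (if x.2 then 1 else -1), fun i => ?_, ?_⟩
        · have := h1 i
          rw [List.countP_cons]
          by_cases e : x.1 = i
          · subst e
            simp only [Pi.add_apply, Pi.single_eq_same, decide_true, if_true]
            push_cast
            refine (abs_add_le _ _).trans (add_le_add this ?_)
            split_ifs <;> simp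
          · simpa [Pi.single_eq_of_ne (Ne.symm e), e] using this
        · simp only [List.map_cons, List.prod_cons, h2, Pi.add_apply, zpow_add, prod_mul_distrib]
          rw [mul_comm]
          congr 1
          rw [prod_eq_single x.1]
          · split_ifs <;> simp
          · intro b _ hb
            simp [Pi.single_eq_of_ne hb]
          · simp
    obtain ⟨n, h1, h2⟩ := this
    exact ⟨n, fun i => (h1 i).trans (by exact_mod_cast hw i), h2⟩
  · rintro ⟨n, hn, rfl⟩
    have : ∀ S : Finset (Fin k), ∃ w : List (Fin k × Bool),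
        (∀ i, w.countP (fun x => x.1 = i) = if i ∈ S then (n i).natAbs else 0) ∧
        ∏ i ∈ S, a i ^ n i = (w.map fun x => if x.2 then a x.1 else (a x.1)⁻¹).prod := by
      intro S
      induction S using Finset.induction_on with
      | empty => exact ⟨[], by simp, by simp⟩
      | insert j S hj ih =>
        obtain ⟨w, h1, h2⟩ := ih
        refine ⟨List.replicate (n j).natAbs (j, decide (0 ≤ n j)) ++ w, fun i => ?_, ?_⟩
        · rw [List.countP_append, List.countP_replicate, h1 i]
          by_cases e : j = i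
          · subst e; simp [hj]
          · simp [e, Ne.symm e]
        · rw [prod_insert hj, h2, List.map_append, List.prod_append, List.map_replicate,
            List.prod_replicate]
          congr 1
          by_cases e : 0 ≤ n j
          · simp only [e, decide_true, if_true]
            rw [← zpow_natCast, Int.natAbs_of_nonneg e]
          · simp only [e, decide_false, Bool.false_eq_true, if_false]
            rw [inv_pow, ← zpow_natCast, ← zpow_neg]
            congr 1
            omega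
    obtain ⟨w, h1, h2⟩ := this univ
    refine ⟨w, fun i => ?_, h2⟩
    rw [h1 i, if_pos (mem_univ _)]
    have := hn i
    rw [Int.abs_eq_natAbs] at this
    exact_mod_cast this

def U : ℕ → ℤ
  | 0 => 0
  | 1 => 1
  | n + 2 => 4 * U (n + 1) - U n

theorem U_bd (n : ℕ) : 0 ≤ U n ∧ 3 * U n < U (n + 1) := by
  induction n with
  | zero => simp [U]
  | succ n ih => rw [U]; constructor <;> linarith [ih.1, ih.2]

theorem U_sum (n : ℕ) : 2 * ∑ k ∈ range (n + 1), U k < U (n + 1) := by
  induction n with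
  | zero => simp [U]
  | succ n ih => rw [sum_range_succ]; linarith [(U_bd (n + 1)).2]

theorem U_add (a b : ℕ) : U (a + 1) * U (b + 1) - U a * U b = U (a + b + 1) := by
  induction a using Nat.strong_induction_on generalizing b with
  | _ a ih =>
    match a with
    | 0 => simp [U]
    | a + 1 =>
      have := ih a (by omega) (b + 1)
      rw [show a + 1 + b + 1 = a + (b + 1) + 1 by ring, ← this, U, U]
      ring

theorem U_sub (a b : ℕ) : U (a + 1) * U (a + b) - U a * U (a + b + 1) = U b := by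
  induction a with
  | zero => simp [U]
  | succ a ih =>
    rw [show a + 1 + b = a + b + 1 by ring, ← ih, U, U]
    ring

theorem key (D : ℕ) (B : ℕ → Prop) : ∃ u : ℤ, ∀ j, 1 ≤ j → j < D + 1 →
    ((∃ q r : ℤ, 0 ≤ q ∧ q ≤ ∑ k ∈ range j, U k ∧ 0 ≤ r ∧ r ≤ ∑ k ∈ range (D + 1 - j), U k ∧
      U (D + 1) ∣ u - (q * U D + r)) ↔ B j) := by
  classical
  let d : ℕ → ℤ := fun k => if B k then 0 else 1
  have d0 : ∀ k, 0 ≤ d k := fun k => by simp only [d]; split_ifs <;> norm_num
  have d1 : ∀ k, d k ≤ 1 := fun k => by simp only [d]; split_ifs <;> norm_num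
  have hc : ∀ k, k < D + 1 → U (D + 1) ∣ U (D + 1 - k) - U k * U D := by
    intro k hk
    match k with
    | 0 => simp [U]
    | k + 1 =>
      have := U_sub k (D - k)
      rw [show k + (D - k) = D by omega] at this
      rw [show D + 1 - (k + 1) = D - k by omega, ← this]
      exact ⟨-U k, by ring⟩
  refine ⟨∑ k ∈ range (D + 1), d k * U (D + 1 - k), fun j h1 h2 => ?_⟩
  set q0 := ∑ k ∈ range j, d k * U k with hq0
  set r0 := ∑ k ∈ range (D + 1 - j), d (D + 1 - k) * U k with hr0
  have a1 : 0 ≤ q0 := sum_nonneg fun k _ => mul_nonneg (d0 k) (U_bd k).1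
  have a2 : q0 ≤ ∑ k ∈ range j, U k :=
    sum_le_sum fun k _ => by nlinarith [d1 k, (U_bd k).1]
  have a3 : 0 ≤ r0 := sum_nonneg fun k _ => mul_nonneg (d0 _) (U_bd k).1
  have a4 : r0 ≤ ∑ k ∈ range (D + 1 - j), U k :=
    sum_le_sum fun k _ => by nlinarith [d1 (D + 1 - k), (U_bd k).1]
  have split : ∑ k ∈ range (D + 1), d k * U (D + 1 - k) =
      ∑ k ∈ range j, d k * U (D + 1 - k) + d j * U (D + 1 - j) + r0 := by
    rw [← sum_range_succ (fun k => d k * U (D + 1 - k)),
      ← sum_range_add_sum_Ico _ (show j + 1 ≤ D + 1 by omega), hr0]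
    congr 1
    rw [show D + 1 - j = (D - j) + 1 by omega, sum_range_succ', sum_Ico_eq_sum_range,
      show D + 1 - (j + 1) = D - j by omega, ← sum_range_reflect]
    simp only [U, mul_zero, add_zero]
    refine sum_congr rfl fun k hk => ?_
    have := mem_range.1 hk
    rw [show j + 1 + (D - j - 1 - k) = D + 1 - (k + 1) by omega,
      show D + 1 - (D + 1 - (k + 1)) = k + 1 by omega]
  have dv : U (D + 1) ∣ ∑ k ∈ range j, d k * U (D + 1 - k) - q0 * U D := by
    rw [hq0, sum_mul, ← sum_sub_distrib]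
    refine dvd_sum fun k hk => ?_
    have := (hc k (by have := mem_range.1 hk; omega)).mul_left (d k)
    convert this using 1
    ring
  rw [split]
  constructor
  · rintro ⟨q, r, b1, b2, b3, b4, b5⟩
    by_contra hB
    have dj : d j = 1 := if_neg hB
    rw [dj] at b5
    obtain ⟨i, rfl⟩ : ∃ i, j = i + 1 := ⟨j - 1, by omega⟩
    obtain ⟨l, rfl⟩ : ∃ l, D = i + 1 + l := ⟨D - (i + 1), by omega⟩
    have c1 := hc (i + 1) h2
    rw [show i + 1 + l + 1 - (i + 1) = l + 1 by omega] at *
    have s1 := U_sum i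
    have s2 := U_sum l
    have e := U_add (i + 1) l
    have p1 := U_bd i
    have p2 := U_bd l
    have p3 := U_bd (i + 1)
    have f : U (i + 1 + l + 1) ∣
        U (i + 1) * U (l + 1) - (q - q0) * U (l + 1) - (r - r0) * U (i + 1) := by
      have := ((b5.sub dv).mul_left (U (i + 1))).sub (c1.mul_left (q - q0))
      have e2 : ∀ s1 : ℤ, U (i + 1) * (s1 + 1 * U (l + 1) + r0 - (q * U (i + 1 + l) + r) -
          (s1 - q0 * U (i + 1 + l))) - (q - q0) * (U (l + 1) - U (i + 1) * U (i + 1 + l)) =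
          U (i + 1) * U (l + 1) - (q - q0) * U (l + 1) - (r - r0) * U (i + 1) := by
        intro s1; ring
      rwa [e2] at this
    have g1 : 0 < U (i + 1) := by linarith [p1.1, p1.2]
    have g2 : 0 < U (l + 1) := by linarith [p2.1, p2.2]
    have x1 : 2 * (q - q0) < U (i + 1) := by linarith
    have x2 : -U (i + 1) < 2 * (q - q0) := by linarith
    have y1 : 2 * (r - r0) < U (l + 1) := by linarith
    have y2 : -U (l + 1) < 2 * (r - r0) := by linarith
    have := Int.le_of_dvd (by nlinarith) f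
    have z1 : U (i + 1) * U l ≤ U (i + 1) * U (l + 1) := by nlinarith [p2.1, p2.2]
    have z2 : 3 * U (i + 1) * U (l + 1) ≤ U (i + 1 + 1) * U (l + 1) := by nlinarith [p3.2]
    nlinarith
  · intro hB
    have dj : d j = 0 := if_pos hB
    refine ⟨q0, r0, a1, a2, a3, a4, ?_⟩
    convert dv using 1
    rw [dj]; ring

theorem main (m C : ℕ) : ∃ (G : Type) (_ : CommGroup G) (a : Fin (m + 4) → G)
    (N : Fin (m + 4) → ℕ) (Y : Finset G), C < Y.card ∧ TranslatesShatter (Prog a N) Y := by
  classical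
  let D := C + 1
  let M := (U (D + 1)).toNat
  have hM : (M : ℤ) = U (D + 1) := Int.toNat_of_nonneg (U_bd _).1
  let α : ZMod M := (U D : ℤ)
  let a : Fin (m + 4) → Multiplicative (ZMod M × ℤ × ℤ) := fun i => Multiplicative.ofAdd
    (if i.1 = 0 then (α, 1, 0) else if i.1 = 1 then (1, 0, 1) else if i.1 = 2 then (0, 1, 0)
      else if i.1 = 3 then (0, 0, 1) else 0)
  let S : ℕ → ℤ := fun j => ∑ k ∈ range j, U k
  have S0 : ∀ j, 0 ≤ S j := fun j => sum_nonneg fun k _ => (U_bd k).1
  have SM : ∀ j, j ≤ D + 1 → S j ≤ M := by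
    intro j hj
    have h1 : S j ≤ S (D + 1) :=
      sum_le_sum_of_subset_of_nonneg (range_mono hj) fun k _ _ => (U_bd k).1
    have := U_sum D
    have := S0 (D + 1)
    rw [hM]
    simp only [S] at *
    linarith
  have hP : ∀ (u Q δ : ℤ), 0 ≤ Q → Q ≤ M → 0 ≤ δ → δ ≤ M →
      (Multiplicative.ofAdd ((u : ZMod M) - M * α - M, Q - 2 * M, δ - 2 * M) ∈
        Prog a (fun _ => M) ↔
      ∃ q r : ℤ, 0 ≤ q ∧ q ≤ Q ∧ 0 ≤ r ∧ r ≤ δ ∧ U (D + 1) ∣ u - (q * U D + r)) := by
    intro u Q δ h1 h2 h3 h4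
    have hp : ∀ n : Fin (m + 4) → ℤ, ∏ i, a i ^ n i = Multiplicative.ofAdd
        ((n ⟨0, by omega⟩ : ZMod M) * α + n ⟨1, by omega⟩, n ⟨0, by omega⟩ + n ⟨2, by omega⟩,
          n ⟨1, by omega⟩ + n ⟨3, by omega⟩) := by
      intro n
      rw [Fin.prod_univ_succ, Fin.prod_univ_succ, Fin.prod_univ_succ, Fin.prod_univ_succ]
      have : ∀ i : Fin m, a i.succ.succ.succ.succ = 1 := fun i => by simp [a]
      simp only [this, one_zpow, prod_const_one, mul_one]
      change Multiplicative.ofAdd ((α, 1, 0) : ZMod M × ℤ × ℤ) ^ n ⟨0, by omega⟩ *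
        (Multiplicative.ofAdd ((1, 0, 1) : ZMod M × ℤ × ℤ) ^ n ⟨1, by omega⟩ *
        (Multiplicative.ofAdd ((0, 1, 0) : ZMod M × ℤ × ℤ) ^ n ⟨2, by omega⟩ *
        Multiplicative.ofAdd ((0, 0, 1) : ZMod M × ℤ × ℤ) ^ n ⟨3, by omega⟩)) = _
      simp only [← ofAdd_zsmul, ← ofAdd_add]
      congr 1
      ext <;> simp
    rw [mem_prog]
    simp only [hp, EmbeddingLike.apply_eq_iff_eq, Prod.mk.injEq]
    constructor
    · rintro ⟨n, hn, e1, e2, e3⟩
      have := abs_le.1 (hn ⟨0, by omega⟩)
      have := abs_le.1 (hn ⟨1, by omega⟩)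
      have := abs_le.1 (hn ⟨2, by omega⟩)
      have := abs_le.1 (hn ⟨3, by omega⟩)
      refine ⟨n ⟨0, by omega⟩ + M, n ⟨1, by omega⟩ + M, by omega, by omega, by omega, by omega, ?_⟩
      rw [← hM, ← ZMod.intCast_zmod_eq_zero_iff_dvd]
      push_cast
      simp only [α] at e1
      linear_combination e1
    · rintro ⟨q, r, b1, b2, b3, b4, b5⟩
      rw [← hM, ← ZMod.intCast_zmod_eq_zero_iff_dvd] at b5
      push_cast at b5
      refine ⟨fun i => if i.1 = 0 then q - M else if i.1 = 1 then r - M else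
        if i.1 = 2 then Q - q - M else if i.1 = 3 then δ - r - M else 0, fun i => ?_, ?_, ?_, ?_⟩
      · rw [abs_le]
        beta_reduce
        split_ifs <;> omega
      · simp only [α]
        norm_num
        linear_combination b5
      · norm_num
        ring
      · norm_num
        ring
  let y : ℕ → Multiplicative (ZMod M × ℤ × ℤ) := fun j =>
    Multiplicative.ofAdd (0, S j, S (D + 1 - j))
  have hs : ∀ B : ℕ → Prop, ∃ g, ∀ j ∈ Ico 1 (D + 1),
      (y j ∈ (fun x => g * x) '' Prog a (fun _ => M) ↔ B j) := by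
    intro B
    obtain ⟨u, hu⟩ := key D B
    refine ⟨Multiplicative.ofAdd (-((u : ZMod M) - M * α - M), 2 * M, 2 * M), fun j hj => ?_⟩
    rw [mem_Ico] at hj
    rw [← hu j hj.1 hj.2, ← hP u _ _ (S0 j) (SM j (by omega)) (S0 _) (SM _ (by omega)),
      Set.image_mul_left, Set.mem_preimage]
    simp only [y, ← ofAdd_neg, ← ofAdd_add]
    rw [iff_eq_eq]
    congr 2
    ext
    · simp
    · simp only [Prod.neg_mk, Prod.mk_add_mk]; ring
    · simp only [Prod.neg_mk, Prod.mk_add_mk]; ring
  refine ⟨_, inferInstance, a, fun _ => M, (Ico 1 (D + 1)).image y, ?_, ?_⟩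
  · rw [card_image_of_injOn]
    · simp [D]
    · intro i hi j hj e
      obtain ⟨g, hg⟩ := hs (fun k => k = j)
      exact (hg i hi).1 (e ▸ (hg j hj).2 rfl)
  · intro B hB
    obtain ⟨g, hg⟩ := hs (fun k => y k ∈ B)
    refine ⟨g, Set.ext fun x => ⟨?_, fun hx => ?_⟩⟩
    · rintro ⟨h1, h2⟩
      obtain ⟨j, hj, rfl⟩ := mem_image.1 h2
      exact (hg j hj).1 h1
    · obtain ⟨j, hj, rfl⟩ := mem_image.1 (hB hx)
      exact ⟨(hg j hj).2 hx, hB hx⟩

end Pool.Agent.H35.VC
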