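import Mathlib

set_option autoImplicit false

namespace Pool.Agent.H35.Wp

abbrev E := EuclideanSpace ℝ (Fin 2)

noncomputable def cu (x : E) : ℝ := x 0 - x 1 / Real.sqrt 3
noncomputable def cv (x : E) : ℝ := 2 * x 1 / Real.sqrt 3
noncomputable def pt (u v : ℝ) : E := !₂[u + v / 2, Real.sqrt 3 / 2 * v]

theorem s3 : Real.sqrt 3 ≠ 0 := by positivity
theorem s3' : Real.sqrt 3 * Real.sqrt 3 = 3 := Real.mul_self_sqrt (by norm_num)

@[simp] theorem cu_pt (u v : ℝ) : cu (pt u v) = u := by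
  have := s3
  simp only [cu, pt, Matrix.cons_val_zero, Matrix.cons_val_one]
  field_simp
  ring

@[simp] theorem cv_pt (u v : ℝ) : cv (pt u v) = v := by
  have := s3
  simp only [cv, pt, Matrix.cons_val_zero, Matrix.cons_val_one]
  field_simp

theorem x1 (x : E) : x 1 = Real.sqrt 3 / 2 * cv x := by
  have := s3
  simp only [cv]
  field_simp

theorem x0 (x : E) : x 0 = cu x + cv x / 2 := by
  simp only [cv, cu]
  ring

theorem ext_c {x y : E} (h1 : cu x = cu y) (h2 : cv x = cv y) : x = y := by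
  ext i
  fin_cases i
  · change x 0 = y 0
    rw [x0, x0, h1, h2]
  · change x 1 = y 1
    rw [x1, x1, h2]

theorem dsq (x y : E) : dist x y ^ 2 =
    (cu x - cu y) ^ 2 + (cu x - cu y) * (cv x - cv y) + (cv x - cv y) ^ 2 := by
  rw [EuclideanSpace.dist_eq, Real.sq_sqrt (by positivity), Fin.sum_univ_two, Real.dist_eq,
    Real.dist_eq, sq_abs, sq_abs, x0 x, x0 y, x1 x, x1 y]
  have := s3'
  linear_combination ((cv x - cv y) ^ 2 / 4) * this

theorem cu_add (x y : E) : cu (x + y) = cu x + cu y := by simp [cu]; ring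
theorem cv_add (x y : E) : cv (x + y) = cv x + cv y := by simp [cv]; ring
theorem cu_smul (r : ℝ) (x : E) : cu (r • x) = r * cu x := by simp [cu]; ring
theorem cv_smul (r : ℝ) (x : E) : cv (r • x) = r * cv x := by simp [cv]; ring
theorem cu_cont : Continuous cu := by unfold cu; fun_prop
theorem cv_cont : Continuous cv := by unfold cv; fun_prop

abbrev P6 := ℤ × ℤ × ℤ × ℤ × ℤ × ℤ

def comp (p q : P6) : P6 :=
  (p.1 * q.1 + p.2.1 * q.2.2.1, p.1 * q.2.1 + p.2.1 * q.2.2.2.1,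
    p.2.2.1 * q.1 + p.2.2.2.1 * q.2.2.1, p.2.2.1 * q.2.1 + p.2.2.2.1 * q.2.2.2.1,
    p.1 * q.2.2.2.2.1 + p.2.1 * q.2.2.2.2.2 + p.2.2.2.2.1,
    p.2.2.1 * q.2.2.2.2.1 + p.2.2.2.1 * q.2.2.2.2.2 + p.2.2.2.2.2)

def one : P6 := (1, 0, 0, 1, 0, 0)

def MS : List (ℤ × ℤ × ℤ × ℤ) :=
  [(-1, -1, 0, 1), (-1, -1, 1, 0), (-1, 0, 0, -1), (-1, 0, 1, 1), (0, -1, -1, 0), (0, -1, 1, 1),
    (0, 1, -1, -1), (0, 1, 1, 0), (1, 0, -1, -1), (1, 0, 0, 1), (1, 1, -1, 0), (1, 1, 0, -1)]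

def Orth (p : P6) : Prop := (p.1, p.2.1, p.2.2.1, p.2.2.2.1) ∈ MS

def act (p : P6) (m : ℤ × ℤ) : ℤ × ℤ :=
  (p.1 * m.1 + p.2.1 * m.2 + 2 * p.2.2.2.2.1, p.2.2.1 * m.1 + p.2.2.2.1 * m.2 + 2 * p.2.2.2.2.2)

def Rep (g : E ≃ᵢ E) (p : P6) : Prop :=
  ∀ x, cu (g x) = p.1 * cu x + p.2.1 * cv x + p.2.2.2.2.1 ∧
    cv (g x) = p.2.2.1 * cu x + p.2.2.2.1 * cv x + p.2.2.2.2.2

theorem Orth.comp {p q : P6} (hp : Orth p) (hq : Orth q) : Orth (comp p q) := by
  have : ∀ x ∈ MS, ∀ y ∈ MS, (x.1 * y.1 + x.2.1 * y.2.2.1, x.1 * y.2.1 + x.2.1 * y.2.2.2,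
    x.2.2.1 * y.1 + x.2.2.2 * y.2.2.1, x.2.2.1 * y.2.1 + x.2.2.2 * y.2.2.2) ∈ MS := by decide
  exact this _ hp _ hq

theorem Orth.inv {p : P6} (hp : Orth p) : ∃ q, Orth q ∧ Wp.comp p q = one ∧ Wp.comp q p = one := by
  obtain ⟨a, b, c, d, s, t⟩ := p
  have : ∀ x ∈ MS, ∃ y ∈ MS, x.1 * y.1 + x.2.1 * y.2.2.1 = 1 ∧ x.1 * y.2.1 + x.2.1 * y.2.2.2 = 0 ∧
    x.2.2.1 * y.1 + x.2.2.2 * y.2.2.1 = 0 ∧ x.2.2.1 * y.2.1 + x.2.2.2 * y.2.2.2 = 1 ∧
    y.1 * x.1 + y.2.1 * x.2.2.1 = 1 ∧ y.1 * x.2.1 + y.2.1 * x.2.2.2 = 0 ∧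
    y.2.2.1 * x.1 + y.2.2.2 * x.2.2.1 = 0 ∧ y.2.2.1 * x.2.1 + y.2.2.2 * x.2.2.2 = 1 := by decide
  obtain ⟨⟨A, B, C, D⟩, hy, h1, h2, h3, h4, h5, h6, h7, h8⟩ := this _ hp
  simp only at h1 h2 h3 h4 h5 h6 h7 h8
  refine ⟨(A, B, C, D, -(A * s + B * t), -(C * s + D * t)), hy, ?_, ?_⟩
  · simp only [Wp.comp, one, Prod.mk.injEq]
    refine ⟨h1, h2, h3, h4, ?_, ?_⟩
    · linear_combination (-s) * h1 - t * h2
    · linear_combination (-s) * h3 - t * h4
  · simp only [Wp.comp, one, Prod.mk.injEq]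
    exact ⟨h5, h6, h7, h8, by ring, by ring⟩

theorem Orth.form {p : P6} (hp : Orth p) : p.1 ^ 2 + p.1 * p.2.2.1 + p.2.2.1 ^ 2 = 1 ∧
    p.2.1 ^ 2 + p.2.1 * p.2.2.2.1 + p.2.2.2.1 ^ 2 = 1 ∧
    2 * p.1 * p.2.1 + p.1 * p.2.2.2.1 + p.2.1 * p.2.2.1 + 2 * p.2.2.1 * p.2.2.2.1 = 1 := by
  have : ∀ x ∈ MS, x.1 ^ 2 + x.1 * x.2.2.1 + x.2.2.1 ^ 2 = 1 ∧
    x.2.1 ^ 2 + x.2.1 * x.2.2.2 + x.2.2.2 ^ 2 = 1 ∧
    2 * x.1 * x.2.1 + x.1 * x.2.2.2 + x.2.1 * x.2.2.1 + 2 * x.2.2.1 * x.2.2.2 = 1 := by decide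
  exact this _ hp

noncomputable def app (p : P6) (x : E) : E :=
  pt (p.1 * cu x + p.2.1 * cv x + p.2.2.2.2.1) (p.2.2.1 * cu x + p.2.2.2.1 * cv x + p.2.2.2.2.2)

theorem app_comp (p q : P6) (x : E) : app p (app q x) = app (comp p q) x := by
  apply ext_c <;> simp [app, comp] <;> ring

theorem app_one (x : E) : app one x = x := by
  apply ext_c <;> simp [app, one]

theorem exists_rep {p : P6} (hp : Orth p) : ∃ g, Rep g p := by
  obtain ⟨q, -, h1, h2⟩ := hp.inv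
  obtain ⟨f1, f2, f3⟩ := hp.form
  refine ⟨⟨⟨app p, app q, fun x => by rw [app_comp, h2, app_one],
    fun x => by rw [app_comp, h1, app_one]⟩, ?_⟩, fun x => ⟨cu_pt _ _, cv_pt _ _⟩⟩
  refine Isometry.of_dist_eq fun x y => ?_
  have : dist (app p x) (app p y) ^ 2 = dist x y ^ 2 := by
    rw [dsq, dsq]
    simp only [app, cu_pt, cv_pt]
    have g1 : ((p.1 : ℝ)) ^ 2 + p.1 * p.2.2.1 + p.2.2.1 ^ 2 = 1 := by exact_mod_cast f1
    have g2 : ((p.2.1 : ℝ)) ^ 2 + p.2.1 * p.2.2.2.1 + p.2.2.2.1 ^ 2 = 1 := by exact_mod_cast f2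
    have g3 : 2 * (p.1 : ℝ) * p.2.1 + p.1 * p.2.2.2.1 + p.2.1 * p.2.2.1 +
      2 * p.2.2.1 * p.2.2.2.1 = 1 := by exact_mod_cast f3
    linear_combination (cu x - cu y) ^ 2 * g1 + (cv x - cv y) ^ 2 * g2 +
      (cu x - cu y) * (cv x - cv y) * g3
  exact (sq_eq_sq₀ dist_nonneg dist_nonneg).1 this

theorem Rep.mul {g h : E ≃ᵢ E} {p q : P6} (hg : Rep g p) (hh : Rep h q) :
    Rep (g * h) (comp p q) := by
  intro x
  have a := hg (h x)
  have b := hh x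
  simp only [IsometryEquiv.mul_apply, comp]
  rw [a.1, a.2, b.1, b.2]
  push_cast
  constructor <;> ring

theorem rep_one : Rep 1 one := fun x => by simp [one]

theorem Rep.eq {g h : E ≃ᵢ E} {p : P6} (hg : Rep g p) (hh : Rep h p) : g = h := by
  ext1 x
  exact ext_c ((hg x).1.trans (hh x).1.symm) ((hg x).2.trans (hh x).2.symm)

theorem Rep.uniq {g : E ≃ᵢ E} {p q : P6} (hg : Rep g p) (hh : Rep g q) : p = q := by
  obtain ⟨a, b, c, d, s, t⟩ := p
  obtain ⟨A, B, C, D, S, T⟩ := q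
  have h0 := hg (pt 0 0)
  have h1 := hg (pt 1 0)
  have h2 := hg (pt 0 1)
  have k0 := hh (pt 0 0)
  have k1 := hh (pt 1 0)
  have k2 := hh (pt 0 1)
  simp only [cu_pt, cv_pt] at h0 h1 h2 k0 k1 k2
  simp only [Prod.mk.injEq]
  refine ⟨?_, ?_, ?_, ?_, ?_, ?_⟩ <;> apply Int.cast_injective (α := ℝ) <;>
    linarith [h0.1, h0.2, h1.1, h1.2, h2.1, h2.2, k0.1, k0.2, k1.1, k1.2, k2.1, k2.2]

theorem Rep.inv {g : E ≃ᵢ E} {p : P6} (hp : Orth p) (hg : Rep g p) :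
    ∃ q, Orth q ∧ Rep g⁻¹ q := by
  obtain ⟨q, hq, h1, -⟩ := hp.inv
  obtain ⟨g', hg'⟩ := exists_rep hq
  have := hg.mul hg'
  rw [h1] at this
  exact ⟨q, hq, by rwa [inv_eq_of_mul_eq_one_right (this.eq rep_one)]⟩

def cc (n : ℤ) (y : ℝ) : Prop := n % 2 = 1 → |2 * y - n| ≤ 1

theorem cc_pos {n n' t : ℤ} {y y' : ℝ} (h1 : n' = n + 2 * t) (h2 : y' = y + t) :
    cc n' y' ↔ cc n y := by
  subst h1 h2
  unfold cc
  rw [show 2 * (y + t) - ((n + 2 * t : ℤ) : ℝ) = 2 * y - n by push_cast; ring,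
    show (n + 2 * t) % 2 = n % 2 by omega]

theorem cc_neg {n n' t : ℤ} {y y' : ℝ} (h1 : n' = -n + 2 * t) (h2 : y' = -y + t) :
    cc n' y' ↔ cc n y := by
  subst h1 h2
  unfold cc
  rw [show 2 * (-y + t) - ((-n + 2 * t : ℤ) : ℝ) = -(2 * y - n) by push_cast; ring,
    show (-n + 2 * t) % 2 = n % 2 by omega, abs_neg]

/-- the rhombus whose centre has lattice coordinates `m / 2`. -/
def Tile (m : ℤ × ℤ) : Set E :=
  {x | cc m.1 (cu x) ∧ cc m.2 (cv x) ∧ cc (m.1 + m.2) (cu x + cv x)}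

theorem tile_mem {g : E ≃ᵢ E} {p : P6} (hp : Orth p) (hg : Rep g p) (m : ℤ × ℤ) (x : E) :
    g x ∈ Tile (act p m) ↔ x ∈ Tile m := by
  obtain ⟨a, b, c, d, s, t⟩ := p
  obtain ⟨h1, h2⟩ := hg x
  simp only [Tile, act, Set.mem_ofPred_eq, h1, h2]
  simp only [Orth, MS, List.mem_cons, Prod.mk.injEq, List.not_mem_nil, or_false] at hp
  rcases hp with h | h | h | h | h | h | h | h | h | h | h | h <;>
    obtain ⟨rfl, rfl, rfl, rfl⟩ := h
  · exact (and_congr (cc_neg (n := m.1 + m.2) (y := cu x + cv x) (t := s) (by ring) (by push_cast; ring))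
      (and_congr (cc_pos (n := m.2) (y := cv x) (t := t) (by ring) (by push_cast; ring))
      (cc_neg (n := m.1) (y := cu x) (t := s + t) (by ring) (by push_cast; ring)))).trans
      ⟨fun h => ⟨h.2.2, h.2.1, h.1⟩, fun h => ⟨h.2.2, h.2.1, h.1⟩⟩
  · exact (and_congr (cc_neg (n := m.1 + m.2) (y := cu x + cv x) (t := s) (by ring) (by push_cast; ring))
      (and_congr (cc_pos (n := m.1) (y := cu x) (t := t) (by ring) (by push_cast; ring))
      (cc_neg (n := m.2) (y := cv x) (t := s + t) (by ring) (by push_cast; ring)))).trans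
      ⟨fun h => ⟨h.2.1, h.2.2, h.1⟩, fun h => ⟨h.2.2, h.1, h.2.1⟩⟩
  · exact (and_congr (cc_neg (n := m.1) (y := cu x) (t := s) (by ring) (by push_cast; ring))
      (and_congr (cc_neg (n := m.2) (y := cv x) (t := t) (by ring) (by push_cast; ring))
      (cc_neg (n := m.1 + m.2) (y := cu x + cv x) (t := s + t) (by ring) (by push_cast; ring)))).trans
      ⟨fun h => ⟨h.1, h.2.1, h.2.2⟩, fun h => ⟨h.1, h.2.1, h.2.2⟩⟩
  · exact (and_congr (cc_neg (n := m.1) (y := cu x) (t := s) (by ring) (by push_cast; ring))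
      (and_congr (cc_pos (n := m.1 + m.2) (y := cu x + cv x) (t := t) (by ring) (by push_cast; ring))
      (cc_pos (n := m.2) (y := cv x) (t := s + t) (by ring) (by push_cast; ring)))).trans
      ⟨fun h => ⟨h.1, h.2.2, h.2.1⟩, fun h => ⟨h.1, h.2.2, h.2.1⟩⟩
  · exact (and_congr (cc_neg (n := m.2) (y := cv x) (t := s) (by ring) (by push_cast; ring))
      (and_congr (cc_neg (n := m.1) (y := cu x) (t := t) (by ring) (by push_cast; ring))
      (cc_neg (n := m.1 + m.2) (y := cu x + cv x) (t := s + t) (by ring) (by push_cast; ring)))).trans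
      ⟨fun h => ⟨h.2.1, h.1, h.2.2⟩, fun h => ⟨h.2.1, h.1, h.2.2⟩⟩
  · exact (and_congr (cc_neg (n := m.2) (y := cv x) (t := s) (by ring) (by push_cast; ring))
      (and_congr (cc_pos (n := m.1 + m.2) (y := cu x + cv x) (t := t) (by ring) (by push_cast; ring))
      (cc_pos (n := m.1) (y := cu x) (t := s + t) (by ring) (by push_cast; ring)))).trans
      ⟨fun h => ⟨h.2.2, h.1, h.2.1⟩, fun h => ⟨h.2.1, h.2.2, h.1⟩⟩
  · exact (and_congr (cc_pos (n := m.2) (y := cv x) (t := s) (by ring) (by push_cast; ring))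
      (and_congr (cc_neg (n := m.1 + m.2) (y := cu x + cv x) (t := t) (by ring) (by push_cast; ring))
      (cc_neg (n := m.1) (y := cu x) (t := s + t) (by ring) (by push_cast; ring)))).trans
      ⟨fun h => ⟨h.2.2, h.1, h.2.1⟩, fun h => ⟨h.2.1, h.2.2, h.1⟩⟩
  · exact (and_congr (cc_pos (n := m.2) (y := cv x) (t := s) (by ring) (by push_cast; ring))
      (and_congr (cc_pos (n := m.1) (y := cu x) (t := t) (by ring) (by push_cast; ring))
      (cc_pos (n := m.1 + m.2) (y := cu x + cv x) (t := s + t) (by ring) (by push_cast; ring)))).trans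
      ⟨fun h => ⟨h.2.1, h.1, h.2.2⟩, fun h => ⟨h.2.1, h.1, h.2.2⟩⟩
  · exact (and_congr (cc_pos (n := m.1) (y := cu x) (t := s) (by ring) (by push_cast; ring))
      (and_congr (cc_neg (n := m.1 + m.2) (y := cu x + cv x) (t := t) (by ring) (by push_cast; ring))
      (cc_neg (n := m.2) (y := cv x) (t := s + t) (by ring) (by push_cast; ring)))).trans
      ⟨fun h => ⟨h.1, h.2.2, h.2.1⟩, fun h => ⟨h.1, h.2.2, h.2.1⟩⟩
  · exact (and_congr (cc_pos (n := m.1) (y := cu x) (t := s) (by ring) (by push_cast; ring))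
      (and_congr (cc_pos (n := m.2) (y := cv x) (t := t) (by ring) (by push_cast; ring))
      (cc_pos (n := m.1 + m.2) (y := cu x + cv x) (t := s + t) (by ring) (by push_cast; ring)))).trans
      ⟨fun h => ⟨h.1, h.2.1, h.2.2⟩, fun h => ⟨h.1, h.2.1, h.2.2⟩⟩
  · exact (and_congr (cc_pos (n := m.1 + m.2) (y := cu x + cv x) (t := s) (by ring) (by push_cast; ring))
      (and_congr (cc_neg (n := m.1) (y := cu x) (t := t) (by ring) (by push_cast; ring))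
      (cc_pos (n := m.2) (y := cv x) (t := s + t) (by ring) (by push_cast; ring)))).trans
      ⟨fun h => ⟨h.2.1, h.2.2, h.1⟩, fun h => ⟨h.2.2, h.1, h.2.1⟩⟩
  · exact (and_congr (cc_pos (n := m.1 + m.2) (y := cu x + cv x) (t := s) (by ring) (by push_cast; ring))
      (and_congr (cc_neg (n := m.2) (y := cv x) (t := t) (by ring) (by push_cast; ring))
      (cc_pos (n := m.1) (y := cu x) (t := s + t) (by ring) (by push_cast; ring)))).trans
      ⟨fun h => ⟨h.2.2, h.2.1, h.1⟩, fun h => ⟨h.2.2, h.2.1, h.1⟩⟩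

theorem tile_map {g : E ≃ᵢ E} {p : P6} (hp : Orth p) (hg : Rep g p) (m : ℤ × ℤ) :
    g '' Tile m = Tile (act p m) := by
  ext y
  obtain ⟨x, rfl⟩ := g.surjective y
  rw [tile_mem hp hg, g.injective.mem_set_image]

def Od (m : ℤ × ℤ) : Prop := m.1 % 2 = 1 ∨ m.2 % 2 = 1

theorem Od.act {m : ℤ × ℤ} (hm : Od m) {p : P6} (hp : Orth p) : Od (act p m) := by
  obtain ⟨a, b, c, d, s, t⟩ := p
  simp only [Orth, MS, List.mem_cons, Prod.mk.injEq, List.not_mem_nil, or_false] at hp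
  simp only [Od, Wp.act] at hm ⊢
  rcases hp with h | h | h | h | h | h | h | h | h | h | h | h <;>
    obtain ⟨rfl, rfl, rfl, rfl⟩ := h <;> omega

theorem act_comp (p q : P6) (m : ℤ × ℤ) : act p (act q m) = act (comp p q) m := by
  simp only [act, comp, Prod.mk.injEq]
  constructor <;> ring

theorem act_one (m : ℤ × ℤ) : act one m = m := by simp [act, one]

theorem Od.base {m : ℤ × ℤ} (hm : Od m) : ∃ p, Orth p ∧ Wp.act p (1, 1) = m := by
  obtain ⟨m1, m2⟩ := m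
  simp only [Od] at hm
  by_cases h1 : m1 % 2 = 1 <;> by_cases h2 : m2 % 2 = 1
  · refine ⟨(1, 0, 0, 1, (m1 - 1) / 2, (m2 - 1) / 2), by simp [Orth, MS], ?_⟩
    simp only [Wp.act, Prod.mk.injEq]; omega
  · refine ⟨(0, -1, 1, 1, (m1 + 1) / 2, (m2 - 2) / 2), by simp [Orth, MS], ?_⟩
    simp only [Wp.act, Prod.mk.injEq]; omega
  · refine ⟨(1, 1, -1, 0, (m1 - 2) / 2, (m2 + 1) / 2), by simp [Orth, MS], ?_⟩
    simp only [Wp.act, Prod.mk.injEq]; omega
  · omega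

theorem cc_int (n i : ℤ) : cc n (i : ℝ) ↔ (n % 2 = 1 → -1 ≤ 2 * i - n ∧ 2 * i - n ≤ 1) := by
  unfold cc
  rw [abs_le]
  norm_cast

theorem tile_inj {m m' : ℤ × ℤ} (hm : Od m) (hm' : Od m') (h : Tile m = Tile m') : m = m' := by
  have k : ∀ i j : ℤ, pt i j ∈ Tile m → pt i j ∈ Tile m' := fun i j hx => h ▸ hx
  simp only [Tile, Set.mem_ofPred_eq, cu_pt, cv_pt, ← Int.cast_add, cc_int] at k
  obtain ⟨m1, m2⟩ := m
  obtain ⟨n1, n2⟩ := m'
  simp only [Od, Prod.mk.injEq] at *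
  by_cases h1 : m1 % 2 = 1 <;> by_cases h2 : m2 % 2 = 1
  · obtain ⟨i, rfl⟩ : ∃ i, m1 = 2 * i + 1 := ⟨m1 / 2, by omega⟩
    obtain ⟨j, rfl⟩ : ∃ j, m2 = 2 * j + 1 := ⟨m2 / 2, by omega⟩
    obtain ⟨a0, b0, c0⟩ := k (i) (j) (by omega)
    obtain ⟨a1, b1, c1⟩ := k (i + 1) (j) (by omega)
    obtain ⟨a2, b2, c2⟩ := k (i) (j + 1) (by omega)
    obtain ⟨a3, b3, c3⟩ := k (i + 1) (j + 1) (by omega)
    clear k
    by_cases g1 : n1 % 2 = 1 <;> by_cases g2 : n2 % 2 = 1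
    · have := a0 g1
      have := a1 g1
      have := a2 g1
      have := a3 g1
      have := b0 g2
      have := b1 g2
      have := b2 g2
      have := b3 g2
      clear a0 a1 a2 a3 b0 b1 b2 b3 c0 c1 c2 c3
      omega
    · have := a0 g1
      have := a1 g1
      have := a2 g1
      have := a3 g1
      have g3 : (n1 + n2) % 2 = 1 := by clear a0 a1 a2 a3 b0 b1 b2 b3 c0 c1 c2 c3; omega
      have := c0 g3
      have := c1 g3
      have := c2 g3
      have := c3 g3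
      clear a0 a1 a2 a3 b0 b1 b2 b3 c0 c1 c2 c3
      omega
    · have := b0 g2
      have := b1 g2
      have := b2 g2
      have := b3 g2
      have g3 : (n1 + n2) % 2 = 1 := by clear a0 a1 a2 a3 b0 b1 b2 b3 c0 c1 c2 c3; omega
      have := c0 g3
      have := c1 g3
      have := c2 g3
      have := c3 g3
      clear a0 a1 a2 a3 b0 b1 b2 b3 c0 c1 c2 c3
      omega
    · omega
  · obtain ⟨i, rfl⟩ : ∃ i, m1 = 2 * i + 1 := ⟨m1 / 2, by omega⟩
    obtain ⟨j, rfl⟩ : ∃ j, m2 = 2 * j := ⟨m2 / 2, by omega⟩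
    obtain ⟨a0, b0, c0⟩ := k (i) (j) (by omega)
    obtain ⟨a1, b1, c1⟩ := k (i + 1) (j) (by omega)
    obtain ⟨a2, b2, c2⟩ := k (i) (j + 1) (by omega)
    obtain ⟨a3, b3, c3⟩ := k (i + 1) (j - 1) (by omega)
    clear k
    by_cases g1 : n1 % 2 = 1 <;> by_cases g2 : n2 % 2 = 1
    · have := a0 g1
      have := a1 g1
      have := a2 g1
      have := a3 g1
      have := b0 g2
      have := b1 g2
      have := b2 g2
      have := b3 g2
      clear a0 a1 a2 a3 b0 b1 b2 b3 c0 c1 c2 c3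
      omega
    · have := a0 g1
      have := a1 g1
      have := a2 g1
      have := a3 g1
      have g3 : (n1 + n2) % 2 = 1 := by clear a0 a1 a2 a3 b0 b1 b2 b3 c0 c1 c2 c3; omega
      have := c0 g3
      have := c1 g3
      have := c2 g3
      have := c3 g3
      clear a0 a1 a2 a3 b0 b1 b2 b3 c0 c1 c2 c3
      omega
    · have := b0 g2
      have := b1 g2
      have := b2 g2
      have := b3 g2
      have g3 : (n1 + n2) % 2 = 1 := by clear a0 a1 a2 a3 b0 b1 b2 b3 c0 c1 c2 c3; omega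
      have := c0 g3
      have := c1 g3
      have := c2 g3
      have := c3 g3
      clear a0 a1 a2 a3 b0 b1 b2 b3 c0 c1 c2 c3
      omega
    · omega
  · obtain ⟨i, rfl⟩ : ∃ i, m1 = 2 * i := ⟨m1 / 2, by omega⟩
    obtain ⟨j, rfl⟩ : ∃ j, m2 = 2 * j + 1 := ⟨m2 / 2, by omega⟩
    obtain ⟨a0, b0, c0⟩ := k (i) (j) (by omega)
    obtain ⟨a1, b1, c1⟩ := k (i) (j + 1) (by omega)
    obtain ⟨a2, b2, c2⟩ := k (i + 1) (j) (by omega)
    obtain ⟨a3, b3, c3⟩ := k (i - 1) (j + 1) (by omega)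
    clear k
    by_cases g1 : n1 % 2 = 1 <;> by_cases g2 : n2 % 2 = 1
    · have := a0 g1
      have := a1 g1
      have := a2 g1
      have := a3 g1
      have := b0 g2
      have := b1 g2
      have := b2 g2
      have := b3 g2
      clear a0 a1 a2 a3 b0 b1 b2 b3 c0 c1 c2 c3
      omega
    · have := a0 g1
      have := a1 g1
      have := a2 g1
      have := a3 g1
      have g3 : (n1 + n2) % 2 = 1 := by clear a0 a1 a2 a3 b0 b1 b2 b3 c0 c1 c2 c3; omega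
      have := c0 g3
      have := c1 g3
      have := c2 g3
      have := c3 g3
      clear a0 a1 a2 a3 b0 b1 b2 b3 c0 c1 c2 c3
      omega
    · have := b0 g2
      have := b1 g2
      have := b2 g2
      have := b3 g2
      have g3 : (n1 + n2) % 2 = 1 := by clear a0 a1 a2 a3 b0 b1 b2 b3 c0 c1 c2 c3; omega
      have := c0 g3
      have := c1 g3
      have := c2 g3
      have := c3 g3
      clear a0 a1 a2 a3 b0 b1 b2 b3 c0 c1 c2 c3
      omega
    · omega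
  · omega

theorem mem_P (x : E) : x ∈ Tile (1, 1) ↔ (0 ≤ cu x ∧ cu x ≤ 1) ∧ (0 ≤ cv x ∧ cv x ≤ 1) := by
  simp only [Tile, cc, Set.mem_ofPred_eq, abs_le]
  norm_num

theorem sym_P {h : E ≃ᵢ E} (hP : h '' Tile (1, 1) = Tile (1, 1)) : ∃ s, Orth s ∧ Rep h s := by
  have hA : h (pt 0 0) ∈ Tile (1, 1) := hP ▸ Set.mem_image_of_mem _ (by rw [mem_P]; simp)
  have hC : h (pt 1 1) ∈ Tile (1, 1) := hP ▸ Set.mem_image_of_mem _ (by rw [mem_P]; simp)
  rw [mem_P] at hA hC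
  have d : ∀ x y, (cu (h x) - cu (h y)) ^ 2 + (cu (h x) - cu (h y)) * (cv (h x) - cv (h y)) +
      (cv (h x) - cv (h y)) ^ 2 =
      (cu x - cu y) ^ 2 + (cu x - cu y) * (cv x - cv y) + (cv x - cv y) ^ 2 := by
    intro x y
    rw [← dsq, ← dsq, h.dist_eq]
  have dAC := d (pt 0 0) (pt 1 1)
  have dBA := d (pt 1 0) (pt 0 0)
  have dBC := d (pt 1 0) (pt 1 1)
  simp only [cu_pt, cv_pt] at dAC dBA dBC
  obtain ⟨⟨a1, a2⟩, a3, a4⟩ := hA
  obtain ⟨⟨c1, c2⟩, c3, c4⟩ := hC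
  have e : ∀ x, _ := fun x => And.intro (d x (pt 0 0)) (And.intro (d x (pt 1 1)) (d x (pt 1 0)))
  simp only [cu_pt, cv_pt] at e
  generalize cu (h (pt 0 0)) = au at *
  generalize cv (h (pt 0 0)) = av at *
  generalize cu (h (pt 1 1)) = du at *
  generalize cv (h (pt 1 1)) = dv at *
  generalize cu (h (pt 1 0)) = bu at *
  generalize cv (h (pt 1 0)) = bv at *
  have q1 : (au - du) ^ 2 ≤ 1 := by nlinarith
  have q2 : (av - dv) ^ 2 ≤ 1 := by nlinarith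
  have q3 : (au - du) * (av - dv) ≤ 1 := by nlinarith [sq_nonneg ((au - du) - (av - dv))]
  have r1 : (au - du - 1) * (au - du + 1) = 0 := by nlinarith
  have r3 : (au - du) * (av - dv) = 1 := by nlinarith
  have key : (au = 0 ∧ av = 0 ∧ du = 1 ∧ dv = 1) ∨ (au = 1 ∧ av = 1 ∧ du = 0 ∧ dv = 0) := by
    rcases mul_eq_zero.1 r1 with r | r
    · have r' : au - du = 1 := by linarith
      rw [r'] at r3
      right
      refine ⟨?_, ?_, ?_, ?_⟩ <;> linarith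
    · have r' : au - du = -1 := by linarith
      rw [r'] at r3
      left
      refine ⟨?_, ?_, ?_, ?_⟩ <;> linarith
  have kb : bv = 1 - bu := by
    rcases key with ⟨rfl, rfl, rfl, rfl⟩ | ⟨rfl, rfl, rfl, rfl⟩ <;> linarith
  subst kb
  have kb2 : bu * (bu - 1) = 0 := by
    rcases key with ⟨rfl, rfl, rfl, rfl⟩ | ⟨rfl, rfl, rfl, rfl⟩ <;> linarith
  have kb3 : bu = 0 ∨ bu = 1 := by
    rcases mul_eq_zero.1 kb2 with r | r
    · exact Or.inl r
    · exact Or.inr (by linarith)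
  rcases key with ⟨rfl, rfl, rfl, rfl⟩ | ⟨rfl, rfl, rfl, rfl⟩ <;> rcases kb3 with rfl | rfl
  · refine ⟨(0, 1, 1, 0, 0, 0), by simp [Orth, MS], fun x => ?_⟩
    obtain ⟨e1, e2, e3⟩ := e x
    constructor <;> push_cast <;> linarith
  · refine ⟨(1, 0, 0, 1, 0, 0), by simp [Orth, MS], fun x => ?_⟩
    obtain ⟨e1, e2, e3⟩ := e x
    constructor <;> push_cast <;> linarith
  · refine ⟨(-1, 0, 0, -1, 1, 1), by simp [Orth, MS], fun x => ?_⟩
    obtain ⟨e1, e2, e3⟩ := e x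
    constructor <;> push_cast <;> linarith
  · refine ⟨(0, -1, -1, 0, 1, 1), by simp [Orth, MS], fun x => ?_⟩
    obtain ⟨e1, e2, e3⟩ := e x
    constructor <;> push_cast <;> linarith

end Pool.Agent.H35.Wp
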