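import Mathlib
import Pool.Agent.H35.WpA

set_option autoImplicit false

namespace Pool.Agent.H35.Wp

def Til (C : ℤ × ℤ → Prop) : Set (Set E) := {A | ∃ m, C m ∧ A = Tile m}

def Stab (C : ℤ × ℤ → Prop) : Set (E ≃ᵢ E) :=
  {g | (fun A : Set E => (⇑g) '' A) '' Til C = Til C}

def KK (C : ℤ × ℤ → Prop) : Set P6 := {p | Orth p ∧ ∀ m, C m ↔ C (act p m)}

structure Good (C : ℤ × ℤ → Prop) : Prop where
  od : ∀ m, C m → Od m
  up : ∀ i j : ℤ, C (2 * i + 1, 2 * j + 1) ∨ C (2 * i, 2 * j + 1) ∨ C (2 * i + 1, 2 * j)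
  dn : ∀ i j : ℤ, C (2 * i + 1, 2 * j + 1) ∨ C (2 * i + 2, 2 * j + 1) ∨ C (2 * i + 1, 2 * j + 2)
  u1 : ∀ i j : ℤ, ¬(C (2 * i + 1, 2 * j + 1) ∧ C (2 * i, 2 * j + 1))
  u2 : ∀ i j : ℤ, ¬(C (2 * i + 1, 2 * j + 1) ∧ C (2 * i + 1, 2 * j))
  u3 : ∀ i j : ℤ, ¬(C (2 * i, 2 * j + 1) ∧ C (2 * i + 1, 2 * j))
  d1 : ∀ i j : ℤ, ¬(C (2 * i + 1, 2 * j + 1) ∧ C (2 * i + 2, 2 * j + 1))
  d2 : ∀ i j : ℤ, ¬(C (2 * i + 1, 2 * j + 1) ∧ C (2 * i + 1, 2 * j + 2))
  d3 : ∀ i j : ℤ, ¬(C (2 * i + 2, 2 * j + 1) ∧ C (2 * i + 1, 2 * j + 2))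

variable {C : ℤ × ℤ → Prop}

theorem tile_cong {m : ℤ × ℤ} (hm : Od m) :
    ∃ g p, Orth p ∧ Rep g p ∧ Tile m = g '' Tile (1, 1) := by
  obtain ⟨p, hp, rfl⟩ := hm.base
  obtain ⟨g, hg⟩ := exists_rep hp
  exact ⟨g, p, hp, hg, (tile_map hp hg _).symm⟩

theorem stab_iff (hC : Good C) {g : E ≃ᵢ E} {p : P6} (hp : Orth p) (hg : Rep g p) :
    g ∈ Stab C ↔ p ∈ KK C := by
  obtain ⟨q, hq, h1, h2⟩ := hp.inv
  constructor
  · intro h
    have h' : (fun A : Set E => (⇑g) '' A) '' Til C = Til C := h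
    refine ⟨hp, fun m => ⟨fun hm => ?_, fun hm => ?_⟩⟩
    · have : g '' Tile m ∈ Til C := h' ▸ Set.mem_image_of_mem _ ⟨m, hm, rfl⟩
      obtain ⟨m', hm', e⟩ := this
      rw [tile_map hp hg] at e
      rwa [tile_inj ((hC.od m hm).act hp) (hC.od m' hm') e]
    · have : Tile (act p m) ∈ (fun A : Set E => (⇑g) '' A) '' Til C := by
        rw [h']; exact ⟨_, hm, rfl⟩
      obtain ⟨_, ⟨m', hm', rfl⟩, e⟩ := this
      beta_reduce at e
      rw [tile_map hp hg] at e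
      have e2 := congrArg (act q) (tile_inj ((hC.od m' hm').act hp) (hC.od _ hm) e)
      rw [act_comp, act_comp, h2, act_one, act_one] at e2
      rwa [← e2]
  · rintro ⟨-, h⟩
    ext A
    constructor
    · rintro ⟨_, ⟨m, hm, rfl⟩, rfl⟩
      exact ⟨_, (h m).1 hm, tile_map hp hg m⟩
    · rintro ⟨m, hm, rfl⟩
      have e : act p (act q m) = m := by rw [act_comp, h1, act_one]
      refine ⟨_, ⟨act q m, (h _).2 (by rwa [e]), rfl⟩, ?_⟩
      beta_reduce
      rw [tile_map hp hg, e]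

theorem stab_rep (hC : Good C) {g : E ≃ᵢ E} (h : g ∈ Stab C) : ∃ p, Orth p ∧ Rep g p := by
  have h' : (fun A : Set E => (⇑g) '' A) '' Til C = Til C := h
  have : ∃ m, C m := by
    rcases hC.up 0 0 with h | h | h <;> exact ⟨_, h⟩
  obtain ⟨m, hm⟩ := this
  have : g '' Tile m ∈ Til C := h' ▸ Set.mem_image_of_mem _ ⟨m, hm, rfl⟩
  obtain ⟨m', hm', e⟩ := this
  obtain ⟨g0, p0, hp0, hg0, e0⟩ := tile_cong (hC.od m hm)
  obtain ⟨g1, p1, hp1, hg1, e1⟩ := tile_cong (hC.od m' hm')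
  have k : (g1⁻¹ * g * g0 : E ≃ᵢ E) '' Tile (1, 1) = Tile (1, 1) := by
    apply Set.image_injective.2 g1.injective
    rw [← e1, ← e, e0, Set.image_image, Set.image_image]
    simp
  obtain ⟨s, hs, hr⟩ := sym_P k
  obtain ⟨q0, hq0, hr0⟩ := hg0.inv hp0
  refine ⟨_, (hp1.comp hs).comp hq0, ?_⟩
  have := (hg1.mul hr).mul hr0
  simpa [mul_assoc] using this

theorem cover (hC : Good C) : ⋃₀ Til C = Set.univ := by
  refine Set.eq_univ_of_forall fun x => ?_
  have a1 := Int.floor_le (cu x)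
  have a2 := Int.lt_floor_add_one (cu x)
  have b1 := Int.floor_le (cv x)
  have b2 := Int.lt_floor_add_one (cv x)
  generalize ⌊cu x⌋ = i at *
  generalize ⌊cv x⌋ = j at *
  by_cases h : cu x + cv x ≤ i + j + 1
  · rcases hC.up i j with k | k | k <;> refine ⟨_, ⟨_, k, rfl⟩, ?_, ?_, ?_⟩ <;> intro o <;>
      first
      | (rw [abs_le]; push_cast; constructor <;> linarith)
      | omega
  · rcases hC.dn i j with k | k | k <;> refine ⟨_, ⟨_, k, rfl⟩, ?_, ?_, ?_⟩ <;> intro o <;>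
      first
      | (rw [abs_le]; push_cast; constructor <;> linarith)
      | omega

theorem strict {A : Set E} {x : E} (hx : x ∈ interior A) (a b c : ℝ) (hab : a + b ≠ 0 ∨ a ≠ 0)
    (hA : ∀ y ∈ A, |a * cu y + b * cv y - c| ≤ 1) : |a * cu x + b * cv x - c| < 1 := by
  have key : ∀ w : E, a * cu w + b * cv w ≠ 0 → |a * cu x + b * cv x - c| < 1 := by
    intro w hw
    have hc : Continuous fun r : ℝ => x + r • w := by fun_prop
    have : ∀ᶠ r : ℝ in nhds 0, x + r • w ∈ A := by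
      have h0 : A ∈ nhds ((fun r : ℝ => x + r • w) 0) := by
        simpa using mem_interior_iff_mem_nhds.1 hx
      exact hc.continuousAt.preimage_mem_nhds h0
    obtain ⟨e, he, h⟩ := Metric.eventually_nhds_iff.1 this
    have h1 := hA _ (h (y := e / 2) (by rw [Real.dist_eq, abs_lt]; constructor <;> linarith))
    have h2 := hA _ (h (y := -(e / 2)) (by rw [Real.dist_eq, abs_lt]; constructor <;> linarith))
    rw [cu_add, cv_add, cu_smul, cv_smul, abs_le] at h1 h2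
    rw [abs_lt]
    rcases lt_or_gt_of_ne hw with k | k
    · have := mul_pos he (neg_pos.2 k)
      constructor <;> nlinarith [h1.1, h1.2, h2.1, h2.2]
    · have := mul_pos he k
      constructor <;> nlinarith [h1.1, h1.2, h2.1, h2.2]
  rcases hab with h | h
  · exact key (pt 1 1) (by simpa using h)
  · exact key (pt 1 0) (by simpa using h)

theorem int_tile {m : ℤ × ℤ} {x : E} (hx : x ∈ interior (Tile m)) :
    (m.1 % 2 = 1 → |2 * cu x - m.1| < 1) ∧ (m.2 % 2 = 1 → |2 * cv x - m.2| < 1) ∧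
      ((m.1 + m.2) % 2 = 1 → |2 * (cu x + cv x) - (m.1 + m.2 : ℤ)| < 1) := by
  refine ⟨fun h => ?_, fun h => ?_, fun h => ?_⟩
  · simpa using strict hx 2 0 m.1 (by simp) (fun y hy => by simpa using hy.1 h)
  · simpa using strict hx 0 2 m.2 (by simp) (fun y hy => by simpa using hy.2.1 h)
  · rw [mul_add]
    exact strict hx 2 2 _ (by simp) (fun y hy => by rw [← mul_add]; exact hy.2.2 h)

theorem int_fl {n : ℤ} {y : ℝ} (h : n % 2 = 1) (h2 : |2 * y - n| < 1) : n = 2 * ⌊y⌋ + 1 := by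
  obtain ⟨k, rfl⟩ : ∃ k, n = 2 * k + 1 := ⟨n / 2, by omega⟩
  rw [abs_lt] at h2
  push_cast at h2
  have : ⌊y⌋ = k := Int.floor_eq_iff.2 ⟨by linarith [h2.1], by linarith [h2.2]⟩
  rw [this]

theorem disj (hC : Good C) :
    (Til C).Pairwise (fun A B => Disjoint (interior A) (interior B)) := by
  rintro _ ⟨m, hm, rfl⟩ _ ⟨m', hm', rfl⟩ hne
  rw [Set.disjoint_left]
  intro x hx hx'
  apply hne
  have f : ∀ m, C m → x ∈ interior (Tile m) → m = (2 * ⌊cu x⌋ + 1, 2 * ⌊cv x⌋ + 1) ∨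
      m = (2 * (⌊cu x + cv x⌋ - ⌊cv x⌋), 2 * ⌊cv x⌋ + 1) ∨
      m = (2 * ⌊cu x⌋ + 1, 2 * (⌊cu x + cv x⌋ - ⌊cu x⌋)) := by
    rintro ⟨m1, m2⟩ hm hx
    obtain ⟨a, b, c⟩ := int_tile hx
    have o := hC.od _ hm
    simp only [Od, Prod.mk.injEq] at *
    by_cases h1 : m1 % 2 = 1 <;> by_cases h2 : m2 % 2 = 1
    · exact Or.inl ⟨int_fl h1 (a h1), int_fl h2 (b h2)⟩
    · have h3 : (m1 + m2) % 2 = 1 := by omega
      have := int_fl h1 (a h1)
      have := int_fl h3 (c h3)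
      omega
    · have h3 : (m1 + m2) % 2 = 1 := by omega
      have := int_fl h2 (b h2)
      have := int_fl h3 (c h3)
      omega
    · omega
  have g : ⌊cu x + cv x⌋ = ⌊cu x⌋ + ⌊cv x⌋ ∨ ⌊cu x + cv x⌋ = ⌊cu x⌋ + ⌊cv x⌋ + 1 := by
    have := Int.le_floor_add (cu x) (cv x)
    have := Int.le_floor_add_floor (cu x) (cv x)
    omega
  have f1 := f m hm hx
  have f2 := f m' hm' hx'
  generalize ⌊cu x⌋ = i at *
  generalize ⌊cv x⌋ = j at *
  rcases g with g | g <;> rw [g] at f1 f2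
  · rw [show 2 * (i + j - j) = 2 * i by ring, show 2 * (i + j - i) = 2 * j by ring] at f1 f2
    have := hC.u1 i j
    have := hC.u2 i j
    have := hC.u3 i j
    rcases f1 with rfl | rfl | rfl <;> rcases f2 with rfl | rfl | rfl <;> first | rfl | tauto
  · rw [show 2 * (i + j + 1 - j) = 2 * i + 2 by ring,
      show 2 * (i + j + 1 - i) = 2 * j + 2 by ring] at f1 f2
    have := hC.d1 i j
    have := hC.d2 i j
    have := hC.d3 i j
    rcases f1 with rfl | rfl | rfl <;> rcases f2 with rfl | rfl | rfl <;> first | rfl | tauto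

theorem transl (hC : Good C) (s t : ℤ) (h : (1, 0, 0, 1, s, t) ∈ KK C) :
    (fun A : Set E => (fun x : E => x + pt s t) '' A) '' Til C = Til C := by
  have hr : Rep (IsometryEquiv.addRight (pt s t)) (1, 0, 0, 1, s, t) := by
    intro x
    simp [cu_add, cv_add]
  exact (stab_iff hC h.1 hr).2 h

theorem lin_ind (N : ℤ) (hN : N ≠ 0) : LinearIndependent ℝ ![pt N (0 : ℤ), pt (0 : ℤ) N] := by
  rw [LinearIndependent.pair_iff]
  intro s t h
  have h1 := congrArg cu h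
  have h2 := congrArg cv h
  have z1 : cu 0 = 0 := by simp [cu]
  have z2 : cv 0 = 0 := by simp [cv]
  rw [cu_add, cu_smul, cu_smul, z1] at h1
  rw [cv_add, cv_smul, cv_smul, z2] at h2
  simpa [hN] using And.intro h1 h2

theorem P_convex : Convex ℝ (Tile (1, 1)) := by
  intro x hx y hy a b ha hb hab
  rw [mem_P] at *
  rw [cu_add, cv_add, cu_smul, cu_smul, cv_smul, cv_smul]
  obtain ⟨⟨a1, a2⟩, a3, a4⟩ := hx
  obtain ⟨⟨c1, c2⟩, c3, c4⟩ := hy
  refine ⟨⟨?_, ?_⟩, ?_, ?_⟩ <;> nlinarith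

theorem P_closed : IsClosed (Tile (1, 1)) := by
  have : Tile (1, 1) = cu ⁻¹' Set.Icc 0 1 ∩ cv ⁻¹' Set.Icc 0 1 := by
    ext x; rw [mem_P]; rfl
  rw [this]
  exact (isClosed_Icc.preimage cu_cont).inter (isClosed_Icc.preimage cv_cont)

theorem P_int {x : E} (h1 : 0 < cu x) (h2 : cu x < 1) (h3 : 0 < cv x) (h4 : cv x < 1) :
    x ∈ interior (Tile (1, 1)) := by
  refine interior_maximal (t := cu ⁻¹' Set.Ioo 0 1 ∩ cv ⁻¹' Set.Ioo 0 1) ?_
    ((isOpen_Ioo.preimage cu_cont).inter (isOpen_Ioo.preimage cv_cont)) ⟨⟨h1, h2⟩, h3, h4⟩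
  rintro y ⟨⟨a, b⟩, c, d⟩
  rw [mem_P]
  exact ⟨⟨a.le, b.le⟩, c.le, d.le⟩

theorem P_ball : Nonempty (Tile (1, 1) ≃ₜ Metric.closedBall (0 : E) 1) := by
  have hb : Bornology.IsBounded (Tile (1, 1)) := by
    refine (Metric.isBounded_closedBall (x := pt 0 0) (r := 2)).subset fun x hx => ?_
    rw [mem_P] at hx
    obtain ⟨⟨a1, a2⟩, a3, a4⟩ := hx
    rw [Metric.mem_closedBall]
    have := dsq x (pt 0 0)
    simp only [cu_pt, cv_pt, sub_zero] at this
    refine abs_le_of_sq_le_sq' ?_ (by norm_num) |>.2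
    nlinarith
  obtain ⟨h, -, h2, -⟩ := exists_homeomorph_image_interior_closure_frontier_eq_unitBall P_convex
    ⟨pt (1 / 2) (1 / 2), P_int (by simp) (by simp; norm_num) (by simp) (by simp; norm_num)⟩ hb
  rw [P_closed.closure_eq] at h2
  exact ⟨(h.image _).trans (Homeomorph.setCongr h2)⟩

theorem P_front : ∃ s : Finset (E × E), frontier (Tile (1, 1)) ⊆ ⋃ p ∈ s, segment ℝ p.1 p.2 := by
  classical
  refine ⟨{(pt 0 0, pt 0 1), (pt 1 0, pt 1 1), (pt 0 0, pt 1 0), (pt 0 1, pt 1 1)}, fun x hx => ?_⟩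
  rw [P_closed.frontier_eq] at hx
  obtain ⟨hx, hn⟩ := hx
  rw [mem_P] at hx
  obtain ⟨⟨a1, a2⟩, a3, a4⟩ := hx
  have : cu x = 0 ∨ cu x = 1 ∨ cv x = 0 ∨ cv x = 1 := by
    by_contra hc
    push Not at hc
    exact hn (P_int (lt_of_le_of_ne a1 hc.1.symm) (lt_of_le_of_ne a2 hc.2.1)
      (lt_of_le_of_ne a3 hc.2.2.1.symm) (lt_of_le_of_ne a4 hc.2.2.2))
  simp only [Set.mem_iUnion]
  rcases this with h | h | h | h
  · refine ⟨(pt 0 0, pt 0 1), by simp, 1 - cv x, cv x, by linarith, a3, by ring, ?_⟩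
    apply ext_c <;> simp [cu_add, cv_add, cu_smul, cv_smul, h]
  · refine ⟨(pt 1 0, pt 1 1), by simp, 1 - cv x, cv x, by linarith, a3, by ring, ?_⟩
    apply ext_c <;> simp [cu_add, cv_add, cu_smul, cv_smul, h]
  · refine ⟨(pt 0 0, pt 1 0), by simp, 1 - cu x, cu x, by linarith, a1, by ring, ?_⟩
    apply ext_c <;> simp [cu_add, cv_add, cu_smul, cv_smul, h]
  · refine ⟨(pt 0 1, pt 1 1), by simp, 1 - cu x, cu x, by linarith, a1, by ring, ?_⟩
    apply ext_c <;> simp [cu_add, cv_add, cu_smul, cv_smul, h]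

theorem P_not_tri (a b c : E) : Tile (1, 1) ≠ convexHull ℝ {a, b, c} := by
  intro h
  have k : ∀ u v : ℝ, (u = 0 ∨ u = 1) → (v = 0 ∨ v = 1) → pt u v = a ∨ pt u v = b ∨ pt u v = c := by
    intro u v hu hv
    have : pt u v ∈ Set.extremePoints ℝ (Tile (1, 1)) := by
      rw [mem_extremePoints]
      refine ⟨by rw [mem_P]; rcases hu with rfl | rfl <;> rcases hv with rfl | rfl <;> simp, ?_⟩
      rintro x hx y hy ⟨s, t, hs, ht, hst, e⟩
      rw [mem_P] at hx hy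
      obtain ⟨⟨a1, a2⟩, a3, a4⟩ := hx
      obtain ⟨⟨c1, c2⟩, c3, c4⟩ := hy
      have e1 := congrArg cu e
      have e2 := congrArg cv e
      rw [cu_add, cu_smul, cu_smul, cu_pt] at e1
      rw [cv_add, cv_smul, cv_smul, cv_pt] at e2
      have z : ∀ p q r : ℝ, 0 ≤ p → p ≤ 1 → 0 ≤ q → q ≤ 1 → (r = 0 ∨ r = 1) → s * p + t * q = r →
          p = r ∧ q = r := by
        intro p q r p0 p1 q0 q1 hr e
        rcases hr with rfl | rfl <;> constructor <;> nlinarith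
      obtain ⟨z1, z2⟩ := z _ _ _ a1 a2 c1 c2 hu e1
      obtain ⟨z3, z4⟩ := z _ _ _ a3 a4 c3 c4 hv e2
      exact ⟨ext_c (by simpa using z1) (by simpa using z3),
        ext_c (by simpa using z2) (by simpa using z4)⟩
    rw [h] at this
    simpa using extremePoints_convexHull_subset this
  have n : ∀ u v u' v' : ℝ, pt u v = pt u' v' → u = u' ∧ v = v' := fun u v u' v' e =>
    ⟨by simpa using congrArg cu e, by simpa using congrArg cv e⟩
  have n1 := n 0 0 0 1
  have n2 := n 0 0 1 0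
  have n3 := n 0 0 1 1
  have n4 := n 0 1 1 0
  have n5 := n 0 1 1 1
  have n6 := n 1 0 1 1
  have k1 := k 0 0 (by simp) (by simp)
  have k2 := k 0 1 (by simp) (by simp)
  have k3 := k 1 0 (by simp) (by simp)
  have k4 := k 1 1 (by simp) (by simp)
  simp only [zero_ne_one, one_ne_zero, and_false, false_and, imp_false] at n1 n2 n3 n4 n5 n6
  rcases k1 with k1 | k1 | k1 <;> rcases k2 with k2 | k2 | k2 <;> rcases k3 with k3 | k3 | k3 <;>
    rcases k4 with k4 | k4 | k4 <;>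
    first
    | exact n1 (k1.trans k2.symm)
    | exact n2 (k1.trans k3.symm)
    | exact n3 (k1.trans k4.symm)
    | exact n4 (k2.trans k3.symm)
    | exact n5 (k2.trans k4.symm)
    | exact n6 (k3.trans k4.symm)

/-- terms in the language of monoids. -/
inductive Tm
  | v (n : ℕ)
  | e
  | m (a b : Tm)

/-- formulas in the language of monoids. -/
inductive Fm
  | eq (a b : Tm)
  | nt (a : Fm)
  | an (a b : Fm)
  | im (a b : Fm)
  | al (a : Fm)
  | ex (a : Fm)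

def cons {α : Type} (x : α) (env : ℕ → α) : ℕ → α
  | 0 => x
  | n + 1 => env n

def Tm.ev {α : Type} (mul : α → α → α) (o : α) (env : ℕ → α) : Tm → α
  | .v n => env n
  | .e => o
  | .m a b => mul (a.ev mul o env) (b.ev mul o env)

def Fm.ev {α : Type} (K : Set α) (mul : α → α → α) (o : α) : Fm → (ℕ → α) → Prop
  | .eq a b, env => a.ev mul o env = b.ev mul o env
  | .nt a, env => ¬a.ev K mul o env
  | .an a b, env => a.ev K mul o env ∧ b.ev K mul o env
  | .im a b, env => a.ev K mul o env → b.ev K mul o env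
  | .al a, env => ∀ x, x ∈ K → a.ev K mul o (cons x env)
  | .ex a, env => ∃ x, x ∈ K ∧ a.ev K mul o (cons x env)

theorem transfer {α β : Type} {K : Set α} {K' : Set β} {mul : α → α → α} {mul' : β → β → β}
    {o : α} {o' : β} (f : α → β) (hf : Set.BijOn f K K') (ho : o ∈ K) (hfo : f o = o')
    (hm : ∀ a ∈ K, ∀ b ∈ K, mul a b ∈ K) (hfm : ∀ a ∈ K, ∀ b ∈ K, f (mul a b) = mul' (f a) (f b))
    (φ : Fm) (env : ℕ → α) (henv : ∀ n, env n ∈ K) :
    φ.ev K mul o env ↔ φ.ev K' mul' o' (fun n => f (env n)) := by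
  have ht : ∀ (t : Tm) (env : ℕ → α), (∀ n, env n ∈ K) →
      t.ev mul o env ∈ K ∧ f (t.ev mul o env) = t.ev mul' o' (fun n => f (env n)) := by
    intro t env henv
    induction t with
    | v n => exact ⟨henv n, rfl⟩
    | e => exact ⟨ho, hfo⟩
    | m a b iha ihb =>
      refine ⟨hm _ iha.1 _ ihb.1, ?_⟩
      simp only [Tm.ev]
      rw [hfm _ iha.1 _ ihb.1, iha.2, ihb.2]
  have hc : ∀ (x : α) (env : ℕ → α), (fun n => f (cons x env n)) = cons (f x) fun n => f (env n) := by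
    intro x env
    funext n
    cases n <;> rfl
  have hk : ∀ (x : α) (env : ℕ → α), x ∈ K → (∀ n, env n ∈ K) → ∀ n, cons x env n ∈ K := by
    intro x env hx henv n
    cases n
    · exact hx
    · exact henv _
  induction φ generalizing env with
  | eq a b =>
    simp only [Fm.ev]
    rw [← (ht a env henv).2, ← (ht b env henv).2]
    exact ⟨fun h => by rw [h], fun h => hf.injOn (ht a env henv).1 (ht b env henv).1 h⟩
  | nt a ih => exact not_congr (ih env henv)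
  | an a b iha ihb => exact and_congr (iha env henv) (ihb env henv)
  | im a b iha ihb => exact imp_congr (iha env henv) (ihb env henv)
  | al a ih =>
    simp only [Fm.ev]
    constructor
    · intro h y hy
      obtain ⟨x, hx, rfl⟩ := hf.surjOn hy
      rw [← hc]
      exact (ih _ (hk x env hx henv)).1 (h x hx)
    · intro h x hx
      refine (ih _ (hk x env hx henv)).2 ?_
      rw [hc]
      exact h _ (hf.mapsTo hx)
  | ex a ih =>
    simp only [Fm.ev]
    constructor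
    · rintro ⟨x, hx, h⟩
      refine ⟨f x, hf.mapsTo hx, ?_⟩
      rw [← hc]
      exact (ih _ (hk x env hx henv)).1 h
    · rintro ⟨y, hy, h⟩
      obtain ⟨x, hx, rfl⟩ := hf.surjOn hy
      refine ⟨x, hx, (ih _ (hk x env hx henv)).2 ?_⟩
      rw [hc]
      exact h

theorem KK_one : one ∈ KK C := ⟨by simp [Orth, MS, one], fun m => by rw [act_one]⟩

theorem KK_mul : ∀ a ∈ KK C, ∀ b ∈ KK C, comp a b ∈ KK C := fun a ha b hb =>
  ⟨ha.1.comp hb.1, fun m => by rw [← act_comp, ← ha.2, ← hb.2]⟩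

theorem ev_stab (hC : Good C) (φ : Fm) :
    φ.ev (KK C) comp one (fun _ => one) ↔ φ.ev (Stab C) (· * ·) 1 (fun _ => 1) := by
  classical
  let f : P6 → (E ≃ᵢ E) := fun p => if h : Orth p then (exists_rep h).choose else 1
  have hr : ∀ p, Orth p → Rep (f p) p := by
    intro p hp
    simp only [f, dif_pos hp]
    exact (exists_rep hp).choose_spec
  have h1 : f one = 1 := (hr _ (KK_one (C := C)).1).eq rep_one
  have := transfer (K := KK C) (K' := Stab C) (mul := comp) (mul' := (· * ·)) (o := one) (o' := 1)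
    f ⟨fun p hp => (stab_iff hC hp.1 (hr p hp.1)).2 hp,
      fun p hp q hq e => (hr p hp.1).uniq (e ▸ hr q hq.1), fun g hg => by
        obtain ⟨p, hp, hgp⟩ := stab_rep hC hg
        exact ⟨p, (stab_iff hC hp hgp).1 hg, (hr p hp).eq hgp⟩⟩ KK_one h1 KK_mul
    (fun a ha b hb => (hr _ (ha.1.comp hb.1)).eq ((hr a ha.1).mul (hr b hb.1))) φ (fun _ => one)
    (fun _ => KK_one)
  simpa only [h1] using this

theorem ev_iso {C' : ℤ × ℤ → Prop} (hC : Good C) (hC' : Good C') (φ : (E ≃ᵢ E) → (E ≃ᵢ E))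
    (hb : Set.BijOn φ (Stab C) (Stab C'))
    (hm : ∀ g ∈ Stab C, ∀ h ∈ Stab C, φ (g * h) = φ g * φ h) (ψ : Fm) :
    ψ.ev (KK C) comp one (fun _ => one) ↔ ψ.ev (KK C') comp one (fun _ => one) := by
  have o1 : (1 : E ≃ᵢ E) ∈ Stab C := (stab_iff hC (KK_one (C := C)).1 rep_one).2 KK_one
  have h1 : φ 1 = 1 := by
    have := hm 1 o1 1 o1
    rw [mul_one] at this
    exact (mul_eq_left.1 this.symm)
  rw [ev_stab hC, ev_stab hC']
  have := transfer (K := Stab C) (K' := Stab C') (mul := (· * ·)) (mul' := (· * ·)) (o := 1)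
    (o' := 1) φ hb o1 h1 (fun a ha b hb => by
      obtain ⟨p, hp, hr⟩ := stab_rep hC ha
      obtain ⟨q, hq, hs⟩ := stab_rep hC hb
      exact (stab_iff hC (hp.comp hq) (hr.mul hs)).2
        (KK_mul _ ((stab_iff hC hp hr).1 ha) _ ((stab_iff hC hq hs).1 hb))) hm ψ (fun _ => 1)
    (fun _ => o1)
  simpa only [h1] using this

end Pool.Agent.H35.Wp
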