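import Mathlib
import Pool.Agent.H35.WpB

set_option autoImplicit false

namespace Pool.Agent.H35.Wp

def cen (N tab : ℕ) (m : ℤ × ℤ) : Bool :=
  tab.testBit ((m.1 % (2 * N : ℕ)).toNat * (2 * N) + (m.2 % (2 * N : ℕ)).toNat)

def CC (N tab : ℕ) : ℤ × ℤ → Prop := fun m => cen N tab m = true

theorem cen_congr {N tab : ℕ} {a b a' b' : ℤ} (h1 : a ≡ a' [ZMOD (2 * N : ℕ)])
    (h2 : b ≡ b' [ZMOD (2 * N : ℕ)]) : cen N tab (a, b) = cen N tab (a', b') := by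
  unfold Int.ModEq at h1 h2
  simp only [cen, h1, h2]

theorem red (n : ℕ) (hn : 0 < n) (a : ℤ) : ∃ x ∈ List.range n, (x : ℤ) = a % n := by
  have h1 := Int.emod_nonneg a (show (n : ℤ) ≠ 0 by omega)
  have h2 := Int.emod_lt_of_pos a (show (0 : ℤ) < n by omega)
  exact ⟨(a % n).toNat, List.mem_range.2 (by omega), by omega⟩

def chk (N tab : ℕ) (p : P6) : Bool :=
  (List.range (2 * N)).all fun x => (List.range (2 * N)).all fun y =>
    cen N tab (x, y) == cen N tab (act p (x, y))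

def allchk (N tab : ℕ) (L : List P6) : Bool :=
  (MS.all fun M => (List.range N).all fun s => (List.range N).all fun t =>
    chk N tab (M.1, M.2.1, M.2.2.1, M.2.2.2, s, t) ==
      decide ((M.1, M.2.1, M.2.2.1, M.2.2.2, (s : ℤ), (t : ℤ)) ∈ L)) &&
  L.all fun p => decide ((p.1, p.2.1, p.2.2.1, p.2.2.2.1) ∈ MS)

theorem two_mod (N : ℕ) (s : ℤ) : 2 * s ≡ 2 * (s % N) [ZMOD (2 * N : ℕ)] := by
  push_cast
  exact Int.ModEq.mul_left' (Int.mod_modEq s N).symm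

theorem KK_iff {N tab : ℕ} {L : List P6} (hN : 0 < N) (h : allchk N tab L = true)
    (a b c d s t : ℤ) : (a, b, c, d, s, t) ∈ KK (CC N tab) ↔ (a, b, c, d, s % N, t % N) ∈ L := by
  simp only [allchk, Bool.and_eq_true, List.all_eq_true, beq_iff_eq, decide_eq_true_eq] at h
  obtain ⟨h1, h2⟩ := h
  obtain ⟨s', hs', es⟩ := red N hN s
  obtain ⟨t', ht', et⟩ := red N hN t
  have key : (∀ m, CC N tab m ↔ CC N tab (act (a, b, c, d, s, t) m)) ↔
      chk N tab (a, b, c, d, s', t') = true := by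
    have e : ∀ x y x' y' : ℤ, x ≡ x' [ZMOD (2 * N : ℕ)] → y ≡ y' [ZMOD (2 * N : ℕ)] →
        cen N tab (act (a, b, c, d, s, t) (x, y)) = cen N tab (act (a, b, c, d, s', t') (x', y')) := by
      intro x y x' y' hx hy
      simp only [act, es, et]
      exact cen_congr (((hx.mul_left a).add (hy.mul_left b)).add (two_mod N s))
        (((hx.mul_left c).add (hy.mul_left d)).add (two_mod N t))
    simp only [chk, List.all_eq_true, beq_iff_eq, CC]
    constructor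
    · intro k x _ y _
      rw [← e x y x y rfl rfl]
      exact Bool.eq_iff_iff.2 (k _)
    · rintro k ⟨x, y⟩
      obtain ⟨x', hx', ex⟩ := red (2 * N) (by omega) x
      obtain ⟨y', hy', ey⟩ := red (2 * N) (by omega) y
      have hx : x ≡ x' [ZMOD (2 * N : ℕ)] := by rw [ex]; exact (Int.mod_modEq _ _).symm
      have hy : y ≡ y' [ZMOD (2 * N : ℕ)] := by rw [ey]; exact (Int.mod_modEq _ _).symm
      rw [e x y x' y' hx hy, cen_congr hx hy, k x' hx' y' hy']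
  rw [← es, ← et]
  constructor
  · rintro ⟨k1, k2⟩
    have := h1 _ k1 s' hs' t' ht'
    rw [key.1 k2] at this
    simpa using this
  · intro k
    have o := h2 _ k
    refine ⟨o, key.2 ?_⟩
    have := h1 _ o s' hs' t' ht'
    rw [this]
    simpa using k

def one3 (a b c : Bool) : Bool := (a || b || c) && !(a && b) && !(a && c) && !(b && c)

def goodchk (N tab : ℕ) : Bool :=
  (List.range N).all fun i => (List.range N).all fun j =>
    !cen N tab (2 * i, 2 * j) &&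
    one3 (cen N tab (2 * i + 1, 2 * j + 1)) (cen N tab (2 * i, 2 * j + 1))
      (cen N tab (2 * i + 1, 2 * j)) &&
    one3 (cen N tab (2 * i + 1, 2 * j + 1)) (cen N tab (2 * i + 2, 2 * j + 1))
      (cen N tab (2 * i + 1, 2 * j + 2))

theorem good_of {N tab : ℕ} (hN : 0 < N) (h : goodchk N tab = true) : Good (CC N tab) := by
  have k : ∀ i j : ℤ, cen N tab (2 * i, 2 * j) = false ∧
      one3 (cen N tab (2 * i + 1, 2 * j + 1)) (cen N tab (2 * i, 2 * j + 1))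
        (cen N tab (2 * i + 1, 2 * j)) = true ∧
      one3 (cen N tab (2 * i + 1, 2 * j + 1)) (cen N tab (2 * i + 2, 2 * j + 1))
        (cen N tab (2 * i + 1, 2 * j + 2)) = true := by
    intro i j
    obtain ⟨x, hx, ex⟩ := red N hN i
    obtain ⟨y, hy, ey⟩ := red N hN j
    simp only [goodchk, List.all_eq_true, Bool.and_eq_true, Bool.not_eq_true'] at h
    have := h x hx y hy
    have a := two_mod N i
    have b := two_mod N j
    rw [← ex] at a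
    rw [← ey] at b
    rw [cen_congr a b, cen_congr (a.add_right 1) (b.add_right 1), cen_congr a (b.add_right 1),
      cen_congr (a.add_right 1) b, cen_congr (a.add_right 2) (b.add_right 1),
      cen_congr (a.add_right 1) (b.add_right 2)]
    exact ⟨this.1.1, this.1.2, this.2⟩
  have o : ∀ a b c : Bool, one3 a b c = true → (a = true ∨ b = true ∨ c = true) ∧
      ¬(a = true ∧ b = true) ∧ ¬(a = true ∧ c = true) ∧ ¬(b = true ∧ c = true) := by decide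
  refine ⟨?_, fun i j => (o _ _ _ (k i j).2.1).1, fun i j => (o _ _ _ (k i j).2.2).1,
    fun i j => (o _ _ _ (k i j).2.1).2.1, fun i j => (o _ _ _ (k i j).2.1).2.2.1,
    fun i j => (o _ _ _ (k i j).2.1).2.2.2, fun i j => (o _ _ _ (k i j).2.2).2.1,
    fun i j => (o _ _ _ (k i j).2.2).2.2.1, fun i j => (o _ _ _ (k i j).2.2).2.2.2⟩
  rintro ⟨m1, m2⟩ hm
  by_contra hc
  simp only [Od, not_or] at hc
  have := (k (m1 / 2) (m2 / 2)).1
  rw [show 2 * (m1 / 2) = m1 by omega, show 2 * (m2 / 2) = m2 by omega] at this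
  simp [CC, this] at hm

def sq (a : Tm) : Tm := .m a a
def cb (a : Tm) : Tm := .m a (.m a a)
def ne1 (a : Tm) : Fm := .nt (.eq a .e)
def cm (a b : Tm) : Fm := .eq (.m a b) (.m b a)

def sent : Fin 12 → Fm
  | 0 => .ex (.an (ne1 (.v 0)) (.eq (cb (.v 0)) .e))
  | 1 => .ex (.an (ne1 (sq (.v 0))) (.an (ne1 (cb (.v 0))) (.eq (sq (cb (.v 0))) .e)))
  | 2 => .ex (.ex (.an (.eq (sq (.v 1)) .e) (.an (ne1 (.v 0)) (.an (.eq (cb (.v 0)) .e)
      (.eq (.m (.v 1) (.m (.v 0) (.v 1))) (sq (.v 0)))))))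
  | 3 => .ex (.an (ne1 (.v 0)) (.eq (sq (.v 0)) .e))
  | 4 => .al (.im (.eq (cb (.v 0)) .e) (.ex (.an (.eq (sq (.v 0)) .e)
      (.eq (.m (.v 0) (.m (.v 1) (.v 0))) (sq (.v 1))))))
  | 5 => .al (.al (cm (.v 1) (.v 0)))
  | 6 => .ex (.ex (.an (ne1 (.v 1)) (.an (ne1 (.v 0)) (.an (.nt (.eq (.v 1) (.v 0)))
      (.an (.eq (sq (.v 1)) .e) (.an (.eq (sq (.v 0)) .e) (cm (.v 1) (.v 0))))))))
  | 7 => .ex (.an (ne1 (.v 0)) (.an (.eq (sq (.v 0)) .e)
      (.al (.im (cm (.v 0) (.v 1)) (.im (ne1 (.v 0)) (.eq (.v 0) (.v 1)))))))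
  | 8 => .ex (.ex (.an (ne1 (.v 1)) (.an (.eq (sq (.v 1)) .e) (.an (ne1 (sq (.v 0)))
      (cm (.v 1) (.v 0))))))
  | 9 => .al (.al (.im (ne1 (sq (.v 1))) (.im (ne1 (sq (.v 0))) (cm (.v 1) (.v 0)))))
  | 10 => .ex (.an (ne1 (.v 0)) (.al (cm (.v 1) (.v 0))))
  | 11 => .al (.al (.im (ne1 (.v 1)) (.im (.eq (sq (.v 1)) .e) (.im (ne1 (.v 0))
      (.im (.eq (sq (.v 0)) .e) (.ex (.eq (.m (.v 0) (.v 2)) (.m (.v 1) (.v 0)))))))))

def Hd (K : Set P6) (s : Fin 12) : Prop := (sent s).ev K comp one (fun _ => one)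

variable (K : Set P6)

theorem hd0 : Hd K 0 ↔ ∃ g, g ∈ K ∧ ¬g = one ∧ comp g (comp g g) = one := Iff.rfl
theorem hd1 : Hd K 1 ↔ ∃ g, g ∈ K ∧ ¬comp g g = one ∧ ¬comp g (comp g g) = one ∧
    comp (comp g (comp g g)) (comp g (comp g g)) = one := Iff.rfl
theorem hd2 : Hd K 2 ↔ ∃ g, g ∈ K ∧ ∃ h, h ∈ K ∧ comp g g = one ∧ ¬h = one ∧
    comp h (comp h h) = one ∧ comp g (comp h g) = comp h h := Iff.rfl
theorem hd3 : Hd K 3 ↔ ∃ g, g ∈ K ∧ ¬g = one ∧ comp g g = one := Iff.rfl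
theorem hd4 : Hd K 4 ↔ ∀ g, g ∈ K → comp g (comp g g) = one → ∃ h, h ∈ K ∧ comp h h = one ∧
    comp h (comp g h) = comp g g := Iff.rfl
theorem hd5 : Hd K 5 ↔ ∀ g, g ∈ K → ∀ h, h ∈ K → comp g h = comp h g := Iff.rfl
theorem hd6 : Hd K 6 ↔ ∃ g, g ∈ K ∧ ∃ h, h ∈ K ∧ ¬g = one ∧ ¬h = one ∧ ¬g = h ∧
    comp g g = one ∧ comp h h = one ∧ comp g h = comp h g := Iff.rfl
theorem hd7 : Hd K 7 ↔ ∃ g, g ∈ K ∧ ¬g = one ∧ comp g g = one ∧
    ∀ h, h ∈ K → comp h g = comp g h → ¬h = one → h = g := Iff.rfl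
theorem hd8 : Hd K 8 ↔ ∃ g, g ∈ K ∧ ∃ h, h ∈ K ∧ ¬g = one ∧ comp g g = one ∧ ¬comp h h = one ∧
    comp g h = comp h g := Iff.rfl
theorem hd9 : Hd K 9 ↔ ∀ g, g ∈ K → ∀ h, h ∈ K → ¬comp g g = one → ¬comp h h = one →
    comp g h = comp h g := Iff.rfl
theorem hd10 : Hd K 10 ↔ ∃ g, g ∈ K ∧ ¬g = one ∧ ∀ h, h ∈ K → comp g h = comp h g := Iff.rfl
theorem hd11 : Hd K 11 ↔ ∀ g, g ∈ K → ∀ h, h ∈ K → ¬g = one → comp g g = one → ¬h = one →
    comp h h = one → ∃ k, k ∈ K ∧ comp k g = comp h k := Iff.rfl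

end Pool.Agent.H35.Wp
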