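import Mathlib
import Pool.Agent.H35.WpC

set_option autoImplicit false
set_option linter.unusedSimpArgs false
set_option linter.unusedVariables false

namespace Pool.Agent.H35.Wp

def tb0 : ℕ := 11597515032335544773995371863178916632105600
def L0 : List P6 := [(-1, -1, 0, 1, 1, 0), (-1, -1, 0, 1, 3, 2), (-1, -1, 0, 1, 5, 4), (-1, -1, 1, 0, 1, 1), (-1, -1, 1, 0, 3, 3), (-1, -1, 1, 0, 5, 5), (-1, 0, 0, -1, 0, 2), (-1, 0, 0, -1, 2, 4), (-1, 0, 0, -1, 4, 0), (-1, 0, 1, 1, 0, 0), (-1, 0, 1, 1, 2, 2), (-1, 0, 1, 1, 4, 4), (0, -1, -1, 0, 1, 1), (0, -1, -1, 0, 3, 3), (0, -1, -1, 0, 5, 5), (0, -1, 1, 1, 1, 0), (0, -1, 1, 1, 3, 2), (0, -1, 1, 1, 5, 4), (0, 1, -1, -1, 1, 4), (0, 1, -1, -1, 3, 0), (0, 1, -1, -1, 5, 2), (0, 1, 1, 0, 1, 3), (0, 1, 1, 0, 3, 5), (0, 1,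 1, 0, 5, 1), (1, 0, -1, -1, 0, 2), (1, 0, -1, -1, 2, 4), (1, 0, -1, -1, 4, 0), (1, 0, 0, 1, 0, 0), (1, 0, 0, 1, 2, 2), (1, 0, 0, 1, 4, 4), (1, 1, -1, 0, 1, 3), (1, 1, -1, 0, 3, 5), (1, 1, -1, 0, 5, 1), (1, 1, 0, -1, 1, 4), (1, 1, 0, -1, 3, 0), (1, 1, 0, -1, 5, 2)]
def K0 : Set P6 := KK (CC 6 tb0)
theorem g0 : Good (CC 6 tb0) := good_of (by norm_num) (by decide +kernel)
theorem l0 (a b c d s t : ℤ) : (a, b, c, d, s, t) ∈ K0 ↔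
    (a, b, c, d, s % 6, t % 6) ∈ L0 :=
  KK_iff (L := L0) (by norm_num) (by decide +kernel) a b c d s t

theorem m0 (a b c d s t : ℤ) : (a, b, c, d, s, t) ∈ K0 ↔
    (a = -1 ∧ b = -1 ∧ c = 0 ∧ d = 1 ∧ (s % 6 = 1 ∧ t % 6 = 0 ∨ s % 6 = 3 ∧ t % 6 = 2 ∨ s % 6 = 5 ∧ t % 6 = 4)) ∨
    (a = -1 ∧ b = -1 ∧ c = 1 ∧ d = 0 ∧ (s % 6 = 1 ∧ t % 6 = 1 ∨ s % 6 = 3 ∧ t % 6 = 3 ∨ s % 6 = 5 ∧ t % 6 = 5)) ∨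
    (a = -1 ∧ b = 0 ∧ c = 0 ∧ d = -1 ∧ (s % 6 = 0 ∧ t % 6 = 2 ∨ s % 6 = 2 ∧ t % 6 = 4 ∨ s % 6 = 4 ∧ t % 6 = 0)) ∨
    (a = -1 ∧ b = 0 ∧ c = 1 ∧ d = 1 ∧ (s % 6 = 0 ∧ t % 6 = 0 ∨ s % 6 = 2 ∧ t % 6 = 2 ∨ s % 6 = 4 ∧ t % 6 = 4)) ∨
    (a = 0 ∧ b = -1 ∧ c = -1 ∧ d = 0 ∧ (s % 6 = 1 ∧ t % 6 = 1 ∨ s % 6 = 3 ∧ t % 6 = 3 ∨ s % 6 = 5 ∧ t % 6 = 5)) ∨
    (a = 0 ∧ b = -1 ∧ c = 1 ∧ d = 1 ∧ (s % 6 = 1 ∧ t % 6 = 0 ∨ s % 6 = 3 ∧ t % 6 = 2 ∨ s % 6 = 5 ∧ t % 6 = 4)) ∨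
    (a = 0 ∧ b = 1 ∧ c = -1 ∧ d = -1 ∧ (s % 6 = 1 ∧ t % 6 = 4 ∨ s % 6 = 3 ∧ t % 6 = 0 ∨ s % 6 = 5 ∧ t % 6 = 2)) ∨
    (a = 0 ∧ b = 1 ∧ c = 1 ∧ d = 0 ∧ (s % 6 = 1 ∧ t % 6 = 3 ∨ s % 6 = 3 ∧ t % 6 = 5 ∨ s % 6 = 5 ∧ t % 6 = 1)) ∨
    (a = 1 ∧ b = 0 ∧ c = -1 ∧ d = -1 ∧ (s % 6 = 0 ∧ t % 6 = 2 ∨ s % 6 = 2 ∧ t % 6 = 4 ∨ s % 6 = 4 ∧ t % 6 = 0)) ∨
    (a = 1 ∧ b = 0 ∧ c = 0 ∧ d = 1 ∧ (s % 6 = 0 ∧ t % 6 = 0 ∨ s % 6 = 2 ∧ t % 6 = 2 ∨ s % 6 = 4 ∧ t % 6 = 4)) ∨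
    (a = 1 ∧ b = 1 ∧ c = -1 ∧ d = 0 ∧ (s % 6 = 1 ∧ t % 6 = 3 ∨ s % 6 = 3 ∧ t % 6 = 5 ∨ s % 6 = 5 ∧ t % 6 = 1)) ∨
    (a = 1 ∧ b = 1 ∧ c = 0 ∧ d = -1 ∧ (s % 6 = 1 ∧ t % 6 = 4 ∨ s % 6 = 3 ∧ t % 6 = 0 ∨ s % 6 = 5 ∧ t % 6 = 2)) := by
  rw [l0]
  simp only [L0, List.mem_cons, Prod.mk.injEq, List.not_mem_nil, or_false, Nat.cast_ofNat, and_or_left, or_assoc]

def tb1 : ℕ := 6022328733351463174660113372758867336845440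
def L1 : List P6 := [(-1, -1, 1, 0, 4, 1), (-1, 0, 0, -1, 4, 0), (0, -1, 1, 1, 5, 1), (0, 1, -1, -1, 5, 5), (1, 0, 0, 1, 0, 0), (1, 1, -1, 0, 0, 5)]
def K1 : Set P6 := KK (CC 6 tb1)
theorem g1 : Good (CC 6 tb1) := good_of (by norm_num) (by decide +kernel)
theorem l1 (a b c d s t : ℤ) : (a, b, c, d, s, t) ∈ K1 ↔
    (a, b, c, d, s % 6, t % 6) ∈ L1 :=
  KK_iff (L := L1) (by norm_num) (by decide +kernel) a b c d s t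

theorem m1 (a b c d s t : ℤ) : (a, b, c, d, s, t) ∈ K1 ↔
    (a = -1 ∧ b = -1 ∧ c = 1 ∧ d = 0 ∧ (s % 6 = 4 ∧ t % 6 = 1)) ∨
    (a = -1 ∧ b = 0 ∧ c = 0 ∧ d = -1 ∧ (s % 6 = 4 ∧ t % 6 = 0)) ∨
    (a = 0 ∧ b = -1 ∧ c = 1 ∧ d = 1 ∧ (s % 6 = 5 ∧ t % 6 = 1)) ∨
    (a = 0 ∧ b = 1 ∧ c = -1 ∧ d = -1 ∧ (s % 6 = 5 ∧ t % 6 = 5)) ∨
    (a = 1 ∧ b = 0 ∧ c = 0 ∧ d = 1 ∧ (s % 6 = 0 ∧ t % 6 = 0)) ∨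
    (a = 1 ∧ b = 1 ∧ c = -1 ∧ d = 0 ∧ (s % 6 = 0 ∧ t % 6 = 5)) := by
  rw [l1]
  simp only [L1, List.mem_cons, Prod.mk.injEq, List.not_mem_nil, or_false, Nat.cast_ofNat, and_or_left, or_assoc]

def tb2 : ℕ := 466186953180437205092008292417420832973440
def L2 : List P6 := [(-1, -1, 1, 0, 3, 3), (0, 1, -1, -1, 3, 0), (1, 0, 0, 1, 0, 0)]
def K2 : Set P6 := KK (CC 6 tb2)
theorem g2 : Good (CC 6 tb2) := good_of (by norm_num) (by decide +kernel)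
theorem l2 (a b c d s t : ℤ) : (a, b, c, d, s, t) ∈ K2 ↔
    (a, b, c, d, s % 6, t % 6) ∈ L2 :=
  KK_iff (L := L2) (by norm_num) (by decide +kernel) a b c d s t

theorem m2 (a b c d s t : ℤ) : (a, b, c, d, s, t) ∈ K2 ↔
    (a = -1 ∧ b = -1 ∧ c = 1 ∧ d = 0 ∧ (s % 6 = 3 ∧ t % 6 = 3)) ∨
    (a = 0 ∧ b = 1 ∧ c = -1 ∧ d = -1 ∧ (s % 6 = 3 ∧ t % 6 = 0)) ∨
    (a = 1 ∧ b = 0 ∧ c = 0 ∧ d = 1 ∧ (s % 6 = 0 ∧ t % 6 = 0)) := by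
  rw [l2]
  simp only [L2, List.mem_cons, Prod.mk.injEq, List.not_mem_nil, or_false, Nat.cast_ofNat, and_or_left, or_assoc]

def tb3 : ℕ := 1794011550836757121501078866079297183564290
def L3 : List P6 := [(-1, -1, 1, 0, 0, 0), (-1, -1, 1, 0, 2, 2), (-1, -1, 1, 0, 4, 4), (-1, 0, 1, 1, 0, 0), (-1, 0, 1, 1, 2, 2), (-1, 0, 1, 1, 4, 4), (0, -1, -1, 0, 0, 0), (0, -1, -1, 0, 2, 2), (0, -1, -1, 0, 4, 4), (0, 1, -1, -1, 0, 0), (0, 1, -1, -1, 2, 2), (0, 1, -1, -1, 4, 4), (1, 0, 0, 1, 0, 0), (1, 0, 0, 1, 2, 2), (1, 0, 0, 1, 4, 4), (1, 1, 0, -1, 0, 0), (1, 1, 0, -1, 2, 2), (1, 1, 0, -1, 4, 4)]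
def K3 : Set P6 := KK (CC 6 tb3)
theorem g3 : Good (CC 6 tb3) := good_of (by norm_num) (by decide +kernel)
theorem l3 (a b c d s t : ℤ) : (a, b, c, d, s, t) ∈ K3 ↔
    (a, b, c, d, s % 6, t % 6) ∈ L3 :=
  KK_iff (L := L3) (by norm_num) (by decide +kernel) a b c d s t

theorem m3 (a b c d s t : ℤ) : (a, b, c, d, s, t) ∈ K3 ↔
    (a = -1 ∧ b = -1 ∧ c = 1 ∧ d = 0 ∧ (s % 6 = 0 ∧ t % 6 = 0 ∨ s % 6 = 2 ∧ t % 6 = 2 ∨ s % 6 = 4 ∧ t % 6 = 4)) ∨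
    (a = -1 ∧ b = 0 ∧ c = 1 ∧ d = 1 ∧ (s % 6 = 0 ∧ t % 6 = 0 ∨ s % 6 = 2 ∧ t % 6 = 2 ∨ s % 6 = 4 ∧ t % 6 = 4)) ∨
    (a = 0 ∧ b = -1 ∧ c = -1 ∧ d = 0 ∧ (s % 6 = 0 ∧ t % 6 = 0 ∨ s % 6 = 2 ∧ t % 6 = 2 ∨ s % 6 = 4 ∧ t % 6 = 4)) ∨
    (a = 0 ∧ b = 1 ∧ c = -1 ∧ d = -1 ∧ (s % 6 = 0 ∧ t % 6 = 0 ∨ s % 6 = 2 ∧ t % 6 = 2 ∨ s % 6 = 4 ∧ t % 6 = 4)) ∨
    (a = 1 ∧ b = 0 ∧ c = 0 ∧ d = 1 ∧ (s % 6 = 0 ∧ t % 6 = 0 ∨ s % 6 = 2 ∧ t % 6 = 2 ∨ s % 6 = 4 ∧ t % 6 = 4)) ∨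
    (a = 1 ∧ b = 1 ∧ c = 0 ∧ d = -1 ∧ (s % 6 = 0 ∧ t % 6 = 0 ∨ s % 6 = 2 ∧ t % 6 = 2 ∨ s % 6 = 4 ∧ t % 6 = 4)) := by
  rw [l3]
  simp only [L3, List.mem_cons, Prod.mk.injEq, List.not_mem_nil, or_false, Nat.cast_ofNat, and_or_left, or_assoc]

def tb4 : ℕ := 814636096907478191679093753962714703897120
def L4 : List P6 := [(-1, -1, 1, 0, 3, 3), (-1, 0, 1, 1, 0, 0), (0, -1, -1, 0, 3, 3), (0, 1, -1, -1, 3, 0), (1, 0, 0, 1, 0, 0), (1, 1, 0, -1, 3, 0)]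
def K4 : Set P6 := KK (CC 6 tb4)
theorem g4 : Good (CC 6 tb4) := good_of (by norm_num) (by decide +kernel)
theorem l4 (a b c d s t : ℤ) : (a, b, c, d, s, t) ∈ K4 ↔
    (a, b, c, d, s % 6, t % 6) ∈ L4 :=
  KK_iff (L := L4) (by norm_num) (by decide +kernel) a b c d s t

theorem m4 (a b c d s t : ℤ) : (a, b, c, d, s, t) ∈ K4 ↔
    (a = -1 ∧ b = -1 ∧ c = 1 ∧ d = 0 ∧ (s % 6 = 3 ∧ t % 6 = 3)) ∨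
    (a = -1 ∧ b = 0 ∧ c = 1 ∧ d = 1 ∧ (s % 6 = 0 ∧ t % 6 = 0)) ∨
    (a = 0 ∧ b = -1 ∧ c = -1 ∧ d = 0 ∧ (s % 6 = 3 ∧ t % 6 = 3)) ∨
    (a = 0 ∧ b = 1 ∧ c = -1 ∧ d = -1 ∧ (s % 6 = 3 ∧ t % 6 = 0)) ∨
    (a = 1 ∧ b = 0 ∧ c = 0 ∧ d = 1 ∧ (s % 6 = 0 ∧ t % 6 = 0)) ∨
    (a = 1 ∧ b = 1 ∧ c = 0 ∧ d = -1 ∧ (s % 6 = 3 ∧ t % 6 = 0)) := by
  rw [l4]
  simp only [L4, List.mem_cons, Prod.mk.injEq, List.not_mem_nil, or_false, Nat.cast_ofNat, and_or_left, or_assoc]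

def tb5 : ℕ := 14852647630980521142769672036276309096480770
def L5 : List P6 := [(1, 0, 0, 1, 0, 0)]
def K5 : Set P6 := KK (CC 6 tb5)
theorem g5 : Good (CC 6 tb5) := good_of (by norm_num) (by decide +kernel)
theorem l5 (a b c d s t : ℤ) : (a, b, c, d, s, t) ∈ K5 ↔
    (a, b, c, d, s % 6, t % 6) ∈ L5 :=
  KK_iff (L := L5) (by norm_num) (by decide +kernel) a b c d s t

theorem m5 (a b c d s t : ℤ) : (a, b, c, d, s, t) ∈ K5 ↔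
    (a = 1 ∧ b = 0 ∧ c = 0 ∧ d = 1 ∧ (s % 6 = 0 ∧ t % 6 = 0)) := by
  rw [l5]
  simp only [L5, List.mem_cons, Prod.mk.injEq, List.not_mem_nil, or_false, Nat.cast_ofNat, and_or_left, or_assoc]

def tb6 : ℕ := 12033076452265918771533774076778602524385800
def L6 : List P6 := [(-1, 0, 1, 1, 1, 1), (-1, 0, 1, 1, 1, 4), (1, 0, 0, 1, 0, 0), (1, 0, 0, 1, 0, 3)]
def K6 : Set P6 := KK (CC 6 tb6)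
theorem g6 : Good (CC 6 tb6) := good_of (by norm_num) (by decide +kernel)
theorem l6 (a b c d s t : ℤ) : (a, b, c, d, s, t) ∈ K6 ↔
    (a, b, c, d, s % 6, t % 6) ∈ L6 :=
  KK_iff (L := L6) (by norm_num) (by decide +kernel) a b c d s t

theorem m6 (a b c d s t : ℤ) : (a, b, c, d, s, t) ∈ K6 ↔
    (a = -1 ∧ b = 0 ∧ c = 1 ∧ d = 1 ∧ (s % 6 = 1 ∧ t % 6 = 1 ∨ s % 6 = 1 ∧ t % 6 = 4)) ∨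
    (a = 1 ∧ b = 0 ∧ c = 0 ∧ d = 1 ∧ (s % 6 = 0 ∧ t % 6 = 0 ∨ s % 6 = 0 ∧ t % 6 = 3)) := by
  rw [l6]
  simp only [L6, List.mem_cons, Prod.mk.injEq, List.not_mem_nil, or_false, Nat.cast_ofNat, and_or_left, or_assoc]

def tb7 : ℕ := 12903560732241104571868459920744444083118600
def L7 : List P6 := [(-1, 0, 0, -1, 2, 5), (-1, 0, 1, 1, 2, 2), (1, 0, -1, -1, 0, 3), (1, 0, 0, 1, 0, 0)]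
def K7 : Set P6 := KK (CC 6 tb7)
theorem g7 : Good (CC 6 tb7) := good_of (by norm_num) (by decide +kernel)
theorem l7 (a b c d s t : ℤ) : (a, b, c, d, s, t) ∈ K7 ↔
    (a, b, c, d, s % 6, t % 6) ∈ L7 :=
  KK_iff (L := L7) (by norm_num) (by decide +kernel) a b c d s t

theorem m7 (a b c d s t : ℤ) : (a, b, c, d, s, t) ∈ K7 ↔
    (a = -1 ∧ b = 0 ∧ c = 0 ∧ d = -1 ∧ (s % 6 = 2 ∧ t % 6 = 5)) ∨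
    (a = -1 ∧ b = 0 ∧ c = 1 ∧ d = 1 ∧ (s % 6 = 2 ∧ t % 6 = 2)) ∨
    (a = 1 ∧ b = 0 ∧ c = -1 ∧ d = -1 ∧ (s % 6 = 0 ∧ t % 6 = 3)) ∨
    (a = 1 ∧ b = 0 ∧ c = 0 ∧ d = 1 ∧ (s % 6 = 0 ∧ t % 6 = 0)) := by
  rw [l7]
  simp only [L7, List.mem_cons, Prod.mk.injEq, List.not_mem_nil, or_false, Nat.cast_ofNat, and_or_left, or_assoc]

def tb8 : ℕ := 37220456360642614690824798323655048456835600649042254560531520763121761616000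
def L8 : List P6 := [(-1, -1, 0, 1, 2, 0), (-1, -1, 0, 1, 6, 0), (-1, 0, 0, -1, 2, 0), (-1, 0, 0, -1, 6, 0), (1, 0, 0, 1, 0, 0), (1, 0, 0, 1, 4, 0), (1, 1, 0, -1, 0, 0), (1, 1, 0, -1, 4, 0)]
def K8 : Set P6 := KK (CC 8 tb8)
theorem g8 : Good (CC 8 tb8) := good_of (by norm_num) (by decide +kernel)
theorem l8 (a b c d s t : ℤ) : (a, b, c, d, s, t) ∈ K8 ↔
    (a, b, c, d, s % 8, t % 8) ∈ L8 :=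
  KK_iff (L := L8) (by norm_num) (by decide +kernel) a b c d s t

theorem m8 (a b c d s t : ℤ) : (a, b, c, d, s, t) ∈ K8 ↔
    (a = -1 ∧ b = -1 ∧ c = 0 ∧ d = 1 ∧ (s % 8 = 2 ∧ t % 8 = 0 ∨ s % 8 = 6 ∧ t % 8 = 0)) ∨
    (a = -1 ∧ b = 0 ∧ c = 0 ∧ d = -1 ∧ (s % 8 = 2 ∧ t % 8 = 0 ∨ s % 8 = 6 ∧ t % 8 = 0)) ∨
    (a = 1 ∧ b = 0 ∧ c = 0 ∧ d = 1 ∧ (s % 8 = 0 ∧ t % 8 = 0 ∨ s % 8 = 4 ∧ t % 8 = 0)) ∨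
    (a = 1 ∧ b = 1 ∧ c = 0 ∧ d = -1 ∧ (s % 8 = 0 ∧ t % 8 = 0 ∨ s % 8 = 4 ∧ t % 8 = 0)) := by
  rw [l8]
  simp only [L8, List.mem_cons, Prod.mk.injEq, List.not_mem_nil, or_false, Nat.cast_ofNat, and_or_left, or_assoc]

def tb9 : ℕ := 5951581886285946716249594602793357133553800
def L9 : List P6 := [(-1, 0, 0, -1, 5, 0), (1, 0, 0, 1, 0, 0)]
def K9 : Set P6 := KK (CC 6 tb9)
theorem g9 : Good (CC 6 tb9) := good_of (by norm_num) (by decide +kernel)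
theorem l9 (a b c d s t : ℤ) : (a, b, c, d, s, t) ∈ K9 ↔
    (a, b, c, d, s % 6, t % 6) ∈ L9 :=
  KK_iff (L := L9) (by norm_num) (by decide +kernel) a b c d s t

theorem m9 (a b c d s t : ℤ) : (a, b, c, d, s, t) ∈ K9 ↔
    (a = -1 ∧ b = 0 ∧ c = 0 ∧ d = -1 ∧ (s % 6 = 5 ∧ t % 6 = 0)) ∨
    (a = 1 ∧ b = 0 ∧ c = 0 ∧ d = 1 ∧ (s % 6 = 0 ∧ t % 6 = 0)) := by
  rw [l9]
  simp only [L9, List.mem_cons, Prod.mk.injEq, List.not_mem_nil, or_false, Nat.cast_ofNat, and_or_left, or_assoc]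

def tb10 : ℕ := 1772233481948061809967035916604572648673800
def L10 : List P6 := [(-1, 0, 0, -1, 0, 0), (-1, 0, 0, -1, 0, 3), (-1, 0, 1, 1, 3, 0), (-1, 0, 1, 1, 3, 3), (1, 0, -1, -1, 3, 0), (1, 0, -1, -1, 3, 3), (1, 0, 0, 1, 0, 0), (1, 0, 0, 1, 0, 3)]
def K10 : Set P6 := KK (CC 6 tb10)
theorem g10 : Good (CC 6 tb10) := good_of (by norm_num) (by decide +kernel)
theorem l10 (a b c d s t : ℤ) : (a, b, c, d, s, t) ∈ K10 ↔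
    (a, b, c, d, s % 6, t % 6) ∈ L10 :=
  KK_iff (L := L10) (by norm_num) (by decide +kernel) a b c d s t

theorem m10 (a b c d s t : ℤ) : (a, b, c, d, s, t) ∈ K10 ↔
    (a = -1 ∧ b = 0 ∧ c = 0 ∧ d = -1 ∧ (s % 6 = 0 ∧ t % 6 = 0 ∨ s % 6 = 0 ∧ t % 6 = 3)) ∨
    (a = -1 ∧ b = 0 ∧ c = 1 ∧ d = 1 ∧ (s % 6 = 3 ∧ t % 6 = 0 ∨ s % 6 = 3 ∧ t % 6 = 3)) ∨
    (a = 1 ∧ b = 0 ∧ c = -1 ∧ d = -1 ∧ (s % 6 = 3 ∧ t % 6 = 0 ∨ s % 6 = 3 ∧ t % 6 = 3)) ∨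
    (a = 1 ∧ b = 0 ∧ c = 0 ∧ d = 1 ∧ (s % 6 = 0 ∧ t % 6 = 0 ∨ s % 6 = 0 ∧ t % 6 = 3)) := by
  rw [l10]
  simp only [L10, List.mem_cons, Prod.mk.injEq, List.not_mem_nil, or_false, Nat.cast_ofNat, and_or_left, or_assoc]

def tb11 : ℕ := 3704997508242972797384033554347075395995650
def L11 : List P6 := [(-1, 0, 0, -1, 2, 3), (-1, 0, 0, -1, 5, 0), (0, -1, -1, 0, 1, 1), (0, -1, -1, 0, 4, 4), (0, 1, 1, 0, 1, 2), (0, 1, 1, 0, 4, 5), (1, 0, 0, 1, 0, 0), (1, 0, 0, 1, 3, 3)]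
def K11 : Set P6 := KK (CC 6 tb11)
theorem g11 : Good (CC 6 tb11) := good_of (by norm_num) (by decide +kernel)
theorem l11 (a b c d s t : ℤ) : (a, b, c, d, s, t) ∈ K11 ↔
    (a, b, c, d, s % 6, t % 6) ∈ L11 :=
  KK_iff (L := L11) (by norm_num) (by decide +kernel) a b c d s t

theorem m11 (a b c d s t : ℤ) : (a, b, c, d, s, t) ∈ K11 ↔
    (a = -1 ∧ b = 0 ∧ c = 0 ∧ d = -1 ∧ (s % 6 = 2 ∧ t % 6 = 3 ∨ s % 6 = 5 ∧ t % 6 = 0)) ∨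
    (a = 0 ∧ b = -1 ∧ c = -1 ∧ d = 0 ∧ (s % 6 = 1 ∧ t % 6 = 1 ∨ s % 6 = 4 ∧ t % 6 = 4)) ∨
    (a = 0 ∧ b = 1 ∧ c = 1 ∧ d = 0 ∧ (s % 6 = 1 ∧ t % 6 = 2 ∨ s % 6 = 4 ∧ t % 6 = 5)) ∨
    (a = 1 ∧ b = 0 ∧ c = 0 ∧ d = 1 ∧ (s % 6 = 0 ∧ t % 6 = 0 ∨ s % 6 = 3 ∧ t % 6 = 3)) := by
  rw [l11]
  simp only [L11, List.mem_cons, Prod.mk.injEq, List.not_mem_nil, or_false, Nat.cast_ofNat, and_or_left, or_assoc]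

def tb12 : ℕ := 466186949937628126529266132454390186025600
def L12 : List P6 := [(-1, 0, 1, 1, 0, 0), (1, 0, 0, 1, 0, 0)]
def K12 : Set P6 := KK (CC 6 tb12)
theorem g12 : Good (CC 6 tb12) := good_of (by norm_num) (by decide +kernel)
theorem l12 (a b c d s t : ℤ) : (a, b, c, d, s, t) ∈ K12 ↔
    (a, b, c, d, s % 6, t % 6) ∈ L12 :=
  KK_iff (L := L12) (by norm_num) (by decide +kernel) a b c d s t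

theorem m12 (a b c d s t : ℤ) : (a, b, c, d, s, t) ∈ K12 ↔
    (a = -1 ∧ b = 0 ∧ c = 1 ∧ d = 1 ∧ (s % 6 = 0 ∧ t % 6 = 0)) ∨
    (a = 1 ∧ b = 0 ∧ c = 0 ∧ d = 1 ∧ (s % 6 = 0 ∧ t % 6 = 0)) := by
  rw [l12]
  simp only [L12, List.mem_cons, Prod.mk.injEq, List.not_mem_nil, or_false, Nat.cast_ofNat, and_or_left, or_assoc]

def tb13 : ℕ := 6468770560554452970843042792665894426847240
def L13 : List P6 := [(0, -1, -1, 0, 1, 1), (0, -1, -1, 0, 4, 4), (1, 0, 0, 1, 0, 0), (1, 0, 0, 1, 3, 3)]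
def K13 : Set P6 := KK (CC 6 tb13)
theorem g13 : Good (CC 6 tb13) := good_of (by norm_num) (by decide +kernel)
theorem l13 (a b c d s t : ℤ) : (a, b, c, d, s, t) ∈ K13 ↔
    (a, b, c, d, s % 6, t % 6) ∈ L13 :=
  KK_iff (L := L13) (by norm_num) (by decide +kernel) a b c d s t

theorem m13 (a b c d s t : ℤ) : (a, b, c, d, s, t) ∈ K13 ↔
    (a = 0 ∧ b = -1 ∧ c = -1 ∧ d = 0 ∧ (s % 6 = 1 ∧ t % 6 = 1 ∨ s % 6 = 4 ∧ t % 6 = 4)) ∨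
    (a = 1 ∧ b = 0 ∧ c = 0 ∧ d = 1 ∧ (s % 6 = 0 ∧ t % 6 = 0 ∨ s % 6 = 3 ∧ t % 6 = 3)) := by
  rw [l13]
  simp only [L13, List.mem_cons, Prod.mk.injEq, List.not_mem_nil, or_false, Nat.cast_ofNat, and_or_left, or_assoc]

end Pool.Agent.H35.Wp
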