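import Mathlib
import Pool.Agent.H35.WpD

set_option autoImplicit false
set_option linter.unusedSimpArgs false
set_option linter.unusedVariables false

namespace Pool.Agent.H35.Wp

theorem f0_0 : Hd K0 0 := by
  rw [hd0]
  exact ⟨(-1, -1, 1, 0, -1, -1), (l0 _ _ _ _ _ _).2 (by decide), by decide⟩

theorem f0_1 : Hd K0 1 := by
  rw [hd1]
  exact ⟨(0, -1, 1, 1, 1, 0), (l0 _ _ _ _ _ _).2 (by decide), by decide⟩

theorem f0_2 : Hd K0 2 := by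
  rw [hd2]
  exact ⟨(-1, 0, 1, 1, 0, 0), (l0 _ _ _ _ _ _).2 (by decide), (-1, -1, 1, 0, -1, -1), (l0 _ _ _ _ _ _).2 (by decide), by decide, by decide, by decide, by decide⟩

theorem f1_0 : Hd K1 0 := by
  rw [hd0]
  exact ⟨(0, 1, -1, -1, -1, -1), (l1 _ _ _ _ _ _).2 (by decide), by decide⟩

theorem f1_1 : Hd K1 1 := by
  rw [hd1]
  exact ⟨(1, 1, -1, 0, 0, -1), (l1 _ _ _ _ _ _).2 (by decide), by decide⟩

theorem f1_2 : ¬ Hd K1 2 := by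
  rw [hd2]
  rintro ⟨⟨a, b, c, d, s, t⟩, hg, ⟨a', b', c', d', s', t'⟩, hh, h1, h2, h3, h4⟩
  rw [m1] at hg hh
  rcases hg with ⟨rfl, rfl, rfl, rfl, hg⟩ | ⟨rfl, rfl, rfl, rfl, hg⟩ | ⟨rfl, rfl, rfl, rfl, hg⟩ | ⟨rfl, rfl, rfl, rfl, hg⟩ | ⟨rfl, rfl, rfl, rfl, hg⟩ | ⟨rfl, rfl, rfl, rfl, hg⟩ <;>
  rcases hh with ⟨rfl, rfl, rfl, rfl, hh⟩ | ⟨rfl, rfl, rfl, rfl, hh⟩ | ⟨rfl, rfl, rfl, rfl, hh⟩ | ⟨rfl, rfl, rfl, rfl, hh⟩ | ⟨rfl, rfl, rfl, rfl, hh⟩ | ⟨rfl, rfl, rfl, rfl, hh⟩ <;>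
  simp only [comp, one, Prod.mk.injEq, true_and, and_true, false_and, and_false, not_true_eq_false, not_false_eq_true, ne_eq] at * <;> omega

theorem f2_0 : Hd K2 0 := by
  rw [hd0]
  exact ⟨(0, 1, -1, -1, -3, 0), (l2 _ _ _ _ _ _).2 (by decide), by decide⟩

theorem f2_1 : ¬ Hd K2 1 := by
  rw [hd1]
  rintro ⟨⟨a, b, c, d, s, t⟩, hg, h1, h2, h3⟩
  rw [m2] at hg
  rcases hg with ⟨rfl, rfl, rfl, rfl, hg⟩ | ⟨rfl, rfl, rfl, rfl, hg⟩ | ⟨rfl, rfl, rfl, rfl, hg⟩ <;>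
  simp only [comp, one, Prod.mk.injEq, true_and, and_true, false_and, and_false, not_true_eq_false, not_false_eq_true, ne_eq] at * <;> omega

theorem f2_3 : ¬ Hd K2 3 := by
  rw [hd3]
  rintro ⟨⟨a, b, c, d, s, t⟩, hg, h1, h2⟩
  rw [m2] at hg
  rcases hg with ⟨rfl, rfl, rfl, rfl, hg⟩ | ⟨rfl, rfl, rfl, rfl, hg⟩ | ⟨rfl, rfl, rfl, rfl, hg⟩ <;>
  simp only [comp, one, Prod.mk.injEq, true_and, and_true, false_and, and_false, not_true_eq_false, not_false_eq_true, ne_eq] at * <;> omega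

theorem f3_0 : Hd K3 0 := by
  rw [hd0]
  exact ⟨(-1, -1, 1, 0, 0, 0), (l3 _ _ _ _ _ _).2 (by decide), by decide⟩

theorem f3_1 : ¬ Hd K3 1 := by
  rw [hd1]
  rintro ⟨⟨a, b, c, d, s, t⟩, hg, h1, h2, h3⟩
  rw [m3] at hg
  rcases hg with ⟨rfl, rfl, rfl, rfl, hg⟩ | ⟨rfl, rfl, rfl, rfl, hg⟩ | ⟨rfl, rfl, rfl, rfl, hg⟩ | ⟨rfl, rfl, rfl, rfl, hg⟩ | ⟨rfl, rfl, rfl, rfl, hg⟩ | ⟨rfl, rfl, rfl, rfl, hg⟩ <;>
  simp only [comp, one, Prod.mk.injEq, true_and, and_true, false_and, and_false, not_true_eq_false, not_false_eq_true, ne_eq] at * <;> omega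

theorem f3_3 : Hd K3 3 := by
  rw [hd3]
  exact ⟨(-1, 0, 1, 1, 0, 0), (l3 _ _ _ _ _ _).2 (by decide), by decide⟩

theorem f3_4 : Hd K3 4 := by
  rw [hd4]
  rintro ⟨a, b, c, d, s, t⟩ hg h1
  rw [m3] at hg
  rcases hg with ⟨rfl, rfl, rfl, rfl, hg⟩ | ⟨rfl, rfl, rfl, rfl, hg⟩ | ⟨rfl, rfl, rfl, rfl, hg⟩ | ⟨rfl, rfl, rfl, rfl, hg⟩ | ⟨rfl, rfl, rfl, rfl, hg⟩ | ⟨rfl, rfl, rfl, rfl, hg⟩
  · obtain ⟨m, rfl⟩ : ∃ m, t = 2 * m := ⟨t / 2, by omega⟩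
    obtain ⟨k, rfl⟩ : ∃ k, s = 2 * m + 6 * k := ⟨(s - 2 * m) / 6, by omega⟩
    clear hg h1
    refine ⟨(-1, 0, 1, 1, 0 * m + 4 * k, 0 * m + -2 * k), (m3 _ _ _ _ _ _).2 (Or.inr (Or.inl ⟨rfl, rfl, rfl, rfl, by omega⟩)), ?_, ?_⟩ <;>
    simp only [comp, one, Prod.mk.injEq, true_and, and_true, false_and, and_false, not_true_eq_false, not_false_eq_true, ne_eq] at * <;> omega
  · exfalso
    simp only [comp, one, Prod.mk.injEq, true_and, and_true, false_and, and_false, not_true_eq_false, not_false_eq_true, ne_eq] at * <;> omega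
  · exfalso
    simp only [comp, one, Prod.mk.injEq, true_and, and_true, false_and, and_false, not_true_eq_false, not_false_eq_true, ne_eq] at * <;> omega
  · obtain ⟨m, rfl⟩ : ∃ m, t = 2 * m := ⟨t / 2, by omega⟩
    obtain ⟨k, rfl⟩ : ∃ k, s = 2 * m + 6 * k := ⟨(s - 2 * m) / 6, by omega⟩
    clear hg h1
    refine ⟨(-1, 0, 1, 1, 4 * m + 8 * k, -2 * m + -4 * k), (m3 _ _ _ _ _ _).2 (Or.inr (Or.inl ⟨rfl, rfl, rfl, rfl, by omega⟩)), ?_, ?_⟩ <;>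
    simp only [comp, one, Prod.mk.injEq, true_and, and_true, false_and, and_false, not_true_eq_false, not_false_eq_true, ne_eq] at * <;> omega
  · refine ⟨(1, 0, 0, 1, 0, 0), (l3 _ _ _ _ _ _).2 (by decide), by decide, ?_⟩
    simp only [comp, one, Prod.mk.injEq, true_and, and_true, false_and, and_false, not_true_eq_false, not_false_eq_true, ne_eq] at * <;> omega
  · exfalso
    simp only [comp, one, Prod.mk.injEq, true_and, and_true, false_and, and_false, not_true_eq_false, not_false_eq_true, ne_eq] at * <;> omega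

theorem f4_0 : Hd K4 0 := by
  rw [hd0]
  exact ⟨(0, 1, -1, -1, -3, 0), (l4 _ _ _ _ _ _).2 (by decide), by decide⟩

theorem f4_1 : ¬ Hd K4 1 := by
  rw [hd1]
  rintro ⟨⟨a, b, c, d, s, t⟩, hg, h1, h2, h3⟩
  rw [m4] at hg
  rcases hg with ⟨rfl, rfl, rfl, rfl, hg⟩ | ⟨rfl, rfl, rfl, rfl, hg⟩ | ⟨rfl, rfl, rfl, rfl, hg⟩ | ⟨rfl, rfl, rfl, rfl, hg⟩ | ⟨rfl, rfl, rfl, rfl, hg⟩ | ⟨rfl, rfl, rfl, rfl, hg⟩ <;>
  simp only [comp, one, Prod.mk.injEq, true_and, and_true, false_and, and_false, not_true_eq_false, not_false_eq_true, ne_eq] at * <;> omega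

theorem f4_3 : Hd K4 3 := by
  rw [hd3]
  exact ⟨(-1, 0, 1, 1, 0, 0), (l4 _ _ _ _ _ _).2 (by decide), by decide⟩

theorem f4_4 : ¬ Hd K4 4 := by
  rw [hd4]
  intro k
  obtain ⟨⟨a', b', c', d', s', t'⟩, hh, h1, h2⟩ := k (0, 1, -1, -1, -3, 0) ((l4 _ _ _ _ _ _).2 (by decide)) (by decide)
  clear k
  rw [m4] at hh
  rcases hh with ⟨rfl, rfl, rfl, rfl, hh⟩ | ⟨rfl, rfl, rfl, rfl, hh⟩ | ⟨rfl, rfl, rfl, rfl, hh⟩ | ⟨rfl, rfl, rfl, rfl, hh⟩ | ⟨rfl, rfl, rfl, rfl, hh⟩ | ⟨rfl, rfl, rfl, rfl, hh⟩ <;>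
  simp only [comp, one, Prod.mk.injEq, true_and, and_true, false_and, and_false, not_true_eq_false, not_false_eq_true, ne_eq] at * <;> omega

theorem f5_0 : ¬ Hd K5 0 := by
  rw [hd0]
  rintro ⟨⟨a, b, c, d, s, t⟩, hg, h1, h2⟩
  rw [m5] at hg
  rcases hg with ⟨rfl, rfl, rfl, rfl, hg⟩ <;>
  simp only [comp, one, Prod.mk.injEq, true_and, and_true, false_and, and_false, not_true_eq_false, not_false_eq_true, ne_eq] at * <;> omega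

theorem f5_3 : ¬ Hd K5 3 := by
  rw [hd3]
  rintro ⟨⟨a, b, c, d, s, t⟩, hg, h1, h2⟩
  rw [m5] at hg
  rcases hg with ⟨rfl, rfl, rfl, rfl, hg⟩ <;>
  simp only [comp, one, Prod.mk.injEq, true_and, and_true, false_and, and_false, not_true_eq_false, not_false_eq_true, ne_eq] at * <;> omega

theorem f5_5 : Hd K5 5 := by
  rw [hd5]
  rintro ⟨a, b, c, d, s, t⟩ hg ⟨a', b', c', d', s', t'⟩ hh
  rw [m5] at hg hh
  rcases hg with ⟨rfl, rfl, rfl, rfl, hg⟩ <;>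
  rcases hh with ⟨rfl, rfl, rfl, rfl, hh⟩ <;>
  simp only [comp, one, Prod.mk.injEq, true_and, and_true, false_and, and_false, not_true_eq_false, not_false_eq_true, ne_eq] at * <;> omega

theorem f6_0 : ¬ Hd K6 0 := by
  rw [hd0]
  rintro ⟨⟨a, b, c, d, s, t⟩, hg, h1, h2⟩
  rw [m6] at hg
  rcases hg with ⟨rfl, rfl, rfl, rfl, hg⟩ | ⟨rfl, rfl, rfl, rfl, hg⟩ <;>
  simp only [comp, one, Prod.mk.injEq, true_and, and_true, false_and, and_false, not_true_eq_false, not_false_eq_true, ne_eq] at * <;> omega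

theorem f6_3 : ¬ Hd K6 3 := by
  rw [hd3]
  rintro ⟨⟨a, b, c, d, s, t⟩, hg, h1, h2⟩
  rw [m6] at hg
  rcases hg with ⟨rfl, rfl, rfl, rfl, hg⟩ | ⟨rfl, rfl, rfl, rfl, hg⟩ <;>
  simp only [comp, one, Prod.mk.injEq, true_and, and_true, false_and, and_false, not_true_eq_false, not_false_eq_true, ne_eq] at * <;> omega

theorem f6_5 : ¬ Hd K6 5 := by
  rw [hd5]
  intro k
  exact absurd (k (-1, 0, 1, 1, 1, 1) ((l6 _ _ _ _ _ _).2 (by decide)) (-1, 0, 1, 1, -5, 1) ((l6 _ _ _ _ _ _).2 (by decide))) (by decide)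

theorem f7_0 : ¬ Hd K7 0 := by
  rw [hd0]
  rintro ⟨⟨a, b, c, d, s, t⟩, hg, h1, h2⟩
  rw [m7] at hg
  rcases hg with ⟨rfl, rfl, rfl, rfl, hg⟩ | ⟨rfl, rfl, rfl, rfl, hg⟩ | ⟨rfl, rfl, rfl, rfl, hg⟩ | ⟨rfl, rfl, rfl, rfl, hg⟩ <;>
  simp only [comp, one, Prod.mk.injEq, true_and, and_true, false_and, and_false, not_true_eq_false, not_false_eq_true, ne_eq] at * <;> omega

theorem f7_3 : Hd K7 3 := by
  rw [hd3]
  exact ⟨(-1, 0, 0, -1, 2, -1), (l7 _ _ _ _ _ _).2 (by decide), by decide⟩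

theorem f7_6 : Hd K7 6 := by
  rw [hd6]
  exact ⟨(1, 0, -1, -1, 0, -3), (l7 _ _ _ _ _ _).2 (by decide), (-1, 0, 0, -1, -4, -1), (l7 _ _ _ _ _ _).2 (by decide), by decide, by decide, by decide, by decide, by decide, by decide⟩

theorem f7_7 : Hd K7 7 := by
  rw [hd7]
  refine ⟨(-1, 0, 0, -1, 2, -1), (l7 _ _ _ _ _ _).2 (by decide), by decide, by decide, ?_⟩
  rintro ⟨a', b', c', d', s', t'⟩ hh h1 h2
  rw [m7] at hh
  rcases hh with ⟨rfl, rfl, rfl, rfl, hh⟩ | ⟨rfl, rfl, rfl, rfl, hh⟩ | ⟨rfl, rfl, rfl, rfl, hh⟩ | ⟨rfl, rfl, rfl, rfl, hh⟩ <;>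
  simp only [comp, one, Prod.mk.injEq, true_and, and_true, false_and, and_false, not_true_eq_false, not_false_eq_true, ne_eq] at * <;> omega

theorem f8_0 : ¬ Hd K8 0 := by
  rw [hd0]
  rintro ⟨⟨a, b, c, d, s, t⟩, hg, h1, h2⟩
  rw [m8] at hg
  rcases hg with ⟨rfl, rfl, rfl, rfl, hg⟩ | ⟨rfl, rfl, rfl, rfl, hg⟩ | ⟨rfl, rfl, rfl, rfl, hg⟩ | ⟨rfl, rfl, rfl, rfl, hg⟩ <;>
  simp only [comp, one, Prod.mk.injEq, true_and, and_true, false_and, and_false, not_true_eq_false, not_false_eq_true, ne_eq] at * <;> omega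

theorem f8_3 : Hd K8 3 := by
  rw [hd3]
  exact ⟨(1, 1, 0, -1, 0, 0), (l8 _ _ _ _ _ _).2 (by decide), by decide⟩

theorem f8_6 : Hd K8 6 := by
  rw [hd6]
  exact ⟨(1, 1, 0, -1, 0, 0), (l8 _ _ _ _ _ _).2 (by decide), (-1, -1, 0, 1, -2, 0), (l8 _ _ _ _ _ _).2 (by decide), by decide, by decide, by decide, by decide, by decide, by decide⟩

theorem f8_7 : ¬ Hd K8 7 := by
  rw [hd7]
  rintro ⟨⟨a, b, c, d, s, t⟩, hg, h1, h2, k⟩
  rw [m8] at hg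
  rcases hg with ⟨rfl, rfl, rfl, rfl, hg⟩ | ⟨rfl, rfl, rfl, rfl, hg⟩ | ⟨rfl, rfl, rfl, rfl, hg⟩ | ⟨rfl, rfl, rfl, rfl, hg⟩
  · have h3 := k (1, 0, 0, 1, -4, 8) ((l8 _ _ _ _ _ _).2 (by decide)) (by simp only [comp, Prod.mk.injEq]; omega) (by decide)
    clear k
    simp only [comp, one, Prod.mk.injEq, true_and, and_true, false_and, and_false, not_true_eq_false, not_false_eq_true, ne_eq] at * <;> omega
  · have h3 := k (-1, -1, 0, 1, (2 * s + 1 * t) / 2, (0 * s + 0 * t) / 2) ((m8 _ _ _ _ _ _).2 (by omega)) (by simp only [comp, Prod.mk.injEq]; omega) (by simp only [one, Prod.mk.injEq]; omega)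
    clear k
    simp only [comp, one, Prod.mk.injEq, true_and, and_true, false_and, and_false, not_true_eq_false, not_false_eq_true, ne_eq] at * <;> omega
  · clear k
    simp only [comp, one, Prod.mk.injEq, true_and, and_true, false_and, and_false, not_true_eq_false, not_false_eq_true, ne_eq] at * <;> omega
  · have h3 := k (1, 0, 0, 1, -4, 0) ((l8 _ _ _ _ _ _).2 (by decide)) (by simp only [comp, Prod.mk.injEq]; omega) (by decide)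
    clear k
    simp only [comp, one, Prod.mk.injEq, true_and, and_true, false_and, and_false, not_true_eq_false, not_false_eq_true, ne_eq] at * <;> omega

theorem f9_0 : ¬ Hd K9 0 := by
  rw [hd0]
  rintro ⟨⟨a, b, c, d, s, t⟩, hg, h1, h2⟩
  rw [m9] at hg
  rcases hg with ⟨rfl, rfl, rfl, rfl, hg⟩ | ⟨rfl, rfl, rfl, rfl, hg⟩ <;>
  simp only [comp, one, Prod.mk.injEq, true_and, and_true, false_and, and_false, not_true_eq_false, not_false_eq_true, ne_eq] at * <;> omega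

theorem f9_3 : Hd K9 3 := by
  rw [hd3]
  exact ⟨(-1, 0, 0, -1, -1, 0), (l9 _ _ _ _ _ _).2 (by decide), by decide⟩

theorem f9_6 : ¬ Hd K9 6 := by
  rw [hd6]
  rintro ⟨⟨a, b, c, d, s, t⟩, hg, ⟨a', b', c', d', s', t'⟩, hh, h1, h2, h3, h4, h5, h6⟩
  rw [m9] at hg hh
  rcases hg with ⟨rfl, rfl, rfl, rfl, hg⟩ | ⟨rfl, rfl, rfl, rfl, hg⟩ <;>
  rcases hh with ⟨rfl, rfl, rfl, rfl, hh⟩ | ⟨rfl, rfl, rfl, rfl, hh⟩ <;>
  simp only [comp, one, Prod.mk.injEq, true_and, and_true, false_and, and_false, not_true_eq_false, not_false_eq_true, ne_eq] at * <;> omega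

theorem f9_8 : ¬ Hd K9 8 := by
  rw [hd8]
  rintro ⟨⟨a, b, c, d, s, t⟩, hg, ⟨a', b', c', d', s', t'⟩, hh, h1, h2, h3, h4⟩
  rw [m9] at hg hh
  rcases hg with ⟨rfl, rfl, rfl, rfl, hg⟩ | ⟨rfl, rfl, rfl, rfl, hg⟩ <;>
  rcases hh with ⟨rfl, rfl, rfl, rfl, hh⟩ | ⟨rfl, rfl, rfl, rfl, hh⟩ <;>
  simp only [comp, one, Prod.mk.injEq, true_and, and_true, false_and, and_false, not_true_eq_false, not_false_eq_true, ne_eq] at * <;> omega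

theorem f9_9 : Hd K9 9 := by
  rw [hd9]
  rintro ⟨a, b, c, d, s, t⟩ hg ⟨a', b', c', d', s', t'⟩ hh h1 h2
  rw [m9] at hg hh
  rcases hg with ⟨rfl, rfl, rfl, rfl, hg⟩ | ⟨rfl, rfl, rfl, rfl, hg⟩ <;>
  rcases hh with ⟨rfl, rfl, rfl, rfl, hh⟩ | ⟨rfl, rfl, rfl, rfl, hh⟩ <;>
  simp only [comp, one, Prod.mk.injEq, true_and, and_true, false_and, and_false, not_true_eq_false, not_false_eq_true, ne_eq] at * <;> omega

theorem f10_0 : ¬ Hd K10 0 := by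
  rw [hd0]
  rintro ⟨⟨a, b, c, d, s, t⟩, hg, h1, h2⟩
  rw [m10] at hg
  rcases hg with ⟨rfl, rfl, rfl, rfl, hg⟩ | ⟨rfl, rfl, rfl, rfl, hg⟩ | ⟨rfl, rfl, rfl, rfl, hg⟩ | ⟨rfl, rfl, rfl, rfl, hg⟩ <;>
  simp only [comp, one, Prod.mk.injEq, true_and, and_true, false_and, and_false, not_true_eq_false, not_false_eq_true, ne_eq] at * <;> omega

theorem f10_3 : Hd K10 3 := by
  rw [hd3]
  exact ⟨(-1, 0, 0, -1, 0, 0), (l10 _ _ _ _ _ _).2 (by decide), by decide⟩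

theorem f10_6 : ¬ Hd K10 6 := by
  rw [hd6]
  rintro ⟨⟨a, b, c, d, s, t⟩, hg, ⟨a', b', c', d', s', t'⟩, hh, h1, h2, h3, h4, h5, h6⟩
  rw [m10] at hg hh
  rcases hg with ⟨rfl, rfl, rfl, rfl, hg⟩ | ⟨rfl, rfl, rfl, rfl, hg⟩ | ⟨rfl, rfl, rfl, rfl, hg⟩ | ⟨rfl, rfl, rfl, rfl, hg⟩ <;>
  rcases hh with ⟨rfl, rfl, rfl, rfl, hh⟩ | ⟨rfl, rfl, rfl, rfl, hh⟩ | ⟨rfl, rfl, rfl, rfl, hh⟩ | ⟨rfl, rfl, rfl, rfl, hh⟩ <;>
  simp only [comp, one, Prod.mk.injEq, true_and, and_true, false_and, and_false, not_true_eq_false, not_false_eq_true, ne_eq] at * <;> omega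

theorem f10_8 : ¬ Hd K10 8 := by
  rw [hd8]
  rintro ⟨⟨a, b, c, d, s, t⟩, hg, ⟨a', b', c', d', s', t'⟩, hh, h1, h2, h3, h4⟩
  rw [m10] at hg hh
  rcases hg with ⟨rfl, rfl, rfl, rfl, hg⟩ | ⟨rfl, rfl, rfl, rfl, hg⟩ | ⟨rfl, rfl, rfl, rfl, hg⟩ | ⟨rfl, rfl, rfl, rfl, hg⟩ <;>
  rcases hh with ⟨rfl, rfl, rfl, rfl, hh⟩ | ⟨rfl, rfl, rfl, rfl, hh⟩ | ⟨rfl, rfl, rfl, rfl, hh⟩ | ⟨rfl, rfl, rfl, rfl, hh⟩ <;>
  simp only [comp, one, Prod.mk.injEq, true_and, and_true, false_and, and_false, not_true_eq_false, not_false_eq_true, ne_eq] at * <;> omega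

theorem f10_9 : ¬ Hd K10 9 := by
  rw [hd9]
  intro k
  exact absurd (k (-1, 0, 1, 1, -3, 0) ((l10 _ _ _ _ _ _).2 (by decide)) (-1, 0, 1, 1, 3, 0) ((l10 _ _ _ _ _ _).2 (by decide)) (by decide) (by decide)) (by decide)

theorem f11_0 : ¬ Hd K11 0 := by
  rw [hd0]
  rintro ⟨⟨a, b, c, d, s, t⟩, hg, h1, h2⟩
  rw [m11] at hg
  rcases hg with ⟨rfl, rfl, rfl, rfl, hg⟩ | ⟨rfl, rfl, rfl, rfl, hg⟩ | ⟨rfl, rfl, rfl, rfl, hg⟩ | ⟨rfl, rfl, rfl, rfl, hg⟩ <;>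
  simp only [comp, one, Prod.mk.injEq, true_and, and_true, false_and, and_false, not_true_eq_false, not_false_eq_true, ne_eq] at * <;> omega

theorem f11_3 : Hd K11 3 := by
  rw [hd3]
  exact ⟨(-1, 0, 0, -1, -1, 0), (l11 _ _ _ _ _ _).2 (by decide), by decide⟩

theorem f11_6 : ¬ Hd K11 6 := by
  rw [hd6]
  rintro ⟨⟨a, b, c, d, s, t⟩, hg, ⟨a', b', c', d', s', t'⟩, hh, h1, h2, h3, h4, h5, h6⟩
  rw [m11] at hg hh
  rcases hg with ⟨rfl, rfl, rfl, rfl, hg⟩ | ⟨rfl, rfl, rfl, rfl, hg⟩ | ⟨rfl, rfl, rfl, rfl, hg⟩ | ⟨rfl, rfl, rfl, rfl, hg⟩ <;>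
  rcases hh with ⟨rfl, rfl, rfl, rfl, hh⟩ | ⟨rfl, rfl, rfl, rfl, hh⟩ | ⟨rfl, rfl, rfl, rfl, hh⟩ | ⟨rfl, rfl, rfl, rfl, hh⟩ <;>
  simp only [comp, one, Prod.mk.injEq, true_and, and_true, false_and, and_false, not_true_eq_false, not_false_eq_true, ne_eq] at * <;> omega

theorem f11_8 : Hd K11 8 := by
  rw [hd8]
  exact ⟨(0, -1, -1, 0, 1, 1), (l11 _ _ _ _ _ _).2 (by decide), (0, -1, -1, 0, -2, 4), (l11 _ _ _ _ _ _).2 (by decide), by decide, by decide, by decide, by decide⟩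

theorem f11_10 : ¬ Hd K11 10 := by
  rw [hd10]
  rintro ⟨⟨a, b, c, d, s, t⟩, hg, h1, k⟩
  have h2 := k (-1, 0, 0, -1, -1, 0) ((l11 _ _ _ _ _ _).2 (by decide))
  have h3 := k (1, 0, 0, 1, 6, 0) ((l11 _ _ _ _ _ _).2 (by decide))
  have h4 := k (1, 0, 0, 1, 0, 6) ((l11 _ _ _ _ _ _).2 (by decide))
  clear k
  rw [m11] at hg
  rcases hg with ⟨rfl, rfl, rfl, rfl, hg⟩ | ⟨rfl, rfl, rfl, rfl, hg⟩ | ⟨rfl, rfl, rfl, rfl, hg⟩ | ⟨rfl, rfl, rfl, rfl, hg⟩ <;>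
  simp only [comp, one, Prod.mk.injEq, true_and, and_true, false_and, and_false, not_true_eq_false, not_false_eq_true, ne_eq] at * <;> omega

theorem f12_0 : ¬ Hd K12 0 := by
  rw [hd0]
  rintro ⟨⟨a, b, c, d, s, t⟩, hg, h1, h2⟩
  rw [m12] at hg
  rcases hg with ⟨rfl, rfl, rfl, rfl, hg⟩ | ⟨rfl, rfl, rfl, rfl, hg⟩ <;>
  simp only [comp, one, Prod.mk.injEq, true_and, and_true, false_and, and_false, not_true_eq_false, not_false_eq_true, ne_eq] at * <;> omega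

theorem f12_3 : Hd K12 3 := by
  rw [hd3]
  exact ⟨(-1, 0, 1, 1, 0, 0), (l12 _ _ _ _ _ _).2 (by decide), by decide⟩

theorem f12_6 : ¬ Hd K12 6 := by
  rw [hd6]
  rintro ⟨⟨a, b, c, d, s, t⟩, hg, ⟨a', b', c', d', s', t'⟩, hh, h1, h2, h3, h4, h5, h6⟩
  rw [m12] at hg hh
  rcases hg with ⟨rfl, rfl, rfl, rfl, hg⟩ | ⟨rfl, rfl, rfl, rfl, hg⟩ <;>
  rcases hh with ⟨rfl, rfl, rfl, rfl, hh⟩ | ⟨rfl, rfl, rfl, rfl, hh⟩ <;>
  simp only [comp, one, Prod.mk.injEq, true_and, and_true, false_and, and_false, not_true_eq_false, not_false_eq_true, ne_eq] at * <;> omega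

theorem f12_8 : Hd K12 8 := by
  rw [hd8]
  exact ⟨(-1, 0, 1, 1, 0, 0), (l12 _ _ _ _ _ _).2 (by decide), (-1, 0, 1, 1, 0, -6), (l12 _ _ _ _ _ _).2 (by decide), by decide, by decide, by decide, by decide⟩

theorem f12_10 : Hd K12 10 := by
  rw [hd10]
  refine ⟨(1, 0, 0, 1, 0, -6), (l12 _ _ _ _ _ _).2 (by decide), by decide, ?_⟩
  rintro ⟨a', b', c', d', s', t'⟩ hh
  rw [m12] at hh
  rcases hh with ⟨rfl, rfl, rfl, rfl, hh⟩ | ⟨rfl, rfl, rfl, rfl, hh⟩ <;>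
  simp only [comp, one, Prod.mk.injEq, true_and, and_true, false_and, and_false, not_true_eq_false, not_false_eq_true, ne_eq] at * <;> omega

theorem f12_11 : Hd K12 11 := by
  rw [hd11]
  rintro ⟨a, b, c, d, s, t⟩ hg ⟨a', b', c', d', s', t'⟩ hh h1 h2 h3 h4
  refine ⟨(1, 0, 0, 1, t - t', 0), ?_⟩
  rw [m12] at hg hh ⊢
  rcases hg with ⟨rfl, rfl, rfl, rfl, hg⟩ | ⟨rfl, rfl, rfl, rfl, hg⟩ <;>
  rcases hh with ⟨rfl, rfl, rfl, rfl, hh⟩ | ⟨rfl, rfl, rfl, rfl, hh⟩ <;>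
  simp only [comp, one, Prod.mk.injEq, true_and, and_true, false_and, and_false, not_true_eq_false, not_false_eq_true, ne_eq] at * <;> omega

theorem f13_0 : ¬ Hd K13 0 := by
  rw [hd0]
  rintro ⟨⟨a, b, c, d, s, t⟩, hg, h1, h2⟩
  rw [m13] at hg
  rcases hg with ⟨rfl, rfl, rfl, rfl, hg⟩ | ⟨rfl, rfl, rfl, rfl, hg⟩ <;>
  simp only [comp, one, Prod.mk.injEq, true_and, and_true, false_and, and_false, not_true_eq_false, not_false_eq_true, ne_eq] at * <;> omega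

theorem f13_3 : Hd K13 3 := by
  rw [hd3]
  exact ⟨(0, -1, -1, 0, 1, 1), (l13 _ _ _ _ _ _).2 (by decide), by decide⟩

theorem f13_6 : ¬ Hd K13 6 := by
  rw [hd6]
  rintro ⟨⟨a, b, c, d, s, t⟩, hg, ⟨a', b', c', d', s', t'⟩, hh, h1, h2, h3, h4, h5, h6⟩
  rw [m13] at hg hh
  rcases hg with ⟨rfl, rfl, rfl, rfl, hg⟩ | ⟨rfl, rfl, rfl, rfl, hg⟩ <;>
  rcases hh with ⟨rfl, rfl, rfl, rfl, hh⟩ | ⟨rfl, rfl, rfl, rfl, hh⟩ <;>
  simp only [comp, one, Prod.mk.injEq, true_and, and_true, false_and, and_false, not_true_eq_false, not_false_eq_true, ne_eq] at * <;> omega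

theorem f13_8 : Hd K13 8 := by
  rw [hd8]
  exact ⟨(0, -1, -1, 0, 1, 1), (l13 _ _ _ _ _ _).2 (by decide), (0, -1, -1, 0, -2, 4), (l13 _ _ _ _ _ _).2 (by decide), by decide, by decide, by decide, by decide⟩

theorem f13_10 : Hd K13 10 := by
  rw [hd10]
  refine ⟨(1, 0, 0, 1, -3, 3), (l13 _ _ _ _ _ _).2 (by decide), by decide, ?_⟩
  rintro ⟨a', b', c', d', s', t'⟩ hh
  rw [m13] at hh
  rcases hh with ⟨rfl, rfl, rfl, rfl, hh⟩ | ⟨rfl, rfl, rfl, rfl, hh⟩ <;>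
  simp only [comp, one, Prod.mk.injEq, true_and, and_true, false_and, and_false, not_true_eq_false, not_false_eq_true, ne_eq] at * <;> omega

theorem f13_11 : ¬ Hd K13 11 := by
  rw [hd11]
  intro k
  obtain ⟨⟨a', b', c', d', s', t'⟩, hh, h1⟩ := k (0, -1, -1, 0, 1, 1) ((l13 _ _ _ _ _ _).2 (by decide)) (0, -1, -1, 0, -2, -2) ((l13 _ _ _ _ _ _).2 (by decide)) (by decide) (by decide) (by decide) (by decide)
  clear k
  rw [m13] at hh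
  rcases hh with ⟨rfl, rfl, rfl, rfl, hh⟩ | ⟨rfl, rfl, rfl, rfl, hh⟩ <;>
  simp only [comp, one, Prod.mk.injEq, true_and, and_true, false_and, and_false, not_true_eq_false, not_false_eq_true, ne_eq] at * <;> omega

end Pool.Agent.H35.Wp
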