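import Mathlib
import Pool.Agent.H35.WpE

set_option autoImplicit false
set_option linter.unusedSimpArgs false
set_option linter.unusedVariables false

namespace Pool.Agent.H35.Wp

def NN : Fin 14 → ℕ := ![6, 6, 6, 6, 6, 6, 6, 6, 8, 6, 6, 6, 6, 6]
def tb : Fin 14 → ℕ := ![tb0, tb1, tb2, tb3, tb4, tb5, tb6, tb7, tb8, tb9, tb10, tb11, tb12, tb13]
def val : Fin 14 → Fin 12 → Option Bool := ![![some true, some true, some true, none, none, none, none, none, none, none, none, none],
  ![some true, some true, some false, none, none, none, none, none, none, none, none, none],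
  ![some true, some false, none, some false, none, none, none, none, none, none, none, none],
  ![some true, some false, none, some true, some true, none, none, none, none, none, none, none],
  ![some true, some false, none, some true, some false, none, none, none, none, none, none, none],
  ![some false, none, none, some false, none, some true, none, none, none, none, none, none],
  ![some false, none, none, some false, none, some false, none, none, none, none, none, none],
  ![some false, none, none, some true, none, none, some true, some true, none, none, none, none],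
  ![some false, none, none, some true, none, none, some true, some false, none, none, none, none],
  ![some false, none, none, some true, none, none, some false, none, some false, some true, none, none],
  ![some false, none, none, some true, none, none, some false, none, some false, some false, none, none],
  ![some false, none, none, some true, none, none, some false, none, some true, none, some false, none],
  ![some false, none, none, some true, none, none, some false, none, some true, none, some true, some true],
  ![some false, none, none, some true, none, none, some false, none, some true, none, some true, some false]]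

theorem sep : ∀ i j : Fin 14, i ≠ j → ∃ s, (val i s = some true ∧ val j s = some false) ∨
    (val i s = some false ∧ val j s = some true) := by decide +kernel

theorem good (i : Fin 14) : Good (CC (NN i) (tb i)) := by
  fin_cases i
  exacts [g0, g1, g2, g3, g4, g5, g6, g7, g8, g9, g10, g11, g12, g13]

theorem per (i : Fin 14) : (1, 0, 0, 1, (NN i : ℤ), 0) ∈ KK (CC (NN i) (tb i)) ∧
    (1, 0, 0, 1, 0, (NN i : ℤ)) ∈ KK (CC (NN i) (tb i)) ∧ (NN i : ℤ) ≠ 0 := by
  fin_cases i
  exacts [⟨(l0 _ _ _ _ _ _).2 (by decide), (l0 _ _ _ _ _ _).2 (by decide), by decide⟩,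
    ⟨(l1 _ _ _ _ _ _).2 (by decide), (l1 _ _ _ _ _ _).2 (by decide), by decide⟩,
    ⟨(l2 _ _ _ _ _ _).2 (by decide), (l2 _ _ _ _ _ _).2 (by decide), by decide⟩,
    ⟨(l3 _ _ _ _ _ _).2 (by decide), (l3 _ _ _ _ _ _).2 (by decide), by decide⟩,
    ⟨(l4 _ _ _ _ _ _).2 (by decide), (l4 _ _ _ _ _ _).2 (by decide), by decide⟩,
    ⟨(l5 _ _ _ _ _ _).2 (by decide), (l5 _ _ _ _ _ _).2 (by decide), by decide⟩,
    ⟨(l6 _ _ _ _ _ _).2 (by decide), (l6 _ _ _ _ _ _).2 (by decide), by decide⟩,
    ⟨(l7 _ _ _ _ _ _).2 (by decide), (l7 _ _ _ _ _ _).2 (by decide), by decide⟩,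
    ⟨(l8 _ _ _ _ _ _).2 (by decide), (l8 _ _ _ _ _ _).2 (by decide), by decide⟩,
    ⟨(l9 _ _ _ _ _ _).2 (by decide), (l9 _ _ _ _ _ _).2 (by decide), by decide⟩,
    ⟨(l10 _ _ _ _ _ _).2 (by decide), (l10 _ _ _ _ _ _).2 (by decide), by decide⟩,
    ⟨(l11 _ _ _ _ _ _).2 (by decide), (l11 _ _ _ _ _ _).2 (by decide), by decide⟩,
    ⟨(l12 _ _ _ _ _ _).2 (by decide), (l12 _ _ _ _ _ _).2 (by decide), by decide⟩,
    ⟨(l13 _ _ _ _ _ _).2 (by decide), (l13 _ _ _ _ _ _).2 (by decide), by decide⟩]

theorem valT (i : Fin 14) (s : Fin 12) : (val i s = some true → Hd (KK (CC (NN i) (tb i))) s) ∧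
    (val i s = some false → ¬ Hd (KK (CC (NN i) (tb i))) s) := by
  fin_cases i
  · fin_cases s
    exacts [⟨fun _ => f0_0, fun h => absurd h (by decide)⟩,
      ⟨fun _ => f0_1, fun h => absurd h (by decide)⟩,
      ⟨fun _ => f0_2, fun h => absurd h (by decide)⟩,
      ⟨fun h => absurd h (by decide), fun h => absurd h (by decide)⟩,
      ⟨fun h => absurd h (by decide), fun h => absurd h (by decide)⟩,
      ⟨fun h => absurd h (by decide), fun h => absurd h (by decide)⟩,
      ⟨fun h => absurd h (by decide), fun h => absurd h (by decide)⟩,
      ⟨fun h => absurd h (by decide), fun h => absurd h (by decide)⟩,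
      ⟨fun h => absurd h (by decide), fun h => absurd h (by decide)⟩,
      ⟨fun h => absurd h (by decide), fun h => absurd h (by decide)⟩,
      ⟨fun h => absurd h (by decide), fun h => absurd h (by decide)⟩,
      ⟨fun h => absurd h (by decide), fun h => absurd h (by decide)⟩]
  · fin_cases s
    exacts [⟨fun _ => f1_0, fun h => absurd h (by decide)⟩,
      ⟨fun _ => f1_1, fun h => absurd h (by decide)⟩,
      ⟨fun h => absurd h (by decide), fun _ => f1_2⟩,
      ⟨fun h => absurd h (by decide), fun h => absurd h (by decide)⟩,
      ⟨fun h => absurd h (by decide), fun h => absurd h (by decide)⟩,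
      ⟨fun h => absurd h (by decide), fun h => absurd h (by decide)⟩,
      ⟨fun h => absurd h (by decide), fun h => absurd h (by decide)⟩,
      ⟨fun h => absurd h (by decide), fun h => absurd h (by decide)⟩,
      ⟨fun h => absurd h (by decide), fun h => absurd h (by decide)⟩,
      ⟨fun h => absurd h (by decide), fun h => absurd h (by decide)⟩,
      ⟨fun h => absurd h (by decide), fun h => absurd h (by decide)⟩,
      ⟨fun h => absurd h (by decide), fun h => absurd h (by decide)⟩]
  · fin_cases s
    exacts [⟨fun _ => f2_0, fun h => absurd h (by decide)⟩,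
      ⟨fun h => absurd h (by decide), fun _ => f2_1⟩,
      ⟨fun h => absurd h (by decide), fun h => absurd h (by decide)⟩,
      ⟨fun h => absurd h (by decide), fun _ => f2_3⟩,
      ⟨fun h => absurd h (by decide), fun h => absurd h (by decide)⟩,
      ⟨fun h => absurd h (by decide), fun h => absurd h (by decide)⟩,
      ⟨fun h => absurd h (by decide), fun h => absurd h (by decide)⟩,
      ⟨fun h => absurd h (by decide), fun h => absurd h (by decide)⟩,
      ⟨fun h => absurd h (by decide), fun h => absurd h (by decide)⟩,
      ⟨fun h => absurd h (by decide), fun h => absurd h (by decide)⟩,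
      ⟨fun h => absurd h (by decide), fun h => absurd h (by decide)⟩,
      ⟨fun h => absurd h (by decide), fun h => absurd h (by decide)⟩]
  · fin_cases s
    exacts [⟨fun _ => f3_0, fun h => absurd h (by decide)⟩,
      ⟨fun h => absurd h (by decide), fun _ => f3_1⟩,
      ⟨fun h => absurd h (by decide), fun h => absurd h (by decide)⟩,
      ⟨fun _ => f3_3, fun h => absurd h (by decide)⟩,
      ⟨fun _ => f3_4, fun h => absurd h (by decide)⟩,
      ⟨fun h => absurd h (by decide), fun h => absurd h (by decide)⟩,
      ⟨fun h => absurd h (by decide), fun h => absurd h (by decide)⟩,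
      ⟨fun h => absurd h (by decide), fun h => absurd h (by decide)⟩,
      ⟨fun h => absurd h (by decide), fun h => absurd h (by decide)⟩,
      ⟨fun h => absurd h (by decide), fun h => absurd h (by decide)⟩,
      ⟨fun h => absurd h (by decide), fun h => absurd h (by decide)⟩,
      ⟨fun h => absurd h (by decide), fun h => absurd h (by decide)⟩]
  · fin_cases s
    exacts [⟨fun _ => f4_0, fun h => absurd h (by decide)⟩,
      ⟨fun h => absurd h (by decide), fun _ => f4_1⟩,
      ⟨fun h => absurd h (by decide), fun h => absurd h (by decide)⟩,
      ⟨fun _ => f4_3, fun h => absurd h (by decide)⟩,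
      ⟨fun h => absurd h (by decide), fun _ => f4_4⟩,
      ⟨fun h => absurd h (by decide), fun h => absurd h (by decide)⟩,
      ⟨fun h => absurd h (by decide), fun h => absurd h (by decide)⟩,
      ⟨fun h => absurd h (by decide), fun h => absurd h (by decide)⟩,
      ⟨fun h => absurd h (by decide), fun h => absurd h (by decide)⟩,
      ⟨fun h => absurd h (by decide), fun h => absurd h (by decide)⟩,
      ⟨fun h => absurd h (by decide), fun h => absurd h (by decide)⟩,
      ⟨fun h => absurd h (by decide), fun h => absurd h (by decide)⟩]
  · fin_cases s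
    exacts [⟨fun h => absurd h (by decide), fun _ => f5_0⟩,
      ⟨fun h => absurd h (by decide), fun h => absurd h (by decide)⟩,
      ⟨fun h => absurd h (by decide), fun h => absurd h (by decide)⟩,
      ⟨fun h => absurd h (by decide), fun _ => f5_3⟩,
      ⟨fun h => absurd h (by decide), fun h => absurd h (by decide)⟩,
      ⟨fun _ => f5_5, fun h => absurd h (by decide)⟩,
      ⟨fun h => absurd h (by decide), fun h => absurd h (by decide)⟩,
      ⟨fun h => absurd h (by decide), fun h => absurd h (by decide)⟩,
      ⟨fun h => absurd h (by decide), fun h => absurd h (by decide)⟩,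
      ⟨fun h => absurd h (by decide), fun h => absurd h (by decide)⟩,
      ⟨fun h => absurd h (by decide), fun h => absurd h (by decide)⟩,
      ⟨fun h => absurd h (by decide), fun h => absurd h (by decide)⟩]
  · fin_cases s
    exacts [⟨fun h => absurd h (by decide), fun _ => f6_0⟩,
      ⟨fun h => absurd h (by decide), fun h => absurd h (by decide)⟩,
      ⟨fun h => absurd h (by decide), fun h => absurd h (by decide)⟩,
      ⟨fun h => absurd h (by decide), fun _ => f6_3⟩,
      ⟨fun h => absurd h (by decide), fun h => absurd h (by decide)⟩,
      ⟨fun h => absurd h (by decide), fun _ => f6_5⟩,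
      ⟨fun h => absurd h (by decide), fun h => absurd h (by decide)⟩,
      ⟨fun h => absurd h (by decide), fun h => absurd h (by decide)⟩,
      ⟨fun h => absurd h (by decide), fun h => absurd h (by decide)⟩,
      ⟨fun h => absurd h (by decide), fun h => absurd h (by decide)⟩,
      ⟨fun h => absurd h (by decide), fun h => absurd h (by decide)⟩,
      ⟨fun h => absurd h (by decide), fun h => absurd h (by decide)⟩]
  · fin_cases s
    exacts [⟨fun h => absurd h (by decide), fun _ => f7_0⟩,
      ⟨fun h => absurd h (by decide), fun h => absurd h (by decide)⟩,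
      ⟨fun h => absurd h (by decide), fun h => absurd h (by decide)⟩,
      ⟨fun _ => f7_3, fun h => absurd h (by decide)⟩,
      ⟨fun h => absurd h (by decide), fun h => absurd h (by decide)⟩,
      ⟨fun h => absurd h (by decide), fun h => absurd h (by decide)⟩,
      ⟨fun _ => f7_6, fun h => absurd h (by decide)⟩,
      ⟨fun _ => f7_7, fun h => absurd h (by decide)⟩,
      ⟨fun h => absurd h (by decide), fun h => absurd h (by decide)⟩,
      ⟨fun h => absurd h (by decide), fun h => absurd h (by decide)⟩,
      ⟨fun h => absurd h (by decide), fun h => absurd h (by decide)⟩,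
      ⟨fun h => absurd h (by decide), fun h => absurd h (by decide)⟩]
  · fin_cases s
    exacts [⟨fun h => absurd h (by decide), fun _ => f8_0⟩,
      ⟨fun h => absurd h (by decide), fun h => absurd h (by decide)⟩,
      ⟨fun h => absurd h (by decide), fun h => absurd h (by decide)⟩,
      ⟨fun _ => f8_3, fun h => absurd h (by decide)⟩,
      ⟨fun h => absurd h (by decide), fun h => absurd h (by decide)⟩,
      ⟨fun h => absurd h (by decide), fun h => absurd h (by decide)⟩,
      ⟨fun _ => f8_6, fun h => absurd h (by decide)⟩,
      ⟨fun h => absurd h (by decide), fun _ => f8_7⟩,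
      ⟨fun h => absurd h (by decide), fun h => absurd h (by decide)⟩,
      ⟨fun h => absurd h (by decide), fun h => absurd h (by decide)⟩,
      ⟨fun h => absurd h (by decide), fun h => absurd h (by decide)⟩,
      ⟨fun h => absurd h (by decide), fun h => absurd h (by decide)⟩]
  · fin_cases s
    exacts [⟨fun h => absurd h (by decide), fun _ => f9_0⟩,
      ⟨fun h => absurd h (by decide), fun h => absurd h (by decide)⟩,
      ⟨fun h => absurd h (by decide), fun h => absurd h (by decide)⟩,
      ⟨fun _ => f9_3, fun h => absurd h (by decide)⟩,
      ⟨fun h => absurd h (by decide), fun h => absurd h (by decide)⟩,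
      ⟨fun h => absurd h (by decide), fun h => absurd h (by decide)⟩,
      ⟨fun h => absurd h (by decide), fun _ => f9_6⟩,
      ⟨fun h => absurd h (by decide), fun h => absurd h (by decide)⟩,
      ⟨fun h => absurd h (by decide), fun _ => f9_8⟩,
      ⟨fun _ => f9_9, fun h => absurd h (by decide)⟩,
      ⟨fun h => absurd h (by decide), fun h => absurd h (by decide)⟩,
      ⟨fun h => absurd h (by decide), fun h => absurd h (by decide)⟩]
  · fin_cases s
    exacts [⟨fun h => absurd h (by decide), fun _ => f10_0⟩,
      ⟨fun h => absurd h (by decide), fun h => absurd h (by decide)⟩,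
      ⟨fun h => absurd h (by decide), fun h => absurd h (by decide)⟩,
      ⟨fun _ => f10_3, fun h => absurd h (by decide)⟩,
      ⟨fun h => absurd h (by decide), fun h => absurd h (by decide)⟩,
      ⟨fun h => absurd h (by decide), fun h => absurd h (by decide)⟩,
      ⟨fun h => absurd h (by decide), fun _ => f10_6⟩,
      ⟨fun h => absurd h (by decide), fun h => absurd h (by decide)⟩,
      ⟨fun h => absurd h (by decide), fun _ => f10_8⟩,
      ⟨fun h => absurd h (by decide), fun _ => f10_9⟩,
      ⟨fun h => absurd h (by decide), fun h => absurd h (by decide)⟩,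
      ⟨fun h => absurd h (by decide), fun h => absurd h (by decide)⟩]
  · fin_cases s
    exacts [⟨fun h => absurd h (by decide), fun _ => f11_0⟩,
      ⟨fun h => absurd h (by decide), fun h => absurd h (by decide)⟩,
      ⟨fun h => absurd h (by decide), fun h => absurd h (by decide)⟩,
      ⟨fun _ => f11_3, fun h => absurd h (by decide)⟩,
      ⟨fun h => absurd h (by decide), fun h => absurd h (by decide)⟩,
      ⟨fun h => absurd h (by decide), fun h => absurd h (by decide)⟩,
      ⟨fun h => absurd h (by decide), fun _ => f11_6⟩,
      ⟨fun h => absurd h (by decide), fun h => absurd h (by decide)⟩,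
      ⟨fun _ => f11_8, fun h => absurd h (by decide)⟩,
      ⟨fun h => absurd h (by decide), fun h => absurd h (by decide)⟩,
      ⟨fun h => absurd h (by decide), fun _ => f11_10⟩,
      ⟨fun h => absurd h (by decide), fun h => absurd h (by decide)⟩]
  · fin_cases s
    exacts [⟨fun h => absurd h (by decide), fun _ => f12_0⟩,
      ⟨fun h => absurd h (by decide), fun h => absurd h (by decide)⟩,
      ⟨fun h => absurd h (by decide), fun h => absurd h (by decide)⟩,
      ⟨fun _ => f12_3, fun h => absurd h (by decide)⟩,
      ⟨fun h => absurd h (by decide), fun h => absurd h (by decide)⟩,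
      ⟨fun h => absurd h (by decide), fun h => absurd h (by decide)⟩,
      ⟨fun h => absurd h (by decide), fun _ => f12_6⟩,
      ⟨fun h => absurd h (by decide), fun h => absurd h (by decide)⟩,
      ⟨fun _ => f12_8, fun h => absurd h (by decide)⟩,
      ⟨fun h => absurd h (by decide), fun h => absurd h (by decide)⟩,
      ⟨fun _ => f12_10, fun h => absurd h (by decide)⟩,
      ⟨fun _ => f12_11, fun h => absurd h (by decide)⟩]
  · fin_cases s
    exacts [⟨fun h => absurd h (by decide), fun _ => f13_0⟩,
      ⟨fun h => absurd h (by decide), fun h => absurd h (by decide)⟩,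
      ⟨fun h => absurd h (by decide), fun h => absurd h (by decide)⟩,
      ⟨fun _ => f13_3, fun h => absurd h (by decide)⟩,
      ⟨fun h => absurd h (by decide), fun h => absurd h (by decide)⟩,
      ⟨fun h => absurd h (by decide), fun h => absurd h (by decide)⟩,
      ⟨fun h => absurd h (by decide), fun _ => f13_6⟩,
      ⟨fun h => absurd h (by decide), fun h => absurd h (by decide)⟩,
      ⟨fun _ => f13_8, fun h => absurd h (by decide)⟩,
      ⟨fun h => absurd h (by decide), fun h => absurd h (by decide)⟩,
      ⟨fun _ => f13_10, fun h => absurd h (by decide)⟩,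
      ⟨fun h => absurd h (by decide), fun _ => f13_11⟩]

theorem noniso (i j : Fin 14) (hij : i ≠ j) (φ : (E ≃ᵢ E) → (E ≃ᵢ E))
    (hb : Set.BijOn φ (Stab (CC (NN i) (tb i))) (Stab (CC (NN j) (tb j))))
    (hm : ∀ g ∈ Stab (CC (NN i) (tb i)), ∀ h ∈ Stab (CC (NN i) (tb i)), φ (g * h) = φ g * φ h) :
    False := by
  obtain ⟨s, h | h⟩ := sep i j hij
  · exact (valT j s).2 h.2 ((ev_iso (good i) (good j) φ hb hm (sent s)).1 ((valT i s).1 h.1))
  · exact (valT i s).2 h.1 ((ev_iso (good i) (good j) φ hb hm (sent s)).2 ((valT j s).1 h.2))

end Pool.Agent.H35.Wp
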