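import Mathlib

set_option autoImplicit false

namespace Pool.Agent.H35.Wpl

inductive T
  | nil : T
  | node : T → ℕ → T → T

open T

def T.keys : T → List ℕ
  | nil => []
  | node l k r => l.keys ++ k :: r.keys

def IsBST (n : ℕ) (t : T) : Prop := t.keys = List.range' 1 n

def T.depth (x : ℕ) : T → ℕ
  | nil => 0
  | node l k r => if x < k then 1 + l.depth x else if k < x then 1 + r.depth x else 1

inductive Rot : T → T → Prop
  | right (a : T) (x : ℕ) (b : T) (y : ℕ) (c : T) :
      Rot (node (node a x b) y c) (node a x (node b y c))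
  | left (a : T) (x : ℕ) (b : T) (y : ℕ) (c : T) :
      Rot (node a x (node b y c)) (node (node a x b) y c)
  | inl (l l' : T) (k : ℕ) (r : T) : Rot l l' → Rot (node l k r) (node l' k r)
  | inr (l : T) (k : ℕ) (r r' : T) : Rot r r' → Rot (node l k r) (node l k r')

inductive RotN : ℕ → T → T → Prop
  | zero (t : T) : RotN 0 t t
  | succ (j : ℕ) (t t' t'' : T) : Rot t t' → RotN j t' t'' → RotN (j + 1) t t''

inductive Serve : T → List ℕ → T → ℕ → Prop
  | nil (t : T) : Serve t [] t 0
  | cons (t t' t'' : T) (x : ℕ) (σ : List ℕ) (j c : ℕ) :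
      RotN j t t' → Serve t' σ t'' c → Serve t (x :: σ) t'' (t.depth x + j + c)

noncomputable def OPT (t : T) (σ : List ℕ) : ℕ := sInf {c | ∃ t', Serve t σ t' c}

noncomputable def OPTst (n : ℕ) (σ : List ℕ) : ℕ :=
  sInf {c | ∃ S : T, IsBST n S ∧ c = (σ.map fun x => S.depth x).sum}

def wplAt (w : ℕ → ℕ) : ℕ → T → ℕ
  | _, nil => 0
  | d, node l k r => w k * d + wplAt w (d + 1) l + wplAt w (d + 1) r

def wpl (w : ℕ → ℕ) (t : T) : ℕ := wplAt w 1 t

def T.root : T → Option ℕ
  | nil => none
  | node _ k _ => some k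

def rotR : T → T
  | node (node a x b) y c => node a x (node b y c)
  | t => t

def rotL : T → T
  | node a x (node b y c) => node (node a x b) y c
  | t => t

def up (x : ℕ) : T → Option T
  | nil => none
  | node l k r =>
    if x < k then
      (if l.root = some x then some (rotR (node l k r)) else (up x l).map fun l' => node l' k r)
    else if k < x then
      (if r.root = some x then some (rotL (node l k r)) else (up x r).map fun r' => node l k r')
    else none

def climb (w : ℕ → ℕ) (x : ℕ) : ℕ → T → T × ℕ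
  | 0, t => (t, 0)
  | f + 1, t =>
    match up x t with
    | none => (t, 0)
    | some t' => if wpl w t' < wpl w t then ((climb w x f t').1, (climb w x f t').2 + 1) else (t, 0)

def costFrom : (ℕ → ℕ) → T → List ℕ → ℕ
  | _, _, [] => 0
  | w, t, x :: σ =>
    t.depth x + (climb (Function.update w x (w x + 1)) x (t.depth x) t).2 +
      costFrom (Function.update w x (w x + 1))
        (climb (Function.update w x (w x + 1)) x (t.depth x) t).1 σ

def cost (t : T) (σ : List ℕ) : ℕ := costFrom (fun _ => 0) t σ

def Z : ℕ → ℕ → T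
  | _, 0 => nil
  | a, q + 1 => node nil a (node (Z (a + 1) q) (a + 2 * q + 1) nil)

def sq : ℕ → ℕ → List ℕ
  | _, 0 => []
  | a, q + 1 => a :: (a + 2 * q + 1) :: sq (a + 1) q

theorem Z_keys (q : ℕ) : ∀ a, (Z a q).keys = List.range' a (2 * q) := by
  induction q with
  | zero => intro a; rfl
  | succ q ih =>
    intro a
    simp only [Z, T.keys, ih, List.nil_append]
    rw [show 2 * (q + 1) = 2 * q + 1 + 1 by ring, List.range'_succ, List.range'_concat]
    simp
    omega

theorem sq_mem (q : ℕ) : ∀ a, ∀ v ∈ sq a q, a ≤ v ∧ v < a + 2 * q := by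
  induction q with
  | zero => intro a v h; simp [sq] at h
  | succ q ih =>
    intro a v h
    simp only [sq, List.mem_cons] at h
    rcases h with rfl | rfl | h
    · omega
    · omega
    · have := ih _ _ h
      omega

theorem sq_nodup (q : ℕ) : ∀ a, (sq a q).Nodup := by
  induction q with
  | zero => intro a; simp [sq]
  | succ q ih =>
    intro a
    simp only [sq, List.nodup_cons, List.mem_cons, not_or]
    refine ⟨⟨by omega, fun h => ?_⟩, fun h => ?_, ih _⟩ <;> have := sq_mem _ _ _ h <;> omega

theorem sq_len (q : ℕ) : ∀ a, (sq a q).length = 2 * q := by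
  induction q with
  | zero => intro a; rfl
  | succ q ih => intro a; simp only [sq, List.length_cons, ih]; ring

theorem sq_depth (q : ℕ) : ∀ a, ((sq a q).map fun x => (Z a q).depth x).sum = q * (2 * q + 1) := by
  induction q with
  | zero => intro a; rfl
  | succ q ih =>
    intro a
    have e : ((sq (a + 1) q).map fun x => (Z a (q + 1)).depth x) =
        (sq (a + 1) q).map fun x => 2 + (Z (a + 1) q).depth x := by
      apply List.map_congr_left
      intro v hv
      have := sq_mem _ _ _ hv
      simp only [Z, T.depth]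
      rw [if_neg (by omega), if_pos (by omega), if_pos (by omega)]
      ring
    rw [sq, List.map_cons, List.map_cons, List.sum_cons, List.sum_cons, e, List.sum_map_add, ih]
    simp only [Z, T.depth, lt_irrefl, if_false, List.map_const', List.sum_replicate, sq_len]
    rw [if_neg (by omega), if_pos (by omega)]
    simp only [smul_eq_mul]
    ring

theorem stuck (w : ℕ → ℕ) (x : ℕ) (q : ℕ) : ∀ a d t', (sq a q).Pairwise (fun p v => w v ≤ w p) →
    up x (Z a q) = some t' → wplAt w d (Z a q) ≤ wplAt w d t' := by
  induction q with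
  | zero => intro a d t' _ h; simp [Z, up] at h
  | succ q ih =>
    intro a d t' hp h
    simp only [sq, List.pairwise_cons, List.mem_cons, forall_eq_or_imp] at hp
    obtain ⟨⟨h1, -⟩, h2, h3⟩ := hp
    simp only [Z, up, T.root, Option.map_none, reduceCtorEq, if_false, Option.some.injEq] at h
    split_ifs at h with c1 c2 c3 c4 c5 c6
    · simp only [Option.some.injEq] at h
      subst h
      simp only [Z, rotL, wplAt]
      nlinarith
    · cases q with
      | zero => simp [Z] at c5
      | succ q =>
        simp only [Option.map_some, Option.some.injEq] at h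
        subst h
        have := h2 (a + 1) (by simp [sq])
        simp only [Z, rotR, wplAt]
        nlinarith
    · simp only [Option.map_map, Option.map_eq_some_iff] at h
      obtain ⟨u, hu, rfl⟩ := h
      have := ih (a + 1) (d + 1 + 1) u h3 hu
      simp only [Z, wplAt, Function.comp]
      omega
    · simp at h
    · simp at h

theorem climb_stuck (w : ℕ → ℕ) (x a q f : ℕ) (h : (sq a q).Pairwise (fun p v => w v ≤ w p)) :
    climb w x f (Z a q) = (Z a q, 0) := by
  cases f with
  | zero => rfl
  | succ f =>
    simp only [climb]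
    cases e : up x (Z a q) with
    | none => rfl
    | some t' =>
      have := stuck w x q a 1 t' h e
      simp only [wpl]
      rw [if_neg (by omega)]

theorem round (a q j : ℕ) (σ : List ℕ) (post : List ℕ) : ∀ (pre : List ℕ) (w : ℕ → ℕ),
    pre ++ post = sq a q → (∀ v ∈ pre, w v = j + 1) → (∀ v ∈ post, w v = j) →
    ∃ w', (∀ v ∈ sq a q, w' v = j + 1) ∧ costFrom w (Z a q) (post ++ σ) =
      (post.map fun x => (Z a q).depth x).sum + costFrom w' (Z a q) σ := by
  induction post with
  | nil =>
    intro pre w e h1 _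
    exact ⟨w, by simpa [← e] using h1, by simp⟩
  | cons x post ih =>
    intro pre w e h1 h2
    have nd := sq_nodup q a
    rw [← e, List.nodup_append, List.nodup_cons] at nd
    have k1 : ∀ v ∈ pre ++ [x], Function.update w x (w x + 1) v = j + 1 := by
      intro v hv
      by_cases c : v = x
      · subst c
        simp [h2]
      · rw [Function.update_of_ne c]
        exact h1 v (by simpa [c] using hv)
    have k2 : ∀ v ∈ post, Function.update w x (w x + 1) v = j := by
      intro v hv
      rw [Function.update_of_ne (fun c : v = x => nd.2.1.1 (c ▸ hv))]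
      exact h2 v (by simp [hv])
    have e' : (pre ++ [x]) ++ post = sq a q := by simp [← e]
    obtain ⟨w', hw, hc⟩ := ih (pre ++ [x]) _ e' k1 k2
    refine ⟨w', hw, ?_⟩
    have hp : (sq a q).Pairwise
        (fun p v => Function.update w x (w x + 1) v ≤ Function.update w x (w x + 1) p) := by
      rw [← e', List.pairwise_append]
      refine ⟨List.pairwise_of_forall_mem_list fun p hp v hv => by rw [k1 p hp, k1 v hv],
        List.pairwise_of_forall_mem_list fun p hp v hv => by rw [k2 p hp, k2 v hv],
        fun p hp v hv => by rw [k1 p hp, k2 v hv]; omega⟩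
    simp only [List.cons_append, costFrom, climb_stuck _ x a q _ hp, hc, List.map_cons,
      List.sum_cons]
    omega

def rep (a q : ℕ) : ℕ → List ℕ
  | 0 => []
  | k + 1 => sq a q ++ rep a q k

theorem rep_mem (a q k : ℕ) : ∀ v ∈ rep a q k, a ≤ v ∧ v < a + 2 * q := by
  induction k with
  | zero => simp [rep]
  | succ k ih =>
    intro v hv
    rcases List.mem_append.1 hv with h | h
    exacts [sq_mem _ _ _ h, ih v h]

theorem rep_len (a q k : ℕ) : (rep a q k).length = k * (2 * q) := by
  induction k with
  | zero => simp [rep]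
  | succ k ih => rw [rep, List.length_append, ih, sq_len]; ring

theorem cost_rep (a q k : ℕ) : ∀ j (w : ℕ → ℕ), (∀ v ∈ sq a q, w v = j) →
    costFrom w (Z a q) (rep a q k) = k * (q * (2 * q + 1)) := by
  induction k with
  | zero => intro j w _; simp [rep, costFrom]
  | succ k ih =>
    intro j w h
    obtain ⟨w', hw, e⟩ := round a q j (rep a q k) (sq a q) [] w rfl (by simp) h
    rw [rep, e, ih _ _ hw, sq_depth]
    ring

theorem RotN.trans {j j' : ℕ} {t t' t'' : T} (h : RotN j t t') (h' : RotN j' t' t'') :
    RotN (j + j') t t'' := by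
  induction h with
  | zero t => simpa using h'
  | succ j t u v h1 _ ih =>
    rw [Nat.add_right_comm]
    exact .succ _ _ _ _ h1 (ih h')

theorem Serve.app {t t' t'' : T} {σ σ' : List ℕ} {c c' : ℕ} (h : Serve t σ t' c)
    (h' : Serve t' σ' t'' c') : Serve t (σ ++ σ') t'' (c + c') := by
  induction h with
  | nil t => simpa using h'
  | cons t u v x σ j c h1 _ ih =>
    rw [Nat.add_assoc]
    exact .cons _ _ _ _ _ _ _ h1 (ih h')

theorem Serve.fin {t t' t'' : T} {σ : List ℕ} {c j : ℕ} (h : Serve t σ t' c) (hσ : σ ≠ [])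
    (h' : RotN j t' t'') : Serve t σ t'' (c + j) := by
  induction h with
  | nil t => exact absurd rfl hσ
  | cons t u v x σ i c h1 h2 ih =>
    by_cases e : σ = []
    · subst e
      cases h2
      have := Serve.cons _ _ _ x [] _ _ (h1.trans h') (.nil _)
      simpa [Nat.add_assoc] using this
    · rw [Nat.add_assoc]
      exact .cons _ _ _ _ _ _ _ h1 (ih e h')

theorem serve_sq (q : ℕ) : ∀ (a : ℕ) (L R : T),
    Serve (node L a (node (Z (a + 1) q) (a + 2 * q + 1) R)) (sq a (q + 1))
      (node L a (node (Z (a + 1) q) (a + 2 * q + 1) R)) (9 * q + 3) := by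
  induction q with
  | zero =>
    intro a L R
    have := Serve.cons _ _ _ a _ _ _ (.zero _) (Serve.cons _ _ _ (a + 1) _ _ _ (.zero _)
      (Serve.nil (node L a (node nil (a + 1) R))))
    simpa [T.depth, sq, Z] using this
  | succ q ih =>
    intro a L R
    have k := ih (a + 1) (node L a nil) (node nil (a + 2 * (q + 1) + 1) R)
    have r1 : RotN 3 (node L a (node (Z (a + 1) (q + 1)) (a + 2 * (q + 1) + 1) R))
        (node (node L a nil) (a + 1) (node (Z (a + 1 + 1) q) (a + 1 + 2 * q + 1)
          (node nil (a + 2 * (q + 1) + 1) R))) :=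
      .succ _ _ _ _ (.inr _ _ _ _ (.right _ _ _ _ _)) (.succ _ _ _ _ (.left _ _ _ _ _)
        (.succ _ _ _ _ (.inr _ _ _ _ (.right _ _ _ _ _)) (.zero _)))
    have r2 : RotN 3 (node (node L a nil) (a + 1) (node (Z (a + 1 + 1) q) (a + 1 + 2 * q + 1)
          (node nil (a + 2 * (q + 1) + 1) R)))
        (node L a (node (Z (a + 1) (q + 1)) (a + 2 * (q + 1) + 1) R)) :=
      .succ _ _ _ _ (.inr _ _ _ _ (.left _ _ _ _ _)) (.succ _ _ _ _ (.right _ _ _ _ _)
        (.succ _ _ _ _ (.inr _ _ _ _ (.left _ _ _ _ _)) (.zero _)))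
    have := Serve.cons _ _ _ a _ _ _ (.zero _) (Serve.cons _ _ _ (a + 2 * (q + 1) + 1) _ _ _ r1
      (k.fin (by simp [sq]) r2))
    simp only [T.depth, lt_irrefl, if_false] at this
    rw [if_neg (by omega), if_pos (by omega), show 1 + 0 + (1 + 1 + 3 + (9 * q + 3 + 3)) =
      9 * (q + 1) + 3 by ring] at this
    exact this

theorem serve_rep (a q k : ℕ) :
    Serve (Z a (q + 1)) (rep a (q + 1) k) (Z a (q + 1)) (k * (9 * q + 3)) := by
  induction k with
  | zero => simpa [rep] using Serve.nil _
  | succ k ih =>
    have := (serve_sq q a nil nil).app ih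
    rw [show (k + 1) * (9 * q + 3) = 9 * q + 3 + k * (9 * q + 3) by ring]
    exact this

theorem opt_rep (a q k : ℕ) : OPT (Z a (q + 1)) (rep a (q + 1) k) ≤ k * (9 * q + 3) :=
  Nat.sInf_le ⟨_, serve_rep a q k⟩

theorem balanced (d : ℕ) : ∀ a m, m < 2 ^ d →
    ∃ S : T, S.keys = List.range' a m ∧ ∀ x, S.depth x ≤ d := by
  induction d with
  | zero =>
    intro a m h
    obtain rfl : m = 0 := by omega
    exact ⟨nil, rfl, fun _ => le_rfl⟩
  | succ d ih =>
    intro a m h
    rcases Nat.eq_zero_or_pos m with rfl | hm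
    · exact ⟨nil, rfl, fun _ => Nat.zero_le _⟩
    obtain ⟨l, l1, l2⟩ := ih a (m / 2) (by omega)
    obtain ⟨r, r1, r2⟩ := ih (a + m / 2 + 1) (m - m / 2 - 1) (by omega)
    refine ⟨node l (a + m / 2) r, ?_, fun x => ?_⟩
    · rw [T.keys, l1, r1, ← List.range'_succ]
      have := @List.range'_append_1 a (m / 2) (m - m / 2 - 1 + 1)
      rw [this]
      congr 1
      omega
    · have := l2 x
      have := r2 x
      simp only [T.depth]
      split_ifs <;> omega

theorem optst_le (n d : ℕ) (h : n < 2 ^ d) (σ : List ℕ) : OPTst n σ ≤ σ.length * d := by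
  obtain ⟨S, h1, h2⟩ := balanced d 1 n h
  refine le_trans (b := (σ.map fun x => S.depth x).sum) (Nat.sInf_le ⟨S, h1, rfl⟩) ?_
  have := List.sum_le_card_nsmul (σ.map fun x => S.depth x) d (by
    intro y hy
    obtain ⟨x, -, rfl⟩ := List.mem_map.1 hy
    exact h2 x)
  simpa using this

end Pool.Agent.H35.Wpl
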