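import Mathlib

set_option autoImplicit false

namespace Pool.Agent.H35.ZsF

open Finset

/-- parent of the `j`-th non-root vertex -/
def par (a b : ℕ) : Fin (b + a) → Fin (b + 1) := Fin.append Fin.succ (fun _ => 0)

def rt (a b : ℕ) (j : Fin (b + a)) : Fin (b + 1 + (b + a)) := Fin.castAdd (b + a) (par a b j)

def ch (a b : ℕ) (j : Fin (b + a)) : Fin (b + 1 + (b + a)) := Fin.natAdd (b + 1) j

lemma rt_lt_ch (a b : ℕ) (i j : Fin (b + a)) : rt a b i < ch a b j := by
  have := (par a b i).isLt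
  simp only [rt, ch, Fin.lt_def, Fin.val_castAdd, Fin.val_natAdd]
  omega

lemma ch_inj (a b : ℕ) : Function.Injective (ch a b) := by
  intro i j h
  simp only [ch, Fin.ext_iff, Fin.val_natAdd] at h
  exact Fin.ext (by omega)

/-- a star with `a` leaves together with a matching with `b` edges -/
def GG (a b : ℕ) : SimpleGraph (Fin (b + 1 + (b + a))) where
  Adj u v := ∃ j, (u = rt a b j ∧ v = ch a b j) ∨ (v = rt a b j ∧ u = ch a b j)
  symm := ⟨by
    rintro u v ⟨j, h | h⟩
    · exact ⟨j, Or.inr h⟩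
    · exact ⟨j, Or.inl h⟩⟩
  loopless := ⟨by
    rintro u ⟨j, ⟨h1, h2⟩ | ⟨h1, h2⟩⟩ <;>
    · have := rt_lt_ch a b j j
      rw [← h1, ← h2] at this
      exact lt_irrefl _ this⟩

lemma adj_ch {a b : ℕ} {j : Fin (b + a)} {w} (h : (GG a b).Adj (ch a b j) w) : w = rt a b j := by
  obtain ⟨i, ⟨h1, _⟩ | ⟨h1, h2⟩⟩ := h
  · have := rt_lt_ch a b i j
    rw [h1] at this
    exact absurd this (lt_irrefl _)
  · rw [h1, ch_inj a b h2]

lemma edgeSet_eq (a b : ℕ) :
    (GG a b).edgeSet = Set.range (fun j => s(rt a b j, ch a b j)) := by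
  ext e
  induction e using Sym2.ind with
  | h u v =>
    simp only [SimpleGraph.mem_edgeSet, Set.mem_range]
    constructor
    · rintro ⟨j, ⟨h1, h2⟩ | ⟨h1, h2⟩⟩
      · exact ⟨j, by rw [h1, h2]⟩
      · exact ⟨j, by rw [h1, h2, Sym2.eq_swap]⟩
    · rintro ⟨j, h⟩
      rcases Sym2.eq_iff.1 h with ⟨h1, h2⟩ | ⟨h1, h2⟩
      · exact ⟨j, Or.inl ⟨h1.symm, h2.symm⟩⟩
      · exact ⟨j, Or.inr ⟨h1.symm, h2.symm⟩⟩

lemma acyclic (a b : ℕ) : (GG a b).IsAcyclic := by
  rw [SimpleGraph.isAcyclic_iff_forall_isBridge]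
  intro e he
  rw [edgeSet_eq] at he
  obtain ⟨j, rfl⟩ := he
  show (GG a b).IsBridge s(rt a b j, ch a b j)
  rw [SimpleGraph.isBridge_iff]
  intro h
  obtain ⟨p⟩ := h.symm
  have hne : ch a b j ≠ rt a b j := (rt_lt_ch a b j j).ne'
  generalize hx : ch a b j = x at p hne
  generalize hy : rt a b j = y at p hne
  cases p with
  | nil => exact hne rfl
  | cons h q =>
    rw [SimpleGraph.deleteEdges_adj] at h
    obtain ⟨h1, h2⟩ := h
    have := adj_ch (hx ▸ h1)
    apply h2
    rw [this, hy]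
    simp [Sym2.eq_swap]

lemma ncard_edges (a b : ℕ) : (GG a b).edgeSet.ncard = b + a := by
  rw [edgeSet_eq, ← Set.image_univ, Set.ncard_image_of_injective]
  · simp [Set.ncard_univ]
  · intro i j h
    rcases Sym2.eq_iff.1 h with ⟨_, h2⟩ | ⟨h1, _⟩
    · exact ch_inj a b h2
    · exact absurd h1 (rt_lt_ch a b i j).ne

open Classical in
lemma sum_edges {M : Type} [AddCommMonoid M] (a b : ℕ)
    (g : Fin (b + 1 + (b + a)) → Fin (b + 1 + (b + a)) → M) :
    (∑ u, ∑ v, if u < v ∧ (GG a b).Adj u v then g u v else 0) =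
      ∑ j, g (rt a b j) (ch a b j) := by
  rw [← Finset.sum_product', ← Finset.sum_filter]
  symm
  apply Finset.sum_bij (fun j _ => (rt a b j, ch a b j))
  · intro j _
    simp only [mem_filter, mem_product, mem_univ, true_and]
    exact ⟨rt_lt_ch a b j j, j, Or.inl ⟨rfl, rfl⟩⟩
  · intro i _ j _ h
    exact ch_inj a b (congrArg Prod.snd h)
  · rintro ⟨u, v⟩ h
    simp only [mem_filter, mem_product, mem_univ, true_and] at h
    obtain ⟨hlt, j, ⟨h1, h2⟩ | ⟨h1, h2⟩⟩ := h
    · exact ⟨j, mem_univ _, by rw [h1, h2]⟩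
    · rw [h1, h2] at hlt
      exact absurd hlt (not_lt.2 (rt_lt_ch a b j j).le)
  · intro j _
    rfl

/-- a copy of the forest all of whose edges satisfy `r` -/
def Emb (a b : ℕ) {V : Type} (r : V → V → Prop) : Prop :=
  ∃ f : Fin (b + 1 + (b + a)) → V, Function.Injective f ∧ ∀ j, r (f (rt a b j)) (f (ch a b j))

lemma emb_mk {a b : ℕ} {V : Type} (r : V → V → Prop) (u : V) (x y : Fin b → V) (l : Fin a → V)
    (hx : Function.Injective x) (hy : Function.Injective y) (hl : Function.Injective l)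
    (hux : ∀ i, x i ≠ u) (huy : ∀ i, y i ≠ u) (hul : ∀ i, l i ≠ u)
    (hxy : ∀ i j, x i ≠ y j) (hxl : ∀ i j, x i ≠ l j) (hyl : ∀ i j, y i ≠ l j)
    (h1 : ∀ i, r (x i) (y i)) (h2 : ∀ i, r u (l i)) : Emb a b r := by
  refine ⟨Fin.append (Fin.cons u x : Fin (b + 1) → V) (Fin.append y l), ?_, ?_⟩
  · rw [Fin.append_injective_iff]
    refine ⟨?_, ?_, ?_⟩
    · rw [Fin.cons_injective_iff]
      refine ⟨?_, hx⟩
      rintro ⟨i, hi⟩
      exact hux i hi
    · rw [Fin.append_injective_iff]
      exact ⟨hy, hl, hyl⟩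
    · intro i j
      refine Fin.cases ?_ (fun i => ?_) i <;> refine Fin.addCases (fun j => ?_) (fun j => ?_) j
      · simpa using (huy j).symm
      · simpa using (hul j).symm
      · simpa using hxy i j
      · simpa using hxl i j
  · intro j
    refine Fin.addCases (fun j => ?_) (fun j => ?_) j
    · simpa [rt, ch, par] using h1 j
    · simpa [rt, ch, par] using h2 j

/-- lower bound for the zero-sum number -/
lemma lower (a b N : ℕ) (ha : 1 ≤ a) (hN : N ≤ 2 * (b + a) - 2) :
    ∃ c : Sym2 (Fin N) → ZMod (b + a), ∀ f : Fin (b + 1 + (b + a)) → Fin N,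
      Function.Injective f → ∑ j, c s(f (rt a b j), f (ch a b j)) ≠ 0 := by
  classical
  let χ : Fin N → ℕ := fun x => if b + a - 1 ≤ x.val then 1 else 0
  refine ⟨Sym2.lift ⟨fun x y => ((χ x + χ y : ℕ) : ZMod (b + a)), fun x y => by
    simp only [add_comm]⟩, ?_⟩
  intro f hf h
  simp only [Sym2.lift_mk] at h
  rw [← Nat.cast_sum, ZMod.natCast_eq_zero_iff] at h
  have hT1 : ∑ v, χ (f v) ≤ b + a - 1 := by
    have : ∑ v, χ (f v) = (univ.filter (fun v => b + a - 1 ≤ (f v).val)).card := by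
      simp only [χ]
      rw [Finset.card_filter]
    rw [this]
    have := Finset.card_le_card_of_injOn (s := univ.filter (fun v => b + a - 1 ≤ (f v).val))
      (t := Finset.Ico (b + a - 1) N) (fun v => (f v).val) (by
        intro v hv
        simp only [coe_filter, mem_univ, true_and, Set.mem_setOf_eq] at hv
        simp only [coe_Ico, Set.mem_Ico]
        exact ⟨hv, (f v).isLt⟩) (by
        intro v _ w _ h
        exact hf (Fin.ext h))
    rw [Nat.card_Ico] at this
    omega
  have hT2 : b + 1 + (b + a) ≤ ∑ v, χ (f v) + (b + a - 1) := by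
    have h1 : ∑ v, χ (f v) = (univ.filter (fun v => b + a - 1 ≤ (f v).val)).card := by
      simp only [χ]
      rw [Finset.card_filter]
    have h2 := Finset.card_le_card_of_injOn
      (s := univ.filter (fun v => ¬ (b + a - 1 ≤ (f v).val)))
      (t := Finset.range (b + a - 1)) (fun v => (f v).val) (by
        intro v hv
        simp only [coe_filter, mem_univ, true_and, Set.mem_setOf_eq] at hv
        simp only [coe_range, Set.mem_Iio]
        omega) (by
        intro v _ w _ h
        exact hf (Fin.ext h))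
    have h3 := Finset.card_filter_add_card_filter_not (s := univ)
      (fun v => b + a - 1 ≤ (f v).val)
    simp only [card_univ, Fintype.card_fin, card_range] at h2 h3
    omega
  rw [Fin.sum_univ_add, Fin.sum_univ_succ] at hT1 hT2
  rw [Finset.sum_add_distrib] at h
  have hS : ∑ j, χ (f (rt a b j)) =
      ∑ i : Fin b, χ (f (Fin.castAdd (b + a) i.succ)) + a * χ (f (Fin.castAdd (b + a) 0)) := by
    rw [Fin.sum_univ_add]
    simp [rt, par]
  rw [hS] at h
  simp only [ch] at h
  generalize ∑ i : Fin b, χ (f (Fin.castAdd (b + a) i.succ)) = X at *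
  generalize ∑ i : Fin (b + a), χ (f (Fin.natAdd (b + 1) i)) = Y at *
  have h01 : χ (f (Fin.castAdd (b + a) 0)) = 0 ∨ χ (f (Fin.castAdd (b + a) 0)) = 1 := by
    simp only [χ]
    split_ifs <;> simp
  obtain ⟨q, hq⟩ := h
  rcases h01 with h0 | h0 <;> rw [h0] at hq hT1 hT2
  · rcases q with _ | q
    · omega
    · have : (b + a) * (q + 1) = (b + a) * q + (b + a) := by ring
      omega
  · rcases q with _ | _ | q
    · omega
    · omega
    · have : (b + a) * (q + 1 + 1) = (b + a) * q + 2 * (b + a) := by ring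
      omega

lemma inj_of_le_card {α : Type} (s : Finset α) (n : ℕ) (h : n ≤ s.card) :
    ∃ g : Fin n → α, Function.Injective g ∧ ∀ i, g i ∈ s := by
  refine ⟨fun i => (s.equivFin.symm (Fin.castLE h i)).val, ?_, fun i => Subtype.prop _⟩
  intro i j hij
  have := s.equivFin.symm.injective (Subtype.ext hij)
  exact Fin.castLE_injective h this

/-- finiteness: monochromatic copies for any finite number of colours -/
lemma finite_mono (a b : ℕ) (ha : 1 ≤ a) (C : Type) [Fintype C] [Nonempty C] :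
    ∃ N : ℕ, ∀ c : Sym2 (Fin N) → C, ∃ γ, Emb a b (fun x y => c s(x, y) = γ) := by
  classical
  set m := Fintype.card C
  refine ⟨(m * (b + 1)) * (m * a + 1), fun c => ?_⟩
  let e : Fin (m * (b + 1)) × Fin (m * a + 1) → Fin ((m * (b + 1)) * (m * a + 1)) :=
    finProdFinEquiv
  have he : Function.Injective e := finProdFinEquiv.injective
  have h1 : ∀ i : Fin (m * (b + 1)), ∃ γ : C, ∃ l : Fin a → Fin (m * a), Function.Injective l ∧
      ∀ t, c s(e (i, 0), e (i, (l t).succ)) = γ := by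
    intro i
    obtain ⟨γ, -, hγ⟩ := Finset.exists_le_card_fiber_of_mul_le_card_of_maps_to
      (s := (univ : Finset (Fin (m * a)))) (t := (univ : Finset C))
      (f := fun t => c s(e (i, 0), e (i, t.succ))) (n := a) (fun _ _ => mem_univ _)
      univ_nonempty (by simp [m])
    obtain ⟨l, hl, hl2⟩ := inj_of_le_card _ _ hγ
    exact ⟨γ, l, hl, fun t => (mem_filter.1 (hl2 t)).2⟩
  choose γ l hl hγ using h1
  obtain ⟨γ0, -, h0⟩ := Finset.exists_le_card_fiber_of_mul_le_card_of_maps_to
      (s := (univ : Finset (Fin (m * (b + 1))))) (t := (univ : Finset C))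
      (f := γ) (n := b + 1) (fun _ _ => mem_univ _) univ_nonempty (by simp [m])
  obtain ⟨β, hβ, hβ2⟩ := inj_of_le_card _ _ h0
  have hβ3 : ∀ i, γ (β i) = γ0 := fun i => (mem_filter.1 (hβ2 i)).2
  refine ⟨γ0, emb_mk _ (e (β 0, 0)) (fun i => e (β i.succ, 0))
    (fun i => e (β i.succ, (l (β i.succ) ⟨0, ha⟩).succ)) (fun t => e (β 0, (l (β 0) t).succ))
    ?_ ?_ ?_ ?_ ?_ ?_ ?_ ?_ ?_ ?_ ?_⟩
  · intro i j h
    exact Fin.succ_injective _ (hβ (congrArg Prod.fst (he h)))
  · intro i j h
    exact Fin.succ_injective _ (hβ (congrArg Prod.fst (he h)))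
  · intro i j h
    exact hl _ (Fin.succ_injective _ (congrArg Prod.snd (he h)))
  · intro i h
    exact Fin.succ_ne_zero _ (hβ (congrArg Prod.fst (he h)))
  · intro i h
    exact Fin.succ_ne_zero _ (hβ (congrArg Prod.fst (he h)))
  · intro i h
    exact Fin.succ_ne_zero _ (congrArg Prod.snd (he h))
  · intro i j h
    exact Fin.succ_ne_zero _ (congrArg Prod.snd (he h)).symm
  · intro i j h
    exact Fin.succ_ne_zero _ (hβ (congrArg Prod.fst (he h)))
  · intro i j h
    exact Fin.succ_ne_zero _ (hβ (congrArg Prod.fst (he h)))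
  · intro i
    rw [hγ, hβ3]
  · intro i
    rw [hγ, hβ3]

end Pool.Agent.H35.ZsF
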