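import Mathlib
import Pool.Agent.H35.ZsF1

set_option autoImplicit false

namespace Pool.Agent.H35.ZsF

open Finset

variable {V : Type} [Fintype V] [DecidableEq V] (c : Sym2 V → Bool)

def nb (t : Bool) (u : V) : Finset V := univ.filter (fun v => v ≠ u ∧ c s(u, v) = t)

def Mat (t : Bool) (U : Finset V) (k : ℕ) : Prop :=
  ∃ x y : Fin k → V, Function.Injective x ∧ Function.Injective y ∧ (∀ i j, x i ≠ y j) ∧
    ∀ i, x i ∈ U ∧ y i ∈ U ∧ c s(x i, y i) = t

def Clq (t : Bool) (Q : Finset V) : Prop := ∀ p ∈ Q, ∀ q ∈ Q, p ≠ q → c s(p, q) = t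

omit [Fintype V] in
lemma greedy (t : Bool) (k : ℕ) : ∀ U : Finset V,
    Mat c t U k ∨ ∃ I ⊆ U, U.card ≤ I.card + 2 * k ∧ Clq c (!t) I := by
  induction k with
  | zero =>
    intro U
    left
    exact ⟨Fin.elim0, Fin.elim0, fun i => i.elim0, fun i => i.elim0, fun i => i.elim0,
      fun i => i.elim0⟩
  | succ k ih =>
    intro U
    by_cases h : Clq c (!t) U
    · exact Or.inr ⟨U, subset_rfl, by omega, h⟩
    · simp only [Clq, not_forall] at h
      obtain ⟨p, hp, q, hq, hpq, hc⟩ := h
      have hc' : c s(p, q) = t := by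
        cases t <;> simpa using hc
      rcases ih ((U.erase p).erase q) with ⟨x, y, hx, hy, hxy, h⟩ | ⟨I, hI, hcard, hcl⟩
      · left
        have hx1 : ∀ i, x i ≠ p ∧ x i ≠ q ∧ x i ∈ U := fun i => by
          have := (h i).1
          simp only [mem_erase] at this
          tauto
        have hy1 : ∀ i, y i ≠ p ∧ y i ≠ q ∧ y i ∈ U := fun i => by
          have := (h i).2.1
          simp only [mem_erase] at this
          tauto
        refine ⟨Fin.cons p x, Fin.cons q y, ?_, ?_, ?_, ?_⟩
        · rw [Fin.cons_injective_iff]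
          exact ⟨fun ⟨i, hi⟩ => (hx1 i).1 hi, hx⟩
        · rw [Fin.cons_injective_iff]
          exact ⟨fun ⟨i, hi⟩ => (hy1 i).2.1 hi, hy⟩
        · intro i j
          refine Fin.cases ?_ (fun i => ?_) i <;> refine Fin.cases ?_ (fun j => ?_) j
          · simpa using hpq
          · simpa using (hy1 j).1.symm
          · simpa using (hx1 i).2.1
          · simpa using hxy i j
        · intro i
          refine Fin.cases ?_ (fun i => ?_) i
          · simpa using ⟨hp, hq, hc'⟩
          · simpa using ⟨(hx1 i).2.2, (hy1 i).2.2, (h i).2.2⟩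
      · right
        refine ⟨I, hI.trans ((erase_subset _ _).trans (erase_subset _ _)), ?_, hcl⟩
        have h1 := Finset.pred_card_le_card_erase (s := U) (a := p)
        have h2 := Finset.pred_card_le_card_erase (s := U.erase p) (a := q)
        omega

lemma assemble {a b : ℕ} (t : Bool) (u : V) (x y : Fin b → V) (hx : Function.Injective x)
    (hy : Function.Injective y) (hxy : ∀ i j, x i ≠ y j) (hux : ∀ i, x i ≠ u)
    (huy : ∀ i, y i ≠ u) (hc : ∀ i, c s(x i, y i) = t) (L : Finset V) (hL : L ⊆ nb c t u)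
    (hLa : a ≤ L.card) (hxL : ∀ i, x i ∉ L) (hyL : ∀ i, y i ∉ L) :
    Emb a b (fun p q => c s(p, q) = t) := by
  obtain ⟨l, hl, hl2⟩ := inj_of_le_card L a hLa
  have hl3 : ∀ i, l i ≠ u ∧ c s(u, l i) = t := fun i => by
    have := hL (hl2 i)
    simpa [nb] using this
  exact emb_mk _ u x y l hx hy hl hux huy (fun i => (hl3 i).1) hxy
    (fun i j h => hxL i (h ▸ hl2 j)) (fun i j h => hyL i (h ▸ hl2 j)) hc (fun i => (hl3 i).2)

/-- a star together with a matching outside it, or a big clique of the other colour -/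
lemma key {a b : ℕ} (t : Bool) (u : V) (L : Finset V) (hL : L ⊆ nb c t u) (hLa : L.card = a)
    (hno : ¬ Emb a b (fun p q => c s(p, q) = t)) :
    ∃ I : Finset V, Disjoint I (insert u L) ∧ Fintype.card V ≤ I.card + 2 * b + a + 1 ∧
      Clq c (!t) I := by
  rcases greedy c t b (univ \ insert u L) with ⟨x, y, hx, hy, hxy, h⟩ | ⟨I, hI, hcard, hcl⟩
  · exfalso
    apply hno
    have hx1 : ∀ i, x i ≠ u ∧ x i ∉ L := fun i => by simpa using (h i).1
    have hy1 : ∀ i, y i ≠ u ∧ y i ∉ L := fun i => by simpa using (h i).2.1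
    exact assemble c t u x y hx hy hxy (fun i => (hx1 i).1) (fun i => (hy1 i).1)
      (fun i => (h i).2.2) L hL hLa.ge (fun i => (hx1 i).2) (fun i => (hy1 i).2)
  · refine ⟨I, ?_, ?_, hcl⟩
    · exact Finset.disjoint_of_subset_left hI sdiff_disjoint
    · have h1 := Finset.le_card_sdiff (insert u L) univ
      have h2 := Finset.card_insert_le u L
      simp only [card_univ] at h1
      omega

lemma clique_case {a b : ℕ} (t : Bool) (Q : Finset V) (hQ : Clq c t Q) (q : V)
    (hcard : 2 * b + 3 ≤ Q.card) (hdeg : a + 2 * b ≤ (nb c t q).card) :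
    Emb a b (fun p q => c s(p, q) = t) := by
  rcases greedy c t b (Q.erase q) with ⟨x, y, hx, hy, hxy, h⟩ | ⟨I, hI, hc2, hcl⟩
  · refine assemble c t q x y hx hy hxy (fun i => (mem_erase.1 (h i).1).1)
      (fun i => (mem_erase.1 (h i).2.1).1) (fun i => (h i).2.2)
      (nb c t q \ (univ.image x ∪ univ.image y)) sdiff_subset ?_ (by simp) (by simp)
    have h1 := Finset.le_card_sdiff (univ.image x ∪ univ.image y) (nb c t q)
    have h2 := Finset.card_union_le (univ.image x) (univ.image y)
    have h3 := Finset.card_image_le (s := univ) (f := x)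
    have h4 := Finset.card_image_le (s := univ) (f := y)
    simp only [card_univ, Fintype.card_fin] at h3 h4
    omega
  · exfalso
    have h1 := Finset.pred_card_le_card_erase (s := Q) (a := q)
    obtain ⟨p, hp, r, hr, hpr⟩ := Finset.one_lt_card.1 (show 1 < I.card by omega)
    have h2 := hcl p hp r hr hpr
    have h3 := hQ p (mem_of_mem_erase (hI hp)) r (mem_of_mem_erase (hI hr)) hpr
    rw [h3] at h2
    cases t <;> simp at h2

lemma deg_sum (t : Bool) (u : V) :
    (nb c t u).card + (nb c (!t) u).card + 1 = Fintype.card V := by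
  have h1 : nb c t u ∪ nb c (!t) u = univ.erase u := by
    ext v
    simp only [nb, mem_union, mem_filter, mem_univ, true_and, mem_erase, and_true]
    cases t <;> cases c s(u, v) <;> simp
  have h2 : Disjoint (nb c t u) (nb c (!t) u) := by
    rw [Finset.disjoint_left]
    intro v h h'
    simp only [nb, mem_filter, mem_univ, true_and] at h h'
    rw [h.2] at h'
    cases t <;> simp at h'
  rw [← Finset.card_union_of_disjoint h2, h1, Finset.card_erase_add_one (mem_univ _), card_univ]

lemma hall_case {a b : ℕ} (t : Bool) (Q : Finset V) (hQ : Clq c (!t) Q)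
    (hcard : b + 1 ≤ Q.card) (hdeg : ∀ q ∈ Q, a + b ≤ (nb c t q).card) :
    Emb a b (fun p q => c s(p, q) = t) := by
  obtain ⟨g, hg, hg2⟩ := inj_of_le_card Q (b + 1) hcard
  have hout : ∀ q ∈ Q, ∀ v ∈ nb c t q, v ∉ Q := by
    intro q hq v hv hvQ
    simp only [nb, mem_filter, mem_univ, true_and] at hv
    have := hQ q hq v hvQ hv.1.symm
    rw [hv.2] at this
    cases t <;> simp at this
  obtain ⟨y, hy, hy2⟩ := (Finset.all_card_le_biUnion_card_iff_exists_injective
    (fun i : Fin b => nb c t (g i.succ))).1 (by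
      intro s
      rcases s.eq_empty_or_nonempty with rfl | ⟨i, hi⟩
      · simp
      · have h1 := Finset.card_le_card (Finset.subset_biUnion_of_mem
          (fun i : Fin b => nb c t (g i.succ)) hi)
        have h2 := hdeg _ (hg2 i.succ)
        have h3 := Finset.card_le_univ s
        simp only [Fintype.card_fin] at h3
        omega)
  refine assemble c t (g 0) (fun i => g i.succ) y (fun i j h => Fin.succ_injective _ (hg h)) hy
    (fun i j h => hout _ (hg2 _) _ (hy2 j) (h ▸ hg2 _))
    (fun i h => Fin.succ_ne_zero _ (hg h))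
    (fun i h => hout _ (hg2 _) _ (hy2 i) (h ▸ hg2 _))
    (fun i => by have := hy2 i; simp only [nb, mem_filter] at this; exact this.2.2)
    (nb c t (g 0) \ univ.image y) sdiff_subset ?_
    (fun i h => hout _ (hg2 0) _ (mem_sdiff.1 h).1 (hg2 _)) (by simp)
  have h1 := Finset.le_card_sdiff (univ.image y) (nb c t (g 0))
  have h3 := Finset.card_image_le (s := univ) (f := y)
  have h2 := hdeg _ (hg2 0)
  simp only [card_univ, Fintype.card_fin] at h3
  omega

lemma deg_ge (t : Bool) (Q R : Finset V) (hQ : Clq c t Q) (hd : Disjoint Q R) (q : V)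
    (hq : q ∈ Q) :
    Q.card + (R.filter (fun r => c s(q, r) = t)).card ≤ (nb c t q).card + 1 := by
  have h1 : Q.erase q ∪ R.filter (fun r => c s(q, r) = t) ⊆ nb c t q := by
    intro v hv
    simp only [mem_union, mem_erase, mem_filter] at hv
    simp only [nb, mem_filter, mem_univ, true_and]
    rcases hv with ⟨h, h'⟩ | ⟨h, h'⟩
    · exact ⟨h, hQ q hq v h' (Ne.symm h)⟩
    · exact ⟨fun e => Finset.disjoint_left.1 hd hq (e ▸ h), h'⟩
  have h2 := Finset.card_le_card h1
  rw [Finset.card_union_of_disjoint (Finset.disjoint_of_subset_left (erase_subset _ _)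
    (Finset.disjoint_of_subset_right (filter_subset _ _) hd))] at h2
  have h3 := Finset.card_erase_add_one hq
  omega

lemma two_cliques {b : ℕ} (hb : 1 ≤ b) (t : Bool) (Q R : Finset V) (hQ : Clq c t Q)
    (hR : Clq c (!t) R) (hd : Disjoint Q R) (hQc : Q.card = 10 * b) (hRc : R.card = 10 * b) :
    Emb (12 * b) b (fun p q => c s(p, q) = t) ∨
      Emb (12 * b) b (fun p q => c s(p, q) = !t) := by
  by_contra hno
  rw [not_or] at hno
  have h1 : ∀ q ∈ Q, (R.filter (fun r => c s(q, r) = t)).card ≤ 4 * b := by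
    intro q hq
    by_contra h
    have := deg_ge c t Q R hQ hd q hq
    exact hno.1 (clique_case c t Q hQ q (by omega) (by omega))
  have h2 : ∀ r ∈ R, (Q.filter (fun q => c s(r, q) = !t)).card ≤ 4 * b := by
    intro r hr
    by_contra h
    have := deg_ge c (!t) R Q hR hd.symm r hr
    exact hno.2 (clique_case c (!t) R hR r (by omega) (by omega))
  have h3 := Finset.sum_le_card_nsmul _ _ _ h1
  have h4 := Finset.sum_le_card_nsmul _ _ _ h2
  have h5 : ∑ r ∈ R, (Q.filter (fun q => c s(r, q) = !t)).card =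
      ∑ q ∈ Q, (R.filter (fun r => ¬ c s(q, r) = t)).card := by
    simp only [Finset.card_filter]
    rw [Finset.sum_comm]
    refine Finset.sum_congr rfl fun q _ => Finset.sum_congr rfl fun r _ => ?_
    rw [Sym2.eq_swap]
    cases t <;> cases c s(q, r) <;> simp
  have h6 : ∑ q ∈ Q, (R.filter (fun r => c s(q, r) = t)).card +
      ∑ q ∈ Q, (R.filter (fun r => ¬ c s(q, r) = t)).card = Q.card * R.card := by
    rw [← Finset.sum_add_distrib]
    simp only [Finset.card_filter_add_card_filter_not]
    simp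
  rw [hQc, smul_eq_mul] at h3
  rw [hRc, smul_eq_mul] at h4
  rw [hQc, hRc] at h6
  nlinarith

lemma upper {b : ℕ} (hb : 1 ≤ b) (hV : Fintype.card V = 25 * b) :
    ∃ t, Emb (12 * b) b (fun p q => c s(p, q) = t) := by
  by_contra hno
  rw [not_exists] at hno
  have : Nonempty V := Fintype.card_pos_iff.1 (by omega)
  obtain ⟨u⟩ := this
  obtain ⟨t, ht⟩ : ∃ t, 12 * b ≤ (nb c t u).card := by
    have := deg_sum c true u
    by_cases h : 12 * b ≤ (nb c true u).card
    · exact ⟨_, h⟩
    · exact ⟨!true, by omega⟩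
  obtain ⟨L, hL, hLc⟩ := Finset.exists_subset_card_eq ht
  obtain ⟨I, -, hIc, hI⟩ := key c t u L hL hLc (hno t)
  obtain ⟨Q, hQI, hQc⟩ := Finset.exists_subset_card_eq (show 10 * b ≤ I.card by omega)
  have hQ : Clq c (!t) Q := fun p hp q hq => hI p (hQI hp) q (hQI hq)
  by_cases h : ∃ q ∈ Q, 12 * b ≤ (nb c (!t) q).card
  · obtain ⟨q, hq, hd⟩ := h
    have hsub : Q.erase q ⊆ nb c (!t) q := by
      intro v hv
      simp only [mem_erase] at hv
      simp only [nb, mem_filter, mem_univ, true_and]
      exact ⟨hv.1, hQ q hq v hv.2 (Ne.symm hv.1)⟩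
    obtain ⟨L', hL1, hL2, hL3⟩ := Finset.exists_subsuperset_card_eq hsub
      (show (Q.erase q).card ≤ 12 * b by
        have := Finset.card_erase_le (s := Q) (a := q); omega) hd
    obtain ⟨J, hJd, hJc, hJ⟩ := key c (!t) q L' hL2 hL3 (hno _)
    obtain ⟨R, hRJ, hRc⟩ := Finset.exists_subset_card_eq (show 10 * b ≤ J.card by omega)
    have hR : Clq c (!(!t)) R := fun p hp q hq => hJ p (hRJ hp) q (hRJ hq)
    have hd2 : Disjoint Q R := by
      rw [Finset.disjoint_left]
      intro v hv hv'
      refine Finset.disjoint_left.1 hJd (hRJ hv') ?_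
      by_cases e : v = q
      · simp [e]
      · exact mem_insert_of_mem (hL1 (mem_erase.2 ⟨e, hv⟩))
    rcases two_cliques c hb (!t) Q R hQ hR hd2 hQc hRc with h | h
    · exact hno _ h
    · exact hno _ h
  · apply hno t
    refine hall_case c t Q hQ (by omega) ?_
    intro q hq
    have := deg_sum c t q
    have h2 : ¬ 12 * b ≤ (nb c (!t) q).card := fun h' => h ⟨q, hq, h'⟩
    omega

end Pool.Agent.H35.ZsF
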